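import Pool.Agent.Lib.MP_0dd0d9_ag.Alg

/-!
Transfer of algebraic identities to almost all indices.
-/

namespace Pool.Agent.Lib.MP_0dd0d9_ag

open Polynomial Filter

namespace Transfer

variable {K : Type*} [Field K] {av : K → ℝ} (Tr : Transfer K av)

theorem s_zero : ∀ᶠ N in (Tr.U : Filter ℕ), Tr.s 0 N = 0 := by
  simpa using Tr.s_cst 0

theorem s_one : ∀ᶠ N in (Tr.U : Filter ℕ), Tr.s 1 N = 1 := by
  simpa using Tr.s_cst 1

theorem s_natCast (m : ℕ) : ∀ᶠ N in (Tr.U : Filter ℕ), Tr.s (m : K) N = m := by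
  simpa using Tr.s_cst (m : ℂ)

theorem s_neg (x : K) : ∀ᶠ N in (Tr.U : Filter ℕ), Tr.s (-x) N = -Tr.s x N := by
  filter_upwards [Tr.s_add x (-x), Tr.s_zero] with N h1 h2
  rw [add_neg_cancel, h2] at h1
  exact (neg_eq_of_add_eq_zero_right h1.symm).symm

theorem s_sub (x y : K) : ∀ᶠ N in (Tr.U : Filter ℕ), Tr.s (x - y) N = Tr.s x N - Tr.s y N := by
  filter_upwards [Tr.s_add x (-y), Tr.s_neg y] with N h1 h2
  rw [sub_eq_add_neg, h1, h2, sub_eq_add_neg]

theorem s_ne_zero {x : K} (hx : x ≠ 0) : ∀ᶠ N in (Tr.U : Filter ℕ), Tr.s x N ≠ 0 := by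
  filter_upwards [Tr.s_mul x x⁻¹, Tr.s_one] with N h1 h2 h0
  rw [mul_inv_cancel₀ hx, h2, h0, zero_mul] at h1
  exact one_ne_zero h1

theorem s_inv (x : K) : ∀ᶠ N in (Tr.U : Filter ℕ), Tr.s x⁻¹ N = (Tr.s x N)⁻¹ := by
  by_cases hx : x = 0
  · subst hx
    filter_upwards [Tr.s_zero] with N h
    rw [inv_zero, h, inv_zero]
  · filter_upwards [Tr.s_mul x x⁻¹, Tr.s_one] with N h1 h2
    rw [mul_inv_cancel₀ hx, h2] at h1
    exact (inv_eq_of_mul_eq_one_right h1.symm).symm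

theorem s_div (x y : K) : ∀ᶠ N in (Tr.U : Filter ℕ), Tr.s (x / y) N = Tr.s x N / Tr.s y N := by
  filter_upwards [Tr.s_mul x y⁻¹, Tr.s_inv y] with N h1 h2
  rw [div_eq_mul_inv, h1, h2, div_eq_mul_inv]

theorem s_pow (x : K) (m : ℕ) : ∀ᶠ N in (Tr.U : Filter ℕ), Tr.s (x ^ m) N = Tr.s x N ^ m := by
  induction m with
  | zero => simpa using Tr.s_one
  | succ m ih =>
    filter_upwards [ih, Tr.s_mul (x ^ m) x] with N h1 h2
    rw [pow_succ, h2, h1, pow_succ]

theorem s_sum {ι : Type*} (t : Finset ι) (f : ι → K) :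
    ∀ᶠ N in (Tr.U : Filter ℕ), Tr.s (∑ i ∈ t, f i) N = ∑ i ∈ t, Tr.s (f i) N := by
  classical
  induction t using Finset.induction_on with
  | empty => simpa using Tr.s_zero
  | insert a t ha ih =>
    filter_upwards [ih, Tr.s_add (f a) (∑ i ∈ t, f i)] with N h1 h2
    rw [Finset.sum_insert ha, Finset.sum_insert ha, h2, h1]

theorem s_prod {ι : Type*} (t : Finset ι) (f : ι → K) :
    ∀ᶠ N in (Tr.U : Filter ℕ), Tr.s (∏ i ∈ t, f i) N = ∏ i ∈ t, Tr.s (f i) N := by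
  classical
  induction t using Finset.induction_on with
  | empty => simpa using Tr.s_one
  | insert a t ha ih =>
    filter_upwards [ih, Tr.s_mul (f a) (∏ i ∈ t, f i)] with N h1 h2
    rw [Finset.prod_insert ha, Finset.prod_insert ha, h2, h1]

theorem s_multiset_prod {ι : Type*} (t : Multiset ι) (f : ι → K) :
    ∀ᶠ N in (Tr.U : Filter ℕ), Tr.s (t.map f).prod N = (t.map fun i => Tr.s (f i) N).prod := by
  induction t using Multiset.induction_on with
  | empty => simpa using Tr.s_one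
  | cons a t ih =>
    filter_upwards [ih, Tr.s_mul (f a) (t.map f).prod] with N h1 h2
    simp only [Multiset.map_cons, Multiset.prod_cons]
    rw [h2, h1]

theorem s_le_unif {ι : Type*} [Finite ι] (x y : ι → K) (h : ∀ i, av (x i) ≤ av (y i)) :
    ∃ M : ℝ, 1 ≤ M ∧ ∀ᶠ N in (Tr.U : Filter ℕ), ∀ i, ‖Tr.s (x i) N‖ ≤ M * ‖Tr.s (y i) N‖ := by
  choose M hM using fun i => Tr.s_le (x i) (y i) (h i)
  obtain ⟨B, hB⟩ := (Set.finite_range M).bddAbove
  refine ⟨max 1 B, le_max_left _ _, ?_⟩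
  rw [eventually_all]
  intro i
  filter_upwards [hM i] with N hN
  exact hN.trans (mul_le_mul_of_nonneg_right ((hB ⟨i, rfl⟩).trans (le_max_right _ _))
    (norm_nonneg _))

/-- The complex polynomials `q N` represent `p`. -/
def Rep (p : K[X]) (q : ℕ → ℂ[X]) : Prop :=
  (∃ D, ∀ N, (q N).natDegree ≤ D) ∧
    ∀ x, ∀ᶠ N in (Tr.U : Filter ℕ), (q N).eval (Tr.s x N) = Tr.s (p.eval x) N

variable {Tr}

theorem Rep.unique {p : K[X]} {q q' : ℕ → ℂ[X]} (h : Tr.Rep p q) (h' : Tr.Rep p q') :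
    ∀ᶠ N in (Tr.U : Filter ℕ), q N = q' N := by
  obtain ⟨⟨D, hD⟩, h⟩ := h
  obtain ⟨⟨D', hD'⟩, h'⟩ := h'
  have key : ∀ᶠ N in (Tr.U : Filter ℕ), ∀ j : Fin (D + D' + 1),
      (q N).eval ((j.val : ℕ) : ℂ) = (q' N).eval ((j.val : ℕ) : ℂ) := by
    rw [eventually_all]
    intro j
    filter_upwards [h (j.val : K), h' (j.val : K), Tr.s_natCast j.val] with N h1 h2 h3
    rw [h3] at h1 h2
    rw [h1, h2]
  filter_upwards [key] with N hN
  refine eq_of_natDegree_lt_card_of_eval_eq (q N) (q' N)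
    (f := fun j : Fin (D + D' + 1) => ((j.val : ℕ) : ℂ)) ?_ hN ?_
  · intro a b hab
    exact Fin.ext (Nat.cast_injective (R := ℂ) hab)
  · have := hD N
    have := hD' N
    simp only [Fintype.card_fin, sup_lt_iff]
    omega

theorem Rep.mul {p p' : K[X]} {q q' : ℕ → ℂ[X]} (h : Tr.Rep p q) (h' : Tr.Rep p' q') :
    Tr.Rep (p * p') (fun N => q N * q' N) := by
  obtain ⟨⟨D, hD⟩, h⟩ := h
  obtain ⟨⟨D', hD'⟩, h'⟩ := h'
  refine ⟨⟨D + D', fun N => natDegree_mul_le.trans (add_le_add (hD N) (hD' N))⟩, fun x => ?_⟩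
  filter_upwards [h x, h' x, Tr.s_mul (p.eval x) (p'.eval x)] with N h1 h2 h3
  rw [eval_mul, eval_mul, h1, h2, h3]

theorem Rep.sub {p p' : K[X]} {q q' : ℕ → ℂ[X]} (h : Tr.Rep p q) (h' : Tr.Rep p' q') :
    Tr.Rep (p - p') (fun N => q N - q' N) := by
  obtain ⟨⟨D, hD⟩, h⟩ := h
  obtain ⟨⟨D', hD'⟩, h'⟩ := h'
  refine ⟨⟨max D D', fun N => (natDegree_sub_le _ _).trans (max_le_max (hD N) (hD' N))⟩,
    fun x => ?_⟩
  filter_upwards [h x, h' x, Tr.s_sub (p.eval x) (p'.eval x)] with N h1 h2 h3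
  rw [eval_sub, eval_sub, h1, h2, h3]

theorem rep_fac (a : K) (t : Multiset K) :
    Tr.Rep (C a * (t.map fun y => X - C y).prod)
      (fun N => C (Tr.s a N) * (t.map fun y => X - C (Tr.s y N)).prod) := by
  classical
  refine ⟨⟨t.card, fun N => ?_⟩, fun x => ?_⟩
  · refine natDegree_mul_le.trans ?_
    rw [natDegree_C, zero_add]
    have : (t.map fun y => X - C (Tr.s y N)) = (t.map fun y => Tr.s y N).map fun y => X - C y := by
      rw [Multiset.map_map]; rfl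
    rw [this, natDegree_multiset_prod_X_sub_C_eq_card, Multiset.card_map]
  · have hall : ∀ᶠ N in (Tr.U : Filter ℕ), ∀ y ∈ t.toFinset,
        Tr.s (x - y) N = Tr.s x N - Tr.s y N := by
      rw [Finset.eventually_all]
      exact fun y _ => Tr.s_sub x y
    filter_upwards [hall, Tr.s_multiset_prod t (fun y => x - y),
      Tr.s_mul a (t.map fun y => x - y).prod] with N h1 h2 h3
    simp only [eval_mul, eval_C, eval_multiset_prod, Multiset.map_map, Function.comp_def,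
      eval_sub, eval_X]
    rw [h3, h2]
    congr 2
    exact Multiset.map_congr rfl fun y hy => (h1 y (Multiset.mem_toFinset.2 hy)).symm

theorem rep_fac' {ι : Type*} [Fintype ι] (a : K) (c : ι → K) :
    Tr.Rep (C a * ∏ i, (X - C (c i))) (fun N => C (Tr.s a N) * ∏ i, (X - C (Tr.s (c i) N))) := by
  have := rep_fac (Tr := Tr) a (Finset.univ.val.map c)
  simpa only [Multiset.map_map, Function.comp_def, Finset.prod_map_val] using this

variable (Tr) in
/-- Coefficientwise representative. -/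
noncomputable def sp (p : K[X]) (N : ℕ) : ℂ[X] :=
  ∑ i ∈ p.support, monomial i (Tr.s (p.coeff i) N)

theorem natDegree_sp_le (p : K[X]) (N : ℕ) : (Tr.sp p N).natDegree ≤ p.natDegree := by
  unfold sp
  refine natDegree_sum_le_of_forall_le _ _ fun i hi => ?_
  exact (natDegree_monomial_le _).trans (le_natDegree_of_mem_supp i hi)

theorem coeff_sp (p : K[X]) (N i : ℕ) :
    (Tr.sp p N).coeff i = if i ∈ p.support then Tr.s (p.coeff i) N else 0 := by
  unfold sp
  simp only [finsetSum_coeff, coeff_monomial]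
  rw [Finset.sum_ite_eq']

theorem coeff_sp_ev (p : K[X]) :
    ∀ᶠ N in (Tr.U : Filter ℕ), ∀ i, (Tr.sp p N).coeff i = Tr.s (p.coeff i) N := by
  filter_upwards [Tr.s_zero] with N h i
  rw [coeff_sp]
  split_ifs with hi
  · rfl
  · rw [notMem_support_iff.1 hi, h]

theorem rep_sp (p : K[X]) : Tr.Rep p (Tr.sp p) := by
  refine ⟨⟨_, natDegree_sp_le p⟩, fun x => ?_⟩
  have hall : ∀ᶠ N in (Tr.U : Filter ℕ), ∀ i ∈ p.support,
      Tr.s (p.coeff i * x ^ i) N = Tr.s (p.coeff i) N * Tr.s x N ^ i := by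
    rw [Finset.eventually_all]
    intro i _
    filter_upwards [Tr.s_mul (p.coeff i) (x ^ i), Tr.s_pow x i] with N h1 h2
    rw [h1, h2]
  filter_upwards [hall, Tr.s_sum p.support (fun i => p.coeff i * x ^ i)] with N h1 h2
  rw [eval_eq_sum (p := p), sum_def, h2]
  unfold sp
  rw [eval_finsetSum]
  exact Finset.sum_congr rfl fun i hi => by rw [eval_monomial, h1 i hi]

theorem rep_derivative (p : K[X]) : Tr.Rep (derivative p) (fun N => derivative (Tr.sp p N)) := by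
  refine ⟨⟨p.natDegree, fun N => (natDegree_derivative_le _).trans
    ((Nat.sub_le _ _).trans (natDegree_sp_le p N))⟩, fun x => ?_⟩
  have hall : ∀ᶠ N in (Tr.U : Filter ℕ), ∀ i ∈ p.support,
      Tr.s (p.coeff i * i * x ^ (i - 1)) N = Tr.s (p.coeff i) N * i * Tr.s x N ^ (i - 1) := by
    rw [Finset.eventually_all]
    intro i _
    filter_upwards [Tr.s_mul (p.coeff i * i) (x ^ (i - 1)), Tr.s_mul (p.coeff i) i,
      Tr.s_pow x (i - 1), Tr.s_natCast i] with N h1 h2 h3 h4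
    rw [h1, h2, h3, h4]
  filter_upwards [hall, Tr.s_sum p.support (fun i => p.coeff i * i * x ^ (i - 1))] with N h1 h2
  rw [derivative_eval p, sum_def, h2]
  unfold sp
  rw [derivative_sum, eval_finsetSum]
  exact Finset.sum_congr rfl fun i hi => by
    rw [derivative_monomial, eval_monomial, h1 i hi]

theorem rep_wr (A B : K[X]) : Tr.Rep (wr A B) (fun N => wr (Tr.sp A N) (Tr.sp B N)) :=
  ((rep_derivative A).mul (rep_sp B)).sub ((rep_sp A).mul (rep_derivative B))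

section qq

variable {ι : Type*} [Fintype ι] [DecidableEq ι]

theorem rep_pp (P : ι → K) : Tr.Rep (pp P) (fun N => pp fun i => Tr.s (P i) N) := by
  refine ⟨⟨Fintype.card ι, fun N => ?_⟩, fun x => ?_⟩
  · unfold pp
    rw [natDegree_prod_of_monic _ _ fun i _ => monic_X_sub_C _]
    simp
  · have hall : ∀ᶠ N in (Tr.U : Filter ℕ), ∀ i, Tr.s (x - P i) N = Tr.s x N - Tr.s (P i) N := by
      rw [eventually_all]
      exact fun i => Tr.s_sub x (P i)
    filter_upwards [hall, Tr.s_prod Finset.univ (fun i => x - P i)] with N h1 h2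
    simp only [pp, eval_prod, eval_sub, eval_X, eval_C]
    rw [h2]
    exact Finset.prod_congr rfl fun i _ => (h1 i).symm

theorem rep_nq (P α : ι → K) :
    Tr.Rep (nq P α) (fun N => nq (fun i => Tr.s (P i) N) fun i => Tr.s (α i) N) := by
  refine ⟨⟨Fintype.card ι, fun N => ?_⟩, fun x => ?_⟩
  · unfold nq
    refine natDegree_sum_le_of_forall_le _ _ fun i _ => (natDegree_C_mul_le _ _).trans ?_
    rw [natDegree_prod_of_monic _ _ fun i _ => monic_X_sub_C _]
    simp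
  · have hall : ∀ᶠ N in (Tr.U : Filter ℕ), ∀ i, Tr.s (x - P i) N = Tr.s x N - Tr.s (P i) N := by
      rw [eventually_all]
      exact fun i => Tr.s_sub x (P i)
    have hall2 : ∀ᶠ N in (Tr.U : Filter ℕ), ∀ i,
        Tr.s (α i * ∏ l ∈ Finset.univ.erase i, (x - P l)) N =
          Tr.s (α i) N * ∏ l ∈ Finset.univ.erase i, Tr.s (x - P l) N := by
      rw [eventually_all]
      intro i
      filter_upwards [Tr.s_mul (α i) (∏ l ∈ Finset.univ.erase i, (x - P l)),
        Tr.s_prod (Finset.univ.erase i) (fun l => x - P l)] with N h1 h2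
      rw [h1, h2]
    filter_upwards [hall, hall2,
      Tr.s_sum Finset.univ (fun i => α i * ∏ l ∈ Finset.univ.erase i, (x - P l))] with N h1 h2 h3
    simp only [nq, eval_finsetSum, eval_mul, eval_prod, eval_sub, eval_X, eval_C]
    rw [h3]
    refine Finset.sum_congr rfl fun i _ => ?_
    rw [h2 i]
    congr 1
    exact Finset.prod_congr rfl fun l _ => (h1 l).symm

theorem s_qf (P α : ι → K) (x : K) : ∀ᶠ N in (Tr.U : Filter ℕ),
    Tr.s (qf P α x) N = qf (fun i => Tr.s (P i) N) (fun i => Tr.s (α i) N) (Tr.s x N) := by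
  have hall : ∀ᶠ N in (Tr.U : Filter ℕ), ∀ i,
      Tr.s (α i / (x - P i)) N = Tr.s (α i) N / (Tr.s x N - Tr.s (P i) N) := by
    rw [eventually_all]
    intro i
    filter_upwards [Tr.s_div (α i) (x - P i), Tr.s_sub x (P i)] with N h1 h2
    rw [h1, h2]
  filter_upwards [hall, Tr.s_sum Finset.univ (fun i => α i / (x - P i))] with N h1 h2
  unfold qf
  rw [h2]
  exact Finset.sum_congr rfl fun i _ => h1 i

theorem s_bet (A B : K[X]) (nxt : ι ≃ ι) (P α : ι → K) (i : ι) : ∀ᶠ N in (Tr.U : Filter ℕ),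
    Tr.s (bet A B nxt P α i) N =
      bet (Tr.sp A N) (Tr.sp B N) nxt (fun i => Tr.s (P i) N) (fun i => Tr.s (α i) N) i := by
  filter_upwards [Tr.s_sub (α i) (α (nxt i) * (wr A B).eval (P i) / (B.eval (P i)) ^ 2),
    Tr.s_div (α (nxt i) * (wr A B).eval (P i)) ((B.eval (P i)) ^ 2),
    Tr.s_mul (α (nxt i)) ((wr A B).eval (P i)), Tr.s_pow (B.eval (P i)) 2,
    (rep_wr (Tr := Tr) A B).2 (P i), (rep_sp (Tr := Tr) B).2 (P i)] with N h1 h2 h3 h4 h5 h6
  unfold bet
  rw [h1, h2, h3, h4, h5, h6]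

theorem s_fm (B : K[X]) (nxt : ι ≃ ι) (P α : ι → K) (μ : ℕ) : ∀ᶠ N in (Tr.U : Filter ℕ),
    Tr.s (fm B nxt P α μ) N =
      fm (Tr.sp B N) nxt (fun i => Tr.s (P i) N) (fun i => Tr.s (α i) N) μ := by
  have hall : ∀ᶠ N in (Tr.U : Filter ℕ), ∀ i,
      Tr.s (α (nxt i) * P i ^ μ / (B.eval (P i)) ^ 2) N =
        Tr.s (α (nxt i)) N * Tr.s (P i) N ^ μ / ((Tr.sp B N).eval (Tr.s (P i) N)) ^ 2 := by
    rw [eventually_all]
    intro i
    filter_upwards [Tr.s_div (α (nxt i) * P i ^ μ) ((B.eval (P i)) ^ 2),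
      Tr.s_mul (α (nxt i)) (P i ^ μ), Tr.s_pow (B.eval (P i)) 2, Tr.s_pow (P i) μ,
      (rep_sp (Tr := Tr) B).2 (P i)] with N h1 h2 h3 h4 h5
    rw [h1, h2, h3, h4, h5]
  filter_upwards [hall,
    Tr.s_sum Finset.univ (fun i => α (nxt i) * P i ^ μ / (B.eval (P i)) ^ 2)] with N h1 h2
  unfold fm
  rw [h2]
  exact Finset.sum_congr rfl fun i _ => h1 i

end qq

end Transfer

theorem qf_eq_div {K : Type*} [Field K] {ι : Type*} [Fintype ι] [DecidableEq ι] (P α : ι → K)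
    {x : K} (hx : (pp P).eval x ≠ 0) : qf P α x = (nq P α).eval x / (pp P).eval x := by
  simp only [pp, eval_prod, eval_sub, eval_X, eval_C] at hx ⊢
  simp only [qf, nq, eval_finsetSum, eval_mul, eval_prod, eval_sub, eval_X, eval_C,
    Finset.sum_div]
  refine Finset.sum_congr rfl fun i _ => ?_
  have h1 : x - P i ≠ 0 := Finset.prod_ne_zero_iff.1 hx i (Finset.mem_univ i)
  rw [← Finset.mul_prod_erase _ _ (Finset.mem_univ i)] at hx ⊢
  have h2 := right_ne_zero_of_mul hx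
  field_simp

/-- Nearly constant families of functions on small discs. -/
def NC (F : Filter ℕ) (xs : ℕ → ℂ) (rs : ℕ → ℝ) (f : ℕ → ℂ → ℂ) : Prop :=
  ∀ η : ℝ, 0 < η → ∃ δ : ℝ, 0 < δ ∧ ∀ᶠ N in F, ∀ x, ‖x - xs N‖ ≤ δ * rs N →
    ‖f N x - f N (xs N)‖ ≤ η * ‖f N (xs N)‖

variable {F : Filter ℕ} {xs : ℕ → ℂ} {rs : ℕ → ℝ}

theorem NC.const (a : ℕ → ℂ) : NC F xs rs fun N _ => a N := fun η hη =>
  ⟨1, one_pos, Eventually.of_forall fun N x _ => by simp; positivity⟩

theorem NC.congr {f g : ℕ → ℂ → ℂ} (h : NC F xs rs f) (hfg : ∀ᶠ N in F, f N = g N) :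
    NC F xs rs g := fun η hη => by
  obtain ⟨δ, hδ, h⟩ := h η hη
  refine ⟨δ, hδ, ?_⟩
  filter_upwards [h, hfg] with N h1 h2
  rwa [← h2]

theorem NC.linear {ys : ℕ → ℂ} {M : ℝ} (hM : 0 < M) (h : ∀ᶠ N in F, rs N ≤ M * ‖xs N - ys N‖) :
    NC F xs rs fun N x => x - ys N := fun η hη => by
  refine ⟨η / M, by positivity, ?_⟩
  filter_upwards [h] with N hN x hx
  have : x - ys N - (xs N - ys N) = x - xs N := by ring
  rw [this]
  refine hx.trans ?_
  calc η / M * rs N ≤ η / M * (M * ‖xs N - ys N‖) :=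
        mul_le_mul_of_nonneg_left hN (by positivity)
    _ = η * ‖xs N - ys N‖ := by field_simp

theorem NC.mul (hrs : ∀ N, 0 ≤ rs N) {f g : ℕ → ℂ → ℂ} (hf : NC F xs rs f) (hg : NC F xs rs g) :
    NC F xs rs fun N x => f N x * g N x := fun η hη => by
  obtain ⟨δ1, hδ1, h1⟩ := hf (min 1 (η / 3)) (by positivity)
  obtain ⟨δ2, hδ2, h2⟩ := hg (min 1 (η / 3)) (by positivity)
  refine ⟨min δ1 δ2, by positivity, ?_⟩
  filter_upwards [h1, h2] with N h1 h2 x hx
  have a1 := h1 x (hx.trans (mul_le_mul_of_nonneg_right (min_le_left _ _) (hrs N)))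
  have a2 := h2 x (hx.trans (mul_le_mul_of_nonneg_right (min_le_right _ _) (hrs N)))
  set e := min 1 (η / 3) with he
  have he1 : e ≤ 1 := min_le_left _ _
  have he2 : e ≤ η / 3 := min_le_right _ _
  have he0 : 0 ≤ e := by positivity
  have : f N x * g N x - f N (xs N) * g N (xs N) =
      (f N x - f N (xs N)) * (g N x - g N (xs N)) + (f N x - f N (xs N)) * g N (xs N) +
        f N (xs N) * (g N x - g N (xs N)) := by ring
  rw [this, norm_mul]
  have b0 := norm_nonneg (f N (xs N))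
  have b1 := norm_nonneg (g N (xs N))
  calc _ ≤ ‖f N x - f N (xs N)‖ * ‖g N x - g N (xs N)‖ + ‖f N x - f N (xs N)‖ * ‖g N (xs N)‖ +
        ‖f N (xs N)‖ * ‖g N x - g N (xs N)‖ := by
        refine (norm_add₃_le).trans ?_
        simp only [norm_mul, le_refl]
    _ ≤ (e * ‖f N (xs N)‖) * (e * ‖g N (xs N)‖) + (e * ‖f N (xs N)‖) * ‖g N (xs N)‖ +
        ‖f N (xs N)‖ * (e * ‖g N (xs N)‖) := by gcongr
    _ = (e * e + 2 * e) * (‖f N (xs N)‖ * ‖g N (xs N)‖) := by ring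
    _ ≤ η * (‖f N (xs N)‖ * ‖g N (xs N)‖) := by
        refine mul_le_mul_of_nonneg_right ?_ (by positivity)
        nlinarith

theorem NC.inv {f : ℕ → ℂ → ℂ} (hf : NC F xs rs f) : NC F xs rs fun N x => (f N x)⁻¹ :=
  fun η hη => by
  obtain ⟨δ, hδ, h⟩ := hf (min (1 / 2) (η / 2)) (by positivity)
  refine ⟨δ, hδ, ?_⟩
  filter_upwards [h] with N h x hx
  have a := h x hx
  set e := min (1 / 2 : ℝ) (η / 2) with he
  have he1 : e ≤ 1 / 2 := min_le_left _ _
  have he2 : e ≤ η / 2 := min_le_right _ _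
  by_cases h0 : f N (xs N) = 0
  · rw [h0, norm_zero, mul_zero, sub_zero, norm_le_zero_iff] at a
    simp [a, h0]
  · have hp : 0 < ‖f N (xs N)‖ := norm_pos_iff.2 h0
    have hl : ‖f N (xs N)‖ / 2 ≤ ‖f N x‖ := by
      have := norm_sub_norm_le (f N (xs N)) (f N x)
      rw [norm_sub_rev] at this
      nlinarith
    have hp' : 0 < ‖f N x‖ := by linarith
    have hx0 : f N x ≠ 0 := norm_pos_iff.1 hp'
    have : (f N x)⁻¹ - (f N (xs N))⁻¹ = -(f N x - f N (xs N)) / (f N x * f N (xs N)) := by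
      field_simp; ring
    rw [this, norm_div, norm_neg, norm_mul, norm_inv, div_le_iff₀ (by positivity)]
    calc _ ≤ e * ‖f N (xs N)‖ := a
      _ ≤ η / 2 * ‖f N (xs N)‖ := by gcongr
      _ = η * (‖f N (xs N)‖ / 2) := by ring
      _ ≤ η * ‖f N x‖ := by gcongr
      _ = _ := by field_simp

theorem NC.pow (hrs : ∀ N, 0 ≤ rs N) {f : ℕ → ℂ → ℂ} (hf : NC F xs rs f) (m : ℕ) :
    NC F xs rs fun N x => f N x ^ m := by
  induction m with
  | zero => simpa using NC.const (F := F) (xs := xs) (rs := rs) fun _ => 1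
  | succ m ih => simpa only [pow_succ] using ih.mul hrs hf

theorem NC.multiset_prod (hrs : ∀ N, 0 ≤ rs N) {ι : Type*} (t : Multiset ι) {f : ι → ℕ → ℂ → ℂ}
    (hf : ∀ i ∈ t, NC F xs rs (f i)) : NC F xs rs fun N x => (t.map fun i => f i N x).prod := by
  induction t using Multiset.induction_on with
  | empty => simpa using NC.const (F := F) (xs := xs) (rs := rs) fun _ => 1
  | cons a t ih =>
    simpa only [Multiset.map_cons, Multiset.prod_cons] using
      (hf a (Multiset.mem_cons_self _ _)).mul hrs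
        (ih fun i hi => hf i (Multiset.mem_cons_of_mem hi))

/-- A polynomial is nearly constant near a generic point. -/
theorem Transfer.Rep.nc {K : Type*} [NormedField K] [IsAlgClosed K]
    {Tr : Transfer K (fun x => ‖x‖)} {p : K[X]} {q : ℕ → ℂ[X]} (h : Tr.Rep p q) {x ρ : K}
    (hg : Gen p x ‖ρ‖) :
    NC (Tr.U : Filter ℕ) (Tr.s x) (fun N => ‖Tr.s ρ N‖) fun N z => (q N).eval z := by
  have hrs : ∀ N, 0 ≤ ‖Tr.s ρ N‖ := fun N => norm_nonneg _
  have hp := (IsAlgClosed.splits p).eq_prod_roots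
  have h2 := Transfer.rep_fac (Tr := Tr) p.leadingCoeff p.roots
  rw [← hp] at h2
  have h3 : NC (Tr.U : Filter ℕ) (Tr.s x) (fun N => ‖Tr.s ρ N‖) fun N z =>
      Tr.s p.leadingCoeff N * (p.roots.map fun y => z - Tr.s y N).prod := by
    refine (NC.const _).mul hrs (NC.multiset_prod hrs _ fun y hy => ?_)
    obtain ⟨M, hM⟩ := Tr.s_le ρ (x - y) (hg y (isRoot_of_mem_roots hy))
    refine NC.linear (M := max 1 M) (by positivity) ?_
    filter_upwards [hM, Tr.s_sub x y] with N h1 h2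
    rw [h2] at h1
    exact h1.trans (mul_le_mul_of_nonneg_right (le_max_right _ _) (norm_nonneg _))
  refine h3.congr ?_
  filter_upwards [h2.unique h] with N hN
  funext z
  rw [← hN]
  simp only [eval_mul, eval_C, eval_multiset_prod, Multiset.map_map, Function.comp_def,
    eval_sub, eval_X]

/-- A complex polynomial has a root close to a point where the Newton step is small. -/
theorem complex_root_near {g : ℂ[X]} {d : ℕ} (hg : g.natDegree ≤ d) {x : ℂ}
    (h : (derivative g).eval x ≠ 0) :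
    ∃ y, g.IsRoot y ∧ ‖y - x‖ * ‖(derivative g).eval x‖ ≤ d * ‖g.eval x‖ := by
  by_cases h0 : g.eval x = 0
  · exact ⟨x, h0, by simp [h0]⟩
  have hs := (IsAlgClosed.splits g).eval_derivative_eq_eval_mul_sum h0
  have hne : g.roots.toFinset.Nonempty := by
    by_contra hc
    rw [Finset.not_nonempty_iff_eq_empty, Multiset.toFinset_eq_empty] at hc
    rw [hc] at hs
    simp only [Multiset.map_zero, Multiset.sum_zero, mul_zero] at hs
    exact h hs
  obtain ⟨y, hy, hmin⟩ := Finset.exists_min_image _ (fun y => ‖x - y‖) hne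
  have hyr : g.IsRoot y := isRoot_of_mem_roots (Multiset.mem_toFinset.1 hy)
  refine ⟨y, hyr, ?_⟩
  have hxy : 0 < ‖x - y‖ := norm_pos_iff.2 fun h1 => h0 (by rw [sub_eq_zero.1 h1]; exact hyr)
  have hb : ‖(g.roots.map fun z => 1 / (x - z)).sum‖ ≤ d * ‖x - y‖⁻¹ := by
    refine (norm_multiset_sum_le _).trans ?_
    rw [Multiset.map_map]
    refine (Multiset.sum_le_card_nsmul _ (‖x - y‖⁻¹) ?_).trans ?_
    · intro a ha
      obtain ⟨z, hz, rfl⟩ := Multiset.mem_map.1 ha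
      simp only [Function.comp_apply, one_div, norm_inv]
      exact inv_anti₀ hxy (hmin z (Multiset.mem_toFinset.2 hz))
    · rw [Multiset.card_map, nsmul_eq_mul]
      refine mul_le_mul_of_nonneg_right ?_ (by positivity)
      exact_mod_cast (card_roots' g).trans hg
  rw [hs, norm_mul, norm_sub_rev]
  calc ‖x - y‖ * (‖g.eval x‖ * ‖(g.roots.map fun z => 1 / (x - z)).sum‖)
      ≤ ‖x - y‖ * (‖g.eval x‖ * (d * ‖x - y‖⁻¹)) := by gcongr
    _ = d * ‖g.eval x‖ := by field_simp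

/-- Moving the target a little moves a simple preimage a little. -/
theorem complex_preimage_near {A B : ℂ[X]} {d : ℕ} (hA : A.natDegree ≤ d) (hB : B.natDegree ≤ d)
    {x w w' : ℂ} {r r' M δ : ℝ} (hx : A.eval x = w * B.eval x) (hB0 : B.eval x ≠ 0)
    (hW0 : (wr A B).eval x ≠ 0) (hr : 0 ≤ r) (hM : 0 ≤ M) (hδ : 0 ≤ δ)
    (h1 : r' * ‖B.eval x‖ ^ 2 ≤ M * (r * ‖(wr A B).eval x‖))
    (h2 : r * ‖(derivative B).eval x‖ ≤ M * ‖B.eval x‖) (hδM : δ * M * M ≤ 1 / 2)
    (hw : ‖w' - w‖ ≤ δ * r') :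
    A - C w' * B ≠ 0 ∧ ∃ y, (A - C w' * B).IsRoot y ∧ ‖y - x‖ ≤ 2 * d * δ * M * r := by
  set g := A - C w' * B with hg
  have hb : 0 < ‖B.eval x‖ := norm_pos_iff.2 hB0
  have hWp : 0 < ‖(wr A B).eval x‖ := norm_pos_iff.2 hW0
  have e1 : g.eval x = (w - w') * B.eval x := by
    simp only [hg, eval_sub, eval_mul, eval_C, hx]; ring
  have e2 : (derivative g).eval x =
      (wr A B).eval x / B.eval x + (w - w') * (derivative B).eval x := by
    simp only [hg, wr, derivative_sub, derivative_mul, derivative_C, eval_sub, eval_mul, eval_C,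
      eval_add, hx, zero_mul, zero_add, eval_zero]
    field_simp
    ring
  have hw' : ‖w - w'‖ ≤ δ * r' := by rwa [norm_sub_rev]
  have hw2 : ‖w - w'‖ * ‖B.eval x‖ ^ 2 ≤ δ * (M * (r * ‖(wr A B).eval x‖)) := by
    calc _ ≤ δ * r' * ‖B.eval x‖ ^ 2 := by gcongr
      _ = δ * (r' * ‖B.eval x‖ ^ 2) := by ring
      _ ≤ _ := by gcongr
  have e3 : ‖(w - w') * (derivative B).eval x‖ ≤ ‖(wr A B).eval x‖ / ‖B.eval x‖ / 2 := by
    rw [norm_mul, le_div_iff₀ two_pos, le_div_iff₀ hb]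
    have : ‖w - w'‖ * ‖(derivative B).eval x‖ * 2 * ‖B.eval x‖ * ‖B.eval x‖ ≤
        ‖(wr A B).eval x‖ * ‖B.eval x‖ := by
      calc _ = 2 * ‖(derivative B).eval x‖ * (‖w - w'‖ * ‖B.eval x‖ ^ 2) := by ring
        _ ≤ 2 * ‖(derivative B).eval x‖ * (δ * (M * (r * ‖(wr A B).eval x‖))) := by gcongr
        _ = 2 * δ * M * ‖(wr A B).eval x‖ * (r * ‖(derivative B).eval x‖) := by ring
        _ ≤ 2 * δ * M * ‖(wr A B).eval x‖ * (M * ‖B.eval x‖) := by gcongr
        _ = 2 * (δ * M * M) * (‖(wr A B).eval x‖ * ‖B.eval x‖) := by ring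
        _ ≤ 2 * (1 / 2) * (‖(wr A B).eval x‖ * ‖B.eval x‖) := by gcongr
        _ = _ := by ring
    exact le_of_mul_le_mul_right this hb
  have e4 : ‖(wr A B).eval x‖ / ‖B.eval x‖ / 2 ≤ ‖(derivative g).eval x‖ := by
    have := norm_sub_norm_le ((wr A B).eval x / B.eval x) (-((w - w') * (derivative B).eval x))
    rw [sub_neg_eq_add, ← e2, norm_neg, norm_div] at this
    linarith
  have e5 : (derivative g).eval x ≠ 0 := norm_pos_iff.1 (lt_of_lt_of_le (by positivity) e4)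
  refine ⟨fun h0 => e5 (by rw [h0]; simp), ?_⟩
  have hgd : g.natDegree ≤ d :=
    (natDegree_sub_le _ _).trans (max_le hA ((natDegree_C_mul_le _ _).trans hB))
  obtain ⟨y, hy, hle⟩ := complex_root_near hgd e5
  refine ⟨y, hy, ?_⟩
  have e6 : ‖y - x‖ * (‖(wr A B).eval x‖ / ‖B.eval x‖ / 2) ≤ d * (‖w - w'‖ * ‖B.eval x‖) := by
    rw [e1, norm_mul] at hle
    exact (mul_le_mul_of_nonneg_left e4 (norm_nonneg _)).trans hle
  have e7 : ‖y - x‖ * ‖(wr A B).eval x‖ ≤ 2 * d * δ * M * r * ‖(wr A B).eval x‖ := by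
    calc _ = 2 * ‖B.eval x‖ * (‖y - x‖ * (‖(wr A B).eval x‖ / ‖B.eval x‖ / 2)) := by field_simp
      _ ≤ 2 * ‖B.eval x‖ * (d * (‖w - w'‖ * ‖B.eval x‖)) := by gcongr
      _ = 2 * d * (‖w - w'‖ * ‖B.eval x‖ ^ 2) := by ring
      _ ≤ 2 * d * (δ * (M * (r * ‖(wr A B).eval x‖))) := by gcongr
      _ = _ := by ring
  exact le_of_mul_le_mul_right e7 hWp

end Pool.Agent.Lib.MP_0dd0d9_ag
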