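import Pool.Agent.Lib.MP_0dd0d9_ag.HB

/-!
TASK g0d Gn.  Gauss norms of polynomials on discs.
-/

namespace Pool.Agent.Lib.MP_0dd0d9_ag

open Polynomial

variable {K : Type*} [NormedField K] [IsUltrametricDist K]

theorem gn_norm_sub_le (x y : K) : ‖x - y‖ ≤ max ‖x‖ ‖y‖ := by
  have := IsUltrametricDist.norm_add_le_max x (-y)
  rwa [norm_neg, ← sub_eq_add_neg] at this

theorem gn_tri (x y z : K) : ‖x - z‖ ≤ max ‖x - y‖ ‖y - z‖ := by
  have := IsUltrametricDist.norm_add_le_max (x - y) (y - z)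
  rwa [sub_add_sub_cancel] at this

theorem gn_max_congr {a a' : K} {r : ℝ} (h : ‖a - a'‖ ≤ r) (y : K) :
    max r ‖y - a‖ = max r ‖y - a'‖ := by
  have key : ∀ b b' : K, ‖b - b'‖ ≤ r → max r ‖y - b'‖ ≤ max r ‖y - b‖ := fun b b' hb =>
    max_le (le_max_left _ _) ((gn_tri y b b').trans
      (max_le (le_max_right _ _) (hb.trans (le_max_left _ _))))
  exact le_antisymm (key a' a (by rwa [norm_sub_rev])) (key a a' h)

theorem gn_norm_prod (s : Multiset K) (f : K → K) :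
    ‖(s.map f).prod‖ = (s.map fun y => ‖f y‖).prod := by
  induction s using Multiset.induction_on with
  | empty => simp
  | cons a s ih => simp [ih]

theorem gn_norm_eval [IsAlgClosed K] (p : K[X]) (x : K) :
    ‖p.eval x‖ = ‖p.leadingCoeff‖ * (p.roots.map fun y => ‖x - y‖).prod := by
  rw [(IsAlgClosed.splits p).eval_eq_prod_roots, norm_mul, gn_norm_prod]

theorem gn_norm_msum {s : Multiset K} {f : K → K} {M : ℝ} (hM : 0 ≤ M)
    (h : ∀ y ∈ s, ‖f y‖ ≤ M) : ‖(s.map f).sum‖ ≤ M := by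
  induction s using Multiset.induction_on with
  | empty => simpa using hM
  | cons a s ih =>
    rw [Multiset.map_cons, Multiset.sum_cons]
    exact (IsUltrametricDist.norm_add_le_max _ _).trans (max_le (h a (Multiset.mem_cons_self _ _))
      (ih fun y hy => h y (Multiset.mem_cons_of_mem hy)))

/-- The value group is dense: take an `N`-th root of `ϖ` and an integer power of it. -/
theorem exists_norm_between [IsAlgClosed K] {ϖ : K} (h0 : 0 < ‖ϖ‖) (h1 : ‖ϖ‖ < 1) {u u' : ℝ}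
    (hu : 0 < u) (huu : u < u') : ∃ x : K, u < ‖x‖ ∧ ‖x‖ < u' := by
  have hu' : 0 < u' := hu.trans huu
  have hq0 : 0 < u / u' := div_pos hu hu'
  have hq1 : u / u' < 1 := (div_lt_one hu').2 huu
  obtain ⟨N, hN⟩ := exists_pow_lt_of_lt_one h0 hq1
  have hN0 : 0 < N := by
    rcases Nat.eq_zero_or_pos N with rfl | h
    · rw [pow_zero] at hN
      linarith
    · exact h
  obtain ⟨ω, hω⟩ := IsAlgClosed.exists_pow_nat_eq ϖ hN0
  have hn : ‖ω‖ ^ N = ‖ϖ‖ := by rw [← norm_pow, hω]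
  have a1 : u / u' < ‖ω‖ := by
    refine lt_of_pow_lt_pow_left₀ N (norm_nonneg _) ?_
    rwa [hn]
  have a0 : 0 < ‖ω‖ := hq0.trans a1
  have a2 : ‖ω‖ < 1 := by
    refine lt_of_pow_lt_pow_left₀ N zero_le_one ?_
    rwa [hn, one_pow]
  have a3 : 1 < ‖ω‖⁻¹ := (one_lt_inv₀ a0).2 a2
  obtain ⟨n, hn1, hn2⟩ := exists_mem_Ico_zpow hu a3
  refine ⟨ω⁻¹ ^ (n + 1), ?_, ?_⟩
  · rwa [norm_zpow, norm_inv]
  · rw [norm_zpow, norm_inv, zpow_add_one₀ (inv_pos.2 a0).ne']
    calc ‖ω‖⁻¹ ^ n * ‖ω‖⁻¹ ≤ u * ‖ω‖⁻¹ := mul_le_mul_of_nonneg_right hn1 (inv_pos.2 a0).le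
      _ < u' := by
        rw [← div_eq_mul_inv, div_lt_iff₀ a0, mul_comm]
        rwa [div_lt_iff₀ hu'] at a1

theorem exists_norm_root [IsAlgClosed K] {ϖ : K} {h : ℝ} (hϖ : ‖ϖ‖ = Real.exp (-h)) {k : ℕ}
    (hk : 1 ≤ k) : ∃ x : K, ‖x‖ = Real.exp (-(h / k)) := by
  obtain ⟨ω, hω⟩ := IsAlgClosed.exists_pow_nat_eq ϖ (show 0 < k by omega)
  refine ⟨ω, (pow_left_inj₀ (norm_nonneg _) (Real.exp_pos _).le (show k ≠ 0 by omega)).1 ?_⟩
  rw [← norm_pow, hω, hϖ, ← Real.exp_nat_mul]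
  have : (k : ℝ) ≠ 0 := by positivity
  congr 1
  field_simp

/-- Take `x = a + s * ρ` with a generic natural number `s` (`exists_nat_generic`). -/
theorem exists_gen (hN : Res0 K) {p : K[X]} (hp : p ≠ 0) (a : K) {ρ : K} (hρ : ρ ≠ 0) :
    ∃ x, ‖x - a‖ = ‖ρ‖ ∧ Gen p x ‖ρ‖ := by
  classical
  have _ := hρ
  obtain ⟨s, hs1, hs⟩ := exists_nat_generic hN (p.roots.toFinset.image fun y => (a - y, ρ)) 1
  refine ⟨a + s * ρ, ?_, fun y hy => ?_⟩
  · rw [add_sub_cancel_left, norm_mul, hN s (by omega), one_mul]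
  · have h1 := hs (a - y, ρ)
      (Finset.mem_image.2 ⟨y, Multiset.mem_toFinset.2 ((mem_roots hp).2 hy), rfl⟩)
    have e : a + s * ρ - y = a - y + s * ρ := by ring
    rw [e, h1]
    exact le_max_right _ _

theorem Gen.ne_zero {p : K[X]} {x : K} {r : ℝ} (hr : 0 < r) (h : Gen p x r) : p.eval x ≠ 0 := by
  intro h0
  have := h x h0
  rw [sub_self, norm_zero] at this
  linarith

theorem Gen.poly_ne_zero {p : K[X]} {x : K} {r : ℝ} (hr : 0 < r) (h : Gen p x r) : p ≠ 0 := by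
  rintro rfl
  exact h.ne_zero hr eval_zero

theorem gen_mul {p q : K[X]} {x : K} {r : ℝ} : Gen (p * q) x r ↔ Gen p x r ∧ Gen q x r := by
  constructor
  · exact fun h => ⟨fun y hy => h y (root_mul.2 (Or.inl hy)),
      fun y hy => h y (root_mul.2 (Or.inr hy))⟩
  · exact fun h y hy => (root_mul.1 hy).elim (h.1 y) (h.2 y)

theorem Gen.of_dvd {p q : K[X]} {x : K} {r : ℝ} (h : Gen q x r) (hpq : p ∣ q) : Gen p x r :=
  fun y hy => h y (hy.dvd hpq)

theorem gn_nonneg (p : K[X]) (a : K) {r : ℝ} (hr : 0 ≤ r) : 0 ≤ gn p a r :=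
  mul_nonneg (norm_nonneg _) (Multiset.prod_map_nonneg fun _ _ => hr.trans (le_max_left _ _))

theorem gn_pos {p : K[X]} (hp : p ≠ 0) (a : K) {r : ℝ} (hr : 0 < r) : 0 < gn p a r := by
  refine mul_pos (norm_pos_iff.2 (leadingCoeff_ne_zero.2 hp)) (Multiset.prod_pos fun t ht => ?_)
  obtain ⟨y, _, rfl⟩ := Multiset.mem_map.1 ht
  exact hr.trans_le (le_max_left _ _)

theorem gn_mul (p q : K[X]) (a : K) (r : ℝ) : gn (p * q) a r = gn p a r * gn q a r := by
  by_cases h : p * q = 0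
  · rcases mul_eq_zero.1 h with rfl | rfl <;> simp [gn]
  · unfold gn
    rw [leadingCoeff_mul, roots_mul h, norm_mul, Multiset.map_add, Multiset.prod_add]
    ring

theorem gn_C (c a : K) (r : ℝ) : gn (C c) a r = ‖c‖ := by
  simp [gn]

theorem gn_congr (p : K[X]) {a a' : K} {r : ℝ} (h : ‖a - a'‖ ≤ r) : gn p a r = gn p a' r := by
  unfold gn
  simp only [gn_max_congr h]

theorem gn_mono (p : K[X]) (a : K) {r R : ℝ} (hr : 0 ≤ r) (h : r ≤ R) : gn p a r ≤ gn p a R :=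
  mul_le_mul_of_nonneg_left (Multiset.prod_map_le_prod_map₀ _ _
    (fun _ _ => hr.trans (le_max_left _ _)) fun _ _ => max_le_max h le_rfl) (norm_nonneg _)

theorem gn_lower (p : K[X]) (a : K) {r R : ℝ} (hr : 0 < r) (h : r ≤ R) :
    gn p a R * (r / R) ^ p.natDegree ≤ gn p a r := by
  have hR : 0 < R := hr.trans_le h
  have q0 : 0 ≤ r / R := (div_pos hr hR).le
  have q1 : r / R ≤ 1 := (div_le_one hR).2 h
  have h1 : (r / R) ^ p.natDegree ≤ (r / R) ^ p.roots.card :=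
    pow_le_pow_of_le_one q0 q1 (card_roots' p)
  refine (mul_le_mul_of_nonneg_left h1 (gn_nonneg p a hR.le)).trans ?_
  unfold gn
  rw [mul_assoc]
  refine mul_le_mul_of_nonneg_left ?_ (norm_nonneg _)
  have e : (p.roots.map fun y => max R ‖y - a‖).prod * (r / R) ^ p.roots.card =
      (p.roots.map fun y => max R ‖y - a‖ * (r / R)).prod := by
    rw [Multiset.prod_map_mul, Multiset.map_const', Multiset.prod_replicate]
  rw [e]
  refine Multiset.prod_map_le_prod_map₀ _ _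
    (fun _ _ => mul_nonneg (hR.le.trans (le_max_left _ _)) q0) fun y _ => ?_
  rw [max_mul_of_nonneg _ _ q0]
  refine max_le_max (le_of_eq ?_) (mul_le_of_le_one_right (norm_nonneg _) q1)
  field_simp

theorem lead_le_gn [IsAlgClosed K] (p : K[X]) (a : K) {r : ℝ} (hr : 0 ≤ r) :
    ‖p.leadingCoeff‖ * r ^ p.natDegree ≤ gn p a r := by
  refine mul_le_mul_of_nonneg_left ?_ (norm_nonneg _)
  have e : r ^ p.natDegree = (p.roots.map fun _ => r).prod := by
    rw [Multiset.map_const', Multiset.prod_replicate,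
      (IsAlgClosed.splits p).natDegree_eq_card_roots]
  rw [e]
  exact Multiset.prod_map_le_prod_map₀ _ _ (fun _ _ => hr) fun _ _ => le_max_left _ _

theorem gn_eq_of_gen [IsAlgClosed K] {p : K[X]} {a x : K} {r : ℝ} (hx : ‖x - a‖ ≤ r)
    (hg : Gen p x r) : ‖p.eval x‖ = gn p a r := by
  rw [gn_norm_eval, ← gn_congr p hx]
  unfold gn
  congr 2
  refine Multiset.map_congr rfl fun y hy => ?_
  rw [norm_sub_rev y x, max_eq_right (hg y (isRoot_of_mem_roots hy))]

theorem eval_le_gn [IsAlgClosed K] (p : K[X]) {a x : K} {r : ℝ} (hx : ‖x - a‖ ≤ r) :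
    ‖p.eval x‖ ≤ gn p a r := by
  rw [gn_norm_eval, ← gn_congr p hx]
  refine mul_le_mul_of_nonneg_left (Multiset.prod_map_le_prod_map₀ _ _
    (fun _ _ => norm_nonneg _) fun y _ => ?_) (norm_nonneg _)
  rw [norm_sub_rev y x]
  exact le_max_right _ _

/-- Without roots in the closed disc the norm is constant there. -/
theorem norm_eval_eq_of_no_root [IsAlgClosed K] {p : K[X]} {a x : K} {r : ℝ}
    (hp : ∀ y, p.IsRoot y → r < ‖y - a‖) (hx : ‖x - a‖ ≤ r) : ‖p.eval x‖ = ‖p.eval a‖ := by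
  rw [gn_norm_eval, gn_norm_eval]
  congr 2
  refine Multiset.map_congr rfl fun y hy => ?_
  have h1 := hp y (isRoot_of_mem_roots hy)
  have h2 := gn_max_congr hx y
  rw [max_eq_right h1.le] at h2
  rw [norm_sub_rev x y, norm_sub_rev a y, ← h2]
  rcases le_total r ‖y - x‖ with h3 | h3
  · rw [max_eq_right h3]
  · rw [max_eq_left h3] at h2
    exact absurd h2 h1.ne

theorem eval_le_of_coeff {p : K[X]} {M : ℝ} (h : ∀ i, ‖p.coeff i‖ ≤ M) {x : K} (hx : ‖x‖ ≤ 1) :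
    ‖p.eval x‖ ≤ M := by
  rw [eval_eq_sum_range]
  refine IsUltrametricDist.norm_sum_le_of_forall_le_of_nonneg ((norm_nonneg _).trans (h 0))
    fun i _ => ?_
  rw [norm_mul, norm_pow]
  exact (mul_le_of_le_one_right (norm_nonneg _) (pow_le_one₀ (norm_nonneg _) hx)).trans (h i)

theorem coeff_mul_le {p q : K[X]} {M M' : ℝ} (hp : ∀ i, ‖p.coeff i‖ ≤ M)
    (hq : ∀ i, ‖q.coeff i‖ ≤ M') (i : ℕ) : ‖(p * q).coeff i‖ ≤ M * M' := by
  have hM : 0 ≤ M := (norm_nonneg _).trans (hp 0)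
  have hM' : 0 ≤ M' := (norm_nonneg _).trans (hq 0)
  rw [coeff_mul]
  refine IsUltrametricDist.norm_sum_le_of_forall_le_of_nonneg (mul_nonneg hM hM') fun c _ => ?_
  rw [norm_mul]
  exact mul_le_mul (hp _) (hq _) (norm_nonneg _) hM

theorem gn_coeff_X_sub_C (y : K) (i : ℕ) : ‖(X - C y).coeff i‖ ≤ max 1 ‖y - 0‖ := by
  rw [coeff_sub, sub_zero]
  refine (gn_norm_sub_le _ _).trans (max_le_max ?_ ?_)
  · rw [coeff_X]
    split_ifs <;> simp
  · rw [coeff_C]
    split_ifs <;> simp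

theorem gn_coeff_prod (s : Multiset K) (i : ℕ) :
    ‖(s.map fun y => (X - C y : K[X])).prod.coeff i‖ ≤ (s.map fun y => max 1 ‖y - 0‖).prod := by
  induction s using Multiset.induction_on generalizing i with
  | empty =>
    simp only [Multiset.map_zero, Multiset.prod_zero, coeff_one]
    split_ifs <;> simp
  | cons a s ih =>
    rw [Multiset.map_cons, Multiset.prod_cons, Multiset.map_cons, Multiset.prod_cons]
    exact coeff_mul_le (gn_coeff_X_sub_C a) ih i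

/-- Induction on the multiset of roots. -/
theorem coeff_le_gn [IsAlgClosed K] (p : K[X]) (i : ℕ) : ‖p.coeff i‖ ≤ gn p 0 1 := by
  conv_lhs => rw [(IsAlgClosed.splits p).eq_prod_roots]
  rw [coeff_C_mul, norm_mul]
  exact mul_le_mul_of_nonneg_left (gn_coeff_prod _ i) (norm_nonneg _)

theorem coeff_le_of_eval_le [IsAlgClosed K] (hN : Res0 K) {p : K[X]} {M : ℝ}
    (h : ∀ x : K, ‖x‖ ≤ 1 → ‖p.eval x‖ ≤ M) (i : ℕ) : ‖p.coeff i‖ ≤ M := by
  by_cases hp : p = 0
  · have := h 0 (by simp)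
    simpa [hp] using this
  obtain ⟨x, hx, hg⟩ := exists_gen hN hp 0 (one_ne_zero (α := K))
  rw [norm_one] at hx hg
  refine (coeff_le_gn p i).trans ?_
  rw [← gn_eq_of_gen hx.le hg]
  exact h x (by simpa using hx.le)

theorem coeff_derivative_le {p : K[X]} {M : ℝ} (hp : ∀ i, ‖p.coeff i‖ ≤ M) (i : ℕ) :
    ‖(derivative p).coeff i‖ ≤ M := by
  rw [coeff_derivative, norm_mul]
  have h1 : ‖((i : K) + 1)‖ ≤ 1 := by
    have := IsUltrametricDist.norm_natCast_le_one K (i + 1)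
    rwa [Nat.cast_add, Nat.cast_one] at this
  exact (mul_le_of_le_one_right (norm_nonneg _) h1).trans (hp _)

theorem coeff_wr_le {p q : K[X]} {M M' : ℝ} (hp : ∀ i, ‖p.coeff i‖ ≤ M)
    (hq : ∀ i, ‖q.coeff i‖ ≤ M') (i : ℕ) : ‖(wr p q).coeff i‖ ≤ M * M' := by
  unfold wr
  rw [coeff_sub]
  exact (gn_norm_sub_le _ _).trans (max_le (coeff_mul_le (coeff_derivative_le hp) hq i)
    (coeff_mul_le hp (coeff_derivative_le hq) i))

theorem gn_pow_sub {x y : K} (hx : ‖x‖ ≤ 1) (hy : ‖y‖ ≤ 1) (i : ℕ) :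
    ‖x ^ i - y ^ i‖ ≤ ‖x - y‖ := by
  induction i with
  | zero => simp
  | succ i ih =>
    have e : x ^ (i + 1) - y ^ (i + 1) = x * (x ^ i - y ^ i) + y ^ i * (x - y) := by ring
    rw [e]
    refine (IsUltrametricDist.norm_add_le_max _ _).trans (max_le ?_ ?_)
    · rw [norm_mul]
      exact (mul_le_of_le_one_left (norm_nonneg _) hx).trans ih
    · rw [norm_mul, norm_pow]
      exact mul_le_of_le_one_left (norm_nonneg _) (pow_le_one₀ (norm_nonneg _) hy)

theorem gn_pow_taylor {x y : K} (hx : ‖x‖ ≤ 1) (hy : ‖y‖ ≤ 1) (i : ℕ) :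
    ‖x ^ i - y ^ i - i * y ^ (i - 1) * (x - y)‖ ≤ ‖x - y‖ ^ 2 := by
  induction i with
  | zero => simp
  | succ i ih =>
    have e : x ^ (i + 1) - y ^ (i + 1) - ((i + 1 : ℕ) : K) * y ^ (i + 1 - 1) * (x - y) =
        x * (x ^ i - y ^ i - i * y ^ (i - 1) * (x - y)) + i * y ^ (i - 1) * (x - y) ^ 2 := by
      rcases i with _ | i
      · simp
      · simp only [Nat.add_sub_cancel]
        push_cast
        ring
    rw [e]
    refine (IsUltrametricDist.norm_add_le_max _ _).trans (max_le ?_ ?_)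
    · rw [norm_mul]
      exact (mul_le_of_le_one_left (norm_nonneg _) hx).trans ih
    · rw [norm_mul, norm_mul, norm_pow, norm_pow]
      exact mul_le_of_le_one_left (by positivity) (mul_le_one₀
        (IsUltrametricDist.norm_natCast_le_one K i) (by positivity)
        (pow_le_one₀ (norm_nonneg _) hy))

theorem eval_sub_le {p : K[X]} {M : ℝ} (h : ∀ i, ‖p.coeff i‖ ≤ M) {x y : K} (hx : ‖x‖ ≤ 1)
    (hy : ‖y‖ ≤ 1) : ‖p.eval x - p.eval y‖ ≤ M * ‖x - y‖ := by
  have hM : 0 ≤ M := (norm_nonneg _).trans (h 0)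
  rw [eval_eq_sum_range, eval_eq_sum_range, ← Finset.sum_sub_distrib]
  refine IsUltrametricDist.norm_sum_le_of_forall_le_of_nonneg (by positivity) fun i _ => ?_
  rw [← mul_sub, norm_mul]
  exact mul_le_mul (h i) (gn_pow_sub hx hy i) (norm_nonneg _) hM

theorem eval_taylor_le {p : K[X]} {M : ℝ} (h : ∀ i, ‖p.coeff i‖ ≤ M) {x y : K} (hx : ‖x‖ ≤ 1)
    (hy : ‖y‖ ≤ 1) :
    ‖p.eval x - p.eval y - (derivative p).eval y * (x - y)‖ ≤ M * ‖x - y‖ ^ 2 := by
  have hM : 0 ≤ M := (norm_nonneg _).trans (h 0)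
  rw [derivative_eval, eval_eq_sum, eval_eq_sum, sum_def, sum_def, sum_def, Finset.sum_mul,
    ← Finset.sum_sub_distrib, ← Finset.sum_sub_distrib]
  refine IsUltrametricDist.norm_sum_le_of_forall_le_of_nonneg (by positivity) fun i _ => ?_
  have e : p.coeff i * x ^ i - p.coeff i * y ^ i - p.coeff i * i * y ^ (i - 1) * (x - y) =
      p.coeff i * (x ^ i - y ^ i - i * y ^ (i - 1) * (x - y)) := by ring
  rw [e, norm_mul]
  exact mul_le_mul (h i) (gn_pow_taylor hx hy i) (norm_nonneg _) hM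

/-- Logarithmic derivative: `p'(x) / p(x) = ∑ 1 / (x - y)`
(`Polynomial.Splits.eval_derivative_div_eval_of_ne_zero` or induction on the roots). -/
theorem wd0 [IsAlgClosed K] {p : K[X]} {x : K} {r : ℝ} (hr : 0 < r) (hg : Gen p x r) :
    r * ‖(derivative p).eval x‖ ≤ ‖p.eval x‖ := by
  rw [(IsAlgClosed.splits p).eval_derivative_eq_eval_mul_sum (hg.ne_zero hr), norm_mul]
  have h1 : ‖(p.roots.map fun z => 1 / (x - z)).sum‖ ≤ 1 / r := by
    refine gn_norm_msum (by positivity) fun y hy => ?_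
    rw [norm_div, norm_one]
    exact one_div_le_one_div_of_le hr (hg y (isRoot_of_mem_roots hy))
  calc r * (‖p.eval x‖ * ‖(p.roots.map fun z => 1 / (x - z)).sum‖)
      ≤ r * (‖p.eval x‖ * (1 / r)) := by gcongr
    _ = ‖p.eval x‖ := by field_simp

theorem root_in_disc [IsAlgClosed K] {p : K[X]} {x : K} (h : (derivative p).eval x ≠ 0) :
    ∃ y, p.IsRoot y ∧ ‖y - x‖ * ‖(derivative p).eval x‖ ≤ ‖p.eval x‖ := by
  classical
  by_cases hx : p.eval x = 0
  · exact ⟨x, hx, by simp⟩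
  have hp : p ≠ 0 := by
    rintro rfl
    exact hx eval_zero
  have hne : p.roots.toFinset.Nonempty := by
    rw [Multiset.toFinset_nonempty]
    intro h0
    apply h
    rw [(IsAlgClosed.splits p).eval_derivative_eq_eval_mul_sum hx, h0]
    simp
  obtain ⟨y, hy, hmin⟩ := Finset.exists_min_image _ (fun y => ‖y - x‖) hne
  have hy' : p.IsRoot y := isRoot_of_mem_roots (Multiset.mem_toFinset.1 hy)
  refine ⟨y, hy', wd0 (norm_pos_iff.2 (sub_ne_zero.2 ?_)) fun z hz => ?_⟩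
  · rintro rfl
    exact hx hy'
  · rw [norm_sub_rev x z]
    exact hmin z (Multiset.mem_toFinset.2 ((mem_roots hp).2 hz))

end Pool.Agent.Lib.MP_0dd0d9_ag
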