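import Pool.Agent.Lib.MP_0dd0d9_ag.CL3
import Pool.Agent.Lib.MP_0dd0d9_ag.Gn
import Pool.Agent.Lib.MP_0dd0d9_ag.ALA

/-!
TASK g0d AL.  Transfer of the contraction inequality to the valued field.
-/

namespace Pool.Agent.Lib.MP_0dd0d9_ag

open Polynomial Filter

theorem al_nc_unif {κ : Type*} [Finite κ] {F : Filter ℕ} {xs : κ → ℕ → ℂ} {rs : κ → ℕ → ℝ}
    {f : κ → ℕ → ℂ → ℂ} (hrs : ∀ j N, 0 ≤ rs j N) (h : ∀ j, NC F (xs j) (rs j) (f j)) {η : ℝ}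
    (hη : 0 < η) : ∃ δ : ℝ, 0 < δ ∧ ∀ᶠ N in F, ∀ j x, ‖x - xs j N‖ ≤ δ * rs j N →
      ‖f j N x - f j N (xs j N)‖ ≤ η * ‖f j N (xs j N)‖ := by
  choose δ hδ hev using fun j => h j η hη
  obtain ⟨δ0, hδ0, hle⟩ : ∃ δ0 : ℝ, 0 < δ0 ∧ ∀ j, δ0 ≤ δ j := by
    cases isEmpty_or_nonempty κ with
    | inl _ => exact ⟨1, one_pos, fun j => isEmptyElim j⟩
    | inr _ =>
      obtain ⟨j0, hj0⟩ := Finite.exists_min δ
      exact ⟨δ j0, hδ j0, hj0⟩
  refine ⟨δ0, hδ0, ?_⟩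
  rw [eventually_all]
  intro j
  filter_upwards [hev j] with N hN x hx
  exact hN x (hx.trans (mul_le_mul_of_nonneg_right (hle j) (hrs j N)))

theorem al_inv_le {K : Type*} [NormedField K] (Tr : Transfer K (fun x => ‖x‖)) {ϱ x : K}
    (h : ‖ϱ‖ < ‖x‖) : ∀ᶠ N in (Tr.U : Filter ℕ), (‖Tr.s ϱ N‖⁻¹)⁻¹ ≤ ‖Tr.s x N‖ := by
  filter_upwards [Tr.s_lt ϱ x h 1 one_pos] with N hN
  simpa using hN

theorem al_coeff_le {K : Type*} [NormedField K] (Tr : Transfer K (fun x => ‖x‖)) {ϱ : K}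
    (h0 : ϱ ≠ 0) {A : K[X]} (h : ∀ i, ‖A.coeff i‖ * ‖ϱ‖ < 1) :
    ∀ᶠ N in (Tr.U : Filter ℕ), ∀ i, ‖(Tr.sp A N).coeff i‖ ≤ ‖Tr.s ϱ N‖⁻¹ := by
  have hall : ∀ᶠ N in (Tr.U : Filter ℕ), ∀ i ∈ A.support,
      ‖Tr.s (A.coeff i) N‖ ≤ ‖Tr.s ϱ N‖⁻¹ := by
    rw [Finset.eventually_all]
    intro i _
    filter_upwards [Tr.s_lt (A.coeff i * ϱ) 1 (by simpa using h i) 1 one_pos, Tr.s_one,
      Tr.s_mul (A.coeff i) ϱ, Tr.s_ne_zero h0] with N h1 h2 h3 h4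
    rw [h2, h3, norm_mul, norm_one, mul_one] at h1
    rw [← one_div, le_div_iff₀ (norm_pos_iff.2 h4)]
    exact h1
  filter_upwards [hall] with N hN i
  rw [Transfer.coeff_sp]
  split_ifs with hi
  · exact hN i hi
  · simp

theorem al_norm_bounds {a b : ℂ} {η : ℝ} (h : ‖a - b‖ ≤ η * ‖b‖) :
    (1 - η) * ‖b‖ ≤ ‖a‖ ∧ ‖a‖ ≤ (1 + η) * ‖b‖ := by
  have h1 := norm_sub_norm_le a b
  have h2 := norm_sub_norm_le b a
  rw [norm_sub_rev] at h2
  constructor <;> nlinarith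

theorem al_num1 {η q : ℝ} (h : η ≤ 1 / 2) (hq : 0 ≤ q) : q / 2 ≤ (1 - η) * q := by nlinarith

theorem al_num2 {S cc η k : ℝ} (hcc : cc = (S - 1) / 4) (h : η * (1 + cc + S + k) = cc)
    (hη : 0 ≤ η) (hk : 0 ≤ k) (hc : 0 ≤ cc) : (1 + cc) * (1 + η) ≤ (1 - η) * (S - k * η) := by
  have : 0 ≤ η * (k * η) := by positivity
  nlinarith

/-- At a visible generic point the residues of the quotients `q / f^* q` at preimages have total
complex modulus at most one.  Take `D` one more than in `cl3`.  Suppose the sum exceeds `1 + 3 cc`.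
For almost all `N` the complex data `s (coefficients) N`, `s (P i) N`, ... satisfy the hypotheses of
`cl3` with `M = 1 / ‖s ϱ N‖` and a fixed `K0`.  Factor `nq`, `pp`, `wr A B`, `B` into linear factors
over `K`; genericity gives `‖s ρ N‖ ≤ C * ‖s x N - s y N‖` for all roots `y`, so these polynomials are
constant up to a factor `1 + O(δ)` on discs of radius `δ * ‖s ρ N‖`.  For `w'` within
`δ * ‖s ρ' N‖` of `s w N` the polynomial `A - C w' * B` has a root within `O(δ) * ‖s (ρ j) N‖` of each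
`s (x j) N` (logarithmic derivative), these roots are distinct, and so
`(1 + cc) * ‖qf w'‖ ≤ push w'`.  `cl3` then contradicts visibility (`s_lt`). -/
theorem al (d : ℕ) (hd : 2 ≤ d) : ∃ D : ℕ,
    ∀ {K : Type} [NormedField K] [IsUltrametricDist K] [IsAlgClosed K]
      (Tr : Transfer K (fun x => ‖x‖)) {ι : Type} [Fintype ι] [DecidableEq ι] (A B : K[X])
      (nxt : ι ≃ ι) (P α : ι → K) (ϱ lw : K) (c : Fin (2 * d - 2) → K),
      0 < ‖ϱ‖ → ‖ϱ‖ < 1 → A.natDegree ≤ d → B.natDegree ≤ d →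
      (∀ i, ‖A.coeff i‖ * ‖ϱ‖ < 1) → (∀ i, ‖B.coeff i‖ * ‖ϱ‖ < 1) →
      ‖ϱ‖ < max ‖A.coeff d‖ ‖B.coeff d‖ →
      wr A B = C lw * ∏ i, (X - C (c i)) → ‖ϱ‖ < ‖lw‖ → (∀ i, ‖c i‖ ≤ 1) →
      (∀ i, ‖ϱ‖ < ‖B.eval (c i)‖) →
      (∀ i, ‖P i‖ ≤ 1) → (∀ i, ‖ϱ‖ < ‖B.eval (P i)‖) →
      (∀ i, A.eval (P i) = P (nxt i) * B.eval (P i)) →
      (∀ i, ‖α i‖ ≤ 1) → ∑ i, α i = 0 → ∑ i, α i * P i = 0 →
      (∀ i, ‖bet A B nxt P α i‖ ≤ ‖ϱ‖ ^ D) → (∀ μ, μ ≤ 2 * d → ‖fm B nxt P α μ‖ ≤ ‖ϱ‖ ^ D) →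
      ∀ {κ : Type} [Fintype κ] (w ρ' : K) (x ρ : κ → K) (θ : κ → ℂ),
      ρ' ≠ 0 → (∀ j, ρ j ≠ 0) → (∀ j, A.eval (x j) = w * B.eval (x j)) →
      (∀ j, ‖ρ j‖ * ‖(wr A B).eval (x j)‖ = ‖ρ'‖ * ‖B.eval (x j)‖ ^ 2) →
      (∀ j, Gen (nq P α * pp P * wr A B * B) (x j) ‖ρ j‖) → Gen (nq P α * pp P) w ‖ρ'‖ →
      (∀ j l, j ≠ l → ‖ρ j‖ ≤ ‖x j - x l‖) → ‖ϱ‖ < ‖qf P α w‖ * ‖ρ'‖ ^ 2 →
      (∀ j, ‖qf P α (x j) * B.eval (x j) ^ 4 / ((wr A B).eval (x j) ^ 2 * qf P α w) -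
        Tr.cst (θ j)‖ < 1) →
      ∑ j, ‖θ j‖ ≤ 1 := by
  obtain ⟨D, hD⟩ := cl3 d hd
  refine ⟨D + 1, ?_⟩
  intro K _ _ _ Tr ι _ _ A B nxt P α ϱ lw c h0 h1 hA hB hcA hcB hinf hW hlw hc hBc hP hBP horb hα
    hm0 hm1 hbet hfm κ _ w ρ' x ρ θ hρ' hρ hx hrad hgx hgw hsep hvis hθ
  by_contra hcon
  push Not at hcon
  classical
  set S := ∑ j, ‖θ j‖ with hS
  set cc := (S - 1) / 4 with hcc
  have hcc0 : 0 < cc := by rw [hcc]; linarith
  set η := cc / (1 + cc + S + Fintype.card κ) with hη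
  have hden : 0 < 1 + cc + S + Fintype.card κ := by positivity
  have hη0 : 0 < η := by positivity
  have hη1 : η * (1 + cc + S + Fintype.card κ) = cc := by rw [hη]; field_simp
  have hk0 : (0 : ℝ) ≤ Fintype.card κ := Nat.cast_nonneg _
  have hη2 : η ≤ 1 / 2 := by
    rw [hη, div_le_iff₀ hden]; linarith
  have hϱ0 : ϱ ≠ 0 := norm_pos_iff.1 h0
  have hρp : ∀ j, 0 < ‖ρ j‖ := fun j => norm_pos_iff.2 (hρ j)
  have hρ'p : 0 < ‖ρ'‖ := norm_pos_iff.2 hρ'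
  have hg4 : ∀ j, Gen (nq P α) (x j) ‖ρ j‖ ∧ Gen (pp P) (x j) ‖ρ j‖ ∧
      Gen (wr A B) (x j) ‖ρ j‖ ∧ Gen B (x j) ‖ρ j‖ := fun j => by
    have := hgx j
    rw [gen_mul, gen_mul, gen_mul] at this
    exact ⟨this.1.1.1, this.1.1.2, this.1.2, this.2⟩
  rw [gen_mul] at hgw
  -- standard constants
  obtain ⟨Ka, hKa, ea⟩ := Tr.s_le_unif α (fun _ => 1) (by simpa using hα)
  obtain ⟨Kp, hKp, ep⟩ := Tr.s_le_unif P (fun _ => 1) (by simpa using hP)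
  obtain ⟨Kc, hKc, ec⟩ := Tr.s_le_unif c (fun _ => 1) (by simpa using hc)
  obtain ⟨Ke, hKe, ee⟩ := Tr.s_le_unif (bet A B nxt P α) (fun _ => ϱ ^ (D + 1))
    (by simpa using hbet)
  obtain ⟨Kf, hKf, ef⟩ := Tr.s_le_unif (fun μ : Fin (2 * d + 1) => fm B nxt P α μ.val)
    (fun _ => ϱ ^ (D + 1)) (fun μ => by simpa using hfm μ.val (Nat.lt_succ_iff.1 μ.2))
  obtain ⟨M1, hM1, e1⟩ := Tr.s_le_unif (fun j => ρ' * B.eval (x j) ^ 2)
    (fun j => ρ j * (wr A B).eval (x j)) (fun j => by simp [hrad j])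
  obtain ⟨M2, hM2, e2⟩ := Tr.s_le_unif (fun j => ρ j * (derivative B).eval (x j))
    (fun j => B.eval (x j)) (fun j => by simpa using wd0 (hρp j) (hg4 j).2.2.2)
  obtain ⟨M3, hM3, e3⟩ := Tr.s_le_unif (fun t : {t : κ × κ // t.1 ≠ t.2} => ρ t.1.1)
    (fun t => x t.1.1 - x t.1.2) (fun t => hsep _ _ t.2)
  set K0 : ℝ := Ka + Kp + d + Fintype.card ι with hK0
  set Mx : ℝ := M1 + M2 + M3 with hMx
  have hd0 : (2 : ℝ) ≤ d := by exact_mod_cast hd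
  have hι0 : (0 : ℝ) ≤ Fintype.card ι := Nat.cast_nonneg _
  have hK01 : 1 ≤ K0 := by rw [hK0]; linarith
  have hMx1 : 1 ≤ Mx := by rw [hMx]; linarith
  -- representatives
  have rN := Transfer.rep_nq (Tr := Tr) P α
  have rP := Transfer.rep_pp (Tr := Tr) P
  have rW := Transfer.rep_wr (Tr := Tr) A B
  have rA := Transfer.rep_sp (Tr := Tr) A
  have rB := Transfer.rep_sp (Tr := Tr) B
  have rB' := Transfer.rep_derivative (Tr := Tr) B
  set PN : ℕ → ι → ℂ := fun N i => Tr.s (P i) N with hPN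
  set aN : ℕ → ι → ℂ := fun N i => Tr.s (α i) N with haN
  set v : ℕ → ℂ → ℂ := fun N z => (nq (PN N) (aN N)).eval z * ((pp (PN N)).eval z)⁻¹ *
    ((Tr.sp B N).eval z ^ 4 * ((wr (Tr.sp A N) (Tr.sp B N)).eval z ^ 2)⁻¹) with hv
  have hrs : ∀ (y : K) N, 0 ≤ ‖Tr.s y N‖ := fun y N => norm_nonneg _
  obtain ⟨δv, hδv, nv⟩ := al_nc_unif (F := (Tr.U : Filter ℕ)) (xs := fun j => Tr.s (x j))
    (rs := fun j N => ‖Tr.s (ρ j) N‖) (f := fun _ => v) (fun j => hrs _) (fun j =>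
      ((rN.nc (hg4 j).1).mul (hrs _) (rP.nc (hg4 j).2.1).inv).mul (hrs _)
        (((rB.nc (hg4 j).2.2.2).pow (hrs _) 4).mul (hrs _)
          ((rW.nc (hg4 j).2.2.1).pow (hrs _) 2).inv)) hη0
  obtain ⟨δp, hδp, np⟩ := al_nc_unif (F := (Tr.U : Filter ℕ)) (xs := fun j => Tr.s (x j))
    (rs := fun j N => ‖Tr.s (ρ j) N‖) (f := fun _ N z => (pp (PN N)).eval z) (fun j => hrs _)
    (fun j => rP.nc (hg4 j).2.1) (η := 1 / 2) (by norm_num)
  obtain ⟨δw, hδw, nw⟩ := ((rN.nc hgw.1).mul (hrs _) (rP.nc hgw.2).inv) η hη0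
  obtain ⟨δq, hδq, nq'⟩ := (rP.nc hgw.2) (1 / 2) (by norm_num)
  set δ1 : ℝ := min (min δv δp) (1 / (4 * Mx)) with hδ1
  have hδ10 : 0 < δ1 := by positivity
  set δ : ℝ := min (min δw δq) (min (1 / (2 * Mx * Mx)) (δ1 / (2 * d * Mx))) with hδ
  have hδ0 : 0 < δ := by positivity
  set Cc : ℝ := 1000 * K0 ^ 5 + (Ke + Kf) with hCc
  have hCc0 : 0 < Cc := by positivity
  have hq0 : qf P α w * ρ' ^ 2 ≠ 0 := by
    intro h
    have : ‖qf P α w‖ * ‖ρ'‖ ^ 2 = 0 := by rw [← norm_pow, ← norm_mul, h, norm_zero]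
    linarith
  have hWfac := rW.unique (by rw [hW]; exact Transfer.rep_fac' (Tr := Tr) lw c)
  have f1 : ∀ᶠ N in (Tr.U : Filter ℕ), (‖Tr.s ϱ N‖⁻¹)⁻¹ ≤
      max ‖(Tr.sp A N).coeff d‖ ‖(Tr.sp B N).coeff d‖ := by
    rcases lt_max_iff.1 hinf with h | h
    · filter_upwards [al_inv_le Tr h, Transfer.coeff_sp_ev (Tr := Tr) A] with N a1 a2
      rw [a2]; exact a1.trans (le_max_left _ _)
    · filter_upwards [al_inv_le Tr h, Transfer.coeff_sp_ev (Tr := Tr) B] with N a1 a2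
      rw [a2 d]; exact a1.trans (le_max_right _ _)
  have f2 : ∀ᶠ N in (Tr.U : Filter ℕ), ∀ i, (‖Tr.s ϱ N‖⁻¹)⁻¹ ≤
      ‖(Tr.sp B N).eval (Tr.s (c i) N)‖ := by
    rw [eventually_all]
    intro i
    filter_upwards [al_inv_le Tr (hBc i), rB.2 (c i)] with N a1 a2
    rwa [a2]
  have f3 : ∀ᶠ N in (Tr.U : Filter ℕ), ∀ i, (‖Tr.s ϱ N‖⁻¹)⁻¹ ≤ ‖(Tr.sp B N).eval (PN N i)‖ := by
    rw [eventually_all]
    intro i
    filter_upwards [al_inv_le Tr (hBP i), rB.2 (P i)] with N a1 a2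
    simp only [hPN]
    rwa [a2]
  have f4 : ∀ᶠ N in (Tr.U : Filter ℕ), ∀ i,
      (Tr.sp A N).eval (PN N i) = PN N (nxt i) * (Tr.sp B N).eval (PN N i) := by
    rw [eventually_all]
    intro i
    filter_upwards [rA.2 (P i), rB.2 (P i), Tr.s_mul (P (nxt i)) (B.eval (P i))] with N a1 a2 a3
    simp only [hPN]
    rw [a1, a2, horb i, a3]
  have f5 : ∀ᶠ N in (Tr.U : Filter ℕ), ∑ i, aN N i = 0 := by
    filter_upwards [Tr.s_sum Finset.univ α, Tr.s_zero] with N a1 a2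
    rw [hm0, a2] at a1
    exact a1.symm
  have f6 : ∀ᶠ N in (Tr.U : Filter ℕ), ∑ i, aN N i * PN N i = 0 := by
    have hall : ∀ᶠ N in (Tr.U : Filter ℕ), ∀ i, Tr.s (α i * P i) N = aN N i * PN N i := by
      rw [eventually_all]
      exact fun i => Tr.s_mul (α i) (P i)
    filter_upwards [Tr.s_sum Finset.univ (fun i => α i * P i), Tr.s_zero, hall] with N a1 a2 a3
    rw [hm1, a2] at a1
    rw [a1]
    exact Finset.sum_congr rfl fun i _ => (a3 i).symm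
  have f7 : ∀ᶠ N in (Tr.U : Filter ℕ), ∀ i, Tr.s (bet A B nxt P α i) N =
      bet (Tr.sp A N) (Tr.sp B N) nxt (PN N) (aN N) i := by
    rw [eventually_all]
    exact fun i => Transfer.s_bet A B nxt P α i
  have f8 : ∀ᶠ N in (Tr.U : Filter ℕ), ∀ μ : Fin (2 * d + 1), Tr.s (fm B nxt P α μ.val) N =
      fm (Tr.sp B N) nxt (PN N) (aN N) μ.val := by
    rw [eventually_all]
    exact fun μ => Transfer.s_fm B nxt P α μ.val
  -- the data at the preimages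
  have f9 : ∀ᶠ N in (Tr.U : Filter ℕ), ∀ j,
      (Tr.sp A N).eval (Tr.s (x j) N) = Tr.s w N * (Tr.sp B N).eval (Tr.s (x j) N) ∧
      (Tr.sp B N).eval (Tr.s (x j) N) ≠ 0 ∧
      (wr (Tr.sp A N) (Tr.sp B N)).eval (Tr.s (x j) N) ≠ 0 ∧
      (pp (PN N)).eval (Tr.s (x j) N) ≠ 0 ∧
      Tr.s (ρ' * B.eval (x j) ^ 2) N = Tr.s ρ' N * (Tr.sp B N).eval (Tr.s (x j) N) ^ 2 ∧
      Tr.s (ρ j * (wr A B).eval (x j)) N =
        Tr.s (ρ j) N * (wr (Tr.sp A N) (Tr.sp B N)).eval (Tr.s (x j) N) ∧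
      Tr.s (ρ j * (derivative B).eval (x j)) N =
        Tr.s (ρ j) N * (derivative (Tr.sp B N)).eval (Tr.s (x j) N) ∧
      Tr.s (B.eval (x j)) N = (Tr.sp B N).eval (Tr.s (x j) N) ∧
      (‖θ j‖ - η) * ‖qf (PN N) (aN N) (Tr.s w N)‖ ≤ ‖v N (Tr.s (x j) N)‖ := by
    rw [eventually_all]
    intro j
    filter_upwards [rA.2 (x j), rB.2 (x j), rW.2 (x j), rP.2 (x j), rB'.2 (x j),
      Tr.s_mul w (B.eval (x j)), Tr.s_ne_zero ((hg4 j).2.2.2.ne_zero (hρp j)),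
      Tr.s_ne_zero ((hg4 j).2.2.1.ne_zero (hρp j)), Tr.s_ne_zero ((hg4 j).2.1.ne_zero (hρp j)),
      Tr.s_mul ρ' (B.eval (x j) ^ 2), Tr.s_pow (B.eval (x j)) 2,
      Tr.s_mul (ρ j) ((wr A B).eval (x j)), Tr.s_mul (ρ j) ((derivative B).eval (x j)),
      Tr.s_lt _ 1 (by simpa using hθ j) η hη0, Tr.s_one,
      Tr.s_sub (qf P α (x j) * B.eval (x j) ^ 4 / ((wr A B).eval (x j) ^ 2 * qf P α w))
        (Tr.cst (θ j)), Tr.s_cst (θ j),
      Tr.s_div (qf P α (x j) * B.eval (x j) ^ 4) ((wr A B).eval (x j) ^ 2 * qf P α w),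
      Tr.s_mul (qf P α (x j)) (B.eval (x j) ^ 4), Tr.s_mul ((wr A B).eval (x j) ^ 2) (qf P α w),
      Tr.s_pow (B.eval (x j)) 4, Tr.s_pow ((wr A B).eval (x j)) 2,
      Transfer.s_qf (Tr := Tr) P α (x j), Transfer.s_qf (Tr := Tr) P α w,
      Tr.s_ne_zero (left_ne_zero_of_mul hq0)]
      with N a1 a2 a3 a4 a5 a6 a7 a8 a9 a10 a11 a12 a13 a14 a15 a16 a17 a18 a19 a20 a21 a22 a23
        a24 a25
    have hp0 : (pp (PN N)).eval (Tr.s (x j) N) ≠ 0 := by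
      simp only [hPN]; rw [a4]; exact a9
    refine ⟨by rw [a1, a2, hx j, a6], by rwa [a2], by rwa [a3], hp0, by rw [a10, a11, a2],
      by rw [a12, a3], by rw [a13, a5], a2.symm, ?_⟩
    rw [a16, a17, a18, a19, a20, a21, a22, a23, a24, a15, norm_one, mul_one, ← a2, ← a3] at a14
    rw [a24] at a25
    have hvv : v N (Tr.s (x j) N) = (qf (PN N) (aN N) (Tr.s (x j) N) *
        (Tr.sp B N).eval (Tr.s (x j) N) ^ 4 /
        ((wr (Tr.sp A N) (Tr.sp B N)).eval (Tr.s (x j) N) ^ 2 * qf (PN N) (aN N) (Tr.s w N))) *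
        qf (PN N) (aN N) (Tr.s w N) := by
      have hw0 : (wr (Tr.sp A N) (Tr.sp B N)).eval (Tr.s (x j) N) ≠ 0 := by rwa [a3]
      have a25' : qf (PN N) (aN N) (Tr.s w N) ≠ 0 := a25
      rw [qf_eq_div _ _ hp0]
      simp only [hv]
      field_simp
    rw [hvv, norm_mul]
    refine mul_le_mul_of_nonneg_right ?_ (norm_nonneg _)
    have := norm_sub_norm_le (θ j) (qf (PN N) (aN N) (Tr.s (x j) N) *
        (Tr.sp B N).eval (Tr.s (x j) N) ^ 4 /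
        ((wr (Tr.sp A N) (Tr.sp B N)).eval (Tr.s (x j) N) ^ 2 * qf (PN N) (aN N) (Tr.s w N)))
    rw [norm_sub_rev] at this
    have a14' : ‖qf (PN N) (aN N) (Tr.s (x j) N) *
        (Tr.sp B N).eval (Tr.s (x j) N) ^ 4 /
        ((wr (Tr.sp A N) (Tr.sp B N)).eval (Tr.s (x j) N) ^ 2 * qf (PN N) (aN N) (Tr.s w N)) -
        θ j‖ ≤ η := a14
    linarith
  have f10 : ∀ᶠ N in (Tr.U : Filter ℕ), ∀ t : {t : κ × κ // t.1 ≠ t.2},
      Tr.s (x t.1.1 - x t.1.2) N = Tr.s (x t.1.1) N - Tr.s (x t.1.2) N ∧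
        Tr.s (ρ t.1.1) N ≠ 0 := by
    rw [eventually_all]
    intro t
    filter_upwards [Tr.s_sub (x t.1.1) (x t.1.2), Tr.s_ne_zero (hρ t.1.1)] with N a1 a2
    exact ⟨a1, a2⟩
  have f11 : ∀ᶠ N in (Tr.U : Filter ℕ), (pp (PN N)).eval (Tr.s w N) ≠ 0 := by
    filter_upwards [rP.2 w, Tr.s_ne_zero (hgw.2.ne_zero hρ'p)] with N a1 a2
    simp only [hPN]; rwa [a1]
  have hfin : ∀ᶠ N in (Tr.U : Filter ℕ), False := by
    filter_upwards [ea, ep, ec, ee, ef, e1, e2, e3, nv, np, nw, nq', hWfac, f1, f2, f3, f4, f5, f6,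
      f7, f8, f9, f10, f11, Tr.s_one, Tr.s_pow ϱ (D + 1), Tr.s_ne_zero hϱ0, Tr.s_ne_zero hq0,
      al_coeff_le Tr hϱ0 hcA, al_coeff_le Tr hϱ0 hcB, al_inv_le Tr hlw,
      Tr.s_lt ϱ 1 (by simpa using h1) (1 / (2 * K0 + Kc)) (by positivity),
      Tr.s_lt ϱ (qf P α w * ρ' ^ 2) (by simpa using hvis) (cc * δ ^ 2 / (4 * Cc)) (by positivity),
      Tr.s_mul (qf P α w) (ρ' ^ 2), Tr.s_pow ρ' 2, Transfer.s_qf (Tr := Tr) P α w]
      with N ea ep ec ee ef e1 e2 e3 nv np nw nq' hWfac f1 f2 f3 f4 f5 f6 f7 f8 f9 f10 f11 g1 g2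
        g3 g4 g5 g6 g7 g8 g9 g10 g11 g12
    have hrp : 0 < ‖Tr.s ϱ N‖ := norm_pos_iff.2 g3
    simp only [g1, norm_one, mul_one] at ea ep ec g8
    have hMbig : 2 * K0 + Kc ≤ ‖Tr.s ϱ N‖⁻¹ := by
      rw [one_div] at g8
      exact (le_inv_comm₀ (by positivity) hrp).2 g8
    set qw := qf (PN N) (aN N) (Tr.s w N) with hqw
    have key := hD (Tr.sp A N) (Tr.sp B N) nxt (PN N) (aN N) K0 (‖Tr.s ϱ N‖⁻¹)
      ((Ke + Kf) * ‖Tr.s ϱ N‖ ^ (D + 1)) (Tr.s lw N) (fun i => Tr.s (c i) N) hK01 (by linarith)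
      (by rw [hK0]; linarith) (by rw [hK0]; linarith)
      ((Transfer.natDegree_sp_le A N).trans hA) ((Transfer.natDegree_sp_le B N).trans hB) g5 g6 f1
      hWfac g7 (fun i => (ec i).trans (by linarith)) f2
      (fun i => (ep i).trans (by rw [hK0]; linarith)) f3 f4
      (fun i => (ea i).trans (by rw [hK0]; linarith)) f5 f6
      (fun i => by
        have := ee i
        rw [f7 i, g2, norm_pow] at this
        exact this.trans (mul_le_mul_of_nonneg_right (by linarith) (by positivity)))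
      (fun μ hμ => by
        have := ef ⟨μ, Nat.lt_succ_of_le hμ⟩
        rw [f8 ⟨μ, Nat.lt_succ_of_le hμ⟩, g2, norm_pow] at this
        exact this.trans (mul_le_mul_of_nonneg_right (by linarith) (by positivity)))
      (by positivity) (Tr.s w N) (δ * ‖Tr.s ρ' N‖) cc (‖qw‖ / 2) (by positivity) hcc0.le
      (by positivity) ?_
    · have e0 : 1000 * K0 ^ 5 / ‖Tr.s ϱ N‖⁻¹ +
          (Ke + Kf) * ‖Tr.s ϱ N‖ ^ (D + 1) * ‖Tr.s ϱ N‖⁻¹ ^ D = Cc * ‖Tr.s ϱ N‖ := by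
        rw [hCc, inv_pow]
        field_simp
        ring
      rw [e0] at key
      rw [g10, g11, g12] at g4 g9
      have g4' : 0 < ‖qw‖ * ‖Tr.s ρ' N‖ ^ 2 := by
        rw [← norm_pow, ← norm_mul]; exact norm_pos_iff.2 g4
      have g9' : ‖Tr.s ϱ N‖ ≤ cc * δ ^ 2 / (4 * Cc) * (‖qw‖ * ‖Tr.s ρ' N‖ ^ 2) := by
        rw [← norm_pow, ← norm_mul]; exact g9
      have : Cc * ‖Tr.s ϱ N‖ ≤ cc * δ ^ 2 / 4 * (‖qw‖ * ‖Tr.s ρ' N‖ ^ 2) := by
        calc _ ≤ Cc * (cc * δ ^ 2 / (4 * Cc) * (‖qw‖ * ‖Tr.s ρ' N‖ ^ 2)) := by gcongr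
          _ = _ := by field_simp
      have h3 : cc * (‖qw‖ / 2) * (δ * ‖Tr.s ρ' N‖) ^ 2 =
          cc * δ ^ 2 / 2 * (‖qw‖ * ‖Tr.s ρ' N‖ ^ 2) := by ring
      have h4 : 0 < cc * δ ^ 2 * (‖qw‖ * ‖Tr.s ρ' N‖ ^ 2) := by positivity
      rw [h3] at key
      linarith
    · intro w' hw'
      have hw1 : ∀ t : ℝ, δ ≤ t → ‖w' - Tr.s w N‖ ≤ t * ‖Tr.s ρ' N‖ := fun t ht =>
        hw'.le.trans (mul_le_mul_of_nonneg_right ht (norm_nonneg _))
      have b1 := al_norm_bounds (nw w' (hw1 _ ((min_le_left _ _).trans (min_le_left _ _))))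
      have b2 := (al_norm_bounds (nq' w' (hw1 _ ((min_le_left _ _).trans (min_le_right _ _))))).1
      have hpw' : (pp (PN N)).eval w' ≠ 0 := by
        have : 0 < ‖(pp (PN N)).eval (Tr.s w N)‖ := norm_pos_iff.2 f11
        exact norm_pos_iff.1 (lt_of_lt_of_le (by positivity) b2)
      rw [← div_eq_mul_inv, ← div_eq_mul_inv, ← qf_eq_div _ _ hpw', ← qf_eq_div _ _ f11] at b1
      have hq : 0 ≤ ‖qw‖ := norm_nonneg _
      refine ⟨le_trans (al_num1 hη2 hq) b1.1, ?_⟩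
      have hroot : ∀ j, Tr.sp A N - C w' * Tr.sp B N ≠ 0 ∧
          ∃ y, (Tr.sp A N - C w' * Tr.sp B N).IsRoot y ∧
            ‖y - Tr.s (x j) N‖ ≤ δ1 * ‖Tr.s (ρ j) N‖ := fun j => by
        obtain ⟨c1, c2, c3, c4, c5, c6, c7, c8, c9⟩ := f9 j
        have d1 := e1 j
        have d2 := e2 j
        simp only [c5, c6, c7, c8, norm_mul, norm_pow] at d1 d2
        obtain ⟨r1, y, r2, r3⟩ := complex_preimage_near ((Transfer.natDegree_sp_le A N).trans hA)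
          ((Transfer.natDegree_sp_le B N).trans hB) (r := ‖Tr.s (ρ j) N‖) (r' := ‖Tr.s ρ' N‖)
          (M := Mx) (δ := δ) c1 c2 c3 (norm_nonneg _) (by linarith) hδ0.le
          (d1.trans (mul_le_mul_of_nonneg_right (by rw [hMx]; linarith) (by positivity)))
          (d2.trans (mul_le_mul_of_nonneg_right (by rw [hMx]; linarith) (by positivity)))
          (by
            have : δ ≤ 1 / (2 * Mx * Mx) := (min_le_right _ _).trans (min_le_left _ _)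
            rw [le_div_iff₀ (by positivity)] at this
            linarith) hw'.le
        refine ⟨r1, y, r2, r3.trans (mul_le_mul_of_nonneg_right ?_ (norm_nonneg _))⟩
        have : δ ≤ δ1 / (2 * d * Mx) := (min_le_right _ _).trans (min_le_right _ _)
        rw [le_div_iff₀ (by positivity)] at this
        linarith
      choose hne y hy hyx using hroot
      have hinj : Function.Injective y := by
        intro j l hjl
        by_contra hne'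
        obtain ⟨c1, c2⟩ := f10 ⟨(j, l), hne'⟩
        obtain ⟨c3, -⟩ := f10 ⟨(l, j), Ne.symm hne'⟩
        have d1 := e3 ⟨(j, l), hne'⟩
        have d2 := e3 ⟨(l, j), Ne.symm hne'⟩
        simp only at c1 c2 c3 d1 d2
        rw [c1] at d1
        rw [c3, norm_sub_rev] at d2
        have d3 : ‖Tr.s (x j) N - Tr.s (x l) N‖ ≤ δ1 * ‖Tr.s (ρ j) N‖ + δ1 * ‖Tr.s (ρ l) N‖ := by
          have : Tr.s (x j) N - Tr.s (x l) N = (y l - Tr.s (x l) N) - (y j - Tr.s (x j) N) := by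
            rw [hjl]; ring
          rw [this]
          have := norm_sub_le (y l - Tr.s (x l) N) (y j - Tr.s (x j) N)
          linarith [hyx j, hyx l]
        have d4 : δ1 * Mx ≤ 1 / 4 := by
          have : δ1 ≤ 1 / (4 * Mx) := min_le_right _ _
          rw [le_div_iff₀ (by positivity)] at this
          linarith
        have d5 : 0 < ‖Tr.s (ρ j) N‖ := norm_pos_iff.2 c2
        set t := ‖Tr.s (x j) N - Tr.s (x l) N‖
        have ht : 0 ≤ t := norm_nonneg _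
        have d6 : M3 * t ≤ Mx * t := mul_le_mul_of_nonneg_right (by rw [hMx]; linarith) ht
        have d7 : t ≤ δ1 * (Mx * t) + δ1 * (Mx * t) := by
          refine d3.trans (add_le_add ?_ ?_) <;> gcongr <;> linarith
        have d8 : δ1 * (Mx * t) ≤ 1 / 4 * t := by
          rw [← mul_assoc]; exact mul_le_mul_of_nonneg_right d4 ht
        have : t = 0 := by linarith
        rw [this] at d1
        linarith
      have hterm : ∀ j, (1 - η) * ((‖θ j‖ - η) * ‖qw‖) ≤ ‖qf (PN N) (aN N) (y j)‖ *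
          ‖(Tr.sp B N).eval (y j)‖ ^ 4 / ‖(wr (Tr.sp A N) (Tr.sp B N)).eval (y j)‖ ^ 2 := by
        intro j
        obtain ⟨c1, c2, c3, c4, c5, c6, c7, c8, c9⟩ := f9 j
        have hy1 : ∀ t : ℝ, δ1 ≤ t → ‖y j - Tr.s (x j) N‖ ≤ t * ‖Tr.s (ρ j) N‖ := fun t ht =>
          (hyx j).trans (mul_le_mul_of_nonneg_right ht (norm_nonneg _))
        have d1 := (al_norm_bounds (nv j (y j)
          (hy1 _ ((min_le_left _ _).trans (min_le_left _ _))))).1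
        have d2 := (al_norm_bounds (np j (y j)
          (hy1 _ ((min_le_left _ _).trans (min_le_right _ _))))).1
        have hpy : (pp (PN N)).eval (y j) ≠ 0 := by
          have : 0 < ‖(pp (PN N)).eval (Tr.s (x j) N)‖ := norm_pos_iff.2 c4
          exact norm_pos_iff.1 (lt_of_lt_of_le (by positivity) d2)
        have d3 : ‖v N (y j)‖ = ‖qf (PN N) (aN N) (y j)‖ *
            ‖(Tr.sp B N).eval (y j)‖ ^ 4 / ‖(wr (Tr.sp A N) (Tr.sp B N)).eval (y j)‖ ^ 2 := by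
          rw [qf_eq_div _ _ hpy]
          simp only [hv, norm_mul, norm_inv, norm_pow, norm_div]
          ring
        rw [← d3]
        exact (mul_le_mul_of_nonneg_left c9 (by linarith)).trans d1
      have hsum : ∑ j, (1 - η) * ((‖θ j‖ - η) * ‖qw‖) ≤ push (Tr.sp A N) (Tr.sp B N) (PN N) (aN N) w' := by
        refine (Finset.sum_le_sum fun j _ => hterm j).trans ?_
        unfold push
        rw [← Finset.sum_image (s := Finset.univ) (g := y) (f := fun z => ‖qf (PN N) (aN N) z‖ *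
          ‖(Tr.sp B N).eval z‖ ^ 4 / ‖(wr (Tr.sp A N) (Tr.sp B N)).eval z‖ ^ 2)
          (fun a _ b _ h => hinj h)]
        refine Finset.sum_le_sum_of_subset_of_nonneg ?_ fun z _ _ => by positivity
        intro z hz
        obtain ⟨j, -, rfl⟩ := Finset.mem_image.1 hz
        exact Multiset.mem_toFinset.2 ((mem_roots (hne j)).2 (hy j))
      refine le_trans ?_ hsum
      rw [← Finset.mul_sum, ← Finset.sum_mul, Finset.sum_sub_distrib, ← hS]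
      simp only [Finset.sum_const, Finset.card_univ, nsmul_eq_mul]
      calc (1 + cc) * ‖qf (PN N) (aN N) w'‖ ≤ (1 + cc) * ((1 + η) * ‖qw‖) := by
            gcongr; exact b1.2
        _ = (1 + cc) * (1 + η) * ‖qw‖ := by ring
        _ ≤ (1 - η) * (S - Fintype.card κ * η) * ‖qw‖ := by
            exact mul_le_mul_of_nonneg_right (al_num2 hcc hη1 hη0.le hk0 hcc0.le) hq
        _ = _ := by ring
  exact hfin.exists.elim fun _ h => h

end Pool.Agent.Lib.MP_0dd0d9_ag
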