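import Pool.Agent.Lib.MP_0dd0d9_ag.Defs

/-!
TASK g0d Alg.  Algebra of binary forms over a commutative ring.
-/

namespace Pool.Agent.Lib.MP_0dd0d9_ag

open Polynomial

variable {R : Type*} [CommRing R]

theorem alg_eval_homog (e : ℕ) (a : R[X]) (p : V R) :
    MvPolynomial.eval p (a.homogenize e) =
      ∑ μ : Fin (e + 1), a.coeff μ.val * (p 0 ^ μ.val * p 1 ^ (e - μ.val)) := by
  rw [Polynomial.homogenize, map_sum, Finset.Nat.sum_antidiagonal_eq_sum_range_succ_mk,
    Fin.sum_univ_eq_sum_range (fun μ => a.coeff μ * (p 0 ^ μ * p 1 ^ (e - μ))) (e + 1)]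
  refine Finset.sum_congr rfl fun μ _ => ?_
  rw [MvPolynomial.eval_monomial, Finsupp.prod_fintype _ _ (by simp), Fin.prod_univ_two]
  simp

theorem alg_deh_homog (e : ℕ) (a : R[X]) :
    deh (a.homogenize e) = ∑ μ ∈ Finset.range (e + 1), monomial μ (a.coeff μ) := by
  rw [deh, Polynomial.homogenize, map_sum, Finset.Nat.sum_antidiagonal_eq_sum_range_succ_mk]
  refine Finset.sum_congr rfl fun μ _ => ?_
  rw [MvPolynomial.aeval_monomial, Finsupp.prod_fintype _ _ (by simp), Fin.prod_univ_two]
  simp [C_mul_X_pow_eq_monomial]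

theorem alg_homog_deh {e : ℕ} {A : MvPolynomial (Fin 2) R} (hA : A.IsHomogeneous e) :
    (deh A).homogenize e = A :=
  Polynomial.homogenize_eq_of_isHomogeneous hA rfl

theorem alg_eval_bind (G : Mp R) (A : MvPolynomial (Fin 2) R) (x : V R) :
    MvPolynomial.eval x (MvPolynomial.bind₁ G A) = MvPolynomial.eval (app G x) A := by
  induction A using MvPolynomial.induction_on with
  | C a => simp
  | add p q hp hq => simp [hp, hq]
  | mul_X p i hp => simp [hp, app]

theorem alg_pderiv_bind (G : Mp R) (A : MvPolynomial (Fin 2) R) (i : Fin 2) :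
    MvPolynomial.pderiv i (MvPolynomial.bind₁ G A) =
      MvPolynomial.bind₁ G (MvPolynomial.pderiv 0 A) * MvPolynomial.pderiv i (G 0) +
        MvPolynomial.bind₁ G (MvPolynomial.pderiv 1 A) * MvPolynomial.pderiv i (G 1) := by
  induction A using MvPolynomial.induction_on with
  | C a => simp
  | add p q hp hq =>
    simp only [map_add, hp, hq]
    ring
  | mul_X p j hp =>
    fin_cases j
    · simp [hp]
      ring
    · simp [hp]
      ring

theorem alg_deh_add (A B : MvPolynomial (Fin 2) R) : deh (A + B) = deh A + deh B :=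
  map_add _ _ _

theorem alg_deh_sub (A B : MvPolynomial (Fin 2) R) : deh (A - B) = deh A - deh B :=
  map_sub _ _ _

theorem alg_deh_mul (A B : MvPolynomial (Fin 2) R) : deh (A * B) = deh A * deh B :=
  map_mul _ _ _

theorem alg_deh_C (a : R) : deh (MvPolynomial.C a : MvPolynomial (Fin 2) R) = C a := by
  simp [deh]

theorem alg_deh_X0 : deh (MvPolynomial.X 0 : MvPolynomial (Fin 2) R) = X := by
  simp [deh]

theorem alg_deh_X1 : deh (MvPolynomial.X 1 : MvPolynomial (Fin 2) R) = 1 := by
  simp [deh]

theorem alg_deh_pderiv0 (A : MvPolynomial (Fin 2) R) :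
    deh (MvPolynomial.pderiv 0 A) = derivative (deh A) := by
  induction A using MvPolynomial.induction_on with
  | C a => simp [deh]
  | add p q hp hq => rw [map_add, alg_deh_add, alg_deh_add, hp, hq, map_add]
  | mul_X p j hp =>
    rw [deh, deh] at hp
    fin_cases j
    · simp [deh, hp]
      ring
    · simp [deh, hp]

theorem alg_deh_pderiv1 {d : ℕ} {A : MvPolynomial (Fin 2) R} (hA : A.IsHomogeneous d) :
    deh (MvPolynomial.pderiv 1 A) = C (d : R) * deh A - X * derivative (deh A) := by
  have h := congrArg deh hA.sum_X_mul_pderiv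
  rw [Fin.sum_univ_two, alg_deh_add, alg_deh_mul, alg_deh_mul, alg_deh_X0, alg_deh_X1,
    alg_deh_pderiv0, nsmul_eq_mul, alg_deh_mul] at h
  have h2 : deh ((d : ℕ) : MvPolynomial (Fin 2) R) = C (d : R) := by
    simp [deh]
  rw [h2] at h
  linear_combination h

theorem wedge_self (x : V R) : wedge x x = 0 := by
  simp only [wedge]; ring
theorem wedge_comm (x y : V R) : wedge x y = -wedge y x := by
  simp only [wedge]; ring
theorem wedge_smul_left (s : R) (x y : V R) : wedge (s • x) y = s * wedge x y := by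
  simp only [wedge, Pi.smul_apply, smul_eq_mul]; ring
theorem wedge_smul_right (s : R) (x y : V R) : wedge x (s • y) = s * wedge x y := by
  simp only [wedge, Pi.smul_apply, smul_eq_mul]; ring
theorem wedge_mulVec (g : Matrix (Fin 2) (Fin 2) R) (x y : V R) :
    wedge (g.mulVec x) (g.mulVec y) = g.det * wedge x y := by
  simp only [wedge, Matrix.mulVec, dotProduct, Fin.sum_univ_two, Matrix.det_fin_two]
  ring

theorem app_cmp (F G : Mp R) (x : V R) : app (cmp F G) x = app F (app G x) :=
  funext fun i => alg_eval_bind G (F i) x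
theorem app_lin (g : Matrix (Fin 2) (Fin 2) R) (x : V R) : app (lin g) x = g.mulVec x := by
  funext i
  simp [app, lin, Matrix.mulVec, dotProduct, Fin.sum_univ_two]
theorem app_itc (F : Mp R) (n : ℕ) (x : V R) : app (itc F n) x = (app F)^[n] x := by
  induction n with
  | zero => funext i; simp [app, itc]
  | succ n ih => rw [itc, app_cmp, ih, Function.iterate_succ_apply']
theorem app_smulF (r : R) (F : Mp R) (x : V R) : app (smulF r F) x = r • app F x := by
  funext i
  simp [app, smulF]

theorem isHom_cmp {d e : ℕ} {F G : Mp R} (hF : IsHom d F) (hG : IsHom e G) :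
    IsHom (d * e) (cmp F G) := fun i => by
  rw [mul_comm]
  exact (hF i).aeval G hG
theorem isHom_lin (g : Matrix (Fin 2) (Fin 2) R) : IsHom 1 (lin g) := fun _ =>
  (MvPolynomial.isHomogeneous_C_mul_X _ _).add (MvPolynomial.isHomogeneous_C_mul_X _ _)
theorem isHom_itc {d : ℕ} {F : Mp R} (hF : IsHom d F) (n : ℕ) : IsHom (d ^ n) (itc F n) := by
  induction n with
  | zero => exact fun i => MvPolynomial.isHomogeneous_X _ i
  | succ n ih =>
    rw [pow_succ']
    exact isHom_cmp hF ih
theorem isHom_smulF {d : ℕ} {F : Mp R} (hF : IsHom d F) (r : R) : IsHom d (smulF r F) :=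
  fun i => (hF i).C_mul r
theorem isHom_mk (d : ℕ) (a b : R[X]) : IsHom d (mk d a b) := fun i => by
  fin_cases i
  · exact isHomogeneous_homogenize a
  · exact isHomogeneous_homogenize b
theorem isHom_mapF {S : Type*} [CommRing S] (f : R →+* S) {d : ℕ} {F : Mp R} (hF : IsHom d F) :
    IsHom d (mapF f F) := fun i => (hF i).map f
theorem smulF_mk (r : R) (d : ℕ) (a b : R[X]) :
    smulF r (mk d a b) = mk d (C r * a) (C r * b) := by
  funext i
  fin_cases i <;> simp [smulF, mk]

theorem eval_smul_hom {e : ℕ} {A : MvPolynomial (Fin 2) R} (hA : A.IsHomogeneous e) (s : R)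
    (x : V R) : MvPolynomial.eval (s • x) A = s ^ e * MvPolynomial.eval x A := by
  rw [← alg_homog_deh hA, alg_eval_homog, alg_eval_homog, Finset.mul_sum]
  refine Finset.sum_congr rfl fun μ _ => ?_
  have h : s ^ e = s ^ μ.val * s ^ (e - μ.val) := by
    rw [← pow_add, Nat.add_sub_cancel' (Nat.lt_succ_iff.1 μ.2)]
  simp only [Pi.smul_apply, smul_eq_mul, mul_pow, h]
  ring
theorem app_smul {d : ℕ} {F : Mp R} (hF : IsHom d F) (s : R) (x : V R) :
    app F (s • x) = s ^ d • app F x :=
  funext fun i => eval_smul_hom (hF i) s x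
theorem iter_smul {d : ℕ} {F : Mp R} (hF : IsHom d F) (n : ℕ) (s : R) (x : V R) :
    (app F)^[n] (s • x) = s ^ (d ^ n) • (app F)^[n] x := by
  rw [← app_itc, ← app_itc, app_smul (isHom_itc hF n)]

/-- Use `MvPolynomial.IsHomogeneous.pderiv` from the file on the Euler identity. -/
theorem jac_hom {d : ℕ} {F : Mp R} (hF : IsHom d F) : (jac F).IsHomogeneous (2 * d - 2) := by
  have h : 2 * d - 2 = (d - 1) + (d - 1) := by omega
  rw [h]
  exact ((hF 0).pderiv.mul (hF 1).pderiv).sub ((hF 0).pderiv.mul (hF 1).pderiv)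

/-- Chain rule.  First prove, by induction on `A`, that
`pderiv i (bind₁ G A) = ∑ l, bind₁ G (pderiv l A) * pderiv i (G l)`. -/
theorem eval_jac_cmp (F G : Mp R) (x : V R) :
    MvPolynomial.eval x (jac (cmp F G)) =
      MvPolynomial.eval (app G x) (jac F) * MvPolynomial.eval x (jac G) := by
  simp only [jac, cmp, alg_pderiv_bind, map_sub, map_mul, map_add, alg_eval_bind]
  ring
theorem eval_jac_lin (g : Matrix (Fin 2) (Fin 2) R) (x : V R) :
    MvPolynomial.eval x (jac (lin g)) = g.det := by
  simp [jac, lin, Matrix.det_fin_two]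
theorem eval_jac_smulF (r : R) (F : Mp R) (x : V R) :
    MvPolynomial.eval x (jac (smulF r F)) = r ^ 2 * MvPolynomial.eval x (jac F) := by
  simp only [jac, smulF, MvPolynomial.pderiv_C_mul, map_sub, map_mul, MvPolynomial.eval_C]
  ring

theorem eval_deh (A : MvPolynomial (Fin 2) R) (x : R) :
    (deh A).eval x = MvPolynomial.eval ![x, 1] A := by
  induction A using MvPolynomial.induction_on with
  | C a => simp [deh]
  | add p q hp hq => rw [alg_deh_add, eval_add, map_add, hp, hq]
  | mul_X p j hp =>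
    rw [alg_deh_mul, eval_mul, map_mul, hp]
    fin_cases j <;> simp [deh]
theorem natDegree_deh_le {e : ℕ} {A : MvPolynomial (Fin 2) R} (hA : A.IsHomogeneous e) :
    (deh A).natDegree ≤ e := by
  rw [← alg_homog_deh hA, alg_deh_homog]
  refine natDegree_sum_le_of_forall_le _ _ fun μ hμ => ?_
  exact (natDegree_monomial_le _).trans (Nat.lt_succ_iff.1 (Finset.mem_range.1 hμ))
/-- See `Polynomial.homogenize_eq_of_isHomogeneous`. -/
theorem homogenize_deh {e : ℕ} {A : MvPolynomial (Fin 2) R} (hA : A.IsHomogeneous e) :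
    (deh A).homogenize e = A := alg_homog_deh hA
theorem deh_homogenize {e : ℕ} {a : R[X]} (ha : a.natDegree ≤ e) : deh (a.homogenize e) = a :=
  aeval_homogenize_X_one a ha
theorem eval_homogenize_eq_sum (e : ℕ) (a : R[X]) (p : V R) :
    MvPolynomial.eval p (a.homogenize e) =
      ∑ μ : Fin (e + 1), a.coeff μ.val * (p 0 ^ μ.val * p 1 ^ (e - μ.val)) :=
  alg_eval_homog e a p
theorem eval_hom_eq_sum {e : ℕ} {A : MvPolynomial (Fin 2) R} (hA : A.IsHomogeneous e) (p : V R) :
    MvPolynomial.eval p A =
      ∑ μ : Fin (e + 1), (deh A).coeff μ.val * (p 0 ^ μ.val * p 1 ^ (e - μ.val)) := by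
  rw [← alg_eval_homog, alg_homog_deh hA]
theorem coeff_deh_top {e : ℕ} {A : MvPolynomial (Fin 2) R} (hA : A.IsHomogeneous e) :
    (deh A).coeff e = MvPolynomial.eval ![1, 0] A := by
  rw [eval_hom_eq_sum hA, Finset.sum_eq_single (Fin.last e)]
  · simp
  · intro μ _ hμ
    have h : e - μ.val ≠ 0 := by
      have := Fin.val_lt_last hμ
      omega
    simp [h]
  · intro h
    exact absurd (Finset.mem_univ _) h
/-- Every coefficient of a homogenised polynomial is a coefficient of the polynomial or zero
(`Polynomial.coeff_homogenize`). -/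
theorem coeff_homogenize_cases (e : ℕ) (a : R[X]) (m : Fin 2 →₀ ℕ) :
    MvPolynomial.coeff m (a.homogenize e) = 0 ∨
      MvPolynomial.coeff m (a.homogenize e) = a.coeff (m 0) := by
  rw [coeff_homogenize]
  split_ifs
  · exact Or.inr rfl
  · exact Or.inl rfl
/-- `deh (pderiv 0 A) = derivative (deh A)`, and the Euler identity gives
`deh (pderiv 1 A) = d * deh A - X * derivative (deh A)`. -/
theorem deh_jac {d : ℕ} {F : Mp R} (hF : IsHom d F) :
    deh (jac F) = C (d : R) * wr (deh (F 0)) (deh (F 1)) := by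
  rw [jac, alg_deh_sub, alg_deh_mul, alg_deh_mul, alg_deh_pderiv0, alg_deh_pderiv0,
    alg_deh_pderiv1 (hF 0), alg_deh_pderiv1 (hF 1), wr]
  ring
theorem natDegree_wr_le {d : ℕ} {a b : R[X]} (ha : a.natDegree ≤ d) (hb : b.natDegree ≤ d) :
    (wr a b).natDegree ≤ 2 * d - 1 := by
  have h1 := natDegree_derivative_le a
  have h2 := natDegree_derivative_le b
  have h3 := natDegree_mul_le (p := derivative a) (q := b)
  have h4 := natDegree_mul_le (p := a) (q := derivative b)
  have h5 := natDegree_sub_le (derivative a * b) (a * derivative b)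
  rw [wr]
  omega
theorem wr_sub_C_mul (a b : R[X]) (w : R) : wr (a - C w * b) b = wr a b := by
  simp only [wr, derivative_sub, derivative_mul, derivative_C]
  ring

theorem eval_fixp (F : Mp R) (x : R) : (fixp F).eval x = wedge (app F ![x, 1]) ![x, 1] := by
  simp [fixp, wedge, app, eval_deh, mul_comm]
theorem natDegree_fixp_le {e : ℕ} {F : Mp R} (hF : IsHom e F) : (fixp F).natDegree ≤ e + 1 := by
  have h1 := natDegree_deh_le (hF 0)
  have h2 := natDegree_deh_le (hF 1)
  have h3 := natDegree_mul_le (p := (X : R[X])) (q := deh (F 1))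
  have h4 := natDegree_X_le (R := R)
  have h5 := natDegree_sub_le (deh (F 0)) (X * deh (F 1))
  rw [fixp]
  omega

section maps
variable {S : Type*} [CommRing S] (f : R →+* S)

theorem app_mapF (F : Mp R) (x : V R) : app (mapF f F) (fun i => f (x i)) = fun i => f (app F x i) := by
  funext i
  simp only [app, mapF]
  induction F i using MvPolynomial.induction_on with
  | C a => simp
  | add p q hp hq => simp only [map_add, hp, hq]
  | mul_X p j hp => simp only [map_mul, hp, MvPolynomial.map_X, MvPolynomial.eval_X]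
theorem iter_mapF (F : Mp R) (n : ℕ) (x : V R) :
    (app (mapF f F))^[n] (fun i => f (x i)) = fun i => f ((app F)^[n] x i) := by
  induction n with
  | zero => rfl
  | succ n ih => rw [Function.iterate_succ_apply', Function.iterate_succ_apply', ih, app_mapF]
theorem wedge_map (x y : V R) : wedge (fun i => f (x i)) (fun i => f (y i)) = f (wedge x y) := by
  simp [wedge]
theorem mapF_itc (F : Mp R) (n : ℕ) : mapF f (itc F n) = itc (mapF f F) n := by
  induction n with
  | zero => funext i; simp [mapF, itc]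
  | succ n ih =>
    funext i
    rw [itc, itc, ← ih]
    exact MvPolynomial.map_bind₁ f _ _
theorem deh_map (A : MvPolynomial (Fin 2) R) : deh (MvPolynomial.map f A) = (deh A).map f := by
  induction A using MvPolynomial.induction_on with
  | C a => simp [deh]
  | add p q hp hq => rw [map_add, alg_deh_add, alg_deh_add, hp, hq, Polynomial.map_add]
  | mul_X p j hp =>
    rw [map_mul, alg_deh_mul, alg_deh_mul, hp, Polynomial.map_mul]
    fin_cases j <;> simp [deh]
theorem fixp_mapF (F : Mp R) : fixp (mapF f F) = (fixp F).map f := by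
  simp [fixp, mapF, deh_map]
theorem mapF_mk (d : ℕ) (a b : R[X]) : mapF f (mk d a b) = mk d (a.map f) (b.map f) := by
  funext i
  fin_cases i <;> simp [mapF, mk, homogenize_map]
theorem mapF_sF (d : ℕ) (c : Fin d ⊕ Fin (d - 1) → R) :
    mapF f (sF d c) = sF d (fun i => f (c i)) := by
  rw [sF, sF, mapF_mk]
  simp [sA, sB, Polynomial.map_sum]
theorem mapF_FU (d : ℕ) (c : Fin (2 * d + 1) → R) :
    mapF f (FU d c) = FU d (fun i => f (c i)) := by
  rw [FU, FU, mapF_mk]
  simp [aU, bU, Polynomial.map_sum]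

end maps

theorem natDegree_aU_le (d : ℕ) (c : Fin (2 * d + 1) → R) : (aU d c).natDegree ≤ d :=
  natDegree_sum_le_of_forall_le _ _ fun i _ =>
    (natDegree_monomial_le _).trans (Nat.lt_succ_iff.1 i.2)
theorem natDegree_bU_le (d : ℕ) (c : Fin (2 * d + 1) → R) : (bU d c).natDegree ≤ d := by
  refine (natDegree_add_le _ _).trans (max_le (by simp) ?_)
  exact natDegree_sum_le_of_forall_le _ _ fun i _ => (natDegree_monomial_le _).trans i.2
theorem coeff_aU (d : ℕ) (c : Fin (2 * d + 1) → R) (i : ℕ) :
    (aU d c).coeff i = if h : i ≤ d then c ⟨i, by omega⟩ else 0 := by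
  rw [aU, finsetSum_coeff]
  split_ifs with h
  · rw [Finset.sum_eq_single (⟨i, by omega⟩ : Fin (d + 1))]
    · simp
    · intro j _ hj
      rw [coeff_monomial, if_neg (fun h' => hj (Fin.ext h'))]
    · intro h'
      exact absurd (Finset.mem_univ _) h'
  · refine Finset.sum_eq_zero fun j _ => ?_
    rw [coeff_monomial, if_neg (by omega)]
theorem coeff_bU (d : ℕ) (c : Fin (2 * d + 1) → R) (i : ℕ) :
    (bU d c).coeff i =
      if i = 0 then 1 else if h : i ≤ d then c ⟨d + i, by omega⟩ else 0 := by
  rw [bU, coeff_add, finsetSum_coeff, coeff_one]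
  split_ifs with h0 h
  · rw [Finset.sum_eq_zero, add_zero]
    intro j _
    rw [coeff_monomial, if_neg (by omega)]
  · rw [zero_add, Finset.sum_eq_single (⟨i - 1, by omega⟩ : Fin d)]
    · rw [coeff_monomial, if_pos (by simp only; omega)]
      congr 2
      simp only
      omega
    · intro j _ hj
      rw [coeff_monomial, if_neg (fun h' => hj (Fin.ext (by simp only; omega)))]
    · intro h'
      exact absurd (Finset.mem_univ _) h'
  · rw [zero_add]
    refine Finset.sum_eq_zero fun j _ => ?_
    rw [coeff_monomial, if_neg (by omega)]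
theorem natDegree_sA_le (d : ℕ) (c : Fin d ⊕ Fin (d - 1) → R) : (sA d c).natDegree ≤ d := by
  refine (natDegree_add_le _ _).trans (max_le (by simp) ?_)
  exact natDegree_sum_le_of_forall_le _ _ fun i _ => (natDegree_monomial_le _).trans i.2
theorem natDegree_sB_le {d : ℕ} (hd : 1 ≤ d) (c : Fin d ⊕ Fin (d - 1) → R) :
    (sB d c).natDegree ≤ d := by
  have h1 : (1 - X : R[X]).natDegree ≤ 1 :=
    (natDegree_sub_le _ _).trans (max_le (by simp) natDegree_X_le)
  have h2 : (1 + ∑ i : Fin (d - 1), monomial (i.val + 1) (c (Sum.inr i)) : R[X]).natDegree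
      ≤ d - 1 := by
    refine (natDegree_add_le _ _).trans (max_le (by simp) ?_)
    exact natDegree_sum_le_of_forall_le _ _ fun i _ => (natDegree_monomial_le _).trans i.2
  refine natDegree_mul_le.trans ?_
  omega
theorem app_sF_zero {d : ℕ} (hd : 1 ≤ d) (c : Fin d ⊕ Fin (d - 1) → R) :
    app (sF d c) ![0, 1] = ![1, 1] := by
  funext i
  fin_cases i
  · show MvPolynomial.eval ![0, 1] ((sA d c).homogenize d) = 1
    rw [← eval_deh, deh_homogenize (natDegree_sA_le d c)]
    simp [sA, eval_finsetSum]
  · show MvPolynomial.eval ![0, 1] ((sB d c).homogenize d) = 1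
    rw [← eval_deh, deh_homogenize (natDegree_sB_le hd c)]
    simp [sB, eval_finsetSum]
theorem app_sF_one {d : ℕ} (hd : 1 ≤ d) (c : Fin d ⊕ Fin (d - 1) → R) :
    app (sF d c) ![1, 1] 1 = 0 := by
  show MvPolynomial.eval ![1, 1] ((sB d c).homogenize d) = 0
  rw [← eval_deh, deh_homogenize (natDegree_sB_le hd c)]
  simp [sB]

theorem coeff_pco {D : R → R} (hD : D 0 = 0) (a : R[X]) (i : ℕ) :
    (pco D a).coeff i = D (a.coeff i) := by
  rw [pco, finsetSum_coeff, Finset.sum_eq_single i]
  · simp
  · intro j _ hj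
    rw [coeff_monomial, if_neg hj]
  · intro h
    rw [notMem_support_iff.1 h, hD]
    simp

end Pool.Agent.Lib.MP_0dd0d9_ag
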