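import Pool.Agent.Lib.MP_0dd0d9_ag.Alg

/-!
TASK g0d Alg2.  Binary forms over a field: factorisation, fibres, normalisation, tangent identity.
-/

namespace Pool.Agent.Lib.MP_0dd0d9_ag

open Polynomial

variable {K : Type*} [Field K]

theorem exists_smul_of_wedge_eq_zero {x z : V K} (hz : z ≠ 0) (h : wedge x z = 0) :
    ∃ k : K, x = k • z := by
  unfold wedge at h
  by_cases h0 : z 0 = 0
  · have h1 : z 1 ≠ 0 := by
      intro h1
      apply hz
      funext i
      fin_cases i
      · exact h0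
      · exact h1
    refine ⟨x 1 / z 1, funext fun i => ?_⟩
    fin_cases i
    · simp only [Fin.zero_eta, Pi.smul_apply, smul_eq_mul]
      field_simp
      linear_combination h
    · simp only [Fin.mk_one, Pi.smul_apply, smul_eq_mul]
      field_simp
  · refine ⟨x 0 / z 0, funext fun i => ?_⟩
    fin_cases i
    · simp only [Fin.zero_eta, Pi.smul_apply, smul_eq_mul]
      field_simp
    · simp only [Fin.mk_one, Pi.smul_apply, smul_eq_mul]
      field_simp
      linear_combination -h

theorem ne_zero_of_wedge_left {x y : V K} (h : wedge x y ≠ 0) : x ≠ 0 := by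
  rintro rfl
  simp [wedge] at h

theorem ne_zero_of_wedge_right {x y : V K} (h : wedge x y ≠ 0) : y ≠ 0 := by
  rintro rfl
  simp [wedge] at h

theorem Dj_one {d : ℕ} (hd : (d : K) ≠ 0) {F : Mp K} (hF : IsHom d F) (x : K) :
    Dj d F ![x, 1] = (wr (deh (F 0)) (deh (F 1))).eval x := by
  rw [Dj, ← eval_deh, deh_jac hF, eval_mul, eval_C]
  field_simp

theorem Dj_smul {d : ℕ} {F : Mp K} (hF : IsHom d F) (s : K) (x : V K) :
    Dj d F (s • x) = s ^ (2 * d - 2) * Dj d F x := by
  rw [Dj, Dj, eval_smul_hom (jac_hom hF), mul_div_assoc]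

theorem Dj_cmp (d e : ℕ) (F G : Mp K) (x : V K) :
    Dj (d * e) (cmp F G) x = Dj d F (app G x) * Dj e G x := by
  rw [Dj, Dj, Dj, eval_jac_cmp, Nat.cast_mul, mul_div_mul_comm]

theorem Dj_lin (g : Matrix (Fin 2) (Fin 2) K) (x : V K) : Dj 1 (lin g) x = g.det := by
  rw [Dj, eval_jac_lin, Nat.cast_one, div_one]

theorem Dj_smulF (d : ℕ) (r : K) (F : Mp K) (x : V K) :
    Dj d (smulF r F) x = r ^ 2 * Dj d F x := by
  rw [Dj, Dj, eval_jac_smulF, mul_div_assoc]

theorem Dj_itc_three (d : ℕ) (F : Mp K) (x : V K) :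
    Dj (d ^ 3) (itc F 3) x =
      Dj d F x * Dj d F (app F x) * Dj d F (app F (app F x)) := by
  have e1 : d ^ 3 = d * (d * (d * 1)) := by ring
  have e2 : itc F 3 = cmp F (cmp F (cmp F (itc F 0))) := rfl
  have e3 : app (itc F 0) x = x := app_itc F 0 x
  have e4 : Dj 1 (itc F 0) x = 1 := by
    simp [Dj, jac, itc, MvPolynomial.pderiv_X]
  rw [e1, e2, Dj_cmp, Dj_cmp, Dj_cmp, app_cmp, app_cmp, e3, e4]
  ring

theorem alg2_factor [IsAlgClosed K] : ∀ (e : ℕ) (a : K[X]), a ≠ 0 → a.natDegree ≤ e →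
    ∃ (c : K) (y : Fin e → V K), c ≠ 0 ∧ (∀ i, y i ≠ 0) ∧
      ∀ x, MvPolynomial.eval x (a.homogenize e) = c * ∏ i, wedge x (y i) := by
  intro e
  induction e with
  | zero =>
    intro a ha hd
    have hc := eq_C_of_natDegree_le_zero hd
    refine ⟨a.coeff 0, Fin.elim0, fun h => ha (by rw [hc, h, C_0]), fun i => i.elim0, fun x => ?_⟩
    rw [hc]
    simp
  | succ e ih =>
    intro a ha hd
    have key : ∀ (l b : K[X]) (v : V K), l.natDegree ≤ 1 → b.natDegree ≤ e → a = l * b → v ≠ 0 →
        (∀ x, MvPolynomial.eval x (l.homogenize 1) = wedge x v) →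
        ∃ (c : K) (y : Fin (e + 1) → V K), c ≠ 0 ∧ (∀ i, y i ≠ 0) ∧
          ∀ x, MvPolynomial.eval x (a.homogenize (e + 1)) = c * ∏ i, wedge x (y i) := by
      intro l b v hl hb hab hv hx
      obtain ⟨c, y, h1, h2, h3⟩ := ih b (fun h => ha (by rw [hab, h, mul_zero])) hb
      refine ⟨c, Fin.cons v y, h1, fun i => Fin.cases hv h2 i, fun x => ?_⟩
      rw [hab, mul_comm l b, homogenize_mul _ _ hb hl, map_mul, hx, h3]
      have : ∏ i : Fin (e + 1), wedge x ((Fin.cons v y : Fin (e + 1) → V K) i) =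
          wedge x v * ∏ i, wedge x (y i) := by
        rw [Fin.prod_univ_succ]
        rfl
      rw [this]
      ring
    by_cases c : a.natDegree ≤ e
    · refine key 1 a ![-1, 0] (by simp) c (one_mul a).symm (fun h => ?_) fun x => ?_
      · simpa using congrFun h 0
      · simp [wedge]
    · obtain ⟨r, hr⟩ := IsAlgClosed.exists_root a (degree_ne_of_natDegree_ne (n := 0) (by omega))
      obtain ⟨b, hb⟩ := dvd_iff_isRoot.2 hr
      have b0 : b ≠ 0 := fun h => ha (by rw [hb, h, mul_zero])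
      have hdeg : a.natDegree = 1 + b.natDegree := by
        rw [hb, natDegree_mul (X_sub_C_ne_zero r) b0, natDegree_X_sub_C]
      refine key (X - C r) b ![r, 1] (natDegree_X_sub_C r).le (by omega) hb (fun h => ?_)
        fun x => ?_
      · simpa using congrFun h 1
      · simp [wedge, mul_comm]

/-- A nonzero binary form over an algebraically closed field is a product of linear forms.
Dehomogenise, split `deh A = C a * ∏ (X - C r)`, use the vectors `![r, 1]` for the roots and
`![-1, 0]` for the missing degree, and put the constant into one vector. -/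
theorem exists_factor [IsAlgClosed K] {e : ℕ} {A : MvPolynomial (Fin 2) K}
    (hA : A.IsHomogeneous e) (he : 1 ≤ e) (h0 : A ≠ 0) :
    ∃ y : Fin e → V K, (∀ i, y i ≠ 0) ∧ ∀ x, MvPolynomial.eval x A = ∏ i, wedge x (y i) := by
  obtain ⟨e, rfl⟩ : ∃ e', e = e' + 1 := ⟨e - 1, by omega⟩
  obtain ⟨c, y, h1, h2, h3⟩ := alg2_factor (e + 1) (deh A)
    (fun h => h0 (by rw [← homogenize_deh hA, h, homogenize_zero])) (natDegree_deh_le hA)
  rw [homogenize_deh hA] at h3
  refine ⟨Fin.cons (c • y 0) (Fin.tail y),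
    fun i => Fin.cases (smul_ne_zero h1 (h2 0)) (fun j => h2 j.succ) i, fun x => ?_⟩
  rw [h3, Fin.prod_univ_succ, Fin.prod_univ_succ, Fin.cons_zero, wedge_smul_right, mul_assoc]
  rfl

theorem alg2_root [IsAlgClosed K] {e : ℕ} {A : MvPolynomial (Fin 2) K}
    (hA : A.IsHomogeneous e) (he : 1 ≤ e) : ∃ x : V K, x ≠ 0 ∧ MvPolynomial.eval x A = 0 := by
  by_cases h0 : A = 0
  · exact ⟨![1, 0], fun h => by simpa using congrFun h 0, by simp [h0]⟩
  · obtain ⟨y, h1, h2⟩ := exists_factor hA he h0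
    refine ⟨y ⟨0, he⟩, h1 _, ?_⟩
    rw [h2]
    exact Finset.prod_eq_zero (Finset.mem_univ ⟨0, he⟩) (wedge_self _)

theorem alg2_not_const [IsAlgClosed K] {d : ℕ} {F : Mp K} (hF : IsHom d F) (hd : 1 ≤ d)
    (hnz : ∀ x, x ≠ 0 → app F x ≠ 0) {z : V K} (hz : z ≠ 0) :
    ¬ ∀ x, wedge (app F x) z = 0 := by
  intro h
  obtain ⟨j, hj⟩ : ∃ j, z j ≠ 0 := by
    by_contra c
    push Not at c
    exact hz (funext c)
  obtain ⟨x, x0, hx⟩ := alg2_root (hF j) hd
  obtain ⟨k, hk⟩ := exists_smul_of_wedge_eq_zero hz (h x)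
  have h1 : k * z j = 0 := by
    have := congrFun hk j
    rw [Pi.smul_apply, smul_eq_mul] at this
    rw [← this]
    exact hx
  apply hnz x x0
  rw [hk, (mul_eq_zero.1 h1).resolve_right hj, zero_smul]

/-- The form whose zeros are the preimages of `z`. -/
noncomputable def alg2G (F : Mp K) (z : V K) : MvPolynomial (Fin 2) K :=
  MvPolynomial.C (z 1) * F 0 - MvPolynomial.C (z 0) * F 1

theorem alg2G_eval (F : Mp K) (z x : V K) :
    MvPolynomial.eval x (alg2G F z) = wedge (app F x) z := by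
  simp only [alg2G, map_sub, map_mul, MvPolynomial.eval_C, wedge, app]
  ring

theorem alg2G_hom {d : ℕ} {F : Mp K} (hF : IsHom d F) (z : V K) :
    (alg2G F z).IsHomogeneous d :=
  ((hF 0).C_mul _).sub ((hF 1).C_mul _)

/-- Apply `exists_factor` to `C (z 1) * F 0 - C (z 0) * F 1`, which is nonzero because otherwise
the two forms are proportional and have a common zero. -/
theorem exists_fib [IsAlgClosed K] {d : ℕ} {F : Mp K} (hF : IsHom d F) (hd : 1 ≤ d)
    (hnz : ∀ x, x ≠ 0 → app F x ≠ 0) {z : V K} (hz : z ≠ 0) :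
    ∃ (y : Fin d → V K) (k : Fin d → K), (∀ i, y i ≠ 0) ∧ (∀ i, k i ≠ 0) ∧ IsFib F z y k := by
  obtain ⟨y, h1, h2⟩ := exists_factor (alg2G_hom hF z) hd fun h =>
    alg2_not_const hF hd hnz hz fun x => by rw [← alg2G_eval, h, map_zero]
  simp only [alg2G_eval] at h2
  have h3 : ∀ i, ∃ k : K, app F (y i) = k • z := fun i =>
    exists_smul_of_wedge_eq_zero hz (by
      rw [h2]
      exact Finset.prod_eq_zero (Finset.mem_univ i) (wedge_self _))
  choose k hk using h3
  refine ⟨y, k, h1, fun i h => hnz _ (h1 i) ?_, h2, hk⟩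
  rw [hk, h, zero_smul]

/-- In a fibre of a map without common zeros all vectors and scalars are nonzero. -/
theorem IsFib.ne_zero [IsAlgClosed K] {d : ℕ} {F : Mp K} (hF : IsHom d F) (hd : 1 ≤ d)
    (hnz : ∀ x, x ≠ 0 → app F x ≠ 0) {z : V K} (hz : z ≠ 0) {y : Fin d → V K} {k : Fin d → K}
    (h : IsFib F z y k) : (∀ i, y i ≠ 0) ∧ ∀ i, k i ≠ 0 := by
  have h1 : ∀ i, y i ≠ 0 := fun i c => alg2_not_const hF hd hnz hz fun x => by
    rw [h.1]
    exact Finset.prod_eq_zero (Finset.mem_univ i) (by simp [c, wedge])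
  refine ⟨h1, fun i c => hnz _ (h1 i) ?_⟩
  rw [h.2, c, zero_smul]

theorem alg2_rescale [IsAlgClosed K] {d : ℕ} {F : Mp K} (hF : IsHom d F) (hd : 1 ≤ d)
    {y z : V K} {k : K} (hk : k ≠ 0) (h : app F y = k • z) :
    ∃ s : K, s ≠ 0 ∧ app F (s • y) = z := by
  obtain ⟨s, hs⟩ := IsAlgClosed.exists_pow_nat_eq k⁻¹ hd
  refine ⟨s, fun c => ?_, ?_⟩
  · rw [c, zero_pow (by omega)] at hs
    exact inv_ne_zero hk hs.symm
  · rw [app_smul hF, h, hs, smul_smul, inv_mul_cancel₀ hk, one_smul]

/-- Surjectivity on vectors. -/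
theorem exists_preimage [IsAlgClosed K] {d : ℕ} {F : Mp K} (hF : IsHom d F) (hd : 1 ≤ d)
    (hnz : ∀ x, x ≠ 0 → app F x ≠ 0) {z : V K} (hz : z ≠ 0) : ∃ x, x ≠ 0 ∧ app F x = z := by
  obtain ⟨y, k, h1, h2, h3⟩ := exists_fib hF hd hnz hz
  obtain ⟨s, s0, hs⟩ := alg2_rescale hF hd (h2 ⟨0, hd⟩) (h3.2 ⟨0, hd⟩)
  exact ⟨_, smul_ne_zero s0 (h1 _), hs⟩

theorem alg2_pair {d : ℕ} {F : Mp K} {z z' : V K} {y y' : Fin d → V K} {k k' : Fin d → K}
    (h : IsFib F z y k) (h' : IsFib F z' y' k') :
    (∏ i, k i) ^ 2 * (wedge z z' ^ 2) ^ d = ∏ i, ∏ j, wedge (y i) (y' j) ^ 2 := by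
  have e : ∀ i, ∏ j, wedge (y i) (y' j) ^ 2 = k i ^ 2 * wedge z z' ^ 2 := fun i => by
    rw [Finset.prod_pow, ← h'.1, h.2, wedge_smul_left, mul_pow]
  simp only [e, Finset.prod_mul_distrib, Finset.prod_pow, Finset.prod_const, Finset.card_univ,
    Fintype.card_fin]
  ring

theorem alg2_same {d : ℕ} {F : Mp K} {z z' : V K} {y y' : Fin d → V K} {k k' : Fin d → K}
    (h : IsFib F z y k) (h' : IsFib F z' y' k') (hw : wedge z z' ≠ 0) :
    (∏ i, k i) ^ 2 = (∏ i, k' i) ^ 2 := by
  have sq : ∀ u v : V K, wedge u v ^ 2 = wedge v u ^ 2 := fun u v => by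
    rw [wedge_comm u v, neg_sq]
  have e1 := alg2_pair h h'
  have e2 := alg2_pair h' h
  rw [Finset.prod_comm, sq z' z] at e2
  simp only [sq (y' _)] at e2
  exact mul_right_cancel₀ (pow_ne_zero _ (pow_ne_zero _ hw)) (e1.trans e2.symm)

/-- For fibres `(y, k)` over `z` and `(y', k')` over `z'` one has
`(∏ k) * wedge z z' ^ d = ∏ i, ∏ j, wedge (y i) (y' j)`, which is symmetric up to sign; so
`(∏ k) ^ 2` does not depend on the fibre when `wedge z z' ≠ 0`, and in general by passing through a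
third vector.  A fibre `(y, k)` of `smulF r F` gives the fibre of `F` obtained by dividing one
vector by `r`; the product of the scalars changes by the factor `r ^ (2 * d)`.
Choose `r` with `r ^ (2 * d) * ∏ k = 1`. -/
theorem exists_normal [IsAlgClosed K] {d : ℕ} {F : Mp K} (hF : IsHom d F) (hd : 1 ≤ d)
    (hnz : ∀ x, x ≠ 0 → app F x ≠ 0) : ∃ r : K, r ≠ 0 ∧ Normal d (smulF r F) := by
  have n0 : (![1, 0] : V K) ≠ 0 := fun h => by simpa using congrFun h 0
  have n1 : (![0, 1] : V K) ≠ 0 := fun h => by simpa using congrFun h 1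
  obtain ⟨y, k, _, h2, h3⟩ := exists_fib hF hd hnz n0
  have k0 : ∏ i, k i ≠ 0 := Finset.prod_ne_zero_iff.2 fun i _ => h2 i
  obtain ⟨t, ht⟩ := IsAlgClosed.exists_pow_nat_eq (∏ i, k i)⁻¹ (n := d * 2 * d) (by positivity)
  have t0 : t ≠ 0 := fun c => by
    rw [c, zero_pow (by positivity)] at ht
    exact inv_ne_zero k0 ht.symm
  have r0 : t ^ d ≠ 0 := pow_ne_zero _ t0
  have hG := isHom_smulF hF (t ^ d)
  have gz : ∀ x, x ≠ 0 → app (smulF (t ^ d) F) x ≠ 0 := fun x hx => by
    rw [app_smulF]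
    exact smul_ne_zero r0 (hnz x hx)
  have f0 : IsFib (smulF (t ^ d) F) ![1, 0] (fun i => t • y i) (fun i => (t ^ d) ^ 2 * k i) := by
    refine ⟨fun x => ?_, fun i => ?_⟩
    · simp only [app_smulF, wedge_smul_left, wedge_smul_right, h3.1, Finset.prod_mul_distrib,
        Finset.prod_const, Finset.card_univ, Fintype.card_fin]
    · rw [app_smulF, app_smul hF, h3.2, smul_smul, smul_smul, pow_two]
  have p0 : (∏ i, (t ^ d) ^ 2 * k i) ^ 2 = 1 := by
    rw [Finset.prod_mul_distrib, Finset.prod_const, Finset.card_univ, Fintype.card_fin,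
      ← pow_mul, ← pow_mul, ← mul_assoc, ht, inv_mul_cancel₀ k0, one_pow]
  obtain ⟨y1, k1, _, _, f1⟩ := exists_fib hG hd gz n1
  have p1 : (∏ i, k1 i) ^ 2 = 1 := by
    rw [← p0]
    exact alg2_same f1 f0 (by simp [wedge])
  refine ⟨t ^ d, r0, fun z y' k' hz h => ?_⟩
  by_cases c : z 0 = 0
  · rw [← p0]
    refine alg2_same h f0 fun w => hz (funext fun i => ?_)
    fin_cases i
    · exact c
    · simpa [wedge] using w
  · rw [← p1]
    exact alg2_same h f1 (by simpa [wedge] using c)

theorem exists_canon [IsAlgClosed K] {d : ℕ} {F : Mp K} (hF : IsHom d F) (hd : 2 ≤ d) {e : ℕ}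
    (he : 1 ≤ e) {p : V K} {κ : K} (hκ : κ ≠ 0) (h : (app F)^[e] p = κ • p) :
    ∃ s : K, s ≠ 0 ∧ (app F)^[e] (s • p) = s • p := by
  have h1 : 1 < d ^ e := Nat.one_lt_pow (by omega) (by omega)
  obtain ⟨m, hm⟩ : ∃ m, d ^ e = m + 1 + 1 := ⟨d ^ e - 2, by omega⟩
  obtain ⟨s, hs⟩ := IsAlgClosed.exists_pow_nat_eq κ⁻¹ (n := m + 1) (by omega)
  refine ⟨s, fun c => ?_, ?_⟩
  · rw [c, zero_pow (by omega)] at hs
    exact inv_ne_zero hκ hs.symm
  · rw [iter_smul hF, h, hm, pow_succ, hs, smul_smul]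
    congr 1
    field_simp

/-- If all vectors of the fibre over `app F p` were multiples of `p`, the form
`C (q 1) * F 0 - C (q 0) * F 1` would be a constant times the `d`-th power of the linear form
`wedge x p` (use `MvPolynomial.funext`), so its gradient would vanish at `p`, and then
`q i * jac F (p) = 0` for both `i`.  Rescale the vector found by a `d`-th root. -/
theorem exists_other_preimage [IsAlgClosed K] {d : ℕ} {F : Mp K} (hF : IsHom d F) (hd : 2 ≤ d)
    (hnz : ∀ x, x ≠ 0 → app F x ≠ 0) {p : V K} (hp : p ≠ 0) (hD : Dj d F p ≠ 0) :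
    ∃ z, app F z = app F p ∧ wedge z p ≠ 0 := by
  have hq := hnz p hp
  obtain ⟨y, k, h1, h2, h3⟩ := exists_fib hF (by omega) hnz hq
  by_cases c : ∃ i, wedge (y i) p ≠ 0
  · obtain ⟨i, hi⟩ := c
    obtain ⟨s, s0, hs⟩ := alg2_rescale hF (by omega) (h2 i) (h3.2 i)
    exact ⟨_, hs, by rw [wedge_smul_left]; exact mul_ne_zero s0 hi⟩
  · push Not at c
    choose u hu using fun i => exists_smul_of_wedge_eq_zero hp (c i)
    set L : MvPolynomial (Fin 2) K :=
      MvPolynomial.X 0 * MvPolynomial.C (p 1) - MvPolynomial.X 1 * MvPolynomial.C (p 0) with hL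
    have eL : ∀ x, MvPolynomial.eval x L = wedge x p := fun x => by simp [hL, wedge]
    have e : alg2G F (app F p) = MvPolynomial.C (∏ i, u i) * L ^ d := by
      refine MvPolynomial.funext fun x => ?_
      rw [alg2G_eval, h3.1, map_mul, map_pow, eL, MvPolynomial.eval_C]
      simp only [hu, wedge_smul_right, Finset.prod_mul_distrib, Finset.prod_const,
        Finset.card_univ, Fintype.card_fin]
    have g : ∀ l, app F p 1 * MvPolynomial.eval p (MvPolynomial.pderiv l (F 0)) -
        app F p 0 * MvPolynomial.eval p (MvPolynomial.pderiv l (F 1)) = 0 := fun l => by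
      have := congrArg (fun A => MvPolynomial.eval p (MvPolynomial.pderiv l A)) e
      simp only [alg2G, map_sub, MvPolynomial.pderiv_C_mul, map_mul, MvPolynomial.eval_C,
        Derivation.leibniz_pow, nsmul_eq_mul, smul_eq_mul, map_pow, eL, wedge_self] at this
      rw [this, zero_pow (by omega)]
      ring
    exfalso
    apply hq
    have j0 : MvPolynomial.eval p (jac F) ≠ 0 := fun h => hD (by rw [Dj, h, zero_div])
    have g0 := g 0
    have g1 := g 1
    simp only [jac, map_sub, map_mul] at j0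
    funext i
    fin_cases i
    · refine mul_right_cancel₀ j0 ?_
      simp only [Fin.zero_eta, Pi.zero_apply, zero_mul]
      linear_combination MvPolynomial.eval p (MvPolynomial.pderiv 1 (F 0)) * g0 -
        MvPolynomial.eval p (MvPolynomial.pderiv 0 (F 0)) * g1
    · refine mul_right_cancel₀ j0 ?_
      simp only [Fin.mk_one, Pi.zero_apply, zero_mul]
      linear_combination MvPolynomial.eval p (MvPolynomial.pderiv 1 (F 1)) * g0 -
        MvPolynomial.eval p (MvPolynomial.pderiv 0 (F 1)) * g1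

/-- If `deh (F 0) = X * deh (F 1)`, a root of `deh (F 1)` gives a common zero `![x, 1]`, and if
`deh (F 1)` is constant then `![1, 0]` is a common zero (`coeff_deh_top`). -/
theorem fixp_ne_zero [IsAlgClosed K] {e : ℕ} {F : Mp K} (hF : IsHom e F) (he : 2 ≤ e)
    (hnz : ∀ x, x ≠ 0 → app F x ≠ 0) : fixp F ≠ 0 := by
  intro h
  have h0 : deh (F 0) = X * deh (F 1) := sub_eq_zero.1 h
  by_cases c : (deh (F 1)).degree = 0
  · refine hnz ![1, 0] (fun h => by simpa using congrFun h 0) (funext fun i => ?_)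
    obtain ⟨m, rfl⟩ : ∃ m, e = m + 1 + 1 := ⟨e - 2, by omega⟩
    fin_cases i
    · change MvPolynomial.eval ![1, 0] (F 0) = 0
      rw [← coeff_deh_top (hF 0), h0, coeff_X_mul, eq_C_of_degree_eq_zero c, coeff_C_succ]
    · change MvPolynomial.eval ![1, 0] (F 1) = 0
      rw [← coeff_deh_top (hF 1), eq_C_of_degree_eq_zero c, coeff_C_succ]
  · obtain ⟨x, hx⟩ := IsAlgClosed.exists_root _ c
    refine hnz ![x, 1] (fun h => by simpa using congrFun h 1) (funext fun i => ?_)
    fin_cases i
    · change MvPolynomial.eval ![x, 1] (F 0) = 0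
      rw [← eval_deh, h0, eval_mul, hx.eq_zero, mul_zero]
    · change MvPolynomial.eval ![x, 1] (F 1) = 0
      rw [← eval_deh, hx.eq_zero]

theorem iter_ne_zero {F : Mp K} (hnz : ∀ x, x ≠ 0 → app F x ≠ 0) (n : ℕ) {x : V K} (hx : x ≠ 0) :
    (app F)^[n] x ≠ 0 := by
  induction n with
  | zero => exact hx
  | succ n ih =>
    rw [Function.iterate_succ_apply']
    exact hnz _ ih

/-- Parallel vectors have parallel images. -/
theorem wedge_iter_eq_zero {d : ℕ} {F : Mp K} (hF : IsHom d F) (n : ℕ) {x y : V K} (hy : y ≠ 0)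
    (h : wedge x y = 0) : wedge ((app F)^[n] x) ((app F)^[n] y) = 0 := by
  obtain ⟨k, rfl⟩ := exists_smul_of_wedge_eq_zero hy h
  rw [iter_smul hF, wedge_smul_left, wedge_self, mul_zero]

/-- A point of exact period `n` gives a cycle of canonical lifts, with second preimages. -/
theorem exists_cyc [IsAlgClosed K] {d : ℕ} {F : Mp K} (hF : IsHom d F) (hd : 2 ≤ d)
    (hnz : ∀ x, x ≠ 0 → app F x ≠ 0) {n : ℕ} [NeZero n] {x : V K} (hx : x ≠ 0)
    (hper : ExactPer F n x) :
    ∃ (s : K) (p z : ZMod n → V K), s ≠ 0 ∧ Cyc d F p z ∧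
      ∀ i, p i = (app F)^[i.val] (s • x) := by
  have hn : 1 ≤ n := NeZero.one_le
  obtain ⟨κ, hκ⟩ := exists_smul_of_wedge_eq_zero hx hper.1
  have κ0 : κ ≠ 0 := fun c => iter_ne_zero hnz n hx (by rw [hκ, c, zero_smul])
  obtain ⟨s, s0, hs⟩ := exists_canon hF hd hn κ0 hκ
  have sx : s • x ≠ 0 := smul_ne_zero s0 hx
  have per : Function.IsPeriodicPt (app F) n (s • x) := hs
  set p : ZMod n → V K := fun i => (app F)^[i.val] (s • x) with hp
  have nxt : ∀ i, app F (p i) = p (i + 1) := fun i => by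
    have e : i + 1 = ((i.val + 1 : ℕ) : ZMod n) := by simp
    simp only [hp]
    rw [e, ZMod.val_natCast, per.iterate_mod_apply, Function.iterate_succ_apply']
  have key : ∀ i j : ZMod n, i.val < j.val → wedge (p i) (p j) ≠ 0 := fun i j ij w => by
    have hj := ZMod.val_lt j
    have w2 := wedge_iter_eq_zero hF (n - j.val) (iter_ne_zero hnz _ sx) w
    simp only [hp] at w2
    rw [← Function.iterate_add_apply, ← Function.iterate_add_apply, Nat.sub_add_cancel hj.le, hs,
      iter_smul hF, wedge_smul_left, wedge_smul_right] at w2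
    exact mul_ne_zero (pow_ne_zero _ s0)
      (mul_ne_zero s0 (hper.2 _ (by omega) (by omega))) w2
  have zz : ∀ j : ZMod n, ∃ z, Dj d F (p (j - 1)) ≠ 0 →
      app F z = p j ∧ wedge z (p (j - 1)) ≠ 0 := fun j => by
    by_cases c : Dj d F (p (j - 1)) = 0
    · exact ⟨0, fun h => absurd c h⟩
    · obtain ⟨z, h1, h2⟩ := exists_other_preimage hF hd hnz (iter_ne_zero hnz _ sx) c
      refine ⟨z, fun _ => ⟨?_, h2⟩⟩
      rw [h1]
      exact (nxt (j - 1)).trans (by rw [sub_add_cancel])
  choose z hz using zz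
  refine ⟨s, p, z, s0, ⟨nxt, fun i j ij => ?_, hz⟩, fun _ => rfl⟩
  rcases lt_or_gt_of_ne (fun c => ij (ZMod.val_injective n c)) with c | c
  · exact key i j c
  · rw [wedge_comm]
    exact neg_ne_zero.2 (key j i c)

theorem alg2_pco_add {R : Type*} [CommRing R] [Algebra R K] (D : Derivation R K K) (a b : K[X]) :
    pco D (a + b) = pco D a + pco D b := by
  ext i
  simp only [coeff_add, coeff_pco (map_zero D), map_add]

theorem alg2_pco_monomial {R : Type*} [CommRing R] [Algebra R K] (D : Derivation R K K) (n : ℕ)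
    (c : K) : pco D (monomial n c) = monomial n (D c) := by
  ext i
  simp only [coeff_pco (map_zero D), coeff_monomial]
  split_ifs
  · rfl
  · exact map_zero D

theorem alg2_pco_deg {R : Type*} [CommRing R] [Algebra R K] (D : Derivation R K K) {a : K[X]}
    {d : ℕ} (ha : a.natDegree ≤ d) : (pco D a).natDegree ≤ d := by
  rw [natDegree_le_iff_coeff_eq_zero] at ha ⊢
  intro i hi
  rw [coeff_pco (map_zero D), ha i hi, map_zero]

/-- Derivative of the value of a polynomial. -/
theorem der_eval {R : Type*} [CommRing R] [Algebra R K] (D : Derivation R K K) (μ : K[X]) (a : K) :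
    D (μ.eval a) = (pco D μ).eval a + (derivative μ).eval a * D a := by
  induction μ using Polynomial.induction_on' with
  | add p q hp hq =>
    rw [alg2_pco_add, eval_add, map_add, hp, hq, eval_add, derivative_add, eval_add]
    ring
  | monomial n c =>
    rw [alg2_pco_monomial, derivative_monomial, eval_monomial, eval_monomial, eval_monomial,
      Derivation.leibniz, Derivation.leibniz_pow]
    simp only [nsmul_eq_mul, smul_eq_mul]
    ring

theorem alg2_der_hom {R : Type*} [CommRing R] [Algebra R K] (D : Derivation R K K) (d : ℕ)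
    (a : K[X]) (p : V K) :
    D (MvPolynomial.eval p (a.homogenize d)) = MvPolynomial.eval p ((pco D a).homogenize d) +
      (MvPolynomial.eval p (MvPolynomial.pderiv 0 (a.homogenize d)) * D (p 0) +
        MvPolynomial.eval p (MvPolynomial.pderiv 1 (a.homogenize d)) * D (p 1)) := by
  induction a using Polynomial.induction_on' with
  | add u v hu hv =>
    simp only [alg2_pco_add, homogenize_add, map_add, hu, hv]
    ring
  | monomial n c =>
    rw [alg2_pco_monomial]
    by_cases h : n ≤ d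
    · rw [← C_mul_X_pow_eq_monomial, ← C_mul_X_pow_eq_monomial, homogenize_C_mul,
        homogenize_C_mul, homogenize_X_pow h]
      simp only [Derivation.leibniz, Derivation.leibniz_pow, map_mul, map_pow, map_add,
        MvPolynomial.eval_C, MvPolynomial.eval_X, nsmul_eq_mul, smul_eq_mul,
        MvPolynomial.pderiv_C, MvPolynomial.pderiv_X_self, map_natCast, map_one, map_zero,
        MvPolynomial.pderiv_X_of_ne (show (1 : Fin 2) ≠ 0 by decide),
        MvPolynomial.pderiv_X_of_ne (show (0 : Fin 2) ≠ 1 by decide)]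
      ring
    · rw [homogenize_monomial_of_lt (by omega), homogenize_monomial_of_lt (by omega)]
      simp

/-- The tangent identity.  Prove by induction (or from `eval_homogenize_eq_sum`) that
`D (eval p A) = eval p (A with D applied to the coefficients) + ∑ l, eval p (pderiv l A) * D (p l)`,
then multiply the claim by `d` and use the Euler identity for both forms;
`homogenize_mul` turns the product of the two homogenised polynomials into the sum over `μ`. -/
theorem tangent {R : Type*} [CommRing R] [Algebra R K] (D : Derivation R K K) {d : ℕ}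
    (hd : (d : K) ≠ 0) {a b : K[X]} (ha : a.natDegree ≤ d) (hb : b.natDegree ≤ d) (p : V K) :
    wedge (app (mk d a b) p) (fun i => D (app (mk d a b) p i)) =
      Dj d (mk d a b) p * wedge p (fun i => D (p i)) +
        ∑ μ : Fin (2 * d + 1),
          (a * pco D b - b * pco D a).coeff μ.val * (p 0 ^ μ.val * p 1 ^ (2 * d - μ.val)) := by
  have eu : ∀ u : K[X], p 0 * MvPolynomial.eval p (MvPolynomial.pderiv 0 (u.homogenize d)) +
      p 1 * MvPolynomial.eval p (MvPolynomial.pderiv 1 (u.homogenize d)) =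
        d * MvPolynomial.eval p (u.homogenize d) := fun u => by
    have := congrArg (MvPolynomial.eval p) (isHomogeneous_homogenize (n := d) u).sum_X_mul_pderiv
    simpa [Fin.sum_univ_two] using this
  rw [← eval_homogenize_eq_sum, two_mul, homogenize_sub,
    homogenize_mul _ _ ha (alg2_pco_deg D hb), homogenize_mul _ _ hb (alg2_pco_deg D ha)]
  have m0 : mk d a b 0 = a.homogenize d := rfl
  have m1 : mk d a b 1 = b.homogenize d := rfl
  simp only [wedge, app, Dj, jac, m0, m1, alg2_der_hom, map_sub, map_mul]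
  have ea := eu a
  have eb := eu b
  field_simp
  linear_combination
    (-(MvPolynomial.eval p (MvPolynomial.pderiv 0 (b.homogenize d)) * D (p 0) +
        MvPolynomial.eval p (MvPolynomial.pderiv 1 (b.homogenize d)) * D (p 1))) * ea +
      (MvPolynomial.eval p (MvPolynomial.pderiv 0 (a.homogenize d)) * D (p 0) +
        MvPolynomial.eval p (MvPolynomial.pderiv 1 (a.homogenize d)) * D (p 1)) * eb

end Pool.Agent.Lib.MP_0dd0d9_ag
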