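import Pool.Agent.Lib.MP_0dd0d9_ag.WD

/-!
TASK g0d AttrC.  An attracting fixed point attracts a critical point at the full rate.
-/

namespace Pool.Agent.Lib.MP_0dd0d9_ag

open Polynomial

variable {K : Type*} [NormedField K] [IsUltrametricDist K] [IsAlgClosed K]

theorem attrc_up (s : Finset ℝ) (r : ℝ) : ∃ r', r < r' ∧ ∀ u ∈ s, u ≤ r ∨ r' ≤ u := by
  induction s using Finset.induction_on with
  | empty => exact ⟨r + 1, by linarith, by simp⟩
  | insert a s _ ih =>
    obtain ⟨r', h1, h2⟩ := ih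
    rcases le_or_gt a r with c | c
    · refine ⟨r', h1, fun u hu => ?_⟩
      rcases Finset.mem_insert.1 hu with rfl | hu
      · exact Or.inl c
      · exact h2 u hu
    · refine ⟨min r' a, lt_min h1 c, fun u hu => ?_⟩
      rcases Finset.mem_insert.1 hu with rfl | hu
      · exact Or.inr (min_le_right _ _)
      · exact (h2 u hu).imp id fun h => (min_le_left _ _).trans h

theorem attrc_down (s : Finset ℝ) {r : ℝ} (hr : 0 < r) :
    ∃ r', 0 < r' ∧ r' < r ∧ ∀ u ∈ s, u ≤ r' ∨ r ≤ u := by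
  induction s using Finset.induction_on with
  | empty => exact ⟨r / 2, by linarith, by linarith, by simp⟩
  | insert a s _ ih =>
    obtain ⟨r', h0, h1, h2⟩ := ih
    rcases le_or_gt r a with c | c
    · refine ⟨r', h0, h1, fun u hu => ?_⟩
      rcases Finset.mem_insert.1 hu with rfl | hu
      · exact Or.inr c
      · exact h2 u hu
    · refine ⟨max r' a, lt_max_of_lt_left h0, max_lt h1 c, fun u hu => ?_⟩
      rcases Finset.mem_insert.1 hu with rfl | hu
      · exact Or.inl (le_max_right _ _)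
      · exact (h2 u hu).imp (fun h => h.trans (le_max_left _ _)) id

omit [IsUltrametricDist K] [IsAlgClosed K] in
theorem attrc_mem {g b : K[X]} (hg : g ≠ 0) (hb : b ≠ 0) (a : K) :
    ∃ s : Finset ℝ, (∀ y, g.IsRoot y → ‖y - a‖ ∈ s) ∧ ∀ y, b.IsRoot y → ‖y - a‖ ∈ s := by
  classical
  refine ⟨((g.roots + b.roots).map fun y => ‖y - a‖).toFinset, fun y hy => ?_, fun y hy => ?_⟩
  · rw [Multiset.mem_toFinset]
    exact Multiset.mem_map_of_mem _ (Multiset.mem_add.2 (Or.inl ((mem_roots hg).2 hy)))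
  · rw [Multiset.mem_toFinset]
    exact Multiset.mem_map_of_mem _ (Multiset.mem_add.2 (Or.inr ((mem_roots hb).2 hy)))

omit [IsUltrametricDist K] [IsAlgClosed K] in
theorem attrc_cont (p : K[X]) (a : K) : Continuous fun r => gn p a r := by
  unfold gn
  exact continuous_const.mul
    (continuous_multiset_prod _ fun y _ => continuous_id.max continuous_const)

omit [IsUltrametricDist K] [IsAlgClosed K] in
theorem attrc_open (g b : K[X]) (σ : ℝ) (a : K) : IsOpen {r | σ * gn b a r < gn g a r} :=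
  isOpen_lt (continuous_const.mul (attrc_cont b a)) (attrc_cont g a)

/-- The outer radius. -/
theorem attrc_outer {g b : K[X]} (hb : b ≠ 0) (hdeg : b.natDegree < g.natDegree) {σ ρ : ℝ}
    (hσ : 0 ≤ σ) (hρ : 0 < ρ) (h : ∀ r, 0 ≤ r → r ≤ ρ → gn g 0 r ≤ σ * gn b 0 r) :
    ∃ R, ρ ≤ R ∧ (∀ r, 0 ≤ r → r ≤ R → gn g 0 r ≤ σ * gn b 0 r) ∧ cnt g 0 R ≠ cnt b 0 R := by
  have hg : g ≠ 0 := by
    rintro rfl
    simp at hdeg
  set S : Set ℝ := {r | 0 ≤ r ∧ σ * gn b 0 r < gn g 0 r} with hS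
  have hlc : 0 < ‖g.leadingCoeff‖ := norm_pos_iff.2 (leadingCoeff_ne_zero.2 hg)
  have hne : S.Nonempty := by
    set r := 1 + σ * gn b 0 1 / ‖g.leadingCoeff‖ with hr
    have b1 : 0 ≤ gn b 0 1 := gn_nonneg b 0 zero_le_one
    have r1 : 1 ≤ r := by
      have : 0 ≤ σ * gn b 0 1 / ‖g.leadingCoeff‖ := by positivity
      linarith
    have r0 : 0 < r := by linarith
    refine ⟨r, r0.le, ?_⟩
    have e1 := gn_lower b 0 one_pos r1
    have e2 := lead_le_gn g 0 r0.le
    have e3 : gn b 0 r ≤ gn b 0 1 * r ^ b.natDegree := by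
      rw [div_pow, one_pow, mul_one_div, div_le_iff₀ (by positivity)] at e1
      exact e1
    have e4 : r ^ b.natDegree * r ≤ r ^ g.natDegree := by
      rw [← pow_succ]
      exact pow_le_pow_right₀ r1 hdeg
    have e5 : σ * gn b 0 1 < ‖g.leadingCoeff‖ * r := by
      rw [hr, mul_add, mul_div_cancel₀ _ hlc.ne']
      linarith
    have e6 : 0 < r ^ b.natDegree := by positivity
    calc σ * gn b 0 r ≤ σ * (gn b 0 1 * r ^ b.natDegree) := mul_le_mul_of_nonneg_left e3 hσ
      _ = σ * gn b 0 1 * r ^ b.natDegree := by ring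
      _ < ‖g.leadingCoeff‖ * r * r ^ b.natDegree := mul_lt_mul_of_pos_right e5 e6
      _ = ‖g.leadingCoeff‖ * (r ^ b.natDegree * r) := by ring
      _ ≤ ‖g.leadingCoeff‖ * r ^ g.natDegree := mul_le_mul_of_nonneg_left e4 hlc.le
      _ ≤ gn g 0 r := e2
  have hbd : BddBelow S := ⟨0, fun r hr => hr.1⟩
  have hR : ρ ≤ sInf S := le_csInf hne fun r hr => by
    by_contra c
    exact absurd (h r hr.1 (not_le.1 c).le) (not_le.2 hr.2)
  have hlt : ∀ r, 0 ≤ r → r < sInf S → gn g 0 r ≤ σ * gn b 0 r := fun r r0 hr => by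
    by_contra c
    exact absurd (csInf_le hbd ⟨r0, not_le.1 c⟩) (not_le.2 hr)
  have hR0 : 0 < sInf S := hρ.trans_le hR
  have hat : gn g 0 (sInf S) ≤ σ * gn b 0 (sInf S) := by
    by_contra c
    obtain ⟨ε, e0, e1⟩ := Metric.isOpen_iff.1 (attrc_open g b σ 0) (sInf S) (not_le.1 c)
    have m0 : 0 < min (ε / 2) (sInf S) := lt_min (by linarith) hR0
    have m1 := min_le_left (ε / 2) (sInf S)
    have m2 := min_le_right (ε / 2) (sInf S)
    have := e1 (a := sInf S - min (ε / 2) (sInf S)) (by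
      rw [Metric.mem_ball, Real.dist_eq, abs_lt]
      constructor <;> linarith)
    exact absurd (hlt (sInf S - min (ε / 2) (sInf S)) (by linarith) (by linarith)) (not_le.2 this)
  refine ⟨sInf S, hR, fun r r0 hr => ?_, fun hc => ?_⟩
  · rcases hr.lt_or_eq with c | c
    · exact hlt r r0 c
    · rw [c]; exact hat
  · obtain ⟨s, s1, s2⟩ := attrc_mem hg hb 0
    obtain ⟨r', q1, q2⟩ := attrc_up s (sInf S)
    have : r' ≤ sInf S := le_csInf hne fun r hr => by
      by_contra c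
      have c' := (not_le.1 c).le
      have hr' : sInf S ≤ r := csInf_le hbd hr
      have g1 := gn_gap_up g 0 hR0 hr' fun y hy => (q2 _ (s1 y hy)).imp id fun z => c'.trans z
      have g2 := gn_gap_up b 0 hR0 hr' fun y hy => (q2 _ (s2 y hy)).imp id fun z => c'.trans z
      have h2 := hr.2
      rw [g1, g2, hc, ← mul_assoc] at h2
      have : 0 ≤ (r / sInf S) ^ cnt b 0 (sInf S) := pow_nonneg (div_nonneg hr.1 hR0.le) _
      exact absurd (mul_le_mul_of_nonneg_right hat this) (not_le.2 h2)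
    linarith

/-- The radii of the discs around `x` on which the quotient is large. -/
def attrcS (g b : K[X]) (σ R : ℝ) (x : K) : Set ℝ :=
  {r | 0 ≤ r ∧ r ≤ R ∧ σ * gn b x r < gn g x r}

omit [IsUltrametricDist K] [IsAlgClosed K] in
theorem attrc_bdd (g b : K[X]) (σ R : ℝ) (x : K) : BddAbove (attrcS g b σ R x) :=
  ⟨R, fun _ hr => hr.2.1⟩

omit [IsUltrametricDist K] [IsAlgClosed K] in
theorem attrc_lt {g b : K[X]} {σ R : ℝ} {x : K} (hx : gn g x R ≤ σ * gn b x R) {r : ℝ}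
    (hr : r ∈ attrcS g b σ R x) : r < sSup (attrcS g b σ R x) := by
  have rR : r < R := by
    rcases hr.2.1.lt_or_eq with c | c
    · exact c
    · have := hr.2.2
      rw [c] at this
      exact absurd hx (not_le.2 this)
  obtain ⟨ε, e0, e1⟩ := Metric.isOpen_iff.1 (attrc_open g b σ x) r hr.2.2
  have m0 : 0 < min (ε / 2) (R - r) := lt_min (by linarith) (by linarith)
  have m1 := min_le_left (ε / 2) (R - r)
  have m2 := min_le_right (ε / 2) (R - r)
  have := e1 (a := r + min (ε / 2) (R - r)) (by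
    rw [Metric.mem_ball, Real.dist_eq, abs_lt]
    constructor <;> linarith)
  have h2 : r + min (ε / 2) (R - r) ∈ attrcS g b σ R x :=
    ⟨by linarith [hr.1], by linarith, this⟩
  have := le_csSup (attrc_bdd g b σ R x) h2
  linarith

/-- More poles than zeros in a hole. -/
theorem attrc_cnto {g b : K[X]} (hg : g ≠ 0) (hb : b ≠ 0) {σ R : ℝ} {x : K}
    (hx : gn g x R ≤ σ * gn b x R) (hne : (attrcS g b σ R x).Nonempty) :
    0 < sSup (attrcS g b σ R x) ∧
      cnto g x (sSup (attrcS g b σ R x)) ≠ cnto b x (sSup (attrcS g b σ R x)) := by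
  obtain ⟨r0, hr0⟩ := hne
  have hpos : 0 < sSup (attrcS g b σ R x) := hr0.1.trans_lt (attrc_lt hx hr0)
  refine ⟨hpos, fun hc => ?_⟩
  have hle : sSup (attrcS g b σ R x) ≤ R := csSup_le ⟨r0, hr0⟩ fun r hr => hr.2.1
  have hat : gn g x (sSup (attrcS g b σ R x)) ≤ σ * gn b x (sSup (attrcS g b σ R x)) := by
    by_contra c
    exact lt_irrefl _ (attrc_lt hx ⟨hpos.le, hle, not_le.1 c⟩)
  obtain ⟨s, s1, s2⟩ := attrc_mem hg hb x
  obtain ⟨r', q0, q1, q2⟩ := attrc_down s hpos
  obtain ⟨r, hr, hr'⟩ := exists_lt_of_lt_csSup ⟨r0, hr0⟩ q1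
  have hlt := attrc_lt hx hr
  have r0' : 0 < r := q0.trans hr'
  have g1 := gn_gap_down g x r0' hlt fun y hy => (q2 _ (s1 y hy)).imp (fun z => z.trans hr'.le) id
  have g2 := gn_gap_down b x r0' hlt fun y hy => (q2 _ (s2 y hy)).imp (fun z => z.trans hr'.le) id
  have h2 := hr.2.2
  rw [g1, g2, hc, ← mul_assoc] at h2
  have : 0 ≤ (r / sSup (attrcS g b σ R x)) ^ cnto b x (sSup (attrcS g b σ R x)) :=
    pow_nonneg (div_nonneg hr.1 hpos.le) _
  exact absurd (mul_le_mul_of_nonneg_right hat this) (not_le.2 h2)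

omit [IsAlgClosed K] in
theorem attrc_move {g b : K[X]} {σ R : ℝ} {x y : K} {r : ℝ} (hr : r ∈ attrcS g b σ R x)
    (hy : ‖y - x‖ ≤ r) : r ∈ attrcS g b σ R y := by
  refine ⟨hr.1, hr.2.1, ?_⟩
  rw [gn_congr b hy, gn_congr g hy]
  exact hr.2.2

omit [IsAlgClosed K] in
/-- The holes are equal or disjoint. -/
theorem attrc_hole {g b : K[X]} {σ R : ℝ} {x y : K} (hne : (attrcS g b σ R x).Nonempty)
    (hy : ‖y - x‖ < sSup (attrcS g b σ R x)) :
    (attrcS g b σ R y).Nonempty ∧ ‖y - x‖ ≤ R ∧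
      sSup (attrcS g b σ R y) = sSup (attrcS g b σ R x) := by
  obtain ⟨r, hr, hr'⟩ := exists_lt_of_lt_csSup hne hy
  have hry := attrc_move hr hr'.le
  refine ⟨⟨r, hry⟩, hr'.le.trans hr.2.1, le_antisymm ?_ ?_⟩
  · refine csSup_le ⟨r, hry⟩ fun u hu => ?_
    rcases le_total u r with c | c
    · exact c.trans (le_csSup (attrc_bdd g b σ R x) hr)
    · exact le_csSup (attrc_bdd g b σ R x)
        (attrc_move hu (by rw [norm_sub_rev]; exact hr'.le.trans c))
  · refine csSup_le hne fun u hu => ?_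
    rcases le_total u r with c | c
    · exact c.trans (le_csSup (attrc_bdd g b σ R y) hry)
    · exact le_csSup (attrc_bdd g b σ R y) (attrc_move hu (hr'.le.trans c))

/-- A critical point outside the holes. -/
theorem attrc_crit (hN : Res0 K) {ϖ : K} (h0 : 0 < ‖ϖ‖) (h1 : ‖ϖ‖ < 1) {g b : K[X]} (hg : g ≠ 0)
    (hb : b ≠ 0) (hg0 : g.IsRoot 0) {σ R : ℝ} (hR : 0 < R)
    (h : ∀ r, 0 ≤ r → r ≤ R → gn g 0 r ≤ σ * gn b 0 r) (hc : cnt g 0 R ≠ cnt b 0 R)
    {y1 : K} (y10 : y1 ≠ 0) (y1R : ‖y1‖ ≤ R) (y1r : (g * b).IsRoot y1) :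
    ∃ c, (wr g b).IsRoot c ∧ ‖g.eval c‖ ≤ σ * ‖b.eval c‖ := by
  classical
  by_contra hcon
  push Not at hcon
  obtain ⟨hW, hcl, -⟩ := wd_closed hN h0 h1 hg hb 0 hR hc
  let P : K → Prop := fun y => ‖y - 0‖ ≤ R ∧ (attrcS g b σ R y).Nonempty
  let f : K → Set K := fun y => Metric.ball y (sSup (attrcS g b σ R y))
  have hx : ∀ x, ‖x - 0‖ ≤ R → gn g x R ≤ σ * gn b x R := fun x hx => by
    rw [gn_congr b hx, gn_congr g hx]
    exact h R hR.le le_rfl
  have key : ∀ x, P x → ∀ y, (f x = f y ∧ P y) ↔ ‖y - x‖ < sSup (attrcS g b σ R x) := by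
    intro x px y
    constructor
    · rintro ⟨e, py⟩
      have : y ∈ f y := Metric.mem_ball_self (attrc_cnto hg hb (hx y py.1) py.2).1
      rw [← e] at this
      simpa [f, dist_eq_norm] using this
    · intro hy
      obtain ⟨a1, a2, a3⟩ := attrc_hole px.2 hy
      refine ⟨?_, ?_, a1⟩
      · simp only [f, a3]
        exact IsUltrametricDist.ball_eq_of_mem (by simpa [dist_eq_norm] using hy)
      · have e : y - 0 = (y - x) + (x - 0) := by ring
        rw [e]
        exact (IsUltrametricDist.norm_add_le_max _ _).trans (max_le a2 px.1)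
  let T : Finset (Set K) :=
    ((((wr g b).roots.filter P + g.roots.filter P) + b.roots.filter P).map f).toFinset
  have hT : ∀ t ∈ T, ∃ x, P x ∧ f x = t := by
    intro t ht
    simp only [T, Multiset.mem_toFinset, Multiset.mem_map, Multiset.mem_add,
      Multiset.mem_filter] at ht
    obtain ⟨x, hx, e⟩ := ht
    exact ⟨x, by tauto, e⟩
  have hcount : ∀ (p : K[X]) (x : K), P x →
      ((p.roots.filter P).map f).count (f x) = cnto p x (sSup (attrcS g b σ R x)) := by
    intro p x px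
    rw [Multiset.count_map, Multiset.filter_filter, cnto]
    exact congrArg Multiset.card (Multiset.filter_congr fun y _ => key x px y)
  have hsum : ∀ p : K[X], (∀ y ∈ p.roots.filter P, f y ∈ T) →
      ∑ t ∈ T, ((p.roots.filter P).map f).count t = (p.roots.filter P).card := by
    intro p hp
    rw [Multiset.sum_count_eq_card, Multiset.card_map]
    intro t ht
    obtain ⟨y, hy, rfl⟩ := Multiset.mem_map.1 ht
    exact hp y hy
  have sW := hsum (wr g b) fun y hy => Multiset.mem_toFinset.2 (Multiset.mem_map_of_mem _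
    (Multiset.mem_add.2 (Or.inl (Multiset.mem_add.2 (Or.inl hy)))))
  have sg := hsum g fun y hy => Multiset.mem_toFinset.2 (Multiset.mem_map_of_mem _
    (Multiset.mem_add.2 (Or.inl (Multiset.mem_add.2 (Or.inr hy)))))
  have sb := hsum b fun y hy => Multiset.mem_toFinset.2 (Multiset.mem_map_of_mem _
    (Multiset.mem_add.2 (Or.inr hy)))
  have tot : ((wr g b).roots.filter P).card + T.card =
      (g.roots.filter P).card + (b.roots.filter P).card := by
    rw [← sW, ← sg, ← sb, ← Finset.sum_add_distrib, Finset.card_eq_sum_ones,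
      ← Finset.sum_add_distrib]
    refine Finset.sum_congr rfl fun t ht => ?_
    obtain ⟨x, px, rfl⟩ := hT t ht
    rw [hcount _ x px, hcount _ x px, hcount _ x px]
    obtain ⟨a1, a2⟩ := attrc_cnto hg hb (hx x px.1) px.2
    exact (wd_open hN h0 h1 hg hb x a1 a2).2.1
  have eW : ((wr g b).roots.filter P).card = cnt (wr g b) 0 R := by
    refine congrArg Multiset.card (Multiset.filter_congr fun y hy => ⟨fun a => a.1, fun a => ?_⟩)
    refine ⟨a, 0, le_rfl, hR.le, ?_⟩
    rw [← gn_eq_of_gen (p := b) (x := y) (by simp) fun _ _ => norm_nonneg _,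
      ← gn_eq_of_gen (p := g) (x := y) (by simp) fun _ _ => norm_nonneg _]
    exact hcon y ((mem_roots hW).1 hy)
  have eb : (b.roots.filter P).card ≤ cnt b 0 R :=
    Multiset.card_le_card (Multiset.monotone_filter_right _ fun y a => a.1)
  have eg : (g.roots.filter P).card < cnt g 0 R := by
    refine Multiset.card_lt_card (lt_of_le_of_ne
      (Multiset.monotone_filter_right _ fun y a => a.1) fun e => ?_)
    have : (0 : K) ∈ g.roots.filter P := by
      rw [e]
      exact Multiset.mem_filter.2 ⟨(mem_roots hg).2 hg0, by simpa using hR.le⟩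
    obtain ⟨r, r0, r1, r2⟩ := (Multiset.mem_filter.1 this).2.2
    exact absurd (h r r0 r1) (not_le.2 r2)
  have T0 : T = ∅ := Finset.card_eq_zero.1 (by omega)
  rw [T0, Finset.sum_empty] at sW
  have two : 2 ≤ cnt (g * b) 0 R := by
    have hgb : g * b ≠ 0 := mul_ne_zero hg hb
    refine le_trans (Finset.one_lt_card.2 ⟨0, ?_, y1, ?_, y10.symm⟩) (Multiset.toFinset_card_le _)
    · rw [Multiset.mem_toFinset, Multiset.mem_filter, mem_roots hgb]
      exact ⟨root_mul.2 (Or.inl hg0), by simpa using hR.le⟩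
    · rw [Multiset.mem_toFinset, Multiset.mem_filter, mem_roots hgb]
      exact ⟨y1r, by simpa using y1R⟩
  rw [cnt_mul hg hb] at two
  omega

/-- Let `ρ ≤ ‖y0‖` be the least norm of a nonzero root of `g * b` and `σ = ‖lam‖ * ρ`.  For
`‖x‖ < ρ` one has `b x ≠ 0` and `‖g x / b x‖ = ‖lam‖ * ‖x‖` (`g = X * g1`,
`norm_eval_eq_of_no_root`), so it suffices to find a root `c` of `wr g b` with `b c ≠ 0` and
`‖g c‖ ≤ σ * ‖b c‖`.  Put `Φ a r = gn g a r / gn b a r`.  Let `ρ1 ≥ ρ` be the least norm of a root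
of `g * b` with `cnt g 0 ρ1 ≠ cnt b 0 ρ1` (the largest norm works since the degrees differ); then
`Φ 0 ρ1 = σ` (`gn_gap_up`).  For a root `β` of `b` with `‖β‖ ≤ ρ1` let `r β` be the least element `r` of the
finite set consisting of `ρ1` and the numbers `‖y - β‖ ∈ (0, ρ1)`, `y` a root of `g * b`, such that
`Φ β r' ≤ σ` for all `r' ∈ [r, ρ1]`.  Minimality and `gn_gap_down` give
`cnto g β (r β) < cnto b β (r β)`.  The open discs `‖y - β‖ < r β` (holes) are equal or disjoint,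
do not contain `0`, and at a point `x` of the closed disc of radius `ρ1` outside the holes
`‖g x‖ ≤ σ * ‖b x‖` (look at the nearest root of `b`).  By `wd_closed` and `wd_open`
the number of roots of `wr g b` in the closed disc outside the holes is (zeros of `g` outside the
holes) `- 1 +` (number of holes), which is positive: if there is no hole then `ρ1 = ρ` and `g` has
two zeros. -/
theorem attr_chart (hN : Res0 K) {ϖ : K} (h0 : 0 < ‖ϖ‖) (h1 : ‖ϖ‖ < 1) {g b : K[X]}
    (hco : ∀ x, g.IsRoot x → ¬ b.IsRoot x) (hdeg : b.natDegree < g.natDegree)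
    (hg0 : g.eval 0 = 0) {lam : K} (hl : (derivative g).eval 0 = lam * b.eval 0)
    (hl0 : lam ≠ 0) (hl1 : ‖lam‖ < 1) {y0 : K} (hy0 : y0 ≠ 0) (hy : g.IsRoot y0) :
    ∃ c, (wr g b).IsRoot c ∧ ∀ j : ℕ,
      b.eval ((fun x => g.eval x / b.eval x)^[j] c) ≠ 0 ∧
        (1 ≤ j → ‖(fun x => g.eval x / b.eval x)^[j] c‖ ≤ ‖lam‖ ^ j * ‖y0‖) := by
  classical
  have hg : g ≠ 0 := by
    rintro rfl
    simp at hdeg
  have hb0 : b.eval 0 ≠ 0 := hco 0 hg0
  have hb : b ≠ 0 := by
    rintro rfl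
    simp at hb0
  obtain ⟨g1, e1⟩ : X ∣ g := X_dvd_iff.2 (by rwa [coeff_zero_eq_eval_zero])
  have g10 : g1.eval 0 = lam * b.eval 0 := by
    rw [← hl, e1]
    simp
  have g1n : g1.eval 0 ≠ 0 := by
    rw [g10]
    exact mul_ne_zero hl0 hb0
  have hgb : g * b ≠ 0 := mul_ne_zero hg hb
  obtain ⟨y1, hy1, hmin⟩ := ((g * b).roots.toFinset.erase 0).exists_min_image (fun y => ‖y‖)
    ⟨y0, by
      rw [Finset.mem_erase, Multiset.mem_toFinset, mem_roots hgb]
      exact ⟨hy0, root_mul.2 (Or.inl hy)⟩⟩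
  rw [Finset.mem_erase, Multiset.mem_toFinset, mem_roots hgb] at hy1
  have hmin' : ∀ y, y ≠ 0 → g.IsRoot y ∨ b.IsRoot y → ‖y1‖ ≤ ‖y‖ := fun y a c => hmin y (by
    rw [Finset.mem_erase, Multiset.mem_toFinset, mem_roots hgb]
    exact ⟨a, root_mul.2 c⟩)
  have rg : ∀ y, g1.IsRoot y → ‖y1‖ ≤ ‖y‖ := fun y c => hmin' y (by
    rintro rfl
    exact g1n c) (Or.inl (by rw [e1]; exact root_mul.2 (Or.inr c)))
  have rb : ∀ y, b.IsRoot y → ‖y1‖ ≤ ‖y‖ := fun y c => hmin' y (by
    rintro rfl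
    exact hb0 c) (Or.inr c)
  have ρ0 : 0 < ‖y1‖ := norm_pos_iff.2 hy1.1
  have l0 : 0 < ‖lam‖ := norm_pos_iff.2 hl0
  have b0 : 0 < ‖b.eval 0‖ := norm_pos_iff.2 hb0
  obtain ⟨R, R1, R2, R3⟩ := attrc_outer (σ := ‖lam‖ * ‖y1‖) hb hdeg (by positivity) ρ0
    (fun r r0 r1 => by
      have a1 : ‖g1.eval 0‖ = gn g1 0 r := gn_eq_of_gen (by simpa using r0) fun y c => by
        simpa using r1.trans (rg y c)
      have a2 : ‖b.eval 0‖ = gn b 0 r := gn_eq_of_gen (by simpa using r0) fun y c => by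
        simpa using r1.trans (rb y c)
      have a3 : gn (X : K[X]) 0 r = r := by simp [gn, r0]
      rw [e1, gn_mul, a3, ← a1, ← a2, g10, norm_mul]
      have : r * (‖lam‖ * ‖b.eval 0‖) ≤ ‖y1‖ * (‖lam‖ * ‖b.eval 0‖) :=
        mul_le_mul_of_nonneg_right r1 (by positivity)
      linarith)
  obtain ⟨c, c1, c2⟩ := attrc_crit hN h0 h1 hg hb hg0 (ρ0.trans_le R1) R2 R3 hy1.1 R1 hy1.2
  have bc : b.eval c ≠ 0 := fun e => by
    rw [e, norm_zero, mul_zero] at c2
    exact hco c (norm_le_zero_iff.1 c2) e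
  have step : ∀ x : K, ‖x‖ < ‖y1‖ → b.eval x ≠ 0 ∧ ‖g.eval x / b.eval x‖ = ‖lam‖ * ‖x‖ := by
    intro x hx
    have a1 : ‖g1.eval x‖ = ‖g1.eval 0‖ := norm_eval_eq_of_no_root (r := ‖x‖)
      (fun y c => by simpa using hx.trans_le (rg y c)) (by simp)
    have a2 : ‖b.eval x‖ = ‖b.eval 0‖ := norm_eval_eq_of_no_root (r := ‖x‖)
      (fun y c => by simpa using hx.trans_le (rb y c)) (by simp)
    refine ⟨norm_pos_iff.1 (a2 ▸ b0), ?_⟩
    rw [norm_div, e1, eval_mul, eval_X, norm_mul, a1, a2, g10, norm_mul]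
    field_simp
  have small : ∀ j : ℕ, ‖lam‖ ^ (j + 1) * ‖y1‖ < ‖y1‖ := fun j =>
    mul_lt_of_lt_one_left ρ0 (pow_lt_one₀ l0.le hl1 (by omega))
  have main : ∀ j : ℕ, ‖(fun x => g.eval x / b.eval x)^[j + 1] c‖ ≤ ‖lam‖ ^ (j + 1) * ‖y1‖ := by
    intro j
    induction j with
    | zero =>
      simp only [zero_add, Function.iterate_one, pow_one]
      rw [norm_div, div_le_iff₀ (norm_pos_iff.2 bc)]
      exact c2
    | succ j ih =>
      rw [Function.iterate_succ_apply', (step _ (ih.trans_lt (small j))).2, pow_succ' _ (j + 1),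
        mul_assoc]
      exact mul_le_mul_of_nonneg_left ih l0.le
  refine ⟨c, c1, fun j => ?_⟩
  rcases j with _ | j
  · exact ⟨bc, fun a => absurd a (by omega)⟩
  · refine ⟨(step _ ((main j).trans_lt (small j))).1, fun _ => (main j).trans ?_⟩
    exact mul_le_mul_of_nonneg_left (hmin' y0 hy0 (Or.inl hy)) (by positivity)

end Pool.Agent.Lib.MP_0dd0d9_ag
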