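import Pool.Agent.Lib.MP_0dd0d9_ag.HB

/-!
TASK g0d Esc.  The escape rate.
-/

set_option linter.unusedSectionVars false

namespace Pool.Agent.Lib.MP_0dd0d9_ag

open Polynomial

variable {K : Type*} [NormedField K] [IsUltrametricDist K] [IsAlgClosed K]
variable {d : ℕ} {F : Mp K} {h : ℝ}

private lemma esc_geom {f : ℕ → ℝ} {C : ℝ} (hf : ∀ i, |f i| ≤ C / 2 / 2 ^ i) :
    Summable f ∧ |∑' i, f i| ≤ C :=
  ⟨Summable.of_norm_bounded (hasSum_geometric_two' C).summable hf,
    tsum_of_norm_bounded (f := f) (hasSum_geometric_two' C) hf⟩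

/-- The one step defect. -/
private noncomputable def escPhi (d : ℕ) (F : Mp K) (x : V K) : ℝ :=
  Real.log ‖app F x‖ - d * Real.log ‖x‖

omit [IsAlgClosed K] in
private lemma esc_phi_le (hG : Good d F h) {x : V K} (hx : x ≠ 0) : |escPhi d F x| ≤ h := by
  have h0 : 0 < ‖x‖ := norm_pos_iff.2 hx
  have h1 : 0 < ‖app F x‖ := norm_pos_iff.2 (hG.ne_zero x hx)
  have h2 := Real.log_le_log h1 (hG.up x)
  have h3 := Real.log_le_log (by positivity) (hG.low x)
  rw [Real.log_mul (by positivity) (by positivity), Real.log_exp, Real.log_pow] at h2 h3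
  unfold escPhi
  rw [abs_le]
  constructor <;> linarith

omit [IsAlgClosed K] in
private lemma esc_phi_smul (hG : Good d F h) {s : K} (hs : s ≠ 0) {x : V K} (hx : x ≠ 0) :
    escPhi d F (s • x) = escPhi d F x := by
  have h0 : ‖x‖ ≠ 0 := norm_ne_zero_iff.2 hx
  have h1 : ‖app F x‖ ≠ 0 := norm_ne_zero_iff.2 (hG.ne_zero x hx)
  have h2 : ‖s‖ ≠ 0 := norm_ne_zero_iff.2 hs
  unfold escPhi
  rw [app_smul hG.hom, norm_smul, norm_smul, norm_pow, Real.log_mul (pow_ne_zero _ h2) h1,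
    Real.log_mul h2 h0, Real.log_pow]
  ring

omit [IsAlgClosed K] in
private lemma esc_term_le (hG : Good d F h) (hd : 2 ≤ d) {x : V K} (hx : x ≠ 0) (k i : ℕ) :
    |escPhi d F ((app F)^[i + k] x) / (d : ℝ) ^ (i + k + 1)| ≤ h / (d : ℝ) ^ k / 2 / 2 ^ i := by
  have hd2 : (2 : ℝ) ≤ d := by exact_mod_cast hd
  have hd0 : (0 : ℝ) < d := by linarith
  have h1 := esc_phi_le hG (iter_ne_zero hG.ne_zero (i + k) hx)
  have hh := hG.h_nonneg
  rw [abs_div, abs_of_pos (by positivity : 0 < (d : ℝ) ^ (i + k + 1))]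
  have h2 : (d : ℝ) ^ k * 2 * 2 ^ i ≤ (d : ℝ) ^ (i + k + 1) := by
    have h3 : (2 : ℝ) ^ i ≤ (d : ℝ) ^ i := pow_le_pow_left₀ (by norm_num) hd2 i
    calc (d : ℝ) ^ k * 2 * 2 ^ i ≤ (d : ℝ) ^ k * d * (d : ℝ) ^ i := by gcongr
      _ = (d : ℝ) ^ (i + k + 1) := by ring
  calc _ ≤ h / (d : ℝ) ^ (i + k + 1) := div_le_div_of_nonneg_right h1 (by positivity)
    _ ≤ h / ((d : ℝ) ^ k * 2 * 2 ^ i) := div_le_div_of_nonneg_left hh (by positivity) h2
    _ = h / (d : ℝ) ^ k / 2 / 2 ^ i := by rw [div_div, div_div, mul_assoc]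

/-- Put `φ x = log ‖app F x‖ - d * log ‖x‖`, so `|φ| ≤ h` and `φ` is invariant under scaling, and
`H x = log ‖x‖ + ∑' i, φ ((app F)^[i] x) / d ^ (i + 1)`.  For the last field use
`Good.lip_iter` and `Good.norm_stable`: the first `k` terms agree. -/
theorem exists_esc (hG : Good d F h) (hN : Res0 K) (hd : 2 ≤ d) : ∃ H, IsEsc d F h H := by
  have hd2 : (2 : ℝ) ≤ d := by exact_mod_cast hd
  have hd0 : (0 : ℝ) < d := by linarith
  have hh := hG.h_nonneg
  have hs : ∀ x : V K, x ≠ 0 →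
      Summable (fun i : ℕ => escPhi d F ((app F)^[i] x) / (d : ℝ) ^ (i + 1)) ∧
        |∑' i : ℕ, escPhi d F ((app F)^[i] x) / (d : ℝ) ^ (i + 1)| ≤ h := by
    intro x hx
    refine esc_geom fun i => ?_
    simpa using esc_term_le hG hd hx 0 i
  refine ⟨fun x => Real.log ‖x‖ + ∑' i : ℕ, escPhi d F ((app F)^[i] x) / (d : ℝ) ^ (i + 1),
    ?_, ?_, ?_, ?_⟩
  · intro x hx
    rw [(hs x hx).1.tsum_eq_zero_add, mul_add, mul_add, ← tsum_mul_left]
    have e : ∀ i : ℕ, (d : ℝ) * (escPhi d F ((app F)^[i + 1] x) / (d : ℝ) ^ (i + 1 + 1))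
        = escPhi d F ((app F)^[i] (app F x)) / (d : ℝ) ^ (i + 1) := by
      intro i
      rw [Function.iterate_succ_apply]
      field_simp
      ring
    rw [tsum_congr e]
    have e0 : (d : ℝ) * (escPhi d F ((app F)^[0] x) / (d : ℝ) ^ (0 + 1)) = escPhi d F x := by
      rw [Function.iterate_zero_apply]
      field_simp
      ring
    rw [e0]
    unfold escPhi
    ring
  · intro s x hs0 hx
    have e : ∀ i : ℕ, escPhi d F ((app F)^[i] (s • x)) / (d : ℝ) ^ (i + 1)
        = escPhi d F ((app F)^[i] x) / (d : ℝ) ^ (i + 1) := by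
      intro i
      rw [iter_smul hG.hom, esc_phi_smul hG (pow_ne_zero _ hs0) (iter_ne_zero hG.ne_zero i hx)]
    rw [tsum_congr e, norm_smul,
      Real.log_mul (norm_ne_zero_iff.2 hs0) (norm_ne_zero_iff.2 hx)]
    ring
  · intro x hx
    rw [add_sub_cancel_left]
    exact (hs x hx).2
  · intro k x y hx hy hxy
    rw [add_sub_cancel_left, add_sub_cancel_left, ← (hs x hx).1.tsum_sub (hs y hy).1,
      ← ((hs x hx).1.sub (hs y hy).1).sum_add_tsum_nat_add k]
    have e : ∑ i ∈ Finset.range k, (escPhi d F ((app F)^[i] x) / (d : ℝ) ^ (i + 1)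
        - escPhi d F ((app F)^[i] y) / (d : ℝ) ^ (i + 1)) = 0 := by
      refine Finset.sum_eq_zero fun i hi => ?_
      have hik : (i : ℝ) + 1 ≤ k := by exact_mod_cast Finset.mem_range.1 hi
      have h1 := hG.lip_iter hN (by omega) i x y
      have h2 : Real.exp (2 * h * i) * del x y
          < Real.exp (2 * h * i) * Real.exp (-(2 * h * k)) :=
        mul_lt_mul_of_pos_left hxy (Real.exp_pos _)
      have h3 : Real.exp (2 * h * i) * Real.exp (-(2 * h * k)) ≤ Real.exp (-(2 * h)) := by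
        rw [← Real.exp_add]
        refine Real.exp_le_exp.2 ?_
        have := mul_le_mul_of_nonneg_left hik hh
        linarith
      have h4 := hG.norm_stable hN (by omega) (iter_ne_zero hG.ne_zero i hx)
        (iter_ne_zero hG.ne_zero i hy) (h1.trans_lt (h2.trans_le h3))
      unfold escPhi
      rw [h4, sub_self]
    rw [e, zero_add]
    refine (esc_geom fun i => ?_).2
    refine (abs_sub _ _).trans ?_
    have h1 := esc_term_le hG hd hx k i
    have h2 := esc_term_le hG hd hy k i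
    have e2 : 2 * h / (d : ℝ) ^ k / 2 / 2 ^ i
        = h / (d : ℝ) ^ k / 2 / 2 ^ i + h / (d : ℝ) ^ k / 2 / 2 ^ i := by ring
    rw [e2]
    exact add_le_add h1 h2

variable {H : V K → ℝ}

theorem IsEsc.iter (hE : IsEsc d F h H) (hG : Good d F h) (e : ℕ) {x : V K} (hx : x ≠ 0) :
    H ((app F)^[e] x) = (d : ℝ) ^ e * H x := by
  induction e with
  | zero => simp
  | succ e ih =>
    rw [Function.iterate_succ_apply', hE.step _ (iter_ne_zero hG.ne_zero e hx), ih]
    ring

theorem IsEsc.periodic (hE : IsEsc d F h H) (hG : Good d F h) (hd : 2 ≤ d) {e : ℕ} (he : 1 ≤ e)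
    {p : V K} (hp : p ≠ 0) (hper : (app F)^[e] p = p) : H p = 0 := by
  have h1 := hE.iter hG e hp
  rw [hper] at h1
  have hd1 : (1 : ℝ) < d := by exact_mod_cast hd
  have h2 : (1 : ℝ) < (d : ℝ) ^ e := one_lt_pow₀ hd1 (by omega)
  have h3 : ((d : ℝ) ^ e - 1) * H p = 0 := by linarith
  exact (mul_eq_zero.1 h3).resolve_left (by linarith)

theorem IsEsc.of_image (hE : IsEsc d F h H) (hd : 2 ≤ d) {z : V K} (hz : z ≠ 0)
    (h0 : H (app F z) = 0) : H z = 0 := by
  rw [hE.step z hz] at h0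
  refine (mul_eq_zero.1 h0).resolve_left ?_
  exact_mod_cast (by omega : d ≠ 0)

theorem Cyc.ne_zero {n : ℕ} [NeZero n] (hn : 2 ≤ n) {p z : ZMod n → V K} (hC : Cyc d F p z)
    (i : ZMod n) : p i ≠ 0 := by
  have : Fact (1 < n) := ⟨hn⟩
  exact ne_zero_of_wedge_left (hC.dist i (i + 1) (by simp))

theorem Cyc.iter {n : ℕ} {p z : ZMod n → V K} (hC : Cyc d F p z) (e : ℕ) (i : ZMod n) :
    (app F)^[e] (p i) = p (i + e) := by
  induction e with
  | zero => simp
  | succ e ih =>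
    rw [Function.iterate_succ_apply', ih, hC.nxt]
    push_cast
    rw [add_assoc]

theorem Cyc.esc_zero (hE : IsEsc d F h H) (hG : Good d F h) (hd : 2 ≤ d) {n : ℕ} [NeZero n]
    (hn : 2 ≤ n) {p z : ZMod n → V K} (hC : Cyc d F p z) (i : ZMod n) : H (p i) = 0 := by
  refine hE.periodic hG hd (e := n) (by omega) (hC.ne_zero hn i) ?_
  rw [hC.iter n i, ZMod.natCast_self, add_zero]

/-- Second preimages of different points are not parallel. -/
theorem Cyc.z_dist (hF : IsHom d F) {n : ℕ} {p z : ZMod n → V K} (hC : Cyc d F p z)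
    {i j : ZMod n} (hij : i ≠ j) (hi : Dj d F (p (i - 1)) ≠ 0) (hj : Dj d F (p (j - 1)) ≠ 0) :
    wedge (z i) (z j) ≠ 0 := by
  intro h0
  obtain ⟨h1, -⟩ := hC.zpre i hi
  obtain ⟨h2, h3⟩ := hC.zpre j hj
  obtain ⟨k, hk⟩ := exists_smul_of_wedge_eq_zero (ne_zero_of_wedge_left h3) h0
  refine hC.dist i j hij ?_
  rw [← h1, hk, app_smul hF, h2, wedge_smul_left, wedge_self, mul_zero]

theorem idx_injective {n k l : ℕ} [NeZero n] (hl : l < k) : Function.Injective (idx n k l) := by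
  have key : ∀ u : Fin (n / k), (idx n k l u).val = l * (n / k) + u.val := by
    intro u
    refine ZMod.val_cast_of_lt ?_
    have h1 : (l + 1) * (n / k) ≤ k * (n / k) := Nat.mul_le_mul_right _ hl
    have h2 := Nat.mul_div_le n k
    have h3 := u.2
    rw [add_mul, one_mul] at h1
    omega
  intro u v huv
  have h1 := key u
  rw [huv, key v] at h1
  exact Fin.ext (by omega)

/-- Some block lies shortly after any given index. -/
theorem exists_block {n k : ℕ} [NeZero n] (hk : 1 ≤ k) (hkn : k ^ 2 ≤ n) (i0 : ZMod n) :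
    ∃ l, l < k ∧ ∀ u : Fin (n / k), ∃ s : ℕ, 1 ≤ s ∧ s ≤ 3 * (n / k) ∧
      idx n k l u = i0 + (s : ZMod n) := by
  have hm : k ≤ n / k := (Nat.le_div_iff_mul_le hk).2 (by rwa [← sq])
  have hm0 : 0 < n / k := by omega
  have hn1 := Nat.div_add_mod n k
  have hn2 := Nat.mod_lt n hk
  have ha := ZMod.val_lt i0
  have ha1 := Nat.div_add_mod i0.val (n / k)
  have ha2 := Nat.mod_lt i0.val hm0
  have hi0 : ((i0.val : ℕ) : ZMod n) = i0 := ZMod.natCast_zmod_val i0
  by_cases hl : i0.val / (n / k) + 1 < k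
  · refine ⟨_, hl, fun u => ?_⟩
    have hu := u.2
    have e : (i0.val / (n / k) + 1) * (n / k) = n / k * (i0.val / (n / k)) + n / k := by ring
    refine ⟨(i0.val / (n / k) + 1) * (n / k) + u.val - i0.val, by omega, by omega, ?_⟩
    unfold idx
    rw [← hi0, ← Nat.cast_add, ZMod.val_natCast_of_lt ha]
    congr 1
    omega
  · refine ⟨0, hk, fun u => ?_⟩
    have hu := u.2
    have h1 : n / k * k ≤ n / k * (i0.val / (n / k) + 1) := Nat.mul_le_mul_left _ (by omega)
    rw [mul_add, mul_one, mul_comm] at h1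
    refine ⟨n + u.val - i0.val, by omega, by omega, ?_⟩
    unfold idx
    have e : i0.val + (n + u.val - i0.val) = n + u.val := by omega
    calc ((0 * (n / k) + u.val : ℕ) : ZMod n) = ((n + u.val : ℕ) : ZMod n) := by simp
      _ = ((i0.val + (n + u.val - i0.val) : ℕ) : ZMod n) := by rw [e]
      _ = _ := by rw [Nat.cast_add, hi0]

/-- The sum of the escape rates over a fibre (`Normal` gives `∑ log ‖k i‖ = 0`). -/
theorem IsEsc.sum_fib (hE : IsEsc d F h H) (hG : Good d F h) (hd : 2 ≤ d) {z : V K} (hz : z ≠ 0)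
    {y : Fin d → V K} {k : Fin d → K} (hf : IsFib F z y k) : ∑ i, H (y i) = H z := by
  obtain ⟨hy, hk⟩ := hf.ne_zero hG.hom (by omega) hG.ne_zero hz
  have h1 : ∀ i, (d : ℝ) * H (y i) = Real.log ‖k i‖ + H z := by
    intro i
    rw [← hE.step _ (hy i), hf.2 i, hE.smul _ _ (hk i) hz]
  have h2 : ∑ i, Real.log ‖k i‖ = 0 := by
    have h3 := congrArg (fun t : K => Real.log ‖t‖) (hG.nrm z y k hz hf)
    simp only [norm_pow, norm_prod, norm_one, Real.log_one, Real.log_pow] at h3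
    rw [Real.log_prod fun i _ => norm_ne_zero_iff.2 (hk i)] at h3
    push_cast at h3
    linarith
  have h4 : (d : ℝ) * ∑ i, H (y i) = d * H z := by
    rw [Finset.mul_sum, Finset.sum_congr rfl fun i _ => h1 i, Finset.sum_add_distrib, h2]
    simp
  exact mul_left_cancel₀ (by exact_mod_cast (by omega : d ≠ 0)) h4

/-- Iterated fibres; induction on `k`, with `finProdFinEquiv`. -/
theorem exists_fib_iter (hE : IsEsc d F h H) (hG : Good d F h) (hd : 2 ≤ d) (k : ℕ) {z : V K}
    (hz : z ≠ 0) :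
    ∃ y : Fin (d ^ k) → V K, (∀ i, y i ≠ 0) ∧
      (∀ x, wedge ((app F)^[k] x) z = ∏ i, wedge x (y i)) ∧ ∑ i, H (y i) = H z := by
  induction k generalizing z with
  | zero =>
    refine ⟨fun _ => z, fun _ => hz, fun x => ?_, ?_⟩
    · rw [Finset.prod_const, Finset.card_univ, Fintype.card_fin, pow_zero, pow_one,
        Function.iterate_zero_apply]
    · rw [Finset.sum_const, Finset.card_univ, Fintype.card_fin, pow_zero, one_smul]
  | succ k ih =>
    obtain ⟨w, c, hw, -, hf⟩ := exists_fib hG.hom (by omega) hG.ne_zero hz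
    choose Y hY0 hY1 hY2 using fun j => ih (hw j)
    let e : Fin (d ^ (k + 1)) ≃ Fin d × Fin (d ^ k) := Fintype.equivOfCardEq (by simp [pow_succ'])
    refine ⟨fun i => Y (e i).1 (e i).2, fun i => hY0 _ _, fun x => ?_, ?_⟩
    · rw [Function.iterate_succ_apply', hf.1, Finset.prod_congr rfl fun j _ => hY1 j x,
        e.prod_comp fun q => wedge x (Y q.1 q.2), Fintype.prod_prod_type]
    · rw [e.sum_comp fun q => H (Y q.1 q.2), Fintype.sum_prod_type,
        Finset.sum_congr rfl fun j _ => hY2 j]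
      exact hE.sum_fib hG hd hz hf

end Pool.Agent.Lib.MP_0dd0d9_ag
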