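import Pool.Agent.Lib.MP_0dd0d9_ag.AttrC
import Pool.Agent.Lib.MP_0dd0d9_ag.Esc

/-!
TASK g0d AttrW.  Critical orbits and an attracting fixed point of the third iterate.
-/

namespace Pool.Agent.Lib.MP_0dd0d9_ag

open Polynomial

variable {K : Type*} [NormedField K] [IsUltrametricDist K] [IsAlgClosed K]
variable {d : ℕ} {F : Mp K} {h : ℝ} {H : V K → ℝ}

section aux

variable {L : Type*} [Field L]

/-- The matrix of `x ↦ ![wedge x w, wedge x w']`. -/
def attrwG (w w' : V L) : Matrix (Fin 2) (Fin 2) L := !![w 1, -w 0; w' 1, -w' 0]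

/-- The matrix of `![p, q] ↦ q • w - p • w'`. -/
def attrwP (w w' : V L) : Matrix (Fin 2) (Fin 2) L := !![-w' 0, w 0; -w' 1, w 1]

theorem attrwG_zero (w w' x : V L) : (attrwG w w').mulVec x 0 = wedge x w := by
  simp [attrwG, Matrix.mulVec, dotProduct, Fin.sum_univ_two, wedge]; ring

theorem attrwG_one (w w' x : V L) : (attrwG w w').mulVec x 1 = wedge x w' := by
  simp [attrwG, Matrix.mulVec, dotProduct, Fin.sum_univ_two, wedge]; ring

theorem attrwG_det (w w' : V L) : (attrwG w w').det = wedge w w' := by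
  simp [attrwG, Matrix.det_fin_two, wedge]; ring

theorem attrwP_det (w w' : V L) : (attrwP w w').det = wedge w w' := by
  simp [attrwP, Matrix.det_fin_two, wedge]; ring

theorem attrwP_apply (w w' : V L) (p q : L) :
    (attrwP w w').mulVec ![p, q] = q • w - p • w' := by
  funext i
  fin_cases i <;> simp [attrwP, Matrix.mulVec, dotProduct, Fin.sum_univ_two] <;> ring

theorem attrw_wedge_left (w w' : V L) (p q : L) :
    wedge (q • w - p • w') w = p * wedge w w' := by
  simp [wedge]; ring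

theorem attrw_wedge_right (w w' : V L) (p q : L) :
    wedge (q • w - p • w') w' = q * wedge w w' := by
  simp [wedge]; ring

theorem attrw_expand (w w' v : V L) :
    wedge w w' • v = wedge v w' • w - wedge v w • w' := by
  funext i
  fin_cases i <;> simp [wedge] <;> ring

theorem attrw_step {w w' v : V L} {δ p q : L} (hδ : δ ≠ 0) (hq : q ≠ 0)
    (h : δ • v = q • w - p • w') : v = (q / δ) • ((1 : L) • w - (p / q) • w') := by
  rw [← inv_smul_smul₀ hδ v, h]
  funext i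
  simp only [Pi.smul_apply, Pi.sub_apply, smul_eq_mul]
  field_simp

theorem attrw_sum {n : ℕ} (T : Fin n → ℕ → ℝ) (c : ℝ) :
    ∑ a, ∑ s ∈ Finset.range 3, (T a s + c) = (∑ a, ∑ s ∈ Finset.range 3, T a s) + n * (3 * c) := by
  simp [Finset.sum_add_distrib]

theorem attrw_root [IsAlgClosed L] {g : L[X]} (hg0 : g.eval 0 = 0)
    (hg1 : (derivative g).eval 0 ≠ 0) (hdeg : 2 ≤ g.natDegree) :
    ∃ y0, y0 ≠ 0 ∧ g.IsRoot y0 := by
  have h1 : g.divX * X = g := by
    have := g.divX_mul_X_add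
    rwa [coeff_zero_eq_eval_zero, hg0, map_zero, add_zero] at this
  have h2 : g.divX.degree ≠ 0 := by
    intro h
    have := natDegree_eq_of_degree_eq_some (n := 0) h
    rw [natDegree_divX_eq_natDegree_tsub_one] at this
    omega
  obtain ⟨y, hy⟩ := IsAlgClosed.exists_root _ h2
  refine ⟨y, ?_, ?_⟩
  · rintro rfl
    apply hg1
    rw [← h1, derivative_mul]
    simp only [eval_add, eval_mul, eval_X, mul_zero, derivative_X, mul_one, zero_add]
    exact hy
  · rw [← h1, IsRoot.def, eval_mul, hy.eq_zero, zero_mul]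

end aux

omit [IsUltrametricDist K] [IsAlgClosed K] in
theorem attrw_del (x w w' : V K) (hx : x ≠ 0) (hw : w ≠ 0) (hw' : w' ≠ 0) {z : K}
    (hz : wedge x w = z * wedge x w') : del x w = ‖z‖ * del x w' * (‖w'‖ / ‖w‖) := by
  have h1 : ‖x‖ ≠ 0 := norm_ne_zero_iff.2 hx
  have h2 : ‖w‖ ≠ 0 := norm_ne_zero_iff.2 hw
  have h3 : ‖w'‖ ≠ 0 := norm_ne_zero_iff.2 hw'
  rw [del, del, hz, norm_mul]
  field_simp

/-- The attracting case: a critical orbit approaching `w` at the full rate. -/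
theorem attrw_main (hG : Good d F h) (hN : Res0 K) (hd : 2 ≤ d) {ϖ : K}
    (h0 : 0 < ‖ϖ‖) (h1 : ‖ϖ‖ < 1) {w w' : V K} (hw : (app F)^[3] w = w)
    (hw' : wedge ((app F)^[3] w') w' = 0) (hww : wedge w w' ≠ 0) {lam : K}
    (hlam : lam = Dj d F w * Dj d F (app F w) * Dj d F (app F (app F w))) (hl0 : lam ≠ 0)
    (hl1 : ‖lam‖ < 1) {j : ℕ} (hj : 1 ≤ j) :
    ∃ c' : V K, c' ≠ 0 ∧ Dj d F c' * Dj d F (app F c') * Dj d F (app F (app F c')) = 0 ∧
      del ((app F)^[3 * j] c') w ≤ ‖lam‖ ^ j * Real.exp (6 * h) := by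
  have hw0 : w ≠ 0 := ne_zero_of_wedge_left hww
  have hw0' : w' ≠ 0 := ne_zero_of_wedge_right hww
  have hnz := hG.ne_zero
  let G : Mp K := cmp (lin (attrwG w w')) (cmp (itc F 3) (lin (attrwP w w')))
  have hGh : IsHom (1 * (d ^ 3 * 1)) G :=
    isHom_cmp (isHom_lin _) (isHom_cmp (isHom_itc hG.hom 3) (isHom_lin _))
  have hD : 1 * (d ^ 3 * 1) = d ^ 3 := by ring
  have hD8 : 8 ≤ d ^ 3 := by
    calc 8 = 2 ^ 3 := by norm_num
      _ ≤ d ^ 3 := Nat.pow_le_pow_left hd 3
  have hDK : ((1 * (d ^ 3 * 1) : ℕ) : K) ≠ 0 := by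
    intro e
    have := hN (1 * (d ^ 3 * 1)) (by omega)
    rw [e, norm_zero] at this
    exact zero_ne_one this
  have happ : ∀ p q : K,
      app G ![p, q] = (attrwG w w').mulVec ((app F)^[3] (q • w - p • w')) := by
    intro p q
    simp only [G]
    rw [app_cmp, app_cmp, app_lin, app_lin, app_itc, attrwP_apply]
  have hev0 : ∀ p q : K, MvPolynomial.eval ![p, q] (G 0) =
      wedge ((app F)^[3] (q • w - p • w')) w := fun p q =>
    (congrFun (happ p q) 0).trans (attrwG_zero _ _ _)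
  have hev1 : ∀ p q : K, MvPolynomial.eval ![p, q] (G 1) =
      wedge ((app F)^[3] (q • w - p • w')) w' := fun p q =>
    (congrFun (happ p q) 1).trans (attrwG_one _ _ _)
  have hg : ∀ x, (deh (G 0)).eval x = wedge ((app F)^[3] ((1 : K) • w - x • w')) w := fun x => by
    rw [eval_deh, hev0]
  have hb : ∀ x, (deh (G 1)).eval x = wedge ((app F)^[3] ((1 : K) • w - x • w')) w' := fun x => by
    rw [eval_deh, hev1]
  have hpsi : ∀ x : K, (1 : K) • w - x • w' ≠ 0 := fun x =>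
    ne_zero_of_wedge_left (y := w') (by rw [attrw_wedge_right, one_mul]; exact hww)
  have hwr : ∀ x : K, (wr (deh (G 0)) (deh (G 1))).eval x = wedge w w' *
      (Dj d F ((1 : K) • w - x • w') * Dj d F (app F ((1 : K) • w - x • w')) *
        Dj d F (app F (app F ((1 : K) • w - x • w'))) * wedge w w') := by
    intro x
    rw [← Dj_one hDK hGh]
    simp only [G]
    rw [Dj_cmp, Dj_cmp, Dj_lin, Dj_lin, app_lin, attrwP_apply, Dj_itc_three, attrwG_det, attrwP_det]
  obtain ⟨k', hk'⟩ := exists_smul_of_wedge_eq_zero hw0' hw'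
  have hk0' : k' ≠ 0 := by
    rintro rfl
    exact iter_ne_zero hnz 3 hw0' (by rw [hk', zero_smul])
  have hinf : (app F)^[3] ((0 : K) • w - (1 : K) • w') = ((-1) ^ (d ^ 3) * k') • w' := by
    rw [zero_smul, zero_sub, ← neg_smul, iter_smul hG.hom, hk', smul_smul]
  have hgtop : (deh (G 0)).coeff (1 * (d ^ 3 * 1)) ≠ 0 := by
    rw [coeff_deh_top (hGh 0), hev0, hinf, wedge_smul_left, wedge_comm]
    exact mul_ne_zero (mul_ne_zero (pow_ne_zero _ (by norm_num)) hk0') (neg_ne_zero.2 hww)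
  have hbtop : (deh (G 1)).coeff (1 * (d ^ 3 * 1)) = 0 := by
    rw [coeff_deh_top (hGh 1), hev1, hinf, wedge_smul_left, wedge_self, mul_zero]
  have hgdeg : (deh (G 0)).natDegree = 1 * (d ^ 3 * 1) :=
    le_antisymm (natDegree_deh_le (hGh 0)) (le_natDegree_of_ne_zero hgtop)
  have hbdeg0 := natDegree_deh_le (hGh 1)
  generalize deh (G 0) = g at hg hwr hgdeg
  generalize deh (G 1) = b at hb hwr hbtop hbdeg0
  clear hgtop happ hev0 hev1 hGh G
  have e0 : (1 : K) • w - (0 : K) • w' = w := by simp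
  have hg0 : g.eval 0 = 0 := by rw [hg, e0, hw, wedge_self]
  have hb0 : b.eval 0 = wedge w w' := by rw [hb, e0, hw]
  have hbne : b ≠ 0 := by
    rintro rfl
    exact hww (by rw [← hb0, eval_zero])
  have hdeg : b.natDegree < g.natDegree := by
    rw [hgdeg]
    refine lt_of_le_of_ne hbdeg0 fun e => ?_
    rw [← e] at hbtop
    exact hbne (leadingCoeff_eq_zero.1 hbtop)
  have hl : (derivative g).eval 0 = lam * b.eval 0 := by
    have := hwr 0
    rw [e0, ← hlam, wr, eval_sub, eval_mul, eval_mul, hg0, zero_mul, sub_zero, hb0] at this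
    rw [hb0]
    exact mul_right_cancel₀ hww (by rw [this]; ring)
  have hco : ∀ x, g.IsRoot x → ¬ b.IsRoot x := by
    intro x hx hx'
    have := attrw_expand w w' ((app F)^[3] ((1 : K) • w - x • w'))
    rw [← hg, ← hb, hx.eq_zero, hx'.eq_zero, zero_smul, zero_smul, sub_zero] at this
    exact iter_ne_zero hnz 3 (hpsi x) ((smul_eq_zero.1 this).resolve_left hww)
  obtain ⟨y0, hy0, hy⟩ := attrw_root hg0
    (by rw [hl, hb0]; exact mul_ne_zero hl0 hww) (by omega)
  obtain ⟨c, hc, hit⟩ := attr_chart hN h0 h1 hco hdeg hg0 hl hl0 hl1 hy0 hy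
  refine ⟨(1 : K) • w - c • w', hpsi c, ?_, ?_⟩
  · have := hc.eq_zero
    rw [hwr] at this
    exact (mul_eq_zero.1 ((mul_eq_zero.1 this).resolve_left hww)).resolve_right hww
  · have hiter : ∀ i : ℕ, ∃ t : K, t ≠ 0 ∧ (app F)^[3 * i] ((1 : K) • w - c • w') =
        t • ((1 : K) • w - (fun x => g.eval x / b.eval x)^[i] c • w') := by
      intro i
      induction i with
      | zero => exact ⟨1, one_ne_zero, by simp⟩
      | succ i ih =>
        obtain ⟨t, ht, ih⟩ := ih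
        have hbz := (hit i).1
        rw [Function.iterate_succ_apply' (fun x => g.eval x / b.eval x)]
        generalize (fun x => g.eval x / b.eval x)^[i] c = z at ih hbz
        refine ⟨t ^ (d ^ 3) * (b.eval z / wedge w w'),
          mul_ne_zero (pow_ne_zero _ ht) (div_ne_zero hbz hww), ?_⟩
        rw [show 3 * (i + 1) = 3 + 3 * i by ring, Function.iterate_add_apply, ih,
          iter_smul hG.hom, mul_smul]
        have := attrw_expand w w' ((app F)^[3] ((1 : K) • w - z • w'))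
        rw [← hg, ← hb] at this
        rw [attrw_step hww hbz this]
    obtain ⟨t, ht, hj'⟩ := hiter j
    have hz := (hit j).2 hj
    generalize (fun x => g.eval x / b.eval x)^[j] c = z at hj' hz
    have hrat : 0 ≤ ‖w'‖ / ‖w‖ := by positivity
    have e1 : del ((1 : K) • w - z • w') w ≤ ‖z‖ * (‖w'‖ / ‖w‖) := by
      rw [attrw_del _ w w' (hpsi z) hw0 hw0' (z := z)
        (by rw [attrw_wedge_left, attrw_wedge_right, one_mul])]
      exact mul_le_mul_of_nonneg_right
        (mul_le_of_le_one_right (norm_nonneg _) (del_le_one _ _)) hrat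
    have e2 : del ((1 : K) • w - y0 • w') w =
        ‖y0‖ * del ((1 : K) • w - y0 • w') w' * (‖w'‖ / ‖w‖) :=
      attrw_del _ w w' (hpsi y0) hw0 hw0' (by rw [attrw_wedge_left, attrw_wedge_right, one_mul])
    have e3 : 0 < del ((1 : K) • w - y0 • w') w' :=
      del_pos (by rw [attrw_wedge_right, one_mul]; exact hww)
    obtain ⟨k, hk⟩ := exists_smul_of_wedge_eq_zero hw0 ((hg y0).symm.trans hy.eq_zero)
    have hk0 : k ≠ 0 := by
      rintro rfl
      exact iter_ne_zero hnz 3 (hpsi y0) (by rw [hk, zero_smul])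
    have e4 := hG.lip_iter hN (by omega) 3 ((1 : K) • w - y0 • w') w'
    rw [hk, hk', del_smul_left hk0, del_smul_right hk0',
      show 2 * h * ((3 : ℕ) : ℝ) = 6 * h by push_cast; ring] at e4
    have e5 : 1 ≤ Real.exp (6 * h) := Real.one_le_exp (by linarith [hG.h_nonneg])
    have e6 : del ((1 : K) • w - y0 • w') w ≤
        Real.exp (6 * h) * del ((1 : K) • w - y0 • w') w' := by
      refine (del_ultra _ hw0' w).trans (max_le (le_mul_of_one_le_left e3.le e5) ?_)
      rw [del_comm]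
      exact e4
    have e7 : ‖y0‖ * (‖w'‖ / ‖w‖) ≤ Real.exp (6 * h) := by
      refine le_of_mul_le_mul_right ?_ e3
      rw [e2] at e6
      linarith
    rw [hj', del_smul_left ht]
    calc _ ≤ ‖z‖ * (‖w'‖ / ‖w‖) := e1
      _ ≤ ‖lam‖ ^ j * ‖y0‖ * (‖w'‖ / ‖w‖) := mul_le_mul_of_nonneg_right hz hrat
      _ = ‖lam‖ ^ j * (‖y0‖ * (‖w'‖ / ‖w‖)) := by ring
      _ ≤ _ := mul_le_mul_of_nonneg_left e7 (by positivity)

/-- Every term is `-log (del (F^e c) w)` plus two terms of size at most `h` (`IsEsc.iter`,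
`IsEsc.periodic`, `log_del`), so at least `-2 h`; this settles `1 ≤ ‖lam‖`.  Otherwise let `u`, `u'`
be unit vectors parallel to `w`, `w'`, let `γ` be the matrix of `x ↦ ![wedge x u, wedge x u']`,
`G = cmp (lin γ) (cmp (itc F 3) (lin γ⁻¹))`, `g = deh (G 0)`, `b = deh (G 1)`.  Then `g 0 = 0`,
`natDegree b < d ^ 3 = natDegree g` (`coeff_deh_top`), `g' 0 = lam * b 0` (`Dj_cmp`, `Dj_one`,
`Dj_itc_three`, homogeneity), and `g` has a root `y0 ≠ 0` since `0` is a simple root; for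
`y = γ⁻¹ ![y0, 1]`, `‖y0‖ = del y w / del y w' ≤ exp (6 h)` by `Good.lip_iter` and `del_ultra`.
`attr_chart` gives `c`; for `c' = γ⁻¹ ![c, 1]` some `F^s c'`, `s < 3`, is parallel to some `cr a`, and
`del (F^(3 j) c') w ≤ ‖lam‖ ^ j * exp (6 h)`. -/
theorem attr (hG : Good d F h) (hE : IsEsc d F h H) (hN : Res0 K) (hd : 2 ≤ d) {ϖ : K}
    (h0 : 0 < ‖ϖ‖) (h1 : ‖ϖ‖ < 1) (cr : Fin (2 * d - 2) → V K) (hcr0 : ∀ a, cr a ≠ 0)
    (hcr : ∀ x, Dj d F x = ∏ a, wedge x (cr a)) {w w' : V K} (hw : (app F)^[3] w = w)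
    (hw' : wedge ((app F)^[3] w') w' = 0) (hww : wedge w w' ≠ 0) {lam : K}
    (hlam : lam = Dj d F w * Dj d F (app F w) * Dj d F (app F (app F w))) (hl0 : lam ≠ 0) {j : ℕ}
    (hj : 1 ≤ j) (hne : ∀ a e, wedge ((app F)^[e] (cr a)) w ≠ 0) :
    j * Real.posLog ‖lam‖⁻¹ - 12 * d * h ≤
      ∑ a, ∑ s ∈ Finset.range 3,
        (-Real.log ‖wedge ((app F)^[3 * j - s] (cr a)) w‖ + (d : ℝ) ^ (3 * j - s) * H (cr a)) := by
  have hw0 : w ≠ 0 := ne_zero_of_wedge_left hww
  have hh := hG.h_nonneg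
  have hHw : H w = 0 := hE.periodic hG hd (by norm_num) hw0 hw
  have hterm : ∀ a e, -Real.log (del ((app F)^[e] (cr a)) w) ≤
      -Real.log ‖wedge ((app F)^[e] (cr a)) w‖ + (d : ℝ) ^ e * H (cr a) + 2 * h := by
    intro a e
    have e1 := abs_le.1 (hE.bd _ (iter_ne_zero hG.ne_zero e (hcr0 a)))
    have e2 := abs_le.1 (hE.bd _ hw0)
    rw [log_del (hne a e), ← hE.iter hG e (hcr0 a)]
    linarith [e1.1, e2.1]
  have hnn : ∀ a e,
      0 ≤ -Real.log ‖wedge ((app F)^[e] (cr a)) w‖ + (d : ℝ) ^ e * H (cr a) + 2 * h := by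
    intro a e
    have := Real.log_nonpos (del_nonneg ((app F)^[e] (cr a)) w) (del_le_one _ _)
    linarith [hterm a e]
  have hsum : ∑ a, ∑ s ∈ Finset.range 3, (-Real.log ‖wedge ((app F)^[3 * j - s] (cr a)) w‖ +
        (d : ℝ) ^ (3 * j - s) * H (cr a) + 2 * h) =
      (∑ a, ∑ s ∈ Finset.range 3, (-Real.log ‖wedge ((app F)^[3 * j - s] (cr a)) w‖ +
        (d : ℝ) ^ (3 * j - s) * H (cr a))) + (12 * d * h - 12 * h) := by
    have hc : ((2 * d - 2 : ℕ) : ℝ) = 2 * d - 2 := by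
      rw [Nat.cast_sub (by omega)]; push_cast; ring
    rw [attrw_sum, hc]
    ring
  suffices hs : j * Real.posLog ‖lam‖⁻¹ - 6 * h ≤
      ∑ a, ∑ s ∈ Finset.range 3, (-Real.log ‖wedge ((app F)^[3 * j - s] (cr a)) w‖ +
        (d : ℝ) ^ (3 * j - s) * H (cr a) + 2 * h) by
    rw [hsum] at hs
    linarith
  have hlpos : 0 < ‖lam‖ := norm_pos_iff.2 hl0
  rcases le_or_gt 1 ‖lam‖ with hl1 | hl1
  · rw [(Real.posLog_eq_zero_iff _).2 (by
      rw [abs_of_nonneg (by positivity)]; exact inv_le_one_of_one_le₀ hl1)]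
    have := Finset.sum_nonneg fun a (_ : a ∈ Finset.univ) =>
      Finset.sum_nonneg fun s (_ : s ∈ Finset.range 3) => hnn a (3 * j - s)
    linarith
  obtain ⟨c', hc0, hc, hdel⟩ := attrw_main hG hN hd h0 h1 hw hw' hww hlam hl0 hl1 hj
  obtain ⟨s, hs, hD⟩ : ∃ s, s < 3 ∧ Dj d F ((app F)^[s] c') = 0 := by
    rcases mul_eq_zero.1 hc with hc | hc
    · rcases mul_eq_zero.1 hc with hc | hc
      · exact ⟨0, by norm_num, hc⟩
      · exact ⟨1, by norm_num, hc⟩
    · exact ⟨2, by norm_num, hc⟩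
  rw [hcr, Finset.prod_eq_zero_iff] at hD
  obtain ⟨a, -, ha⟩ := hD
  obtain ⟨k, hk⟩ := exists_smul_of_wedge_eq_zero (hcr0 a) ha
  have hk0 : k ≠ 0 := by
    rintro rfl
    exact iter_ne_zero hG.ne_zero s hc0 (by rw [hk, zero_smul])
  have e1 : (app F)^[3 * j] c' = k ^ (d ^ (3 * j - s)) • (app F)^[3 * j - s] (cr a) := by
    rw [← iter_smul hG.hom, ← hk, ← Function.iterate_add_apply]
    congr 1
    omega
  rw [e1, del_smul_left (pow_ne_zero _ hk0)] at hdel
  have e2 := Real.log_le_log (del_pos (hne a (3 * j - s))) hdel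
  rw [Real.log_mul (by positivity) (by positivity), Real.log_pow, Real.log_exp] at e2
  rw [Real.posLog_eq_log (by
    rw [abs_of_nonneg (by positivity)]; exact (one_le_inv₀ hlpos).2 hl1.le), Real.log_inv]
  have e3 := Finset.single_le_sum (f := fun s => -Real.log ‖wedge ((app F)^[3 * j - s] (cr a)) w‖ +
      (d : ℝ) ^ (3 * j - s) * H (cr a) + 2 * h) (fun s _ => hnn a (3 * j - s))
    (Finset.mem_range.2 hs)
  have e4 := Finset.single_le_sum (f := fun a => ∑ s ∈ Finset.range 3,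
      (-Real.log ‖wedge ((app F)^[3 * j - s] (cr a)) w‖ +
        (d : ℝ) ^ (3 * j - s) * H (cr a) + 2 * h))
    (fun a _ => Finset.sum_nonneg fun s _ => hnn a (3 * j - s)) (Finset.mem_univ a)
  have e5 := hterm a (3 * j - s)
  linarith

end Pool.Agent.Lib.MP_0dd0d9_ag
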