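import Pool.Agent.Lib.MP_0dd0d9_ag.Alg

/-!
TASK g0d CL1.  Area inequality for a complex rational map.
-/

namespace Pool.Agent.Lib.MP_0dd0d9_ag

open Polynomial MeasureTheory

theorem cl1_cover {f f' : ℂ → ℂ} {S : Set ℂ} (hS : IsOpen S)
    (hf : ∀ x ∈ S, HasStrictDerivAt f (f' x) x) (h0 : ∀ x ∈ S, f' x ≠ 0) :
    ∃ T : ℕ → Set ℂ, (∀ k, MeasurableSet (T k)) ∧ Pairwise (Function.onFun Disjoint T) ∧
      (∀ k, T k ⊆ S) ∧ (∀ k, Set.InjOn f (T k)) ∧ ∀ x ∈ S, ∃ k, x ∈ T k := by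
  obtain ⟨c, hc, hcU, hcs⟩ := TopologicalSpace.isOpen_sUnion_countable
    {U : Set ℂ | IsOpen U ∧ U ⊆ S ∧ Set.InjOn f U} (fun s hs => hs.1)
  obtain ⟨V, hV⟩ := (hc.insert ∅).exists_eq_range (Set.insert_nonempty _ _)
  have hVk : ∀ k, IsOpen (V k) ∧ V k ⊆ S ∧ Set.InjOn f (V k) := by
    intro k
    have : V k ∈ insert ∅ c := hV ▸ Set.mem_range_self k
    rcases this with h | h
    · rw [h]
      exact ⟨isOpen_empty, Set.empty_subset _, Set.injOn_empty _⟩
    · exact hcU h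
  refine ⟨disjointed V, MeasurableSet.disjointed fun k => (hVk k).1.measurableSet,
    disjoint_disjointed V, fun k => (disjointed_subset V k).trans (hVk k).2.1,
    fun k => (hVk k).2.2.mono (disjointed_subset V k), fun x hx => ?_⟩
  have h1 := ((hf x hx).eventually_left_inverse (h0 x hx)).and (hS.mem_nhds hx)
  obtain ⟨U, hU1, hU2, hU3⟩ := eventually_nhds_iff.1 h1
  have h2 : x ∈ ⋃₀ c := by
    rw [hcs]
    refine ⟨U, ⟨hU2, fun y hy => (hU1 y hy).2, fun y hy z hz e => ?_⟩, hU3⟩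
    rw [← (hU1 y hy).1, ← (hU1 z hz).1, e]
  obtain ⟨W, hW, hxW⟩ := h2
  have h3 : W ∈ Set.range V := hV ▸ Set.mem_insert_of_mem _ hW
  obtain ⟨k, rfl⟩ := h3
  have h4 : x ∈ ⋃ k, disjointed V k := by
    rw [iUnion_disjointed]
    exact Set.mem_iUnion.2 ⟨k, hxW⟩
  exact Set.mem_iUnion.1 h4

theorem cl1_det (a : ℂ) : |(a • (1 : ℂ →L[ℝ] ℂ)).det| = ‖a‖ ^ 2 := by
  have h : (a • (1 : ℂ →L[ℝ] ℂ)).det = Algebra.norm ℝ a := by
    rw [Algebra.norm_apply, ContinuousLinearMap.det]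
    congr 1
  rw [h, Algebra.norm_complex_apply, Complex.normSq_eq_norm_sq, abs_of_nonneg (by positivity)]

theorem cl1_piece {f f' : ℂ → ℂ} {T : Set ℂ} (hT : MeasurableSet T)
    (hf : ∀ x ∈ T, HasDerivAt f (f' x) x) (hi : Set.InjOn f T) {ψ : ℂ → ENNReal}
    (hψ : Measurable ψ) :
    ∃ g : ℂ → ENNReal, Measurable g ∧ (∀ x ∈ T, g (f x) = ψ x) ∧
      ∫⁻ w, g w = ∫⁻ x in T, ENNReal.ofReal (‖f' x‖ ^ 2) * ψ x := by
  have hf' : ∀ x ∈ T, HasFDerivWithinAt f (f' x • (1 : ℂ →L[ℝ] ℂ)) T x :=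
    fun x hx => (hf x hx).complexToReal_fderiv.hasFDerivWithinAt
  have he := measurableEmbedding_of_fderivWithin hT hf' hi
  have h1 : ∀ x ∈ T, Function.extend (T.domRestrict f) (fun x => ψ x) 0 (f x) = ψ x :=
    fun x hx => he.injective.extend_apply (fun x : T => ψ x) 0 ⟨x, hx⟩
  refine ⟨Function.extend (T.domRestrict f) (fun x => ψ x) 0,
    he.measurable_extend (hψ.comp measurable_subtype_coe) measurable_zero, h1, ?_⟩
  rw [← setLIntegral_eq_of_support_subset (s := f '' T),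
    lintegral_image_eq_lintegral_abs_det_fderiv_mul volume hT hf' hi]
  · refine setLIntegral_congr_fun hT fun x hx => ?_
    simp only [cl1_det, h1 x hx]
  · intro w hw
    by_contra c
    refine hw (Function.extend_apply' _ _ _ ?_)
    rintro ⟨x, hx⟩
    exact c ⟨x, x.2, hx⟩

theorem cl1_gen {f f' : ℂ → ℂ} {S : Set ℂ} (hS : IsOpen S)
    (hf : ∀ x ∈ S, HasStrictDerivAt f (f' x) x) (h0 : ∀ x ∈ S, f' x ≠ 0) {ψ χ : ℂ → ENNReal}
    (hψ : Measurable ψ) (hχ : ∀ x ∈ S, ENNReal.ofReal (‖f' x‖ ^ 2) * ψ x = χ x)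
    (R : ℂ → Finset ℂ) (hR : ∀ w, ∀ x ∈ R w, ψ x ≠ 0 → x ∈ S ∧ f x = w) :
    ∫⁻ w, ∑ x ∈ R w, ψ x ≤ ∫⁻ x, χ x := by
  classical
  obtain ⟨T, hT, hd, hTS, hi, hc⟩ := cl1_cover hS hf h0
  choose g g1 g2 g3 using fun k =>
    cl1_piece (hT k) (fun x hx => (hf x (hTS k hx)).hasDerivAt) (hi k) hψ
  have hc' : ∀ x, ∃ k, x ∈ S → x ∈ T k := fun x => by
    by_cases hx : x ∈ S
    · obtain ⟨k, hk⟩ := hc x hx
      exact ⟨k, fun _ => hk⟩
    · exact ⟨0, fun c => absurd c hx⟩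
  choose κ hκ using hc'
  calc ∫⁻ w, ∑ x ∈ R w, ψ x ≤ ∫⁻ w, ∑' k, g k w := by
        refine lintegral_mono fun w => ?_
        have e1 : ∑ x ∈ R w, ψ x = ∑ x ∈ (R w).filter (fun x => ψ x ≠ 0), g (κ x) w := by
          rw [← Finset.sum_filter_ne_zero]
          refine Finset.sum_congr rfl fun x hx => ?_
          obtain ⟨h1, h2⟩ := Finset.mem_filter.1 hx
          obtain ⟨h3, h4⟩ := hR w x h1 h2
          rw [← h4, g2 _ x (hκ x h3)]
        show ∑ x ∈ R w, ψ x ≤ ∑' k, g k w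
        rw [e1, ← Finset.sum_image (f := fun k => g k w) (g := κ)]
        · exact ENNReal.sum_le_tsum _
        · intro x hx y hy e
          obtain ⟨h1, h2⟩ := Finset.mem_filter.1 (Finset.mem_coe.1 hx)
          obtain ⟨h3, h4⟩ := hR w x h1 h2
          obtain ⟨k1, k2⟩ := Finset.mem_filter.1 (Finset.mem_coe.1 hy)
          obtain ⟨k3, k4⟩ := hR w y k1 k2
          exact hi (κ x) (hκ x h3) (e ▸ hκ y k3) (h4.trans k4.symm)
    _ = ∑' k, ∫⁻ x in T k, χ x := by
        rw [lintegral_tsum fun k => (g1 k).aemeasurable]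
        refine tsum_congr fun k => ?_
        rw [g3 k]
        exact setLIntegral_congr_fun (hT k) fun x hx => hχ x (hTS k hx)
    _ = ∫⁻ x in ⋃ k, T k, χ x := (lintegral_iUnion hT hd χ).symm
    _ ≤ _ := setLIntegral_le_lintegral _ _

/-- Let `S` be the open set where `B` and `wr A B` do not vanish and `f = A / B`, with
`f' = wr A B / B ^ 2` on `S` (terms with `x ∉ S` vanish).  `f` is locally injective on `S`
(`HasStrictDerivAt.localInverse` or `HasStrictFDerivAt.toOpenPartialHomeomorph`), so `S` is a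
countable disjoint union of measurable sets `S k` on which `f` is injective
(`TopologicalSpace.countable_cover_nhdsWithin` or Lindeloef, then `disjointed`).  The sum is at most
`∑' k` of the functions `g k`, the extension by zero of `φ / |f'| ^ 2` along the measurable embedding
`f | S k` (`measurableEmbedding_of_fderivWithin`), and
`lintegral_image_eq_lintegral_abs_det_fderiv_mul` gives `∫ g k = ∫_(S k) φ`; the real determinant
of multiplication by `a` is `‖a‖ ^ 2` (`Complex.det_...` or `Algebra.norm_complex_apply`). -/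
theorem area_ineq (A B : ℂ[X]) (φ : ℂ → ℝ) (hφ : Measurable φ) (h0 : ∀ x, 0 ≤ φ x) :
    ∫⁻ w, ENNReal.ofReal (∑ x ∈ (A - C w * B).roots.toFinset,
        φ x * ‖B.eval x‖ ^ 4 / ‖(wr A B).eval x‖ ^ 2) ≤ ∫⁻ x, ENNReal.ofReal (φ x) := by
  have hn : ∀ x, 0 ≤ φ x * ‖B.eval x‖ ^ 4 / ‖(wr A B).eval x‖ ^ 2 := fun x => by
    have := h0 x
    positivity
  simp only [ENNReal.ofReal_sum_of_nonneg fun x _ => hn x]
  refine cl1_gen (f := fun x => A.eval x / B.eval x)
    (f' := fun x => (wr A B).eval x / B.eval x ^ 2)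
    (S := {x | B.eval x ≠ 0} ∩ {x | (wr A B).eval x ≠ 0})
    ((isOpen_ne_fun B.continuous continuous_const).inter
      (isOpen_ne_fun (wr A B).continuous continuous_const))
    (fun x hx => ?_) (fun x hx => div_ne_zero hx.2 (pow_ne_zero _ hx.1)) ?_ (fun x hx => ?_) _
    (fun w x hx hne => ?_)
  · have := (A.hasStrictDerivAt x).fun_div (B.hasStrictDerivAt x) hx.1
    simpa only [wr, eval_sub, eval_mul] using this
  · exact ((hφ.mul (B.continuous.norm.measurable.pow_const 4)).div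
      ((wr A B).continuous.norm.measurable.pow_const 2)).ennreal_ofReal
  · rw [← ENNReal.ofReal_mul (by positivity)]
    congr 1
    have h1 : ‖B.eval x‖ ≠ 0 := norm_ne_zero_iff.2 hx.1
    have h2 : ‖(wr A B).eval x‖ ≠ 0 := norm_ne_zero_iff.2 hx.2
    rw [norm_div, norm_pow]
    field_simp
  · have h1 : B.eval x ≠ 0 := fun c => hne (by simp [c])
    have h2 : (wr A B).eval x ≠ 0 := fun c => hne (by simp [c])
    refine ⟨⟨h1, h2⟩, ?_⟩
    have h3 := (mem_roots'.1 (Multiset.mem_toFinset.1 hx)).2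
    simp only [IsRoot.def, eval_sub, eval_mul, eval_C] at h3
    rw [div_eq_iff h1]
    exact sub_eq_zero.1 h3

end Pool.Agent.Lib.MP_0dd0d9_ag
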