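import Pool.Agent.Lib.MP_0dd0d9_ag.Alg

/-!
TASK g0d CL2.  Almost invariance of the quadratic differential at generic points.
-/

namespace Pool.Agent.Lib.MP_0dd0d9_ag

open Polynomial

theorem cl2_mahler (q : ℂ[X]) (K : ℝ) (hK : 0 ≤ K)
    (h : ∀ z : ℂ, ‖z‖ = 1 → ‖q.eval z‖ ≤ K) : q.mahlerMeasure ≤ K := by
  refine q.mahlerMeasure_le_sqrt_sum_sq_norm_coeff.trans ?_
  rw [q.sum_sq_norm_coeff_eq_circleAverage, Real.sqrt_le_left hK]
  apply Real.circleAverage_mono_on_of_le_circle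
  · apply ContinuousOn.circleIntegrable'
    fun_prop
  · intro z hz
    have hz1 : ‖z‖ = 1 := by simpa using hz
    exact pow_le_pow_left₀ (norm_nonneg _) (h z hz1) 2

theorem cl2_quot (g p : ℂ[X]) (n : ℕ) (K L : ℝ) (hK : 0 ≤ K) (hL : 0 ≤ L)
    (hp : p.natDegree ≤ n) (hl : 1 ≤ ‖g.leadingCoeff‖ * L)
    (h : ∀ z : ℂ, ‖z‖ = 1 → ‖(g * p).eval z‖ ≤ K) (μ : ℕ) : ‖p.coeff μ‖ ≤ 2 ^ n * (K * L) := by
  have h1 := cl2_mahler _ K hK h
  rw [mahlerMeasure_mul] at h1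
  have h2 := leadingCoeff_le_mahlerMeasure g
  have h3 := p.mahlerMeasure_nonneg
  have h4 : p.mahlerMeasure ≤ K * L := by
    calc p.mahlerMeasure = 1 * p.mahlerMeasure := (one_mul _).symm
      _ ≤ (‖g.leadingCoeff‖ * L) * p.mahlerMeasure := by gcongr
      _ ≤ (g.mahlerMeasure * L) * p.mahlerMeasure := by gcongr
      _ = (g.mahlerMeasure * p.mahlerMeasure) * L := by ring
      _ ≤ K * L := by gcongr
  refine (norm_coeff_le_choose_mul_mahlerMeasure μ p).trans ?_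
  have h5 : ((p.natDegree.choose μ : ℕ) : ℝ) ≤ 2 ^ n := by
    have h6 : p.natDegree.choose μ ≤ 2 ^ n :=
      (Nat.choose_le_two_pow _ _).trans (Nat.pow_le_pow_right (by norm_num) hp)
    exact_mod_cast h6
  gcongr

theorem cl2_add {M a b : ℝ} {i j k : ℕ} (hM : 2 ≤ M) (ha : a ≤ M ^ i) (hb : b ≤ M ^ j)
    (hi : i ≤ k) (hj : j ≤ k) : a + b ≤ M ^ (k + 1) := by
  have h1 : M ^ i ≤ M ^ k := pow_le_pow_right₀ (by linarith) hi
  have h2 : M ^ j ≤ M ^ k := pow_le_pow_right₀ (by linarith) hj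
  have h3 : 0 ≤ M ^ k := by positivity
  rw [pow_succ]
  nlinarith

theorem cl2_mul {M a b : ℝ} {i j : ℕ} (hM : 2 ≤ M) (ha : a ≤ M ^ i) (hb : b ≤ M ^ j)
    (hb0 : 0 ≤ b) : a * b ≤ M ^ (i + j) := by
  rw [pow_add]
  exact mul_le_mul ha hb hb0 (by positivity)

theorem cl2_eval (q : ℂ[X]) (d k r : ℕ) (M : ℝ) (z : ℂ) (hM : 2 ≤ M) (hd : (d : ℝ) ≤ M)
    (hq : q.natDegree ≤ d) (hc : ∀ i, ‖q.coeff i‖ ≤ M ^ k) (hz : ‖z‖ ≤ M ^ r) :
    ‖q.eval z‖ ≤ M ^ (2 + k + r * d) := by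
  rw [eval_eq_sum_range' (Nat.lt_succ_of_le hq)]
  have h1 : (1 : ℝ) ≤ M ^ r := one_le_pow₀ (by linarith)
  have h2 : ∀ i ∈ Finset.range (d + 1), ‖q.coeff i * z ^ i‖ ≤ M ^ (k + r * d) := by
    intro i hi
    have hi' : i ≤ d := Nat.lt_succ_iff.mp (Finset.mem_range.mp hi)
    rw [norm_mul, norm_pow]
    refine cl2_mul hM (hc i) ?_ (by positivity)
    calc ‖z‖ ^ i ≤ (M ^ r) ^ i := by gcongr
      _ ≤ (M ^ r) ^ d := pow_le_pow_right₀ h1 hi'
      _ = M ^ (r * d) := (pow_mul _ _ _).symm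
  refine (norm_sum_le _ _).trans ((Finset.sum_le_card_nsmul _ _ _ h2).trans ?_)
  rw [Finset.card_range, nsmul_eq_mul, add_assoc]
  refine cl2_mul hM ?_ le_rfl (by positivity)
  push_cast
  nlinarith

theorem cl2_root (g : ℂ[X]) (M : ℝ) (hM : 2 ≤ M) (hc : ∀ i, ‖g.coeff i‖ ≤ M ^ 3)
    (hl : 1 ≤ ‖g.leadingCoeff‖ * M ^ 4) (x : ℂ) (hx : g.IsRoot x) : ‖x‖ ≤ M ^ 8 := by
  have hl0 : 0 < ‖g.leadingCoeff‖ := by
    rcases (norm_nonneg g.leadingCoeff).lt_or_eq with h | h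
    · exact h
    · rw [← h] at hl; norm_num at hl
  have hg : g ≠ 0 := by
    rintro rfl
    simp at hl0
  have h1 := hx.norm_lt_cauchyBound hg
  have h2 : ((Finset.sup (Finset.range g.natDegree) (fun i => ‖g.coeff i‖₊) : NNReal) : ℝ)
      ≤ M ^ 3 := by
    have h3 : Finset.sup (Finset.range g.natDegree) (fun i => ‖g.coeff i‖₊)
        ≤ ⟨M ^ 3, by positivity⟩ := Finset.sup_le fun i _ => by
          exact_mod_cast hc i
    exact_mod_cast h3
  have h4 : ‖x‖ < ((Finset.sup (Finset.range g.natDegree) (fun i => ‖g.coeff i‖₊) : NNReal) : ℝ)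
      / ‖g.leadingCoeff‖ + 1 := by
    unfold cauchyBound at h1
    exact_mod_cast h1
  have h5 : ((Finset.sup (Finset.range g.natDegree) (fun i => ‖g.coeff i‖₊) : NNReal) : ℝ)
      / ‖g.leadingCoeff‖ ≤ M ^ 7 := by
    rw [div_le_iff₀ hl0]
    calc _ ≤ M ^ 3 * 1 := by simpa using h2
      _ ≤ M ^ 3 * (‖g.leadingCoeff‖ * M ^ 4) := by gcongr
      _ = M ^ 7 * ‖g.leadingCoeff‖ := by ring
  have h6 := cl2_add (k := 7) hM h5 (show (1 : ℝ) ≤ M ^ 0 by simp) le_rfl (by norm_num)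
  linarith

theorem cl2_fac (g : ℂ[X]) (hg : g ≠ 0) (h : ∀ x, g.IsRoot x → (derivative g).eval x ≠ 0) :
    g = C g.leadingCoeff * ∏ x ∈ g.roots.toFinset, (X - C x) ∧
      g.roots.toFinset.card = g.natDegree := by
  have hn : g.roots.Nodup := by
    rw [Multiset.nodup_iff_count_le_one]
    intro x
    rw [count_roots]
    by_contra hlt
    push Not at hlt
    rw [one_lt_rootMultiplicity_iff_isRoot hg] at hlt
    exact h x hlt.1 hlt.2
  constructor
  · have h1 := C_leadingCoeff_mul_prod_multiset_X_sub_C (IsAlgClosed.card_roots_eq_natDegree (p := g))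
    rw [Finset.prod_eq_multiset_prod, Multiset.toFinset_val, hn.dedup]
    exact h1.symm
  · rw [Multiset.toFinset_card_of_nodup hn]
    exact IsAlgClosed.card_roots_eq_natDegree

theorem cl2_deriv (s : Finset ℂ) (l x : ℂ) (hx : x ∈ s) :
    (derivative (C l * ∏ y ∈ s, (X - C y))).eval x = l * ∏ y ∈ s.erase x, (x - y) := by
  rw [← Finset.mul_prod_erase s _ hx]
  simp [derivative_mul, eval_prod]

theorem cl2_dvd (s : Finset ℂ) (l : ℂ) (hl : l ≠ 0) (B W : ℂ[X])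
    (hW : ∀ x ∈ s, W.eval x = (l * ∏ y ∈ s.erase x, (x - y)) * B.eval x)
    (hW0 : ∀ x ∈ s, W.eval x ≠ 0) :
    ∃ p : ℂ[X], B ^ 3 - (∑ x ∈ s, C (B.eval x ^ 4 / W.eval x ^ 2) *
      (C l * ∏ y ∈ s.erase x, (X - C y))) * W = (C l * ∏ y ∈ s, (X - C y)) * p := by
  have h1 : (∏ y ∈ s, (X - C y)) ∣ B ^ 3 - (∑ x ∈ s, C (B.eval x ^ 4 / W.eval x ^ 2) *
      (C l * ∏ y ∈ s.erase x, (X - C y))) * W := by
    apply Finset.prod_dvd_of_coprime
    · intro a _ b _ hab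
      exact pairwise_coprime_X_sub_C (s := fun x : ℂ => x) Function.injective_id hab
    · intro x hx
      rw [dvd_iff_isRoot, IsRoot.def, eval_sub, eval_mul, eval_finsetSum,
        Finset.sum_eq_single x]
      · have h2 := hW x hx
        have h3 := hW0 x hx
        simp only [eval_pow, eval_mul, eval_C, eval_prod, eval_sub, eval_X]
        generalize (l * ∏ y ∈ s.erase x, (x - y)) = u at h2
        rw [h2] at h3 ⊢
        have h4 : u ≠ 0 := left_ne_zero_of_mul h3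
        have h5 : B.eval x ≠ 0 := right_ne_zero_of_mul h3
        field_simp
        ring
      · intro y _ hyx
        simp only [eval_mul, eval_C, eval_prod, eval_sub, eval_X]
        rw [Finset.prod_eq_zero (Finset.mem_erase.mpr ⟨hyx.symm, hx⟩) (sub_self x)]
        simp
      · intro h
        exact absurd hx h
  obtain ⟨p, hp⟩ := h1
  refine ⟨C l⁻¹ * p, ?_⟩
  rw [hp]
  have : C l * C l⁻¹ = (1 : ℂ[X]) := by rw [← C_mul, mul_inv_cancel₀ hl, C_1]
  linear_combination (-(∏ y ∈ s, (X - C y)) * p) * this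

theorem cl2_ident {ι : Type} [Fintype ι] [DecidableEq ι] (A B : ℂ[X]) (nxt : ι ≃ ι)
    (P α : ι → ℂ) (w l : ℂ) (s : Finset ℂ) (t : ℂ → ℂ) (p : ℂ[X]) (n : ℕ) (hp : p.natDegree < n)
    (hg : A - C w * B = C l * ∏ y ∈ s, (X - C y))
    (hq : B ^ 3 - (∑ x ∈ s, C (t x) * (C l * ∏ y ∈ s.erase x, (X - C y))) * wr A B =
      (C l * ∏ y ∈ s, (X - C y)) * p)
    (hB : ∀ i, B.eval (P i) ≠ 0) (horb : ∀ i, A.eval (P i) = P (nxt i) * B.eval (P i))
    (hw : ∀ i, w - P i ≠ 0) :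
    qf P α w = ∑ x ∈ s, qf P α x * t x + ∑ i, bet A B nxt P α i * ∑ x ∈ s, t x / (P i - x)
      - ∑ μ ∈ Finset.range n, p.coeff μ * fm B nxt P α μ := by
  have key : ∀ i, α (nxt i) / (w - P (nxt i)) =
      (bet A B nxt P α i - α i) * (∑ x ∈ s, t x / (P i - x))
        - α (nxt i) * p.eval (P i) / (B.eval (P i)) ^ 2 := by
    intro i
    have hG : l * ∏ y ∈ s, (P i - y) = (P (nxt i) - w) * B.eval (P i) := by
      have h1 := congrArg (eval (P i)) hg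
      simp only [eval_sub, eval_mul, eval_C, eval_prod, eval_X] at h1
      rw [← h1, horb i]
      ring
    have hw' : P (nxt i) - w ≠ 0 := fun h => hw (nxt i) (by linear_combination -h)
    have hG0 : l * ∏ y ∈ s, (P i - y) ≠ 0 := by
      rw [hG]
      exact mul_ne_zero hw' (hB i)
    have hy : ∑ x ∈ s, t x * (l * ∏ y ∈ s.erase x, (P i - y)) =
        (l * ∏ y ∈ s, (P i - y)) * ∑ x ∈ s, t x / (P i - x) := by
      rw [Finset.mul_sum]
      refine Finset.sum_congr rfl fun x hx => ?_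
      have h2 : P i - x ≠ 0 := by
        intro h0
        apply hG0
        rw [Finset.prod_eq_zero hx h0, mul_zero]
      rw [← Finset.mul_prod_erase s _ hx]
      field_simp
    have h3 := congrArg (eval (P i)) hq
    simp only [eval_sub, eval_mul, eval_C, eval_prod, eval_X, eval_pow, eval_finsetSum] at h3
    rw [hy, hG] at h3
    have h4 := hB i
    have h5 := hw (nxt i)
    unfold bet
    generalize (∑ x ∈ s, t x / (P i - x)) = S at h3 ⊢
    generalize B.eval (P i) = b at h3 h4 ⊢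
    have h6 : b ^ 2 - (P (nxt i) - w) * S * (wr A B).eval (P i) =
        (P (nxt i) - w) * p.eval (P i) := by
      apply mul_left_cancel₀ h4
      linear_combination h3
    field_simp
    linear_combination (α (nxt i)) * h6
  have e1 : qf P α w = ∑ i, α (nxt i) / (w - P (nxt i)) :=
    (Equiv.sum_comp nxt (fun i => α i / (w - P i))).symm
  have e2 : ∑ x ∈ s, qf P α x * t x = -∑ i, α i * ∑ x ∈ s, t x / (P i - x) := by
    unfold qf
    simp_rw [Finset.sum_mul, Finset.mul_sum]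
    rw [Finset.sum_comm, ← Finset.sum_neg_distrib]
    refine Finset.sum_congr rfl fun i _ => ?_
    rw [← Finset.sum_neg_distrib]
    refine Finset.sum_congr rfl fun x _ => ?_
    rw [← neg_sub (P i) x, div_neg]
    ring
  have e3 : ∑ μ ∈ Finset.range n, p.coeff μ * fm B nxt P α μ =
      ∑ i, α (nxt i) * p.eval (P i) / (B.eval (P i)) ^ 2 := by
    unfold fm
    simp_rw [Finset.mul_sum]
    rw [Finset.sum_comm]
    refine Finset.sum_congr rfl fun i _ => ?_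
    rw [eval_eq_sum_range' hp, Finset.mul_sum, Finset.sum_div]
    refine Finset.sum_congr rfl fun μ _ => ?_
    ring
  rw [e1, e2, e3]
  simp_rw [key, sub_mul, Finset.sum_sub_distrib]
  ring

theorem cl2_prod (s : Finset ℂ) (d : ℕ) (M : ℝ) (z : ℂ) (hM : 2 ≤ M) (hs : s.card ≤ d)
    (hz : ‖z‖ ≤ M) (h : ∀ x ∈ s, ‖x‖ ≤ M ^ 8) : ‖∏ y ∈ s, (z - y)‖ ≤ M ^ (9 * d) := by
  rw [norm_prod]
  have h1 : ∀ y ∈ s, ‖z - y‖ ≤ M ^ 9 := fun y hy =>
    (norm_sub_le _ _).trans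
      (cl2_add (k := 8) hM (show ‖z‖ ≤ M ^ 1 by simpa using hz) (h y hy) (by norm_num) le_rfl)
  calc ∏ y ∈ s, ‖z - y‖ ≤ ∏ _y ∈ s, M ^ 9 :=
        Finset.prod_le_prod (fun _ _ => norm_nonneg _) h1
    _ = (M ^ 9) ^ s.card := Finset.prod_const _
    _ ≤ (M ^ 9) ^ d := pow_le_pow_right₀ (one_le_pow₀ (by linarith)) hs
    _ = M ^ (9 * d) := (pow_mul _ _ _).symm

theorem cl2_dist (s : Finset ℂ) (d : ℕ) (M : ℝ) (l z x : ℂ) (hM : 2 ≤ M) (hs : s.card ≤ d)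
    (hz : ‖z‖ ≤ M) (h : ∀ x ∈ s, ‖x‖ ≤ M ^ 8) (hl : ‖l‖ ≤ M ^ 3) (hx : x ∈ s)
    (hlow : M⁻¹ ^ 2 ≤ ‖l * ∏ y ∈ s, (z - y)‖) : z - x ≠ 0 ∧ ‖z - x‖⁻¹ ≤ M ^ (9 * d + 5) := by
  have hM0 : 0 < M := by linarith
  have h1 := cl2_prod (s.erase x) d M z hM ((Finset.card_erase_le).trans hs) hz
    (fun y hy => h y (Finset.mem_of_mem_erase hy))
  rw [← Finset.mul_prod_erase s _ hx, norm_mul, norm_mul] at hlow
  have h2 : 1 ≤ ‖z - x‖ * M ^ (9 * d + 5) := by
    calc (1 : ℝ) = M⁻¹ ^ 2 * M ^ 2 := by field_simp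
      _ ≤ (‖l‖ * (‖z - x‖ * ‖∏ y ∈ s.erase x, (z - y)‖)) * M ^ 2 := by gcongr
      _ ≤ (M ^ 3 * (‖z - x‖ * M ^ (9 * d))) * M ^ 2 := by gcongr
      _ = ‖z - x‖ * M ^ (9 * d + 5) := by ring
  have h3 : z - x ≠ 0 := by
    intro h0
    rw [h0] at h2
    norm_num at h2
  refine ⟨h3, ?_⟩
  rw [inv_le_iff_one_le_mul₀' (norm_pos_iff.mpr h3)]
  exact h2

theorem cl2_der (q : ℂ[X]) (d : ℕ) (M : ℝ) (hM : 2 ≤ M) (hd : (d : ℝ) ≤ M)
    (hq : q.natDegree ≤ d) (hc : ∀ i, ‖q.coeff i‖ ≤ M) (i : ℕ) :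
    ‖(derivative q).coeff i‖ ≤ M ^ 2 := by
  rw [coeff_derivative]
  by_cases hi : i + 1 ≤ d
  · rw [norm_mul, pow_two]
    refine mul_le_mul (hc _) ?_ (norm_nonneg _) (by linarith)
    have h1 : ((i : ℂ) + 1) = ((i + 1 : ℕ) : ℂ) := by push_cast; ring
    rw [h1, Complex.norm_natCast]
    exact (Nat.cast_le.mpr hi).trans hd
  · rw [coeff_eq_zero_of_natDegree_lt (by omega)]
    simp only [zero_mul, norm_zero]
    positivity

theorem cl2_wr (A B : ℂ[X]) (d : ℕ) (M : ℝ) (hM : 2 ≤ M) (hd : (d : ℝ) ≤ M)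
    (hA : A.natDegree ≤ d) (hB : B.natDegree ≤ d) (hcA : ∀ i, ‖A.coeff i‖ ≤ M)
    (hcB : ∀ i, ‖B.coeff i‖ ≤ M) (z : ℂ) (hz : ‖z‖ = 1) : ‖(wr A B).eval z‖ ≤ M ^ 8 := by
  have hz0 : ‖z‖ ≤ M ^ 0 := by simp [hz]
  have h1 : ‖A.eval z‖ ≤ M ^ 3 := by
    simpa using cl2_eval A d 1 0 M z hM hd hA (by simpa using hcA) hz0
  have h2 : ‖B.eval z‖ ≤ M ^ 3 := by
    simpa using cl2_eval B d 1 0 M z hM hd hB (by simpa using hcB) hz0
  have h3 : ‖(derivative A).eval z‖ ≤ M ^ 4 := by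
    simpa using cl2_eval (derivative A) d 2 0 M z hM hd
      ((natDegree_derivative_le A).trans (by omega)) (cl2_der A d M hM hd hA hcA) hz0
  have h4 : ‖(derivative B).eval z‖ ≤ M ^ 4 := by
    simpa using cl2_eval (derivative B) d 2 0 M z hM hd
      ((natDegree_derivative_le B).trans (by omega)) (cl2_der B d M hM hd hB hcB) hz0
  unfold wr
  rw [eval_sub, eval_mul, eval_mul]
  refine (norm_sub_le _ _).trans ?_
  rw [norm_mul, norm_mul]
  exact cl2_add (k := 7) hM (cl2_mul hM h3 h2 (norm_nonneg _)) (cl2_mul hM h1 h4 (norm_nonneg _))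
    le_rfl le_rfl

theorem cl2_sum {κ : Type*} {M : ℝ} (s : Finset κ) (f : κ → ℝ) {i j : ℕ} (hM : 2 ≤ M)
    (hs : (s.card : ℝ) ≤ M ^ i) (h : ∀ x ∈ s, f x ≤ M ^ j) : ∑ x ∈ s, f x ≤ M ^ (i + j) := by
  refine (Finset.sum_le_card_nsmul _ _ _ h).trans ?_
  rw [nsmul_eq_mul]
  exact cl2_mul hM hs le_rfl (by positivity)

theorem cl2_sum' {κ : Type*} {M ε : ℝ} (s : Finset κ) (f : κ → ℝ) {i j : ℕ} (hε : 0 ≤ ε)
    (hM : 2 ≤ M) (hs : (s.card : ℝ) ≤ M ^ i) (h : ∀ x ∈ s, f x ≤ ε * M ^ j) :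
    ∑ x ∈ s, f x ≤ ε * M ^ (i + j) := by
  refine (Finset.sum_le_card_nsmul _ _ _ h).trans ?_
  rw [nsmul_eq_mul, pow_add]
  have h1 : 0 ≤ ε * M ^ j := by positivity
  calc (s.card : ℝ) * (ε * M ^ j) ≤ M ^ i * (ε * M ^ j) := by gcongr
    _ = ε * (M ^ i * M ^ j) := by ring

/-- Let `g = A - C w * B`, `W = wr A B = wr g B`.  `g` has degree `d`, leading coefficient at least
`M ^ (-4)`, coefficients at most `2 M ^ 2`, so its roots `x j` have norm at most `M ^ 7`.  From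
`g(c) = lead * ∏ (c - x j)` each `‖c i - x j‖` and each `‖P i - x j‖` is at least a fixed negative
power of `M` (`g (P i) = B (P i) * (P (nxt i) - w)`).  So `W (x j) ≠ 0`; since
`W (x j) = g' (x j) * B (x j)` the roots are simple and `B (x j) ≠ 0`.
Let `y = ∑ j, C (B (x j) ^ 4 / W (x j) ^ 2) * (g / (X - x j))`.  Then `B ^ 3 - y * W` vanishes at all
`x j`, so it is `p * g` with `natDegree p ≤ 2 d`, and
`qf w - ∑ j, qf (x j) * B (x j) ^ 4 / W (x j) ^ 2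
  = - ∑ μ, p.coeff μ * fm μ + ∑ i, bet i * ∑ j, (B (x j) ^ 4 / W (x j) ^ 2) / (P i - x j)`.
Bound the coefficients of `p` by dividing by one linear factor at a time
(`Polynomial.coeff_divByMonic_X_sub_C`) using the sum of the norms of the coefficients.
Any crude exponent `D` depending only on `d` is fine. -/
theorem cl2 (d : ℕ) (hd : 2 ≤ d) : ∃ D : ℕ, ∀ {ι : Type} [Fintype ι] [DecidableEq ι] (A B : ℂ[X])
    (nxt : ι ≃ ι) (P α : ι → ℂ) (M ε : ℝ) (lw : ℂ) (c : Fin (2 * d - 2) → ℂ) (w : ℂ),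
    2 ≤ M → (d : ℝ) ≤ M → (Fintype.card ι : ℝ) ≤ M →
    A.natDegree ≤ d → B.natDegree ≤ d → (∀ i, ‖A.coeff i‖ ≤ M) → (∀ i, ‖B.coeff i‖ ≤ M) →
    wr A B = C lw * ∏ i, (X - C (c i)) → M⁻¹ ≤ ‖lw‖ → (∀ i, ‖c i‖ ≤ M) →
    (∀ i, ‖P i‖ ≤ M) → (∀ i, M⁻¹ ≤ ‖B.eval (P i)‖) →
    (∀ i, A.eval (P i) = P (nxt i) * B.eval (P i)) →
    (∀ i, ‖bet A B nxt P α i‖ ≤ ε) → (∀ μ, μ ≤ 2 * d → ‖fm B nxt P α μ‖ ≤ ε) → 0 ≤ ε →
    ‖w‖ ≤ M → (∀ i, M⁻¹ ≤ ‖w - P i‖) →
    (∀ i, M⁻¹ ^ 2 ≤ ‖A.eval (c i) - w * B.eval (c i)‖) →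
    M⁻¹ ^ 4 ≤ ‖A.coeff d - w * B.coeff d‖ →
    ‖qf P α w‖ ≤ push A B P α w + ε * M ^ D := by
  obtain ⟨τ, hτ⟩ : ∃ τ : ℕ, τ = (2 + 1 + 8 * d) * 4 + (1 + (9 * d + 5) * (2 * d - 2)) * 2 :=
    ⟨_, rfl⟩
  refine ⟨τ + 21 + 11 * d, ?_⟩
  intro ι _ _ A B nxt P α M ε lw c w hM hdM hι hA hB hcA hcB hW hlw hc hP hBP horb hbet hfm hε
    hw hwP hgc hlead
  have hM0 : 0 < M := by linarith
  have hM1 : 1 ≤ M := by linarith
  have hMi : 0 < M⁻¹ := inv_pos.mpr hM0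
  obtain ⟨g, hg⟩ : ∃ g : ℂ[X], g = A - C w * B := ⟨_, rfl⟩
  have hgc' : ∀ i, g.coeff i = A.coeff i - w * B.coeff i := fun i => by
    rw [hg, coeff_sub, coeff_C_mul]
  have hge : ∀ z, g.eval z = A.eval z - w * B.eval z := fun z => by
    rw [hg, eval_sub, eval_mul, eval_C]
  have hgd0 : g.coeff d ≠ 0 := by
    intro h0
    rw [← hgc' d, h0, norm_zero] at hlead
    exact absurd hlead (not_le.mpr (by positivity))
  have hgdeg : g.natDegree = d := by
    refine le_antisymm ?_ (le_natDegree_of_ne_zero hgd0)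
    rw [hg]
    exact (natDegree_sub_le _ _).trans (max_le hA ((natDegree_C_mul_le _ _).trans hB))
  have hg0 : g ≠ 0 := by
    rintro rfl
    simp at hgd0
  have hl : g.leadingCoeff = g.coeff d := by rw [leadingCoeff, hgdeg]
  have hco : ∀ i, ‖g.coeff i‖ ≤ M ^ 3 := fun i => by
    rw [hgc']
    refine (norm_sub_le _ _).trans ?_
    rw [norm_mul]
    exact cl2_add (k := 2) (i := 1) (j := 1 + 1) hM (by simpa using hcA i)
      (cl2_mul hM (by simpa using hw) (by simpa using hcB i) (norm_nonneg _)) (by norm_num) le_rfl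
  have hl4 : 1 ≤ ‖g.leadingCoeff‖ * M ^ 4 := by
    rw [hl, hgc']
    calc (1 : ℝ) = M⁻¹ ^ 4 * M ^ 4 := by field_simp
      _ ≤ _ := by gcongr
  have hl3 : ‖g.leadingCoeff‖ ≤ M ^ 3 := hco _
  have hl0 : g.leadingCoeff ≠ 0 := leadingCoeff_ne_zero.mpr hg0
  have hlw0 : lw ≠ 0 := by
    intro h0
    rw [h0, norm_zero] at hlw
    exact absurd hlw (not_le.mpr hMi)
  have hWe : ∀ z, (wr A B).eval z = lw * ∏ i, (z - c i) := fun z => by
    rw [hW]
    simp [eval_prod]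
  have hWg : ∀ x, g.IsRoot x → (wr A B).eval x = (derivative g).eval x * B.eval x := by
    intro x hx
    have h1 : A.eval x - w * B.eval x = 0 := by rw [← hge]; exact hx
    rw [hg]
    unfold wr
    simp only [eval_sub, eval_mul, derivative_sub, derivative_C_mul, eval_C]
    linear_combination (-(derivative B).eval x) * h1
  have hW0 : ∀ x, g.IsRoot x → (wr A B).eval x ≠ 0 := by
    intro x hx
    rw [hWe]
    refine mul_ne_zero hlw0 (Finset.prod_ne_zero_iff.mpr fun i _ h0 => ?_)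
    have h1 := hgc i
    rw [← hge, ← sub_eq_zero.mp h0, hx.eq_zero, norm_zero] at h1
    exact absurd h1 (not_le.mpr (by positivity))
  obtain ⟨hfac, hcard⟩ := cl2_fac g hg0 fun x hx h0 => hW0 x hx (by rw [hWg x hx, h0, zero_mul])
  unfold push
  rw [← hg]
  obtain ⟨s, hs⟩ : ∃ s : Finset ℂ, s = g.roots.toFinset := ⟨_, rfl⟩
  rw [← hs] at hfac hcard ⊢
  have hsr : ∀ x ∈ s, g.IsRoot x := fun x hx => by
    rw [hs, Multiset.mem_toFinset, mem_roots hg0] at hx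
    exact hx
  obtain ⟨l, hll⟩ : ∃ l : ℂ, l = g.leadingCoeff := ⟨_, rfl⟩
  rw [← hll] at hfac hl3 hl0
  have hsd : s.card ≤ d := by rw [hcard, hgdeg]
  have hsM : (s.card : ℝ) ≤ M ^ 1 := by
    rw [pow_one]
    exact (Nat.cast_le.mpr hsd).trans hdM
  have hs8 : ∀ x ∈ s, ‖x‖ ≤ M ^ 8 := fun x hx => cl2_root g M hM hco hl4 x (hsr x hx)
  have hgz : ∀ z, g.eval z = l * ∏ y ∈ s, (z - y) := fun z => by
    rw [hfac]
    simp [eval_prod]
  have hB0 : ∀ i, B.eval (P i) ≠ 0 := fun i h0 => by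
    have h1 := hBP i
    rw [h0, norm_zero] at h1
    exact absurd h1 (not_le.mpr hMi)
  have hw0 : ∀ i, w - P i ≠ 0 := fun i h0 => by
    have h1 := hwP i
    rw [h0, norm_zero] at h1
    exact absurd h1 (not_le.mpr hMi)
  have hdc : ∀ x ∈ s, ∀ i, ‖x - c i‖⁻¹ ≤ M ^ (9 * d + 5) := fun x hx i => by
    rw [norm_sub_rev]
    refine (cl2_dist s d M l (c i) x hM hsd (hc i) hs8 hl3 hx ?_).2
    rw [← hgz, hge]
    exact hgc i
  have hdP : ∀ x ∈ s, ∀ i, ‖P i - x‖⁻¹ ≤ M ^ (9 * d + 5) := fun x hx i => by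
    refine (cl2_dist s d M l (P i) x hM hsd (hP i) hs8 hl3 hx ?_).2
    rw [← hgz, hge, horb i, ← sub_mul, norm_mul, norm_sub_rev, pow_two]
    exact mul_le_mul (hwP _) (hBP i) hMi.le (norm_nonneg _)
  have hWi : ∀ x ∈ s, ‖(wr A B).eval x‖⁻¹ ≤ M ^ (1 + (9 * d + 5) * (2 * d - 2)) := fun x hx => by
    rw [hWe, norm_mul, mul_inv, norm_prod, ← Finset.prod_inv_distrib]
    refine cl2_mul hM ?_ ?_ (Finset.prod_nonneg fun i _ => by positivity)
    · rw [pow_one]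
      exact inv_le_of_inv_le₀ hM0 hlw
    · calc ∏ i, ‖x - c i‖⁻¹ ≤ ∏ _i : Fin (2 * d - 2), M ^ (9 * d + 5) :=
            Finset.prod_le_prod (fun _ _ => by positivity) (fun i _ => hdc x hx i)
        _ = M ^ ((9 * d + 5) * (2 * d - 2)) := by
            rw [Finset.prod_const, Finset.card_univ, Fintype.card_fin, ← pow_mul]
  obtain ⟨t, ht⟩ : ∃ t : ℂ → ℂ, t = fun x => B.eval x ^ 4 / (wr A B).eval x ^ 2 := ⟨_, rfl⟩
  have htn : ∀ x, ‖t x‖ = ‖B.eval x‖ ^ 4 / ‖(wr A B).eval x‖ ^ 2 := fun x => by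
    rw [ht]
    simp only [norm_div, norm_pow]
  have htb : ∀ x ∈ s, ‖t x‖ ≤ M ^ τ := fun x hx => by
    rw [htn, div_eq_mul_inv, ← inv_pow, hτ]
    refine cl2_mul hM ?_ ?_ (by positivity)
    · rw [pow_mul]
      exact pow_le_pow_left₀ (norm_nonneg _)
        (cl2_eval B d 1 8 M x hM hdM hB (by simpa using hcB) (hs8 x hx)) 4
    · rw [pow_mul]
      exact pow_le_pow_left₀ (by positivity) (hWi x hx) 2
  obtain ⟨p, hp⟩ := cl2_dvd s l hl0 B (wr A B)
    (fun x hx => by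
      rw [hWg x (hsr x hx)]
      congr 1
      conv_lhs => rw [hfac]
      exact cl2_deriv s l x hx)
    (fun x hx => hW0 x (hsr x hx))
  have hp' : B ^ 3 - (∑ x ∈ s, C (t x) * (C l * ∏ y ∈ s.erase x, (X - C y))) * wr A B =
      (C l * ∏ y ∈ s, (X - C y)) * p := by
    rw [ht]
    exact hp
  have hpd : p.natDegree ≤ 2 * d := by
    by_cases hp0 : p = 0
    · simp [hp0]
    have h1 : (g * p).natDegree = d + p.natDegree := by rw [natDegree_mul hg0 hp0, hgdeg]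
    have h2 : (g * p).natDegree ≤ 3 * d := by
      conv_lhs => rw [hfac, ← hp']
      refine (natDegree_sub_le _ _).trans (max_le ?_ ?_)
      · exact natDegree_pow_le.trans (Nat.mul_le_mul_left 3 hB)
      · refine natDegree_mul_le.trans ?_
        have h3 : (∑ x ∈ s, C (t x) * (C l * ∏ y ∈ s.erase x, (X - C y))).natDegree ≤ d := by
          refine natDegree_sum_le_of_forall_le _ _ fun x _ => ?_
          refine (natDegree_C_mul_le _ _).trans ((natDegree_C_mul_le _ _).trans ?_)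
          rw [natDegree_finsetProd_X_sub_C_eq_card]
          exact Finset.card_erase_le.trans hsd
        have h4 : (wr A B).natDegree ≤ 2 * d - 2 := by
          rw [hW]
          refine (natDegree_C_mul_le _ _).trans ?_
          rw [natDegree_finsetProd_X_sub_C_eq_card]
          simp
        omega
    omega
  have hpc : ∀ μ, ‖p.coeff μ‖ ≤ M ^ (2 * d + (τ + 13 + 9 * d + 4)) := fun μ => by
    refine (cl2_quot g p (2 * d) (M ^ (τ + 13 + 9 * d)) (M ^ 4) (by positivity) (by positivity)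
      hpd hl4 ?_ μ).trans ?_
    · intro z hz
      have hzM : ‖z‖ ≤ M := by rw [hz]; exact hM1
      conv_lhs => rw [hfac, ← hp']
      rw [eval_sub, eval_pow, eval_mul, eval_finsetSum]
      refine (norm_sub_le _ _).trans ?_
      rw [norm_pow, norm_mul]
      have h1 : ‖B.eval z‖ ≤ M ^ 3 := by
        simpa using cl2_eval B d 1 0 M z hM hdM hB (by simpa using hcB) (by simp [hz])
      have h2 : ‖B.eval z‖ ^ 3 ≤ M ^ 9 := by
        calc ‖B.eval z‖ ^ 3 ≤ (M ^ 3) ^ 3 := by gcongr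
          _ = M ^ 9 := by ring
      have h3 : ‖∑ x ∈ s, (C (t x) * (C l * ∏ y ∈ s.erase x, (X - C y))).eval z‖ ≤
          M ^ (1 + (τ + (3 + 9 * d))) := by
        refine (norm_sum_le _ _).trans (cl2_sum s _ hM hsM fun x hx => ?_)
        simp only [eval_mul, eval_C, eval_prod, eval_sub, eval_X]
        rw [norm_mul, norm_mul]
        refine cl2_mul hM (htb x hx) (cl2_mul hM hl3 ?_ (norm_nonneg _)) (by positivity)
        exact cl2_prod (s.erase x) d M z hM (Finset.card_erase_le.trans hsd) hzM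
          (fun y hy => hs8 y (Finset.mem_of_mem_erase hy))
      have h4 := cl2_add (k := τ + 12 + 9 * d) hM h2
        (cl2_mul hM h3 (cl2_wr A B d M hM hdM hA hB hcA hcB z hz) (norm_nonneg _))
        (by omega) (by omega)
      rw [show τ + 13 + 9 * d = τ + 12 + 9 * d + 1 by ring]
      exact h4
    · rw [← pow_add]
      exact cl2_mul hM (pow_le_pow_left₀ (by norm_num) hM _) le_rfl (by positivity)
  rw [cl2_ident A B nxt P α w l s t p (2 * d + 1) (by omega) (hg.symm.trans hfac) hp' hB0 horb hw0]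
  have b1 : ‖∑ x ∈ s, qf P α x * t x‖ ≤
      ∑ x ∈ s, ‖qf P α x‖ * ‖B.eval x‖ ^ 4 / ‖(wr A B).eval x‖ ^ 2 := by
    refine (norm_sum_le _ _).trans (le_of_eq (Finset.sum_congr rfl fun x _ => ?_))
    rw [norm_mul, htn, mul_div_assoc]
  have b2 : ‖∑ i, bet A B nxt P α i * ∑ x ∈ s, t x / (P i - x)‖ ≤
      ε * M ^ (1 + (1 + (τ + (9 * d + 5)))) := by
    refine (norm_sum_le _ _).trans (cl2_sum' _ _ hε hM (by simpa using hι) fun i _ => ?_)
    rw [norm_mul]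
    refine mul_le_mul (hbet i) ?_ (norm_nonneg _) hε
    refine (norm_sum_le _ _).trans (cl2_sum s _ hM hsM fun x hx => ?_)
    rw [norm_div, div_eq_mul_inv]
    exact cl2_mul hM (htb x hx) (hdP x hx i) (by positivity)
  have b3 : ‖∑ μ ∈ Finset.range (2 * d + 1), p.coeff μ * fm B nxt P α μ‖ ≤
      ε * M ^ (3 + (2 * d + (τ + 13 + 9 * d + 4))) := by
    refine (norm_sum_le _ _).trans (cl2_sum' _ _ hε hM ?_ fun μ hμ => ?_)
    · rw [Finset.card_range]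
      push_cast
      have h1 : 4 ≤ M ^ 2 := by nlinarith
      have h2 : M * 4 ≤ M * M ^ 2 := by gcongr
      have h3 : M ^ 3 = M * M ^ 2 := by ring
      linarith
    · rw [norm_mul, mul_comm]
      exact mul_le_mul (hfm μ (Nat.lt_succ_iff.mp (Finset.mem_range.mp hμ))) (hpc μ)
        (norm_nonneg _) hε
  have b4 : M ^ (1 + (1 + (τ + (9 * d + 5)))) + M ^ (3 + (2 * d + (τ + 13 + 9 * d + 4))) ≤
      M ^ (τ + 21 + 11 * d) := by
    rw [show τ + 21 + 11 * d = τ + 20 + 11 * d + 1 by ring]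
    exact cl2_add hM le_rfl le_rfl (by omega) (by omega)
  have b5 := mul_le_mul_of_nonneg_left b4 hε
  refine (norm_sub_le _ _).trans ?_
  have b6 := norm_add_le (∑ x ∈ s, qf P α x * t x)
    (∑ i, bet A B nxt P α i * ∑ x ∈ s, t x / (P i - x))
  linarith

end Pool.Agent.Lib.MP_0dd0d9_ag
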