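import Pool.Agent.Lib.MP_0dd0d9_ag.CL1
import Pool.Agent.Lib.MP_0dd0d9_ag.CL2

/-!
TASK g0d CL3.  The contraction inequality for the total mass.
-/

namespace Pool.Agent.Lib.MP_0dd0d9_ag

open Polynomial MeasureTheory

/-- Integration of a radial function in polar coordinates. -/
lemma cl3_radial (g : ℝ → ENNReal) (hg : Measurable g) :
    ∫⁻ w : ℂ, g ‖w‖ =
      (∫⁻ t in Set.Ioi (0 : ℝ), ENNReal.ofReal t * g t) * ENNReal.ofReal (2 * Real.pi) := by
  rw [← Complex.lintegral_comp_polarCoord_symm, polarCoord_target]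
  have h1 : ∫⁻ p in Set.Ioi (0 : ℝ) ×ˢ Set.Ioo (-Real.pi) Real.pi,
      ENNReal.ofReal p.1 • g ‖Complex.polarCoord.symm p‖
      = ∫⁻ p in Set.Ioi (0 : ℝ) ×ˢ Set.Ioo (-Real.pi) Real.pi,
        (ENNReal.ofReal p.1 * g p.1) * (1 : ENNReal) := by
    refine setLIntegral_congr_fun (measurableSet_Ioi.prod measurableSet_Ioo) fun p hp => ?_
    have : 0 < p.1 := hp.1
    simp only [Complex.norm_polarCoord_symm, abs_of_pos this, smul_eq_mul, mul_one]
  rw [h1, Measure.volume_eq_prod, ← Measure.prod_restrict,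
    lintegral_prod_mul (f := fun t : ℝ => ENNReal.ofReal t * g t) (g := fun _ : ℝ => (1 : ENNReal))
      (ENNReal.measurable_ofReal.mul hg).aemeasurable aemeasurable_const]
  congr 1
  rw [lintegral_const, Measure.restrict_apply MeasurableSet.univ, Set.univ_inter, Real.volume_Ioo,
    one_mul]
  congr 1
  ring

lemma cl3_area (y : ℂ) {r : ℝ} (hr : 0 ≤ r) :
    volume (Metric.closedBall y r) = ENNReal.ofReal (r ^ 2 * Real.pi) := by
  rw [Complex.volume_closedBall, ENNReal.ofReal_mul (by positivity), ENNReal.ofReal_pow hr,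
    ← NNReal.coe_real_pi, ENNReal.ofReal_coe_nnreal]

lemma cl3_area_ball (y : ℂ) {r : ℝ} (hr : 0 ≤ r) :
    volume (Metric.ball y r) = ENNReal.ofReal (r ^ 2 * Real.pi) := by
  rw [← cl3_area y hr, Measure.addHaar_closedBall_eq_addHaar_ball]

lemma cl3_centre (a : ℂ) {R : ℝ} (hR : 0 ≤ R) :
    ∫⁻ w in Metric.closedBall a R, ENNReal.ofReal (‖w - a‖⁻¹)
      ≤ ENNReal.ofReal (R * (2 * Real.pi)) := by
  have hg : Measurable ((Set.Iic R).indicator (fun t : ℝ => ENNReal.ofReal t⁻¹)) :=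
    (ENNReal.measurable_ofReal.comp measurable_inv).indicator measurableSet_Iic
  have h1 : ∫⁻ w in Metric.closedBall a R, ENNReal.ofReal (‖w - a‖⁻¹)
      = ∫⁻ w : ℂ, (Set.Iic R).indicator (fun t : ℝ => ENNReal.ofReal t⁻¹) ‖w - a‖ := by
    rw [← lintegral_indicator measurableSet_closedBall]
    refine lintegral_congr fun w => ?_
    by_cases hw : ‖w - a‖ ≤ R
    · rw [Set.indicator_of_mem (by simpa [dist_eq_norm] using hw),
        Set.indicator_of_mem (show ‖w - a‖ ∈ Set.Iic R from hw)]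
    · rw [Set.indicator_of_notMem (by simpa [dist_eq_norm] using hw),
        Set.indicator_of_notMem (show ‖w - a‖ ∉ Set.Iic R from hw)]
  rw [h1, lintegral_sub_right_eq_self
    (fun w : ℂ => (Set.Iic R).indicator (fun t : ℝ => ENNReal.ofReal t⁻¹) ‖w‖) a,
    cl3_radial _ hg, ENNReal.ofReal_mul hR]
  gcongr
  calc ∫⁻ t in Set.Ioi (0 : ℝ),
        ENNReal.ofReal t * (Set.Iic R).indicator (fun t : ℝ => ENNReal.ofReal t⁻¹) t
      ≤ ∫⁻ t in Set.Ioi (0 : ℝ), (Set.Iic R).indicator (fun _ => (1 : ENNReal)) t := by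
        refine setLIntegral_mono' measurableSet_Ioi fun t ht => ?_
        have ht0 : 0 < t := ht
        by_cases h : t ∈ Set.Iic R
        · rw [Set.indicator_of_mem h, Set.indicator_of_mem h, ← ENNReal.ofReal_mul ht0.le,
            mul_inv_cancel₀ ht0.ne', ENNReal.ofReal_one]
        · rw [Set.indicator_of_notMem h, Set.indicator_of_notMem h, mul_zero]
    _ = ENNReal.ofReal R := by
        rw [lintegral_indicator measurableSet_Iic, Measure.restrict_restrict measurableSet_Iic,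
          setLIntegral_const, one_mul, Set.inter_comm, Set.Ioi_inter_Iic, Real.volume_Ioc, sub_zero]

/-- Mass of `1 / ‖w - a‖` on a disc: if `‖y - a‖ ≤ 2 r` compare with the disc of centre `a` and
radius `3 r` (polar coordinates, `Complex.lintegral_comp_polarCoord_symm`), otherwise the
integrand is at most `1 / r`. -/
theorem lintegral_inv_norm_ball (a y : ℂ) {r : ℝ} (hr : 0 ≤ r) :
    ∫⁻ w in Metric.closedBall y r, ENNReal.ofReal (‖w - a‖⁻¹) ≤ ENNReal.ofReal (19 * r) := by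
  have hpi := Real.pi_lt_d2
  by_cases h : ‖y - a‖ ≤ 2 * r
  · have hsub : Metric.closedBall y r ⊆ Metric.closedBall a (3 * r) := by
      refine Metric.closedBall_subset_closedBall' ?_
      rw [dist_eq_norm]
      linarith
    refine (lintegral_mono_set hsub).trans ((cl3_centre a (by positivity)).trans ?_)
    refine ENNReal.ofReal_le_ofReal ?_
    nlinarith
  · rcases hr.eq_or_lt with rfl | hr0
    · rw [setLIntegral_measure_zero _ _ (by rw [cl3_area y le_rfl]; simp)]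
      exact zero_le
    · calc ∫⁻ w in Metric.closedBall y r, ENNReal.ofReal (‖w - a‖⁻¹)
          ≤ ∫⁻ _ in Metric.closedBall y r, ENNReal.ofReal r⁻¹ := by
            refine setLIntegral_mono' measurableSet_closedBall fun w hw => ?_
            refine ENNReal.ofReal_le_ofReal (inv_anti₀ hr0 ?_)
            rw [Metric.mem_closedBall, dist_eq_norm] at hw
            have h3 : ‖y - a‖ ≤ ‖w - y‖ + ‖w - a‖ := by
              have := norm_sub_le (w - a) (w - y)
              rw [show w - a - (w - y) = y - a by ring] at this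
              linarith
            linarith
        _ = ENNReal.ofReal (r⁻¹ * (r ^ 2 * Real.pi)) := by
            rw [setLIntegral_const, cl3_area y hr, ← ENNReal.ofReal_mul (by positivity)]
        _ ≤ ENNReal.ofReal (19 * r) := by
            refine ENNReal.ofReal_le_ofReal ?_
            have : r⁻¹ * (r ^ 2 * Real.pi) = r * Real.pi := by field_simp
            rw [this]
            nlinarith

theorem lintegral_tail {M : ℝ} (hM : 0 < M) :
    ∫⁻ w in (Metric.closedBall (0 : ℂ) M)ᶜ, ENNReal.ofReal (‖w‖⁻¹ ^ 3) ≤ ENNReal.ofReal (7 / M) := by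
  have hpi := Real.pi_lt_d2
  have hg : Measurable ((Set.Ioi M).indicator (fun t : ℝ => ENNReal.ofReal (t⁻¹ ^ 3))) :=
    (ENNReal.measurable_ofReal.comp (measurable_inv.pow_const 3)).indicator measurableSet_Ioi
  have h1 : ∫⁻ w in (Metric.closedBall (0 : ℂ) M)ᶜ, ENNReal.ofReal (‖w‖⁻¹ ^ 3)
      = ∫⁻ w : ℂ, (Set.Ioi M).indicator (fun t : ℝ => ENNReal.ofReal (t⁻¹ ^ 3)) ‖w‖ := by
    rw [← lintegral_indicator measurableSet_closedBall.compl]
    refine lintegral_congr fun w => ?_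
    by_cases hw : M < ‖w‖
    · rw [Set.indicator_of_mem (by simpa using hw),
        Set.indicator_of_mem (show ‖w‖ ∈ Set.Ioi M from hw)]
    · rw [Set.indicator_of_notMem (by simpa using hw),
        Set.indicator_of_notMem (show ‖w‖ ∉ Set.Ioi M from hw)]
  have h2 : ∫⁻ t in Set.Ioi (0 : ℝ),
      ENNReal.ofReal t * (Set.Ioi M).indicator (fun t : ℝ => ENNReal.ofReal (t⁻¹ ^ 3)) t
      = ENNReal.ofReal M⁻¹ := by
    calc ∫⁻ t in Set.Ioi (0 : ℝ),
        ENNReal.ofReal t * (Set.Ioi M).indicator (fun t : ℝ => ENNReal.ofReal (t⁻¹ ^ 3)) t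
        = ∫⁻ t in Set.Ioi (0 : ℝ),
          (Set.Ioi M).indicator (fun t : ℝ => ENNReal.ofReal (t ^ (-2 : ℝ))) t := by
          refine setLIntegral_congr_fun measurableSet_Ioi fun t ht => ?_
          have ht0 : 0 < t := ht
          by_cases h : t ∈ Set.Ioi M
          · simp only [Set.indicator_of_mem h]
            rw [← ENNReal.ofReal_mul ht0.le, Real.rpow_neg ht0.le, Real.rpow_two]
            congr 1
            field_simp
          · simp only [Set.indicator_of_notMem h, mul_zero]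
      _ = ∫⁻ t in Set.Ioi M, ENNReal.ofReal (t ^ (-2 : ℝ)) := by
          rw [lintegral_indicator measurableSet_Ioi, Measure.restrict_restrict measurableSet_Ioi,
            Set.Ioi_inter_Ioi, sup_eq_left.2 hM.le]
      _ = ENNReal.ofReal (∫ t in Set.Ioi M, t ^ (-2 : ℝ)) := by
          rw [ofReal_integral_eq_lintegral_ofReal (integrableOn_Ioi_rpow_of_lt (by norm_num) hM)]
          filter_upwards [ae_restrict_mem measurableSet_Ioi] with t ht
          exact Real.rpow_nonneg (hM.trans ht).le _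
      _ = ENNReal.ofReal M⁻¹ := by
          rw [integral_Ioi_rpow_of_lt (by norm_num) hM]
          congr 1
          rw [show (-2 : ℝ) + 1 = -1 by norm_num, Real.rpow_neg_one]
          ring
  rw [h1, cl3_radial _ hg, h2, ← ENNReal.ofReal_mul (by positivity)]
  refine ENNReal.ofReal_le_ofReal ?_
  rw [div_eq_mul_inv, mul_comm 7]
  gcongr
  linarith

section mass

variable {ι : Type} [Fintype ι]

lemma cl3_meas (P α : ι → ℂ) : Measurable fun w => ‖qf P α w‖ := by
  unfold qf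
  fun_prop

/-- Mass on a disc. -/
lemma cl3_disc (P α : ι → ℂ) {K0 : ℝ} (hK : 1 ≤ K0) (hι : (Fintype.card ι : ℝ) ≤ K0)
    (hα : ∀ i, ‖α i‖ ≤ K0) (y : ℂ) {ρ : ℝ} (hρ : 0 ≤ ρ) :
    ∫⁻ w in Metric.closedBall y ρ, ENNReal.ofReal ‖qf P α w‖
      ≤ ENNReal.ofReal (19 * K0 ^ 2 * ρ) := by
  calc ∫⁻ w in Metric.closedBall y ρ, ENNReal.ofReal ‖qf P α w‖
      ≤ ∫⁻ w in Metric.closedBall y ρ,
          ∑ i, ENNReal.ofReal K0 * ENNReal.ofReal (‖w - P i‖⁻¹) := by
        refine lintegral_mono fun w => ?_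
        simp only [← ENNReal.ofReal_mul (show 0 ≤ K0 by linarith)]
        rw [← ENNReal.ofReal_sum_of_nonneg (fun i _ => by positivity)]
        refine ENNReal.ofReal_le_ofReal ((norm_sum_le _ _).trans (Finset.sum_le_sum fun i _ => ?_))
        rw [norm_div, div_eq_mul_inv]
        gcongr
        exact hα i
    _ = ∑ i, ENNReal.ofReal K0 *
          ∫⁻ w in Metric.closedBall y ρ, ENNReal.ofReal (‖w - P i‖⁻¹) := by
        rw [lintegral_finsetSum _ (fun i _ => by fun_prop)]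
        refine Finset.sum_congr rfl fun i _ => ?_
        rw [lintegral_const_mul _ (by fun_prop)]
    _ ≤ ∑ _i : ι, ENNReal.ofReal K0 * ENNReal.ofReal (19 * ρ) := by
        gcongr with i
        exact lintegral_inv_norm_ball _ _ hρ
    _ = ENNReal.ofReal ((Fintype.card ι : ℝ) * (K0 * (19 * ρ))) := by
        rw [Finset.sum_const, Finset.card_univ, nsmul_eq_mul,
          ← ENNReal.ofReal_mul (by linarith), ENNReal.ofReal_mul (Nat.cast_nonneg _),
          ENNReal.ofReal_natCast]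
    _ ≤ ENNReal.ofReal (19 * K0 ^ 2 * ρ) := by
        refine ENNReal.ofReal_le_ofReal ?_
        calc (Fintype.card ι : ℝ) * (K0 * (19 * ρ)) ≤ K0 * (K0 * (19 * ρ)) := by gcongr
          _ = _ := by ring

/-- Decay at infinity when the first two moments vanish. -/
lemma cl3_decay (P α : ι → ℂ) {K0 : ℝ} (hK : 1 ≤ K0) (hι : (Fintype.card ι : ℝ) ≤ K0)
    (hP : ∀ i, ‖P i‖ ≤ K0) (hα : ∀ i, ‖α i‖ ≤ K0) (h0 : ∑ i, α i = 0) (h1 : ∑ i, α i * P i = 0)
    {w : ℂ} (hw : 2 * K0 ≤ ‖w‖) : ‖qf P α w‖ ≤ 2 * K0 ^ 4 * ‖w‖⁻¹ ^ 3 := by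
  have hw0 : 0 < ‖w‖ := by linarith
  have hw1 : w ≠ 0 := norm_pos_iff.1 hw0
  have hd : ∀ i, ‖w‖ / 2 ≤ ‖w - P i‖ := fun i => by
    have := norm_sub_norm_le w (P i)
    linarith [hP i]
  have hne : ∀ i, w - P i ≠ 0 := fun i => norm_pos_iff.1 (lt_of_lt_of_le (by linarith) (hd i))
  have e : qf P α w = ∑ i, α i * P i ^ 2 / (w ^ 2 * (w - P i)) := by
    have : ∀ i, α i / (w - P i)
        = α i / w + α i * P i / w ^ 2 + α i * P i ^ 2 / (w ^ 2 * (w - P i)) := fun i => by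
      have := hne i
      field_simp
      ring
    unfold qf
    simp only [this]
    rw [Finset.sum_add_distrib, Finset.sum_add_distrib, ← Finset.sum_div, ← Finset.sum_div, h0, h1]
    simp
  rw [e]
  refine (norm_sum_le _ _).trans ?_
  calc ∑ i, ‖α i * P i ^ 2 / (w ^ 2 * (w - P i))‖
      ≤ ∑ _i : ι, K0 * K0 ^ 2 / (‖w‖ ^ 2 * (‖w‖ / 2)) := by
        refine Finset.sum_le_sum fun i _ => ?_
        rw [norm_div, norm_mul, norm_mul, norm_pow, norm_pow]
        gcongr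
        · exact hα i
        · exact hP i
        · exact hd i
    _ = (Fintype.card ι : ℝ) * (K0 * K0 ^ 2 / (‖w‖ ^ 2 * (‖w‖ / 2))) := by
        rw [Finset.sum_const, Finset.card_univ, nsmul_eq_mul]
    _ ≤ K0 * (K0 * K0 ^ 2 / (‖w‖ ^ 2 * (‖w‖ / 2))) := by gcongr
    _ = _ := by field_simp

/-- Mass outside the big disc. -/
lemma cl3_far (P α : ι → ℂ) {K0 M : ℝ} (hK : 1 ≤ K0) (hM : 2 * K0 ≤ M)
    (hι : (Fintype.card ι : ℝ) ≤ K0)
    (hP : ∀ i, ‖P i‖ ≤ K0) (hα : ∀ i, ‖α i‖ ≤ K0) (h0 : ∑ i, α i = 0) (h1 : ∑ i, α i * P i = 0) :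
    ∫⁻ w in (Metric.closedBall (0 : ℂ) M)ᶜ, ENNReal.ofReal ‖qf P α w‖
      ≤ ENNReal.ofReal (14 * K0 ^ 4 / M) := by
  have hM0 : 0 < M := by linarith
  calc ∫⁻ w in (Metric.closedBall (0 : ℂ) M)ᶜ, ENNReal.ofReal ‖qf P α w‖
      ≤ ∫⁻ w in (Metric.closedBall (0 : ℂ) M)ᶜ,
          ENNReal.ofReal (2 * K0 ^ 4) * ENNReal.ofReal (‖w‖⁻¹ ^ 3) := by
        refine setLIntegral_mono' measurableSet_closedBall.compl fun w hw => ?_
        rw [← ENNReal.ofReal_mul (by positivity)]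
        refine ENNReal.ofReal_le_ofReal (cl3_decay P α hK hι hP hα h0 h1 ?_)
        have : M < ‖w‖ := by simpa using hw
        linarith
    _ = ENNReal.ofReal (2 * K0 ^ 4) *
          ∫⁻ w in (Metric.closedBall (0 : ℂ) M)ᶜ, ENNReal.ofReal (‖w‖⁻¹ ^ 3) :=
        lintegral_const_mul _ (by fun_prop)
    _ ≤ ENNReal.ofReal (2 * K0 ^ 4) * ENNReal.ofReal (7 / M) := by
        gcongr
        exact lintegral_tail hM0
    _ = _ := by
        rw [← ENNReal.ofReal_mul (by positivity)]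
        congr 1
        ring

/-- Mass on a finite union of small discs. -/
lemma cl3_discs {κ : Type} [Fintype κ] (P α : ι → ℂ) {K0 : ℝ} (hK : 1 ≤ K0)
    (hι : (Fintype.card ι : ℝ) ≤ K0) (hα : ∀ i, ‖α i‖ ≤ K0) (y : κ → ℂ) {ρ N : ℝ} (hρ : 0 ≤ ρ)
    (hN : (Fintype.card κ : ℝ) ≤ N) :
    ∫⁻ w in ⋃ k, Metric.closedBall (y k) ρ, ENNReal.ofReal ‖qf P α w‖
      ≤ ENNReal.ofReal (N * (19 * K0 ^ 2 * ρ)) := by
  refine (lintegral_iUnion_le _ _).trans ?_
  rw [tsum_fintype]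
  calc ∑ k, ∫⁻ w in Metric.closedBall (y k) ρ, ENNReal.ofReal ‖qf P α w‖
      ≤ ∑ _k : κ, ENNReal.ofReal (19 * K0 ^ 2 * ρ) :=
        Finset.sum_le_sum fun k _ => cl3_disc P α hK hι hα _ hρ
    _ = ENNReal.ofReal ((Fintype.card κ : ℝ) * (19 * K0 ^ 2 * ρ)) := by
        rw [Finset.sum_const, Finset.card_univ, nsmul_eq_mul,
          ENNReal.ofReal_mul (Nat.cast_nonneg _), ENNReal.ofReal_natCast]
    _ ≤ _ := by
        refine ENNReal.ofReal_le_ofReal ?_
        gcongr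

end mass

lemma cl3_gen {a b w : ℂ} {s t : ℝ} (hs : 0 < s) (hb : s ≤ ‖b‖)
    (hw : w ∉ Metric.closedBall (a / b) t) : t * s ≤ ‖a - w * b‖ := by
  have hb0 : b ≠ 0 := norm_pos_iff.1 (hs.trans_le hb)
  rw [Metric.mem_closedBall, dist_eq_norm, not_le] at hw
  have e : a - w * b = -((w - a / b) * b) := by field_simp; ring
  rw [e, norm_neg, norm_mul]
  gcongr

lemma cl3_top {a b w : ℂ} {M : ℝ} (hM : 2 ≤ M) (hab : M⁻¹ ≤ max ‖a‖ ‖b‖) (hw : ‖w‖ ≤ M)
    (hw' : w ∉ Metric.closedBall (a / b) M⁻¹) : M⁻¹ ^ 4 ≤ ‖a - w * b‖ := by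
  have hM0 : 0 < M := by linarith
  have hi : 0 < M⁻¹ := by positivity
  have hi2 : M⁻¹ ≤ 1 / 2 := by rw [one_div]; exact inv_anti₀ (by norm_num) hM
  by_cases hb : M⁻¹ ^ 3 ≤ ‖b‖
  · have := cl3_gen (by positivity) hb hw'
    rwa [← pow_succ'] at this
  · rw [not_le] at hb
    have h2 : M⁻¹ ^ 2 ≤ M⁻¹ / 2 := by nlinarith
    have h3 : M⁻¹ ^ 3 ≤ M⁻¹ ^ 2 := pow_le_pow_of_le_one hi.le (by linarith) (by norm_num)
    have h4 : M⁻¹ ^ 4 ≤ M⁻¹ ^ 2 := pow_le_pow_of_le_one hi.le (by linarith) (by norm_num)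
    have ha : M⁻¹ ≤ ‖a‖ := by
      rcases le_max_iff.1 hab with h | h
      · exact h
      · linarith
    have h5 : ‖w * b‖ ≤ M⁻¹ ^ 2 := by
      rw [norm_mul]
      calc ‖w‖ * ‖b‖ ≤ M * M⁻¹ ^ 3 := by gcongr
        _ = M⁻¹ ^ 2 := by field_simp
    have h6 := norm_sub_norm_le a (w * b)
    linarith

/-- Let `G` be the closed set of `w` satisfying the four genericity conditions of `cl2`.  Its
complement lies in the union of `{M < ‖w‖}`, the discs of radius `1 / M` about the `P i` and about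
`A (c i) / B (c i)`, and, if `M ^ (-3) ≤ ‖B_d‖`, about `A_d / B_d` (otherwise the last condition can
only fail when `M < ‖w‖`).  With vanishing moments `qf w = ∑ α i * P i ^ 2 / (w ^ 2 * (w - P i))`, so
the mass of `‖qf‖` on the complement of `G` is at most `100 K0 ^ 4 / M` and the total mass is finite.
With `Dw = ball w0 r`: total mass `≥ ∫ push` (`area_ineq`)
`≥ (1 + cc) * ∫_Dw ‖qf‖ + ∫_(G \ Dw) ‖qf‖ - ε M ^ D * area (closedBall 0 M)`, while total mass
`≤ ∫_Dw + ∫_(G \ Dw) + ∫_(Gᶜ)`.  Cancel the finite terms. -/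
theorem cl3 (d : ℕ) (hd : 2 ≤ d) : ∃ D : ℕ, ∀ {ι : Type} [Fintype ι] [DecidableEq ι] (A B : ℂ[X])
    (nxt : ι ≃ ι) (P α : ι → ℂ) (K0 M ε : ℝ) (lw : ℂ) (c : Fin (2 * d - 2) → ℂ),
    1 ≤ K0 → 2 * K0 ≤ M → (d : ℝ) ≤ K0 → (Fintype.card ι : ℝ) ≤ K0 →
    A.natDegree ≤ d → B.natDegree ≤ d → (∀ i, ‖A.coeff i‖ ≤ M) → (∀ i, ‖B.coeff i‖ ≤ M) →
    M⁻¹ ≤ max ‖A.coeff d‖ ‖B.coeff d‖ →
    wr A B = C lw * ∏ i, (X - C (c i)) → M⁻¹ ≤ ‖lw‖ → (∀ i, ‖c i‖ ≤ M) →
    (∀ i, M⁻¹ ≤ ‖B.eval (c i)‖) →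
    (∀ i, ‖P i‖ ≤ K0) → (∀ i, M⁻¹ ≤ ‖B.eval (P i)‖) →
    (∀ i, A.eval (P i) = P (nxt i) * B.eval (P i)) →
    (∀ i, ‖α i‖ ≤ K0) → ∑ i, α i = 0 → ∑ i, α i * P i = 0 →
    (∀ i, ‖bet A B nxt P α i‖ ≤ ε) → (∀ μ, μ ≤ 2 * d → ‖fm B nxt P α μ‖ ≤ ε) → 0 ≤ ε →
    ∀ (w0 : ℂ) (r cc m0 : ℝ), 0 ≤ r → 0 ≤ cc → 0 ≤ m0 →
    (∀ w, ‖w - w0‖ < r → m0 ≤ ‖qf P α w‖ ∧ (1 + cc) * ‖qf P α w‖ ≤ push A B P α w) →
    cc * m0 * r ^ 2 ≤ 1000 * K0 ^ 5 / M + ε * M ^ D := by
  obtain ⟨D, hD⟩ := cl2 d hd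
  refine ⟨D + 4, ?_⟩
  intro ι _ _ A B nxt P α K0 M ε lw c hK hM hdK hι hA hB hAc hBc hmax hwr hlw hc hBci hP hBP hAP
    hα h0 h1 hbet hfm hε w0 r cc m0 hr hcc hm0 hball
  have hM2 : 2 ≤ M := by linarith
  have hM0 : 0 < M := by linarith
  have hMi : 0 < M⁻¹ := by positivity
  have hKM : K0 ≤ M := by linarith
  set q : ℂ → ENNReal := fun w => ENNReal.ofReal ‖qf P α w‖ with hq
  have hqm : Measurable q := ENNReal.measurable_ofReal.comp (cl3_meas P α)
  set y : ι ⊕ Fin (2 * d - 2) ⊕ Unit → ℂ := Sum.elim P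
    (Sum.elim (fun i => A.eval (c i) / B.eval (c i)) (fun _ => A.coeff d / B.coeff d)) with hy
  set Bad : Set ℂ := (Metric.closedBall (0 : ℂ) M)ᶜ ∪ ⋃ k, Metric.closedBall (y k) M⁻¹ with hBad
  have hBm : MeasurableSet Bad :=
    measurableSet_closedBall.compl.union (MeasurableSet.iUnion fun _ => measurableSet_closedBall)
  have hcard : (Fintype.card (ι ⊕ Fin (2 * d - 2) ⊕ Unit) : ℝ) ≤ 3 * K0 := by
    have h2 : ((2 * d - 2 + 1 : ℕ) : ℝ) ≤ ((2 * d : ℕ) : ℝ) := by exact_mod_cast (by omega)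
    rw [Fintype.card_sum, Fintype.card_sum, Fintype.card_fin, Fintype.card_unit, Nat.cast_add]
    push_cast at h2 ⊢
    linarith
  have hBadmass : ∫⁻ w in Bad, q w ≤ ENNReal.ofReal (1000 * K0 ^ 5 / M) := by
    refine (lintegral_union_le _ _ _).trans ?_
    refine (add_le_add (cl3_far P α hK hM hι hP hα h0 h1)
      (cl3_discs P α hK hι hα y hMi.le hcard)).trans ?_
    rw [← ENNReal.ofReal_add (by positivity) (by positivity)]
    refine ENNReal.ofReal_le_ofReal ?_
    have e3 : K0 ^ 3 ≤ K0 ^ 5 := pow_le_pow_right₀ hK (by norm_num)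
    have e4 : K0 ^ 4 ≤ K0 ^ 5 := pow_le_pow_right₀ hK (by norm_num)
    have e5 : 0 ≤ K0 ^ 5 := by positivity
    calc 14 * K0 ^ 4 / M + 3 * K0 * (19 * K0 ^ 2 * M⁻¹) = (14 * K0 ^ 4 + 57 * K0 ^ 3) / M := by
          ring
      _ ≤ 1000 * K0 ^ 5 / M := by
          refine div_le_div_of_nonneg_right ?_ hM0.le
          linarith
  have hfin : ∫⁻ w, q w ≠ ⊤ := by
    rw [← lintegral_add_compl q (measurableSet_closedBall (x := (0 : ℂ)) (ε := M))]
    exact ENNReal.add_ne_top.2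
      ⟨ne_top_of_le_ne_top ENNReal.ofReal_ne_top (cl3_disc P α hK hι hα 0 hM0.le),
        ne_top_of_le_ne_top ENNReal.ofReal_ne_top (cl3_far P α hK hM hι hP hα h0 h1)⟩
  have harea : ∫⁻ w, ENNReal.ofReal (push A B P α w) ≤ ∫⁻ w, q w :=
    area_ineq A B (fun x => ‖qf P α x‖) (cl3_meas P α) (fun x => norm_nonneg _)
  have hpush0 : ∀ w, 0 ≤ push A B P α w := fun w =>
    Finset.sum_nonneg fun x _ => by positivity
  have hpt : ∀ w, q w + (Metric.ball w0 r).indicator (fun _ => ENNReal.ofReal (cc * m0)) w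
      ≤ ENNReal.ofReal (push A B P α w)
        + ((Metric.closedBall (0 : ℂ) M).indicator (fun _ => ENNReal.ofReal (ε * M ^ D)) w
          + Bad.indicator q w) := by
    intro w
    by_cases hw : w ∈ Metric.ball w0 r
    · rw [Set.indicator_of_mem hw]
      obtain ⟨h2, h3⟩ := hball w (by simpa [dist_eq_norm] using hw)
      refine le_trans ?_ le_self_add
      rw [hq, ← ENNReal.ofReal_add (norm_nonneg _) (by positivity)]
      refine ENNReal.ofReal_le_ofReal (le_trans ?_ h3)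
      have := mul_le_mul_of_nonneg_left h2 hcc
      linarith
    · rw [Set.indicator_of_notMem hw, add_zero]
      by_cases hb : w ∈ Bad
      · rw [Set.indicator_of_mem hb]
        exact le_add_left le_add_self
      · have hb' := hb
        simp only [hBad, Set.mem_union, Set.mem_compl_iff, Set.mem_iUnion, not_or, not_not,
          not_exists] at hb'
        obtain ⟨hb1, hb2⟩ := hb'
        have hwM : ‖w‖ ≤ M := by simpa using hb1
        rw [Set.indicator_of_mem hb1, ← add_assoc,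
          ← ENNReal.ofReal_add (hpush0 w) (by positivity)]
        refine le_add_right (ENNReal.ofReal_le_ofReal ?_)
        refine hD A B nxt P α M ε lw c w hM2 (hdK.trans hKM) (hι.trans hKM) hA hB hAc hBc hwr hlw hc
          (fun i => (hP i).trans hKM) hBP hAP hbet hfm hε hwM (fun i => ?_) (fun i => ?_) ?_
        · have := hb2 (Sum.inl i)
          rw [Metric.mem_closedBall, dist_eq_norm, not_le] at this
          exact this.le
        · rw [sq]
          exact cl3_gen hMi (hBci i) (hb2 (Sum.inr (Sum.inl i)))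
        · exact cl3_top hM2 hmax hwM (hb2 (Sum.inr (Sum.inr ())))
  have hint := lintegral_mono (μ := (volume : Measure ℂ)) hpt
  rw [lintegral_add_left hqm, lintegral_add_right _
      ((measurable_const.indicator measurableSet_closedBall).fun_add (hqm.indicator hBm)),
    lintegral_add_left (measurable_const.indicator measurableSet_closedBall),
    lintegral_indicator Metric.isOpen_ball.measurableSet,
    lintegral_indicator measurableSet_closedBall, lintegral_indicator hBm, setLIntegral_const,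
    setLIntegral_const, cl3_area _ hM0.le, cl3_area_ball _ hr,
    ← ENNReal.ofReal_mul (by positivity), ← ENNReal.ofReal_mul (by positivity)] at hint
  have h5 := (ENNReal.add_le_add_iff_left hfin).1
    (hint.trans (add_le_add harea (add_le_add le_rfl hBadmass)))
  rw [← ENNReal.ofReal_add (by positivity) (by positivity),
    ENNReal.ofReal_le_ofReal_iff (by positivity)] at h5
  have hpi1 := Real.pi_gt_three
  have hpi2 := Real.pi_lt_four
  have h6 : cc * m0 * r ^ 2 ≤ cc * m0 * (r ^ 2 * Real.pi) := by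
    have : r ^ 2 ≤ r ^ 2 * Real.pi := le_mul_of_one_le_right (by positivity) (by linarith)
    gcongr
  have h7 : ε * M ^ D * (M ^ 2 * Real.pi) ≤ ε * M ^ (D + 4) := by
    have : Real.pi ≤ M ^ 2 := by nlinarith
    calc ε * M ^ D * (M ^ 2 * Real.pi) ≤ ε * M ^ D * (M ^ 2 * M ^ 2) := by gcongr
      _ = _ := by ring
  linarith

end Pool.Agent.Lib.MP_0dd0d9_ag
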