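import Pool.Agent.Lib.MP_0dd0d9_ag.WD

/-!
TASK g0d Chart.  A chart in general position.
-/

namespace Pool.Agent.Lib.MP_0dd0d9_ag

open Polynomial

variable {K : Type*} [NormedField K] [IsUltrametricDist K] [IsAlgClosed K]
variable {d : ℕ} {F : Mp K} {h : ℝ}

omit [IsAlgClosed K] in
theorem chart_sum_le (e : ℕ) {q : K[X]} {M : ℝ} (hc : ∀ i, ‖q.coeff i‖ ≤ M) (x : V K) :
    ‖∑ μ : Fin (e + 1), q.coeff μ.val * (x 0 ^ μ.val * x 1 ^ (e - μ.val))‖ ≤ M * ‖x‖ ^ e := by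
  have hM : 0 ≤ M := (norm_nonneg _).trans (hc 0)
  refine IsUltrametricDist.norm_sum_le_of_forall_le_of_nonneg (by positivity) fun μ _ => ?_
  rw [norm_mul, norm_mul, norm_pow, norm_pow]
  have e1 : ‖x‖ ^ e = ‖x‖ ^ μ.val * ‖x‖ ^ (e - μ.val) := by
    rw [← pow_add, Nat.add_sub_cancel' (Nat.lt_succ_iff.1 μ.2)]
  rw [e1]
  have h0 := norm_le_pi_norm x 0
  have h1 := norm_le_pi_norm x 1
  have h2 := hc μ.val
  gcongr

omit [IsAlgClosed K] in
theorem chart_norm_one {y : K} (hy : ‖y‖ ≤ 1) : ‖(![y, 1] : V K)‖ = 1 := by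
  rw [norm_V]
  simpa using hy

theorem chart_coeff_le (hN : Res0 K) (hup : ∀ x, ‖app F x‖ ≤ Real.exp h * ‖x‖ ^ d) (j : Fin 2)
    (i : ℕ) : ‖(deh (F j)).coeff i‖ ≤ Real.exp h := by
  refine coeff_le_of_eval_le hN (fun y hy => ?_) i
  have h1 := (norm_le_pi_norm (app F ![y, 1]) j).trans (hup _)
  rw [chart_norm_one hy, one_pow, mul_one] at h1
  rw [eval_deh]
  exact h1

omit [IsAlgClosed K] in
theorem chart_generic (hN : Res0 K) {κ : Type*} [Finite κ] (y : κ → V K) :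
    ∃ s : ℕ, ∀ i, ‖(s : K) * y i 0 + y i 1‖ = ‖y i‖ := by
  obtain ⟨s, -, hs⟩ := exists_unit_generic hN (fun i => (![-y i 1, y i 0] : V K)) 0
  refine ⟨s, fun i => ?_⟩
  have h1 := hs i
  rw [norm_V] at h1
  rw [norm_V, max_comm]
  simpa [wedge] using h1

omit [IsUltrametricDist K] [IsAlgClosed K] in
theorem chart_coord {y : V K} {t : K} (ht : ‖t‖ = ‖y‖) :
    y 0 = t * (y 0 / t) ∧ ‖y 0 / t‖ ≤ 1 := by
  have h0 := norm_le_pi_norm y 0
  refine ⟨?_, by rw [norm_div]; exact div_le_one_of_le₀ (ht ▸ h0) (norm_nonneg _)⟩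
  by_cases h1 : t = 0
  · rw [← ht, h1, norm_zero, norm_le_zero_iff] at h0
    rw [h0, zero_div, mul_zero]
  · rw [mul_div_cancel₀ _ h1]

/-- Lower bound for the Gauss norm of a member of the pencil. -/
theorem chart_gn_low (hN : Res0 K) (hd : 1 ≤ d) (hF : IsHom d F)
    (hlow : ∀ x, Real.exp (-h) * ‖x‖ ^ d ≤ ‖app F x‖) (v : V K) :
    Real.exp (-h) * ‖v‖ ≤ gn (C (v 1) * deh (F 0) - C (v 0) * deh (F 1)) 0 1 := by
  have hnz : ∀ x, x ≠ 0 → app F x ≠ 0 := fun x hx => norm_pos_iff.1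
    ((mul_pos (Real.exp_pos _) (pow_pos (norm_pos_iff.2 hx) _)).trans_le (hlow x))
  obtain ⟨n, -, hn⟩ := exists_unit_generic hN (fun _ : Unit => v) 0
  have hu := chart_norm_one (norm_nat_le hN n)
  obtain ⟨x, -, hx⟩ := exists_preimage hF hd hnz (z := ![(n : K), 1])
    (norm_pos_iff.1 (by rw [hu]; exact one_pos))
  have h1 := hlow x
  have h2 := hn ()
  rw [hx, hu] at h1
  have h3 := chart_sum_le d (coeff_le_gn (C (v 1) * deh (F 0) - C (v 0) * deh (F 1))) x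
  have h4 : wedge (app F x) v = ∑ μ : Fin (d + 1),
      (C (v 1) * deh (F 0) - C (v 0) * deh (F 1)).coeff μ.val
        * (x 0 ^ μ.val * x 1 ^ (d - μ.val)) := by
    simp only [wedge, app]
    rw [eval_hom_eq_sum (hF 0), eval_hom_eq_sum (hF 1), Finset.sum_mul, Finset.sum_mul,
      ← Finset.sum_sub_distrib]
    refine Finset.sum_congr rfl fun μ _ => ?_
    rw [coeff_sub, coeff_C_mul, coeff_C_mul]
    ring
  rw [← h4, hx, h2] at h3
  have h5 := gn_nonneg (C (v 1) * deh (F 0) - C (v 0) * deh (F 1)) 0 zero_le_one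
  calc Real.exp (-h) * ‖v‖ ≤ Real.exp (-h) * (_ * ‖x‖ ^ d) :=
        mul_le_mul_of_nonneg_left h3 (Real.exp_pos _).le
    _ = _ * (Real.exp (-h) * ‖x‖ ^ d) := by ring
    _ ≤ _ := mul_le_of_le_one_right h5 h1

/-- The Wronskian is large somewhere on the unit disc. -/
theorem chart_wr_low (hN : Res0 K) (hd : 1 ≤ d) (hF : IsHom d F)
    (hlow : ∀ x, Real.exp (-h) * ‖x‖ ^ d ≤ ‖app F x‖) {ϖ : K} (h0 : 0 < ‖ϖ‖) (h1 : ‖ϖ‖ < 1) :
    ∃ y : K, ‖y‖ ≤ 1 ∧ Real.exp (-(2 * h)) ≤ ‖(wr (deh (F 0)) (deh (F 1))).eval y‖ := by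
  have hz : gn (0 : K[X]) 0 1 = 0 := by simp [gn]
  have b1 := chart_gn_low hN hd hF hlow ![-1, 0]
  have b2 : ‖(![-1, 0] : V K)‖ = 1 := by
    rw [norm_V]
    simp
  set A := deh (F 0)
  set B := deh (F 1)
  have b3 : Real.exp (-h) ≤ gn B 0 1 := by simpa [b2] using b1
  have hB : B ≠ 0 := fun hB => by
    rw [hB, hz] at b3
    exact absurd b3 (not_le.2 (Real.exp_pos _))
  obtain ⟨x, x1, x2⟩ := exists_gen hN hB 0 (one_ne_zero (α := K))
  rw [norm_one] at x1 x2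
  have x3 : ‖x - x‖ ≤ 1 := by simp
  have c1 := chart_gn_low hN hd hF hlow ![A.eval x, B.eval x]
  simp only [Matrix.cons_val_zero, Matrix.cons_val_one] at c1
  set g := C (B.eval x) * A - C (A.eval x) * B with hg
  have c2 : ‖B.eval x‖ = gn B 0 1 := gn_eq_of_gen x1.le x2
  have c3 : Real.exp (-h) ≤ ‖(![A.eval x, B.eval x] : V K)‖ :=
    (b3.trans_eq c2.symm).trans (norm_le_pi_norm (![A.eval x, B.eval x] : V K) 1)
  have c4 : Real.exp (-(2 * h)) ≤ gn g 0 1 := by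
    rw [show -(2 * h) = -h + -h by ring, Real.exp_add]
    exact (mul_le_mul_of_nonneg_left c3 (Real.exp_pos _).le).trans c1
  have hg0 : g ≠ 0 := fun hB => by
    rw [hB, hz] at c4
    exact absurd c4 (not_le.2 (Real.exp_pos _))
  have d1 : cnto B x 1 = 0 := (cnto_eq_zero_iff hB x 1).2 fun y hy => by
    rw [norm_sub_rev]
    exact x2 y hy
  have d2 : cnto g x 1 ≠ cnto B x 1 := fun hc => by
    have := (cnto_eq_zero_iff hg0 x 1).1 (hc.trans d1) x (by simp [hg, mul_comm])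
    rw [sub_self, norm_zero] at this
    linarith
  obtain ⟨w1, -, w2⟩ := wd_open hN h0 h1 hg0 hB x one_pos d2
  have w3 : wr g B = C (B.eval x) * wr A B := by
    simp only [wr, hg, derivative_sub, derivative_mul, derivative_C]
    ring
  rw [w3] at w1 w2
  rw [one_mul, gn_mul, gn_C, gn_congr g x1.le, gn_congr B x1.le, gn_congr _ x1.le, c2,
    mul_comm] at w2
  have w4 := mul_right_cancel₀ (gn_pos hB 0 one_pos).ne' w2
  obtain ⟨y, y1, y2⟩ := exists_gen hN (right_ne_zero_of_mul w1) 0 (one_ne_zero (α := K))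
  rw [norm_one] at y1 y2
  exact ⟨y, by simpa using y1.le, by rw [gn_eq_of_gen y1.le y2, w4]; exact c4⟩

/-- The shear. -/
def chartSh (s : K) (x : V K) : V K := ![x 0, s * x 0 + x 1]

omit [IsUltrametricDist K] [IsAlgClosed K] in
theorem chartSh_mulVec (s : K) (x : V K) : (!![1, 0; s, 1] : Matrix (Fin 2) (Fin 2) K).mulVec x
    = chartSh s x := by
  funext i
  fin_cases i <;> simp [chartSh, Matrix.mulVec, dotProduct, Fin.sum_univ_two]

omit [IsUltrametricDist K] [IsAlgClosed K] in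
theorem chartSh_neg (s : K) (x : V K) : chartSh (-s) (chartSh s x) = x := by
  funext i
  fin_cases i <;> simp [chartSh]

omit [IsAlgClosed K] in
theorem chartSh_norm {s : K} (hs : ‖s‖ ≤ 1) (x : V K) : ‖chartSh s x‖ = ‖x‖ := by
  have key : ∀ {s : K}, ‖s‖ ≤ 1 → ∀ x : V K, ‖chartSh s x‖ ≤ ‖x‖ := fun {s} hs x => by
    rw [← chartSh_mulVec]
    refine norm_mulVec_le (fun i j => ?_) x
    fin_cases i <;> fin_cases j <;> simp [hs]
  refine le_antisymm (key hs x) ?_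
  have := key (s := -s) (by rwa [norm_neg]) (chartSh s x)
  rwa [chartSh_neg] at this

omit [IsUltrametricDist K] [IsAlgClosed K] in
theorem chart_conj (hF : IsHom d F) (s : K) : ∃ G : Mp K, IsHom d G ∧
    (∀ x, app G x = chartSh s (app F (chartSh (-s) x))) ∧
    ∀ x, Dj d G x = Dj d F (chartSh (-s) x) := by
  refine ⟨cmp (lin !![1, 0; s, 1]) (cmp F (lin !![1, 0; -s, 1])), ?_, fun x => ?_, fun x => ?_⟩
  · simpa using isHom_cmp (isHom_lin _) (isHom_cmp hF (isHom_lin _))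
  · rw [app_cmp, app_cmp, app_lin, app_lin, chartSh_mulVec, chartSh_mulVec]
  · have h1 := Dj_cmp 1 (d * 1) (lin !![1, 0; s, 1]) (cmp F (lin !![1, 0; -s, 1])) x
    rw [Dj_cmp d 1, Dj_lin, Dj_lin, app_lin, chartSh_mulVec] at h1
    simpa [Matrix.det_fin_two] using h1

/-- The coefficients of `deh (F i)` have norm at most `exp h` (`coeff_le_of_eval_le`), so those of
the Wronskian at most `exp (2 h)`; use `deh_jac` and `eval_hom_eq_sum` for `jac F`. -/
theorem Good.Dj_le (hG : Good d F h) (hN : Res0 K) (hd : 1 ≤ d) (x : V K) :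
    ‖Dj d F x‖ ≤ Real.exp (2 * h) * ‖x‖ ^ (2 * d - 2) := by
  have hd0 : (d : K) ≠ 0 := norm_pos_iff.1 (by rw [hN d (by omega)]; exact one_pos)
  have h1 := chart_sum_le (2 * d - 2)
    (coeff_wr_le (chart_coeff_le hN hG.up 0) (chart_coeff_le hN hG.up 1)) x
  rw [← Real.exp_add, ← two_mul] at h1
  convert h1 using 2
  rw [Dj, eval_hom_eq_sum (jac_hom hG.hom), deh_jac hG.hom, div_eq_iff hd0, Finset.sum_mul]
  refine Finset.sum_congr rfl fun μ _ => ?_
  rw [coeff_C_mul]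
  ring

/-- Choose `s` generic (`exists_nat_generic`) so that `‖s * y 0 + y 1‖ = ‖y‖` for all `y` among
`p i`, `z i`, `cr i`, `app F (cr i)` and the vectors of a fibre over each `p i`.  Conjugate by
`g = !![1, 0; s, 1]` with inverse `g' = !![1, 0; -s, 1]`: `G = cmp (lin g) (cmp F (lin g'))`,
`A = deh (G 0)`, `B = deh (G 1)`; `g` preserves norms and wedges.
`wr A B (X) = Dj d F (g' ![X, 1]) = ∏ (t i * (X - c i))` where `g (cr i) = t i • ![c i, 1]`, so
`lw = ∏ t i`.  `glead`: `A_d - P j * B_d` is `wedge (app F e) (p j) / sc j` for `e = g' ![1, 0]`,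
whose norm is `∏ ‖y i‖ / ‖p j‖` (`Good.fib_lower`).  `lwlow`: `‖lw‖ = gn (wr A B) x0 1` for any
`‖x0‖ ≤ 1`; take `x0` generic for `B` (`exists_gen`), `v = app G ![x0, 1]`,
`g1 = C (v 1) * A - C (v 0) * B`, which vanishes at `x0`, and apply `wd_open` to `g1`, `B` at
centre `x0` and radius `1`: `wr g1 B = C (v 1) * wr A B`.  The bounds `exp (-h) * ‖v‖ ≤ gn g1 0 1`
and `exp (-h) ≤ gn B 0 1` follow from `coeff_le_gn`, `eval_hom_eq_sum` and a preimage of a unit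
vector in general position (`exists_preimage`). -/
theorem exists_chart (hG : Good d F h) (hN : Res0 K) (hd : 2 ≤ d) {ϖ : K} (h0 : 0 < ‖ϖ‖)
    (h1 : ‖ϖ‖ < 1) (cr : Fin (2 * d - 2) → V K) (hcr0 : ∀ i, cr i ≠ 0)
    (hcr : ∀ x, Dj d F x = ∏ i, wedge x (cr i)) {ι : Type*} [Finite ι] (nxt : ι ≃ ι)
    (p z : ι → V K) (hp0 : ∀ i, p i ≠ 0) (hp : ∀ i, app F (p i) = p (nxt i)) :
    ∃ (s : ℕ) (A B : K[X]) (lw : K) (c : Fin (2 * d - 2) → K) (P Z sc tc : ι → K),
      Chart d h A B lw c nxt P ∧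
      (∀ i, p i 0 = sc i * P i ∧ s * p i 0 + p i 1 = sc i ∧ ‖sc i‖ = ‖p i‖) ∧
      (∀ i, z i 0 = tc i * Z i ∧ s * z i 0 + z i 1 = tc i ∧ ‖tc i‖ = ‖z i‖ ∧ ‖Z i‖ ≤ 1) ∧
      ∀ (x : V K) (y t : K), x 0 = t * y → s * x 0 + x 1 = t →
        app F x 0 = t ^ d * A.eval y ∧ s * app F x 0 + app F x 1 = t ^ d * B.eval y ∧
          Dj d F x = t ^ (2 * d - 2) * (wr A B).eval y := by
  have hd1 : 1 ≤ d := by omega
  have hd0 : (d : K) ≠ 0 := norm_pos_iff.1 (by rw [hN d (by omega)]; exact one_pos)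
  choose fy fk _ _ hfib using fun j => exists_fib hG.hom hd1 hG.ne_zero (hp0 j)
  obtain ⟨s, hs⟩ := chart_generic hN (κ := (ι ⊕ ι) ⊕ (Fin (2 * d - 2) ⊕ Fin (2 * d - 2)) ⊕ ι × Fin d)
    (Sum.elim (Sum.elim p z) (Sum.elim (Sum.elim cr fun i => app F (cr i)) fun u => fy u.1 u.2))
  have s1 : ∀ i, ‖(s : K) * p i 0 + p i 1‖ = ‖p i‖ := fun i => hs (.inl (.inl i))
  have s2 : ∀ i, ‖(s : K) * z i 0 + z i 1‖ = ‖z i‖ := fun i => hs (.inl (.inr i))
  have s3 : ∀ i, ‖(s : K) * cr i 0 + cr i 1‖ = ‖cr i‖ := fun i => hs (.inr (.inl (.inl i)))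
  have s4 : ∀ i, ‖(s : K) * app F (cr i) 0 + app F (cr i) 1‖ = ‖app F (cr i)‖ :=
    fun i => hs (.inr (.inl (.inr i)))
  have s5 : ∀ j i, ‖(s : K) * fy j i 0 + fy j i 1‖ = ‖fy j i‖ := fun j i => hs (.inr (.inr (j, i)))
  have hs1 := norm_nat_le hN s
  have hs2 : ‖-(s : K)‖ ≤ 1 := by rwa [norm_neg]
  obtain ⟨G, g1, g2, g3⟩ := chart_conj hG.hom (s : K)
  have gup : ∀ x, ‖app G x‖ ≤ Real.exp h * ‖x‖ ^ d := fun x => by
    rw [g2, chartSh_norm hs1, ← chartSh_norm hs2 x]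
    exact hG.up _
  have glow : ∀ x, Real.exp (-h) * ‖x‖ ^ d ≤ ‖app G x‖ := fun x => by
    rw [g2, chartSh_norm hs1, ← chartSh_norm hs2 x]
    exact hG.low _
  have main : ∀ (x : V K) (y t : K), x 0 = t * y → s * x 0 + x 1 = t →
      app F x 0 = t ^ d * (deh (G 0)).eval y ∧
        s * app F x 0 + app F x 1 = t ^ d * (deh (G 1)).eval y ∧
        Dj d F x = t ^ (2 * d - 2) * (wr (deh (G 0)) (deh (G 1))).eval y := by
    intro x y t e1 e2
    have e3 : chartSh (s : K) x = t • ![y, 1] := by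
      funext i
      fin_cases i
      · simpa [chartSh] using e1
      · simpa [chartSh] using e2
    have e4 := g2 (chartSh s x)
    have e5 := g3 (chartSh s x)
    rw [chartSh_neg, e3] at e4 e5
    rw [app_smul g1] at e4
    rw [Dj_smul g1, Dj_one hd0 g1] at e5
    rw [eval_deh, eval_deh]
    exact ⟨(congrFun e4 0).symm, (congrFun e4 1).symm, e5.symm⟩
  have wfac : wr (deh (G 0)) (deh (G 1)) = C (∏ i, ((s : K) * cr i 0 + cr i 1)) *
      ∏ i, (X - C (cr i 0 / (s * cr i 0 + cr i 1))) := by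
    refine Polynomial.funext fun y => ?_
    have e1 := (main ![y, 1 - s * y] y 1 (by simp) (by simp)).2.2
    rw [one_pow, one_mul, hcr] at e1
    rw [← e1, eval_mul, eval_C, eval_prod, ← Finset.prod_mul_distrib]
    refine Finset.prod_congr rfl fun i _ => ?_
    rw [eval_sub, eval_X, eval_C, mul_sub, ← (chart_coord (s3 i)).1]
    simp only [wedge, Matrix.cons_val_zero, Matrix.cons_val_one]
    ring
  have hsc : ∀ i, (s : K) * p i 0 + p i 1 ≠ 0 := fun i =>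
    norm_pos_iff.1 (by rw [s1]; exact norm_pos_iff.2 (hp0 i))
  refine ⟨s, deh (G 0), deh (G 1), _, _, fun i => p i 0 / (s * p i 0 + p i 1),
    fun i => z i 0 / (s * z i 0 + z i 1), fun i => s * p i 0 + p i 1, fun i => s * z i 0 + z i 1,
    ⟨natDegree_deh_le (g1 0), natDegree_deh_le (g1 1), chart_coeff_le hN gup 0,
      chart_coeff_le hN gup 1, fun y hy => ?_, ?_, wfac, ?_, fun i => (chart_coord (s3 i)).2,
      fun i => ?_, fun i => (chart_coord (s1 i)).2, fun i => ?_, fun j => ?_⟩,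
    fun i => ⟨(chart_coord (s1 i)).1, rfl, s1 i⟩,
    fun i => ⟨(chart_coord (s2 i)).1, rfl, s2 i, (chart_coord (s2 i)).2⟩, main⟩
  · have e1 := glow ![y, 1]
    rw [chart_norm_one hy, one_pow, mul_one, norm_V] at e1
    rw [eval_deh, eval_deh]
    exact e1
  · have e1 := glow ![1, 0]
    have e2 : ‖(![1, 0] : V K)‖ = 1 := by
      rw [norm_V]
      simp
    rw [e2, one_pow, mul_one, norm_V] at e1
    rw [coeff_deh_top (g1 0), coeff_deh_top (g1 1)]
    exact e1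
  · obtain ⟨y, y1, y2⟩ := chart_wr_low hN hd1 g1 glow h0 h1
    rw [wfac, eval_mul, eval_C, eval_prod, norm_mul] at y2
    refine y2.trans (mul_le_of_le_one_right (norm_nonneg _) ?_)
    rw [norm_prod]
    refine Finset.prod_le_one (fun _ _ => norm_nonneg _) fun i _ => ?_
    rw [eval_sub, eval_X, eval_C, sub_eq_add_neg]
    exact (IsUltrametricDist.norm_add_le_max _ _).trans
      (max_le y1 (by rw [norm_neg]; exact (chart_coord (s3 i)).2))
  · obtain ⟨e1, e2, -⟩ := main (cr i) _ _ (chart_coord (s3 i)).1 rfl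
    have e3 := norm_le_pi_norm (app F (cr i)) 0
    rw [← s4, e2, e1, norm_mul, norm_mul, norm_pow, s3] at e3
    exact le_of_mul_le_mul_left e3 (pow_pos (norm_pos_iff.2 (hcr0 i)) _)
  · obtain ⟨e1, e2, -⟩ := main (p i) _ _ (chart_coord (s1 i)).1 rfl
    rw [hp] at e1 e2
    refine mul_left_cancel₀ (pow_ne_zero d (hsc i)) ?_
    rw [← e1, mul_left_comm, ← e2, mul_comm]
    exact (chart_coord (s1 (nxt i))).1
  · have e1 := (hfib j).1 (chartSh (-s) ![1, 0])
    have e2 := hG.fib_lower hN hd1 (hfib j)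
    have e3 : wedge (app F (chartSh (-s) ![1, 0])) (p j) = (s * p j 0 + p j 1) *
        ((deh (G 0)).coeff d - p j 0 / (s * p j 0 + p j 1) * (deh (G 1)).coeff d) := by
      have a0 : (deh (G 0)).coeff d = _ :=
        (coeff_deh_top (g1 0)).trans (congrFun (g2 ![1, 0]) 0)
      have a1 : (deh (G 1)).coeff d = _ :=
        (coeff_deh_top (g1 1)).trans (congrFun (g2 ![1, 0]) 1)
      rw [a0, a1, mul_sub, ← mul_assoc, ← (chart_coord (s1 j)).1]
      generalize app F (chartSh (-(s : K)) ![1, 0]) = u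
      simp only [wedge, chartSh, Matrix.cons_val_zero, Matrix.cons_val_one]
      ring
    have e4 : ∏ i, ‖fy j i‖ = ‖∏ i, wedge (chartSh (-(s : K)) ![1, 0]) (fy j i)‖ := by
      rw [norm_prod]
      refine Finset.prod_congr rfl fun i _ => ?_
      rw [← s5]
      congr 1
      simp [wedge, chartSh, add_comm]
    rw [e4, ← e1, e3, norm_mul, s1, mul_comm] at e2
    exact le_of_mul_le_mul_left e2 (norm_pos_iff.2 (hp0 j))

end Pool.Agent.Lib.MP_0dd0d9_ag
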