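import Pool.Agent.Lib.MP_0dd0d9_ag.CoreB

/-!
The global argument for the universal map.
-/

namespace Pool.Agent.Lib.MP_0dd0d9_ag

open Polynomial

theorem coeff_U_cases {K : Type*} [Field K] {d : ℕ} (c : Fin (2 * d + 1) → K) {P : K → Prop}
    (h0 : P 0) (h1 : P 1) (hc : ∀ j, P (c j)) :
    (∀ i, P ((aU d c).coeff i)) ∧ ∀ i, P ((bU d c).coeff i) := by
  refine ⟨fun i => ?_, fun i => ?_⟩
  · rw [coeff_aU]
    split_ifs
    · exact hc _
    · exact h0
  · rw [coeff_bU]
    split_ifs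
    · exact h1
    · exact hc _
    · exact h0

/-- The bounds for the tangent data at one place. -/
theorem core_tau {K : Type} [Field K] [Algebra ℂ K] {d : ℕ} (hd : 2 ≤ d)
    (c : Fin (2 * d + 1) → K) (av : AbsoluteValue K ℝ) (hna : IsNonarchimedean av)
    (E : IntermediateField ℂ K) (hcE : ∀ j, c j ∈ E) {x0 : K} (hxE : x0 ∈ E)
    (D : Derivation ℂ K K) {rr h hcv : ℝ} (hrr : 0 ≤ rr)
    (hD : ∀ x ∈ E, av x ≤ 1 → av (D x) ≤ Real.exp rr) {r s : K} (hr : r ≠ 0)
    (hhc : hcv = ∑ j, Real.posLog (av (c j))) (h0 : 0 ≤ Real.log (av r) + hcv)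
    (hh : 2 * d * (Real.log (av r) + hcv) < h) :
    (∀ (e : ℕ) (p : V K), p = (app (smulF r (FU d c)))^[e] (s • ![x0, 1]) →
      (∀ l, av (p l) ≤ Real.exp h) →
      av (wedge p fun l => D (p l)) ≤ Real.exp (2 * h + rr + hcv)) ∧
    ∀ μ, av (((C r * aU d c) * pco D (C r * bU d c) -
      (C r * bU d c) * pco D (C r * aU d c)).coeff μ) ≤ Real.exp (2 * h + rr + hcv) := by
  have hhc0 : 0 ≤ hcv := hhc ▸ Finset.sum_nonneg fun _ _ => Real.posLog_nonneg
  have hFU : IsHom d (FU d c) := isHom_mk d _ _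
  have hle : ∀ j, Real.posLog (av (c j)) ≤ hcv := fun j => hhc ▸
    Finset.single_le_sum (f := fun j => Real.posLog (av (c j))) (fun _ _ => Real.posLog_nonneg)
      (Finset.mem_univ j)
  refine ⟨fun e p hp hM => ?_, fun μ => ?_⟩
  · obtain ⟨t, -, ht⟩ := iter_smulF hFU hr e (s • ![x0, 1])
    rw [ht, iter_smul hFU, smul_smul] at hp
    obtain ⟨ca, cb⟩ := coeff_U_cases c (P := fun x => x ∈ E) (zero_mem E) (one_mem E) hcE
    have hy := iter_mem E (d := d) ca cb (x := ![x0, 1])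
      (fun l => by fin_cases l; exacts [hxE, one_mem E]) e
    refine (xi_le E av D (Real.exp_pos _).le hD hp hy hM).trans ?_
    rw [← Real.exp_nat_mul, ← Real.exp_add, Real.exp_le_exp]
    push_cast
    linarith
  · rw [eta_smul, coeff_C_mul, map_mul, map_pow]
    obtain ⟨ca, cb⟩ := coeff_U_cases c (P := fun x => av x ≤ Real.exp hcv)
      (by simp only [map_zero]; positivity) (by simp only [map_one]; exact Real.one_le_exp hhc0)
      fun j => (le_exp_posLog (av.nonneg _)).trans (Real.exp_le_exp.2 (hle j))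
    obtain ⟨da, db⟩ := coeff_U_cases c (P := fun x => av (D x) ≤ Real.exp hcv ^ 2 * Real.exp rr)
      (by simp only [map_zero]; positivity)
      (by simp only [Derivation.map_one_eq_zero, map_zero]; positivity)
      fun j => (der_le_sq E av D hD (hcE j)).trans (by
        have := Real.exp_le_exp.2 (hle j)
        gcongr)
    have h1 := av_coeff_comm_le av hna ca cb (a' := pco D (aU d c)) (b' := pco D (bU d c))
      (fun i => by rw [coeff_pco (map_zero D)]; exact da i)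
      (fun i => by rw [coeff_pco (map_zero D)]; exact db i) μ
    refine (mul_le_mul_of_nonneg_left h1 (by positivity)).trans ?_
    rw [← Real.exp_log (av.pos hr), ← Real.exp_nat_mul, ← Real.exp_nat_mul, ← Real.exp_add,
      ← Real.exp_add, ← Real.exp_add, Real.exp_le_exp]
    have hd1 : (2 : ℝ) ≤ d := by exact_mod_cast hd
    push_cast
    nlinarith

theorem core_coeff {K : Type} [Field K] {d : ℕ} (c : Fin (2 * d + 1) → K)
    (av : AbsoluteValue K ℝ) {r : K} (hr : r ≠ 0) (i : Fin 2) (m : Fin 2 →₀ ℕ) :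
    av (MvPolynomial.coeff m (smulF r (FU d c) i)) ≤
      Real.exp (Real.log (av r) + ∑ j, Real.posLog (av (c j))) := by
  obtain ⟨ca, cb⟩ := coeff_U_cases c
    (P := fun x => av x ≤ Real.exp (∑ j, Real.posLog (av (c j))))
    (by simp only [map_zero]; positivity)
    (by simp only [map_one]; exact Real.one_le_exp (Finset.sum_nonneg fun _ _ => Real.posLog_nonneg))
    fun j => (le_exp_posLog (av.nonneg _)).trans (Real.exp_le_exp.2
      (Finset.single_le_sum (f := fun j => Real.posLog (av (c j))) (fun _ _ => Real.posLog_nonneg)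
        (Finset.mem_univ j)))
  rw [smulF, MvPolynomial.coeff_C_mul, map_mul, Real.exp_add, Real.exp_log (av.pos hr)]
  refine mul_le_mul_of_nonneg_left ?_ (av.nonneg _)
  fin_cases i
  · rcases coeff_homogenize_cases d (aU d c) m with h | h
    · exact (congrArg av h).trans_le (by simp only [map_zero]; positivity)
    · exact (congrArg av h).trans_le (ca _)
  · rcases coeff_homogenize_cases d (bU d c) m with h | h
    · exact (congrArg av h).trans_le (by simp only [map_zero]; positivity)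
    · exact (congrArg av h).trans_le (cb _)

theorem core (d : ℕ) (hd : 2 ≤ d) {K : Type} [Field K] [Algebra ℂ K] [IsAlgClosed K]
    (c : Fin (2 * d + 1) → K) (hc : IsTranscendenceBasis ℂ c) :
    ∃ w : Fin 3 → K, Function.Injective w ∧
      (∀ s, wedge ((app (FU d c))^[3] ![w s, 1]) ![w s, 1] = 0) ∧
      ∀ B : ℕ, ∃ n0 : ℕ, ∀ n, n0 ≤ n → ∀ x0 : K, ExactPer (FU d c) n ![x0, 1] →
        ∀ T : Fin (2 * d + 1) → K, IsTranscendenceBasis ℂ T →
        (∀ s, ∃ i : Fin (2 * d), T i.succ = w s) →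
        (∀ j, (minpoly (IntermediateField.adjoin ℂ (Set.range T)) (c j)).natDegree ≤ B) →
        (minpoly (IntermediateField.adjoin ℂ (Set.range T)) x0).natDegree ≤ B → False := by
  classical
  have : CharZero K := charZero_of_injective_algebraMap (algebraMap ℂ K).injective
  have hd0 : (d : K) ≠ 0 := Nat.cast_ne_zero.2 (by omega)
  obtain ⟨N, w, r, cr, u, u', lam, DD0, q, hinj, hper, hr, hnz, hnorm, hcr0, hcr, hu, hq, hht⟩ :=
    core_setup d hd c hc.1
  obtain ⟨DD, hDD⟩ : ∃ DD : ℕ, DD = (2 * d + 1) * DD0 := ⟨_, rfl⟩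
  refine ⟨w, hinj, hper, fun B => ?_⟩
  obtain ⟨C0, C1, k0, hC0, hC1, hloc⟩ := core_local d hd
  obtain ⟨Cb, hCb, hglob⟩ := glob B (2 * d + 1 + 1) (2 * d)
  obtain ⟨A, hA⟩ : ∃ A : ℝ, A = (2 * d + 1) * DD := ⟨_, rfl⟩
  obtain ⟨j, hj⟩ : ∃ j : ℕ, j = 12 * d * N * ((2 * d + 1) * DD) + 1 := ⟨_, rfl⟩
  obtain ⟨G, hG⟩ : ∃ G : ℝ, G = ∑ s ∈ Finset.range 3, (d : ℝ) ^ (3 * j - s) := ⟨_, rfl⟩
  obtain ⟨k1, hk1⟩ := exists_nat_gt (2 * (C1 * (A * N * G)))
  obtain ⟨n1, hn1⟩ := exists_nat_gt (2 * ((2 * d + 1) * (3 + 2 * Cb) * (A * N * G)))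
  obtain ⟨n0, hn0⟩ := exists_k (max k0 k1)
  refine ⟨max n0 (max n1 2), fun n hn x0 hx T hT hTw hcB hxB => ?_⟩
  obtain ⟨k, hk, hk20, hnk⟩ := hn0 n (le_of_max_le_left hn)
  have hn2 : 2 ≤ n := le_of_max_le_right (le_of_max_le_right hn)
  have : NeZero n := ⟨by omega⟩
  have hFU : IsHom d (FU d c) := isHom_mk d _ _
  obtain ⟨F, hFd⟩ : ∃ F, F = smulF r (FU d c) := ⟨_, rfl⟩
  have hF : IsHom d F := hFd ▸ isHom_smulF hFU r
  have hFe : F = mk d (C r * aU d c) (C r * bU d c) := hFd.trans (smulF_mk r d _ _)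
  have ha : (C r * aU d c).natDegree ≤ d := (natDegree_C_mul_le _ _).trans (natDegree_aU_le d c)
  have hb : (C r * bU d c).natDegree ≤ d := (natDegree_C_mul_le _ _).trans (natDegree_bU_le d c)
  have hnzF : ∀ x, x ≠ 0 → app F x ≠ 0 := fun x hx => by
    rw [hFd, app_smulF]
    exact smul_ne_zero hr (hnz x hx)
  have hxF : ExactPer F n ![x0, 1] := by
    refine ⟨?_, fun i h1 h2 => ?_⟩
    · obtain ⟨t, -, h⟩ := iter_smulF hFU hr n ![x0, 1]
      rw [hFd, h, wedge_smul_left, hx.1, mul_zero]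
    · obtain ⟨t, ht, h⟩ := iter_smulF hFU hr i ![x0, 1]
      rw [hFd, h, wedge_smul_left]
      exact mul_ne_zero ht (hx.2 i h1 h2)
  rw [← hFd] at hnorm hcr hu
  obtain ⟨s, p, z, hs, hC, hp⟩ := exists_cyc hF hd hnzF (x := ![x0, 1])
    (fun h => by simpa using congrFun h 1) hxF
  obtain ⟨D, hD⟩ := exists_dual_der T hT.1
  obtain ⟨η, hη⟩ : ∃ η : Matrix (Fin (2 * d + 1)) (Fin (2 * d + 1)) K,
      η = Matrix.of fun (j μ : Fin (2 * d + 1)) =>
      ((C r * aU d c) * pco (D j) (C r * bU d c) -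
        (C r * bU d c) * pco (D j) (C r * aU d c)).coeff μ.val := ⟨_, rfl⟩
  have hΘ : η.det ≠ 0 := hη ▸ theta_ne_zero hd c T hc hnz D hD hr
  have hrel : ∀ j i, wedge (p (i + 1)) (fun l => D j (p (i + 1) l)) =
      Dj d F (p i) * wedge (p i) (fun l => D j (p i l)) +
        ∑ μ, η j μ * (p i 0 ^ μ.val * p i 1 ^ (2 * d - μ.val)) := fun j i => by
    rw [← hC.nxt, hη, hFe]
    exact tangent (D j) hd0 ha hb (p i)
  obtain ⟨Z, z1, z2, z3, z4, z5, z6, z7, -⟩ := exists_finset_families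
    ![r, s, η.det, (bmat fun i => Dj d F (p i)).det] c lam q
    (fun ij : ZMod n × ZMod n => wedge (p ij.1) (p ij.2))
    (fun ij : ZMod n × ZMod n => wedge (z ij.1) (z ij.2))
    (fun a : Fin (2 * d - 2) × Fin 3 × Fin N =>
      wedge ((app F)^[3 * j - a.2.1.val] (cr a.1)) (u a.2.2)) c
  obtain ⟨S, _, av, rr, hna, hTr, hϖ, hcst, hT1, hpf, hbig, hrr, hRR, hder⟩ :=
    hglob T hT D hD (Fin.cons x0 c) (fun i => Fin.cases hxB hcB i) Z
  obtain ⟨Hc, hHc⟩ : ∃ Hc : ℝ, Hc = ∑ v, ∑ j, Real.posLog (av v (c j)) := ⟨_, rfl⟩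
  obtain ⟨j0, hj0⟩ := exists_der_ne_zero c T hc (D 0) (by rw [hD]; simp)
  obtain ⟨v0, hv0⟩ := hbig _ (z2 j0) hj0
  have hHc0 : 0 < Hc := by
    rw [hHc]
    refine Finset.sum_pos' (fun _ _ => Finset.sum_nonneg fun _ _ => Real.posLog_nonneg)
      ⟨v0, Finset.mem_univ _, Finset.sum_pos' (fun _ _ => Real.posLog_nonneg)
        ⟨j0, Finset.mem_univ _, ?_⟩⟩
    exact lt_max_of_lt_right (Real.log_pos hv0)
  have hcard : (0 : ℝ) < Fintype.card S := by
    have : Nonempty S := ⟨v0⟩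
    exact_mod_cast Fintype.card_pos
  have key : ∀ v, ∃ h L : ℝ,
      2 * d * (Real.log (av v r) + ∑ j, Real.posLog (av v (c j))) ≤ h ∧
      h ≤ 2 * d * (Real.log (av v r) + ∑ j, Real.posLog (av v (c j))) + Hc / Fintype.card S ∧
      (∀ i, j * Real.posLog (av v (lam i))⁻¹ - 12 * d * h ≤
        -(∑ a, ∑ s : Fin 3, Real.log (av v (wedge ((app F)^[3 * j - s.val] (cr a)) (u i)))) +
          G * L) ∧
      Real.posLog (av v x0) ≤ h - Real.log (av v s) ∧ (bmat fun i => Dj d F (p i)).det ≠ 0 ∧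
      Real.log (av v η.det) ≤ Real.log (av v (bmat fun i => Dj d F (p i)).det) - n * L +
        C1 * (n * h / k) + C0 * (stotA (av v) d F k p z / k ^ 2) +
        (2 * d + 1) * (2 * h + rr v + ∑ j, Real.posLog (av v (c j))) := by
    intro v
    obtain ⟨Tr⟩ := hTr v
    obtain ⟨ϖ, hϖ0, hϖ1⟩ := hϖ v
    obtain ⟨hh0, h, H, hl, hu', -, -, hattr, hcyc⟩ := hloc (av v) (hna v) Tr hF hnzF hnorm
      (h0 := Real.log (av v r) + ∑ j, Real.posLog (av v (c j)))
      (fun i m => hFd ▸ core_coeff c (av v) hr i m) hϖ0 hϖ1 (div_pos hHc0 hcard) cr hcr0 hcr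
    obtain ⟨hpb, hL⟩ := hcyc hn2 (le_of_max_le_left hk) hk20 hnk hC
    have hE := fun jj => core_tau hd c (av v) (hna v)
      (IntermediateField.adjoin ℂ (Set.range (Fin.cons x0 c : Fin (2 * d + 1 + 1) → K)))
      (fun j => IntermediateField.subset_adjoin _ _ ⟨j.succ, rfl⟩) (x0 := x0)
      (IntermediateField.subset_adjoin _ _ ⟨0, rfl⟩) (D jj) (hrr v) (hder v jj) (s := s) hr rfl hh0 hl
    have hh : 0 ≤ h := le_trans (by positivity) hl.le
    have hτ : 1 ≤ Real.exp (2 * h + rr v + ∑ j, Real.posLog (av v (c j))) :=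
      Real.one_le_exp (add_nonneg (add_nonneg (by positivity) (hrr v))
        (Finset.sum_nonneg fun _ _ => Real.posLog_nonneg))
    obtain ⟨hdet, hfin⟩ := hL (fun j i => wedge (p i) fun l => D j (p i l)) η hrel hτ
      (fun j i => (hE j).1 i.val (p i) (hFd ▸ hp i) (hpb i))
      (fun j μ => by rw [hη]; exact (hE j).2 μ.val) hΘ
    rw [Real.log_exp] at hfin
    refine ⟨h, ∑ a, H (cr a), hl.le, hu'.le, fun i => ?_, ?_, hdet, hfin⟩
    · obtain ⟨a1, a2, a3, a4, a5, a6⟩ := hu i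
      refine (hattr (u i) (u' i) (lam i) j a1 a2 a3 a4 a5 (by omega) a6).trans (le_of_eq ?_)
      rw [hG, Finset.mul_sum, ← Finset.sum_neg_distrib, ← Finset.sum_add_distrib]
      refine Finset.sum_congr rfl fun a _ => ?_
      rw [Finset.sum_add_distrib, Finset.sum_mul, Finset.sum_neg_distrib,
        Finset.sum_range (fun s => Real.log (av v (wedge ((app F)^[3 * j - s] (cr a)) (u i))))]
    · have h1 := hpb 0 0
      have h2 := hpb 0 1
      rw [hp] at h1 h2
      simp only [ZMod.val_zero, Function.iterate_zero, id_eq, Pi.smul_apply, smul_eq_mul,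
        Matrix.cons_val_zero, Matrix.cons_val_one, mul_one, map_mul] at h1 h2
      have hsp := (av v).pos hs
      have h3 : Real.log (av v s) ≤ h := (Real.log_le_iff_le_exp hsp).2 h2
      refine max_le (by linarith) ?_
      rcases eq_or_ne x0 0 with h0 | h0
      · rw [h0, map_zero, Real.log_zero]; linarith
      · have hxp := (av v).pos h0
        have h4 := (Real.log_le_iff_le_exp (mul_pos hsp hxp)).2 h1
        rw [Real.log_mul hsp.ne' hxp.ne'] at h4
        linarith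
  choose h L k1' k2 k3 k4 k5 k6 using key
  have pr : ∑ v, Real.log (av v r) = 0 := hpf _ (z1 0) hr
  have ps : ∑ v, Real.log (av v s) = 0 := hpf _ (z1 1) hs
  have pΘ : ∑ v, Real.log (av v η.det) = 0 := hpf _ (z1 2) hΘ
  have pb : ∑ v, Real.log (av v (bmat fun i => Dj d F (p i)).det) = 0 := hpf _ (z1 3) (k5 v0)
  have hd1 : (2 : ℝ) ≤ d := by exact_mod_cast hd
  have s1 : 2 * d * Hc ≤ ∑ v, h v := by
    have := Finset.sum_le_sum fun v (_ : v ∈ Finset.univ) => k1' v
    rwa [← Finset.mul_sum, Finset.sum_add_distrib, pr, zero_add, ← hHc] at this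
  have s2 : ∑ v, h v ≤ (2 * d + 1) * Hc := by
    have := Finset.sum_le_sum fun v (_ : v ∈ Finset.univ) => k2 v
    rw [Finset.sum_add_distrib, ← Finset.mul_sum, Finset.sum_add_distrib, pr, zero_add, ← hHc,
      Finset.sum_const, Finset.card_univ, nsmul_eq_mul, mul_div_cancel₀ _ hcard.ne'] at this
    linarith
  have s3 : Hc ≤ DD * ∑ i, ∑ v, Real.posLog (av v (lam i)) := by
    have e1 : ∀ jj, ∑ v, Real.posLog (av v (c jj)) ≤
        DD0 * ∑ i, ∑ v, Real.posLog (av v (lam i)) := fun jj => by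
      have := Finset.sum_le_sum fun v (_ : v ∈ Finset.univ) => hht (av v) (hna v) (hcst v)
        (fun s => by obtain ⟨i, hi⟩ := hTw s; rw [← hi]; exact hT1 v i) jj
      rwa [Finset.sum_sub_distrib, hpf _ (z4 jj) (hq jj), sub_zero, ← Finset.mul_sum,
        Finset.sum_comm] at this
    have := Finset.sum_le_sum fun jj (_ : jj ∈ Finset.univ) => e1 jj
    rw [Finset.sum_comm, ← hHc, Finset.sum_const, Finset.card_univ, Fintype.card_fin,
      nsmul_eq_mul, ← mul_assoc] at this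
    rw [hDD]
    push_cast at this ⊢
    exact this
  have s4 : ∀ i, j * ∑ v, Real.posLog (av v (lam i)) - 12 * d * ∑ v, h v ≤ G * ∑ v, L v := by
    intro i
    have e1 : ∑ v, Real.posLog (av v (lam i)) = ∑ v, Real.posLog (av v (lam i))⁻¹ := by
      rw [← sub_eq_zero, ← Finset.sum_sub_distrib]
      simp only [Real.posLog_sub_posLog_inv]
      exact hpf _ (z3 i) (hu i).2.2.2.2.1
    have e2 : ∑ v, ∑ a, ∑ s : Fin 3,
        Real.log (av v (wedge ((app F)^[3 * j - s.val] (cr a)) (u i))) = 0 := by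
      rw [Finset.sum_comm]
      refine Finset.sum_eq_zero fun a _ => ?_
      rw [Finset.sum_comm]
      exact Finset.sum_eq_zero fun s _ => hpf _ (z7 (a, s, i)) ((hu i).2.2.2.2.2 a _)
    have := Finset.sum_le_sum fun v (_ : v ∈ Finset.univ) => k3 v i
    rwa [Finset.sum_sub_distrib, Finset.sum_add_distrib, Finset.sum_neg_distrib, e2, neg_zero,
      zero_add, ← Finset.mul_sum, ← Finset.mul_sum, ← Finset.mul_sum, ← e1] at this
  have s5 : ∑ v, Real.posLog (av v x0) ≤ ∑ v, h v := by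
    have := Finset.sum_le_sum fun v (_ : v ∈ Finset.univ) => k4 v
    rwa [Finset.sum_sub_distrib, ps, sub_zero] at this
  have s6 : ∑ v, rr v ≤ Cb * (Hc + ∑ v, Real.posLog (av v x0)) := by
    refine hRR.trans (le_of_eq ?_)
    rw [hHc, ← Finset.sum_add_distrib]
    refine congrArg _ (Finset.sum_congr rfl fun v _ => ?_)
    rw [Fin.sum_univ_succ, add_comm]
    rfl
  have s7 : 0 ≤ -(n * ∑ v, L v) + C1 * (n * (∑ v, h v) / k) +
      (2 * d + 1) * (2 * ∑ v, h v + ∑ v, rr v + Hc) := by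
    have e1 := sum_stotA (fun v x => av v x) hF k hC (fun i j hij => hpf _ (z5 (i, j)) hij)
      (fun i j hij => hpf _ (z6 (i, j)) hij)
    have := Finset.sum_le_sum fun v (_ : v ∈ Finset.univ) => k6 v
    simp only [Finset.sum_add_distrib, Finset.sum_sub_distrib, ← Finset.mul_sum,
      ← Finset.sum_div, pΘ, pb, ← hHc] at this
    rw [e1] at this
    simpa using this
  refine core_arith (d := d) (N := N) (A := A) (j := j) (G := G) (L := ∑ v, L v)
    (Lam := ∑ i, ∑ v, Real.posLog (av v (lam i))) (Hc := Hc) (Ht := ∑ v, h v) (RR := ∑ v, rr v)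
    (Hx := ∑ v, Real.posLog (av v x0)) (C1 := C1) (Cb := Cb) (n := n) (k := k) (by positivity)
    (by positivity) (by rw [hA]; positivity) (by rw [hG]; positivity)
    (by rw [hj, hA]; push_cast; ring) hC1.le hCb hHc0 (by nlinarith) ?_ ?_ s6 s5 s7
    (hk1.trans_le (Nat.cast_le.2 (le_of_max_le_right hk)))
    (hn1.trans_le (Nat.cast_le.2 (le_of_max_le_left (le_of_max_le_right hn))))
  · rw [hA, mul_assoc]
    exact s2.trans (mul_le_mul_of_nonneg_left s3 (by positivity))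
  · have := Finset.sum_le_sum fun i (_ : i ∈ Finset.univ) => s4 i
    rwa [Finset.sum_sub_distrib, ← Finset.mul_sum, Finset.sum_const, Finset.sum_const,
      Finset.card_univ, Fintype.card_fin, nsmul_eq_mul, nsmul_eq_mul] at this

end Pool.Agent.Lib.MP_0dd0d9_ag
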