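import Pool.Agent.Lib.MP_0dd0d9_ag.Loc
import Pool.Agent.Lib.MP_0dd0d9_ag.AttrW

/-!
The local results, restated for an absolute value, and some algebra used in the global argument.
-/

namespace Pool.Agent.Lib.MP_0dd0d9_ag

open Polynomial

/-- Pair energy with respect to an absolute value. -/
noncomputable def srawA {K : Type*} [Field K] (av : K → ℝ) {ι : Type*} [DecidableEq ι]
    (s : Finset ι) (x : ι → V K) : ℝ :=
  ∑ i ∈ s, ∑ j ∈ s.erase i, -Real.log (av (wedge (x i) (x j)))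

open Classical in
/-- Total pair energy with respect to an absolute value. -/
noncomputable def stotA {K : Type*} [Field K] (av : K → ℝ) (d : ℕ) (F : Mp K) {n : ℕ} [NeZero n]
    (k : ℕ) (p z : ZMod n → V K) : ℝ :=
  srawA av Finset.univ p + ∑ l ∈ Finset.range k,
    (srawA av Finset.univ (fun u => p (idx n k l u)) +
      srawA av (Finset.univ.filter fun u => Dj d F (p (idx n k l u - 1)) ≠ 0)
        (fun u => z (idx n k l u)))

theorem sum_srawA {K : Type*} [Field K] {S : Type*} [Fintype S] (av : S → K → ℝ) {ι : Type*}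
    [DecidableEq ι] (s : Finset ι) (x : ι → V K)
    (h : ∀ i ∈ s, ∀ j ∈ s, i ≠ j → ∑ v, Real.log (av v (wedge (x i) (x j))) = 0) :
    ∑ v, srawA (av v) s x = 0 := by
  unfold srawA
  rw [Finset.sum_comm]
  refine Finset.sum_eq_zero fun i hi => ?_
  rw [Finset.sum_comm]
  refine Finset.sum_eq_zero fun j hj => ?_
  rw [Finset.sum_neg_distrib, h i hi j (Finset.mem_of_mem_erase hj)
    (Finset.ne_of_mem_erase hj).symm, neg_zero]

theorem sum_stotA {K : Type*} [Field K] {S : Type*} [Fintype S] (av : S → K → ℝ) {d : ℕ}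
    {F : Mp K} (hF : IsHom d F) {n : ℕ} [NeZero n] (k : ℕ) {p z : ZMod n → V K}
    (hC : Cyc d F p z)
    (hp : ∀ i j, wedge (p i) (p j) ≠ 0 → ∑ v, Real.log (av v (wedge (p i) (p j))) = 0)
    (hz : ∀ i j, wedge (z i) (z j) ≠ 0 → ∑ v, Real.log (av v (wedge (z i) (z j))) = 0) :
    ∑ v, stotA (av v) d F k p z = 0 := by
  classical
  unfold stotA
  rw [Finset.sum_add_distrib, sum_srawA _ _ _ fun i _ j _ hij => hp i j (hC.dist i j hij),
    zero_add, Finset.sum_comm]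
  refine Finset.sum_eq_zero fun l hl => ?_
  have hinj := idx_injective (n := n) (Finset.mem_range.1 hl)
  rw [Finset.sum_add_distrib, sum_srawA, sum_srawA, add_zero]
  · intro i hi j hj hij
    refine hz _ _ fun h0 => ?_
    have hi' := (hC.zpre _ (Finset.mem_filter.1 hi).2)
    have hj' := (hC.zpre _ (Finset.mem_filter.1 hj).2)
    have := wedge_iter_eq_zero hF 1 (ne_zero_of_wedge_left hj'.2) h0
    simp only [Function.iterate_one] at this
    rw [hi'.1, hj'.1] at this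
    exact hC.dist _ _ (fun h => hij (hinj h)) this
  · intro i _ j _ hij
    exact hp _ _ (hC.dist _ _ fun h => hij (hinj h))

theorem core_local (d : ℕ) (hd : 2 ≤ d) : ∃ (C0 C1 : ℝ) (k0 : ℕ), 0 < C0 ∧ 0 < C1 ∧
    ∀ {K : Type} [Field K] [IsAlgClosed K] (av : AbsoluteValue K ℝ), IsNonarchimedean av →
      ∀ (_Tr : Transfer K av) {F : Mp K}, IsHom d F → (∀ x, x ≠ 0 → app F x ≠ 0) → Normal d F →
      ∀ {h0 : ℝ}, (∀ i m, av (MvPolynomial.coeff m (F i)) ≤ Real.exp h0) →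
      ∀ {ϖ0 : K}, 0 < av ϖ0 → av ϖ0 < 1 → ∀ {δ : ℝ}, 0 < δ →
      ∀ (cr : Fin (2 * d - 2) → V K), (∀ a, cr a ≠ 0) → (∀ x, Dj d F x = ∏ a, wedge x (cr a)) →
      0 ≤ h0 ∧ ∃ (h : ℝ) (H : V K → ℝ), 2 * d * h0 < h ∧ h < 2 * d * h0 + δ ∧
        (∀ (x : V K) i, x i ≠ 0 → Real.log (av (x i)) - h ≤ H x) ∧
        (∀ (e : ℕ) x, x ≠ 0 → H ((app F)^[e] x) = (d : ℝ) ^ e * H x) ∧
        (∀ (w w' : V K) (lam : K) (j : ℕ), (app F)^[3] w = w → wedge ((app F)^[3] w') w' = 0 →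
          wedge w w' ≠ 0 → lam = Dj d F w * Dj d F (app F w) * Dj d F (app F (app F w)) →
          lam ≠ 0 → 1 ≤ j → (∀ a e, wedge ((app F)^[e] (cr a)) w ≠ 0) →
          j * Real.posLog (av lam)⁻¹ - 12 * d * h ≤ ∑ a, ∑ s ∈ Finset.range 3,
            (-Real.log (av (wedge ((app F)^[3 * j - s] (cr a)) w)) +
              (d : ℝ) ^ (3 * j - s) * H (cr a))) ∧
        ∀ {n : ℕ} [NeZero n] {k : ℕ}, 2 ≤ n → k0 ≤ k → k ^ 20 ≤ n → n ≤ 2 ^ k →
          ∀ {p z : ZMod n → V K}, Cyc d F p z → (∀ i l, av (p i l) ≤ Real.exp h) ∧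
          ∀ (ξ : Fin (2 * d + 1) → ZMod n → K)
            (η : Matrix (Fin (2 * d + 1)) (Fin (2 * d + 1)) K),
          (∀ j i, ξ j (i + 1) = Dj d F (p i) * ξ j i +
            ∑ μ, η j μ * (p i 0 ^ μ.val * p i 1 ^ (2 * d - μ.val))) →
          ∀ {τ : ℝ}, 1 ≤ τ → (∀ j i, av (ξ j i) ≤ τ) → (∀ j μ, av (η j μ) ≤ τ) → η.det ≠ 0 →
          (bmat fun i => Dj d F (p i)).det ≠ 0 ∧
            Real.log (av η.det) ≤ Real.log (av (bmat fun i => Dj d F (p i)).det) -
              n * (∑ a, H (cr a)) + C1 * (n * h / k) + C0 * (stotA av d F k p z / k ^ 2) +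
              (2 * d + 1) * Real.log τ := by
  obtain ⟨C0, C1, k0, hC0, hC1, hloc⟩ := loc d hd
  refine ⟨C0, C1, k0, hC0, hC1, ?_⟩
  intro K _ _ av hna Tr F hF hnz hn h0 hc ϖ0 hϖ0 hϖ1 δ hδ cr hcr0 hcr
  letI : NormedField K := av.toNormedField
  haveI : IsUltrametricDist K := IsUltrametricDist.isUltrametricDist_of_isNonarchimedean_norm hna
  have Tr' : Transfer K (fun x => ‖x‖) := Tr
  have hN : Res0 K := Tr'.toResC.res0
  obtain ⟨hh0, hgood⟩ := good_of_coeff (K := K) hN hF (by omega) hnz hn (h0 := h0) hc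
  refine ⟨hh0, ?_⟩
  obtain ⟨ϖ, hϖa, hϖb⟩ := exists_norm_between (K := K) (ϖ := ϖ0) hϖ0 hϖ1
    (u := Real.exp (-(2 * d * h0 + δ))) (u' := Real.exp (-(2 * d * h0))) (Real.exp_pos _)
    (Real.exp_lt_exp.2 (by linarith))
  have hϖp : 0 < ‖ϖ‖ := (Real.exp_pos _).trans hϖa
  obtain ⟨h, hh⟩ : ∃ h : ℝ, ‖ϖ‖ = Real.exp (-h) := ⟨-Real.log ‖ϖ‖, by
    rw [neg_neg, Real.exp_log hϖp]⟩
  rw [hh, Real.exp_lt_exp] at hϖa hϖb
  have hd0 : (2 : ℝ) ≤ d := by exact_mod_cast hd
  have hlt : 2 * d * h0 < h := by linarith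
  have hpos : 0 < h := lt_of_le_of_lt (by positivity) hlt
  have hG := hgood h hlt.le
  obtain ⟨H, hE⟩ := exists_esc hG hN hd
  refine ⟨h, H, hlt, by linarith, ?_, fun e x hx => hE.iter hG e hx, ?_, ?_⟩
  · intro x i hx
    have hx0 : x ≠ 0 := fun h => hx (by rw [h]; rfl)
    have h1 := (abs_le.1 (hE.bd x hx0)).1
    have h2 : Real.log ‖x i‖ ≤ Real.log ‖x‖ :=
      Real.log_le_log (norm_pos_iff.2 hx) (norm_le_pi_norm x i)
    change Real.log ‖x i‖ - h ≤ H x
    linarith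
  · intro w w' lam j hw hw' hww hlam hl0 hj hne
    exact attr hG hE hN hd (ϖ := ϖ0) hϖ0 hϖ1 cr hcr0 hcr hw hw' hww hlam hl0 hj hne
  · intro n _ k hn2 hk hk20 hnk p z hC
    refine ⟨fun i l => ?_, fun ξ η hrel τ hτ hξ hη hΘ =>
      hloc Tr' hG hE hpos hh cr hcr0 hcr hk hk20 hnk hC ξ η hrel hτ hξ hη hΘ⟩
    have h1 := (abs_le.1 (hE.bd (p i) (hC.ne_zero hn2 i))).1
    rw [hC.esc_zero hE hG hd hn2 i] at h1
    have h2 : ‖p i‖ ≤ Real.exp h := by
      rw [← Real.log_le_iff_le_exp (norm_pos_iff.2 (hC.ne_zero hn2 i))]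
      linarith
    exact (norm_le_pi_norm (p i) l).trans h2

theorem av_coeff_comm_le {K : Type*} [Field K] (av : AbsoluteValue K ℝ)
    (hna : IsNonarchimedean av) {a b a' b' : K[X]} {M M' : ℝ} (ha : ∀ i, av (a.coeff i) ≤ M)
    (hb : ∀ i, av (b.coeff i) ≤ M) (ha' : ∀ i, av (a'.coeff i) ≤ M')
    (hb' : ∀ i, av (b'.coeff i) ≤ M') (i : ℕ) : av ((a * b' - b * a').coeff i) ≤ M * M' := by
  letI : NormedField K := av.toNormedField
  haveI : IsUltrametricDist K := IsUltrametricDist.isUltrametricDist_of_isNonarchimedean_norm hna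
  have h1 := coeff_mul_le (K := K) (p := a) (q := b') ha hb' i
  have h2 := coeff_mul_le (K := K) (p := b) (q := a') hb ha' i
  rw [coeff_sub, sub_eq_add_neg]
  refine (hna _ _).trans (max_le h1 ?_)
  rw [av.map_neg]
  exact h2

section alg

variable {K : Type*} [Field K]

theorem app_mk_one {d : ℕ} {a b : K[X]} (ha : a.natDegree ≤ d) (hb : b.natDegree ≤ d) (x : K) :
    app (mk d a b) ![x, 1] = ![a.eval x, b.eval x] := by
  funext i
  fin_cases i
  · change MvPolynomial.eval ![x, 1] (a.homogenize d) = a.eval x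
    rw [← eval_deh, deh_homogenize ha]
  · change MvPolynomial.eval ![x, 1] (b.homogenize d) = b.eval x
    rw [← eval_deh, deh_homogenize hb]

theorem Dj_mk_one {d : ℕ} (hd : (d : K) ≠ 0) {a b : K[X]} (ha : a.natDegree ≤ d)
    (hb : b.natDegree ≤ d) (x : K) : Dj d (mk d a b) ![x, 1] = (wr a b).eval x := by
  rw [Dj_one hd (isHom_mk d a b)]
  change (wr (deh (a.homogenize d)) (deh (b.homogenize d))).eval x = _
  rw [deh_homogenize ha, deh_homogenize hb]

theorem app_mk_step {d : ℕ} {a b : K[X]} (ha : a.natDegree ≤ d) (hb : b.natDegree ≤ d)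
    {x y : K} (h : a.eval x = y * b.eval x) (t : K) :
    app (mk d a b) (t • ![x, 1]) = (t ^ d * b.eval x) • ![y, 1] := by
  rw [app_smul (isHom_mk d a b), app_mk_one ha hb, h]
  funext i
  fin_cases i <;> simp <;> ring

theorem core_lift [IsAlgClosed K] {d : ℕ} (hd : 2 ≤ d) (hd0 : (d : K) ≠ 0) {a b : K[X]}
    (ha : a.natDegree ≤ d) (hb : b.natDegree ≤ d) {w w1 w2 : K} (b0 : b.eval w ≠ 0)
    (b1 : b.eval w1 ≠ 0) (b2 : b.eval w2 ≠ 0) (h0 : a.eval w = w1 * b.eval w)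
    (h1 : a.eval w1 = w2 * b.eval w1) (h2 : a.eval w2 = w * b.eval w2) :
    ∃ s : K, s ≠ 0 ∧ (app (mk d a b))^[3] (s • ![w, 1]) = s • ![w, 1] ∧
      (wr a b).eval w / b.eval w ^ 2 * ((wr a b).eval w1 / b.eval w1 ^ 2) *
        ((wr a b).eval w2 / b.eval w2 ^ 2) =
        Dj d (mk d a b) (s • ![w, 1]) * Dj d (mk d a b) (app (mk d a b) (s • ![w, 1])) *
          Dj d (mk d a b) (app (mk d a b) (app (mk d a b) (s • ![w, 1]))) := by
  have key : ∀ t : K, (app (mk d a b))^[3] (t • ![w, 1]) =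
      (((t ^ d * b.eval w) ^ d * b.eval w1) ^ d * b.eval w2) • ![w, 1] := fun t => by
    simp only [Function.iterate_succ, Function.iterate_zero, Function.comp_apply, id_eq]
    rw [app_mk_step ha hb h0, app_mk_step ha hb h1, app_mk_step ha hb h2]
  have k1 := key 1
  rw [one_smul] at k1
  obtain ⟨s, hs, hfix⟩ := exists_canon (isHom_mk d a b) hd (by norm_num : 1 ≤ 3)
    (by simp [b0, b1, b2]) k1
  refine ⟨s, hs, hfix, ?_⟩
  have e : ((s ^ d * b.eval w) ^ d * b.eval w1) ^ d * b.eval w2 = s := by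
    have := congrFun ((key s).symm.trans hfix) 1
    simpa using this
  rw [app_mk_step ha hb h0, app_mk_step ha hb h1, Dj_smul (isHom_mk d a b),
    Dj_smul (isHom_mk d a b), Dj_smul (isHom_mk d a b), Dj_mk_one hd0 ha hb, Dj_mk_one hd0 ha hb,
    Dj_mk_one hd0 ha hb]
  set s1 := s ^ d * b.eval w with hs1
  set s2 := s1 ^ d * b.eval w1 with hs2
  have hs10 : s1 ≠ 0 := mul_ne_zero (pow_ne_zero _ hs) b0
  have hs20 : s2 ≠ 0 := mul_ne_zero (pow_ne_zero _ hs10) b1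
  obtain ⟨m, rfl⟩ : ∃ m, d = m + 1 := ⟨d - 1, by omega⟩
  have e2 : 2 * (m + 1) - 2 = 2 * m := by omega
  have e3 : (s * s1 * s2) ^ m * (b.eval w * b.eval w1 * b.eval w2) = 1 := by
    have : (s * s1 * s2) * ((s * s1 * s2) ^ m * (b.eval w * b.eval w1 * b.eval w2)) =
        (s * s1 * s2) * 1 := by
      calc _ = (s ^ (m + 1) * b.eval w) * (s1 ^ (m + 1) * b.eval w1) *
            (s2 ^ (m + 1) * b.eval w2) := by ring
        _ = s1 * s2 * s := by rw [← hs1, ← hs2, e]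
        _ = _ := by ring
    exact mul_left_cancel₀ (mul_ne_zero (mul_ne_zero hs hs10) hs20) this
  rw [e2]
  have e4 : s ^ (2 * m) * s1 ^ (2 * m) * s2 ^ (2 * m) *
      (b.eval w ^ 2 * b.eval w1 ^ 2 * b.eval w2 ^ 2) = 1 := by
    calc _ = ((s * s1 * s2) ^ m * (b.eval w * b.eval w1 * b.eval w2)) ^ 2 := by ring
      _ = 1 := by rw [e3, one_pow]
  field_simp
  linear_combination (-((wr a b).eval w * (wr a b).eval w1 * (wr a b).eval w2)) * e4

theorem iter_smulF {d : ℕ} {F : Mp K} (hF : IsHom d F) {r : K} (hr : r ≠ 0) (e : ℕ) (x : V K) :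
    ∃ t : K, t ≠ 0 ∧ (app (smulF r F))^[e] x = t • (app F)^[e] x := by
  induction e with
  | zero => exact ⟨1, one_ne_zero, by simp⟩
  | succ e ih =>
    obtain ⟨t, ht, h⟩ := ih
    refine ⟨r * t ^ d, mul_ne_zero hr (pow_ne_zero _ ht), ?_⟩
    rw [Function.iterate_succ_apply', Function.iterate_succ_apply', h, app_smulF, app_smul hF,
      smul_smul]

theorem iter_mem {k : Type*} [Field k] [Algebra k K] (E : IntermediateField k K) {d : ℕ}
    {a b : K[X]} (ha : ∀ i, a.coeff i ∈ E) (hb : ∀ i, b.coeff i ∈ E) {x : V K}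
    (hx : ∀ l, x l ∈ E) (e : ℕ) : ∀ l, (app (mk d a b))^[e] x l ∈ E := by
  induction e with
  | zero => exact hx
  | succ e ih =>
    intro l
    rw [Function.iterate_succ_apply']
    have key : ∀ g : K[X], (∀ i, g.coeff i ∈ E) →
        MvPolynomial.eval ((app (mk d a b))^[e] x) (g.homogenize d) ∈ E := fun g hg => by
      rw [eval_homogenize_eq_sum]
      exact sum_mem fun μ _ => mul_mem (hg _) (mul_mem (pow_mem (ih 0) _) (pow_mem (ih 1) _))
    fin_cases l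
    · exact key a ha
    · exact key b hb

/-- The tangent vector of a point with coordinates in `E` up to scaling. -/
theorem xi_le {k : Type*} [Field k] [Algebra k K] (E : IntermediateField k K)
    (av : AbsoluteValue K ℝ) {R : Type*} [CommRing R] [Algebra R K] (D : Derivation R K K)
    {ρ M : ℝ} (hρ : 0 ≤ ρ) (hD : ∀ x ∈ E, av x ≤ 1 → av (D x) ≤ ρ) {p y : V K} {t : K}
    (hp : p = t • y) (hy : ∀ l, y l ∈ E) (hM : ∀ l, av (p l) ≤ M) :
    av (wedge p fun l => D (p l)) ≤ M ^ 2 * ρ := by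
  have hM0 : 0 ≤ M := (av.nonneg _).trans (hM 0)
  have key : ∀ u v : K, u ≠ 0 → v / u ∈ E → av v ≤ av u → av u ≤ M →
      av (u * D v - v * D u) ≤ M ^ 2 * ρ := fun u v hu hE hle huM => by
    have h1 : u * D v - v * D u = u ^ 2 * D (v / u) := by
      rw [Derivation.leibniz_div]
      simp only [smul_eq_mul]
      field_simp
    have h2 : av (v / u) ≤ 1 := by
      rw [map_div₀]; exact div_le_one_of_le₀ hle (av.nonneg _)
    rw [h1, map_mul, map_pow]
    exact mul_le_mul (pow_le_pow_left₀ (av.nonneg _) huM 2) (hD _ hE h2) (av.nonneg _)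
      (by positivity)
  have hrat : ∀ i j, p i ≠ 0 → p j / p i ∈ E := fun i j hi => by
    have ht : t ≠ 0 := by
      rintro rfl
      exact hi (by rw [hp]; simp)
    have : p j / p i = y j / y i := by
      rw [hp]; simp only [Pi.smul_apply, smul_eq_mul]; rw [mul_div_mul_left _ _ ht]
    rw [this]
    exact div_mem (hy j) (hy i)
  unfold wedge
  rcases le_total (av (p 1)) (av (p 0)) with h | h
  · by_cases h0 : p 0 = 0
    · have : p 1 = 0 := by
        rw [h0, map_zero] at h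
        exact av.eq_zero.1 (le_antisymm h (av.nonneg _))
      simp only [h0, this, zero_mul, sub_zero, map_zero]
      positivity
    · exact key _ _ h0 (hrat 0 1 h0) h (hM 0)
  · by_cases h1 : p 1 = 0
    · have : p 0 = 0 := by
        rw [h1, map_zero] at h
        exact av.eq_zero.1 (le_antisymm h (av.nonneg _))
      simp only [h1, this, zero_mul, sub_zero, map_zero]
      positivity
    · rw [← av.map_neg, neg_sub]
      exact key _ _ h1 (hrat 1 0 h1) h (hM 1)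

theorem der_le_sq {k : Type*} [Field k] [Algebra k K] (E : IntermediateField k K)
    (av : AbsoluteValue K ℝ) {R : Type*} [CommRing R] [Algebra R K] (D : Derivation R K K)
    {ρ : ℝ} (hD : ∀ x ∈ E, av x ≤ 1 → av (D x) ≤ ρ) {x : K} (hx : x ∈ E) :
    av (D x) ≤ Real.exp (Real.posLog (av x)) ^ 2 * ρ := by
  have hρ : 0 ≤ ρ := (av.nonneg _).trans (hD 0 (zero_mem E) (by simp))
  have h1 : 1 ≤ Real.exp (Real.posLog (av x)) := Real.one_le_exp Real.posLog_nonneg
  rcases le_or_gt (av x) 1 with h | h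
  · exact (hD x hx h).trans (le_mul_of_one_le_left hρ (one_le_pow₀ h1))
  · have hx0 : x ≠ 0 := by
      rintro rfl
      simp only [map_zero] at h
      linarith
    have h2 : D x = -(x ^ 2 * D x⁻¹) := by
      rw [Derivation.leibniz_inv]
      simp only [smul_eq_mul]
      field_simp
    have h3 := hD x⁻¹ (inv_mem hx) (by rw [map_inv₀]; exact inv_le_one_of_one_le₀ h.le)
    rw [h2, av.map_neg, map_mul, map_pow,
      Real.posLog_eq_log (by rw [abs_of_pos (by linarith)]; exact h.le),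
      Real.exp_log (by linarith)]
    exact mul_le_mul_of_nonneg_left h3 (by positivity)

end alg

theorem le_exp_posLog {x : ℝ} (hx : 0 ≤ x) : x ≤ Real.exp (Real.posLog x) := by
  rcases hx.eq_or_lt with h | h
  · rw [← h]; exact (Real.exp_pos _).le
  · calc x = Real.exp (Real.log x) := (Real.exp_log h).symm
      _ ≤ _ := Real.exp_le_exp.2 (le_max_right _ _)

theorem exists_k (k1 : ℕ) : ∃ n0 : ℕ, ∀ n, n0 ≤ n → ∃ k, k1 ≤ k ∧ k ^ 20 ≤ n ∧ n ≤ 2 ^ k := by
  have h := tendsto_pow_const_div_const_pow_of_one_lt 20 (r := (2 : ℝ)) (by norm_num)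
  obtain ⟨m, hm⟩ := Filter.eventually_atTop.1 (h.eventually (gt_mem_nhds (by norm_num : (0 : ℝ) < 1 / 2)))
  refine ⟨2 ^ (max m k1), fun n hn => ?_⟩
  have hn0 : n ≠ 0 := by
    have : 0 < 2 ^ (max m k1) := by positivity
    omega
  have h1 : max m k1 ≤ Nat.log 2 n := Nat.le_log_of_pow_le (by norm_num) hn
  refine ⟨Nat.log 2 n + 1, by omega, ?_, (Nat.lt_pow_succ_log_self (by norm_num) n).le⟩
  have h2 := hm (Nat.log 2 n + 1) (by omega)
  rw [div_lt_iff₀ (by positivity)] at h2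
  have h3 : 2 ^ Nat.log 2 n ≤ n := Nat.pow_log_le_self 2 hn0
  have h4 : (((Nat.log 2 n + 1) ^ 20 : ℕ) : ℝ) < ((2 ^ Nat.log 2 n : ℕ) : ℝ) := by
    push_cast at h2 ⊢
    rw [pow_succ (2 : ℝ) (Nat.log 2 n)] at h2
    linarith
  have h5 : (Nat.log 2 n + 1) ^ 20 < 2 ^ Nat.log 2 n := by exact_mod_cast h4
  omega

theorem exists_finset_families {K : Type*} {ι1 ι2 ι3 ι4 ι5 ι6 ι7 ι8 : Type*} [Fintype ι1]
    [Fintype ι2] [Fintype ι3] [Fintype ι4] [Fintype ι5] [Fintype ι6] [Fintype ι7] [Fintype ι8]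
    (f1 : ι1 → K) (f2 : ι2 → K) (f3 : ι3 → K) (f4 : ι4 → K) (f5 : ι5 → K) (f6 : ι6 → K)
    (f7 : ι7 → K) (f8 : ι8 → K) :
    ∃ Z : Finset K, (∀ i, f1 i ∈ Z) ∧ (∀ i, f2 i ∈ Z) ∧ (∀ i, f3 i ∈ Z) ∧ (∀ i, f4 i ∈ Z) ∧
      (∀ i, f5 i ∈ Z) ∧ (∀ i, f6 i ∈ Z) ∧ (∀ i, f7 i ∈ Z) ∧ ∀ i, f8 i ∈ Z := by
  classical
  exact ⟨Finset.univ.image f1 ∪ Finset.univ.image f2 ∪ Finset.univ.image f3 ∪
    Finset.univ.image f4 ∪ Finset.univ.image f5 ∪ Finset.univ.image f6 ∪ Finset.univ.image f7 ∪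
    Finset.univ.image f8, by simp, by simp, by simp, by simp, by simp, by simp, by simp, by simp⟩

end Pool.Agent.Lib.MP_0dd0d9_ag
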