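import Pool.Agent.Lib.MP_0dd0d9_ag.Alg2

/-!
TASK g0d DerLoc.  A derivation is bounded on the integers of a finite extension at one place.
-/

namespace Pool.Agent.Lib.MP_0dd0d9_ag

open Polynomial

section aux

variable {K : Type*} [Field K] {av : AbsoluteValue K ℝ}

theorem derloc_sum_le (hna : IsNonarchimedean av) {ι : Type*} (s : Finset ι) (f : ι → K) {c : ℝ}
    (hc : 0 ≤ c) (h : ∀ i ∈ s, av (f i) ≤ c) : av (∑ i ∈ s, f i) ≤ c := by
  classical
  induction s using Finset.induction_on with
  | empty => simpa using hc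
  | insert a s ha ih =>
    rw [Finset.sum_insert ha]
    exact (hna _ _).trans (max_le (h a (by simp)) (ih fun i hi => h i (by simp [hi])))

theorem derloc_sum_lt (hna : IsNonarchimedean av) {ι : Type*} (s : Finset ι) (f : ι → K) {c : ℝ}
    (hc : 0 < c) (h : ∀ i ∈ s, av (f i) < c) : av (∑ i ∈ s, f i) < c := by
  classical
  induction s using Finset.induction_on with
  | empty => simpa using hc
  | insert a s ha ih =>
    rw [Finset.sum_insert ha]
    exact (hna _ _).trans_lt (max_lt (h a (by simp)) (ih fun i hi => h i (by simp [hi])))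

theorem derloc_sub_le (hna : IsNonarchimedean av) {x y : K} {c : ℝ} (hx : av x ≤ c)
    (hy : av y ≤ c) : av (x - y) ≤ c := by
  rw [sub_eq_add_neg]
  exact (hna _ _).trans (max_le hx (by rwa [av.map_neg]))

theorem derloc_eval_le (hna : IsNonarchimedean av) {p : K[X]} {z : K} {N : ℕ}
    (hN : p.natDegree ≤ N) {c M : ℝ} (hc : 0 ≤ c) (hM : 1 ≤ M) (hp : ∀ i, av (p.coeff i) ≤ c)
    (hz : av z ≤ M) : av (p.eval z) ≤ c * M ^ N := by
  rw [eval_eq_sum_range' (Nat.lt_succ_of_le hN)]
  refine derloc_sum_le hna _ _ (by positivity) fun i hi => ?_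
  rw [av.map_mul, av.map_pow]
  have h1 : av z ^ i ≤ M ^ N := (pow_le_pow_left₀ (av.nonneg _) hz i).trans
    (pow_le_pow_right₀ hM (Nat.lt_succ_iff.1 (Finset.mem_range.1 hi)))
  exact mul_le_mul (hp i) h1 (by positivity) hc

theorem derloc_nodal_le (hna : IsNonarchimedean av) {M : ℝ} (hM : 1 ≤ M) (s : Finset K)
    (hs : ∀ z ∈ s, av z ≤ M) : ∀ i, av ((Lagrange.nodal s id).coeff i) ≤ M ^ s.card := by
  classical
  induction s using Finset.induction_on with
  | empty =>
    intro i
    rw [Lagrange.nodal_empty, coeff_one]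
    split_ifs <;> simp
  | insert a s ha ih =>
    intro i
    have ih' := ih fun z hz => hs z (by simp [hz])
    have h0 : 0 ≤ M ^ s.card := by positivity
    rw [Lagrange.nodal_insert_eq_nodal ha, Finset.card_insert_of_notMem ha, sub_mul, coeff_sub,
      coeff_C_mul, pow_succ']
    refine derloc_sub_le hna ?_ ?_
    · rcases i with _ | i
      · simp only [coeff_X_mul_zero, map_zero]
        positivity
      · rw [coeff_X_mul]
        exact (ih' i).trans (le_mul_of_one_le_left h0 hM)
    · rw [av.map_mul]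
      exact mul_le_mul (hs a (by simp)) (ih' i) (av.nonneg _) (by linarith)

theorem derloc_pco_deg {R : Type*} [CommRing R] [Algebra R K] (D : Derivation R K K) (p : K[X]) :
    (pco D p).natDegree ≤ p.natDegree := by
  rw [natDegree_le_iff_coeff_eq_zero]
  intro N hN
  rw [coeff_pco D.map_zero, coeff_eq_zero_of_natDegree_lt hN, D.map_zero]

theorem derloc_base {F : Type*} [Field F] [Algebra F K] {R : Type*} [CommRing R] [Algebra R K]
    (D : Derivation R K K)
    (h0 : ∀ a : F, av (algebraMap F K a) ≤ 1 → av (D (algebraMap F K a)) ≤ 1) (a : F) {c : ℝ}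
    (hc : 1 ≤ c) (ha : av (algebraMap F K a) ≤ c) : av (D (algebraMap F K a)) ≤ c ^ 2 := by
  by_cases h : av (algebraMap F K a) ≤ 1
  · exact (h0 a h).trans (one_le_pow₀ hc)
  · have h1 : 1 < av (algebraMap F K a) := not_le.1 h
    have h2 := h0 a⁻¹ (by rw [map_inv₀, map_inv₀]; exact inv_le_one_of_one_le₀ h1.le)
    have h3 : algebraMap F K a ≠ 0 := fun e => by
      rw [e, map_zero] at h1
      linarith
    have h4 : algebraMap F K a * algebraMap F K a⁻¹ = 1 := by
      rw [map_inv₀, mul_inv_cancel₀ h3]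
    rw [D.leibniz_of_mul_eq_one h4, smul_eq_mul, av.map_mul, av.map_neg, av.map_pow]
    calc _ ≤ c ^ 2 * 1 :=
          mul_le_mul (pow_le_pow_left₀ (av.nonneg _) ha 2) h2 (av.nonneg _) (by positivity)
      _ = c ^ 2 := mul_one _

/-- Step A. -/
theorem derloc_stepA {F : Type*} [Field F] [Algebra F K] [IsAlgClosed K] [CharZero F]
    (hna : IsNonarchimedean av) {R : Type*} [CommRing R] [Algebra R K] (D : Derivation R K K)
    (h0 : ∀ a : F, av (algebraMap F K a) ≤ 1 → av (D (algebraMap F K a)) ≤ 1) {χ : K}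
    (hχ : IsIntegral F χ) {b : ℕ} (hb : (minpoly F χ).natDegree ≤ b) {M Ξ : ℝ} (hM : 1 ≤ M)
    (hΞ : 1 ≤ Ξ) (hroot : ∀ s : K, aeval s (minpoly F χ) = 0 → av s ≤ M)
    (hder : ∀ s : K, aeval s (minpoly F χ) = 0 →
      M ^ b ≤ Ξ * av (aeval s (derivative (minpoly F χ))))
    (G : F[X]) (hG : ∀ s : K, aeval s (minpoly F χ) = 0 → av (aeval s G) ≤ 1) :
    av (D (aeval χ G)) ≤ Ξ ^ 2 * M ^ (3 * b) := by
  classical
  have hmon := minpoly.monic hχ
  have hsep : (minpoly F χ).Separable := (minpoly.irreducible hχ).separable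
  set μ : K[X] := (minpoly F χ).map (algebraMap F K) with hμ
  have hμm : μ.Monic := hmon.map _
  have hnd : μ.roots.Nodup := nodup_roots hsep.map
  set S : Finset K := μ.roots.toFinset with hS
  have hSv : S.val = μ.roots := by rw [hS, Multiset.toFinset_val, hnd.dedup]
  have hmem : ∀ s, s ∈ S ↔ aeval s (minpoly F χ) = 0 := fun s => by
    rw [hS, Multiset.mem_toFinset, mem_roots hμm.ne_zero, IsRoot.def, hμ, eval_map_algebraMap]
  have hnod : Lagrange.nodal S id = μ := by
    rw [Lagrange.nodal_eq, Finset.prod_eq_multiset_prod, hSv]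
    exact ((IsAlgClosed.splits μ).eq_prod_roots_of_monic hμm).symm
  have hcard : S.card = (minpoly F χ).natDegree := by
    rw [← Lagrange.natDegree_nodal (s := S) (v := id), hnod, hμ, hmon.natDegree_map]
  have hSM : ∀ z ∈ S, av z ≤ M := fun z hz => hroot z ((hmem z).1 hz)
  have hχ0 : aeval χ (minpoly F χ) = 0 := minpoly.aeval F χ
  have hχM := hroot χ hχ0
  have hMb : 1 ≤ M ^ b := one_le_pow₀ hM
  have hdeg : μ.natDegree ≤ b := by rw [hμ, hmon.natDegree_map]; exact hb
  have hDχ : av (D χ) ≤ Ξ * M ^ (2 * b) := by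
    have h1 := der_eval D μ χ
    rw [hμ, eval_map_algebraMap, hχ0, D.map_zero, derivative_map, eval_map_algebraMap, ← hμ] at h1
    have h2 : av ((pco D μ).eval χ) ≤ (M ^ b) ^ 2 * M ^ b := by
      refine derloc_eval_le hna ((derloc_pco_deg D μ).trans hdeg) (by positivity) hM
        (fun i => ?_) hχM
      rw [coeff_pco D.map_zero, hμ, coeff_map]
      refine derloc_base D h0 _ hMb ?_
      rw [← coeff_map, ← hμ, ← hnod]
      exact (derloc_nodal_le hna hM S hSM i).trans (pow_le_pow_right₀ hM (hcard ▸ hb))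
    rw [eq_neg_of_add_eq_zero_left h1.symm, av.map_neg, av.map_mul] at h2
    have h3 := hder χ hχ0
    have h4 : M ^ b * av (D χ) ≤ M ^ b * (Ξ * M ^ (2 * b)) := by
      calc M ^ b * av (D χ) ≤ Ξ * av (aeval χ (derivative (minpoly F χ))) * av (D χ) :=
            mul_le_mul_of_nonneg_right h3 (av.nonneg _)
        _ = Ξ * (av (aeval χ (derivative (minpoly F χ))) * av (D χ)) := mul_assoc _ _ _
        _ ≤ Ξ * ((M ^ b) ^ 2 * M ^ b) := mul_le_mul_of_nonneg_left h2 (by linarith)
        _ = M ^ b * (Ξ * M ^ (2 * b)) := by ring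
    exact le_of_mul_le_mul_left h4 (by linarith)
  set g : F[X] := G %ₘ minpoly F χ with hg
  have hgv : ∀ s : K, aeval s (minpoly F χ) = 0 → aeval s g = aeval s G := fun s hs =>
    aeval_modByMonic_eq_self_of_root hs
  have hgd : g.degree < (minpoly F χ).degree := degree_modByMonic_lt G hmon
  set g' : K[X] := g.map (algebraMap F K) with hg'
  have hgd' : g'.degree < S.card := by
    rw [hg', degree_map, hcard, ← degree_eq_natDegree hmon.ne_zero]
    exact hgd
  have hgn : g'.natDegree ≤ b := by
    rw [hg', natDegree_map]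
    exact (natDegree_le_natDegree hgd.le).trans hb
  have hco : ∀ i, av (g'.coeff i) ≤ Ξ := by
    intro i
    rw [Lagrange.eq_interpolate (v := id) (Set.injOn_id _) hgd',
      Lagrange.interpolate_eq_nodalWeight_mul_nodal_div_X_sub_C, finsetSum_coeff]
    refine derloc_sum_le hna _ _ (by linarith) fun s hs => ?_
    have hs0 := (hmem s).1 hs
    rw [coeff_mul_C, coeff_C_mul, ← Lagrange.nodal_erase_eq_nodal_div hs,
      Lagrange.nodalWeight_eq_eval_derivative_nodal hs, hnod, av.map_mul, av.map_mul, map_inv₀, hμ,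
      derivative_map, eval_map_algebraMap, hg', eval_map_algebraMap, id, hgv s hs0]
    have h1 : av ((Lagrange.nodal (S.erase s) id).coeff i) ≤ M ^ b :=
      (derloc_nodal_le hna hM _ (fun z hz => hSM z (Finset.mem_of_mem_erase hz)) i).trans
        (pow_le_pow_right₀ hM (Finset.card_erase_le.trans (hcard ▸ hb)))
    have h2 := hder s hs0
    have h3 : 0 < av (aeval s (derivative (minpoly F χ))) := by
      by_contra c
      have := le_antisymm (not_lt.1 c) (av.nonneg _)
      rw [this] at h2
      linarith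
    have h4 : (av (aeval s (derivative (minpoly F χ))))⁻¹ *
        av ((Lagrange.nodal (S.erase s) id).coeff i) ≤ Ξ := by
      rw [inv_mul_le_iff₀ h3, mul_comm]
      exact h1.trans h2
    calc _ ≤ Ξ * 1 := mul_le_mul h4 (hG s hs0) (av.nonneg _) (by linarith)
      _ = Ξ := mul_one _
  rw [← hgv χ hχ0, ← eval_map_algebraMap, ← hg', der_eval]
  refine (hna _ _).trans (max_le ?_ ?_)
  · refine (derloc_eval_le hna ((derloc_pco_deg D g').trans hgn) (c := Ξ ^ 2) (by positivity) hM
      (fun i => ?_) hχM).trans ?_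
    · rw [coeff_pco D.map_zero, hg', coeff_map]
      refine derloc_base D h0 _ hΞ ?_
      rw [← coeff_map, ← hg']
      exact hco i
    · exact mul_le_mul_of_nonneg_left (pow_le_pow_right₀ hM (by omega)) (by positivity)
  · have h1 : av ((derivative g').eval χ) ≤ Ξ * M ^ b := by
      refine derloc_eval_le hna ((natDegree_derivative_le _).trans (by omega)) (by linarith) hM
        (fun i => ?_) hχM
      rw [coeff_derivative, av.map_mul]
      have h2 : av ((i : K) + 1) ≤ 1 := by
        have := IsNonarchimedean.apply_natCast_le_one (n := i + 1) hna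
        rwa [Nat.cast_succ] at this
      calc _ ≤ Ξ * 1 := mul_le_mul (hco _) h2 (av.nonneg _) (by linarith)
        _ = Ξ := mul_one _
    rw [av.map_mul]
    calc _ ≤ Ξ * M ^ b * (Ξ * M ^ (2 * b)) := mul_le_mul h1 hDχ (av.nonneg _) (by positivity)
      _ = Ξ ^ 2 * M ^ (3 * b) := by ring

/-- An algebraic element of absolute value at most one is a quotient with small conjugates. -/
theorem derloc_quot {F : Type*} [Field F] [Algebra F K] (hna : IsNonarchimedean av) {x : K}
    (hx : IsAlgebraic F x) (hx1 : av x ≤ 1) :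
    ∃ a A : F[X], aeval x a = 0 ∧ av (aeval x A) = 1 ∧
      ∀ z : K, aeval z a = 0 → av (aeval z A) ≤ 1 ∧ av (z * aeval z A) ≤ 1 := by
  classical
  obtain ⟨a0, ha0, hx0⟩ := hx
  obtain ⟨j, hj, hmax⟩ := a0.support.exists_max_image (fun l => av (algebraMap F K (a0.coeff l)))
    (support_nonempty.2 ha0)
  have hj0 : a0.coeff j ≠ 0 := mem_support_iff.1 hj
  have hjp : 0 < av (algebraMap F K (a0.coeff j)) := av.pos (by simpa using hj0)
  set a : F[X] := C (a0.coeff j)⁻¹ * a0 with ha
  have hle : ∀ l, av (algebraMap F K (a.coeff l)) ≤ 1 := by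
    intro l
    rw [ha, coeff_C_mul, map_mul, av.map_mul, map_inv₀, map_inv₀, inv_mul_le_iff₀ hjp, mul_one]
    by_cases hl : l ∈ a0.support
    · exact hmax l hl
    · rw [notMem_support_iff.1 hl, map_zero, map_zero]
      exact hjp.le
  have hne : (a.support.filter fun l => av (algebraMap F K (a.coeff l)) = 1).Nonempty := by
    have : a.coeff j = 1 := by rw [ha, coeff_C_mul, inv_mul_cancel₀ hj0]
    exact ⟨j, by simp [this]⟩
  obtain ⟨i, hi, him⟩ := Finset.exists_max_image _ id hne
  have hi1 : av (algebraMap F K (a.coeff i)) = 1 := (Finset.mem_filter.1 hi).2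
  have hlt : ∀ l, i < l → av (algebraMap F K (a.coeff l)) < 1 := by
    intro l hl
    refine lt_of_le_of_ne (hle l) fun c => ?_
    have h1 : l ∈ a.support := by
      rw [mem_support_iff]
      intro e
      rw [e, map_zero, map_zero] at c
      exact zero_ne_one c
    have := him l (Finset.mem_filter.2 ⟨h1, c⟩)
    simp only [id] at this
    omega
  have hA : ∀ z : K, aeval z (∑ l ∈ Finset.range (a.natDegree + 1), monomial l (a.coeff (i + l))) =
      ∑ l ∈ Finset.range (a.natDegree + 1), algebraMap F K (a.coeff (i + l)) * z ^ l := by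
    intro z
    simp only [map_sum, aeval_monomial]
  refine ⟨a, ∑ l ∈ Finset.range (a.natDegree + 1), monomial l (a.coeff (i + l)),
    by rw [ha, map_mul, hx0, mul_zero], ?_, fun z hz => ?_⟩
  · rw [hA, Finset.sum_range_succ', add_zero, pow_zero, mul_one,
      IsNonarchimedean.add_eq_right_of_lt hna, hi1]
    rw [hi1]
    refine derloc_sum_lt hna _ _ one_pos fun l _ => ?_
    rw [av.map_mul, av.map_pow]
    calc _ ≤ av (algebraMap F K (a.coeff (i + (l + 1)))) * 1 :=
          mul_le_mul_of_nonneg_left (pow_le_one₀ (av.nonneg _) hx1) (av.nonneg _)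
      _ < 1 := by rw [mul_one]; exact hlt _ (by omega)
  · by_cases h : av z ≤ 1
    · have h1 : av (aeval z (∑ l ∈ Finset.range (a.natDegree + 1),
          monomial l (a.coeff (i + l)))) ≤ 1 := by
        rw [hA]
        refine derloc_sum_le hna _ _ zero_le_one fun l _ => ?_
        rw [av.map_mul, av.map_pow]
        exact mul_le_one₀ (hle _) (by positivity) (pow_le_one₀ (av.nonneg _) h)
      refine ⟨h1, ?_⟩
      rw [av.map_mul]
      exact mul_le_one₀ h (av.nonneg _) h1
    · have h1 : 1 < av z := not_le.1 h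
      rw [aeval_eq_sum_range' (n := i + (a.natDegree + 1)) (by omega), Finset.sum_range_add] at hz
      have h2 : z ^ i * (z * aeval z (∑ l ∈ Finset.range (a.natDegree + 1),
          monomial l (a.coeff (i + l)))) = -∑ l ∈ Finset.range i, z * (a.coeff l • z ^ l) := by
        rw [hA, ← Finset.mul_sum, eq_neg_of_add_eq_zero_left hz, mul_neg, neg_neg, mul_left_comm,
          Finset.mul_sum]
        congr 1
        refine Finset.sum_congr rfl fun l _ => ?_
        rw [Algebra.smul_def, pow_add]
        ring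
      have h3 : av (z ^ i * (z * aeval z (∑ l ∈ Finset.range (a.natDegree + 1),
          monomial l (a.coeff (i + l))))) ≤ av z ^ i * 1 := by
        rw [h2, av.map_neg, mul_one]
        refine derloc_sum_le hna _ _ (by positivity) fun l hl => ?_
        rw [Algebra.smul_def, mul_left_comm, ← pow_succ', av.map_mul, av.map_pow]
        calc _ ≤ 1 * av z ^ i := mul_le_mul (hle l)
              (pow_le_pow_right₀ h1.le (Finset.mem_range.1 hl)) (by positivity) zero_le_one
          _ = _ := one_mul _
      rw [av.map_mul, av.map_pow] at h3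
      have h4 := le_of_mul_le_mul_left h3 (by positivity)
      refine ⟨?_, h4⟩
      rw [av.map_mul] at h4
      exact (le_mul_of_one_le_left (av.nonneg _) h1.le).trans h4

theorem derloc_finrank {F : Type*} [Field F] [Algebra F K] {ι : Type*} {B : ℕ} (y : ι → K)
    (hy : ∀ i, IsIntegral F (y i)) (hB : ∀ i, (minpoly F (y i)).natDegree ≤ B) (s : Finset ι) :
    Module.finrank F (IntermediateField.adjoin F (y '' s)) ≤ B ^ s.card := by
  classical
  induction s using Finset.induction_on with
  | empty =>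
    rw [Finset.coe_empty, Set.image_empty, IntermediateField.adjoin_empty,
      IntermediateField.finrank_bot, Finset.card_empty, pow_zero]
  | insert a s ha ih =>
    rw [Finset.coe_insert, Set.image_insert_eq, Set.insert_eq, IntermediateField.adjoin_union,
      Finset.card_insert_of_notMem ha, pow_succ']
    refine (IntermediateField.finrank_sup_le _ _).trans (Nat.mul_le_mul ?_ ih)
    rw [IntermediateField.adjoin.finrank (hy a)]
    exact hB a

end aux

/-- First, `av (D a) ≤ max 1 (av a) ^ 2` on `F` (apply `h0` to `a` or to `a⁻¹`).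
Let `μ` be the minimal polynomial, with distinct roots `χ s` in `K`; its coefficients are at most
`M ^ b`, and `μ'(χ) * D χ = - (pco D μ)(χ)` (`der_eval`) gives `av (D χ) ≤ M ^ (2 b) * Ξ`.
Step A: if `g ∈ F[X]` has degree less than that of `μ` and `av (g (χ s)) ≤ 1` for all `s`, Lagrange
interpolation bounds its coefficients by `Ξ`, hence `av (D (g χ)) ≤ Ξ ^ 2 * M ^ (3 b)`.
Step B: let `x = g χ` and `a ≠ 0` in `F[X]` with `a x = 0`, scaled so that the largest coefficient
has absolute value one, `i` the largest index where this happens.  Put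
`y2 = ∑ l ≥ i, a l * x ^ (l - i)` and `y1 = x * y2`.  Then `av y2 = 1`, and both are values at `χ` of
polynomials (reduce modulo `μ`) whose values at each `χ s` are the same expressions in
`x s = g (χ s)`, a root of `a`; they are at most one (if `1 < av (x s)` use the relation
`a (x s) = 0`).  Then `D x = (y2 * D y1 - y1 * D y2) / y2 ^ 2`. -/
theorem derloc {F K : Type*} [Field F] [Field K] [Algebra F K] [IsAlgClosed K] [CharZero F]
    (av : AbsoluteValue K ℝ) (hna : IsNonarchimedean av) {R : Type*} [CommRing R] [Algebra R K]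
    (D : Derivation R K K)
    (h0 : ∀ a : F, av (algebraMap F K a) ≤ 1 → av (D (algebraMap F K a)) ≤ 1) {χ : K}
    (hχ : IsIntegral F χ) {b : ℕ} (hb : (minpoly F χ).natDegree ≤ b) {M Ξ : ℝ} (hM : 1 ≤ M)
    (hΞ : 1 ≤ Ξ) (hroot : ∀ s : K, aeval s (minpoly F χ) = 0 → av s ≤ M)
    (hder : ∀ s : K, aeval s (minpoly F χ) = 0 →
      M ^ b ≤ Ξ * av (aeval s (derivative (minpoly F χ))))
    {x : K} (hx : x ∈ IntermediateField.adjoin F {χ}) (hx1 : av x ≤ 1) :
    av (D x) ≤ Ξ ^ 2 * M ^ (3 * b) := by
  have hx' : x ∈ (IntermediateField.adjoin F {χ}).toSubalgebra := hx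
  rw [IntermediateField.adjoin_simple_toSubalgebra_of_isAlgebraic hχ.isAlgebraic,
    Algebra.adjoin_singleton_eq_range_aeval] at hx'
  obtain ⟨g, hg⟩ := hx'
  replace hg : aeval χ g = x := hg
  have halg : IsAlgebraic F x := by
    have := IntermediateField.adjoin.finiteDimensional hχ
    exact ((IsIntegral.of_finite F (⟨x, hx⟩ : IntermediateField.adjoin F {χ})).map
      (IntermediateField.val _)).isAlgebraic
  obtain ⟨a, A, h1, h2, h3⟩ := derloc_quot hna halg hx1
  have hr : ∀ s : K, aeval s (minpoly F χ) = 0 → aeval (aeval s g) a = 0 := by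
    intro s hs
    have : minpoly F χ ∣ a.comp g := minpoly.dvd F χ (by rw [aeval_comp, hg, h1])
    rw [← aeval_comp]
    exact aeval_eq_zero_of_dvd_aeval_eq_zero this hs
  have e2 := derloc_stepA hna D h0 hχ hb hM hΞ hroot hder (A.comp g) fun s hs => by
    rw [aeval_comp]
    exact (h3 _ (hr s hs)).1
  have e1 := derloc_stepA hna D h0 hχ hb hM hΞ hroot hder (g * A.comp g) fun s hs => by
    rw [map_mul, aeval_comp]
    exact (h3 _ (hr s hs)).2
  rw [aeval_comp, hg] at e2
  rw [map_mul, aeval_comp, hg] at e1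
  have e3 : aeval x A * D x = D (x * aeval x A) - x * D (aeval x A) := by
    rw [D.leibniz, smul_eq_mul, smul_eq_mul]
    ring
  have e4 := congrArg av e3
  rw [av.map_mul, h2, one_mul] at e4
  rw [e4]
  refine derloc_sub_le hna e1 ?_
  rw [av.map_mul]
  calc _ ≤ 1 * (Ξ ^ 2 * M ^ (3 * b)) := mul_le_mul hx1 e2 (av.nonneg _) zero_le_one
    _ = _ := one_mul _

/-- A primitive element that is a combination with natural coefficients.  Let `E` be generated by
the `y i`; there are finitely many `F`-embeddings of `E` into `K`; for `s : ℕ` outside the roots of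
finitely many nonzero polynomials, `∑ s ^ i * y i` separates them
(`Field.primitive_element_iff_algHom_eq_of_eval'`). -/
theorem prim {F K : Type*} [Field F] [Field K] [Algebra F K] [IsAlgClosed K] [CharZero F] {r B : ℕ}
    (y : Fin r → K) (hy : ∀ i, IsIntegral F (y i)) (hB : ∀ i, (minpoly F (y i)).natDegree ≤ B) :
    ∃ c : Fin r → ℕ, IsIntegral F (∑ i, (c i : K) * y i) ∧
      (∀ i, y i ∈ IntermediateField.adjoin F {∑ i, (c i : K) * y i}) ∧
      (minpoly F (∑ i, (c i : K) * y i)).natDegree ≤ B ^ r := by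
  classical
  have : CharZero K := charZero_of_injective_algebraMap (algebraMap F K).injective
  set E := IntermediateField.adjoin F (Set.range y) with hE
  have : FiniteDimensional F E := IntermediateField.finiteDimensional_adjoin fun x hx => by
    obtain ⟨i, rfl⟩ := hx
    exact hy i
  have hyE : ∀ i, y i ∈ E := fun i => IntermediateField.subset_adjoin _ _ ⟨i, rfl⟩
  let P : (E →ₐ[F] K) × (E →ₐ[F] K) → K[X] := fun z =>
    ∑ i : Fin r, monomial (i : ℕ) (z.1 ⟨y i, hyE i⟩ - z.2 ⟨y i, hyE i⟩)
  have hP : ∀ z : (E →ₐ[F] K) × (E →ₐ[F] K), z.1 ≠ z.2 → P z ≠ 0 := by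
    intro z hz h
    refine hz (IntermediateField.adjoin_algHom_ext F fun x hx => ?_)
    obtain ⟨i, rfl⟩ := hx
    have h1 := congrArg (fun p => coeff p i) h
    simp only [P, finsetSum_coeff, coeff_monomial, coeff_zero, Fin.val_inj, Finset.sum_ite_eq',
      Finset.mem_univ, if_true] at h1
    exact sub_eq_zero.1 h1
  have hQ : ∏ z ∈ Finset.univ.filter (fun z : (E →ₐ[F] K) × (E →ₐ[F] K) => z.1 ≠ z.2), P z ≠ 0 :=
    Finset.prod_ne_zero_iff.2 fun z hz => hP z (Finset.mem_filter.1 hz).2
  obtain ⟨s, hs⟩ : ∃ s : ℕ, (∏ z ∈ Finset.univ.filter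
      (fun z : (E →ₐ[F] K) × (E →ₐ[F] K) => z.1 ≠ z.2), P z).eval (s : K) ≠ 0 := by
    by_contra c
    push Not at c
    refine hQ (eq_zero_of_infinite_isRoot _ ?_)
    exact (Set.infinite_range_of_injective (Nat.cast_injective (R := K))).mono
      (by rintro _ ⟨s, rfl⟩; exact c s)
  let θ : E := ∑ i : Fin r, ((s ^ (i : ℕ) : ℕ) : E) * ⟨y i, hyE i⟩
  have hθ : (θ : K) = ∑ i : Fin r, ((s ^ (i : ℕ) : ℕ) : K) * y i := by simp [θ]
  have htop : IntermediateField.adjoin F {θ} = ⊤ := by
    rw [Field.primitive_element_iff_algHom_eq_of_eval' F K fun _ => IsAlgClosed.splits _]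
    intro φ ψ h
    by_contra c
    rw [eval_prod] at hs
    refine Finset.prod_ne_zero_iff.1 hs (φ, ψ) (by simpa using c) ?_
    have h' : φ θ - ψ θ = 0 := sub_eq_zero.2 h
    rw [← h']
    simp only [P, θ, eval_finsetSum, eval_monomial, map_sum, map_mul, map_natCast,
      ← Finset.sum_sub_distrib]
    refine Finset.sum_congr rfl fun i _ => ?_
    push_cast
    ring
  have hadj : IntermediateField.adjoin F {∑ i : Fin r, ((s ^ (i : ℕ) : ℕ) : K) * y i} = E := by
    rw [← hθ, ← IntermediateField.lift_adjoin_simple, htop, IntermediateField.lift_top]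
  have hint : IsIntegral F (∑ i : Fin r, ((s ^ (i : ℕ) : ℕ) : K) * y i) := by
    rw [← hθ]
    exact (IsIntegral.of_finite F θ).map E.val
  refine ⟨fun i => s ^ (i : ℕ), hint, fun i => hadj ▸ hyE i, ?_⟩
  rw [← IntermediateField.adjoin.finrank hint, hadj]
  have := derloc_finrank y hy hB Finset.univ
  rwa [Finset.coe_univ, Set.image_univ, Finset.card_univ, Fintype.card_fin] at this

end Pool.Agent.Lib.MP_0dd0d9_ag
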