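import Pool.Agent.Lib.MP_0dd0d9_ag.Alg2

/-!
TASK g0d PF.  The places of a rational function field over an algebraically closed field.

Every element of `k⟮t⟯` is `aeval t r / aeval t s` (`IntermediateField.mem_adjoin_simple_iff`), and
polynomials over `k` split.  `av (some p) (t - a) = 1` for `a ≠ p` and `av none (t - a) = exp 1`.
-/

namespace Pool.Agent.Lib.MP_0dd0d9_ag

open Polynomial

variable {k K : Type*} [Field k] [Field K] [Algebra k K] [IsAlgClosed k]

/-- The family of all places. -/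
structure Places (t : K) (av : Option k → AbsoluteValue K ℝ) : Prop where
  tr : Transcendental k t
  na : ∀ p, IsNonarchimedean (av p)
  cst : ∀ p (a : k), a ≠ 0 → av p (algebraMap k K a) = 1
  fin : ∀ p : k, av (some p) (t - algebraMap k K p) = Real.exp (-1)
  inf : av none t = Real.exp 1

section one

omit [IsAlgClosed k]

variable {v : AbsoluteValue K ℝ} {u : K} {p : k}

lemma pf_add_eq (hna : IsNonarchimedean v) {x y : K} (h : v x < v y) : v (x + y) = v y := by
  refine le_antisymm ((hna x y).trans (max_le h.le le_rfl)) ?_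
  have h1 := hna (x + y) (-x)
  rw [add_neg_cancel_comm, v.map_neg] at h1
  exact (le_max_iff.1 h1).resolve_right h.not_ge

lemma pf_cle (hc : ∀ a : k, a ≠ 0 → v (algebraMap k K a) = 1) (a : k) :
    v (algebraMap k K a) ≤ 1 := by
  rcases eq_or_ne a 0 with rfl | h
  · simp
  · exact (hc a h).le

lemma pf_ule (hna : IsNonarchimedean v) (hc : ∀ a : k, a ≠ 0 → v (algebraMap k K a) = 1)
    (hu : v (u - algebraMap k K p) < 1) : v u ≤ 1 := by
  have := hna (u - algebraMap k K p) (algebraMap k K p)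
  rw [sub_add_cancel] at this
  exact this.trans (max_le hu.le (pf_cle hc p))

lemma pf_aeval_le (hna : IsNonarchimedean v) (hc : ∀ a : k, a ≠ 0 → v (algebraMap k K a) = 1)
    (hu : v u ≤ 1) (r : k[X]) : v (aeval u r) ≤ 1 := by
  induction r using Polynomial.induction_on' with
  | add a b ha hb => rw [map_add]; exact (hna _ _).trans (max_le ha hb)
  | monomial n a =>
    rw [aeval_monomial, map_mul, map_pow]
    exact mul_le_one₀ (pf_cle hc a) (pow_nonneg (v.nonneg _) _) (pow_le_one₀ (v.nonneg _) hu)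

lemma pf_aeval_sub (hna : IsNonarchimedean v) (hc : ∀ a : k, a ≠ 0 → v (algebraMap k K a) = 1)
    (hu : v (u - algebraMap k K p) < 1) (r : k[X]) :
    v (aeval u r - algebraMap k K (r.eval p)) < 1 := by
  obtain ⟨q, hq⟩ := X_sub_C_dvd_sub_C_eval (p := r) (a := p)
  have e := congrArg (aeval u) hq
  rw [map_sub, map_mul, map_sub, aeval_C, aeval_C, aeval_X] at e
  rw [e, map_mul]
  exact mul_lt_one_of_nonneg_of_lt_one_left (v.nonneg _) hu
    (pf_aeval_le hna hc (pf_ule hna hc hu) q)

lemma pf_aeval_eq (hna : IsNonarchimedean v) (hc : ∀ a : k, a ≠ 0 → v (algebraMap k K a) = 1)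
    (hu : v (u - algebraMap k K p) < 1) {r : k[X]} (hr : r.eval p ≠ 0) : v (aeval u r) = 1 := by
  have h := pf_add_eq hna (x := aeval u r - algebraMap k K (r.eval p))
    (y := algebraMap k K (r.eval p)) (by rw [hc _ hr]; exact pf_aeval_sub hna hc hu r)
  rwa [sub_add_cancel, hc _ hr] at h

lemma pf_den (hna : IsNonarchimedean v) (hc : ∀ a : k, a ≠ 0 → v (algebraMap k K a) = 1)
    (hu : v (u - algebraMap k K p) < 1) {r s : k[X]} (hrs : IsCoprime r s) (hs : aeval u s ≠ 0)
    (h : v (aeval u r / aeval u s) ≤ 1) : s.eval p ≠ 0 := by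
  intro h0
  have hr : r.eval p ≠ 0 := by
    intro h1
    obtain ⟨a, b, e⟩ := hrs
    simpa [h0, h1] using congrArg (eval p) e
  have h2 := pf_aeval_sub hna hc hu s
  rw [h0, map_zero, sub_zero] at h2
  rw [map_div₀, pf_aeval_eq hna hc hu hr, div_le_one (v.pos hs)] at h
  exact h2.not_ge h

lemma pf_rep {x : K} (hx : x ∈ IntermediateField.adjoin k {u}) :
    ∃ r s : k[X], IsCoprime r s ∧ aeval u s ≠ 0 ∧ x = aeval u r / aeval u s := by
  classical
  obtain ⟨r, s, rfl⟩ := (IntermediateField.mem_adjoin_simple_iff k x).1 hx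
  by_cases hs : aeval u s = 0
  · exact ⟨0, 1, isCoprime_one_right, by simp, by simp [hs]⟩
  obtain ⟨r', s', e1, e2, e3⟩ := extract_gcd r s
  generalize gcd r s = g at e1 e2
  subst e1 e2
  rw [map_mul, mul_eq_zero, not_or] at hs
  exact ⟨r', s', (gcd_isUnit_iff _ _).1 e3, hs.2, by
    rw [map_mul, map_mul, mul_div_mul_left _ _ hs.1]⟩

lemma pf_der_one (hna : IsNonarchimedean v) (hc : ∀ a : k, a ≠ 0 → v (algebraMap k K a) = 1)
    (hu : v (u - algebraMap k K p) < 1) {R : Type*} [CommRing R] [Algebra R K]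
    (D : Derivation R K K) (hk : ∀ a : k, v (D (algebraMap k K a)) ≤ 1) (hD : v (D u) ≤ 1) {x : K}
    (hx : x ∈ IntermediateField.adjoin k {u}) (hle : v x ≤ 1) : v (D x) ≤ 1 := by
  have hu1 := pf_ule hna hc hu
  have hm : ∀ a b : K, v a ≤ 1 → v b ≤ 1 → v (a * b) ≤ 1 := fun a b ha hb => by
    rw [map_mul]
    exact mul_le_one₀ ha (v.nonneg _) hb
  have key : ∀ r : k[X], v (D (aeval u r)) ≤ 1 := by
    intro r
    induction r using Polynomial.induction_on with
    | C a => rw [aeval_C]; exact hk a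
    | add a b ha hb => rw [map_add, map_add]; exact (hna _ _).trans (max_le ha hb)
    | monomial n a ih =>
      rw [pow_succ, ← mul_assoc, map_mul, aeval_X, D.leibniz, smul_eq_mul, smul_eq_mul]
      exact (hna _ _).trans (max_le (hm _ _ (pf_aeval_le hna hc hu1 _) hD) (hm _ _ hu1 ih))
  obtain ⟨r, s, hrs, hs, rfl⟩ := pf_rep hx
  have h1 := pf_aeval_eq hna hc hu (pf_den hna hc hu hrs hs hle)
  rw [D.leibniz_div, smul_eq_mul, smul_eq_mul, smul_eq_mul, map_mul, map_pow, map_inv₀, h1,
    inv_one, one_pow, one_mul, sub_eq_add_neg]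
  refine (hna _ _).trans (max_le (hm _ _ h1.le (key r)) ?_)
  rw [v.map_neg]
  exact hm _ _ (pf_aeval_le hna hc hu1 _) (key s)

end one

lemma pf_ind {Q : k[X] → Prop} (hC : ∀ a, a ≠ 0 → Q (C a))
    (hm : ∀ a r, r ≠ 0 → Q r → Q ((X - C a) * r)) {r : k[X]} (hr : r ≠ 0) : Q r := by
  rw [(IsAlgClosed.splits r).eq_prod_roots]
  have hc := leadingCoeff_ne_zero.2 hr
  generalize r.leadingCoeff = c at hc
  induction r.roots using Multiset.induction_on with
  | empty => simpa using hC c hc
  | cons a m ih =>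
    rw [Multiset.map_cons, Multiset.prod_cons, mul_left_comm]
    exact hm _ _ (mul_ne_zero (C_ne_zero.2 hc)
      (monic_multiset_prod_of_monic _ _ fun a _ => monic_X_sub_C a).ne_zero) ih

variable {t : K} {av : Option k → AbsoluteValue K ℝ}

omit [IsAlgClosed k] in
lemma Places.pf_lt (h : Places t av) (p : k) : av (some p) (t - algebraMap k K p) < 1 := by
  rw [h.fin]
  exact Real.exp_lt_one_iff.2 (by norm_num)

omit [IsAlgClosed k] in
lemma Places.pf_inf (h : Places t av) (a : k) : av none (t - algebraMap k K a) = Real.exp 1 := by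
  rw [sub_eq_neg_add, pf_add_eq (h.na none), h.inf]
  rw [(av none).map_neg, h.inf]
  exact (pf_cle (h.cst none) a).trans_lt (Real.one_lt_exp_iff.2 one_pos)

omit [IsAlgClosed k] in
lemma Places.pf_fin (h : Places t av) {p a : k} (hpa : p ≠ a) :
    av (some p) (t - algebraMap k K a) = 1 := by
  have := pf_aeval_eq (h.na _) (h.cst _) (h.pf_lt p) (r := X - C a) (by simpa [sub_eq_zero])
  simpa using this

omit [IsAlgClosed k] in
lemma Places.pf_ne (h : Places t av) {r : k[X]} (hr : r ≠ 0) : aeval t r ≠ 0 :=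
  fun e => hr (transcendental_iff.1 h.tr r e)

lemma Places.pf_deg (h : Places t av) {r : k[X]} (hr : r ≠ 0) :
    av none (aeval t r) = Real.exp r.natDegree := by
  refine pf_ind (Q := fun r => av none (aeval t r) = Real.exp r.natDegree) ?_ ?_ hr
  · intro a ha
    simp [h.cst none a ha]
  · intro a r hr ih
    rw [natDegree_mul (X_sub_C_ne_zero a) hr, natDegree_X_sub_C, map_mul, map_mul, map_sub, aeval_X,
      aeval_C, h.pf_inf, ih, ← Real.exp_add]
    push_cast
    rfl

lemma Places.pf_poly (h : Places t av) {r : k[X]} (hr : r ≠ 0) :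
    ∃ P0 : Finset (Option k), ∀ P : Finset (Option k), P0 ⊆ P →
      ∑ p ∈ P, Real.log (av p (aeval t r)) = 0 := by
  classical
  refine pf_ind (Q := fun r => ∃ P0 : Finset (Option k), ∀ P : Finset (Option k), P0 ⊆ P →
      ∑ p ∈ P, Real.log (av p (aeval t r)) = 0) ?_ ?_ hr
  · intro a ha
    exact ⟨∅, fun P _ => Finset.sum_eq_zero fun p _ => by rw [aeval_C, h.cst p a ha, Real.log_one]⟩
  · rintro a r hr ⟨P0, hP⟩
    refine ⟨P0 ∪ {none, some a}, fun P hs => ?_⟩
    have e : ∀ p, Real.log (av p (aeval t ((X - C a) * r))) =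
        Real.log (av p (t - algebraMap k K a)) + Real.log (av p (aeval t r)) := by
      intro p
      rw [map_mul, map_mul, Real.log_mul ((av p).pos (h.pf_ne (X_sub_C_ne_zero a))).ne'
        ((av p).pos (h.pf_ne hr)).ne', map_sub, aeval_X, aeval_C]
    simp only [e]
    rw [Finset.sum_add_distrib, hP P (Finset.subset_union_left.trans hs), add_zero,
      ← Finset.sum_subset (Finset.subset_union_right.trans hs), Finset.sum_pair (by simp),
      h.pf_inf, h.fin, Real.log_exp, Real.log_exp, add_neg_cancel]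
    intro p _ hp
    rcases p with _ | p
    · simp at hp
    · rw [h.pf_fin (by simpa using hp), Real.log_one]

theorem pf_sum (h : Places t av) {x : K} (hx : x ∈ IntermediateField.adjoin k {t}) (h0 : x ≠ 0) :
    ∃ P0 : Finset (Option k), ∀ P : Finset (Option k), P0 ⊆ P →
      ∑ p ∈ P, Real.log (av p x) = 0 := by
  classical
  obtain ⟨r, s, -, hs, rfl⟩ := pf_rep hx
  have hr : aeval t r ≠ 0 := fun e => h0 (by rw [e, zero_div])
  obtain ⟨P1, h1⟩ := h.pf_poly (r := r) fun e => hr (by rw [e, map_zero])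
  obtain ⟨P2, h2⟩ := h.pf_poly (r := s) fun e => hs (by rw [e, map_zero])
  refine ⟨P1 ∪ P2, fun P hP => ?_⟩
  have e : ∀ p, Real.log (av p (aeval t r / aeval t s)) =
      Real.log (av p (aeval t r)) - Real.log (av p (aeval t s)) := fun p => by
    rw [map_div₀, Real.log_div ((av p).pos hr).ne' ((av p).pos hs).ne']
  simp only [e]
  rw [Finset.sum_sub_distrib, h1 P (Finset.subset_union_left.trans hP),
    h2 P (Finset.subset_union_right.trans hP), sub_zero]

/-- Write `x` as a quotient of coprime polynomials. -/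
theorem pf_const (h : Places t av) {x : K} (hx : x ∈ IntermediateField.adjoin k {t})
    (hle : ∀ p, av p x ≤ 1) : x ∈ (algebraMap k K).range := by
  obtain ⟨r, s, hrs, hs, rfl⟩ := pf_rep hx
  have hd : s.degree = 0 := by
    by_contra hd
    obtain ⟨p, hp⟩ := IsAlgClosed.exists_root s hd
    exact pf_den (h.na _) (h.cst _) (h.pf_lt p) hrs hs (hle _) hp
  have hs0 : s ≠ 0 := fun e => hs (by rw [e, map_zero])
  rcases eq_or_ne r 0 with rfl | hr
  · rw [map_zero, zero_div]
    exact zero_mem _
  have h1 := hle none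
  rw [map_div₀, h.pf_deg hr, h.pf_deg hs0, natDegree_eq_zero_iff_degree_le_zero.2 hd.le,
    Nat.cast_zero, Real.exp_zero, div_one, Real.exp_le_one_iff] at h1
  have h2 : r.natDegree = 0 := by exact_mod_cast le_antisymm h1 (Nat.cast_nonneg _)
  rw [eq_C_of_natDegree_eq_zero h2, eq_C_of_degree_eq_zero hd, aeval_C, aeval_C, ← map_div₀]
  exact ⟨_, rfl⟩

/-- Write `x = r(π) / s(π)` with `s(0) ≠ 0`, where `π = t - p` or `π = t⁻¹`; `D π` has absolute
value at most one, and so has `D` of every polynomial in `π` (`der_eval`). -/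
theorem pf_der (h : Places t av) {R : Type*} [CommRing R] [Algebra R K] (D : Derivation R K K)
    (hk : ∀ a : k, D (algebraMap k K a) ∈ (algebraMap k K).range)
    (ht : D t ∈ (algebraMap k K).range) {x : K} (hx : x ∈ IntermediateField.adjoin k {t})
    (p : Option k) (hle : av p x ≤ 1) : av p (D x) ≤ 1 := by
  have hk' : ∀ a : k, av p (D (algebraMap k K a)) ≤ 1 := fun a => by
    obtain ⟨b, hb⟩ := hk a
    rw [← hb]
    exact pf_cle (h.cst p) b
  have ht' : av p (D t) ≤ 1 := by
    obtain ⟨b, hb⟩ := ht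
    rw [← hb]
    exact pf_cle (h.cst p) b
  rcases p with _ | p
  · have h1 : av none t⁻¹ < 1 := by
      rw [map_inv₀, h.inf]
      exact inv_lt_one_of_one_lt₀ (Real.one_lt_exp_iff.2 one_pos)
    refine pf_der_one (u := t⁻¹) (p := 0) (h.na _) (h.cst _) (by simpa using h1) D hk' ?_ ?_ hle
    · rw [D.leibniz_inv, smul_eq_mul, map_mul, (av none).map_neg, map_pow]
      exact mul_le_one₀ (pow_le_one₀ ((av none).nonneg _) h1.le) ((av none).nonneg _) ht'
    · refine IntermediateField.adjoin_simple_le_iff.2 ?_ hx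
      have := inv_mem (IntermediateField.mem_adjoin_simple_self k t⁻¹)
      rwa [inv_inv] at this
  · exact pf_der_one (h.na _) (h.cst _) (h.pf_lt p) D hk' ht' hx hle

end Pool.Agent.Lib.MP_0dd0d9_ag
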