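import Pool.Agent.Lib.MP_0dd0d9_ag.Defs

/-!
TASK g0d Place.  A place of an algebraically closed function field, realised inside an ultrapower
of the complex numbers.
-/

namespace Pool.Agent.Lib.MP_0dd0d9_ag

open Polynomial

section aux

open Filter

/-- The sequence `f` has the size of `(N + 1) ^ (-r)`, up to bounded factors. -/
def PlaceOrd (f : ℕ → ℂ) (r : ℝ) : Prop :=
  ∃ M : ℝ, ∀ᶠ N in (hyperfilter ℕ : Filter ℕ),
    f N ≠ 0 ∧ |Real.log ‖f N‖ + r * Real.log ((N : ℝ) + 1)| ≤ M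

theorem place_tendsto :
    Tendsto (fun N : ℕ => Real.log ((N : ℝ) + 1)) (hyperfilter ℕ : Filter ℕ) atTop :=
  (Real.tendsto_log_atTop.comp (tendsto_atTop_add_const_right _ 1
    tendsto_natCast_atTop_atTop)).mono_left Nat.hyperfilter_le_atTop

theorem PlaceOrd.congr {f g : ℕ → ℂ} {r : ℝ} (h : PlaceOrd f r)
    (e : ∀ᶠ N in (hyperfilter ℕ : Filter ℕ), g N = f N) : PlaceOrd g r := by
  obtain ⟨M, hM⟩ := h
  refine ⟨M, ?_⟩
  filter_upwards [hM, e] with N h1 h2
  rwa [h2]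

theorem PlaceOrd.mul {f g : ℕ → ℂ} {r r' : ℝ} (h : PlaceOrd f r) (h' : PlaceOrd g r') :
    PlaceOrd (fun N => f N * g N) (r + r') := by
  obtain ⟨M, hM⟩ := h
  obtain ⟨M', hM'⟩ := h'
  refine ⟨M + M', ?_⟩
  filter_upwards [hM, hM'] with N h1 h2
  refine ⟨mul_ne_zero h1.1 h2.1, ?_⟩
  rw [norm_mul, Real.log_mul (norm_ne_zero_iff.2 h1.1) (norm_ne_zero_iff.2 h2.1)]
  have a1 := abs_le.1 h1.2
  have a2 := abs_le.1 h2.2
  rw [abs_le]
  constructor <;> nlinarith [a1.1, a1.2, a2.1, a2.2]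

theorem place_ord_of_tendsto {f : ℕ → ℂ} {z : ℂ} (hz : z ≠ 0)
    (h : Tendsto f (hyperfilter ℕ : Filter ℕ) (nhds z)) : PlaceOrd f 0 := by
  have h1 : Tendsto (fun N => |Real.log ‖f N‖|) (hyperfilter ℕ : Filter ℕ)
      (nhds |Real.log ‖z‖|) := (h.norm.log (norm_ne_zero_iff.2 hz)).abs
  refine ⟨|Real.log ‖z‖| + 1, ?_⟩
  filter_upwards [h.eventually_ne hz, h1.eventually (gt_mem_nhds (lt_add_one _))] with N a1 a2
  refine ⟨a1, ?_⟩
  rw [zero_mul, add_zero]
  exact a2.le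

theorem place_ord_eps : PlaceOrd (fun N : ℕ => ((N : ℂ) + 1)⁻¹) 1 := by
  refine ⟨0, Eventually.of_forall fun N => ⟨inv_ne_zero (Nat.cast_add_one_ne_zero N), ?_⟩⟩
  have h : ‖(N : ℂ) + 1‖ = (N : ℝ) + 1 := by
    rw [← Nat.cast_add_one, Complex.norm_natCast, Nat.cast_add_one]
  rw [norm_inv, h, Real.log_inv]
  simp

theorem place_ord_pow (m : ℕ) : PlaceOrd (fun N : ℕ => ((N : ℂ) + 1)⁻¹ ^ m) m := by
  induction m with
  | zero =>
    simpa using place_ord_of_tendsto (f := fun _ => 1) one_ne_zero tendsto_const_nhds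
  | succ m ih =>
    have h := ih.mul place_ord_eps
    simpa [pow_succ] using h

theorem place_ord_poly {p : ℂ[X]} (hp : p ≠ 0) :
    ∃ r, PlaceOrd (fun N : ℕ => p.eval ((N : ℂ) + 1)⁻¹) r := by
  obtain ⟨q, hq, hq0⟩ := exists_eq_pow_rootMultiplicity_mul_and_not_dvd p hp 0
  rw [dvd_iff_isRoot] at hq0
  have h0 : Tendsto (fun N : ℕ => ((N : ℂ) + 1)⁻¹) (hyperfilter ℕ : Filter ℕ) (nhds 0) := by
    have := (tendsto_one_div_add_atTop_nhds_zero_nat (𝕜 := ℂ)).mono_left Nat.hyperfilter_le_atTop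
    simpa using this
  have h1 := place_ord_of_tendsto hq0 ((q.continuous.tendsto 0).comp h0)
  refine ⟨_, ((place_ord_pow (rootMultiplicity 0 p)).mul h1).congr
    (Eventually.of_forall fun N => ?_)⟩
  conv_lhs => rw [hq]
  simp

theorem PlaceOrd.le {f g : ℕ → ℂ} {r r' : ℝ} (h : PlaceOrd f r) (h' : PlaceOrd g r')
    (hr : r' ≤ r) : ∃ M : ℝ, ∀ᶠ N in (hyperfilter ℕ : Filter ℕ), ‖f N‖ ≤ M * ‖g N‖ := by
  obtain ⟨M, hM⟩ := h
  obtain ⟨M', hM'⟩ := h'
  refine ⟨Real.exp (M + M'), ?_⟩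
  filter_upwards [hM, hM', place_tendsto.eventually_ge_atTop 0] with N h1 h2 h3
  rw [← Real.exp_log (norm_pos_iff.2 h1.1), ← Real.exp_log (norm_pos_iff.2 h2.1), ← Real.exp_add]
  refine Real.exp_le_exp.2 ?_
  have a1 := abs_le.1 h1.2
  have a2 := abs_le.1 h2.2
  nlinarith [a1.2, a2.1, mul_le_mul_of_nonneg_right hr h3]

theorem PlaceOrd.lt {f g : ℕ → ℂ} {r r' : ℝ} (h : PlaceOrd f r) (h' : PlaceOrd g r')
    (hr : r' < r) {e : ℝ} (he : 0 < e) :
    ∀ᶠ N in (hyperfilter ℕ : Filter ℕ), ‖f N‖ ≤ e * ‖g N‖ := by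
  obtain ⟨M, hM⟩ := h
  obtain ⟨M', hM'⟩ := h'
  filter_upwards [hM, hM', (place_tendsto.const_mul_atTop (sub_pos.2 hr)).eventually_ge_atTop
    (M + M' - Real.log e)] with N h1 h2 h3
  rw [← Real.exp_log (norm_pos_iff.2 h1.1), ← Real.exp_log (norm_pos_iff.2 h2.1),
    ← Real.exp_log he, ← Real.exp_add]
  refine Real.exp_le_exp.2 ?_
  have a1 := abs_le.1 h1.2
  have a2 := abs_le.1 h2.2
  nlinarith [a1.2, a2.1]

theorem place_not_half {f : ℕ → ℂ} {r : ℝ} (h : PlaceOrd f r) :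
    ¬ ∀ᶠ N in (hyperfilter ℕ : Filter ℕ), ‖f N‖ ≤ (1 / 2) * ‖f N‖ := by
  intro h2
  obtain ⟨M, hM⟩ := h
  obtain ⟨N, a1, a2⟩ := (hM.and h2).exists
  have := norm_pos_iff.2 a1.1
  linarith

theorem PlaceOrd.unique {f : ℕ → ℂ} {r r' : ℝ} (h : PlaceOrd f r) (h' : PlaceOrd f r') :
    r = r' := by
  rcases lt_trichotomy r r' with c | c | c
  · exact absurd (h'.lt h c (by norm_num)) (place_not_half h)
  · exact c
  · exact absurd (h.lt h' c (by norm_num)) (place_not_half h)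

/-- In a vanishing sum of nonzero numbers two terms are comparable. -/
theorem place_two_terms (I : Finset ℕ) (hI : I.Nonempty) (t : ℕ → ℂ) (h0 : ∀ i ∈ I, t i ≠ 0)
    (hs : ∑ i ∈ I, t i = 0) : ∃ i ∈ I, ∃ j ∈ I, i ≠ j ∧
      |Real.log ‖t i‖ - Real.log ‖t j‖| ≤ Real.log I.card := by
  obtain ⟨i, hi, him⟩ := Finset.exists_max_image I (fun i => ‖t i‖) hI
  have hsum : t i = -∑ l ∈ I.erase i, t l := by
    rw [← Finset.add_sum_erase I t hi] at hs
    linear_combination hs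
  have hne : (I.erase i).Nonempty := by
    by_contra c
    rw [Finset.not_nonempty_iff_eq_empty] at c
    rw [c, Finset.sum_empty, neg_zero] at hsum
    exact h0 i hi hsum
  obtain ⟨j, hj, hjm⟩ := Finset.exists_max_image (I.erase i) (fun i => ‖t i‖) hne
  have hjI := Finset.mem_of_mem_erase hj
  have pi := norm_pos_iff.2 (h0 i hi)
  have pj := norm_pos_iff.2 (h0 j hjI)
  have hc : (0 : ℝ) < I.card := by exact_mod_cast hI.card_pos
  have h1 : ‖t i‖ ≤ I.card * ‖t j‖ := by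
    rw [hsum, norm_neg]
    refine (norm_sum_le _ _).trans ((Finset.sum_le_card_nsmul _ _ _ hjm).trans ?_)
    rw [nsmul_eq_mul]
    refine mul_le_mul_of_nonneg_right ?_ pj.le
    exact_mod_cast Finset.card_erase_le
  refine ⟨i, hi, j, hjI, (Finset.ne_of_mem_erase hj).symm, ?_⟩
  have h2 := Real.log_le_log pj (him j hjI)
  have h3 := Real.log_le_log pi h1
  rw [Real.log_mul hc.ne' pj.ne'] at h3
  rw [abs_of_nonneg (by linarith)]
  linarith

/-- A root of a relation whose coefficients have orders has an order. -/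
theorem place_ord_alg (I : Finset ℕ) (hI : I.Nonempty) (c : ℕ → ℕ → ℂ) (f : ℕ → ℂ)
    (hc : ∀ i ∈ I, ∃ r, PlaceOrd (c i) r) (hf : ∀ᶠ N in (hyperfilter ℕ : Filter ℕ), f N ≠ 0)
    (hs : ∀ᶠ N in (hyperfilter ℕ : Filter ℕ), ∑ i ∈ I, c i N * f N ^ i = 0) :
    ∃ r, PlaceOrd f r := by
  have hc0 : ∀ᶠ N in (hyperfilter ℕ : Filter ℕ), ∀ i ∈ I, c i N ≠ 0 := by
    rw [Finset.eventually_all]
    intro i hi
    obtain ⟨r, M, hM⟩ := hc i hi
    exact hM.mono fun N h => h.1
  have h1 : ∀ᶠ N in (hyperfilter ℕ : Filter ℕ), ∃ i ∈ (I : Set ℕ), ∃ j ∈ (I : Set ℕ), i ≠ j ∧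
      |Real.log ‖c i N * f N ^ i‖ - Real.log ‖c j N * f N ^ j‖| ≤ Real.log I.card := by
    filter_upwards [hc0, hf, hs] with N a1 a2 a3
    exact place_two_terms I hI (fun i => c i N * f N ^ i)
      (fun i hi => mul_ne_zero (a1 i hi) (pow_ne_zero _ a2)) a3
  obtain ⟨i, hi, h2⟩ := (Ultrafilter.eventually_exists_mem_iff I.finite_toSet).1 h1
  obtain ⟨j, hj, h3⟩ := (Ultrafilter.eventually_exists_mem_iff I.finite_toSet).1 h2
  obtain ⟨ri, Mi, hMi⟩ := hc i hi
  obtain ⟨rj, Mj, hMj⟩ := hc j hj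
  have hij : i ≠ j := h3.exists.choose_spec.1
  have hd : (i : ℝ) - j ≠ 0 := sub_ne_zero.2 (by exact_mod_cast hij)
  refine ⟨(rj - ri) / ((i : ℝ) - j), (Real.log I.card + Mi + Mj) / |(i : ℝ) - j|, ?_⟩
  filter_upwards [h3, hMi, hMj, hf] with N a1 a2 a3 a4
  refine ⟨a4, ?_⟩
  have a5 := a1.2
  rw [norm_mul, norm_mul, norm_pow, norm_pow,
    Real.log_mul (norm_ne_zero_iff.2 a2.1) (pow_ne_zero _ (norm_ne_zero_iff.2 a4)),
    Real.log_mul (norm_ne_zero_iff.2 a3.1) (pow_ne_zero _ (norm_ne_zero_iff.2 a4)),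
    Real.log_pow, Real.log_pow] at a5
  rw [le_div_iff₀ (abs_pos.2 hd), ← abs_mul]
  have e : (Real.log ‖f N‖ + (rj - ri) / ((i : ℝ) - j) * Real.log ((N : ℝ) + 1)) * ((i : ℝ) - j) =
      (Real.log ‖c i N‖ + i * Real.log ‖f N‖ - (Real.log ‖c j N‖ + j * Real.log ‖f N‖)) -
        (Real.log ‖c i N‖ + ri * Real.log ((N : ℝ) + 1)) +
        (Real.log ‖c j N‖ + rj * Real.log ((N : ℝ) + 1)) := by
    field_simp
    ring
  rw [e]
  have b1 := abs_le.1 a5
  have b2 := abs_le.1 a2.2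
  have b3 := abs_le.1 a3.2
  rw [abs_le]
  constructor <;> linarith [b1.1, b1.2, b2.1, b2.2, b3.1, b3.2]

/-- The absolute value attached to sequences that have orders. -/
theorem place_core {K : Type} [Field K] (cst : ℂ →+* K) (s : K → ℕ → ℂ)
    (s_add : ∀ x y, ∀ᶠ N in (hyperfilter ℕ : Filter ℕ), s (x + y) N = s x N + s y N)
    (s_mul : ∀ x y, ∀ᶠ N in (hyperfilter ℕ : Filter ℕ), s (x * y) N = s x N * s y N)
    (s_cst : ∀ z, ∀ᶠ N in (hyperfilter ℕ : Filter ℕ), s (cst z) N = z)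
    (hord : ∀ x, x ≠ 0 → ∃ r, PlaceOrd (s x) r) :
    ∃ av : AbsoluteValue K ℝ, IsNonarchimedean av ∧ Nonempty (Transfer K av) ∧
      ∀ x r, x ≠ 0 → PlaceOrd (s x) r → av x = Real.exp (-r) := by
  classical
  choose! o ho using hord
  set a : K → ℝ := fun x => if x = 0 then 0 else Real.exp (-o x) with ha
  have a0 : a 0 = 0 := by simp [ha]
  have a1 : ∀ x, x ≠ 0 → a x = Real.exp (-o x) := fun x hx => by simp [ha, hx]
  have ann : ∀ x, 0 ≤ a x := fun x => by
    by_cases hx : x = 0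
    · rw [hx, a0]
    · rw [a1 x hx]
      exact (Real.exp_pos _).le
  have apos : ∀ x, x ≠ 0 → 0 < a x := fun x hx => by
    rw [a1 x hx]
    exact Real.exp_pos _
  have s0 : ∀ᶠ N in (hyperfilter ℕ : Filter ℕ), s 0 N = 0 := by simpa using s_cst 0
  have s1 : ∀ᶠ N in (hyperfilter ℕ : Filter ℕ), s 1 N = 1 := by simpa using s_cst 1
  have hle : ∀ x y, a x ≤ a y →
      ∃ M : ℝ, ∀ᶠ N in (hyperfilter ℕ : Filter ℕ), ‖s x N‖ ≤ M * ‖s y N‖ := by
    intro x y h
    by_cases hx : x = 0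
    · refine ⟨0, ?_⟩
      filter_upwards [s0] with N b
      simp [hx, b]
    · have hy : y ≠ 0 := by
        rintro rfl
        have := apos x hx
        linarith
      rw [a1 x hx, a1 y hy, Real.exp_le_exp] at h
      exact (ho x hx).le (ho y hy) (by linarith)
  have hlt : ∀ x y, a x < a y → ∀ e : ℝ, 0 < e →
      ∀ᶠ N in (hyperfilter ℕ : Filter ℕ), ‖s x N‖ ≤ e * ‖s y N‖ := by
    intro x y h e he
    by_cases hx : x = 0
    · filter_upwards [s0] with N b
      rw [hx, b, norm_zero]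
      positivity
    · have hy : y ≠ 0 := by
        rintro rfl
        have := apos x hx
        linarith
      rw [a1 x hx, a1 y hy, Real.exp_lt_exp] at h
      exact (ho x hx).lt (ho y hy) (by linarith) he
  have hna : ∀ x y, a (x + y) ≤ max (a x) (a y) := by
    intro x y
    by_contra c
    rw [not_le, max_lt_iff] at c
    have hxy : x + y ≠ 0 := by
      intro h
      rw [h, a0] at c
      exact absurd c.1 (not_lt.2 (ann x))
    refine place_not_half (ho _ hxy) ?_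
    filter_upwards [hlt x _ c.1 (1 / 4) (by norm_num), hlt y _ c.2 (1 / 4) (by norm_num),
      s_add x y] with N b1 b2 b3
    have b4 := norm_add_le (s x N) (s y N)
    rw [← b3] at b4
    linarith
  have hmul : ∀ x y, a (x * y) = a x * a y := by
    intro x y
    by_cases hx : x = 0
    · rw [hx, zero_mul, a0, zero_mul]
    by_cases hy : y = 0
    · rw [hy, mul_zero, a0, mul_zero]
    have h := (ho _ (mul_ne_zero hx hy)).unique (((ho x hx).mul (ho y hy)).congr (s_mul x y))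
    rw [a1 _ (mul_ne_zero hx hy), a1 x hx, a1 y hy, h, ← Real.exp_add, neg_add]
  have hval : ∀ x r, x ≠ 0 → PlaceOrd (s x) r → a x = Real.exp (-r) := fun x r hx h => by
    rw [a1 x hx, (ho x hx).unique h]
  have hcst : ∀ z, z ≠ 0 → a (cst z) = 1 := fun z hz => by
    rw [hval _ 0 ((map_ne_zero cst).2 hz)
      ((place_ord_of_tendsto (f := fun _ => z) hz tendsto_const_nhds).congr (s_cst z))]
    simp
  have hone : a 1 = 1 := by simpa using hcst 1 one_ne_zero
  have hres : ∀ x, a x ≤ 1 → ∃ z, a (x - cst z) < 1 := by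
    intro x hx
    obtain ⟨M, hM⟩ := hle x 1 (by rwa [hone])
    have hb : ∀ᶠ N in (hyperfilter ℕ : Filter ℕ), s x N ∈ Metric.closedBall (0 : ℂ) M := by
      filter_upwards [hM, s1] with N b1 b2
      simpa [b2] using b1
    obtain ⟨z, -, hz⟩ := (isCompact_closedBall (0 : ℂ) M).ultrafilter_le_nhds
      ((hyperfilter ℕ).map (s x)) (le_principal_iff.2 hb)
    have hz' : Tendsto (s x) (hyperfilter ℕ : Filter ℕ) (nhds z) := hz
    refine ⟨z, ?_⟩
    by_contra c
    obtain ⟨M', hM'⟩ := hle 1 (x - cst z) (by rw [hone]; exact not_lt.1 c)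
    have ht : Tendsto (fun N => M' * ‖s x N - z‖) (hyperfilter ℕ : Filter ℕ) (nhds 0) := by
      have := (tendsto_iff_norm_sub_tendsto_zero.1 hz').const_mul M'
      rwa [mul_zero] at this
    obtain ⟨N, b1, b2, b3, b4, b5⟩ := (hM'.and (s1.and ((s_add x (cst (-z))).and
      ((s_cst (-z)).and (ht.eventually (gt_mem_nhds one_pos)))))).exists
    rw [b4, map_neg, ← sub_eq_add_neg, ← sub_eq_add_neg] at b3
    rw [b2, b3, norm_one] at b1
    exact absurd b5 (not_lt.2 b1)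
  refine ⟨⟨⟨a, hmul⟩, ann, fun x => ⟨fun h => ?_, fun h => by rw [h]; exact a0⟩,
    fun x y => (hna x y).trans (max_le_add_of_nonneg (ann x) (ann y))⟩, hna,
    ⟨⟨⟨cst, hcst, hres⟩, hyperfilter ℕ, s, s_add, s_mul, s_cst, hle, hlt⟩⟩, hval⟩
  by_contra c
  exact (apos x c).ne' h

theorem place_surj : Function.Surjective (Germ.coeRingHom (R := ℂ) (hyperfilter ℕ : Filter ℕ)) :=
  fun g => Germ.inductionOn g fun f => ⟨f, rfl⟩

theorem place_eq {f g : ℕ → ℂ} :
    Germ.coeRingHom (R := ℂ) (hyperfilter ℕ : Filter ℕ) f =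
      Germ.coeRingHom (R := ℂ) (hyperfilter ℕ : Filter ℕ) g ↔
    ∀ᶠ N in (hyperfilter ℕ : Filter ℕ), f N = g N := Germ.coe_eq

theorem place_algClosed : IsAlgClosed (Germ (hyperfilter ℕ : Filter ℕ) ℂ) := by
  refine IsAlgClosed.of_exists_root _ fun p hp hirr => ?_
  obtain ⟨q, hq, hdeg, hmon⟩ := lifts_and_natDegree_eq_and_monic
    (mem_lifts_of_surjective place_surj p) hp
  have hpos : 0 < q.natDegree := by
    rw [hdeg]
    exact hirr.natDegree_pos
  have hroot : ∀ N : ℕ, ∃ z, (q.map (Pi.evalRingHom (fun _ => ℂ) N)).IsRoot z := by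
    intro N
    refine IsAlgClosed.exists_root _ ?_
    rw [hmon.degree_map]
    exact (natDegree_pos_iff_degree_pos.1 hpos).ne'
  choose z hz using hroot
  have h0 : q.eval z = 0 := by
    funext N
    have h1 := hz N
    rw [IsRoot, eval_map] at h1
    exact (eval₂_hom (Pi.evalRingHom (fun _ => ℂ) N) z).symm.trans h1
  refine ⟨Germ.coeRingHom (R := ℂ) (hyperfilter ℕ : Filter ℕ) z, ?_⟩
  rw [← hq, eval_map, eval₂_hom, h0, map_zero]

end aux

/-- Let `G = Filter.Germ (hyperfilter ℕ) ℂ`, a field, algebraically closed (choose roots index by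
index), a `k`-algebra through `e` and the constants.  The germ `ε` of `1 / (N + 1)` is transcendental
over `k`, so `π ↦ ε` extends to `k⟮π⟯ → G` and then to `ι : K →+* G` (`IsAlgClosed.lift`).  Write
`x ≼ y` if `‖ι x‖ ≤ M * ‖ι y‖` eventually for some `M`: a total preorder compatible with products,
with `x + y ≼ x` or `x + y ≼ y`.  A nonzero polynomial in `π` is equivalent to a power of `π`.  For
`x ≠ 0` two terms of a polynomial relation over `k[π]` are equivalent (otherwise the largest term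
could not cancel), so `x ^ b` is equivalent to `π ^ a` with `a : ℤ`, `b ≥ 1`; `a / b` is well defined
and `av x = exp (-(a / b))`.  If `av x < av y` then `(x / y) ^ b ≼ π` for some `b`, which gives
`s_lt`; `res` is the limit along the ultrafilter of a bounded sequence (`isCompact_closedBall`,
`IsCompact.ultrafilter_le_nhds`), and `s x` is a representative of the germ `ι x`. -/
theorem place1 {k K : Type} [Field k] [Field K] [Algebra k K] [IsAlgClosed K] (e : k ≃+* ℂ) (π : K)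
    (hπ : Transcendental k π) (halg : Algebra.IsAlgebraic (IntermediateField.adjoin k {π}) K) :
    ∃ av : AbsoluteValue K ℝ, IsNonarchimedean av ∧ Nonempty (Transfer K av) ∧
      (∀ a : k, a ≠ 0 → av (algebraMap k K a) = 1) ∧ av π = Real.exp (-1) := by
  set φ := Filter.Germ.coeRingHom (R := ℂ) (Filter.hyperfilter ℕ : Filter ℕ) with hφ
  set E := Polynomial.algEquivOfTranscendental k π hπ with hE
  set χ : k[X] →+* (ℕ → ℂ) :=
    RingHom.pi fun N : ℕ => eval₂RingHom (e : k →+* ℂ) ((N : ℂ) + 1)⁻¹ with hχ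
  set ω : Algebra.adjoin k {π} →+* (ℕ → ℂ) := χ.comp (E.symm : Algebra.adjoin k {π} →+* k[X])
    with hω
  have hωo : ∀ c, c ≠ 0 → ∃ r, PlaceOrd (ω c) r := by
    intro c hc
    have h1 : (E.symm c).map (e : k →+* ℂ) ≠ 0 :=
      Polynomial.map_ne_zero ((map_ne_zero_iff _ E.symm.injective).2 hc)
    obtain ⟨r, hr⟩ := place_ord_poly h1
    refine ⟨r, hr.congr (Filter.Eventually.of_forall fun N => ?_)⟩
    rw [eval_map]
    rfl
  have hinj : Function.Injective (φ.comp ω) := by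
    rw [injective_iff_map_eq_zero]
    intro c hc
    by_contra h0
    obtain ⟨r, M, hM⟩ := hωo c h0
    have h1 : φ (ω c) = φ 0 := by rw [map_zero]; exact hc
    obtain ⟨N, b1, b2⟩ := (hM.and (place_eq.1 h1)).exists
    exact b1.1 b2
  letI : Algebra (Algebra.adjoin k {π}) (Filter.Germ (Filter.hyperfilter ℕ : Filter ℕ) ℂ) :=
    (φ.comp ω).toAlgebra
  haveI : FaithfulSMul (Algebra.adjoin k {π}) (Filter.Germ (Filter.hyperfilter ℕ : Filter ℕ) ℂ) :=
    (faithfulSMul_iff_algebraMap_injective _ _).2 hinj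
  haveI := place_algClosed
  haveI : Algebra.IsAlgebraic (Algebra.adjoin k {π}) K :=
    IntermediateField.isAlgebraic_adjoin_iff_top.1 halg
  set ι : K →ₐ[Algebra.adjoin k {π}] Filter.Germ (Filter.hyperfilter ℕ : Filter ℕ) ℂ :=
    IsAlgClosed.lift with hι
  have hιc : ∀ c : Algebra.adjoin k {π}, ι (c : K) = φ (ω c) := fun c => ι.commutes c
  choose s hs using fun x : K => place_surj (ι x)
  have hsc : ∀ c : Algebra.adjoin k {π},
      ∀ᶠ N in (Filter.hyperfilter ℕ : Filter ℕ), s (c : K) N = ω c N :=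
    fun c => place_eq.1 ((hs _).trans (hιc c))
  have hωk : ∀ (a : k) (N : ℕ), ω (algebraMap k _ a) N = e a := by
    intro a N
    have h1 : E.symm (algebraMap k _ a) = C a := E.symm.commutes a
    have h2 : ω (algebraMap k _ a) N =
        eval₂ (e : k →+* ℂ) ((N : ℂ) + 1)⁻¹ (E.symm (algebraMap k _ a)) := rfl
    rw [h2, h1, eval₂_C]
    rfl
  have hsk : ∀ a : k, ∀ᶠ N in (Filter.hyperfilter ℕ : Filter ℕ),
      s (algebraMap k K a) N = e a := by
    intro a
    filter_upwards [hsc (algebraMap k _ a)] with N h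
    rw [hωk] at h
    exact h
  have hsπ : ∀ᶠ N in (Filter.hyperfilter ℕ : Filter ℕ), s π N = ((N : ℂ) + 1)⁻¹ := by
    filter_upwards [hsc ⟨π, Algebra.self_mem_adjoin_singleton k π⟩] with N h
    have h2 : ω ⟨π, Algebra.self_mem_adjoin_singleton k π⟩ N = eval₂ (e : k →+* ℂ) ((N : ℂ) + 1)⁻¹
        (E.symm ⟨π, Algebra.self_mem_adjoin_singleton k π⟩) := rfl
    rw [h2, hE, algEquivOfTranscendental_symm_gen, eval₂_X] at h
    exact h
  have hord : ∀ x : K, x ≠ 0 → ∃ r, PlaceOrd (s x) r := by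
    intro x hx
    obtain ⟨P, hP, hPx⟩ := Algebra.IsAlgebraic.isAlgebraic (R := Algebra.adjoin k {π}) x
    refine place_ord_alg P.support (support_nonempty.2 hP) (fun i => ω (P.coeff i)) (s x)
      (fun i hi => hωo _ (mem_support_iff.1 hi)) ?_ ?_
    · have h1 : ¬ φ (s x) = φ 0 := by
        rw [map_zero, hs]
        exact (map_ne_zero ι).2 hx
      exact Ultrafilter.eventually_not.2 fun h => h1 (place_eq.2 h)
    · have h1 : φ (∑ i ∈ P.support, ω (P.coeff i) * s x ^ i) = φ 0 := by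
        rw [map_zero, ← map_zero ι, ← hPx, aeval_def, eval₂_eq_sum, Polynomial.sum, map_sum,
          map_sum]
        refine Finset.sum_congr rfl fun i _ => ?_
        rw [map_mul, map_mul, map_pow, map_pow, hs, ← hιc]
        rfl
      filter_upwards [place_eq.1 h1] with N h
      simpa [Finset.sum_apply] using h
  obtain ⟨av, h1, h2, h3⟩ := place_core ((algebraMap k K).comp (e.symm : ℂ →+* k)) s
    (fun x y => (place_eq (f := s (x + y)) (g := s x + s y)).1
      (by rw [hs, map_add, map_add, hs, hs]))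
    (fun x y => (place_eq (f := s (x * y)) (g := s x * s y)).1
      (by rw [hs, map_mul, map_mul, hs, hs]))
    (fun z => by simpa using hsk (e.symm z)) hord
  refine ⟨av, h1, h2, fun a ha => ?_, ?_⟩
  · rw [h3 _ 0 ((_root_.map_ne_zero (algebraMap k K)).2 ha)
      ((place_ord_of_tendsto (f := fun _ => e a)
        ((_root_.map_ne_zero e).2 ha) tendsto_const_nhds).congr (hsk a))]
    simp
  · refine h3 π 1 ?_ (place_ord_eps.congr hsπ)
    rintro rfl
    exact hπ isAlgebraic_zero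

/-- Composition of a place with an automorphism (new constants `σ.symm ∘ cst`, new sequences
`s ∘ σ`). -/
theorem Transfer.comp {K : Type} [Field K] (av : AbsoluteValue K ℝ) (Tr : Transfer K av)
    (σ : K ≃+* K) :
    Nonempty (Transfer K (av.comp (f := (σ : K →+* K)) σ.injective)) := by
  have hc : ∀ z, σ (σ.symm (Tr.cst z)) = Tr.cst z := fun z => σ.apply_symm_apply _
  refine ⟨⟨⟨(σ.symm : K →+* K).comp Tr.cst, fun z hz => ?_, fun x hx => ?_⟩, Tr.U,
    fun x => Tr.s (σ x), fun x y => ?_, fun x y => ?_, fun z => ?_,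
    fun x y h => Tr.s_le _ _ h, fun x y h => Tr.s_lt _ _ h⟩⟩
  · exact (congrArg av (hc z)).trans (Tr.norm_cst z hz)
  · obtain ⟨z, hz⟩ := Tr.res (σ x) hx
    refine ⟨z, ?_⟩
    have h : σ (x - σ.symm (Tr.cst z)) = σ x - Tr.cst z := by rw [map_sub, hc]
    exact (congrArg av h).trans_lt hz
  · simpa using Tr.s_add (σ x) (σ y)
  · simpa using Tr.s_mul (σ x) (σ y)
  · simpa using Tr.s_cst z

end Pool.Agent.Lib.MP_0dd0d9_ag
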