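import Pool.Agent.Lib.MP_0dd0d9_ag.Der
import Pool.Agent.Lib.MP_0dd0d9_ag.Place
import Pool.Agent.Lib.MP_0dd0d9_ag.PF
import Pool.Agent.Lib.MP_0dd0d9_ag.DerLoc

/-!
TASK g0d Glob.  A finite system of places with product formula and bounded derivations.
-/

namespace Pool.Agent.Lib.MP_0dd0d9_ag

open Polynomial

/-- A finite family of automorphisms that behaves like a Galois group on a finite set. -/
theorem glob_gal {F K : Type} [Field F] [Field K] [Algebra F K] [IsAlgClosed K] [CharZero F]
    [Algebra.IsAlgebraic F K] (W : Finset K) :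
    ∃ (G : Type) (_ : Fintype G) (σ : G → K ≃ₐ[F] K),
      (∀ w ∈ W, ∃ g, σ g w = w) ∧
      (∀ w ∈ W, ∀ n, (∏ g, (X - C (σ g w))).coeff n ∈ (algebraMap F K).range) ∧
      (∀ w ∈ W, ∏ g, σ g w ∈ (algebraMap F K).range) ∧
      (∀ w ∈ W, ∀ s ∈ W, aeval s (minpoly F w) = 0 →
        ∀ f : K → ℝ, ∑ g, f (σ g s) = ∑ g, f (σ g w)) := by
  classical
  have : IsAlgClosure F K := ⟨inferInstance, inferInstance⟩
  have : IsGalois F K := {}
  let L0 := FiniteGaloisIntermediateField.adjoin F (W : Set K)
  let L : IntermediateField F K := L0.toIntermediateField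
  have : FiniteDimensional F L := L0.finiteDimensional
  have : IsGalois F L := L0.isGalois
  have hW : ∀ w ∈ W, w ∈ L := fun w hw =>
    FiniteGaloisIntermediateField.subset_adjoin F (W : Set K) (by simpa using hw)
  have hlift : ∀ (g : L ≃ₐ[F] L) (x : L), g.liftNormal K (x : K) = (g x : K) := fun g x =>
    AlgEquiv.liftNormal_commutes g K x
  refine ⟨L ≃ₐ[F] L, inferInstance, fun g => g.liftNormal K, ?_, ?_, ?_, ?_⟩
  · intro w hw
    exact ⟨1, by simpa using hlift 1 ⟨w, hW w hw⟩⟩
  · intro w hw n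
    set x : L := ⟨w, hW w hw⟩ with hx
    have h1 : (∏ g : L ≃ₐ[F] L, (X - C (g.liftNormal K w))) =
        (∏ g : L ≃ₐ[F] L, (X - C (g x))).map (algebraMap L K) := by
      rw [Polynomial.map_prod]
      refine Finset.prod_congr rfl fun g _ => ?_
      have := hlift g x
      simp only [Polynomial.map_sub, map_X, map_C]
      rw [show g.liftNormal K w = (g x : K) from this]
      rfl
    have h2 : (∏ g : L ≃ₐ[F] L, (X - C (g x))).coeff n ∈ Set.range (algebraMap F L) := by
      rw [IsGalois.mem_range_algebraMap_iff_fixed]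
      intro τ
      have h3 : (∏ g : L ≃ₐ[F] L, (X - C (g x))).map (τ : L →+* L) =
          ∏ g : L ≃ₐ[F] L, (X - C (g x)) := by
        rw [Polynomial.map_prod]
        simp only [Polynomial.map_sub, map_X, map_C]
        exact Fintype.prod_equiv (Equiv.mulLeft τ) _ _ (fun g => rfl)
      have h4 := congrArg (fun q => q.coeff n) h3
      simpa using h4
    obtain ⟨a, ha⟩ := h2
    refine ⟨a, ?_⟩
    rw [h1, coeff_map, ← ha]
    rfl
  · intro w hw
    set x : L := ⟨w, hW w hw⟩ with hx
    refine ⟨Algebra.norm F x, ?_⟩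
    have h1 := congrArg (algebraMap L K) (Algebra.norm_eq_prod_automorphisms F x)
    rw [map_prod] at h1
    rw [← IsScalarTower.algebraMap_apply] at h1
    rw [h1]
    exact Finset.prod_congr rfl fun g _ => (hlift g x).symm
  · intro w hw s hs hroot f
    set x : L := ⟨w, hW w hw⟩ with hx
    set y : L := ⟨s, hW s hs⟩ with hy
    have hmin : minpoly F x = minpoly F w := (IntermediateField.minpoly_eq x)
    have hr : aeval y (minpoly F x) = 0 := by
      rw [hmin]
      apply (algebraMap L K).injective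
      rw [← Polynomial.aeval_algebraMap_apply, map_zero]
      exact hroot
    obtain ⟨τ, hτ⟩ := minpoly.exists_algEquiv_of_root' (Algebra.IsAlgebraic.isAlgebraic x) hr
    refine Fintype.sum_equiv (Equiv.mulRight τ) _ _ (fun g => ?_)
    have e1 : g.liftNormal K s = (g y : K) := hlift g y
    have e2 : (g * τ).liftNormal K w = ((g * τ) x : K) := hlift (g * τ) x
    simp only [Equiv.coe_mulRight]
    rw [e1, e2, AlgEquiv.mul_apply, hτ]

/-- Change of the base field for minimal polynomials. -/
theorem glob_minpoly {E F K : Type*} [Field E] [Field F] [Field K] [Algebra E K] [Algebra F K]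
    (φ : E →+* F) (hφ : ∀ a, algebraMap F K (φ a) = algebraMap E K a) {x : K}
    (hx : IsIntegral E x) :
    IsIntegral F x ∧ (minpoly F x).natDegree ≤ (minpoly E x).natDegree := by
  have hm : ((minpoly E x).map φ).Monic := (minpoly.monic hx).map φ
  have hc : (algebraMap F K).comp φ = algebraMap E K := RingHom.ext hφ
  have h0 : aeval x ((minpoly E x).map φ) = 0 := by
    rw [aeval_def, eval₂_map, hc, ← aeval_def]
    exact minpoly.aeval E x
  refine ⟨⟨_, hm, by rw [← aeval_def]; exact h0⟩, ?_⟩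
  have h1 := minpoly.min F x hm h0
  have h2 := natDegree_le_natDegree h1
  rwa [natDegree_map] at h2

/-- Coefficients of a product of linear factors with integral roots are integral. -/
theorem glob_coeff_le {K : Type*} [Field K] (av : AbsoluteValue K ℝ) (hna : IsNonarchimedean av)
    {G : Type*} (s : Finset G) (a : G → K) (ha : ∀ g, av (a g) ≤ 1) (n : ℕ) :
    av ((∏ g ∈ s, (X - C (a g))).coeff n) ≤ 1 := by
  classical
  induction s using Finset.induction_on generalizing n with
  | empty =>
    rw [Finset.prod_empty, coeff_one]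
    split_ifs <;> simp
  | insert g s hg ih =>
    rw [Finset.prod_insert hg, sub_mul, coeff_sub, coeff_C_mul, sub_eq_add_neg]
    refine (hna _ _).trans (max_le ?_ ?_)
    · cases n with
      | zero => simp
      | succ n => rw [coeff_X_mul]; exact ih n
    · rw [av.map_neg, av.map_mul]
      exact mul_le_one₀ (ha g) (av.nonneg _) (ih n)

theorem glob_sum_le {K : Type*} [Field K] (av : AbsoluteValue K ℝ) (hna : IsNonarchimedean av)
    {r : ℕ} (c : Fin r → ℕ) (y : Fin r → K) :
    Real.posLog (av (∑ i, (c i : K) * y i)) ≤ ∑ i, Real.posLog (av (y i)) := by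
  classical
  have key : ∀ s : Finset (Fin r),
      Real.posLog (av (∑ i ∈ s, (c i : K) * y i)) ≤ ∑ i ∈ s, Real.posLog (av (y i)) := by
    intro s
    induction s using Finset.induction_on with
    | empty => simp
    | insert i s hi ih =>
      rw [Finset.sum_insert hi, Finset.sum_insert hi]
      have h1 : av ((c i : K) * y i) ≤ av (y i) := by
        rw [av.map_mul]
        have : av (c i : K) ≤ 1 := IsNonarchimedean.apply_natCast_le_one hna
        exact mul_le_of_le_one_left (av.nonneg _) this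
      have h2 := hna ((c i : K) * y i) (∑ i ∈ s, (c i : K) * y i)
      have h3 : 0 ≤ ∑ i ∈ s, Real.posLog (av (y i)) :=
        Finset.sum_nonneg fun _ _ => Real.posLog_nonneg
      have h4 : 0 ≤ Real.posLog (av (y i)) := Real.posLog_nonneg
      rcases le_max_iff.mp h2 with h | h
      · have := Real.posLog_le_posLog (av.nonneg _) (h.trans h1)
        linarith
      · have := Real.posLog_le_posLog (av.nonneg _) h
        linarith
  exact key Finset.univ

theorem glob_le_exp_posLog (x : ℝ) (hx : 0 ≤ x) : x ≤ Real.exp (Real.posLog x) := by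
  rcases hx.eq_or_lt with h | h
  · rw [← h]; exact (Real.exp_pos _).le
  · calc x = Real.exp (Real.log x) := (Real.exp_log h).symm
      _ ≤ Real.exp (Real.posLog x) := Real.exp_le_exp.mpr (le_max_right _ _)

/-- The derivative of the minimal polynomial at a root is bounded by a power of the largest
root. -/
theorem glob_der_le {F K : Type*} [Field F] [Field K] [Algebra F K] [IsAlgClosed K]
    (av : AbsoluteValue K ℝ) (hna : IsNonarchimedean av) {χ : K} (hχ : IsIntegral F χ) {b : ℕ}
    (hb : (minpoly F χ).natDegree ≤ b) {M : ℝ} (hM : 1 ≤ M)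
    (hroot : ∀ s : K, aeval s (minpoly F χ) = 0 → av s ≤ M) {s : K}
    (hs : aeval s (minpoly F χ) = 0) : av (aeval s (derivative (minpoly F χ))) ≤ M ^ b := by
  classical
  set q : K[X] := (minpoly F χ).map (algebraMap F K) with hq
  have hm : q.Monic := (minpoly.monic hχ).map _
  have hsq : s ∈ q.roots := by
    rw [mem_roots hm.ne_zero, IsRoot, hq, eval_map_algebraMap]
    exact hs
  have h1 := (IsAlgClosed.splits q).eval_root_derivative hm hsq
  have h2 : aeval s (derivative (minpoly F χ)) = (derivative q).eval s := by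
    rw [hq, derivative_map, eval_map_algebraMap]
  rw [h2, h1, map_multiset_prod, Multiset.map_map]
  have hcard : (q.roots.erase s).card ≤ b := by
    refine (Multiset.card_le_card (Multiset.erase_le s q.roots)).trans ?_
    refine (card_roots' q).trans ?_
    rw [hq, natDegree_map]
    exact hb
  have h3 : ∀ m : Multiset K, (∀ x ∈ m, av x ≤ M) →
      (m.map (av ∘ fun a => s - a)).prod ≤ M ^ m.card := by
    intro m
    induction m using Multiset.induction_on with
    | empty => simp
    | cons a m ih =>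
      intro h
      rw [Multiset.map_cons, Multiset.prod_cons, Multiset.card_cons, pow_succ']
      have h4 : av (s - a) ≤ M := by
        rw [sub_eq_add_neg]
        refine (hna _ _).trans (max_le (hroot s hs) ?_)
        rw [av.map_neg]
        exact h a (Multiset.mem_cons_self a m)
      refine mul_le_mul h4 (ih fun x hx => h x (Multiset.mem_cons_of_mem hx)) ?_ (by linarith)
      exact Multiset.prod_nonneg fun x hx => by
        obtain ⟨z, _, rfl⟩ := Multiset.mem_map.mp hx
        exact av.nonneg _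
  refine (h3 _ fun x hx => hroot x ?_).trans (pow_le_pow_right₀ hM hcard)
  have hx' : x ∈ q.roots := Multiset.mem_of_mem_erase hx
  rw [mem_roots hm.ne_zero, IsRoot, hq, eval_map_algebraMap] at hx'
  exact hx'

/-- The local correction term. -/
noncomputable def globRR {F K : Type*} [Field F] [Field K] [Algebra F K] (av : AbsoluteValue K ℝ)
    (χ : K) (b : ℕ) (Rt : Finset K) : ℝ :=
  2 * ∑ s ∈ Rt, (b * ∑ s' ∈ Rt, Real.posLog (av s') -
    Real.log (av (aeval s (derivative (minpoly F χ))))) + 3 * b * ∑ s' ∈ Rt, Real.posLog (av s')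

theorem glob_der_ne {F K : Type*} [Field F] [Field K] [Algebra F K] [CharZero F] {χ : K}
    (hχ : IsIntegral F χ) {s : K} (hs : aeval s (minpoly F χ) = 0) :
    aeval s (derivative (minpoly F χ)) ≠ 0 :=
  (minpoly.irreducible hχ).separable.aeval_derivative_ne_zero hs

theorem glob_loc {F K : Type*} [Field F] [Field K] [Algebra F K] [IsAlgClosed K] [CharZero F]
    (av : AbsoluteValue K ℝ) (hna : IsNonarchimedean av) {χ : K} (hχ : IsIntegral F χ) {b : ℕ}
    (hb : (minpoly F χ).natDegree ≤ b) (Rt : Finset K)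
    (hRt : ∀ s, s ∈ Rt ↔ aeval s (minpoly F χ) = 0) :
    0 ≤ globRR (F := F) av χ b Rt ∧
      ∀ {R : Type} [CommRing R] [Algebra R K] (D : Derivation R K K),
        (∀ a : F, av (algebraMap F K a) ≤ 1 → av (D (algebraMap F K a)) ≤ 1) →
        ∀ x ∈ IntermediateField.adjoin F {χ}, av x ≤ 1 →
          av (D x) ≤ Real.exp (globRR (F := F) av χ b Rt) := by
  set LM : ℝ := ∑ s' ∈ Rt, Real.posLog (av s') with hLM
  have hLM0 : 0 ≤ LM := Finset.sum_nonneg fun _ _ => Real.posLog_nonneg
  have hM : 1 ≤ Real.exp LM := Real.one_le_exp hLM0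
  have hroot : ∀ s : K, aeval s (minpoly F χ) = 0 → av s ≤ Real.exp LM := by
    intro s hs
    refine (glob_le_exp_posLog _ (av.nonneg s)).trans (Real.exp_le_exp.mpr ?_)
    exact Finset.single_le_sum (f := fun s' => Real.posLog (av s'))
      (fun _ _ => Real.posLog_nonneg) ((hRt s).mpr hs)
  have hpos : ∀ s : K, aeval s (minpoly F χ) = 0 →
      0 < av (aeval s (derivative (minpoly F χ))) := fun s hs => av.pos (glob_der_ne hχ hs)
  have hterm : ∀ s ∈ Rt, 0 ≤ b * LM - Real.log (av (aeval s (derivative (minpoly F χ)))) := by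
    intro s hs
    have hs' := (hRt s).mp hs
    have h1 := glob_der_le av hna hχ hb hM hroot hs'
    have h2 := Real.log_le_log (hpos s hs') h1
    rw [Real.log_pow, Real.log_exp] at h2
    linarith
  set X0 : ℝ := ∑ s ∈ Rt, (b * LM - Real.log (av (aeval s (derivative (minpoly F χ))))) with hX0
  have hX : 0 ≤ X0 := Finset.sum_nonneg hterm
  have hrr : globRR (F := F) av χ b Rt = 2 * X0 + 3 * b * LM := rfl
  refine ⟨by rw [hrr]; positivity, ?_⟩
  intro R _ _ D h0 x hx hx1
  have h1 := derloc av hna D h0 hχ hb hM (Real.one_le_exp hX) hroot ?_ hx hx1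
  · refine h1.trans (le_of_eq ?_)
    rw [hrr, ← Real.exp_nat_mul, ← Real.exp_nat_mul, ← Real.exp_add]
    push_cast
    ring_nf
  · intro s hs
    have h2 : b * LM - Real.log (av (aeval s (derivative (minpoly F χ)))) ≤ X0 :=
      Finset.single_le_sum
        (f := fun s => b * LM - Real.log (av (aeval s (derivative (minpoly F χ))))) hterm
        ((hRt s).mpr hs)
    have h3 := Real.exp_le_exp.mpr h2
    rw [Real.exp_sub, Real.exp_log (hpos s hs), div_le_iff₀ (hpos s hs),
      Real.exp_nat_mul] at h3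
    exact h3

theorem glob_adjoin_eq {k K : Type*} [Field k] [Field K] [Algebra k K] {t u : K}
    (h1 : u ∈ IntermediateField.adjoin k {t}) (h2 : t ∈ IntermediateField.adjoin k {u}) :
    IntermediateField.adjoin k {u} = IntermediateField.adjoin k {t} :=
  le_antisymm (IntermediateField.adjoin_simple_le_iff.mpr h1)
    (IntermediateField.adjoin_simple_le_iff.mpr h2)

theorem glob_places {k K : Type} [Field k] [Field K] [Algebra k K] [IsAlgClosed K] [IsAlgClosed k]
    (e : k ≃+* ℂ) (t : K) (ht : Transcendental k t)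
    (halg : Algebra.IsAlgebraic (IntermediateField.adjoin k {t}) K) :
    ∃ av : Option k → AbsoluteValue K ℝ, Places t av ∧ ∀ p, Nonempty (Transfer K (av p)) := by
  have hfin : ∀ p : k, ∃ av : AbsoluteValue K ℝ, IsNonarchimedean av ∧ Nonempty (Transfer K av) ∧
      (∀ a : k, a ≠ 0 → av (algebraMap k K a) = 1) ∧
        av (t - algebraMap k K p) = Real.exp (-1) := by
    intro p
    have he : IntermediateField.adjoin k {t - algebraMap k K p} = IntermediateField.adjoin k {t} := by
      refine glob_adjoin_eq ?_ ?_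
      · exact sub_mem (IntermediateField.mem_adjoin_simple_self k t)
          (IntermediateField.algebraMap_mem _ p)
      · have := add_mem (IntermediateField.mem_adjoin_simple_self k (t - algebraMap k K p))
          (IntermediateField.algebraMap_mem _ p)
        rwa [sub_add_cancel] at this
    refine place1 e _ ?_ (he ▸ halg)
    intro h
    apply ht
    have := h.add (isAlgebraic_algebraMap (A := K) p)
    rwa [sub_add_cancel] at this
  have hinf : ∃ av : AbsoluteValue K ℝ, IsNonarchimedean av ∧ Nonempty (Transfer K av) ∧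
      (∀ a : k, a ≠ 0 → av (algebraMap k K a) = 1) ∧ av t⁻¹ = Real.exp (-1) := by
    have he : IntermediateField.adjoin k {t⁻¹} = IntermediateField.adjoin k {t} := by
      refine glob_adjoin_eq ?_ ?_
      · exact inv_mem (IntermediateField.mem_adjoin_simple_self k t)
      · have := inv_mem (IntermediateField.mem_adjoin_simple_self k t⁻¹)
        rwa [inv_inv] at this
    refine place1 e _ ?_ (he ▸ halg)
    intro h
    exact ht (IsAlgebraic.inv_iff.mp h)
  choose af h1 h2 h3 h4 using hfin
  obtain ⟨ai, g1, g2, g3, g4⟩ := hinf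
  refine ⟨fun p => p.elim ai af, ⟨ht, ?_, ?_, h4, ?_⟩, ?_⟩
  · rintro (_ | p)
    · exact g1
    · exact h1 p
  · rintro (_ | p)
    · exact g3
    · exact h3 p
  · show ai t = Real.exp 1
    rw [map_inv₀, Real.exp_neg] at g4
    exact inv_injective g4
  · rintro (_ | p)
    · exact g2
    · exact h2 p

/-- The construction over an algebraically closed field of constants. -/
theorem glob_core {k K : Type} [Field k] [Field K] [Algebra k K] [IsAlgClosed K] [IsAlgClosed k]
    [CharZero k] (e : k ≃+* ℂ) (t : K) (ht : Transcendental k t)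
    (halg : Algebra.IsAlgebraic (IntermediateField.adjoin k {t}) K) {B r : ℕ} (y : Fin r → K)
    (hB : ∀ i, (minpoly (IntermediateField.adjoin k {t}) (y i)).natDegree ≤ B) (Z : Finset K) :
    ∃ (S : Type) (_ : Fintype S) (av : S → AbsoluteValue K ℝ) (rr : S → ℝ),
      (∀ v, IsNonarchimedean (av v)) ∧ (∀ v, Nonempty (Transfer K (av v))) ∧
      (∀ v, ∃ ϖ : K, 0 < av v ϖ ∧ av v ϖ < 1) ∧
      (∀ v (a : k), av v (algebraMap k K a) ≤ 1) ∧
      (∀ z ∈ Z, z ≠ 0 → ∑ v, Real.log (av v z) = 0) ∧
      (∀ z ∈ Z, z ∉ (algebraMap k K).range → ∃ v, 1 < av v z) ∧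
      (∀ v, 0 ≤ rr v) ∧
      ∑ v, rr v ≤ ((2 * ((B ^ r : ℕ) : ℝ) ^ 2 + 3 * (B ^ r : ℕ)) * (B ^ r : ℕ)) *
        ∑ v, ∑ i, Real.posLog (av v (y i)) ∧
      ∀ {R : Type} [CommRing R] [Algebra R K] (D : Derivation R K K),
        (∀ a : k, D (algebraMap k K a) ∈ (algebraMap k K).range) →
        D t ∈ (algebraMap k K).range →
        (∀ x ∈ IntermediateField.adjoin k {t}, D x ∈ IntermediateField.adjoin k {t}) →
        ∀ v, ∀ x ∈ IntermediateField.adjoin k (Set.range y), av v x ≤ 1 →
          av v (D x) ≤ Real.exp (rr v) := by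
  classical
  obtain ⟨av0, hP, hT⟩ := glob_places e t ht halg
  set F := IntermediateField.adjoin k {t} with hF
  have : CharZero F := algebraRat.charZero F
  obtain ⟨c, hχ, hyχ, hdeg⟩ := prim (F := F) y
    (fun i => (Algebra.IsAlgebraic.isAlgebraic (y i)).isIntegral) hB
  set χ : K := ∑ i, (c i : K) * y i with hχdef
  set b : ℕ := B ^ r with hb
  set μ := minpoly F χ with hμ
  set Rt : Finset K := (μ.map (algebraMap F K)).roots.toFinset with hRtdef
  have hRt : ∀ s, s ∈ Rt ↔ aeval s μ = 0 := by
    intro s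
    rw [hRtdef, Multiset.mem_toFinset, mem_roots ((minpoly.monic hχ).map _).ne_zero, IsRoot,
      eval_map_algebraMap]
  have hcard : Rt.card ≤ b := by
    refine (Multiset.toFinset_card_le _).trans ((card_roots' _).trans ?_)
    rw [natDegree_map]
    exact hdeg
  set W : Finset K := Z ∪ Rt ∪ Rt.image (fun s => aeval s (derivative μ)) with hW
  have hZW : ∀ z ∈ Z, z ∈ W := fun z hz => by simp [hW, hz]
  have hRW : ∀ z ∈ Rt, z ∈ W := fun z hz => by simp [hW, hz]
  have hDW : ∀ s ∈ Rt, aeval s (derivative μ) ∈ W := fun s hs =>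
    Finset.mem_union_right _ (Finset.mem_image_of_mem _ hs)
  obtain ⟨G, _, σ, hG1, hG2, hG3, hG4⟩ := glob_gal (F := F) W
  have hmemF : ∀ x : K, x ∈ (algebraMap F K).range → x ∈ F := by
    rintro _ ⟨a, rfl⟩
    exact a.2
  have hfix : ∀ g, ∀ x ∈ F, σ g x = x := fun g x hx => (σ g).commutes ⟨x, hx⟩
  have hpf : ∀ w : K, ∃ P0 : Finset (Option k), w ∈ W → w ≠ 0 → ∀ P : Finset (Option k), P0 ⊆ P →
      ∑ p ∈ P, ∑ g, Real.log (av0 p (σ g w)) = 0 := by
    intro w
    by_cases h : w ∈ W ∧ w ≠ 0
    · have hne : ∀ g, σ g w ≠ 0 := fun g => (map_ne_zero (σ g)).mpr h.2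
      obtain ⟨P0, hP0⟩ := pf_sum hP (hmemF _ (hG3 w h.1))
        (Finset.prod_ne_zero_iff.mpr fun g _ => hne g)
      refine ⟨P0, fun _ _ P hPP => ?_⟩
      rw [← hP0 P hPP]
      refine Finset.sum_congr rfl fun p _ => ?_
      rw [map_prod, Real.log_prod]
      exact fun g _ => (av0 p).ne_zero (hne g)
    · exact ⟨∅, fun h1 h2 => absurd ⟨h1, h2⟩ h⟩
  choose P0 hP0 using hpf
  have hpole : ∀ w : K, ∃ p : Option k, w ∈ W → w ∉ (algebraMap k K).range →
      ∃ g, 1 < av0 p (σ g w) := by
    intro w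
    by_contra hcon
    push Not at hcon
    obtain ⟨hw, hwk, -⟩ := hcon none
    apply hwk
    set Q : K[X] := ∏ g, (X - C (σ g w)) with hQ
    have hQm : Q.Monic := monic_prod_of_monic _ _ fun g _ => monic_X_sub_C _
    have hQc : ∀ n, Q.coeff n ∈ (algebraMap k K).range := fun n =>
      pf_const hP (hmemF _ (hG2 w hw n)) fun p =>
        glob_coeff_le (av0 p) (hP.na p) _ _ (hcon p).2.2 n
    have hQl : Q ∈ Polynomial.lifts (algebraMap k K) := (lifts_iff_coeff_lifts Q).mpr hQc
    obtain ⟨q, hq1, -, hq3⟩ := lifts_and_degree_eq_and_monic hQl hQm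
    have hint : IsIntegral k w := by
      refine ⟨q, hq3, ?_⟩
      rw [← eval_map, hq1, hQ, eval_prod]
      obtain ⟨g, hg⟩ := hG1 w hw
      exact Finset.prod_eq_zero (Finset.mem_univ g) (by simp [hg])
    have h1 : (minpoly k w).degree = 1 :=
      IsAlgClosed.degree_eq_one_of_irreducible k (minpoly.irreducible hint)
    exact minpoly.mem_range_of_degree_eq_one k w h1
  choose pw hpw using hpole
  set P : Finset (Option k) := W.biUnion P0 ∪ W.image pw with hPdef
  let av : P × G → AbsoluteValue K ℝ := fun v =>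
    (av0 v.1.1).comp (f := ((σ v.2).toRingEquiv : K →+* K)) (σ v.2).toRingEquiv.injective
  have hav : ∀ v x, av v x = av0 v.1.1 (σ v.2 x) := fun v x => rfl
  have hsum : ∀ f : Option k → G → ℝ, ∑ v : P × G, f v.1.1 v.2 = ∑ p ∈ P, ∑ g, f p g := by
    intro f
    rw [Fintype.sum_prod_type, ← Finset.sum_coe_sort P]
  have hna : ∀ v, IsNonarchimedean (av v) := by
    intro v x x'
    rw [hav, hav, hav, map_add]
    exact hP.na _ _ _
  have hprod : ∀ w ∈ W, w ≠ 0 → ∑ v, Real.log (av v w) = 0 := by
    intro w hw h0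
    simp only [hav]
    rw [hsum fun p g => Real.log (av0 p (σ g w))]
    exact hP0 w hw h0 P fun p hp =>
      Finset.mem_union_left _ (Finset.mem_biUnion.mpr ⟨w, hw, hp⟩)
  have htF : t ∈ F := IntermediateField.mem_adjoin_simple_self k t
  refine ⟨P × G, inferInstance, av, fun v => globRR (F := F) (av v) χ b Rt, hna, ?_, ?_, ?_,
    fun z hz => hprod z (hZW z hz), ?_, fun v => (glob_loc (av v) (hna v) hχ hdeg Rt hRt).1,
    ?_, ?_⟩
  · intro v
    obtain ⟨Tr⟩ := hT v.1.1
    exact Transfer.comp _ Tr _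
  · rintro ⟨⟨p, hp⟩, g⟩
    have hlt : Real.exp (-1) < 1 := Real.exp_lt_one_iff.mpr (by norm_num)
    cases p with
    | none =>
      refine ⟨t⁻¹, ?_⟩
      rw [hav, hfix _ _ (inv_mem htF), map_inv₀, hP.inf, ← Real.exp_neg]
      exact ⟨Real.exp_pos _, hlt⟩
    | some p =>
      refine ⟨t - algebraMap k K p, ?_⟩
      rw [hav, hfix _ _ (sub_mem htF (F.algebraMap_mem p)), hP.fin]
      exact ⟨Real.exp_pos _, hlt⟩
  · intro v a
    rw [hav, hfix _ _ (F.algebraMap_mem a)]
    by_cases ha : a = 0
    · simp [ha]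
    · exact (hP.cst _ a ha).le
  · intro z hz hzk
    obtain ⟨g, hg⟩ := hpw z (hZW z hz) hzk
    exact ⟨(⟨pw z, Finset.mem_union_right _ (Finset.mem_image_of_mem _ (hZW z hz))⟩, g), hg⟩
  · set Y : ℝ := ∑ v, ∑ i, Real.posLog (av v (y i)) with hY
    have hχR : χ ∈ Rt := (hRt χ).mpr (minpoly.aeval F χ)
    have hconj : ∀ s ∈ Rt, ∑ v, Real.posLog (av v s) ≤ Y := by
      intro s hs
      have h1 : ∑ v, Real.posLog (av v s) = ∑ v, Real.posLog (av v χ) := by
        simp only [hav]
        rw [hsum fun p g => Real.posLog (av0 p (σ g s)),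
          hsum fun p g => Real.posLog (av0 p (σ g χ))]
        exact Finset.sum_congr rfl fun p _ =>
          hG4 χ (hRW χ hχR) s (hRW s hs) ((hRt s).mp hs) fun x => Real.posLog (av0 p x)
      rw [h1]
      exact Finset.sum_le_sum fun v _ => glob_sum_le (av v) (hna v) c y
    have hY0 : 0 ≤ Y :=
      Finset.sum_nonneg fun _ _ => Finset.sum_nonneg fun _ _ => Real.posLog_nonneg
    set LM : ℝ := ∑ v, ∑ s ∈ Rt, Real.posLog (av v s) with hLM
    have hcardR : (Rt.card : ℝ) ≤ b := by exact_mod_cast hcard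
    have hLM0 : 0 ≤ LM :=
      Finset.sum_nonneg fun _ _ => Finset.sum_nonneg fun _ _ => Real.posLog_nonneg
    have hLMle : LM ≤ b * Y := by
      rw [hLM, Finset.sum_comm]
      refine (Finset.sum_le_card_nsmul _ _ _ hconj).trans ?_
      rw [nsmul_eq_mul]
      exact mul_le_mul_of_nonneg_right hcardR hY0
    have hzero : ∑ v, ∑ s ∈ Rt, Real.log (av v (aeval s (derivative μ))) = 0 := by
      rw [Finset.sum_comm]
      exact Finset.sum_eq_zero fun s hs =>
        hprod _ (hDW s hs) (glob_der_ne hχ ((hRt s).mp hs))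
    have hexp : ∑ v, globRR (F := F) (av v) χ b Rt = (2 * Rt.card * b + 3 * b) * LM := by
      simp only [globRR, Finset.sum_add_distrib, Finset.sum_sub_distrib, Finset.sum_const,
        nsmul_eq_mul, ← Finset.mul_sum]
      rw [hzero]
      ring
    rw [hexp]
    have hb0 : (0 : ℝ) ≤ b := Nat.cast_nonneg b
    calc (2 * Rt.card * b + 3 * b) * LM ≤ (2 * b * b + 3 * b) * (b * Y) := by gcongr
      _ = _ := by ring
  · intro R _ _ D hk hDt hst v x hx hx1
    refine (glob_loc (av v) (hna v) hχ hdeg Rt hRt).2 D ?_ x ?_ hx1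
    · intro a ha
      have ha' : (a : K) ∈ F := a.2
      change av v (a : K) ≤ 1 at ha
      change av v (D (a : K)) ≤ 1
      rw [hav, hfix _ _ ha'] at ha
      rw [hav, hfix _ _ (hst _ ha')]
      exact pf_der hP D hk hDt ha' _ ha
    · have hle : IntermediateField.adjoin k (Set.range y) ≤
          (IntermediateField.adjoin F {χ}).restrictScalars k := by
        rw [IntermediateField.adjoin_le_iff]
        rintro _ ⟨i, rfl⟩
        exact hyχ i
      exact hle hx

theorem glob_equiv {K : Type} [Field K] [Algebra ℂ K] [IsAlgClosed K] {m : ℕ} {T : Fin m → K}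
    (hT : IsTranscendenceBasis ℂ T) (k : IntermediateField ℂ K) [IsAlgClosed k] :
    Nonempty (k ≃+* ℂ) := by
  have : CharZero k := algebraRat.charZero k
  have h1 : Cardinal.mk ℂ ≤ Cardinal.mk k :=
    Cardinal.mk_le_of_injective (algebraMap ℂ k).injective
  have h2 : Cardinal.mk k ≤ Cardinal.mk K := Cardinal.mk_le_of_injective Subtype.val_injective
  have h3 := IsAlgClosed.cardinal_le_max_transcendence_basis' T hT
  have h4 : Cardinal.aleph0 < Cardinal.mk ℂ := by
    rw [Cardinal.mk_complex]
    exact Cardinal.aleph0_lt_continuum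
  have h5 : Cardinal.mk K ≤ Cardinal.mk ℂ := by
    refine h3.trans (max_le (max_le le_rfl ?_) h4.le)
    exact (Cardinal.lt_aleph0_of_finite _).le.trans h4.le
  exact IsAlgClosed.ringEquiv_of_equiv_of_charZero (h4.trans_le h1)
    (Cardinal.eq.mp (le_antisymm (h2.trans h5) h1))

/-- Let `k` be the algebraic closure in `K` of the field generated by the `T i.succ`
(`algebraicClosure`, algebraically closed), `t = T 0`, `F' = k⟮t⟯`.  `k` has the cardinality of `ℂ`,
so `k ≃+* ℂ` (`IsAlgClosed.ringEquiv_of_equiv_of_charZero`).  `place1` with `π = t - p` and `π = t⁻¹`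
gives `Places t av0`.  Each `D j` maps `k` into `k` (`der_stable`) and `D 0` kills `k`
(`der_eq_zero_of_alg`), so `pf_der` applies.  Let `χ` be given by `prim` over `F'` (degrees over
`F'` are at most `B`), `b = B ^ r`, `L` a finite Galois extension of `F'` inside `K` containing `Z`
and all roots of the minimal polynomial `μ` of `χ` (`normalClosure` or
`FiniteGaloisIntermediateField.adjoin`), `G` its group, each `σ` lifted to `K`
(`AlgEquiv.liftNormal`).  Places are pairs `(p, σ)` with `p` in a finite set `P` that contains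
`none`, the sets `P0` of `pf_sum` for the norms (`Algebra.norm_eq_prod_automorphisms`) of the nonzero
elements of `Z` and of the `μ'(s)`, and for each `z ∈ Z` with `D 0 z ≠ 0` a point `p` with
`1 < av0 p (σ z)` for some `σ` (if there were none, the coefficients of `∏ σ, (X - σ z)` would lie in
`k` by `pf_const`, so `z ∈ k`).  With `M = max 1 (max av s)` over the roots `s` and
`Ξ = ∏ s, M ^ b / av (μ' s)` (each factor is at least one) put `rr = 2 log Ξ + 3 b log M`; use
`log M ≤ ∑ s, posLog (av s)`, the product formula for `μ' s`, and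
`∑ σ, posLog (av0 p (σ s)) = ∑ σ, posLog (av0 p (σ χ))` for conjugates `s` of `χ`. -/
theorem glob (B r m : ℕ) : ∃ Cb : ℝ, 0 ≤ Cb ∧
    ∀ {K : Type} [Field K] [Algebra ℂ K] [IsAlgClosed K] (T : Fin (m + 1) → K),
      IsTranscendenceBasis ℂ T → ∀ (D : Fin (m + 1) → Derivation ℂ K K),
      (∀ i j, D j (T i) = if i = j then 1 else 0) → ∀ (y : Fin r → K),
      (∀ i, (minpoly (IntermediateField.adjoin ℂ (Set.range T)) (y i)).natDegree ≤ B) →
      ∀ (Z : Finset K),
      ∃ (S : Type) (_ : Fintype S) (av : S → AbsoluteValue K ℝ) (rr : S → ℝ),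
        (∀ v, IsNonarchimedean (av v)) ∧ (∀ v, Nonempty (Transfer K (av v))) ∧
        (∀ v, ∃ ϖ : K, 0 < av v ϖ ∧ av v ϖ < 1) ∧
        (∀ v (a : ℂ), av v (algebraMap ℂ K a) ≤ 1) ∧ (∀ v (i : Fin m), av v (T i.succ) ≤ 1) ∧
        (∀ z ∈ Z, z ≠ 0 → ∑ v, Real.log (av v z) = 0) ∧
        (∀ z ∈ Z, D 0 z ≠ 0 → ∃ v, 1 < av v z) ∧
        (∀ v, 0 ≤ rr v) ∧ ∑ v, rr v ≤ Cb * ∑ v, ∑ i, Real.posLog (av v (y i)) ∧
        ∀ v j, ∀ x ∈ IntermediateField.adjoin ℂ (Set.range y), av v x ≤ 1 →
          av v (D j x) ≤ Real.exp (rr v) := by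
  refine ⟨(2 * ((B ^ r : ℕ) : ℝ) ^ 2 + 3 * (B ^ r : ℕ)) * (B ^ r : ℕ), by positivity, ?_⟩
  intro K _ _ _ T hT D hD y hy Z
  set S0 : Set K := Set.range fun i : Fin m => T i.succ with hS0
  set k0 := IntermediateField.adjoin ℂ S0 with hk0
  let k : IntermediateField ℂ K := (algebraicClosure k0 K).restrictScalars ℂ
  have hk : ∀ x : K, x ∈ k ↔ IsAlgebraic k0 x := fun x => mem_algebraicClosure_iff
  have : IsAlgClosed k := (algebraicClosure.isAlgClosure k0 K).isAlgClosed
  have : CharZero k := algebraRat.charZero k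
  obtain ⟨e⟩ := glob_equiv hT k
  have hrange : ∀ x : K, x ∈ (algebraMap k K).range ↔ x ∈ k := by
    intro x
    refine ⟨?_, fun h => ⟨⟨x, h⟩, rfl⟩⟩
    rintro ⟨a, rfl⟩
    exact a.2
  have hS0k : S0 ⊆ k := fun x hx =>
    (hk x).mpr (isAlgebraic_algebraMap (⟨x, IntermediateField.subset_adjoin ℂ S0 hx⟩ : k0))
  have hD0 : ∀ x ∈ k, D 0 x = 0 := by
    intro x hx
    refine der_eq_zero_of_alg (D 0) (S := S0) ?_ ((hk x).mp hx)
    rintro _ ⟨i, rfl⟩
    rw [hD, if_neg (Fin.succ_ne_zero i)]
  have hDT : ∀ i j, D j (T i) ∈ k := by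
    intro i j
    rw [hD]
    split_ifs
    · exact one_mem k
    · exact zero_mem k
  have hDk : ∀ j, ∀ x ∈ k, D j x ∈ k := by
    intro j x hx
    refine der_stable (D j) k hS0k ?_ hx ((hk x).mp hx)
    rintro _ ⟨i, rfl⟩
    exact hDT _ _
  have ht : Transcendental k (T 0) := by
    intro h
    have h1 : (minpoly k (T 0)).degree = 1 :=
      IsAlgClosed.degree_eq_one_of_irreducible k (minpoly.irreducible h.isIntegral)
    have h2 := hD0 _ ((hrange _).mp (minpoly.mem_range_of_degree_eq_one k (T 0) h1))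
    rw [hD, if_pos rfl] at h2
    exact one_ne_zero h2
  set F := IntermediateField.adjoin k {T 0} with hF
  set E := IntermediateField.adjoin ℂ (Set.range T) with hE
  have hkF : ∀ x ∈ k, x ∈ F := fun x hx => F.algebraMap_mem ⟨x, hx⟩
  have htF : T 0 ∈ F := IntermediateField.mem_adjoin_simple_self k (T 0)
  have hEF : E ≤ F.restrictScalars ℂ := by
    rw [hE, IntermediateField.adjoin_le_iff]
    rintro _ ⟨i, rfl⟩
    refine Fin.cases htF (fun i => ?_) i
    exact hkF _ (hS0k ⟨i, rfl⟩)
  let φ : E →+* F := (algebraMap E K).codRestrict F fun a => hEF a.2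
  have hφ : ∀ a, algebraMap F K (φ a) = algebraMap E K a := fun a => rfl
  have hEalg : Algebra.IsAlgebraic E K := hT.isAlgebraic_field
  have halg : Algebra.IsAlgebraic F K := ⟨fun x =>
    (glob_minpoly φ hφ (hEalg.isAlgebraic x).isIntegral).1.isAlgebraic⟩
  have hB : ∀ i, (minpoly F (y i)).natDegree ≤ B := fun i =>
    (glob_minpoly φ hφ (hEalg.isAlgebraic (y i)).isIntegral).2.trans (hy i)
  obtain ⟨S, iS, av, rr, h1, h2, h3, h4, h5, h6, h7, h8, h9⟩ := glob_core e (T 0) ht halg y hB Z
  refine ⟨S, iS, av, rr, h1, h2, h3, ?_, ?_, h5, ?_, h7, h8, ?_⟩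
  · intro v a
    exact h4 v (algebraMap ℂ k a)
  · intro v i
    exact h4 v ⟨T i.succ, hS0k ⟨i, rfl⟩⟩
  · intro z hz hDz
    exact h6 z hz fun h => hDz (hD0 z ((hrange z).mp h))
  · intro v j x hx hx1
    refine h9 (D j) (fun a => (hrange _).mpr (hDk j _ a.2)) ((hrange _).mpr (hDT 0 j)) ?_ v x ?_ hx1
    · intro x hx
      have hsub : F.restrictScalars ℂ ≤ IntermediateField.adjoin ℂ ((k : Set K) ∪ {T 0}) :=
        (IntermediateField.restrictScalars_adjoin ℂ k {T 0}).le
      refine der_stable (D j) (S := (k : Set K) ∪ {T 0}) (F.restrictScalars ℂ) ?_ ?_ hx ?_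
      · rintro z (hz | hz)
        · exact hkF z hz
        · rw [Set.mem_singleton_iff.mp hz]
          exact htF
      · rintro z (hz | hz)
        · exact hkF _ (hDk j z hz)
        · rw [Set.mem_singleton_iff.mp hz]
          exact hkF _ (hDT 0 j)
      · exact isAlgebraic_algebraMap
          (⟨x, hsub hx⟩ : IntermediateField.adjoin ℂ ((k : Set K) ∪ {T 0}))
    · have hle : IntermediateField.adjoin ℂ (Set.range y) ≤
          (IntermediateField.adjoin k (Set.range y)).restrictScalars ℂ := by
        rw [IntermediateField.adjoin_le_iff]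
        exact IntermediateField.subset_adjoin k _
      exact hle hx

end Pool.Agent.Lib.MP_0dd0d9_ag
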