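import Pool.Agent.Lib.MP_0dd0d9_ag.Der

/-!
TASK g0d HT.  Heights of algebraic elements; nonvanishing of the Jacobian of the coefficients.
-/

namespace Pool.Agent.Lib.MP_0dd0d9_ag

open Polynomial

variable {K : Type*} [Field K] [Algebra ℂ K]

theorem ht_adjoin {ι : Type*} [Fintype ι] (u : ι → K) {a : K}
    (ha : a ∈ Algebra.adjoin ℂ (Set.range u)) :
    ∃ D : ℕ, ∀ av : AbsoluteValue K ℝ, IsNonarchimedean av →
      (∀ a : ℂ, av (algebraMap ℂ K a) ≤ 1) →
      Real.posLog (av a) ≤ D * ∑ i, Real.posLog (av (u i)) := by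
  induction ha using Algebra.adjoin_induction with
  | mem x hx =>
    obtain ⟨i, rfl⟩ := hx
    refine ⟨1, fun av _ _ => ?_⟩
    rw [Nat.cast_one, one_mul]
    exact Finset.single_le_sum (f := fun i => Real.posLog (av (u i)))
      (fun _ _ => Real.posLog_nonneg) (Finset.mem_univ i)
  | algebraMap r =>
    refine ⟨0, fun av _ h => ?_⟩
    rw [(Real.posLog_eq_zero_iff _).2 (by rw [abs_of_nonneg (av.nonneg _)]; exact h r)]
    simp
  | add x y _ _ ihx ihy =>
    obtain ⟨D1, h1⟩ := ihx
    obtain ⟨D2, h2⟩ := ihy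
    refine ⟨D1 + D2, fun av hn h => ?_⟩
    have a1 := h1 av hn h
    have a2 := h2 av hn h
    have p1 : 0 ≤ Real.posLog (av x) := Real.posLog_nonneg
    have p2 : 0 ≤ Real.posLog (av y) := Real.posLog_nonneg
    rw [Nat.cast_add, add_mul]
    rcases le_max_iff.1 (hn x y) with b | b
    · linarith [Real.posLog_le_posLog (av.nonneg _) b]
    · linarith [Real.posLog_le_posLog (av.nonneg _) b]
  | mul x y _ _ ihx ihy =>
    obtain ⟨D1, h1⟩ := ihx
    obtain ⟨D2, h2⟩ := ihy
    refine ⟨D1 + D2, fun av hn h => ?_⟩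
    have a1 := h1 av hn h
    have a2 := h2 av hn h
    rw [Nat.cast_add, add_mul, map_mul]
    linarith [Real.posLog_mul (x := av x) (y := av y)]

omit [Algebra ℂ K] in
theorem ht_sum_le {av : AbsoluteValue K ℝ} (hn : IsNonarchimedean av) {κ : Type*} (s : Finset κ)
    (f : κ → K) {B : ℝ} (hB : 0 ≤ B) (h : ∀ i ∈ s, av (f i) ≤ B) : av (∑ i ∈ s, f i) ≤ B := by
  classical
  induction s using Finset.induction_on with
  | empty => simpa using hB
  | insert a s ha ih =>
    rw [Finset.sum_insert ha]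
    exact (hn _ _).trans (max_le (h a (Finset.mem_insert_self _ _))
      (ih fun i hi => h i (Finset.mem_insert_of_mem hi)))

theorem ht_le_exp {x B : ℝ} (h : Real.posLog x ≤ B) : x ≤ Real.exp B := by
  rcases le_or_gt x 0 with a | a
  · exact a.trans (Real.exp_pos _).le
  · rw [← Real.log_le_iff_le_exp a]
    exact (le_max_right _ _).trans h

/-- Take a nonzero relation `∑ q i * y ^ i = 0` with `q i` in the algebra, `q` its leading
coefficient.  Every element of the algebra satisfies `posLog (av a) ≤ D * ∑ posLog (av (u i))` for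
some `D` independent of `av` (`Algebra.adjoin_induction`), and
`av q * max 1 (av y) ≤ max (av (q i))`. -/
theorem ht {ι : Type*} [Fintype ι] (u : ι → K) {y : K}
    (hy : IsAlgebraic (Algebra.adjoin ℂ (Set.range u)) y) :
    ∃ (D0 : ℕ) (q : K), q ≠ 0 ∧ ∀ av : AbsoluteValue K ℝ, IsNonarchimedean av →
      (∀ a : ℂ, av (algebraMap ℂ K a) ≤ 1) →
      Real.posLog (av y) ≤ D0 * ∑ i, Real.posLog (av (u i)) - Real.log (av q) := by
  obtain ⟨p, hp0, hp⟩ := hy
  choose D hD using fun i : ℕ => ht_adjoin u (p.coeff i).2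
  have hq : ((p.coeff p.natDegree : Algebra.adjoin ℂ (Set.range u)) : K) ≠ 0 := by
    intro h
    exact hp0 (leadingCoeff_eq_zero.1 (Subtype.ext h))
  refine ⟨∑ i ∈ Finset.range (p.natDegree + 1), D i, p.coeff p.natDegree, hq, fun av hn h => ?_⟩
  obtain ⟨S, hS⟩ : ∃ S, S = ∑ i, Real.posLog (av (u i)) := ⟨_, rfl⟩
  have hS0 : 0 ≤ S := hS ▸ Finset.sum_nonneg fun _ _ => Real.posLog_nonneg
  obtain ⟨B, hB⟩ : ∃ B : ℝ, B = ((∑ i ∈ Finset.range (p.natDegree + 1), D i : ℕ) : ℝ) * S :=
    ⟨_, rfl⟩
  rw [← hS, ← hB]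
  have hb : ∀ i ≤ p.natDegree, Real.posLog (av (p.coeff i)) ≤ B := by
    intro i hi
    have a1 := hD i av hn h
    rw [← hS] at a1
    refine a1.trans ?_
    rw [hB]
    refine mul_le_mul_of_nonneg_right (Nat.cast_le.2 ?_) hS0
    exact Finset.single_le_sum (fun _ _ => Nat.zero_le _)
      (Finset.mem_range.2 (Nat.lt_succ_of_le hi))
  have hq0 : 0 < av (p.coeff p.natDegree) := av.pos hq
  by_cases hy1 : av y ≤ 1
  · rw [(Real.posLog_eq_zero_iff _).2 (by rw [abs_of_nonneg (av.nonneg _)]; exact hy1)]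
    have : Real.log (av (p.coeff p.natDegree)) ≤ Real.posLog (av (p.coeff p.natDegree)) :=
      le_max_right _ _
    linarith [hb _ le_rfl]
  · rw [not_le] at hy1
    have hy0 : 0 < av y := by linarith
    rw [aeval_eq_sum_range, Finset.sum_range_succ] at hp
    simp only [Subalgebra.smul_def, smul_eq_mul] at hp
    have e1 : av (p.coeff p.natDegree) * av y ^ p.natDegree =
        av (∑ i ∈ Finset.range p.natDegree, (p.coeff i : K) * y ^ i) := by
      rw [← map_pow, ← map_mul, eq_neg_of_add_eq_zero_right hp, AbsoluteValue.map_neg]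
    have e2 : av (∑ i ∈ Finset.range p.natDegree, (p.coeff i : K) * y ^ i)
        ≤ Real.exp B * av y ^ p.natDegree / av y := by
      refine ht_sum_le hn _ _ (by positivity) fun i hi => ?_
      have hi' := Finset.mem_range.1 hi
      rw [map_mul, map_pow, le_div_iff₀ hy0, mul_assoc, ← pow_succ]
      exact mul_le_mul (ht_le_exp (hb i hi'.le)) (pow_le_pow_right₀ hy1.le hi') (by positivity)
        (Real.exp_pos _).le
    rw [← e1, le_div_iff₀ hy0] at e2
    have e3 : av (p.coeff p.natDegree) * av y ≤ Real.exp B := by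
      refine le_of_mul_le_mul_right ?_ (pow_pos hy0 p.natDegree)
      linarith
    rw [← Real.log_le_iff_le_exp (by positivity), Real.log_mul hq0.ne' hy0.ne'] at e3
    rw [Real.posLog_eq_log (by rw [abs_of_pos hy0]; exact hy1.le)]
    linarith

theorem ht_pco_C_mul {R L : Type*} [CommRing R] [Field L] [Algebra R L] (D : Derivation R L L)
    (r : L) (a : L[X]) : pco D (C r * a) = C r * pco D a + C (D r) * a := by
  ext i
  simp only [coeff_pco (map_zero D), coeff_add, coeff_C_mul, Derivation.leibniz, smul_eq_mul]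
  ring

theorem ht_eta {R L : Type*} [CommRing R] [Field L] [Algebra R L] (D : Derivation R L L) (r : L)
    (a b : L[X]) :
    (C r * a) * pco D (C r * b) - (C r * b) * pco D (C r * a) =
      C (r ^ 2) * (a * pco D b - b * pco D a) := by
  rw [ht_pco_C_mul, ht_pco_C_mul, C_pow]
  ring

theorem ht_kill {ι : Type*} {c : ι → K} (hc : IsTranscendenceBasis ℂ c) (E : Derivation ℂ K K)
    (h : ∀ j, E (c j) = 0) (y : K) : E y = 0 :=
  der_eq_zero_of_alg E (S := Set.range c) (by rintro _ ⟨j, rfl⟩; exact h j)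
    (hc.isAlgebraic_field.isAlgebraic y)

theorem ht_sum_apply {ι : Type*} (s : Finset ι) (x : ι → K) (D : ι → Derivation ℂ K K) (y : K) :
    (∑ j ∈ s, x j • D j) y = ∑ j ∈ s, x j * D j y := by
  classical
  induction s using Finset.induction_on with
  | empty => simp
  | insert a s ha ih =>
    rw [Finset.sum_insert ha, Finset.sum_insert ha, Derivation.add_apply, ih,
      Derivation.smul_apply, smul_eq_mul]

theorem ht_pco_sum {ι : Type*} (s : Finset ι) (x : ι → K) (D : ι → Derivation ℂ K K)
    (a : K[X]) :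
    pco (∑ j ∈ s, x j • D j : Derivation ℂ K K) a = ∑ j ∈ s, C (x j) * pco (D j) a := by
  ext i
  rw [coeff_pco (map_zero _), ht_sum_apply, finsetSum_coeff]
  refine Finset.sum_congr rfl fun j _ => ?_
  rw [coeff_C_mul, coeff_pco (map_zero _)]

theorem ht_natDegree_pco (E : Derivation ℂ K K) {a : K[X]} {d : ℕ} (ha : a.natDegree ≤ d) :
    (pco E a).natDegree ≤ d := by
  rw [natDegree_le_iff_coeff_eq_zero] at ha ⊢
  intro i hi
  rw [coeff_pco (map_zero _), ha i hi, map_zero]

omit [Algebra ℂ K] in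
theorem ht_coprime [IsAlgClosed K] {d : ℕ} (c : Fin (2 * d + 1) → K)
    (hnz : ∀ x, x ≠ 0 → app (FU d c) x ≠ 0) : IsCoprime (aU d c) (bU d c) := by
  rw [Polynomial.isCoprime_iff_aeval_ne_zero_of_isAlgClosed K K]
  intro t
  by_contra hcon
  rw [not_or, not_not, not_not, coe_aeval_eq_eval] at hcon
  refine hnz ![t, 1] (fun h => by simpa using congrFun h 1) ?_
  have e0 := eval_deh ((aU d c).homogenize d) t
  have e1 := eval_deh ((bU d c).homogenize d) t
  rw [deh_homogenize (natDegree_aU_le d c), hcon.1] at e0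
  rw [deh_homogenize (natDegree_bU_le d c), hcon.2] at e1
  funext i
  fin_cases i
  · exact e0.symm
  · exact e1.symm

/-- If `∑ x j • row j = 0`, the derivation `E = ∑ x j • D j` satisfies
`a * pco E b = b * pco E a` for `a = aU d c`, `b = bU d c` (the terms with `E r` cancel, and the
degree is at most `2 d`).  `a`, `b` are coprime (`hnz`), `natDegree b = d` since `c` is
algebraically independent, so `pco E b = C κ * b`; the constant coefficient gives `κ = 0`.  Hence
`E` kills all `c j`, so it kills `K` (`der_eq_zero_of_alg`), and `x j = E (T j) = 0`. -/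
theorem theta_ne_zero [IsAlgClosed K] {d : ℕ} (hd : 2 ≤ d) (c T : Fin (2 * d + 1) → K)
    (hc : IsTranscendenceBasis ℂ c) (hnz : ∀ x, x ≠ 0 → app (FU d c) x ≠ 0)
    (D : Fin (2 * d + 1) → Derivation ℂ K K) (hD : ∀ i j, D j (T i) = if i = j then 1 else 0)
    {r : K} (hr : r ≠ 0) :
    (Matrix.of fun (j μ : Fin (2 * d + 1)) =>
      ((C r * aU d c) * pco (D j) (C r * bU d c) -
        (C r * bU d c) * pco (D j) (C r * aU d c)).coeff μ.val).det ≠ 0 := by
  intro hdet
  obtain ⟨x, hx0, hx⟩ := Matrix.exists_vecMul_eq_zero_iff.2 hdet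
  obtain ⟨E, hE⟩ : ∃ E : Derivation ℂ K K, E = ∑ j, x j • D j := ⟨_, rfl⟩
  have hW : aU d c * pco E (bU d c) - bU d c * pco E (aU d c) = 0 := by
    have hdeg : (aU d c * pco E (bU d c) - bU d c * pco E (aU d c)).natDegree ≤ 2 * d := by
      have a1 := natDegree_aU_le d c
      have a2 := natDegree_bU_le d c
      have a3 := ht_natDegree_pco E a1
      have a4 := ht_natDegree_pco E a2
      refine (natDegree_sub_le _ _).trans (max_le (natDegree_mul_le.trans ?_)
        (natDegree_mul_le.trans ?_)) <;> omega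
    ext μ
    rw [coeff_zero]
    by_cases hμ : 2 * d < μ
    · exact coeff_eq_zero_of_natDegree_lt (lt_of_le_of_lt hdeg hμ)
    have h1 := congrFun hx ⟨μ, by omega⟩
    simp only [Matrix.vecMul, dotProduct, Matrix.of_apply, ht_eta, coeff_C_mul,
      Pi.zero_apply] at h1
    have h2 : aU d c * pco E (bU d c) - bU d c * pco E (aU d c) =
        ∑ j, C (x j) * (aU d c * pco (D j) (bU d c) - bU d c * pco (D j) (aU d c)) := by
      rw [hE, ht_pco_sum, ht_pco_sum, Finset.mul_sum, Finset.mul_sum, ← Finset.sum_sub_distrib]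
      exact Finset.sum_congr rfl fun j _ => by ring
    refine mul_left_cancel₀ (pow_ne_zero 2 hr) ?_
    rw [h2, finsetSum_coeff, Finset.mul_sum, mul_zero, ← h1]
    refine Finset.sum_congr rfl fun j _ => ?_
    rw [coeff_C_mul]
    ring
  have hb0 : (bU d c).coeff 0 = 1 := by rw [coeff_bU]; simp
  have hbd : (bU d c).coeff d ≠ 0 := by
    rw [coeff_bU, if_neg (by omega), dif_pos le_rfl]
    exact hc.1.ne_zero _
  have hbne : bU d c ≠ 0 := by
    intro h
    rw [h] at hbd
    exact hbd (coeff_zero d)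
  have hdvd : bU d c ∣ pco E (bU d c) :=
    (ht_coprime c hnz).symm.dvd_of_dvd_mul_left ⟨pco E (aU d c), sub_eq_zero.1 hW⟩
  have hEb : pco E (bU d c) = 0 := by
    by_contra hne
    obtain ⟨k, hk⟩ := hdvd
    have hk0 : k ≠ 0 := by
      rintro rfl
      exact hne (by rw [hk, mul_zero])
    have d1 := ht_natDegree_pco E (natDegree_bU_le d c)
    have d2 : d ≤ (bU d c).natDegree := le_natDegree_of_ne_zero hbd
    rw [hk, natDegree_mul hbne hk0] at d1
    have d3 := eq_C_of_natDegree_eq_zero (p := k) (by omega)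
    have d4 : (pco E (bU d c)).coeff 0 = 0 := by
      rw [coeff_pco (map_zero _), hb0, Derivation.map_one_eq_zero]
    rw [hk, mul_coeff_zero, hb0, one_mul] at d4
    exact hk0 (by rw [d3, d4, C_0])
  have hEa : pco E (aU d c) = 0 := by
    rw [hEb, mul_zero, zero_sub, neg_eq_zero] at hW
    exact (mul_eq_zero.1 hW).resolve_left hbne
  have hc0 : ∀ j, E (c j) = 0 := by
    rintro ⟨j, hj⟩
    by_cases h : j ≤ d
    · have := coeff_pco (map_zero E) (aU d c) j
      rw [hEa, coeff_zero, coeff_aU, dif_pos h] at this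
      exact this.symm
    · have := coeff_pco (map_zero E) (bU d c) (j - d)
      rw [hEb, coeff_zero, coeff_bU, if_neg (by omega), dif_pos (by omega)] at this
      rw [this]
      congr 3
      omega
  refine hx0 (funext fun i => ?_)
  have := ht_kill hc E hc0 (T i)
  rw [hE, ht_sum_apply] at this
  simpa [hD] using this

/-- The terms with the derivative of the scalar cancel. -/
theorem eta_smul {R : Type*} [CommRing R] [Algebra R K] (D : Derivation R K K) (r : K)
    (a b : K[X]) :
    (C r * a) * pco D (C r * b) - (C r * b) * pco D (C r * a) =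
      C (r ^ 2) * (a * pco D b - b * pco D a) := ht_eta D r a b

/-- Some coefficient of the universal map is not killed by a given dual derivation. -/
theorem exists_der_ne_zero {m : ℕ} (c T : Fin (m + 1) → K) (hc : IsTranscendenceBasis ℂ c)
    (D : Derivation ℂ K K) (hD : D (T 0) = 1) : ∃ j, D (c j) ≠ 0 := by
  by_contra h
  have := ht_kill hc D (fun j => by_contra fun g => h ⟨j, g⟩) (T 0)
  rw [hD] at this
  exact one_ne_zero this

end Pool.Agent.Lib.MP_0dd0d9_ag
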