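import Pool.Agent.Lib.MP_0dd0d9_ag.Alg2

/-!
TASK g0d Der.  Derivations of fields of characteristic zero.
-/

namespace Pool.Agent.Lib.MP_0dd0d9_ag

open Polynomial

open scoped IntermediateField.algebraAdjoinAdjoin in
/-- A derivation may be prescribed arbitrarily on a transcendence basis. -/
theorem der_basis {L K ι : Type*} [Field L] [Field K] [Algebra L K] [CharZero L] {v : ι → K}
    (hv : IsTranscendenceBasis L v) (w : ι → K) :
    ∃ D : Derivation L K K, ∀ i, D (v i) = w i := by
  let : Algebra (MvPolynomial ι L) K :=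
    (MvPolynomial.aeval v : MvPolynomial ι L →ₐ[L] K).toRingHom.toAlgebra
  have : IsScalarTower L (MvPolynomial ι L) K :=
    .of_algebraMap_eq fun r => ((MvPolynomial.aeval v : MvPolynomial ι L →ₐ[L] K).commutes r).symm
  have hE : Algebra.FormallyEtale (MvPolynomial ι L) K := by
    let : Algebra (MvPolynomial ι L) (Algebra.adjoin L (Set.range v)) :=
      hv.1.aevalEquiv.toAlgHom.toRingHom.toAlgebra
    have : IsScalarTower (MvPolynomial ι L) (Algebra.adjoin L (Set.range v)) K :=
      .of_algebraMap_eq fun r => (hv.1.algebraMap_aevalEquiv r).symm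
    have h1 : Algebra.FormallyEtale (MvPolynomial ι L) (Algebra.adjoin L (Set.range v)) :=
      .of_equiv (AlgEquiv.ofBijective (Algebra.ofId _ (Algebra.adjoin L (Set.range v)))
        hv.1.aevalEquiv.bijective)
    have h2 : Algebra.FormallyEtale (Algebra.adjoin L (Set.range v))
        (IntermediateField.adjoin L (Set.range v)) := .of_isLocalization (nonZeroDivisors _)
    have h3 : Algebra.IsAlgebraic (IntermediateField.adjoin L (Set.range v)) K :=
      hv.isAlgebraic_field
    have h4 : Algebra.FormallyEtale (IntermediateField.adjoin L (Set.range v)) K :=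
      .of_isSeparable _ K
    have h5 : Algebra.FormallyEtale (Algebra.adjoin L (Set.range v)) K :=
      .comp _ (IntermediateField.adjoin L (Set.range v)) K
    exact .comp _ (Algebra.adjoin L (Set.range v)) K
  let d0 : Derivation L (MvPolynomial ι L) K := MvPolynomial.mkDerivation L w
  let e := KaehlerDifferential.tensorKaehlerEquivOfFormallyEtale L (MvPolynomial ι L) K
  refine ⟨((d0.liftKaehlerDifferential.liftBaseChange K).comp e.symm.toLinearMap).compDer
    (KaehlerDifferential.D L K), fun i => ?_⟩
  have hi : v i = algebraMap (MvPolynomial ι L) K (MvPolynomial.X i) :=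
    (MvPolynomial.aeval_X v i).symm
  change (d0.liftKaehlerDifferential.liftBaseChange K)
    (e.symm (KaehlerDifferential.D L K (v i))) = w i
  rw [hi, KaehlerDifferential.tensorKaehlerEquivOfFormallyEtale_symm_D_algebraMap,
    LinearMap.liftBaseChange_tmul, one_smul, Derivation.liftKaehlerDifferential_comp_D]
  exact MvPolynomial.mkDerivation_X L w i

/-- A derivation may be prescribed arbitrarily on an algebraically independent family. -/
theorem der_indep {L K ι : Type*} [Field L] [Field K] [Algebra L K] [CharZero L] {v : ι → K}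
    (hv : AlgebraicIndependent L v) (w : ι → K) :
    ∃ D : Derivation L K K, ∀ i, D (v i) = w i := by
  obtain ⟨t, ht, hb⟩ := exists_isTranscendenceBasis_superset (s := Set.range v)
    hv.to_subtype_range
  obtain ⟨D, hD⟩ := der_basis hb fun x => Function.extend v w 0 x.1
  refine ⟨D, fun i => ?_⟩
  have := hD ⟨v i, ht ⟨i, rfl⟩⟩
  rwa [hv.injective.extend_apply] at this

/-- Extend `y` to a transcendence basis `T` of `K` over `L`.  `K` is formally etale over
`R = MvPolynomial ι L` acting through `aeval T` (localisation, then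
`Algebra.FormallyEtale.of_isSeparable`). -/
theorem exists_der {L K : Type*} [Field L] [Field K] [Algebra L K] [CharZero L] {y : K}
    (hy : Transcendental L y) : ∃ D : Derivation L K K, D y = 1 := by
  obtain ⟨D, hD⟩ := der_indep (v := fun _ : Unit => y)
    (algebraicIndependent_unique_type_iff.2 hy) fun _ => 1
  exact ⟨D, hD ()⟩

variable {K : Type*} [Field K] [Algebra ℂ K]

theorem exists_dual_der {m : ℕ} (T : Fin m → K) (hT : AlgebraicIndependent ℂ T) :
    ∃ D : Fin m → Derivation ℂ K K, ∀ i j, D j (T i) = if i = j then 1 else 0 := by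
  choose D hD using fun j => der_indep hT fun i => if i = j then (1 : K) else 0
  exact ⟨D, fun i j => hD j i⟩

theorem der_mem_adjoin (D : Derivation ℂ K K) {S : Set K} (L : IntermediateField ℂ K)
    (N : AddSubgroup K) (hN : ∀ a ∈ L, ∀ n ∈ N, a * n ∈ N) (hS : S ⊆ L)
    (hD : ∀ x ∈ S, D x ∈ N) {x : K} (hx : x ∈ IntermediateField.adjoin ℂ S) : D x ∈ N := by
  have hle : IntermediateField.adjoin ℂ S ≤ L := IntermediateField.adjoin_le_iff.2 hS
  induction hx using IntermediateField.adjoin_induction with
  | mem x hx => exact hD x hx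
  | algebraMap a => rw [D.map_algebraMap]; exact N.zero_mem
  | add x y _ _ h1 h2 => rw [map_add]; exact N.add_mem h1 h2
  | inv x hx h =>
    rw [D.leibniz_inv, smul_eq_mul]
    exact hN _ (neg_mem (pow_mem (inv_mem (hle hx)) 2)) _ h
  | mul x y hx hy h1 h2 =>
    rw [D.leibniz, smul_eq_mul, smul_eq_mul]
    exact N.add_mem (hN _ (hle hx) _ h2) (hN _ (hle hy) _ h1)

theorem der_mem_alg (D : Derivation ℂ K K) {S : Set K} (L : IntermediateField ℂ K)
    (N : AddSubgroup K) (hN : ∀ a ∈ L, ∀ n ∈ N, a * n ∈ N) (hS : S ⊆ L)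
    (hD : ∀ x ∈ S, D x ∈ N) {y : K} (hyL : y ∈ L)
    (hy : IsAlgebraic (IntermediateField.adjoin ℂ S) y) : D y ∈ N := by
  have hle : IntermediateField.adjoin ℂ S ≤ L := IntermediateField.adjoin_le_iff.2 hS
  set F := IntermediateField.adjoin ℂ S with hF
  have : CharZero F := algebraRat.charZero F
  have hsep : (minpoly F y).Separable := (minpoly.irreducible hy.isIntegral).separable
  have hne : aeval y (derivative (minpoly F y)) ≠ 0 :=
    hsep.aeval_derivative_ne_zero (minpoly.aeval F y)
  have key := der_eval D ((minpoly F y).map (algebraMap F K)) y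
  rw [eval_map_algebraMap, minpoly.aeval, map_zero, derivative_map, eval_map_algebraMap] at key
  have h1 : (pco D ((minpoly F y).map (algebraMap F K))).eval y ∈ N := by
    unfold pco
    rw [eval_finsetSum]
    refine N.sum_mem fun i _ => ?_
    rw [eval_monomial, mul_comm, coeff_map]
    exact hN _ (pow_mem hyL i) _ (der_mem_adjoin D L N hN hS hD ((minpoly F y).coeff i).2)
  have h2 : aeval y (derivative (minpoly F y)) ∈ L := by
    rw [aeval_eq_sum_range]
    refine sum_mem fun i _ => ?_
    rw [Algebra.smul_def]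
    exact mul_mem (hle ((derivative (minpoly F y)).coeff i).2) (pow_mem hyL i)
  have h3 : D y = -(aeval y (derivative (minpoly F y)))⁻¹ *
      (pco D ((minpoly F y).map (algebraMap F K))).eval y := by
    field_simp
    linear_combination -key
  rw [h3]
  exact hN _ (neg_mem (inv_mem h2)) _ h1

theorem der_eq_zero_of_alg (D : Derivation ℂ K K) {S : Set K} (hS : ∀ x ∈ S, D x = 0) {y : K}
    (hy : IsAlgebraic (IntermediateField.adjoin ℂ S) y) : D y = 0 := by
  have := der_mem_alg D (S := S) ⊤ ⊥ (fun a _ n hn => by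
    rw [AddSubgroup.mem_bot] at hn ⊢
    rw [hn, mul_zero]) (fun _ _ => IntermediateField.mem_top)
    (fun x hx => AddSubgroup.mem_bot.2 (hS x hx)) IntermediateField.mem_top hy
  exact AddSubgroup.mem_bot.1 this

theorem alg_of_der {S : Set K} {y : K}
    (h : ∀ D : Derivation ℂ K K, (∀ x ∈ S, D x = 0) → D y = 0) :
    IsAlgebraic (Algebra.adjoin ℂ S) y := by
  rw [← IntermediateField.isAlgebraic_adjoin_iff]
  by_contra c
  have : CharZero (IntermediateField.adjoin ℂ S) := algebraRat.charZero _
  obtain ⟨D, hD⟩ := exists_der (L := IntermediateField.adjoin ℂ S) c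
  have := h (D.restrictScalars ℂ) fun x hx =>
    D.map_algebraMap (⟨x, IntermediateField.subset_adjoin ℂ S hx⟩ : IntermediateField.adjoin ℂ S)
  rw [Derivation.restrictScalars_apply, hD] at this
  exact one_ne_zero this

theorem der_stable (D : Derivation ℂ K K) {S : Set K} (L : IntermediateField ℂ K)
    (hS : S ⊆ L) (hD : ∀ x ∈ S, D x ∈ L) {y : K} (hyL : y ∈ L)
    (hy : IsAlgebraic (IntermediateField.adjoin ℂ S) y) : D y ∈ L :=
  der_mem_alg D L L.toSubfield.toAddSubgroup (fun _ ha _ hn => L.mul_mem ha hn) hS hD hyL hy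

end Pool.Agent.Lib.MP_0dd0d9_ag
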