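import Mathlib

/-!
TASK g0d UL2.  The multipliers of the third iterate are infinitesimally rigid at the power map.
-/

namespace Pool.Agent.Lib.MP_0dd0d9_ag

open Polynomial

theorem ul2_small {N m : ℤ} (h : N ∣ m) (h1 : -N < m) (h2 : m < N) : m = 0 :=
  Int.eq_zero_of_abs_lt_dvd h (abs_lt.mpr ⟨h1, h2⟩)

theorem ul2_dvd0 {d e f : ℤ} (hd : 2 ≤ d) (h1 : -d ≤ e) (h2 : e ≤ d) (h3 : -d < f) (h4 : f < d) :
    d ^ 3 - 1 ∣ e * d ^ 0 - f ↔ e = f := by
  have h5 : 4 * d ≤ d ^ 3 := by nlinarith [mul_self_nonneg (d - 2), mul_self_nonneg d]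
  refine ⟨fun h => ?_, fun h => by simp [h]⟩
  have := ul2_small h (by linarith) (by linarith)
  linarith

theorem ul2_dvd1 {d e f : ℤ} (hd : 2 ≤ d) (h1 : -d ≤ e) (h2 : e ≤ d) (h3 : -d < f) (h4 : f < d)
    (h0 : f ≠ 0) : ¬ d ^ 3 - 1 ∣ e * d ^ 1 - f := by
  intro h
  have h5 : 2 * d ^ 2 ≤ d ^ 3 := by nlinarith [mul_self_nonneg d]
  have h6 := ul2_small h (by nlinarith) (by nlinarith)
  exact h0 (ul2_small (N := d) ⟨e, by linarith⟩ h3 h4)

theorem ul2_dvd2 {d e f : ℤ} (hd : 2 ≤ d) (h1 : -d ≤ e) (h2 : e ≤ d) (h3 : -d < f) (h4 : f < d)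
    (h0 : f ≠ 0) : d ^ 3 - 1 ∣ e * d ^ 2 - f ↔ (e = d ∧ f = 1) ∨ (e = -d ∧ f = -1) := by
  have h5 : 2 * d ^ 2 ≤ d ^ 3 := by nlinarith [mul_self_nonneg d]
  have h6 : 2 * d ≤ d ^ 2 := by nlinarith
  have h7 : 0 < d ^ 2 := by positivity
  constructor
  · intro h
    rcases lt_trichotomy e 0 with he | rfl | he
    · have h8 : d ^ 3 - 1 ∣ e * d ^ 2 - f + (d ^ 3 - 1) := dvd_add h dvd_rfl
      have h9 := ul2_small h8 (by nlinarith) (by nlinarith)
      have h10 := ul2_small (N := d ^ 2) (m := f + 1) ⟨e + d, by linarith⟩ (by linarith)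
        (by linarith)
      have h11 : (e + d) * d ^ 2 = 0 := by linarith
      exact Or.inr ⟨by linarith [(mul_eq_zero.mp h11).resolve_right h7.ne'], by linarith⟩
    · exact absurd (by linarith [ul2_small h (by linarith) (by linarith)]) h0
    · have h8 : d ^ 3 - 1 ∣ e * d ^ 2 - f - (d ^ 3 - 1) := dvd_sub h dvd_rfl
      have h9 := ul2_small h8 (by nlinarith) (by nlinarith)
      have h10 := ul2_small (N := d ^ 2) (m := f - 1) ⟨e - d, by linarith⟩ (by linarith)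
        (by linarith)
      have h11 : (e - d) * d ^ 2 = 0 := by linarith
      exact Or.inl ⟨by linarith [(mul_eq_zero.mp h11).resolve_right h7.ne'], by linarith⟩
  · rintro (⟨rfl, rfl⟩ | ⟨rfl, rfl⟩)
    · exact ⟨1, by ring⟩
    · exact ⟨-1, by ring⟩

theorem ul2_geom {κ : Type*} [Field κ] {N : ℕ} {ω : κ} (hω : IsPrimitiveRoot ω N) (m : ℤ) :
    ∑ i : Fin N, (ω ^ m) ^ i.val = if (N : ℤ) ∣ m then (N : κ) else 0 := by
  rw [Fin.sum_univ_eq_sum_range (fun i => (ω ^ m) ^ i)]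
  split_ifs with h
  · rw [(hω.zpow_eq_one_iff_dvd m).mpr h]
    simp
  · rw [geom_sum_eq (mt (hω.zpow_eq_one_iff_dvd m).mp h), ← zpow_natCast, ← zpow_mul, mul_comm,
      zpow_mul, zpow_natCast, hω.pow_eq_one]
    simp

/-- Fourier analysis of the summed relation. -/
theorem ul2_fourier {κ : Type*} [Field κ] [CharZero κ] {d : ℕ} (hd : 2 ≤ d) {ω : κ}
    (hω : IsPrimitiveRoot ω (d ^ 3 - 1)) (r : ℕ → κ)
    (h : ∀ i : Fin (d ^ 3 - 1), ∑ s : Fin 3, (∑ k ∈ Finset.range (2 * d + 1),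
      r k * ((ω ^ i.val) ^ d ^ s.val) ^ k) / ((ω ^ i.val) ^ d ^ s.val) ^ d = 0)
    {k : ℕ} (h1 : 1 ≤ k) (h2 : k < 2 * d) (h3 : k ≠ d) :
    r k + (if k = d + 1 then r (2 * d) else 0) + (if k + 1 = d then r 0 else 0) = 0 := by
  have h8 : 2 ^ 3 ≤ d ^ 3 := Nat.pow_le_pow_left hd 3
  have hN : d ^ 3 - 1 ≠ 0 := by omega
  have hω0 : ω ≠ 0 := hω.ne_zero hN
  have hNc : ((d ^ 3 - 1 : ℕ) : ℤ) = (d : ℤ) ^ 3 - 1 := by
    rw [Nat.cast_sub (by omega)]
    push_cast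
    rfl
  have key : ∑ s : Fin 3, ∑ j ∈ Finset.range (2 * d + 1),
      r j * (if (d : ℤ) ^ 3 - 1 ∣ ((j : ℤ) - d) * d ^ s.val - (k - d)
        then ((d ^ 3 - 1 : ℕ) : κ) else 0) = 0 := by
    simp only [← hNc, ← ul2_geom hω, Finset.mul_sum]
    rw [Finset.sum_congr rfl fun s _ => Finset.sum_comm, Finset.sum_comm]
    refine Finset.sum_eq_zero fun i _ => ?_
    have h0 := congrArg (fun x => x * (ω ^ (-((k : ℤ) - d))) ^ i.val) (h i)
    simp only [zero_mul, Finset.sum_mul, Finset.sum_div] at h0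
    refine Eq.trans (Finset.sum_congr rfl fun s _ => Finset.sum_congr rfl fun j _ => ?_) h0
    rw [mul_div_assoc, mul_assoc]
    refine congrArg (fun x => r j * x) ?_
    simp only [← zpow_natCast, ← zpow_mul, ← zpow_sub₀ hω0, ← zpow_add₀ hω0]
    refine congrArg (fun x : ℤ => ω ^ x) ?_
    push_cast
    ring
  have hd' : (2 : ℤ) ≤ d := by exact_mod_cast hd
  have f1 : -(d : ℤ) < k - d := by omega
  have f2 : (k : ℤ) - d < d := by omega
  have f0 : (k : ℤ) - d ≠ 0 := by omega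
  rw [Fin.sum_univ_three] at key
  simp only [Fin.val_zero, Fin.val_one, Fin.val_two] at key
  have s0 : ∑ j ∈ Finset.range (2 * d + 1),
      r j * (if (d : ℤ) ^ 3 - 1 ∣ ((j : ℤ) - d) * d ^ 0 - (k - d)
        then ((d ^ 3 - 1 : ℕ) : κ) else 0) = r k * ((d ^ 3 - 1 : ℕ) : κ) := by
    rw [Finset.sum_eq_single k, if_pos (by simp)]
    · intro j hj hjk
      have := Finset.mem_range.mp hj
      rw [if_neg, mul_zero]
      intro hh
      have := (ul2_dvd0 hd' (by omega) (by omega) f1 f2).mp hh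
      omega
    · intro hk
      exact absurd (Finset.mem_range.mpr (by omega)) hk
  have s1 : ∑ j ∈ Finset.range (2 * d + 1),
      r j * (if (d : ℤ) ^ 3 - 1 ∣ ((j : ℤ) - d) * d ^ 1 - (k - d)
        then ((d ^ 3 - 1 : ℕ) : κ) else 0) = 0 := by
    refine Finset.sum_eq_zero fun j hj => ?_
    have := Finset.mem_range.mp hj
    rw [if_neg (ul2_dvd1 (e := (j : ℤ) - d) hd' (by omega) (by omega) f1 f2 f0), mul_zero]
  have s2 : ∑ j ∈ Finset.range (2 * d + 1),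
      r j * (if (d : ℤ) ^ 3 - 1 ∣ ((j : ℤ) - d) * d ^ 2 - (k - d)
        then ((d ^ 3 - 1 : ℕ) : κ) else 0) =
      ((if k = d + 1 then r (2 * d) else 0) + if k + 1 = d then r 0 else 0) *
        ((d ^ 3 - 1 : ℕ) : κ) := by
    have e : ∀ j ∈ Finset.range (2 * d + 1),
        r j * (if (d : ℤ) ^ 3 - 1 ∣ ((j : ℤ) - d) * d ^ 2 - (k - d)
          then ((d ^ 3 - 1 : ℕ) : κ) else 0) =
        ((if j = 2 * d then (if k = d + 1 then r (2 * d) else 0) else 0) +
          if j = 0 then (if k + 1 = d then r 0 else 0) else 0) * ((d ^ 3 - 1 : ℕ) : κ) := by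
      intro j hj
      have := Finset.mem_range.mp hj
      have hiff := ul2_dvd2 (e := (j : ℤ) - d) hd' (by omega) (by omega) f1 f2 f0
      by_cases c1 : j = 2 * d ∧ k = d + 1
      · rw [if_pos (hiff.mpr (by omega)), if_pos c1.1, if_pos c1.2, if_neg (by omega), c1.1,
          add_zero]
      by_cases c2 : j = 0 ∧ k + 1 = d
      · rw [if_pos (hiff.mpr (by omega)), if_neg (by omega), if_pos c2.1, if_pos c2.2, c2.1,
          zero_add]
      rw [if_neg (fun hh => by have := hiff.mp hh; omega), ← ite_and, ← ite_and, if_neg c1,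
        if_neg c2]
      simp
    rw [Finset.sum_congr rfl e, ← Finset.sum_mul, Finset.sum_add_distrib, Finset.sum_ite_eq',
      Finset.sum_ite_eq', if_pos (Finset.mem_range.mpr (by omega : 2 * d < 2 * d + 1)),
      if_pos (Finset.mem_range.mpr (by omega : 0 < 2 * d + 1))]
  rw [s0, s1, s2, add_zero, ← add_mul, ← add_assoc] at key
  exact (mul_eq_zero.mp key).resolve_right (Nat.cast_ne_zero.mpr hN)

theorem ul2_shape {κ : Type*} [Field κ] [CharZero κ] {d : ℕ} (hd : 2 ≤ d) {Q : κ[X]}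
    (hQ : Q.natDegree ≤ 2 * d)
    (h : ∀ k : ℕ, 1 ≤ k → k < 2 * d → k ≠ d → ((k : κ) - d) * Q.coeff k +
      (if k = d + 1 then (((2 * d : ℕ) : κ) - d) * Q.coeff (2 * d) else 0) +
      (if k + 1 = d then (((0 : ℕ) : κ) - d) * Q.coeff 0 else 0) = 0) :
    Q = C (Q.coeff 0) * X ^ 0 + C (-(d * Q.coeff 0)) * X ^ (d - 1) + C (Q.coeff d) * X ^ d +
      C (-(d * Q.coeff (2 * d))) * X ^ (d + 1) + C (Q.coeff (2 * d)) * X ^ (2 * d) := by
  ext k
  simp only [coeff_add, coeff_C_mul_X_pow]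
  by_cases c0 : k = 0
  · rw [if_pos c0, if_neg (by omega), if_neg (by omega), if_neg (by omega), if_neg (by omega), c0]
    ring
  by_cases c1 : k = d - 1
  · have h1 := h k (by omega) (by omega) (by omega)
    have h2 : (d : κ) = k + 1 := by exact_mod_cast (show d = k + 1 by omega)
    rw [if_neg (by omega), if_pos (by omega)] at h1
    rw [if_neg c0, if_pos c1, if_neg (by omega), if_neg (by omega), if_neg (by omega)]
    push_cast at h1
    linear_combination -h1 - Q.coeff k * h2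
  by_cases c2 : k = d
  · rw [if_neg c0, if_neg c1, if_pos c2, if_neg (by omega), if_neg (by omega), c2]
    ring
  by_cases c3 : k = d + 1
  · have h1 := h k (by omega) (by omega) (by omega)
    have h2 : (k : κ) = d + 1 := by exact_mod_cast c3
    rw [if_pos c3, if_neg (by omega)] at h1
    rw [if_neg c0, if_neg c1, if_neg c2, if_pos c3, if_neg (by omega)]
    push_cast at h1
    linear_combination h1 - Q.coeff k * h2
  by_cases c4 : k = 2 * d
  · rw [if_neg c0, if_neg c1, if_neg c2, if_neg c3, if_pos c4, c4]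
    ring
  rw [if_neg c0, if_neg c1, if_neg c2, if_neg c3, if_neg c4]
  simp only [add_zero]
  by_cases c5 : k < 2 * d
  · have h1 := h k (by omega) c5 c2
    rw [if_neg c3, if_neg (by omega), add_zero, add_zero] at h1
    exact (mul_eq_zero.mp h1).resolve_left (sub_ne_zero.mpr (by exact_mod_cast c2))
  · exact coeff_eq_zero_of_natDegree_lt (by omega)

theorem ul2_three {κ : Type*} [Field κ] {a b c x y z : κ} (hxy : x ≠ y) (hxz : x ≠ z)
    (hyz : y ≠ z) (hx : a * x ^ 2 + b * x + c = 0) (hy : a * y ^ 2 + b * y + c = 0)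
    (hz : a * z ^ 2 + b * z + c = 0) : a = 0 ∧ b = 0 ∧ c = 0 := by
  have h1 : a * (x + y) + b = 0 :=
    mul_left_cancel₀ (sub_ne_zero.mpr hxy) (by linear_combination hx - hy)
  have h2 : a * (x + z) + b = 0 :=
    mul_left_cancel₀ (sub_ne_zero.mpr hxz) (by linear_combination hx - hz)
  have h3 : a = 0 := mul_left_cancel₀ (sub_ne_zero.mpr hyz) (by linear_combination h1 - h2)
  have h4 : b = 0 := by linear_combination h1 - (x + y) * h3
  exact ⟨h3, h4, by linear_combination hx - x ^ 2 * h3 - x * h4⟩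

/-- Put `N = d ^ 3 - 1`, `φ z = pa z / z ^ d - pb z = ∑ e ∈ [-d, d], φ e * z ^ e` and
`v s = u s / ζ s`.  The first three relations read `v (s + 1) = d * v s + φ (ζ s)`; adding them and
substituting in the fourth gives `∑ s, ψ (ζ s) = 0` with `ψ z = ∑ e * φ e * z ^ e`.  Multiply by
`ω ^ (-i * e0)` and sum over `i < N` (geometric sums): `∑ e * φ e = 0` over the pairs `(e, s)` with
`N ∣ e * d ^ s - e0`.  For `2 ≤ |e0| ≤ d - 1` the only pair is `(e0, 0)`; for `e0 = 1` the pairs are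
`(1, 0)`, `(d, 2)`; for `e0 = -1` they are `(-1, 0)`, `(-d, 2)`.  So
`φ z = φ 0 + φ d * (z ^ d - d z) + φ (-d) * (z ^ (-d) - d z ^ (-1))`, and
`v 0 = -φ 0 / (d - 1) + φ d * ζ + φ (-d) / ζ` (the difference `δ` satisfies `δ = d ^ 3 * δ`).
Vanishing at three distinct `ζ` kills the three remaining coefficients. -/
theorem ul_alg {κ : Type*} [Field κ] [CharZero κ] {d : ℕ} (hd : 2 ≤ d) {ω : κ}
    (hω : IsPrimitiveRoot ω (d ^ 3 - 1)) {pa pb : κ[X]} (ha : pa.natDegree ≤ d)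
    (hb : pb.natDegree ≤ d) (hb0 : pb.coeff 0 = 0) (u : Fin (d ^ 3 - 1) → Fin 3 → κ)
    (hrel : ∀ (i : Fin (d ^ 3 - 1)) (s : Fin 3),
      pa.eval ((ω ^ i.val) ^ d ^ s.val) + d * ((ω ^ i.val) ^ d ^ s.val) ^ (d - 1) * u i s =
        u i (s + 1) + ((ω ^ i.val) ^ d ^ s.val) ^ d * pb.eval ((ω ^ i.val) ^ d ^ s.val))
    (hlam : ∀ i : Fin (d ^ 3 - 1), ∑ s : Fin 3,
      (((derivative pa).eval ((ω ^ i.val) ^ d ^ s.val) +
          d * ((ω ^ i.val) ^ d ^ s.val) ^ (d - 1) * pb.eval ((ω ^ i.val) ^ d ^ s.val) -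
          ((ω ^ i.val) ^ d ^ s.val) ^ d * (derivative pb).eval ((ω ^ i.val) ^ d ^ s.val) +
          d * (d - 1) * ((ω ^ i.val) ^ d ^ s.val) ^ (d - 2) * u i s) /
        (d * ((ω ^ i.val) ^ d ^ s.val) ^ (d - 1)) - 2 * pb.eval ((ω ^ i.val) ^ d ^ s.val)) = 0)
    (e : Fin 3 → Fin (d ^ 3 - 1)) (he : Function.Injective e) (hu : ∀ s, u (e s) 0 = 0) :
    pa = 0 ∧ pb = 0 := by
  obtain ⟨n, rfl⟩ : ∃ n, d = n + 2 := ⟨d - 2, by omega⟩
  have h8 : 2 ^ 3 ≤ (n + 2) ^ 3 := Nat.pow_le_pow_left hd 3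
  have hω0 : ω ≠ 0 := hω.ne_zero (by omega)
  obtain ⟨ζ, hζ⟩ : ∃ ζ : Fin ((n + 2) ^ 3 - 1) → Fin 3 → κ,
    ∀ i s, ζ i s = (ω ^ i.val) ^ (n + 2) ^ s.val := ⟨_, fun _ _ => rfl⟩
  have hζ0 : ∀ i s, ζ i s ≠ 0 := fun i s => by
    rw [hζ]
    exact pow_ne_zero _ (pow_ne_zero _ hω0)
  have hstep : ∀ i s, ζ i (s + 1) = ζ i s ^ (n + 2) := by
    intro i s
    rw [hζ, hζ, ← pow_mul (ω ^ i.val), ← pow_succ]
    fin_cases s
    · rfl
    · rfl
    · change (ω ^ i.val) ^ (n + 2) ^ 0 = (ω ^ i.val) ^ (n + 2) ^ 3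
      have h1 : (ω ^ i.val) ^ ((n + 2) ^ 3 - 1) = 1 := by
        rw [← pow_mul, mul_comm, pow_mul, hω.pow_eq_one, one_pow]
      generalize ω ^ i.val = x at h1 ⊢
      rw [← pow_sub_one_mul (show (n + 2) ^ 3 ≠ 0 by omega) x, h1]
      simp
  obtain ⟨Q, hQ⟩ : ∃ Q : κ[X], Q = pa - X ^ (n + 2) * pb := ⟨_, rfl⟩
  have hdeg : Q.natDegree ≤ 2 * (n + 2) := by
    rw [hQ]
    refine (natDegree_sub_le _ _).trans (max_le (by omega) (natDegree_mul_le.trans ?_))
    rw [natDegree_X_pow]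
    omega
  have hD : ((n + 2 : ℕ) : κ) ≠ 0 := Nat.cast_ne_zero.mpr (by omega)
  simp only [← hζ, show n + 2 - 1 = n + 1 from rfl, show n + 2 - 2 = n from rfl] at hrel hlam
  have hv : ∀ i s, u i (s + 1) / ζ i (s + 1) =
      ((n + 2 : ℕ) : κ) * (u i s / ζ i s) + Q.eval (ζ i s) / ζ i s ^ (n + 2) := by
    intro i s
    have h0 := hζ0 i s
    rw [hstep, hQ, eval_sub, eval_mul, eval_pow, eval_X]
    field_simp
    linear_combination -ζ i s * hrel i s
  have hψ : ∀ i, ∑ s : Fin 3, (∑ k ∈ Finset.range (2 * (n + 2) + 1),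
      ((k : κ) - ((n + 2 : ℕ) : κ)) * Q.coeff k * ζ i s ^ k) / ζ i s ^ (n + 2) = 0 := by
    intro i
    have e1 : ∀ z : κ, ∑ k ∈ Finset.range (2 * (n + 2) + 1),
        ((k : κ) - ((n + 2 : ℕ) : κ)) * Q.coeff k * z ^ k =
        z * (derivative Q).eval z - ((n + 2 : ℕ) : κ) * Q.eval z := by
      intro z
      rw [derivative_eval, sum_over_range' _ (by simp) _ (Nat.lt_succ_of_le hdeg),
        eval_eq_sum_range' (Nat.lt_succ_of_le hdeg), Finset.mul_sum, Finset.mul_sum,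
        ← Finset.sum_sub_distrib]
      refine Finset.sum_congr rfl fun k _ => ?_
      rcases k with _ | k
      · simp only [Nat.cast_zero]
        ring
      · rw [Nat.add_sub_cancel]
        ring
    have e2 : ∀ s, (ζ i s * (derivative Q).eval (ζ i s) - ((n + 2 : ℕ) : κ) * Q.eval (ζ i s)) /
        ζ i s ^ (n + 2) = ((n + 2 : ℕ) : κ) * (((derivative pa).eval (ζ i s) +
          ((n + 2 : ℕ) : κ) * ζ i s ^ (n + 1) * pb.eval (ζ i s) -
          ζ i s ^ (n + 2) * (derivative pb).eval (ζ i s) +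
          ((n + 2 : ℕ) : κ) * (((n + 2 : ℕ) : κ) - 1) * ζ i s ^ n * u i s) /
        (((n + 2 : ℕ) : κ) * ζ i s ^ (n + 1)) - 2 * pb.eval (ζ i s) +
          (u i s / ζ i s - u i (s + 1) / ζ i (s + 1))) := by
      intro s
      have h0 := hζ0 i s
      rw [hv, hQ]
      simp only [derivative_sub, derivative_mul, derivative_X_pow, eval_sub, eval_add, eval_mul,
        eval_pow, eval_X, eval_C, show n + 2 - 1 = n + 1 from rfl]
      field_simp
      ring
    simp only [e1, e2]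
    rw [← Finset.mul_sum, Finset.sum_add_distrib, hlam i, Fin.sum_univ_three]
    have a1 : (0 : Fin 3) + 1 = 1 := rfl
    have a2 : (1 : Fin 3) + 1 = 2 := rfl
    have a3 : (2 : Fin 3) + 1 = 0 := rfl
    rw [a1, a2, a3]
    ring
  have hshape := ul2_shape hd hdeg fun k h1 h2 h3 =>
    ul2_fourier hd hω (fun k => ((k : κ) - ((n + 2 : ℕ) : κ)) * Q.coeff k)
      (by simpa only [hζ] using hψ) h1 h2 h3
  generalize Q.coeff 0 = β at hshape
  generalize Q.coeff (n + 2) = γ at hshape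
  generalize Q.coeff (2 * (n + 2)) = α at hshape
  have hD1 : ((n + 2 : ℕ) : κ) - 1 ≠ 0 := sub_ne_zero.mpr (by exact_mod_cast (by omega : n + 2 ≠ 1))
  have hδ : ∀ i s, u i (s + 1) / ζ i (s + 1) -
      (-γ / (((n + 2 : ℕ) : κ) - 1) + α * ζ i (s + 1) + β / ζ i (s + 1)) =
      ((n + 2 : ℕ) : κ) * (u i s / ζ i s -
        (-γ / (((n + 2 : ℕ) : κ) - 1) + α * ζ i s + β / ζ i s)) := by
    intro i s
    have h0 := hζ0 i s
    rw [hv, hstep, hshape]
    simp only [eval_add, eval_mul, eval_pow, eval_X, eval_C, show n + 2 - 1 = n + 1 from rfl]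
    field_simp
    ring
  have hroot : ∀ s, α * ζ (e s) 0 ^ 2 + -γ / (((n + 2 : ℕ) : κ) - 1) * ζ (e s) 0 + β = 0 := by
    intro s
    have h0 := hδ (e s) 0
    have h1 := hδ (e s) 1
    have h2 := hδ (e s) 2
    have a1 : (0 : Fin 3) + 1 = 1 := rfl
    have a2 : (1 : Fin 3) + 1 = 2 := rfl
    have a3 : (2 : Fin 3) + 1 = 0 := rfl
    rw [a1] at h0
    rw [a2, h0] at h1
    rw [a3, h1, hu, zero_div, zero_sub] at h2
    have h3 : ((n + 2 : ℕ) : κ) ^ 3 - 1 ≠ 0 :=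
      sub_ne_zero.mpr (by exact_mod_cast (by omega : (n + 2) ^ 3 ≠ 1))
    have h4 : -γ / (((n + 2 : ℕ) : κ) - 1) + α * ζ (e s) 0 + β / ζ (e s) 0 = 0 :=
      mul_left_cancel₀ h3 (by linear_combination h2)
    have h5 := div_mul_cancel₀ β (hζ0 (e s) 0)
    linear_combination ζ (e s) 0 * h4 - h5
  have hne : ∀ s t : Fin 3, s ≠ t → ζ (e s) 0 ≠ ζ (e t) 0 := by
    intro s t hst h
    rw [hζ, hζ] at h
    simp only [Fin.val_zero, pow_zero, pow_one] at h
    exact hst (he (Fin.ext (hω.pow_inj (e s).2 (e t).2 h)))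
  obtain ⟨hα, hγ, hβ⟩ := ul2_three (hne 0 1 (by simp)) (hne 0 2 (by simp)) (hne 1 2 (by simp))
    (hroot 0) (hroot 1) (hroot 2)
  have hγ' : γ = 0 := by simpa [hD1] using (div_eq_zero_iff.mp hγ).resolve_right hD1
  have hQ0 : pa = X ^ (n + 2) * pb := by
    rw [← sub_eq_zero, ← hQ, hshape, hα, hβ, hγ']
    simp
  have hpb : pb = 0 := by
    ext k
    rcases k with _ | k
    · exact hb0
    · rw [← coeff_X_pow_mul pb (n + 2), ← hQ0]
      exact coeff_eq_zero_of_natDegree_lt (by omega)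
  exact ⟨by rw [hQ0, hpb, mul_zero], hpb⟩

end Pool.Agent.Lib.MP_0dd0d9_ag
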