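import Pool.Agent.Lib.MP_0dd0d9_ag.UL1
import Pool.Agent.Lib.MP_0dd0d9_ag.UL2
import Pool.Agent.Lib.MP_0dd0d9_ag.Der

/-!
TASK g0d UL3.  The coefficients are algebraic over multipliers and three fixed points.
-/

namespace Pool.Agent.Lib.MP_0dd0d9_ag

open Polynomial

section res

variable {K : Type*} [Field K] (O : ValuationSubring K)

/-- `x` is integral with residue `a`. -/
def ul3R (x : K) (a : IsLocalRing.ResidueField O) : Prop :=
  ∃ r : O, (r : K) = x ∧ IsLocalRing.residue O r = a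

/-- `p` is integral with residue `q`. -/
def ul3P (p : K[X]) (q : (IsLocalRing.ResidueField O)[X]) : Prop :=
  ∃ r : O[X], r.map O.subtype = p ∧ r.map (IsLocalRing.residue O) = q

variable {O}

theorem ul3R.unique {x : K} {a b : IsLocalRing.ResidueField O} (h : ul3R O x a)
    (h' : ul3R O x b) : a = b := by
  obtain ⟨r, h1, rfl⟩ := h
  obtain ⟨r', h2, rfl⟩ := h'
  rw [Subtype.ext (h1.trans h2.symm)]

theorem ul3R.add {x y : K} {a b : IsLocalRing.ResidueField O} (h : ul3R O x a)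
    (h' : ul3R O y b) : ul3R O (x + y) (a + b) := by
  obtain ⟨r, rfl, rfl⟩ := h
  obtain ⟨r', rfl, rfl⟩ := h'
  exact ⟨r + r', rfl, map_add _ _ _⟩

theorem ul3R.sub {x y : K} {a b : IsLocalRing.ResidueField O} (h : ul3R O x a)
    (h' : ul3R O y b) : ul3R O (x - y) (a - b) := by
  obtain ⟨r, rfl, rfl⟩ := h
  obtain ⟨r', rfl, rfl⟩ := h'
  exact ⟨r - r', rfl, map_sub _ _ _⟩

theorem ul3R.mul {x y : K} {a b : IsLocalRing.ResidueField O} (h : ul3R O x a)
    (h' : ul3R O y b) : ul3R O (x * y) (a * b) := by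
  obtain ⟨r, rfl, rfl⟩ := h
  obtain ⟨r', rfl, rfl⟩ := h'
  exact ⟨r * r', rfl, map_mul _ _ _⟩

theorem ul3R.one : ul3R O 1 1 := ⟨1, rfl, map_one _⟩

theorem ul3R.zero : ul3R O 0 0 := ⟨0, rfl, map_zero _⟩

theorem ul3R.two : ul3R O 2 2 := by
  have := (ul3R.one (O := O)).add ul3R.one
  rwa [one_add_one_eq_two, one_add_one_eq_two] at this

theorem ul3R.pow {x : K} {a : IsLocalRing.ResidueField O} (h : ul3R O x a) (n : ℕ) :
    ul3R O (x ^ n) (a ^ n) := by
  obtain ⟨r, rfl, rfl⟩ := h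
  exact ⟨r ^ n, rfl, map_pow _ _ _⟩

theorem ul3R.val_one {x : K} {a : IsLocalRing.ResidueField O} (h : ul3R O x a) (ha : a ≠ 0) :
    O.valuation x = 1 := by
  obtain ⟨r, rfl, rfl⟩ := h
  rw [← ValuationSubring.valuation_eq_one_iff]
  exact (IsLocalRing.residue_ne_zero_iff_isUnit r).mp ha

theorem ul3R.ne_zero {x : K} {a : IsLocalRing.ResidueField O} (h : ul3R O x a) (ha : a ≠ 0) :
    x ≠ 0 := by
  rintro rfl
  exact ha (h.unique ul3R.zero)

theorem ul3R.div {x y : K} {a b : IsLocalRing.ResidueField O} (h : ul3R O x a)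
    (h' : ul3R O y b) (hb : b ≠ 0) : ul3R O (x / y) (a / b) := by
  have hy := h'.ne_zero hb
  obtain ⟨r, rfl, rfl⟩ := h
  obtain ⟨r', rfl, rfl⟩ := h'
  obtain ⟨t, ht⟩ := ((IsLocalRing.residue_ne_zero_iff_isUnit r').mp hb).exists_right_inv
  refine ⟨r * t, ?_, ?_⟩
  · have : (r' : K) * t = 1 := by exact_mod_cast congrArg (fun z : O => (z : K)) ht
    rw [eq_div_iff hy]
    push_cast
    linear_combination (r : K) * this
  · have : IsLocalRing.residue O r' * IsLocalRing.residue O t = 1 := by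
      rw [← map_mul, ht, map_one]
    rw [eq_div_iff hb, map_mul]
    linear_combination IsLocalRing.residue O r * this

theorem ul3R.of_lt {x : K} (h : O.valuation x < 1) : ul3R O x 0 := by
  have hx : x ∈ O := (O.valuation_le_one_iff x).mp h.le
  refine ⟨⟨x, hx⟩, rfl, ?_⟩
  rw [IsLocalRing.residue_eq_zero_iff, ValuationSubring.valuation_lt_one_iff]
  exact h

theorem ul3R.of_sub {x y : K} {a : IsLocalRing.ResidueField O} (h : ul3R O y a)
    (hxy : O.valuation (x - y) < 1) : ul3R O x a := by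
  have := (ul3R.of_lt hxy).add h
  rwa [sub_add_cancel, zero_add] at this

theorem ul3R.of_le {x : K} (h : O.valuation x ≤ 1) : ∃ a, ul3R O x a :=
  ⟨_, ⟨x, (O.valuation_le_one_iff x).mp h⟩, rfl, rfl⟩

theorem ul3P.add {p q : K[X]} {a b : (IsLocalRing.ResidueField O)[X]} (h : ul3P O p a)
    (h' : ul3P O q b) : ul3P O (p + q) (a + b) := by
  obtain ⟨r, rfl, rfl⟩ := h
  obtain ⟨r', rfl, rfl⟩ := h'
  exact ⟨r + r', Polynomial.map_add _, Polynomial.map_add _⟩

theorem ul3P.sub {p q : K[X]} {a b : (IsLocalRing.ResidueField O)[X]} (h : ul3P O p a)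
    (h' : ul3P O q b) : ul3P O (p - q) (a - b) := by
  obtain ⟨r, rfl, rfl⟩ := h
  obtain ⟨r', rfl, rfl⟩ := h'
  exact ⟨r - r', Polynomial.map_sub _, Polynomial.map_sub _⟩

theorem ul3P.mul {p q : K[X]} {a b : (IsLocalRing.ResidueField O)[X]} (h : ul3P O p a)
    (h' : ul3P O q b) : ul3P O (p * q) (a * b) := by
  obtain ⟨r, rfl, rfl⟩ := h
  obtain ⟨r', rfl, rfl⟩ := h'
  exact ⟨r * r', Polynomial.map_mul _, Polynomial.map_mul _⟩

theorem ul3P.der {p : K[X]} {a : (IsLocalRing.ResidueField O)[X]} (h : ul3P O p a) :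
    ul3P O (derivative p) (derivative a) := by
  obtain ⟨r, rfl, rfl⟩ := h
  exact ⟨derivative r, (derivative_map _ _).symm, (derivative_map _ _).symm⟩

theorem ul3P.eval {p : K[X]} {q : (IsLocalRing.ResidueField O)[X]} (h : ul3P O p q) {x : K}
    {a : IsLocalRing.ResidueField O} (h' : ul3R O x a) : ul3R O (p.eval x) (q.eval a) := by
  obtain ⟨r, rfl, rfl⟩ := h
  obtain ⟨r', rfl, rfl⟩ := h'
  refine ⟨r.eval r', ?_, ?_⟩
  · exact (eval_map_apply O.subtype r').symm
  · exact (eval_map_apply _ r').symm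

theorem ul3P.coeff {p : K[X]} {q : (IsLocalRing.ResidueField O)[X]} (h : ul3P O p q) (i : ℕ) :
    ul3R O (p.coeff i) (q.coeff i) := by
  obtain ⟨r, rfl, rfl⟩ := h
  exact ⟨r.coeff i, by simp, by simp⟩

theorem ul3P.of_mem {p : K[X]} (h : ∀ i, ∃ a, ul3R O (p.coeff i) a) : ∃ q, ul3P O p q := by
  have : p ∈ lifts O.subtype := by
    rw [lifts_iff_coeff_lifts]
    intro n
    obtain ⟨a, r, h1, -⟩ := h n
    exact ⟨r, h1⟩
  obtain ⟨r, hr⟩ := (mem_lifts _).mp this
  exact ⟨_, r, hr, rfl⟩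

theorem ul3P.of_coeff {p : K[X]} {q : (IsLocalRing.ResidueField O)[X]}
    (h : ∀ i, ul3R O (p.coeff i) (q.coeff i)) : ul3P O p q := by
  obtain ⟨q', hq⟩ := ul3P.of_mem fun i => ⟨_, h i⟩
  have : q' = q := Polynomial.ext fun i => (hq.coeff i).unique (h i)
  exact this ▸ hq

theorem ul3P.natDegree_le {p : K[X]} {q : (IsLocalRing.ResidueField O)[X]} (h : ul3P O p q)
    {d : ℕ} (hp : ∀ i, d < i → p.coeff i = 0) : q.natDegree ≤ d := by
  rw [natDegree_le_iff_coeff_eq_zero]
  intro i hi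
  exact (h.coeff i).unique (hp i hi ▸ ul3R.zero)

end res

section der

variable {K : Type*} [Field K] [Algebra ℂ K] (D : Derivation ℂ K K)

theorem ul3_pco_mul (p q : K[X]) : pco D (p * q) = pco D p * q + p * pco D q := by
  ext n
  rw [coeff_pco (map_zero D), coeff_add, coeff_mul, coeff_mul, coeff_mul, map_sum,
    ← Finset.sum_add_distrib]
  refine Finset.sum_congr rfl fun x _ => ?_
  rw [coeff_pco (map_zero D), coeff_pco (map_zero D), D.leibniz, smul_eq_mul, smul_eq_mul]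
  ring

theorem ul3_pco_sub (p q : K[X]) : pco D (p - q) = pco D p - pco D q := by
  ext n
  rw [coeff_sub, coeff_pco (map_zero D), coeff_pco (map_zero D), coeff_pco (map_zero D), coeff_sub,
    map_sub]

theorem ul3_pco_der (p : K[X]) : pco D (derivative p) = derivative (pco D p) := by
  ext n
  have h : D ((n : K) + 1) = 0 := by
    have := D.map_natCast (n + 1)
    rwa [Nat.cast_succ] at this
  rw [coeff_pco (map_zero D), coeff_derivative, coeff_derivative, coeff_pco (map_zero D),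
    D.leibniz, h, smul_zero, zero_add, smul_eq_mul, mul_comm]

theorem ul3_pco_wr (a b : K[X]) : pco D (wr a b) =
    derivative (pco D a) * b + derivative a * pco D b -
      (pco D a * derivative b + a * derivative (pco D b)) := by
  rw [wr, ul3_pco_sub, ul3_pco_mul, ul3_pco_mul, ul3_pco_der, ul3_pco_der]

/-- The derivative of an orbit relation. -/
theorem ul3_rel {a b : K[X]} {x y : K} (h : a.eval x = y * b.eval x) :
    (pco D a).eval x + (derivative a).eval x * D x =
      D y * b.eval x + y * ((pco D b).eval x + (derivative b).eval x * D x) := by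
  have := congrArg D h
  rw [D.leibniz, der_eval, der_eval, smul_eq_mul, smul_eq_mul] at this
  linear_combination this

theorem ul3_step {a b : K[X]} {x y : K} (h : a.eval x = y * b.eval x) (hb : b.eval x ≠ 0) :
    D y = ((pco D a).eval x - y * (pco D b).eval x) / b.eval x +
      (wr a b).eval x / b.eval x ^ 2 * D x := by
  have := ul3_rel D h
  rw [wr, eval_sub, eval_mul, eval_mul, h]
  field_simp
  linear_combination -this

theorem ul3_logder {p q : K} (hp : p ≠ 0) (hq : q ≠ 0) :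
    D (p / q ^ 2) = p / q ^ 2 * (D p / p - 2 * (D q / q)) := by
  have h : p / q ^ 2 * (q * q) = p := by field_simp
  have := congrArg D h
  rw [D.leibniz, D.leibniz] at this
  simp only [smul_eq_mul] at this
  have h2 : D (p / q ^ 2) * (q * q) = D p - p / q ^ 2 * (2 * q * D q) := by
    linear_combination this
  have h3 : D (p / q ^ 2) = (D p - p / q ^ 2 * (2 * q * D q)) / (q * q) := by
    rw [eq_div_iff (mul_ne_zero hq hq), h2]
  rw [h3]
  field_simp

end der

/-- The residue computation along one orbit. -/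
theorem ul3_orbit {K : Type*} [Field K] [Algebra ℂ K] (D : Derivation ℂ K K)
    {O : ValuationSubring K} [CharZero (IsLocalRing.ResidueField O)] {d : ℕ} (hd : 2 ≤ d)
    {a b : K[X]} (ha : ul3P O a (X ^ d)) (hb : ul3P O b 1)
    {pa pb : (IsLocalRing.ResidueField O)[X]} (hpa : ul3P O (pco D a) pa)
    (hpb : ul3P O (pco D b) pb) {ζ : IsLocalRing.ResidueField O} (hζ : ζ ^ (d ^ 3 - 1) = 1)
    {W : Fin 3 → K} (hW : ∀ s, ul3R O (W s) (ζ ^ d ^ s.val))
    (horb : ∀ s, a.eval (W s) = W (s + 1) * b.eval (W s))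
    (hl : D ((wr a b).eval (W 0) / b.eval (W 0) ^ 2 * ((wr a b).eval (W 1) / b.eval (W 1) ^ 2) *
      ((wr a b).eval (W 2) / b.eval (W 2) ^ 2)) = 0) :
    ∃ u : Fin 3 → IsLocalRing.ResidueField O, ul3R O (D (W 0)) (u 0) ∧
      (∀ s : Fin 3, pa.eval (ζ ^ d ^ s.val) + d * (ζ ^ d ^ s.val) ^ (d - 1) * u s =
        u (s + 1) + (ζ ^ d ^ s.val) ^ d * pb.eval (ζ ^ d ^ s.val)) ∧
      ∑ s : Fin 3, (((derivative pa).eval (ζ ^ d ^ s.val) +
          d * (ζ ^ d ^ s.val) ^ (d - 1) * pb.eval (ζ ^ d ^ s.val) -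
          (ζ ^ d ^ s.val) ^ d * (derivative pb).eval (ζ ^ d ^ s.val) +
          d * (d - 1) * (ζ ^ d ^ s.val) ^ (d - 2) * u s) /
        (d * (ζ ^ d ^ s.val) ^ (d - 1)) - 2 * pb.eval (ζ ^ d ^ s.val)) = 0 := by
  have hd3 : 8 ≤ d ^ 3 := by
    calc 8 = 2 ^ 3 := by norm_num
      _ ≤ d ^ 3 := Nat.pow_le_pow_left hd 3
  have hz : ζ ≠ 0 := by
    rintro rfl
    rw [zero_pow (by omega)] at hζ
    exact zero_ne_one hζ
  have hdz : (d : IsLocalRing.ResidueField O) ≠ 0 := Nat.cast_ne_zero.mpr (by omega)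
  have hW1 : ∀ s, ul3R O (W (s + 1)) ((ζ ^ d ^ s.val) ^ d) := by
    intro s
    have h3 : ζ ^ d ^ 3 = ζ := by
      have : d ^ 3 = d ^ 3 - 1 + 1 := by omega
      rw [this, pow_succ, hζ, one_mul]
    rw [← pow_mul, ← pow_succ]
    fin_cases s
    · exact hW 1
    · exact hW 2
    · have := hW 0
      simp only [Fin.val_zero, pow_zero, pow_one] at this
      change ul3R O (W 0) (ζ ^ d ^ 3)
      rwa [h3]
  have hbe : ∀ s, ul3R O (b.eval (W s)) 1 := fun s => by simpa using hb.eval (hW s)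
  have hb0 : ∀ s, b.eval (W s) ≠ 0 := fun s => (hbe s).ne_zero one_ne_zero
  have hwP : ul3P O (wr a b) (C (d : IsLocalRing.ResidueField O) * X ^ (d - 1)) := by
    have := (ha.der.mul hb).sub (ha.mul hb.der)
    rwa [derivative_one, mul_zero, sub_zero, mul_one, derivative_X_pow] at this
  have hwe : ∀ s, ul3R O ((wr a b).eval (W s)) (d * (ζ ^ d ^ s.val) ^ (d - 1)) := fun s => by
    simpa using hwP.eval (hW s)
  have hwz : ∀ s : Fin 3, (d * (ζ ^ d ^ s.val) ^ (d - 1) : IsLocalRing.ResidueField O) ≠ 0 :=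
    fun s => mul_ne_zero hdz (pow_ne_zero _ (pow_ne_zero _ hz))
  have hw0 : ∀ s, (wr a b).eval (W s) ≠ 0 := fun s => (hwe s).ne_zero (hwz s)
  have hmu : ∀ s, ul3R O ((wr a b).eval (W s) / b.eval (W s) ^ 2)
      (d * (ζ ^ d ^ s.val) ^ (d - 1)) := fun s => by
    simpa using (hwe s).div ((hbe s).pow 2) (by simp)
  have hal : ∀ s, ∃ t, ul3R O (((pco D a).eval (W s) - W (s + 1) * (pco D b).eval (W s)) /
      b.eval (W s)) t := fun s =>
    ⟨_, ((hpa.eval (hW s)).sub ((hW1 s).mul (hpb.eval (hW s)))).div (hbe s) one_ne_zero⟩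
  choose t ht using hal
  have hst := fun s => ul3_step D (horb s) (hb0 s)
  set mu := fun s => (wr a b).eval (W s) / b.eval (W s) ^ 2 with hmud
  set al := fun s => ((pco D a).eval (W s) - W (s + 1) * (pco D b).eval (W s)) / b.eval (W s)
    with hald
  have hst' : ∀ s, D (W (s + 1)) = al s + mu s * D (W s) := hst
  have hlam : ul3R O (1 - mu 0 * mu 1 * mu 2) (1 - (d : IsLocalRing.ResidueField O) ^ 3) := by
    have := ul3R.one.sub (((hmu 0).mul (hmu 1)).mul (hmu 2))
    convert this using 2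
    have he : d ^ 3 - 1 = d ^ 0 * (d - 1) + d ^ 1 * (d - 1) + d ^ 2 * (d - 1) := by
      obtain ⟨k, rfl⟩ : ∃ k, d = k + 1 := ⟨d - 1, by omega⟩
      simp only [Nat.add_sub_cancel]
      apply Nat.sub_eq_of_eq_add
      ring
    rw [he, pow_add, pow_add, pow_mul, pow_mul, pow_mul] at hζ
    change (d : IsLocalRing.ResidueField O) ^ 3 = d * (ζ ^ d ^ 0) ^ (d - 1) *
      (d * (ζ ^ d ^ 1) ^ (d - 1)) * (d * (ζ ^ d ^ 2) ^ (d - 1))
    linear_combination (-(d : IsLocalRing.ResidueField O) ^ 3) * hζ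
  have hl3 : (1 - (d : IsLocalRing.ResidueField O) ^ 3) ≠ 0 := by
    have : ((d ^ 3 : ℕ) : IsLocalRing.ResidueField O) ≠ ((1 : ℕ) : IsLocalRing.ResidueField O) :=
      fun h => by
        have := Nat.cast_injective h
        omega
    intro h
    apply this
    push_cast
    linear_combination -h
  have h0 : ∃ t0, ul3R O (D (W 0)) t0 := by
    have e : D (W 0) = (al 2 + mu 2 * (al 1 + mu 1 * al 0)) / (1 - mu 0 * mu 1 * mu 2) := by
      rw [eq_div_iff (hlam.ne_zero hl3)]
      have e0 : D (W 1) = al 0 + mu 0 * D (W 0) := hst' 0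
      have e1 : D (W 2) = al 1 + mu 1 * D (W 1) := hst' 1
      have e2 : D (W 0) = al 2 + mu 2 * D (W 2) := hst' 2
      linear_combination e2 + mu 2 * e1 + mu 2 * mu 1 * e0
    rw [e]
    exact ⟨_, ((ht 2).add ((hmu 2).mul ((ht 1).add ((hmu 1).mul (ht 0))))).div hlam hl3⟩
  have hall : ∀ s, ∃ t0, ul3R O (D (W s)) t0 := by
    obtain ⟨t0, h0⟩ := h0
    have h1 : ul3R O (D (W 1)) _ := (hst' 0).symm ▸ (ht 0).add ((hmu 0).mul h0)
    have h2 : ul3R O (D (W 2)) _ := (hst' 1).symm ▸ (ht 1).add ((hmu 1).mul h1)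
    intro s
    fin_cases s
    · exact ⟨_, h0⟩
    · exact ⟨_, h1⟩
    · exact ⟨_, h2⟩
  choose u hu using hall
  refine ⟨u, hu 0, fun s => ?_, ?_⟩
  · have h1 := (hpa.eval (hW s)).add ((ha.der.eval (hW s)).mul (hu s))
    have h2 := ((hu (s + 1)).mul (hbe s)).add
      ((hW1 s).mul ((hpb.eval (hW s)).add ((hb.der.eval (hW s)).mul (hu s))))
    rw [ul3_rel D (horb s)] at h1
    have := h1.unique h2
    rw [derivative_X_pow, derivative_one] at this
    simpa using this
  · have hD : ∀ s, D (mu s) = mu s * (D ((wr a b).eval (W s)) / (wr a b).eval (W s) -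
        2 * (D (b.eval (W s)) / b.eval (W s))) := fun s => ul3_logder D (hw0 s) (hb0 s)
    have hm0 : ∀ s, mu s ≠ 0 := fun s => (hmu s).ne_zero (hwz s)
    set L := fun s => D ((wr a b).eval (W s)) / (wr a b).eval (W s) -
        2 * (D (b.eval (W s)) / b.eval (W s)) with hL
    have hsum : L 0 + L 1 + L 2 = 0 := by
      have h1 : D (mu 0 * mu 1 * mu 2) = 0 := hl
      rw [D.leibniz, D.leibniz, hD, hD, hD] at h1
      simp only [smul_eq_mul] at h1
      have h2 : mu 0 * mu 1 * mu 2 * (L 0 + L 1 + L 2) = 0 := by linear_combination h1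
      exact (mul_eq_zero.mp h2).resolve_left (mul_ne_zero (mul_ne_zero (hm0 0) (hm0 1)) (hm0 2))
    have hR : ∀ s : Fin 3, ul3R O (L s) (((derivative pa).eval (ζ ^ d ^ s.val) +
          d * (ζ ^ d ^ s.val) ^ (d - 1) * pb.eval (ζ ^ d ^ s.val) -
          (ζ ^ d ^ s.val) ^ d * (derivative pb).eval (ζ ^ d ^ s.val) +
          d * (d - 1) * (ζ ^ d ^ s.val) ^ (d - 2) * u s) /
        (d * (ζ ^ d ^ s.val) ^ (d - 1)) - 2 * pb.eval (ζ ^ d ^ s.val)) := by
      intro s
      have hp : ul3P O (pco D (wr a b)) _ := (ul3_pco_wr D a b).symm ▸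
        ((hpa.der.mul hb).add (ha.der.mul hpb)).sub ((hpa.mul hb.der).add (ha.mul hpb.der))
      have h1 := ((hp.eval (hW s)).add ((hwP.der.eval (hW s)).mul (hu s))).div (hwe s) (hwz s)
      have h2 := ((hpb.eval (hW s)).add ((hb.der.eval (hW s)).mul (hu s))).div (hbe s) one_ne_zero
      have h3 := h1.sub (ul3R.two.mul h2)
      rw [← der_eval, ← der_eval] at h3
      convert h3 using 2
      · congr 1
        have hc : ((d - 1 : ℕ) : IsLocalRing.ResidueField O) = d - 1 := by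
          rw [Nat.cast_sub (by omega), Nat.cast_one]
        rw [derivative_X_pow, derivative_one, derivative_C_mul, derivative_X_pow, hc,
          show d - 1 - 1 = d - 2 by omega]
        simp only [eval_sub, eval_add, eval_mul, eval_C, eval_pow, eval_X, eval_one, eval_zero]
        ring
      · simp
    rw [Fin.sum_univ_three]
    exact (((hR 0).add (hR 1)).add (hR 2)).unique (hsum ▸ ul3R.zero)

/-- Take `O` from `exists_nearPow`, a primitive root `ω : ℂ` of order `N = d ^ 3 - 1`, and for each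
`i` the orbit `NearPow.orbit` over `ω ^ i`.  For the last claim use `alg_of_der`: let `D` kill all
`lam i` and the three `w (e s)`, and suppose some `D (c j) ≠ 0`; rescale `D` so that the largest
valuation of the `D (c j)` is one.  Differentiating the orbit relations (`der_eval`) shows that
`(1 - lam) * D w` is integral, with `1 - lam` a unit, so `D w`, `D w1`, `D w2` are integral.  Pass to
the residue field `κ` of `O` (characteristic zero, through `ℂ → O → κ`): the residues of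
`pco D (aU d c)`, `pco D (bU d c)` and of the `D w` satisfy the hypotheses of `ul_alg` (the
fourth one is the logarithmic derivative of `lam`), so all `D (c j)` have residue zero. -/
theorem ul (d : ℕ) (hd : 2 ≤ d) {K : Type*} [Field K] [Algebra ℂ K] [IsAlgClosed K]
    (c : Fin (2 * d + 1) → K) (hc : AlgebraicIndependent ℂ c) :
    ∃ (N : ℕ) (w w1 w2 lam : Fin N → K) (e : Fin 3 → Fin N),
      (∀ x, x ≠ 0 → app (FU d c) x ≠ 0) ∧ Function.Injective (fun s => w (e s)) ∧
      (∀ i, (bU d c).eval (w i) ≠ 0 ∧ (bU d c).eval (w1 i) ≠ 0 ∧ (bU d c).eval (w2 i) ≠ 0 ∧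
        (aU d c).eval (w i) = w1 i * (bU d c).eval (w i) ∧
        (aU d c).eval (w1 i) = w2 i * (bU d c).eval (w1 i) ∧
        (aU d c).eval (w2 i) = w i * (bU d c).eval (w2 i) ∧
        lam i = (wr (aU d c) (bU d c)).eval (w i) / (bU d c).eval (w i) ^ 2 *
          ((wr (aU d c) (bU d c)).eval (w1 i) / (bU d c).eval (w1 i) ^ 2) *
          ((wr (aU d c) (bU d c)).eval (w2 i) / (bU d c).eval (w2 i) ^ 2) ∧ lam i ≠ 0) ∧
      (∀ i p, p ≠ 0 → Dj d (FU d c) p = 0 → ∀ n : ℕ,
        wedge ((app (FU d c))^[n] p) ![w i, 1] ≠ 0) ∧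
      ∀ j, IsAlgebraic (Algebra.adjoin ℂ (Set.range (Sum.elim lam fun s => w (e s)))) (c j) := by
  classical
  obtain ⟨O, hO⟩ := exists_nearPow c hc
  have hd3 : 8 ≤ d ^ 3 := by
    calc 8 = 2 ^ 3 := by norm_num
      _ ≤ d ^ 3 := Nat.pow_le_pow_left hd 3
  obtain ⟨ω, hω⟩ : ∃ ω : ℂ, IsPrimitiveRoot ω (d ^ 3 - 1) :=
    ⟨_, Complex.isPrimitiveRoot_exp _ (by omega)⟩
  let ι : ℂ →+* IsLocalRing.ResidueField O :=
    (IsLocalRing.residue O).comp ((algebraMap ℂ K).codRestrict O hO.cst)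
  have hι : ∀ z, ul3R O (algebraMap ℂ K z) (ι z) := fun z => ⟨⟨_, hO.cst z⟩, rfl, rfl⟩
  have : CharZero (IsLocalRing.ResidueField O) := charZero_of_injective_ringHom ι.injective
  have hω' : IsPrimitiveRoot (ι ω) (d ^ 3 - 1) := hω.map_of_injective ι.injective
  have hζ : ∀ i : Fin (d ^ 3 - 1), (ω ^ i.val) ^ (d ^ 3 - 1) = 1 := fun i => by
    rw [← pow_mul, mul_comm, pow_mul, hω.pow_eq_one, one_pow]
  have hζ' : ∀ i : Fin (d ^ 3 - 1), (ι ω ^ i.val) ^ (d ^ 3 - 1) = 1 := fun i => by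
    rw [← pow_mul, mul_comm, pow_mul, hω'.pow_eq_one, one_pow]
  have hz : ι ω ≠ 0 := hω'.ne_zero (by omega)
  choose w w1 w2 h0 h1 h2 o0 o1 o2 using fun i => hO.orbit hd (hζ i)
  have hW : ∀ i (s : Fin 3), ul3R O (![w i, w1 i, w2 i] s) ((ι ω ^ i.val) ^ d ^ s.val) := by
    intro i s
    fin_cases s
    · simpa using (hι _).of_sub (h0 i)
    · simpa using (hι _).of_sub (h1 i)
    · simpa using (hι _).of_sub (h2 i)
  have hcR : ∀ j, ul3R O (c j) (if j.val = d then 1 else 0) := fun j => by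
    have := (hι _).of_sub (hO.near j)
    rw [cz] at this
    split_ifs at this ⊢ <;> simpa using this
  have ha : ul3P O (aU d c) (X ^ d) := by
    refine ul3P.of_coeff fun i => ?_
    rw [coeff_aU, coeff_X_pow]
    split_ifs with h h' h'
    · simpa [h'] using hcR ⟨i, by omega⟩
    · simpa [h'] using hcR ⟨i, by omega⟩
    · omega
    · exact ul3R.zero
  have hb : ul3P O (bU d c) 1 := by
    refine ul3P.of_coeff fun i => ?_
    rw [coeff_bU, coeff_one]
    split_ifs with h h'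
    · exact ul3R.one
    · simpa [h] using hcR ⟨d + i, by omega⟩
    · exact ul3R.zero
  have hbe : ∀ i s, (bU d c).eval (![w i, w1 i, w2 i] s) ≠ 0 := fun i s =>
    (hb.eval (hW i s)).ne_zero (by simp)
  have hwe : ∀ i s, (wr (aU d c) (bU d c)).eval (![w i, w1 i, w2 i] s) ≠ 0 := fun i s => by
    refine (((ha.der.mul hb).sub (ha.mul hb.der)).eval (hW i s)).ne_zero ?_
    rw [derivative_one, mul_zero, sub_zero, mul_one, derivative_X_pow, eval_mul, eval_C, eval_pow,
      eval_X]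
    exact mul_ne_zero (Nat.cast_ne_zero.mpr (by omega))
      (pow_ne_zero _ (pow_ne_zero _ (pow_ne_zero _ hz)))
  have hw : ∀ i, ul3R O (w i) (ι ω ^ i.val) := fun i => by simpa using hW i 0
  let e : Fin 3 → Fin (d ^ 3 - 1) := Fin.castLE (by omega)
  have he : Function.Injective e := Fin.castLE_injective _
  refine ⟨d ^ 3 - 1, w, w1, w2, fun i =>
    (wr (aU d c) (bU d c)).eval (w i) / (bU d c).eval (w i) ^ 2 *
      ((wr (aU d c) (bU d c)).eval (w1 i) / (bU d c).eval (w1 i) ^ 2) *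
      ((wr (aU d c) (bU d c)).eval (w2 i) / (bU d c).eval (w2 i) ^ 2), e, hO.nz, ?_,
    fun i => ⟨hbe i 0, hbe i 1, hbe i 2, o0 i, o1 i, o2 i, rfl, ?_⟩,
    fun i p hp hD n => hO.avoid hd ((hw i).val_one (pow_ne_zero _ hz)) hp hD n, fun j => ?_⟩
  · intro s s' hs
    have hs' : w (e s) = w (e s') := hs
    have := (hw (e s)).unique (hs' ▸ hw (e s'))
    exact he (Fin.ext (hω'.pow_inj (e s).2 (e s').2 this))
  · exact mul_ne_zero (mul_ne_zero (div_ne_zero (hwe i 0) (pow_ne_zero _ (hbe i 0)))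
      (div_ne_zero (hwe i 1) (pow_ne_zero _ (hbe i 1))))
      (div_ne_zero (hwe i 2) (pow_ne_zero _ (hbe i 2)))
  refine alg_of_der fun D0 hD0 => ?_
  by_contra hj
  obtain ⟨j0, -, hj0⟩ := Finset.exists_max_image Finset.univ (fun j => O.valuation (D0 (c j)))
    ⟨j, Finset.mem_univ _⟩
  have hne : D0 (c j0) ≠ 0 := by
    intro h
    have := hj0 j (Finset.mem_univ _)
    rw [h, map_zero, le_zero_iff, map_eq_zero] at this
    exact hj this
  let D : Derivation ℂ K K := (D0 (c j0))⁻¹ • D0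
  have hDa : ∀ x, D x = (D0 (c j0))⁻¹ * D0 x := fun x => rfl
  have hDc : ∀ j, ∃ t, ul3R O (D (c j)) t := fun j => by
    refine ul3R.of_le ?_
    have hv : O.valuation (D0 (c j0)) ≠ 0 := (_root_.map_ne_zero _).mpr hne
    rw [hDa, map_mul, map_inv₀, inv_mul_le_iff₀ (zero_lt_iff.mpr hv), mul_one]
    exact hj0 j (Finset.mem_univ _)
  have hD1 : D (c j0) = 1 := by rw [hDa, inv_mul_cancel₀ hne]
  have hca : ∀ i, (pco D (aU d c)).coeff i = if h : i ≤ d then D (c ⟨i, by omega⟩) else 0 :=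
    fun i => by
      rw [coeff_pco (map_zero D), coeff_aU]
      split_ifs <;> simp
  have hcb : ∀ i, (pco D (bU d c)).coeff i =
      if i = 0 then 0 else if h : i ≤ d then D (c ⟨d + i, by omega⟩) else 0 := fun i => by
    rw [coeff_pco (map_zero D), coeff_bU]
    split_ifs <;> simp
  obtain ⟨pa, hpa⟩ : ∃ q, ul3P O (pco D (aU d c)) q := ul3P.of_mem fun i => by
    rw [hca]
    split_ifs
    · exact hDc _
    · exact ⟨_, ul3R.zero⟩
  obtain ⟨pb, hpb⟩ : ∃ q, ul3P O (pco D (bU d c)) q := ul3P.of_mem fun i => by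
    rw [hcb]
    split_ifs
    · exact ⟨_, ul3R.zero⟩
    · exact hDc _
    · exact ⟨_, ul3R.zero⟩
  have horb : ∀ i (s : Fin 3), (aU d c).eval (![w i, w1 i, w2 i] s) =
      ![w i, w1 i, w2 i] (s + 1) * (bU d c).eval (![w i, w1 i, w2 i] s) := by
    intro i s
    fin_cases s
    · exact o0 i
    · exact o1 i
    · exact o2 i
  choose u hu0 hrel hlam using fun i => ul3_orbit D hd ha hb hpa hpb (hζ' i) (hW i) (horb i) (by
    rw [hDa]
    exact mul_eq_zero_of_right _ (hD0 _ ⟨Sum.inl i, rfl⟩))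
  obtain ⟨hpa0, hpb0⟩ := ul_alg hd hω'
    (hpa.natDegree_le fun i hi => by rw [hca, dif_neg (by omega)])
    (hpb.natDegree_le fun i hi => by rw [hcb, if_neg (by omega), dif_neg (by omega)])
    ((hpb.coeff 0).unique (by rw [hcb, if_pos rfl]; exact ul3R.zero)) u hrel hlam e he
    (fun s => (hu0 (e s)).unique (by
      have : D (w (e s)) = 0 := by
        rw [hDa]
        exact mul_eq_zero_of_right _ (hD0 _ ⟨Sum.inr s, rfl⟩)
      change ul3R O (D (w (e s))) 0
      rw [this]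
      exact ul3R.zero))
  rcases le_or_gt j0.val d with h | h
  · have := hpa.coeff j0.val
    rw [hca, dif_pos h, hpa0, coeff_zero, Fin.eta, hD1] at this
    exact one_ne_zero (ul3R.one.unique this)
  · have := hpb.coeff (j0.val - d)
    have hj2 := j0.2
    rw [hcb, if_neg (by omega), dif_pos (by omega), hpb0, coeff_zero] at this
    have e1 : (⟨d + (j0.val - d), by omega⟩ : Fin (2 * d + 1)) = j0 := Fin.ext (by simp; omega)
    rw [e1, hD1] at this
    exact one_ne_zero (ul3R.one.unique this)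

end Pool.Agent.Lib.MP_0dd0d9_ag
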