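import Pool.Agent.Lib.MP_0dd0d9_ag.CoreA
import Pool.Agent.Lib.MP_0dd0d9_ag.Glob
import Pool.Agent.Lib.MP_0dd0d9_ag.HT
import Pool.Agent.Lib.MP_0dd0d9_ag.UL3

/-!
The algebraic data attached to the universal map, and the final arithmetic.
-/

namespace Pool.Agent.Lib.MP_0dd0d9_ag

open Polynomial

theorem wr_C_mul {K : Type*} [Field K] (r : K) (a b : K[X]) :
    wr (C r * a) (C r * b) = C (r ^ 2) * wr a b := by
  simp only [wr, derivative_mul, derivative_C, zero_mul, zero_add, map_pow]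
  ring

theorem core_setup (d : ℕ) (hd : 2 ≤ d) {K : Type} [Field K] [Algebra ℂ K] [IsAlgClosed K]
    (c : Fin (2 * d + 1) → K) (hc : AlgebraicIndependent ℂ c) :
    ∃ (N : ℕ) (w : Fin 3 → K) (r : K) (cr : Fin (2 * d - 2) → V K) (u u' : Fin N → V K)
      (lam : Fin N → K) (DD : ℕ) (q : Fin (2 * d + 1) → K),
      Function.Injective w ∧ (∀ s, wedge ((app (FU d c))^[3] ![w s, 1]) ![w s, 1] = 0) ∧ r ≠ 0 ∧
      (∀ x, x ≠ 0 → app (FU d c) x ≠ 0) ∧ Normal d (smulF r (FU d c)) ∧ (∀ a, cr a ≠ 0) ∧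
      (∀ x, Dj d (smulF r (FU d c)) x = ∏ a, wedge x (cr a)) ∧
      (∀ i, (app (smulF r (FU d c)))^[3] (u i) = u i ∧
        wedge ((app (smulF r (FU d c)))^[3] (u' i)) (u' i) = 0 ∧ wedge (u i) (u' i) ≠ 0 ∧
        lam i = Dj d (smulF r (FU d c)) (u i) *
          Dj d (smulF r (FU d c)) (app (smulF r (FU d c)) (u i)) *
          Dj d (smulF r (FU d c)) (app (smulF r (FU d c)) (app (smulF r (FU d c)) (u i))) ∧
        lam i ≠ 0 ∧ ∀ a e, wedge ((app (smulF r (FU d c)))^[e] (cr a)) (u i) ≠ 0) ∧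
      (∀ j, q j ≠ 0) ∧ ∀ av : AbsoluteValue K ℝ, IsNonarchimedean av →
        (∀ a : ℂ, av (algebraMap ℂ K a) ≤ 1) → (∀ s, av (w s) ≤ 1) → ∀ j,
        Real.posLog (av (c j)) ≤ DD * ∑ i, Real.posLog (av (lam i)) - Real.log (av (q j)) := by
  classical
  have : CharZero K := charZero_of_injective_algebraMap (algebraMap ℂ K).injective
  have hd0 : (d : K) ≠ 0 := Nat.cast_ne_zero.2 (by omega)
  obtain ⟨N, w, w1, w2, lam, e, hnz, hinj, hcyc, havoid, halg⟩ := ul d hd c hc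
  have hFU : IsHom d (FU d c) := isHom_mk d _ _
  obtain ⟨r, hr, hnorm⟩ := exists_normal hFU (by omega) hnz
  have hF : IsHom d (smulF r (FU d c)) := isHom_smulF hFU r
  have hFe : smulF r (FU d c) = mk d (C r * aU d c) (C r * bU d c) := smulF_mk r d _ _
  have ha : (C r * aU d c).natDegree ≤ d := (natDegree_C_mul_le _ _).trans (natDegree_aU_le d c)
  have hb : (C r * bU d c).natDegree ≤ d := (natDegree_C_mul_le _ _).trans (natDegree_bU_le d c)
  -- canonical lifts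
  have hlift : ∀ i, ∃ s : K, s ≠ 0 ∧ (app (smulF r (FU d c)))^[3] (s • ![w i, 1]) = s • ![w i, 1] ∧
      lam i = Dj d (smulF r (FU d c)) (s • ![w i, 1]) *
        Dj d (smulF r (FU d c)) (app (smulF r (FU d c)) (s • ![w i, 1])) *
        Dj d (smulF r (FU d c)) (app (smulF r (FU d c)) (app (smulF r (FU d c)) (s • ![w i, 1]))) := by
    intro i
    obtain ⟨b0, b1, b2, h0, h1, h2, hl, -⟩ := hcyc i
    obtain ⟨s, hs, hfix, hmul⟩ := core_lift hd hd0 ha hb (w := w i) (w1 := w1 i) (w2 := w2 i)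
      (by simp [hr, b0]) (by simp [hr, b1]) (by simp [hr, b2])
      (by simp only [eval_mul, eval_C, h0]; ring) (by simp only [eval_mul, eval_C, h1]; ring)
      (by simp only [eval_mul, eval_C, h2]; ring)
    refine ⟨s, hs, hFe ▸ hfix, ?_⟩
    rw [hFe, ← hmul, hl, wr_C_mul]
    simp only [eval_mul, eval_C]
    field_simp
  choose s hs hfix hlam using hlift
  have hper : ∀ i, wedge ((app (FU d c))^[3] ![w i, 1]) ![w i, 1] = 0 := fun i => by
    obtain ⟨t, ht, h⟩ := iter_smulF hFU hr 3 (s i • ![w i, 1])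
    have h1 : wedge ((app (smulF r (FU d c)))^[3] (s i • ![w i, 1])) ![w i, 1] = 0 := by
      rw [hfix, wedge_smul_left, wedge_self, mul_zero]
    rw [h, iter_smul hFU, wedge_smul_left, wedge_smul_left] at h1
    simpa [ht, hs i] using h1
  have hper' : ∀ i, wedge ((app (smulF r (FU d c)))^[3] ![w i, 1]) ![w i, 1] = 0 := fun i => by
    obtain ⟨t, -, h⟩ := iter_smulF hFU hr 3 ![w i, 1]
    rw [h, wedge_smul_left, hper, mul_zero]
  -- a second periodic point
  have hsec : ∀ i, ∃ t : Fin 3, w (e t) ≠ w i := fun i => by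
    by_contra h
    push Not at h
    exact absurd (hinj ((h 0).trans (h 1).symm)) (by decide)
  choose t htt using hsec
  -- critical points
  have hj0 : MvPolynomial.C (d : K)⁻¹ * jac (smulF r (FU d c)) ≠ 0 := fun h0 => by
    have h1 : Dj d (smulF r (FU d c)) (s (e 0) • ![w (e 0), 1]) = 0 := by
      have := congrArg (MvPolynomial.eval (s (e 0) • ![w (e 0), 1])) h0
      rw [map_mul, MvPolynomial.eval_C, map_zero] at this
      rw [Dj, div_eq_mul_inv, mul_comm, this]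
    have h2 := hlam (e 0)
    rw [h1, zero_mul, zero_mul] at h2
    exact (hcyc (e 0)).2.2.2.2.2.2.2 h2
  obtain ⟨cr, hcr0, hcr⟩ := exists_factor ((jac_hom hF).C_mul (d : K)⁻¹) (by omega) hj0
  have hcr' : ∀ x, Dj d (smulF r (FU d c)) x = ∏ a, wedge x (cr a) := fun x => by
    rw [← hcr, map_mul, MvPolynomial.eval_C, Dj, div_eq_mul_inv, mul_comm]
  choose D q hq hD using fun j => ht (Sum.elim lam fun s => w (e s)) (halg j)
  refine ⟨N, fun s => w (e s), r, cr, fun i => s i • ![w i, 1], fun i => ![w (e (t i)), 1], lam,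
    ∑ j, D j, q, hinj, fun s => hper _, hr, hnz, hnorm, hcr0, hcr', fun i => ⟨hfix i, hper' _, ?_,
    hlam i, (hcyc i).2.2.2.2.2.2.2, fun a e' => ?_⟩, hq, fun av hna hcst hw j => ?_⟩
  · rw [wedge_smul_left]
    refine mul_ne_zero (hs i) ?_
    simpa [wedge, sub_eq_zero] using (htt i).symm
  · obtain ⟨t', ht', h⟩ := iter_smulF hFU hr e' (cr a)
    rw [h, wedge_smul_left, wedge_smul_right]
    refine mul_ne_zero ht' (mul_ne_zero (hs i) (havoid i _ (hcr0 a) ?_ e'))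
    have h1 : Dj d (smulF r (FU d c)) (cr a) = 0 := by
      rw [hcr']
      exact Finset.prod_eq_zero (Finset.mem_univ a) (wedge_self _)
    rw [Dj_smulF] at h1
    exact (mul_eq_zero.1 h1).resolve_left (pow_ne_zero _ hr)
  · refine (hD j av hna hcst).trans ?_
    rw [Fintype.sum_sum_type]
    simp only [Sum.elim_inl, Sum.elim_inr]
    have h0 : ∑ s, Real.posLog (av (w (e s))) = 0 := Finset.sum_eq_zero fun s _ =>
      (Real.posLog_eq_zero_iff _).2 (by rw [abs_of_nonneg (av.nonneg _)]; exact hw s)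
    rw [h0, add_zero]
    refine sub_le_sub_right (mul_le_mul_of_nonneg_right (Nat.cast_le.2 ?_)
      (Finset.sum_nonneg fun _ _ => Real.posLog_nonneg)) _
    exact Finset.single_le_sum (f := D) (fun _ _ => Nat.zero_le _) (Finset.mem_univ j)

theorem core_arith {d N A j G L Lam Hc Ht RR Hx C1 Cb n k : ℝ} (hd : 0 ≤ d) (hN : 0 ≤ N)
    (hA : 0 ≤ A) (hG : 0 ≤ G) (hj : j = 12 * d * N * A + 1) (hC1 : 0 ≤ C1) (hCb : 0 ≤ Cb)
    (hHc : 0 < Hc) (h1 : Hc ≤ Ht) (h2 : Ht ≤ A * Lam) (h3 : j * Lam - N * (12 * d * Ht) ≤ N * (G * L))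
    (h4 : RR ≤ Cb * (Hc + Hx)) (h5 : Hx ≤ Ht)
    (h6 : 0 ≤ -(n * L) + C1 * (n * Ht / k) + (2 * d + 1) * (2 * Ht + RR + Hc))
    (hk : 2 * (C1 * (A * N * G)) < k) (hn : 2 * ((2 * d + 1) * (3 + 2 * Cb) * (A * N * G)) < n) :
    False := by
  have hQ : 0 ≤ A * N * G := by positivity
  have hk0 : 0 < k := lt_of_le_of_lt (by positivity) hk
  have hn0 : 0 < n := lt_of_le_of_lt (by positivity) hn
  have hHt : 0 < Ht := hHc.trans_le h1
  have a1 : Lam ≤ N * (G * L) := by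
    have : N * (12 * d * Ht) ≤ N * (12 * d * (A * Lam)) := by gcongr
    rw [hj] at h3
    nlinarith
  have a2 : Ht ≤ A * N * G * L := by
    calc Ht ≤ A * Lam := h2
      _ ≤ A * (N * (G * L)) := by gcongr
      _ = _ := by ring
  obtain ⟨Q, hQe⟩ : ∃ Q, Q = A * N * G := ⟨_, rfl⟩
  rw [← hQe] at a2 hk hn hQ
  have hL : 0 < L := by
    by_contra h
    have : Q * L ≤ 0 := mul_nonpos_of_nonneg_of_nonpos hQ (not_lt.1 h)
    linarith
  have a3 : 2 * Ht + RR + Hc ≤ (3 + 2 * Cb) * (Q * L) := by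
    have : Cb * (Hc + Hx) ≤ Cb * (Ht + Ht) := by gcongr
    have b : (3 + 2 * Cb) * Ht ≤ (3 + 2 * Cb) * (Q * L) := by gcongr
    linarith
  have a4 : C1 * (n * Ht / k) ≤ n * L / 2 := by
    have b1 : C1 * (n * Ht / k) ≤ C1 * (n * (Q * L) / k) := by gcongr
    have b2 : C1 * (n * (Q * L) / k) = (n * L) * (C1 * Q / k) := by ring
    have b3 : C1 * Q / k ≤ 1 / 2 := by rw [div_le_iff₀ hk0]; linarith
    have b4 : (n * L) * (C1 * Q / k) ≤ (n * L) * (1 / 2) := by gcongr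
    linarith
  have a5 : (2 * d + 1) * (2 * Ht + RR + Hc) ≤ (2 * d + 1) * ((3 + 2 * Cb) * (Q * L)) := by gcongr
  have a6 : 2 * ((2 * d + 1) * (3 + 2 * Cb) * Q) * L < n * L := by gcongr
  nlinarith

end Pool.Agent.Lib.MP_0dd0d9_ag
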