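import Pool.Agent.Lib.MP_0dd0d9_ag.Stmt

/-!
Working definitions (not part of the statement).
-/

namespace Pool.Agent.Lib.MP_0dd0d9_ag

open Polynomial

noncomputable section

/-- Plane vectors. -/
abbrev V (R : Type*) := Fin 2 → R

/-- Pairs of binary forms. -/
abbrev Mp (R : Type*) [CommSemiring R] := Fin 2 → MvPolynomial (Fin 2) R

section alg

variable {R : Type*} [CommRing R]

/-- Both forms are homogeneous of degree `d`. -/
def IsHom (d : ℕ) (F : Mp R) : Prop := ∀ i, (F i).IsHomogeneous d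

/-- Composition. -/
def cmp (F G : Mp R) : Mp R := fun i => MvPolynomial.bind₁ G (F i)

/-- A matrix as a pair of linear forms. -/
def lin (g : Matrix (Fin 2) (Fin 2) R) : Mp R :=
  fun i => MvPolynomial.C (g i 0) * MvPolynomial.X 0 + MvPolynomial.C (g i 1) * MvPolynomial.X 1

/-- Iterated composition. -/
def itc (F : Mp R) : ℕ → Mp R
  | 0 => fun i => MvPolynomial.X i
  | n + 1 => cmp F (itc F n)

/-- Scalar multiple. -/
def smulF (r : R) (F : Mp R) : Mp R := fun i => MvPolynomial.C r * F i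

/-- Change of coefficients. -/
def mapF {S : Type*} [CommRing S] (f : R →+* S) (F : Mp R) : Mp S :=
  fun i => MvPolynomial.map f (F i)

/-- Jacobian determinant. -/
def jac (F : Mp R) : MvPolynomial (Fin 2) R :=
  MvPolynomial.pderiv 0 (F 0) * MvPolynomial.pderiv 1 (F 1) -
    MvPolynomial.pderiv 1 (F 0) * MvPolynomial.pderiv 0 (F 1)

/-- Dehomogenisation `A(x, 1)`. -/
def deh (A : MvPolynomial (Fin 2) R) : R[X] := MvPolynomial.aeval ![X, 1] A

/-- Wronskian `a' b - a b'`. -/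
def wr (a b : R[X]) : R[X] := derivative a * b - a * derivative b

/-- Apply a map to all coefficients of a polynomial. -/
def pco (D : R → R) (a : R[X]) : R[X] := ∑ i ∈ a.support, monomial i (D (a.coeff i))

/-- The fixed point polynomial `A(x,1) - x B(x,1)`. -/
def fixp (F : Mp R) : R[X] := deh (F 0) - X * deh (F 1)

/-- `y` and `k` describe the fibre of `F` over `z`. -/
def IsFib {e : ℕ} (F : Mp R) (z : V R) (y : Fin e → V R) (k : Fin e → R) : Prop :=
  (∀ x, wedge (app F x) z = ∏ i, wedge x (y i)) ∧ ∀ i, app F (y i) = k i • z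

/-- Resultant normalisation (the resultant is `1` or `-1`). -/
def Normal (d : ℕ) (F : Mp R) : Prop :=
  ∀ (z : V R) (y : Fin d → V R) (k : Fin d → R), z ≠ 0 → IsFib F z y k → (∏ i, k i) ^ 2 = 1

/-- Universal numerator. -/
def aU (d : ℕ) (c : Fin (2 * d + 1) → R) : R[X] :=
  ∑ i : Fin (d + 1), monomial i.val (c ⟨i.val, by omega⟩)

/-- Universal denominator, normalised by `b(0) = 1`. -/
def bU (d : ℕ) (c : Fin (2 * d + 1) → R) : R[X] :=
  1 + ∑ i : Fin d, monomial (i.val + 1) (c ⟨d + 1 + i.val, by omega⟩)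

/-- The universal map. -/
def FU (d : ℕ) (c : Fin (2 * d + 1) → R) : Mp R := mk d (aU d c) (bU d c)

/-- The matrix of the linearised cycle relation. -/
def bmat {n : ℕ} [NeZero n] (Dv : ZMod n → R) : Matrix (ZMod n) (ZMod n) R :=
  fun r i => (if r = i then 1 else 0) - (if r = i + 1 then Dv i else 0)

end alg

section field

variable {K : Type*} [Field K]

/-- Homogeneous derivative: the Jacobian divided by the degree. -/
def Dj (d : ℕ) (F : Mp K) (x : V K) : K := MvPolynomial.eval x (jac F) / d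

variable {ι : Type*} [Fintype ι] [DecidableEq ι]

/-- The quadratic differential with simple poles. -/
def qf (P α : ι → K) (x : K) : K := ∑ i, α i / (x - P i)

/-- Its numerator. -/
def nq (P α : ι → K) : K[X] := ∑ i, C (α i) * ∏ l ∈ Finset.univ.erase i, (X - C (P l))

/-- Its denominator. -/
def pp (P : ι → K) : K[X] := ∏ i, (X - C (P i))

/-- Defect of the covector along the cycle. -/
def bet (A B : K[X]) (nxt : ι ≃ ι) (P α : ι → K) (i : ι) : K :=
  α i - α (nxt i) * (wr A B).eval (P i) / (B.eval (P i)) ^ 2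

/-- Pairing of the covector with the monomial deformations. -/
def fm (B : K[X]) (nxt : ι ≃ ι) (P α : ι → K) (μ : ℕ) : K :=
  ∑ i, α (nxt i) * P i ^ μ / (B.eval (P i)) ^ 2

/-- A cycle of exact period `n` with canonical lifts, and a second preimage of each point whose
predecessor is not critical. -/
structure Cyc (d : ℕ) (F : Mp K) {n : ℕ} (p z : ZMod n → V K) : Prop where
  nxt : ∀ i, app F (p i) = p (i + 1)
  dist : ∀ i j, i ≠ j → wedge (p i) (p j) ≠ 0
  zpre : ∀ j, Dj d F (p (j - 1)) ≠ 0 → app F (z j) = p j ∧ wedge (z j) (p (j - 1)) ≠ 0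

end field

/-- Mass of the push forward of the absolute value of the quadratic differential. -/
def push {ι : Type*} [Fintype ι] (A B : ℂ[X]) (P α : ι → ℂ) (w : ℂ) : ℝ :=
  ∑ x ∈ (A - C w * B).roots.toFinset,
    ‖qf P α x‖ * ‖B.eval x‖ ^ 4 / ‖(wr A B).eval x‖ ^ 2

/-- The residue field of `av` is the field of complex numbers. -/
structure ResC (K : Type*) [Field K] (av : K → ℝ) where
  cst : ℂ →+* K
  norm_cst : ∀ z, z ≠ 0 → av (cst z) = 1
  res : ∀ x, av x ≤ 1 → ∃ z, av (x - cst z) < 1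

/-- An embedding into an ultrapower of the complex numbers that induces `av`. -/
structure Transfer (K : Type*) [Field K] (av : K → ℝ) extends ResC K av where
  U : Ultrafilter ℕ
  s : K → ℕ → ℂ
  s_add : ∀ x y, ∀ᶠ N in (U : Filter ℕ), s (x + y) N = s x N + s y N
  s_mul : ∀ x y, ∀ᶠ N in (U : Filter ℕ), s (x * y) N = s x N * s y N
  s_cst : ∀ z, ∀ᶠ N in (U : Filter ℕ), s (cst z) N = z
  s_le : ∀ x y, av x ≤ av y → ∃ M : ℝ, ∀ᶠ N in (U : Filter ℕ), ‖s x N‖ ≤ M * ‖s y N‖
  s_lt : ∀ x y, av x < av y → ∀ e : ℝ, 0 < e → ∀ᶠ N in (U : Filter ℕ), ‖s x N‖ ≤ e * ‖s y N‖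

section normed

variable {K : Type*} [NormedField K]

/-- Residue characteristic zero. -/
def Res0 (K : Type*) [NormedField K] : Prop := ∀ n : ℕ, n ≠ 0 → ‖(n : K)‖ = 1

/-- Chordal distance. -/
def del (x y : V K) : ℝ := ‖wedge x y‖ / (‖x‖ * ‖y‖)

/-- Truncated logarithmic kernel. -/
def KT (T : ℝ) (x y : V K) : ℝ := -Real.log (max (del x y) (Real.exp (-T)))

/-- A normalised map with two sided bounds. -/
structure Good (d : ℕ) (F : Mp K) (h : ℝ) : Prop where
  hom : IsHom d F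
  up : ∀ x, ‖app F x‖ ≤ Real.exp h * ‖x‖ ^ d
  low : ∀ x, Real.exp (-h) * ‖x‖ ^ d ≤ ‖app F x‖
  nrm : Normal d F

/-- Escape rate. -/
structure IsEsc (d : ℕ) (F : Mp K) (h : ℝ) (H : V K → ℝ) : Prop where
  step : ∀ x, x ≠ 0 → H (app F x) = d * H x
  smul : ∀ (s : K) (x : V K), s ≠ 0 → x ≠ 0 → H (s • x) = Real.log ‖s‖ + H x
  bd : ∀ x, x ≠ 0 → |H x - Real.log ‖x‖| ≤ h
  hol : ∀ (k : ℕ) (x y : V K), x ≠ 0 → y ≠ 0 → del x y < Real.exp (-(2 * h * k)) →
    |(H x - Real.log ‖x‖) - (H y - Real.log ‖y‖)| ≤ 2 * h / (d : ℝ) ^ k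

/-- Truncated Green kernel. -/
def gT (H : V K → ℝ) (T : ℝ) (x y : V K) : ℝ :=
  KT T x y + (H x - Real.log ‖x‖) + (H y - Real.log ‖y‖)

/-- Pair energy of a family. -/
def sraw {ι : Type*} [DecidableEq ι] (s : Finset ι) (x : ι → V K) : ℝ :=
  ∑ i ∈ s, ∑ j ∈ s.erase i, -Real.log ‖wedge (x i) (x j)‖

/-- Excess depth of a family beyond level `T`. -/
def exc {ι : Type*} [DecidableEq ι] (T : ℝ) (s : Finset ι) (x : ι → V K) : ℝ :=
  ∑ i ∈ s, ∑ j ∈ s.erase i, max 0 (-Real.log (del (x i) (x j)) - T)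

/-- Truncated energy of the difference of two families. -/
def ediff {N : ℕ} (T : ℝ) (x y : Fin N → V K) : ℝ :=
  (∑ i, ∑ j, KT T (x i) (x j)) + (∑ i, ∑ j, KT T (y i) (y j)) - 2 * ∑ i, ∑ j, KT T (x i) (y j)

/-- The blocks of consecutive indices. -/
def idx (n k l : ℕ) (u : Fin (n / k)) : ZMod n := ((l * (n / k) + u.val : ℕ) : ZMod n)

open Classical in
/-- Total pair energy of the cycle, of its blocks and of the blocks of second preimages. -/
def stot (d : ℕ) (F : Mp K) {n : ℕ} [NeZero n] (k : ℕ) (p z : ZMod n → V K) : ℝ :=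
  sraw Finset.univ p + ∑ l ∈ Finset.range k,
    (sraw Finset.univ (fun u => p (idx n k l u)) +
      sraw (Finset.univ.filter fun u => Dj d F (p (idx n k l u - 1)) ≠ 0)
        (fun u => z (idx n k l u)))

/-- The nonnegative version of the total energy. -/
def sbig (d : ℕ) (F : Mp K) (h : ℝ) {n : ℕ} [NeZero n] (k : ℕ) (p z : ZMod n → V K) : ℝ :=
  stot d F k p z + 3 * n * ((2 * k + 15) * h)

/-- Gauss norm on the disc of centre `a` and radius `r`. -/
def gn (p : K[X]) (a : K) (r : ℝ) : ℝ :=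
  ‖p.leadingCoeff‖ * (p.roots.map fun y => max r ‖y - a‖).prod

/-- `x` is at distance at least `r` from all roots of `p`. -/
def Gen (p : K[X]) (x : K) (r : ℝ) : Prop := ∀ y, p.IsRoot y → r ≤ ‖x - y‖

open Classical in
/-- Number of roots in the closed disc. -/
def cnt (p : K[X]) (a : K) (r : ℝ) : ℕ := (p.roots.filter fun y => ‖y - a‖ ≤ r).card

open Classical in
/-- Number of roots in the open disc. -/
def cnto (p : K[X]) (a : K) (r : ℝ) : ℕ := (p.roots.filter fun y => ‖y - a‖ < r).card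

/-- The quotient `U / W` is `1` to first order at all generic points of the disc. -/
def GoodAt (U W : K[X]) (a : K) (r : ℝ) : Prop :=
  ∀ x, ‖x - a‖ ≤ r → Gen (U * W) x r → ‖U.eval x - W.eval x‖ < ‖W.eval x‖

/-- The residue of `U / W` has complex modulus at most one at generic points. -/
def BddAt (Rc : ResC K (fun x => ‖x‖)) (U W : K[X]) (a : K) (r : ℝ) : Prop :=
  ∀ x, ‖x - a‖ ≤ r → Gen (U * W) x r → ‖U.eval x‖ = ‖W.eval x‖ →
    ∀ θ : ℂ, ‖U.eval x - Rc.cst θ * W.eval x‖ < ‖W.eval x‖ → ‖θ‖ ≤ 1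

/-- The map in a chart where infinity is in general position. -/
structure Chart (d : ℕ) (h : ℝ) (A B : K[X]) (lw : K) (c : Fin (2 * d - 2) → K) {ι : Type*}
    (nxt : ι ≃ ι) (P : ι → K) : Prop where
  degA : A.natDegree ≤ d
  degB : B.natDegree ≤ d
  coA : ∀ i, ‖A.coeff i‖ ≤ Real.exp h
  coB : ∀ i, ‖B.coeff i‖ ≤ Real.exp h
  low : ∀ x : K, ‖x‖ ≤ 1 → Real.exp (-h) ≤ max ‖A.eval x‖ ‖B.eval x‖
  lowInf : Real.exp (-h) ≤ max ‖A.coeff d‖ ‖B.coeff d‖
  wfac : wr A B = C lw * ∏ i, (X - C (c i))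
  lwlow : Real.exp (-(2 * h)) ≤ ‖lw‖
  cle : ∀ i, ‖c i‖ ≤ 1
  cval : ∀ i, ‖A.eval (c i)‖ ≤ ‖B.eval (c i)‖
  Ple : ∀ i, ‖P i‖ ≤ 1
  orb : ∀ i, A.eval (P i) = P (nxt i) * B.eval (P i)
  glead : ∀ j, Real.exp (-h) ≤ ‖A.coeff d - P j * B.coeff d‖

end normed

end

end Pool.Agent.Lib.MP_0dd0d9_ag
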