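import Pool.Agent.Lib.MP_0dd0d9_ag.HB

/-!
TASK g0d En1.  The truncated kernel is positive semidefinite; choice of good levels.

For `σ > 0` the relation `del x y ≤ exp (-σ)` is an equivalence relation on nonzero vectors
(`del_ultra`), so `e σ = ∑ i, ∑ j, if del (x i) (x j) ≤ exp (-σ) then w i * w j else 0` is a sum
of squares of masses of classes; in particular `0 ≤ e σ`, and `e σ` dominates the square of the
mass of the class of any `u ≠ 0`.  For `T = M * δ` one has
`|KT T x y - δ * #{l ∈ [1, M] | del x y ≤ exp (-(l * δ))}| ≤ δ`, hence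
`δ * ∑ l, e (l * δ) - δ * (∑ |w i|) ^ 2 ≤ ∑ i, ∑ j, w i * w j * KT T (x i) (x j)`.
-/

namespace Pool.Agent.Lib.MP_0dd0d9_ag

open Polynomial

variable {K : Type*} [NormedField K] [IsUltrametricDist K]

theorem KT_comm (T : ℝ) (x y : V K) : KT T x y = KT T y x := by
  unfold KT
  rw [del_comm]

theorem en1_iff {σ T : ℝ} (h : σ ≤ T) (x y : V K) :
    σ ≤ KT T x y ↔ del x y ≤ Real.exp (-σ) := by
  unfold KT
  rw [le_neg, Real.log_le_iff_le_exp (lt_max_of_lt_right (Real.exp_pos _)), max_le_iff,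
    Real.exp_le_exp, neg_le_neg_iff, and_iff_left h]

theorem KT_nonneg {T : ℝ} (hT : 0 ≤ T) (x y : V K) : 0 ≤ KT T x y := by
  rw [en1_iff hT, neg_zero, Real.exp_zero]
  exact del_le_one x y

theorem KT_le (T : ℝ) (x y : V K) : KT T x y ≤ T := by
  unfold KT
  rw [neg_le, Real.le_log_iff_exp_le (lt_max_of_lt_right (Real.exp_pos _))]
  exact le_max_right _ _

theorem KT_self (T : ℝ) (x : V K) : KT T x x = T := by
  unfold KT
  rw [del_self, max_eq_right (Real.exp_pos _).le, Real.log_exp, neg_neg]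

theorem KT_eq {x y : V K} (T : ℝ) (h : wedge x y ≠ 0) :
    KT T x y = -Real.log (del x y) - max 0 (-Real.log (del x y) - T) := by
  unfold KT
  have h0 := del_pos h
  rcases le_total (del x y) (Real.exp (-T)) with h1 | h1
  · have := (Real.log_le_iff_le_exp h0).2 h1
    rw [max_eq_right h1, Real.log_exp, max_eq_right (by linarith)]
    ring
  · have := (Real.le_log_iff_exp_le h0).2 h1
    rw [max_eq_left h1, max_eq_left (by linarith)]
    ring

theorem en1_fib {ι β : Type*} [Fintype ι] [Fintype β] [DecidableEq β] (c : ι → β) (w : ι → ℝ) :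
    ∑ i, ∑ j, (if c i = c j then w i * w j else 0) =
      ∑ b, (∑ i ∈ Finset.univ.filter fun i => c i = b, w i) ^ 2 := by
  rw [← Finset.sum_fiberwise Finset.univ c]
  refine Finset.sum_congr rfl fun b _ => ?_
  rw [sq, Finset.sum_mul]
  refine Finset.sum_congr rfl fun i hi => ?_
  rw [(Finset.mem_filter.1 hi).2, Finset.mul_sum, Finset.sum_filter]
  exact Finset.sum_congr rfl fun j _ => if_congr eq_comm rfl rfl

open Classical in
theorem en1_cls {ι : Type*} [Fintype ι] (x : ι → V K) (hx : ∀ i, x i ≠ 0) {r : ℝ} (hr : 0 ≤ r)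
    (i : ι) {u : V K} (hu : u ≠ 0) :
    (Finset.univ.filter fun j => del (x i) (x j) ≤ r) =
      (Finset.univ.filter fun j => del u (x j) ≤ r) ↔ del (x i) u ≤ r := by
  constructor
  · intro h
    have : i ∈ Finset.univ.filter fun j => del (x i) (x j) ≤ r := by
      rw [Finset.mem_filter, del_self]
      exact ⟨Finset.mem_univ _, hr⟩
    rw [h, Finset.mem_filter, del_comm] at this
    exact this.2
  · intro h
    refine Finset.filter_congr fun j _ => ⟨fun h1 => ?_, fun h1 => ?_⟩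
    · exact (del_ultra u (hx i) _).trans (max_le (by rwa [del_comm]) h1)
    · exact (del_ultra _ hu _).trans (max_le h h1)

open Classical in
theorem en1_sq {ι : Type*} [Fintype ι] (x : ι → V K) (hx : ∀ i, x i ≠ 0) (w : ι → ℝ) {r : ℝ}
    (hr : 0 ≤ r) {u : V K} (hu : u ≠ 0) :
    (∑ i ∈ Finset.univ.filter fun i => del (x i) u ≤ r, w i) ^ 2 ≤
      ∑ i, ∑ j, if del (x i) (x j) ≤ r then w i * w j else 0 := by
  have h := en1_fib (fun i => Finset.univ.filter fun j => del (x i) (x j) ≤ r) w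
  simp only [en1_cls x hx hr _ (hx _)] at h
  rw [h]
  refine le_trans (le_of_eq ?_) (Finset.single_le_sum (fun _ _ => sq_nonneg _)
    (Finset.mem_univ (Finset.univ.filter fun j => del u (x j) ≤ r)))
  simp only [en1_cls x hx hr _ hu]

/-- The level function. -/
noncomputable def en1E {ι : Type*} [Fintype ι] (x : ι → V K) (w : ι → ℝ) (T σ : ℝ) : ℝ :=
  ∑ i, ∑ j, (Set.Iic (KT T (x i) (x j))).indicator (fun _ => w i * w j) σ

open Classical in
theorem en1_sq_le {ι : Type*} [Fintype ι] (x : ι → V K) (hx : ∀ i, x i ≠ 0) (w : ι → ℝ) {T σ : ℝ}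
    (h : σ ≤ T) {u : V K} (hu : u ≠ 0) :
    (∑ i ∈ Finset.univ.filter fun i => del (x i) u ≤ Real.exp (-σ), w i) ^ 2 ≤ en1E x w T σ := by
  refine (en1_sq x hx w (Real.exp_pos _).le hu).trans_eq ?_
  refine Finset.sum_congr rfl fun i _ => Finset.sum_congr rfl fun j _ => ?_
  rw [Set.indicator_apply]
  exact if_congr (en1_iff h _ _).symm rfl rfl

theorem en1_nonneg {ι : Type*} [Fintype ι] (x : ι → V K) (hx : ∀ i, x i ≠ 0) (w : ι → ℝ)
    {T σ : ℝ} (h : σ ≤ T) : 0 ≤ en1E x w T σ :=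
  (sq_nonneg _).trans (en1_sq_le x hx w h (u := fun _ => 1) fun h => one_ne_zero (congrFun h 0))

open MeasureTheory in
theorem en1_int_ind (k a T : ℝ) :
    Integrable ((Set.Iic k).indicator fun _ : ℝ => a) (volume.restrict (Set.Ioc 0 T)) :=
  (integrable_const a).indicator measurableSet_Iic

omit [IsUltrametricDist K] in
open MeasureTheory in
theorem en1_integrable {ι : Type*} [Fintype ι] (x : ι → V K) (w : ι → ℝ) (T : ℝ) :
    IntegrableOn (en1E x w T) (Set.Ioc 0 T) :=
  integrable_finsetSum _ fun _ _ => integrable_finsetSum _ fun _ _ => en1_int_ind _ _ _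

open MeasureTheory in
theorem en1_integral {ι : Type*} [Fintype ι] (x : ι → V K) (w : ι → ℝ) {T : ℝ} (hT : 0 ≤ T) :
    ∫ σ in Set.Ioc 0 T, en1E x w T σ = ∑ i, ∑ j, w i * w j * KT T (x i) (x j) := by
  unfold en1E
  rw [integral_finsetSum _ fun _ _ => integrable_finsetSum _ fun _ _ => en1_int_ind _ _ _]
  refine Finset.sum_congr rfl fun i _ => ?_
  rw [integral_finsetSum _ fun _ _ => en1_int_ind _ _ _]
  refine Finset.sum_congr rfl fun j _ => ?_
  rw [setIntegral_indicator measurableSet_Iic, Set.Ioc_inter_Iic, min_eq_right (KT_le _ _ _),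
    setIntegral_const, Real.volume_real_Ioc_of_le (KT_nonneg hT _ _), sub_zero, smul_eq_mul,
    mul_comm]

theorem kt_psd {ι : Type*} [Fintype ι] (x : ι → V K) (hx : ∀ i, x i ≠ 0) (w : ι → ℝ) {T : ℝ}
    (hT : 0 ≤ T) : 0 ≤ ∑ i, ∑ j, w i * w j * KT T (x i) (x j) := by
  rw [← en1_integral x w hT]
  exact MeasureTheory.setIntegral_nonneg measurableSet_Ioc fun σ h => en1_nonneg x hx w h.2

open MeasureTheory in
theorem en1_level {ι : Type*} [Fintype ι] (x : ι → V K) (hx : ∀ i, x i ≠ 0) (w : ι → ℝ)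
    {T a b : ℝ} (ha : 0 ≤ a) (hab : a < b) (hb : b ≤ T) :
    ∃ σ ∈ Set.Ioc a b, en1E x w T σ ≤ (∑ i, ∑ j, w i * w j * KT T (x i) (x j)) / (b - a) := by
  have hs : Set.Ioc a b ⊆ Set.Ioc 0 T := Set.Ioc_subset_Ioc ha hb
  obtain ⟨σ, h1, h2⟩ := exists_le_setAverage (μ := volume) (s := Set.Ioc a b)
    (by simpa using hab) (by simp) ((en1_integrable x w T).mono_set hs)
  refine ⟨σ, h1, h2.trans ?_⟩
  rw [setAverage_eq, Real.volume_real_Ioc_of_le hab.le, smul_eq_mul, inv_mul_eq_div,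
    ← en1_integral x w (by linarith)]
  refine div_le_div_of_nonneg_right ?_ (by linarith)
  refine setIntegral_mono_set (en1_integrable x w T) ?_ hs.eventuallyLE
  exact (ae_restrict_mem measurableSet_Ioc).mono fun σ h => en1_nonneg x hx w h.2

open Classical in
/-- Use the family `Sum.elim x y` with weights `1` and `-1`, and in each block a level where the
level function is at most its average. -/
theorem exists_levels {N : ℕ} (x y : Fin N → V K) (hx : ∀ i, x i ≠ 0) (hy : ∀ i, y i ≠ 0) {Δ : ℝ}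
    (hΔ : 0 < Δ) (M : ℕ) {η : ℝ} (hη : 0 < η) :
    ∃ σ : ℕ → ℝ, ∀ l, 1 ≤ l → l ≤ M → ((l : ℝ) - 1) * Δ < σ l ∧ σ l ≤ l * Δ ∧
      ∀ u : V K, u ≠ 0 →
        (((Finset.univ.filter fun i => del (x i) u ≤ Real.exp (-σ l)).card : ℝ) -
          ((Finset.univ.filter fun i => del (y i) u ≤ Real.exp (-σ l)).card : ℝ)) ^ 2 ≤
          ediff (M * Δ) x y / Δ + η := by
  have hxy : ∀ i, Sum.elim x y i ≠ 0 := by
    rintro (i | i)
    exacts [hx i, hy i]
  set w : Fin N ⊕ Fin N → ℝ := Sum.elim (fun _ => 1) (fun _ => -1) with hw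
  have he : ∑ i, ∑ j, w i * w j * KT (M * Δ) (Sum.elim x y i) (Sum.elim x y j) =
      ediff (M * Δ) x y := by
    have : ∑ i, ∑ j, KT (M * Δ) (y i) (x j) = ∑ i, ∑ j, KT (M * Δ) (x i) (y j) := by
      rw [Finset.sum_comm]
      simp only [KT_comm _ (y _)]
    simp only [Fintype.sum_sum_type, hw, Sum.elim_inl, Sum.elim_inr, Finset.sum_add_distrib,
      ediff, mul_one, one_mul, neg_mul, mul_neg, Finset.sum_neg_distrib, this]
    ring
  have key : ∀ l : ℕ, ∃ σ : ℝ, 1 ≤ l → l ≤ M → ((l : ℝ) - 1) * Δ < σ ∧ σ ≤ l * Δ ∧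
      ∀ u : V K, u ≠ 0 →
        (((Finset.univ.filter fun i => del (x i) u ≤ Real.exp (-σ)).card : ℝ) -
          ((Finset.univ.filter fun i => del (y i) u ≤ Real.exp (-σ)).card : ℝ)) ^ 2 ≤
          ediff (M * Δ) x y / Δ + η := by
    intro l
    by_cases hl : 1 ≤ l ∧ l ≤ M
    swap
    · exact ⟨0, fun h1 h2 => absurd ⟨h1, h2⟩ hl⟩
    have l1 : (1 : ℝ) ≤ l := by exact_mod_cast hl.1
    have l2 : (l : ℝ) * Δ ≤ M * Δ := by
      have : (l : ℝ) ≤ M := by exact_mod_cast hl.2
      gcongr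
    obtain ⟨σ, h1, h2⟩ := en1_level _ hxy w (a := ((l : ℝ) - 1) * Δ) (b := l * Δ) (T := M * Δ)
      (mul_nonneg (by linarith) hΔ.le) (by linarith) l2
    refine ⟨σ, fun _ _ => ⟨h1.1, h1.2, fun u hu => ?_⟩⟩
    have h3 := en1_sq_le _ hxy w (h1.2.trans l2) hu
    rw [he, show l * Δ - (l - 1) * Δ = Δ by ring] at h2
    refine le_trans (le_of_eq ?_) (h3.trans (h2.trans (le_add_of_nonneg_right hη.le)))
    congr 1
    rw [Finset.sum_filter, Fintype.sum_sum_type, Finset.card_filter, Finset.card_filter]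
    simp only [hw, Sum.elim_inl, Sum.elim_inr]
    push_cast
    rw [sub_eq_add_neg, ← Finset.sum_neg_distrib]
    congr 1
    refine Finset.sum_congr rfl fun i _ => ?_
    split_ifs <;> simp
  choose σ hσ using key
  exact ⟨σ, hσ⟩

end Pool.Agent.Lib.MP_0dd0d9_ag
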