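import Pool.Agent.Lib.MP_0dd0d9_ag.En1
import Pool.Agent.Lib.MP_0dd0d9_ag.Esc

/-!
TASK g0d En2.  The truncated Green kernel is almost positive semidefinite.
-/

namespace Pool.Agent.Lib.MP_0dd0d9_ag

open Polynomial

variable {K : Type*} [NormedField K] [IsUltrametricDist K] [IsAlgClosed K]
variable {d : ℕ} {F : Mp K} {h : ℝ} {H : V K → ℝ}

omit [IsAlgClosed K] in
/-- Moving a point by the truncation level in a generic direction. -/
theorem en2_perturb (hN : Res0 K) {T : ℝ} (hT : 0 < T) {ϖ : K} (hϖ : ‖ϖ‖ = Real.exp (-T))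
    {J : Type*} [Fintype J] (y : J → V K) (hy : ∀ j, y j ≠ 0) {x : V K} (hx : x ≠ 0) :
    ∃ x' : V K, x' ≠ 0 ∧ ∀ j, del x' (y j) = max (del x (y j)) (Real.exp (-T)) := by
  classical
  obtain ⟨s, u, hs, hu, rfl⟩ := exists_unit_smul hx
  obtain ⟨a, -, ha⟩ := exists_unit_generic hN (fun _ : Unit => u) 0
  have ha1 : ‖wedge ![(a : K), 1] u‖ = 1 := by rw [ha (), hu]
  have he : ‖(![(a : K), 1] : V K)‖ = 1 := by
    rw [norm_V]
    simp only [Matrix.cons_val_zero, Matrix.cons_val_one, norm_one]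
    exact max_eq_right (norm_nat_le hN a)
  obtain ⟨e, he'⟩ : ∃ e : V K, e = ![(a : K), 1] := ⟨_, rfl⟩
  rw [← he'] at ha1 he
  obtain ⟨t, ht1, ht⟩ := exists_nat_generic hN
    (Finset.univ.image fun j => (wedge u (y j), ϖ * wedge e (y j))) 1
  have hε : Real.exp (-T) < 1 := by
    rw [← Real.exp_zero]
    exact Real.exp_lt_exp.2 (by linarith)
  have hnt : ‖(t : K)‖ = 1 := hN t (by omega)
  have hsm : ‖((t : K) * ϖ) • e‖ = Real.exp (-T) := by
    rw [norm_smul, norm_mul, hnt, hϖ, he, one_mul, mul_one]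
  have hx' : ‖u + ((t : K) * ϖ) • e‖ = 1 := by
    rw [IsUltrametricDist.norm_add_eq_max_of_norm_ne_norm (by rw [hsm, hu]; exact hε.ne'), hsm, hu]
    exact max_eq_left hε.le
  have hu0 : u ≠ 0 := by
    rw [← norm_pos_iff, hu]; exact one_pos
  refine ⟨u + ((t : K) * ϖ) • e, by rw [← norm_pos_iff, hx']; exact one_pos, fun j => ?_⟩
  have hyj : 0 < ‖y j‖ := norm_pos_iff.2 (hy j)
  have h1 : wedge (u + ((t : K) * ϖ) • e) (y j) = wedge u (y j) + t * (ϖ * wedge e (y j)) := by
    simp only [wedge, Pi.add_apply, Pi.smul_apply, smul_eq_mul]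
    ring
  have h2 := ht (wedge u (y j), ϖ * wedge e (y j))
    (Finset.mem_image.2 ⟨j, Finset.mem_univ _, rfl⟩)
  have h3 : del (u + ((t : K) * ϖ) • e) (y j) =
      max (del u (y j)) (Real.exp (-T) * del e (y j)) := by
    unfold del
    rw [h1, h2, hx', hu, he, one_mul, norm_mul, hϖ, ← max_div_div_right hyj.le, mul_div_assoc]
  have h4 : del e u = 1 := by
    unfold del
    rw [ha1, he, hu]; norm_num
  have h5 := del_ultra e (hy j) u
  rw [h4, del_comm (y j) u] at h5
  rw [h3, del_smul_left hs]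
  have h6 := del_le_one u (y j)
  have h7 := del_le_one e (y j)
  have h8 := del_nonneg e (y j)
  rcases le_max_iff.1 h5 with h9 | h9
  · rw [le_antisymm h7 h9, mul_one]
  · rw [max_eq_left (le_trans hε.le h9), max_eq_left]
    exact le_trans (mul_le_one₀ hε.le h8 h7) h9

omit [IsAlgClosed K] in
theorem en2_gT_abs (hE : IsEsc d F h H) {T : ℝ} (hT : 0 ≤ T) {x y : V K} (hx : x ≠ 0)
    (hy : y ≠ 0) : |gT H T x y| ≤ T + 2 * h := by
  have h1 := KT_nonneg hT x y
  have h2 := KT_le T x y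
  have h3 := abs_le.1 (hE.bd x hx)
  have h4 := abs_le.1 (hE.bd y hy)
  unfold gT
  rw [abs_le]
  constructor <;> linarith [h3.1, h3.2, h4.1, h4.2]

omit [IsAlgClosed K] in
theorem en2_gT_comm (T : ℝ) (x y : V K) : gT H T x y = gT H T y x := by
  unfold gT
  rw [KT_comm]
  ring

omit [IsUltrametricDist K] [IsAlgClosed K] in
theorem en2_wedge_ne {x y : V K} (h : 0 < del x y) : wedge x y ≠ 0 := by
  intro h0
  unfold del at h
  rw [h0, norm_zero, zero_div] at h
  exact lt_irrefl _ h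

omit [IsAlgClosed K] in
theorem en2_iter_ne (hG : Good d F h) (k : ℕ) {x : V K} (hx : x ≠ 0) : (app F)^[k] x ≠ 0 := by
  induction k with
  | zero => exact hx
  | succ k ih =>
    rw [Function.iterate_succ_apply']
    exact hG.ne_zero _ ih

/-- The sum of the kernel over one iterated fibre. -/
theorem en2_fibre (hG : Good d F h) (hE : IsEsc d F h H) (hd : 2 ≤ d) (k : ℕ) {T : ℝ}
    (hT : 2 * h * k < T) {z x x' : V K} (hz : z ≠ 0) (hx : x ≠ 0) (hx' : x' ≠ 0)
    {y : Fin (d ^ k) → V K} (hw : ∀ v, wedge ((app F)^[k] v) z = ∏ i, wedge v (y i))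
    (hH : ∑ i, H (y i) = H z) (hxx : del x' x = Real.exp (-T))
    (hy : ∀ j, del x' (y j) = max (del x (y j)) (Real.exp (-T)))
    (h1 : del ((app F)^[k] x') z = 1) : |∑ j, gT H T x (y j)| ≤ 4 * h := by
  have hD : (0 : ℝ) < (d : ℝ) ^ k := by
    have : (0 : ℝ) < d := by exact_mod_cast (by omega : 0 < d)
    positivity
  have hX : (app F)^[k] x' ≠ 0 := en2_iter_ne hG k hx'
  have hne : ∀ j, wedge x' (y j) ≠ 0 := fun j =>
    en2_wedge_ne (by rw [hy j]; exact lt_of_lt_of_le (Real.exp_pos _) (le_max_right _ _))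
  have h2 : ∀ j, gT H T x (y j) = -Real.log ‖wedge x' (y j)‖ +
      (Real.log ‖x'‖ + (H x - Real.log ‖x‖)) + H (y j) := by
    intro j
    unfold gT KT
    rw [← hy j, log_del (hne j)]
    ring
  have h3 : Real.log ‖wedge ((app F)^[k] x') z‖ = ∑ j, Real.log ‖wedge x' (y j)‖ := by
    rw [hw x', norm_prod, Real.log_prod]
    intro j _
    exact norm_ne_zero_iff.2 (hne j)
  have h4 := log_del (en2_wedge_ne (by rw [h1]; exact one_pos) : wedge ((app F)^[k] x') z ≠ 0)
  rw [h1, Real.log_one] at h4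
  have h5 := hE.iter hG k hx'
  have h6 := hE.hol k x' x hx' hx (by rw [hxx]; exact Real.exp_lt_exp.2 (by linarith))
  have h7 : |(d : ℝ) ^ k * ((H x' - Real.log ‖x'‖) - (H x - Real.log ‖x‖))| ≤ 2 * h := by
    rw [abs_mul, abs_of_pos hD]
    rw [le_div_iff₀ hD] at h6
    linarith
  have h8 := abs_le.1 (hE.bd _ hX)
  have h9 := abs_le.1 (hE.bd _ hz)
  have h10 := abs_le.1 h7
  simp only [h2, Finset.sum_add_distrib, Finset.sum_neg_distrib, Finset.sum_const,
    Finset.card_univ, Fintype.card_fin, nsmul_eq_mul, Nat.cast_pow]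
  rw [← h3, hH, abs_le]
  constructor <;> nlinarith [h8.1, h8.2, h9.1, h9.2, h10.1, h10.2]

/-- The potential of the iterated fibres over many points in general position is small. -/
theorem en2_potential (hG : Good d F h) (hE : IsEsc d F h H) (hN : Res0 K) (hd : 2 ≤ d) (k : ℕ)
    {T : ℝ} {ϖ : K} (hϖ : ‖ϖ‖ = Real.exp (-T)) (hT : 2 * h * k < T) (m : ℕ) :
    ∃ y : Fin m × Fin (d ^ k) → V K, (∀ j, y j ≠ 0) ∧ ∀ x : V K, x ≠ 0 →
      |∑ j, gT H T x (y j)| ≤ m * (4 * h) + (d : ℝ) ^ k * (T + 2 * h) := by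
  classical
  have hh := hG.h_nonneg
  have hT0 : 0 < T := lt_of_le_of_lt (by positivity) hT
  have hz : ∀ a : Fin m, (![((a : ℕ) : K), 1] : V K) ≠ 0 := by
    intro a h0
    have h1 := congrFun h0 1
    simp at h1
  choose y hy0 hyw hyH using fun a : Fin m => exists_fib_iter hE hG hd k (hz a)
  refine ⟨fun j => y j.1 j.2, fun j => hy0 j.1 j.2, fun x hx => ?_⟩
  obtain ⟨x', hx', hdel⟩ := en2_perturb hN hT0 hϖ
    (fun o : Option (Fin m × Fin (d ^ k)) => o.elim x (fun j => y j.1 j.2))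
    (fun o => by
      cases o with
      | none => exact hx
      | some j => exact hy0 j.1 j.2) hx
  have hxx : del x' x = Real.exp (-T) := by
    have h1 := hdel none
    simp only [Option.elim_none] at h1
    rw [h1, del_self]
    exact max_eq_right (Real.exp_pos _).le
  have hX : (app F)^[k] x' ≠ 0 := en2_iter_ne hG k hx'
  have hcard : (Finset.univ.filter fun a : Fin m =>
      del ((app F)^[k] x') ![((a : ℕ) : K), 1] ≠ 1).card ≤ 1 := by
    refine Finset.card_le_one.2 fun a ha b hb => ?_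
    by_contra hab
    have h1 := (Finset.mem_filter.1 ha).2
    have h2 := (Finset.mem_filter.1 hb).2
    have h3 := del_ultra (![((a : ℕ) : K), 1] : V K) hX ![((b : ℕ) : K), 1]
    rw [del_affine (norm_nat_le hN _) (norm_nat_le hN _),
      norm_nat_sub hN (fun e => hab (Fin.ext e)), del_comm _ ((app F)^[k] x')] at h3
    rcases le_max_iff.1 h3 with h4 | h4
    · exact h1 (le_antisymm (del_le_one _ _) h4)
    · exact h2 (le_antisymm (del_le_one _ _) h4)
  have hone : ∀ a : Fin m, |∑ b, gT H T x (y a b)| ≤ 4 * h +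
      (if del ((app F)^[k] x') ![((a : ℕ) : K), 1] ≠ 1 then 1 else 0) *
        ((d : ℝ) ^ k * (T + 2 * h)) := by
    intro a
    split_ifs with ha
    · have h1 : |∑ b, gT H T x (y a b)| ≤ ∑ _b : Fin (d ^ k), (T + 2 * h) :=
        le_trans (Finset.abs_sum_le_sum_abs _ _)
          (Finset.sum_le_sum fun b _ => en2_gT_abs hE hT0.le hx (hy0 a b))
      simp only [Finset.sum_const, Finset.card_univ, Fintype.card_fin, nsmul_eq_mul,
        Nat.cast_pow] at h1
      linarith
    · rw [zero_mul, add_zero]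
      exact en2_fibre hG hE hd k hT (hz a) hx hx' (hyw a) (hyH a) hxx
        (fun b => hdel (some (a, b))) (not_not.1 ha)
  rw [Fintype.sum_prod_type]
  refine le_trans (Finset.abs_sum_le_sum_abs _ _) (le_trans (Finset.sum_le_sum fun a _ => hone a) ?_)
  rw [Finset.sum_add_distrib, Finset.sum_const, ← Finset.sum_mul, Finset.sum_boole]
  simp only [Finset.card_univ, Fintype.card_fin, nsmul_eq_mul]
  refine add_le_add le_rfl (mul_le_of_le_one_left (by positivity) ?_)
  exact_mod_cast hcard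

omit [IsAlgClosed K] in
/-- For weights of total mass zero the Green kernel is positive semidefinite. -/
theorem en2_zero_mass {ι : Type*} [Fintype ι] (x : ι → V K) (hx : ∀ i, x i ≠ 0) (w : ι → ℝ)
    (hw : ∑ i, w i = 0) {T : ℝ} (hT : 0 ≤ T) :
    0 ≤ ∑ i, ∑ j, w i * w j * gT H T (x i) (x j) := by
  have h1 : ∑ i, ∑ j, w i * w j * gT H T (x i) (x j) =
      (∑ i, ∑ j, w i * w j * KT T (x i) (x j)) +
        (∑ i, w i * (H (x i) - Real.log ‖x i‖)) * (∑ j, w j) +
        (∑ i, w i) * ∑ j, w j * (H (x j) - Real.log ‖x j‖) := by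
    rw [Finset.sum_mul_sum, Finset.sum_mul_sum, ← Finset.sum_add_distrib,
      ← Finset.sum_add_distrib]
    refine Finset.sum_congr rfl fun i _ => ?_
    rw [← Finset.sum_add_distrib, ← Finset.sum_add_distrib]
    refine Finset.sum_congr rfl fun j _ => ?_
    unfold gT
    ring
  rw [h1, hw, mul_zero, zero_mul, add_zero, add_zero]
  exact kt_psd x hx w hT

omit [IsAlgClosed K] in
/-- A family with small potential gives almost positivity. -/
theorem en2_core {ι J : Type*} [Fintype ι] [Fintype J] (x : ι → V K) (hx : ∀ i, x i ≠ 0)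
    (w : ι → ℝ) (y : J → V K) (hy : ∀ j, y j ≠ 0) {T η : ℝ} (hT : 0 ≤ T) (hη : 0 ≤ η)
    (hJ : 0 < Fintype.card J)
    (hU : ∀ v : V K, v ≠ 0 → |∑ j, gT H T v (y j)| ≤ Fintype.card J * η) :
    -(3 * η * (∑ i, |w i|) ^ 2) ≤ ∑ i, ∑ j, w i * w j * gT H T (x i) (x j) := by
  obtain ⟨N, hN⟩ : ∃ N : ℝ, N = Fintype.card J := ⟨_, rfl⟩
  have hN0 : 0 < N := by rw [hN]; exact_mod_cast hJ
  rw [← hN] at hU
  obtain ⟨c, hc⟩ : ∃ c : ℝ, c = (∑ i, w i) / N := ⟨_, rfl⟩
  obtain ⟨A, hA⟩ : ∃ A : ℝ, A = ∑ i, |w i| := ⟨_, rfl⟩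
  have hA0 : 0 ≤ A := by rw [hA]; exact Finset.sum_nonneg fun i _ => abs_nonneg _
  have hcN : |c| * N ≤ A := by
    rw [hc, abs_div, abs_of_pos hN0, div_mul_cancel₀ _ hN0.ne', hA]
    exact Finset.abs_sum_le_sum_abs _ _
  have h0 := en2_zero_mass (H := H) (Sum.elim x y)
    (fun i => by
      cases i with
      | inl i => exact hx i
      | inr j => exact hy j) (Sum.elim w fun _ => -c)
    (by
      rw [Fintype.sum_sum_type]
      simp only [Sum.elim_inl, Sum.elim_inr, Finset.sum_const, Finset.card_univ, nsmul_eq_mul]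
      rw [← hN, hc]
      field_simp
      ring) hT
  simp only [Fintype.sum_sum_type, Sum.elim_inl, Sum.elim_inr, Finset.sum_add_distrib] at h0
  have h1 : ∑ i, ∑ j, w i * -c * gT H T (x i) (y j) = -c * ∑ i, w i * ∑ j, gT H T (x i) (y j) := by
    rw [Finset.mul_sum]
    refine Finset.sum_congr rfl fun i _ => ?_
    rw [Finset.mul_sum, Finset.mul_sum]
    exact Finset.sum_congr rfl fun j _ => by ring
  have h2 : ∑ j, ∑ i, -c * w i * gT H T (y j) (x i) = -c * ∑ i, w i * ∑ j, gT H T (x i) (y j) := by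
    rw [← h1, Finset.sum_comm]
    refine Finset.sum_congr rfl fun i _ => Finset.sum_congr rfl fun j _ => ?_
    rw [en2_gT_comm]
    ring
  have h3 : ∑ a, ∑ b, -c * -c * gT H T (y a) (y b) = c ^ 2 * ∑ a, ∑ b, gT H T (y a) (y b) := by
    rw [Finset.mul_sum]
    refine Finset.sum_congr rfl fun i _ => ?_
    rw [Finset.mul_sum]
    exact Finset.sum_congr rfl fun j _ => by ring
  rw [h1, h2, h3] at h0
  have h4 : |∑ i, w i * ∑ j, gT H T (x i) (y j)| ≤ A * (N * η) := by
    rw [hA, Finset.sum_mul]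
    refine le_trans (Finset.abs_sum_le_sum_abs _ _) (Finset.sum_le_sum fun i _ => ?_)
    rw [abs_mul]
    exact mul_le_mul_of_nonneg_left (hU _ (hx i)) (abs_nonneg _)
  have h5 : ∑ a, ∑ b, gT H T (y a) (y b) ≤ N * (N * η) := by
    have h6 := Finset.sum_le_card_nsmul Finset.univ (fun a => ∑ b, gT H T (y a) (y b)) (N * η)
      (fun a _ => le_trans (le_abs_self _) (hU _ (hy a)))
    rwa [nsmul_eq_mul, Finset.card_univ, ← hN] at h6
  have h7 : |-c * ∑ i, w i * ∑ j, gT H T (x i) (y j)| ≤ η * A ^ 2 := by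
    rw [abs_mul, abs_neg]
    calc |c| * |∑ i, w i * ∑ j, gT H T (x i) (y j)| ≤ |c| * (A * (N * η)) :=
          mul_le_mul_of_nonneg_left h4 (abs_nonneg _)
      _ = (|c| * N) * (A * η) := by ring
      _ ≤ A * (A * η) := mul_le_mul_of_nonneg_right hcN (by positivity)
      _ = η * A ^ 2 := by ring
  have h8 : c ^ 2 * ∑ a, ∑ b, gT H T (y a) (y b) ≤ η * A ^ 2 := by
    calc c ^ 2 * ∑ a, ∑ b, gT H T (y a) (y b) ≤ c ^ 2 * (N * (N * η)) :=
          mul_le_mul_of_nonneg_left h5 (sq_nonneg _)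
      _ = η * (|c| * N) ^ 2 := by rw [mul_pow, sq_abs]; ring
      _ ≤ η * A ^ 2 :=
          mul_le_mul_of_nonneg_left (pow_le_pow_left₀ (by positivity) hcN 2) hη
  rw [← hA]
  have h9 := (abs_le.1 h7).2
  linarith

/-- Fix `m` and the unit vectors `z a = ![a, 1]`, `a < m`, with iterated fibres `y a`
(`exists_fib_iter`); let `μ` be the uniform probability on the `m * d ^ k` vectors `y a b` and
`U x` the `μ`-average of `gT H T x`.  Claim `|U x| ≤ 4 h / d ^ k + (T + 4 h) / m` for `x ≠ 0`.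
Normalise `‖x‖ = 1`, take `e` with `‖wedge x e‖ = 1 = ‖e‖` and `x' = x + (s * ϖ) • e` with `s ≥ 1`
generic, so that `del x x' = exp (-T)` and `del x' y = max (del x y) (exp (-T))` for all `y a b`.
Then `∑ b, gT H T x (y a b)` is `-log ‖wedge (F^k x') (z a)‖ + H (F^k x') + H (z a)` up to
`d ^ k * (2 h / d ^ k)` (field `hol`).  This quantity is `-log (del (F^k x') (z a))` up to `2 h`; the
depth is positive for at most one `a`, and there the average of `gT` is still at most `T + 2 h`.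
Apply `kt_psd` to the family `x` together with `y`, with weights `w` and `-(∑ w) * μ` (total mass
zero, so `KT` may be replaced by `gT`), and let `m` tend to infinity. -/
theorem apsd (hG : Good d F h) (hE : IsEsc d F h H) (hN : Res0 K) (hd : 2 ≤ d) (k : ℕ) {T : ℝ}
    {ϖ : K} (hϖ : ‖ϖ‖ = Real.exp (-T)) (hT : 2 * h * k < T) {ι : Type*} [Fintype ι] (x : ι → V K)
    (hx : ∀ i, x i ≠ 0) (w : ι → ℝ) :
    -(12 * h / (d : ℝ) ^ k * (∑ i, |w i|) ^ 2) ≤ ∑ i, ∑ j, w i * w j * gT H T (x i) (x j) := by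
  have hh := hG.h_nonneg
  have hT0 : 0 < T := lt_of_le_of_lt (by positivity) hT
  have hD : (0 : ℝ) < (d : ℝ) ^ k := by
    have : (0 : ℝ) < d := by exact_mod_cast (by omega : 0 < d)
    positivity
  have key : ∀ m : ℕ, 0 < m → -(3 * (4 * h / (d : ℝ) ^ k + (T + 2 * h) / m) * (∑ i, |w i|) ^ 2) ≤
      ∑ i, ∑ j, w i * w j * gT H T (x i) (x j) := by
    intro m hm
    have hm' : (0 : ℝ) < m := by exact_mod_cast hm
    obtain ⟨y, hy, hU⟩ := en2_potential hG hE hN hd k hϖ hT m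
    refine en2_core x hx w y hy hT0.le (by positivity) ?_ fun v hv => le_trans (hU v hv) ?_
    · rw [Fintype.card_prod, Fintype.card_fin, Fintype.card_fin]
      exact Nat.mul_pos hm (pow_pos (by omega) k)
    · rw [Fintype.card_prod, Fintype.card_fin, Fintype.card_fin]
      push_cast
      refine le_of_eq ?_
      field_simp
  refine le_of_forall_pos_le_add fun ε hε => ?_
  obtain ⟨m, hm⟩ := exists_nat_gt (3 * (T + 2 * h) * (∑ i, |w i|) ^ 2 / ε)
  have hm0 : (0 : ℝ) < m := lt_of_le_of_lt (by positivity) hm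
  have h1 := key m (by exact_mod_cast hm0)
  have h2 : 3 * (T + 2 * h) * (∑ i, |w i|) ^ 2 / m ≤ ε := by
    rw [div_le_iff₀ hm0]
    rw [div_lt_iff₀ hε] at hm
    linarith
  have h3 : 3 * (4 * h / (d : ℝ) ^ k + (T + 2 * h) / m) * (∑ i, |w i|) ^ 2 =
      12 * h / (d : ℝ) ^ k * (∑ i, |w i|) ^ 2 + 3 * (T + 2 * h) * (∑ i, |w i|) ^ 2 / m := by
    ring
  linarith

end Pool.Agent.Lib.MP_0dd0d9_ag
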