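import Pool.Agent.Lib.MP_0dd0d9_ag.En2

/-!
TASK g0d En3.  Energy inequalities for families of points of escape rate zero.
-/

namespace Pool.Agent.Lib.MP_0dd0d9_ag

open Polynomial

variable {K : Type*} [NormedField K] [IsUltrametricDist K] [IsAlgClosed K]
variable {d : ℕ} {F : Mp K} {h : ℝ} {H : V K → ℝ}

theorem exc_nonneg {ι : Type*} [DecidableEq ι] (T : ℝ) (s : Finset ι) (x : ι → V K) :
    0 ≤ exc T s x :=
  Finset.sum_nonneg fun _ _ => Finset.sum_nonneg fun _ _ => le_max_left _ _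

theorem en3_gT_comm (H : V K → ℝ) (T : ℝ) (x y : V K) : gT H T x y = gT H T y x := by
  unfold gT
  rw [KT_comm T x y]
  ring

theorem en3_gT_self_le (hE : IsEsc d F h H) (T : ℝ) {x : V K} (hx : x ≠ 0) :
    gT H T x x ≤ T + 2 * h := by
  unfold gT
  rw [KT_self]
  have := (abs_le.1 (hE.bd x hx)).2
  linarith

theorem en3_gT_off (T : ℝ) {x y : V K} (hx : H x = 0) (hy : H y = 0) (hw : wedge x y ≠ 0) :
    gT H T x y = -Real.log ‖wedge x y‖ - max 0 (-Real.log (del x y) - T) := by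
  unfold gT
  rw [KT_eq T hw, hx, hy]
  have := log_del hw
  linarith

/-- Off the diagonal `gT = -log ‖wedge‖ - max 0 (..)` (`KT_eq`, `log_del`), on the diagonal
`gT ≤ T + 2 h`. -/
theorem gT_sum_le (hE : IsEsc d F h H) (T : ℝ) {ι : Type*} [DecidableEq ι] (s : Finset ι)
    (x : ι → V K) (hx : ∀ i ∈ s, x i ≠ 0) (hH : ∀ i ∈ s, H (x i) = 0)
    (hw : ∀ i ∈ s, ∀ j ∈ s, i ≠ j → wedge (x i) (x j) ≠ 0) :
    ∑ i ∈ s, ∑ j ∈ s, gT H T (x i) (x j) ≤ sraw s x - exc T s x + s.card * (T + 2 * h) := by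
  unfold sraw exc
  rw [← Finset.sum_sub_distrib, ← nsmul_eq_mul, ← Finset.sum_const, ← Finset.sum_add_distrib]
  refine Finset.sum_le_sum fun i hi => ?_
  rw [← Finset.add_sum_erase s _ hi, ← Finset.sum_sub_distrib]
  have h1 := en3_gT_self_le hE T (hx i hi)
  have h2 : ∑ j ∈ s.erase i, gT H T (x i) (x j) =
      ∑ j ∈ s.erase i,
        (-Real.log ‖wedge (x i) (x j)‖ - max 0 (-Real.log (del (x i) (x j)) - T)) := by
    refine Finset.sum_congr rfl fun j hj => ?_
    have hj' := Finset.mem_erase.1 hj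
    exact en3_gT_off T (hH i hi) (hH j hj'.2) (hw i hi j hj'.2 (Ne.symm hj'.1))
  linarith

theorem fam_bound (hG : Good d F h) (hE : IsEsc d F h H) (hN : Res0 K) (hd : 2 ≤ d) (k : ℕ)
    {T : ℝ} {ϖ : K} (hϖ : ‖ϖ‖ = Real.exp (-T)) (hT : 2 * h * k < T) {ι : Type*} [DecidableEq ι]
    (s : Finset ι) (x : ι → V K) (hx : ∀ i ∈ s, x i ≠ 0) (hH : ∀ i ∈ s, H (x i) = 0)
    (hw : ∀ i ∈ s, ∀ j ∈ s, i ≠ j → wedge (x i) (x j) ≠ 0) (hs : s.card ≤ d ^ k) :
    exc T s x ≤ sraw s x + s.card * (T + 14 * h) := by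
  have h0 := hG.h_nonneg
  have h1 := apsd hG hE hN hd k hϖ hT (fun i : s => x i) (fun i => hx i i.2) (fun _ => 1)
  have h2 := gT_sum_le hE T s x hx hH hw
  have h3 : ∑ i : s, ∑ j : s, (1 : ℝ) * 1 * gT H T (x i) (x j) =
      ∑ i ∈ s, ∑ j ∈ s, gT H T (x i) (x j) := by
    rw [← Finset.sum_coe_sort s fun i => ∑ j ∈ s, gT H T (x i) (x j)]
    refine Finset.sum_congr rfl fun i _ => ?_
    rw [← Finset.sum_coe_sort s fun j => gT H T (x i) (x j)]
    refine Finset.sum_congr rfl fun j _ => ?_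
    ring
  have h4 : ∑ _i : s, |(1 : ℝ)| = s.card := by simp
  rw [h3, h4] at h1
  have hdpos : (0 : ℝ) < (d : ℝ) ^ k := by
    have : (0 : ℝ) < d := by exact_mod_cast (by omega : 0 < d)
    positivity
  have h5 : (s.card : ℝ) ≤ (d : ℝ) ^ k := by exact_mod_cast hs
  have h6 : 12 * h / (d : ℝ) ^ k * (s.card : ℝ) ^ 2 ≤ 12 * h * s.card := by
    rw [div_mul_eq_mul_div, div_le_iff₀ hdpos]
    have hc : (0 : ℝ) ≤ s.card := Nat.cast_nonneg _
    have : 12 * h * s.card * (s.card : ℝ) ≤ 12 * h * s.card * (d : ℝ) ^ k :=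
      mul_le_mul_of_nonneg_left h5 (by positivity)
    nlinarith
  nlinarith

/-- The pairs `(m + t, i + t)`, `t < β`, `i ≠ m`, are distinct, and by `Good.lip_iter` the depth of
such a pair is at least the depth of `(m, i)` minus `2 h t`. -/
theorem shift_bound (hG : Good d F h) (hN : Res0 K) (hd : 2 ≤ d) {n : ℕ} [NeZero n]
    {p z : ZMod n → V K} (hC : Cyc d F p z) (T : ℝ) {β : ℕ} (hβ : β ≤ n) (m : ZMod n) :
    (β : ℝ) * ∑ i ∈ Finset.univ.erase m,
      max 0 (-Real.log (del (p i) (p m)) - (T + 2 * h * β)) ≤ exc T Finset.univ p := by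
  have h0 := hG.h_nonneg
  set f : ZMod n → ℝ := fun a =>
    ∑ b ∈ Finset.univ.erase a, max 0 (-Real.log (del (p a) (p b)) - T) with hf
  have hf0 : ∀ a, 0 ≤ f a := fun a => Finset.sum_nonneg fun _ _ => le_max_left _ _
  have key : ∀ t ∈ Finset.range β, ∑ i ∈ Finset.univ.erase m,
      max 0 (-Real.log (del (p i) (p m)) - (T + 2 * h * β)) ≤ f (m + (t : ZMod n)) := by
    intro t ht
    have ht' : (t : ℝ) ≤ β := by exact_mod_cast (Finset.mem_range.1 ht).le
    have hre : f (m + (t : ZMod n)) = ∑ i ∈ Finset.univ.erase m,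
        max 0 (-Real.log (del (p (m + (t : ZMod n))) (p (i + (t : ZMod n)))) - T) := by
      symm
      refine Finset.sum_bij' (fun i _ => i + (t : ZMod n)) (fun b _ => b - (t : ZMod n))
        ?_ ?_ ?_ ?_ ?_
      · intro i hi
        have := (Finset.mem_erase.1 hi).1
        simpa using this
      · intro b hb
        have := (Finset.mem_erase.1 hb).1
        simp only [Finset.mem_erase, Finset.mem_univ, and_true]
        intro hbm
        apply this
        rw [← hbm]
        ring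
      · intro i _
        ring
      · intro b _
        ring
      · intro i _
        rfl
    rw [hre]
    refine Finset.sum_le_sum fun i hi => ?_
    have him : i ≠ m := (Finset.mem_erase.1 hi).1
    refine max_le_max le_rfl ?_
    have hl := hG.lip_iter hN (by omega) t (p m) (p i)
    rw [hC.iter, hC.iter] at hl
    have hp1 : 0 < del (p (m + (t : ZMod n))) (p (i + (t : ZMod n))) :=
      del_pos (hC.dist _ _ (by simpa using him.symm))
    have hp2 : 0 < del (p m) (p i) := del_pos (hC.dist _ _ him.symm)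
    have hlog := Real.log_le_log hp1 hl
    rw [Real.log_mul (Real.exp_pos _).ne' hp2.ne', Real.log_exp] at hlog
    rw [del_comm (p i) (p m)]
    have : 2 * h * t ≤ 2 * h * β := mul_le_mul_of_nonneg_left ht' (by positivity)
    linarith
  have h1 := Finset.sum_le_sum key
  rw [Finset.sum_const, Finset.card_range, nsmul_eq_mul] at h1
  refine h1.trans ?_
  have hinj : Set.InjOn (fun t : ℕ => m + (t : ZMod n)) (Finset.range β : Set ℕ) := by
    intro a ha b hb hab
    have ha' : a < n := lt_of_lt_of_le (Finset.mem_range.1 ha) hβ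
    have hb' : b < n := lt_of_lt_of_le (Finset.mem_range.1 hb) hβ
    have h2 : (a : ZMod n) = (b : ZMod n) := add_left_cancel hab
    have h3 := congrArg ZMod.val h2
    rwa [ZMod.val_cast_of_lt ha', ZMod.val_cast_of_lt hb'] at h3
  rw [← Finset.sum_image (f := f) hinj]
  exact Finset.sum_le_sum_of_subset_of_nonneg (Finset.subset_univ _) fun a _ _ => hf0 a

/-- `apsd` for the family `x` together with `c`, with weights `1` and `-γ`. -/
theorem crit_test (hG : Good d F h) (hE : IsEsc d F h H) (hN : Res0 K) (hd : 2 ≤ d) (k : ℕ)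
    {T : ℝ} {ϖ : K} (hϖ : ‖ϖ‖ = Real.exp (-T)) (hT : 2 * h * k < T) {ι : Type*} [Fintype ι]
    [DecidableEq ι] (x : ι → V K) (hx : ∀ i, x i ≠ 0) (hH : ∀ i, H (x i) = 0)
    (hw : ∀ i j, i ≠ j → wedge (x i) (x j) ≠ 0) {c : V K} (hc : c ≠ 0) {γ : ℝ} (hγ : 0 ≤ γ) :
    2 * γ * ∑ i, gT H T (x i) c ≤
      sraw Finset.univ x + Fintype.card ι * (T + 2 * h) + γ ^ 2 * (T + 2 * h) +
        12 * h / (d : ℝ) ^ k * (Fintype.card ι + γ) ^ 2 := by
  have h1 := apsd hG hE hN hd k hϖ hT (fun o : Option ι => o.elim c x)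
    (fun o => by cases o with
      | none => exact hc
      | some i => exact hx i) (fun o : Option ι => o.elim (-γ) fun _ => 1)
  have h2 := gT_sum_le hE T Finset.univ x (fun i _ => hx i) (fun i _ => hH i)
    (fun i _ j _ hij => hw i j hij)
  have h3 := exc_nonneg T Finset.univ x
  have h4 := en3_gT_self_le hE T hc
  simp only [Fintype.sum_option, Option.elim_none, Option.elim_some, abs_neg, abs_of_nonneg hγ,
    abs_one, Finset.sum_const, Finset.card_univ, nsmul_eq_mul, mul_one, one_mul,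
    Finset.sum_add_distrib] at h1
  rw [Finset.card_univ] at h2
  have h5 : ∑ j, -γ * gT H T c (x j) = -γ * ∑ i, gT H T (x i) c := by
    rw [Finset.mul_sum]
    exact Finset.sum_congr rfl fun j _ => by rw [en3_gT_comm]
  have h6 : ∑ j, -γ * gT H T (x j) c = -γ * ∑ i, gT H T (x i) c := by
    rw [Finset.mul_sum]
  rw [h5, h6, add_comm γ] at h1
  have h7 : γ ^ 2 * gT H T c c ≤ γ ^ 2 * (T + 2 * h) :=
    mul_le_mul_of_nonneg_left h4 (sq_nonneg _)
  nlinarith

/-- `ediff` does not change when `KT` is replaced by `gT`; apply `apsd` to the union of the two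
families with all weights `1`. -/
theorem ediff_le (hG : Good d F h) (hE : IsEsc d F h H) (hN : Res0 K) (hd : 2 ≤ d) (k : ℕ)
    {T : ℝ} {ϖ : K} (hϖ : ‖ϖ‖ = Real.exp (-T)) (hT : 2 * h * k < T) {N : ℕ} (x y : Fin N → V K)
    (hx : ∀ i, x i ≠ 0) (hy : ∀ i, y i ≠ 0) (hHx : ∀ i, H (x i) = 0) (hHy : ∀ i, H (y i) = 0)
    (hwx : ∀ i j, i ≠ j → wedge (x i) (x j) ≠ 0) (hwy : ∀ i j, i ≠ j → wedge (y i) (y j) ≠ 0) :
    ediff T x y ≤ 2 * sraw Finset.univ x + 2 * sraw Finset.univ y + 4 * N * (T + 2 * h) +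
      48 * h / (d : ℝ) ^ k * N ^ 2 := by
  have h1 := apsd hG hE hN hd k hϖ hT (Sum.elim x y)
    (fun o => by cases o with
      | inl i => exact hx i
      | inr i => exact hy i) (fun _ => 1)
  have h2 := gT_sum_le hE T Finset.univ x (fun i _ => hx i) (fun i _ => hHx i)
    (fun i _ j _ hij => hwx i j hij)
  have h3 := gT_sum_le hE T Finset.univ y (fun i _ => hy i) (fun i _ => hHy i)
    (fun i _ j _ hij => hwy i j hij)
  have h4 := exc_nonneg T Finset.univ x
  have h5 := exc_nonneg T Finset.univ y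
  simp only [Fintype.sum_sum_type, Sum.elim_inl, Sum.elim_inr, abs_one, Finset.sum_const,
    Finset.card_univ, Fintype.card_sum, Nat.cast_add, Fintype.card_fin, nsmul_eq_mul, mul_one,
    one_mul, Finset.sum_add_distrib] at h1
  rw [Finset.card_univ, Fintype.card_fin] at h2 h3
  have h6 : ∑ i, ∑ j, gT H T (y i) (x j) = ∑ i, ∑ j, gT H T (x i) (y j) := by
    rw [Finset.sum_comm]
    exact Finset.sum_congr rfl fun i _ => Finset.sum_congr rfl fun j _ => en3_gT_comm _ _ _ _
  have h7 : ∀ u v : Fin N → V K, ∑ i, ∑ j, gT H T (u i) (v j) =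
      ∑ i, ∑ j, KT T (u i) (v j) + N * ∑ i, (H (u i) - Real.log ‖u i‖) +
        N * ∑ j, (H (v j) - Real.log ‖v j‖) := by
    intro u v
    simp only [gT, Finset.sum_add_distrib, Finset.sum_const, Finset.card_univ, Fintype.card_fin,
      nsmul_eq_mul, Finset.mul_sum]
  have h8 : ediff T x y = ∑ i, ∑ j, gT H T (x i) (x j) + ∑ i, ∑ j, gT H T (y i) (y j) -
      2 * ∑ i, ∑ j, gT H T (x i) (y j) := by
    rw [h7 x x, h7 y y, h7 x y]
    unfold ediff
    ring
  have h9 : 12 * h / (d : ℝ) ^ k * ((N : ℝ) + N) ^ 2 = 48 * h / (d : ℝ) ^ k * N ^ 2 := by ring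
  rw [h6, h9] at h1
  rw [h8]
  linarith

open Classical in
/-- With `T = (2 k + 1) h` (use `ϖ ^ (2 k + 1)`) every family in `stot` has nonnegative corrected
energy by `fam_bound`, and the sizes add up to at most `3 n`. -/
theorem sbig_bounds (hG : Good d F h) (hE : IsEsc d F h H) (hN : Res0 K) (hd : 2 ≤ d)
    (hh : 0 < h) {ϖ : K} (hϖ : ‖ϖ‖ = Real.exp (-h)) {n : ℕ} [NeZero n] (hn : 2 ≤ n) {k : ℕ}
    (hnk : n ≤ 2 ^ k) {p z : ZMod n → V K} (hC : Cyc d F p z) :
    exc ((2 * k + 1) * h) Finset.univ p ≤ sraw Finset.univ p + n * ((2 * k + 15) * h) ∧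
    sraw Finset.univ p + n * ((2 * k + 15) * h) ≤ sbig d F h k p z ∧
    ∀ l, l < k → sraw Finset.univ (fun u => p (idx n k l u)) +
      sraw (Finset.univ.filter fun u => Dj d F (p (idx n k l u - 1)) ≠ 0)
        (fun u => z (idx n k l u)) ≤ sbig d F h k p z := by
  have hϖ' : ‖ϖ ^ (2 * k + 1)‖ = Real.exp (-((2 * k + 1) * h)) := by
    rw [norm_pow, hϖ, ← Real.exp_nat_mul]
    congr 1
    push_cast
    ring
  have hT : 2 * h * k < (2 * k + 1) * h := by nlinarith
  have hnd : n ≤ d ^ k := hnk.trans (Nat.pow_le_pow_left hd k)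
  have hp0 := hC.ne_zero hn
  have hpH := hC.esc_zero hE hG hd hn
  set c : ℝ := (2 * k + 15) * h with hc
  have hc0 : 0 ≤ c := by positivity
  have hcc : ((2 * k + 1) * h + 14 * h : ℝ) = c := by rw [hc]; ring
  have hA : exc ((2 * k + 1) * h) Finset.univ p ≤ sraw Finset.univ p + n * c := by
    have := fam_bound hG hE hN hd k hϖ' hT Finset.univ p (fun i _ => hp0 i) (fun i _ => hpH i)
      (fun i _ j _ hij => hC.dist i j hij) (by rw [Finset.card_univ, ZMod.card]; exact hnd)
    rwa [Finset.card_univ, ZMod.card, hcc] at this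
  have hA0 : 0 ≤ sraw Finset.univ p + n * c := (exc_nonneg _ _ _).trans hA
  have hdiv : n / k ≤ d ^ k := (Nat.div_le_self n k).trans hnd
  set a : ℕ → ℝ := fun l => sraw Finset.univ (fun u => p (idx n k l u)) +
      sraw (Finset.univ.filter fun u => Dj d F (p (idx n k l u - 1)) ≠ 0)
        (fun u => z (idx n k l u)) with ha
  have hB : ∀ l ∈ Finset.range k, 0 ≤ a l + 2 * ((n / k : ℕ) : ℝ) * c := by
    intro l hl
    have hl' := Finset.mem_range.1 hl
    have hinj : Function.Injective (idx n k l) := idx_injective hl'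
    have b1 := fam_bound hG hE hN hd k hϖ' hT Finset.univ (fun u => p (idx n k l u))
      (fun i _ => hp0 _) (fun i _ => hpH _)
      (fun i _ j _ hij => hC.dist _ _ fun e => hij (hinj e))
      (by rw [Finset.card_univ, Fintype.card_fin]; exact hdiv)
    have hcard : (Finset.univ.filter fun u => Dj d F (p (idx n k l u - 1)) ≠ 0).card ≤ n / k :=
      (Finset.card_filter_le _ _).trans (by rw [Finset.card_univ, Fintype.card_fin])
    have b2 := fam_bound hG hE hN hd k hϖ' hT
      (Finset.univ.filter fun u => Dj d F (p (idx n k l u - 1)) ≠ 0) (fun u => z (idx n k l u))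
      (fun i hi => ne_zero_of_wedge_left (hC.zpre _ (Finset.mem_filter.1 hi).2).2)
      (fun i hi => hE.of_image hd
        (ne_zero_of_wedge_left (hC.zpre _ (Finset.mem_filter.1 hi).2).2)
        (by rw [(hC.zpre _ (Finset.mem_filter.1 hi).2).1]; exact hpH _))
      (fun i hi j hj hij => hC.z_dist hG.hom (fun e => hij (hinj e))
        (Finset.mem_filter.1 hi).2 (Finset.mem_filter.1 hj).2)
      (hcard.trans hdiv)
    rw [Finset.card_univ, Fintype.card_fin, hcc] at b1
    rw [hcc] at b2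
    have b3 := (exc_nonneg _ _ _).trans b1
    have b4 := (exc_nonneg _ _ _).trans b2
    have b5 : ((Finset.univ.filter fun u => Dj d F (p (idx n k l u - 1)) ≠ 0).card : ℝ) * c ≤
        ((n / k : ℕ) : ℝ) * c :=
      mul_le_mul_of_nonneg_right (by exact_mod_cast hcard) hc0
    simp only [ha]
    linarith
  have hsum : ∑ l ∈ Finset.range k, (a l + 2 * ((n / k : ℕ) : ℝ) * c) ≤
      ∑ l ∈ Finset.range k, a l + 2 * n * c := by
    rw [Finset.sum_add_distrib, Finset.sum_const, Finset.card_range, nsmul_eq_mul]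
    have e1 : (k : ℝ) * ((n / k : ℕ) : ℝ) ≤ n := by exact_mod_cast Nat.mul_div_le n k
    have e2 := mul_le_mul_of_nonneg_right e1 hc0
    linarith
  have hsb : sbig d F h k p z = sraw Finset.univ p + ∑ l ∈ Finset.range k, a l + 3 * n * c := rfl
  refine ⟨hA, ?_, fun l hl => ?_⟩
  · have := Finset.sum_nonneg hB
    rw [hsb]
    linarith
  · have e3 := Finset.single_le_sum hB (Finset.mem_range.2 hl)
    have e4 : 0 ≤ 2 * ((n / k : ℕ) : ℝ) * c := by positivity
    rw [hsb]
    change a l ≤ _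
    linarith

end Pool.Agent.Lib.MP_0dd0d9_ag
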