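import Pool.Agent.Lib.MP_0dd0d9_ag.En3
import Pool.Agent.Lib.MP_0dd0d9_ag.Chart

/-!
TASK g0d En4.  Lower bound for the product of the derivatives away from the closest approaches to
the critical points.
-/

namespace Pool.Agent.Lib.MP_0dd0d9_ag

open Polynomial

theorem en4_num {n k h S R G D : ℝ} (hk : 2 ≤ k) (hh : 0 < h) (hn : k ^ 6 ≤ n) (hD : n ≤ D)
    (hS : 0 ≤ S) (hR : R ≤ S)
    (hG : 2 * k ^ 3 * G ≤ R + n * ((2 * k + 1) * h + 2 * h * k ^ 2 + 2 * h) +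
      (k ^ 3) ^ 2 * ((2 * k + 1) * h + 2 * h * k ^ 2 + 2 * h) + 12 * h / D * (n + k ^ 3) ^ 2) :
    G ≤ S / k ^ 2 + 10 * (n * h / k) := by
  have hk0 : 0 < k := by linarith
  have h3 : 1 ≤ k ^ 3 := one_le_pow₀ (by linarith)
  have h36 : k ^ 3 ≤ n := by nlinarith
  have hn0 : 0 < n := by linarith
  have h2 : 4 ≤ k ^ 2 := by nlinarith
  have a1 : (2 * k + 1) * h + 2 * h * k ^ 2 + 2 * h ≤ 4 * k ^ 2 * h := by
    have : 2 * k + 3 ≤ 2 * k ^ 2 := by nlinarith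
    nlinarith
  have a0 : 0 ≤ (2 * k + 1) * h + 2 * h * k ^ 2 + 2 * h := by positivity
  generalize (2 * k + 1) * h + 2 * h * k ^ 2 + 2 * h = t at *
  have a2 : n * t ≤ n * (4 * k ^ 2 * h) := mul_le_mul_of_nonneg_left a1 hn0.le
  have a3 : (k ^ 3) ^ 2 * t ≤ n * (4 * k ^ 2 * h) :=
    mul_le_mul (by rwa [← pow_mul]) a1 a0 hn0.le
  have a4 : 12 * h / D * (n + k ^ 3) ^ 2 ≤ 12 * k ^ 2 * (n * h) := by
    calc 12 * h / D * (n + k ^ 3) ^ 2 ≤ 12 * h / n * (n + n) ^ 2 := by gcongr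
      _ = 12 * 4 * (n * h) := by
        field_simp
        ring
      _ ≤ _ := by gcongr
  have a5 : S ≤ 2 * k * S := by nlinarith
  have e : S / k ^ 2 + 10 * (n * h / k) = (2 * k * S + 20 * k ^ 2 * (n * h)) / (2 * k ^ 3) := by
    field_simp
    ring
  rw [e, le_div_iff₀' (by positivity)]
  linarith

theorem en4_one {K : Type} [NormedField K] [IsUltrametricDist K] [IsAlgClosed K] {d : ℕ}
    {F : Mp K} {h : ℝ} {H : V K → ℝ} (hG : Good d F h) (hE : IsEsc d F h H) (hN : Res0 K)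
    (hd : 2 ≤ d) (hh : 0 < h) {ϖ : K} (hϖ : ‖ϖ‖ = Real.exp (-h)) {n : ℕ} [NeZero n] {k : ℕ}
    (hk : 2 ≤ k) (hkn : k ^ 6 ≤ n) (hnk : n ≤ 2 ^ k) {p z : ZMod n → V K} (hC : Cyc d F p z)
    {c : V K} (hc : c ≠ 0) {m : ZMod n} (hm : ∀ i, del (p m) c ≤ del (p i) c)
    {J : Finset (ZMod n)} (hJ : m ∈ J) :
    (∀ i, i ∉ J → wedge (p i) c ≠ 0) ∧
      (Jᶜ.card : ℝ) * H c - (2 * (sbig d F h k p z / k ^ 2) + 10 * (n * h / k) + 2 * h * J.card) ≤
        ∑ i ∈ Jᶜ, Real.log ‖wedge (p i) c‖ := by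
  have hk2 : k ^ 2 ≤ n := (Nat.pow_le_pow_right (by omega) (by norm_num)).trans hkn
  have hn2 : 2 ≤ n := le_trans (by nlinarith) hk2
  have hp := hC.ne_zero hn2
  have hH := hC.esc_zero hE hG hd hn2
  have hkr : (2 : ℝ) ≤ k := by exact_mod_cast hk
  have h1 : ∀ i, i ∉ J → 0 < del (p i) (p m) ∧ del (p i) (p m) ≤ del (p i) c := fun i hi =>
    ⟨del_pos (hC.dist i m fun e => hi (e ▸ hJ)),
      (del_ultra (p i) hc (p m)).trans (max_le le_rfl (del_comm c (p m) ▸ hm i))⟩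
  have h2 : ∀ i, i ∉ J → wedge (p i) c ≠ 0 := fun i hi e => by
    have := (h1 i hi).1.trans_le (h1 i hi).2
    simp [del, e] at this
  refine ⟨h2, ?_⟩
  obtain ⟨T, hT⟩ : ∃ T : ℝ, T = (2 * k + 1) * h + 2 * h * (k ^ 2 : ℕ) := ⟨_, rfl⟩
  have hT0 : 2 * h * k < T := by
    have : (0 : ℝ) ≤ 2 * h * (k ^ 2 : ℕ) := by positivity
    rw [hT]
    linarith
  have hT1 : 0 ≤ T := le_trans (by positivity) hT0.le
  obtain ⟨b1, b2, -⟩ := sbig_bounds hG hE hN hd hh hϖ hn2 hnk hC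
  have b0 := exc_nonneg ((2 * k + 1) * h) Finset.univ p
  have b3 := shift_bound hG hN hd hC ((2 * k + 1) * h) hk2 m
  rw [← hT] at b3
  have b4 := crit_test hG hE hN hd k (ϖ := ϖ ^ (2 * k + 1 + 2 * k ^ 2)) (T := T) (by
    rw [norm_pow, hϖ, ← Real.exp_nat_mul, hT]
    exact congrArg Real.exp (by push_cast; ring)) hT0 p hp hH hC.dist hc
    (γ := (k : ℝ) ^ 3) (by positivity)
  rw [ZMod.card] at b4
  have b5 : ∑ i, gT H T (p i) c ≤ sbig d F h k p z / k ^ 2 + 10 * (n * h / k) := by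
    have : (0 : ℝ) ≤ n * ((2 * k + 15) * h) := by positivity
    refine en4_num (R := sraw Finset.univ p) (D := (d : ℝ) ^ k) hkr hh (by exact_mod_cast hkn)
      (by exact_mod_cast hnk.trans (Nat.pow_le_pow_left hd k)) (by linarith) (by linarith) ?_
    rw [hT, Nat.cast_pow] at b4
    rw [hT, Nat.cast_pow]
    exact b4
  have b6 : ∑ i ∈ Jᶜ, max 0 (-Real.log (del (p i) c) - T) ≤ sbig d F h k p z / k ^ 2 := by
    rw [le_div_iff₀' (by positivity), ← Nat.cast_pow]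
    refine le_trans (mul_le_mul_of_nonneg_left ?_ (Nat.cast_nonneg _)) (b3.trans (b1.trans b2))
    refine le_trans (Finset.sum_le_sum fun i hi => ?_) (Finset.sum_le_sum_of_subset_of_nonneg
      (fun i hi => Finset.mem_erase.2 ⟨fun e => Finset.mem_compl.1 hi (e ▸ hJ), Finset.mem_univ _⟩)
      fun i _ _ => le_max_left _ _)
    obtain ⟨k1, k2⟩ := h1 i (Finset.mem_compl.1 hi)
    exact max_le_max le_rfl (by linarith [Real.log_le_log k1 k2])
  have b7 : ∑ i ∈ J, -(2 * h) ≤ ∑ i ∈ J, gT H T (p i) c := Finset.sum_le_sum fun i _ => by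
    have k1 := (abs_le.1 (hE.bd _ (hp i))).1
    have k2 := (abs_le.1 (hE.bd _ hc)).1
    have k3 := KT_nonneg hT1 (p i) c
    unfold gT
    linarith
  rw [Finset.sum_const, nsmul_eq_mul] at b7
  rw [← Finset.sum_add_sum_compl J] at b5
  have b8 : ∑ i ∈ Jᶜ, Real.log ‖wedge (p i) c‖ =
      ∑ i ∈ Jᶜ, (H c - gT H T (p i) c - max 0 (-Real.log (del (p i) c) - T)) :=
    Finset.sum_congr rfl fun i hi => by
      have k1 := h2 i (Finset.mem_compl.1 hi)
      have k2 := log_del k1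
      rw [gT, KT_eq T k1, hH i]
      linarith
  rw [b8, Finset.sum_sub_distrib, Finset.sum_sub_distrib, Finset.sum_const, nsmul_eq_mul]
  linarith

/-- For each `c = cr a` let `i c` minimise `del (p i) c` and let `J` be the set of these indices.
For `i ≠ i c`, `del (p i) (p (i c)) ≤ del (p i) c` (`del_ultra`), so `wedge (p i) c ≠ 0`.
Write `g i c = -log ‖wedge (p i) c‖ + H c`, so `log ‖Dj (p i)‖ = L - ∑ c, g i c` with
`L = ∑ H (cr a) ≤ 2 d h` (`Good.Dj_le`, `prod_norm_le`), and `-2 h ≤ gT ≤ g`.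
With `β = k ^ 2`, `T' = (2 k + 1) h + 2 h β`, `γ = k ^ 3`:
`g i c = gT H T' (p i) c + max 0 (-log (del (p i) c) - T')`; the sum of the second terms over
`i ≠ i c` is at most `S / β` (`shift_bound`, `sbig_bounds`), the sum of the first terms is bounded
by `crit_test`.  Finally `k ^ 6 ≤ n` and `1 ≤ n / k`. -/
theorem lam_lower (d : ℕ) (hd : 2 ≤ d) : ∃ C0 : ℝ, 0 < C0 ∧
    ∀ {K : Type} [NormedField K] [IsUltrametricDist K] [IsAlgClosed K] {F : Mp K} {h : ℝ}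
      {H : V K → ℝ}, Good d F h → IsEsc d F h H → Res0 K → 0 < h →
      ∀ {ϖ : K}, ‖ϖ‖ = Real.exp (-h) →
      ∀ (cr : Fin (2 * d - 2) → V K), (∀ a, cr a ≠ 0) →
      (∀ x, Dj d F x = ∏ a, wedge x (cr a)) →
      ∀ {n : ℕ} [NeZero n] {k : ℕ}, 2 ≤ k → k ^ 20 ≤ n → n ≤ 2 ^ k →
      ∀ {p z : ZMod n → V K}, Cyc d F p z →
      ∃ J : Finset (ZMod n), J.Nonempty ∧ J.card ≤ 2 * d - 2 ∧ (∀ i, i ∉ J → Dj d F (p i) ≠ 0) ∧
        n * (∑ a, H (cr a)) - C0 * (n * h / k + sbig d F h k p z / k ^ 2) ≤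
          ∑ i ∈ Jᶜ, Real.log ‖Dj d F (p i)‖ := by
  obtain ⟨e, he⟩ : ∃ e : ℝ, e = (2 * d - 2 : ℕ) := ⟨_, rfl⟩
  have he2 : (2 : ℝ) ≤ e := by
    rw [he]
    exact_mod_cast (by omega : 2 ≤ 2 * d - 2)
  refine ⟨e * (2 + e) + 10 * e + 2 * e ^ 2, by positivity, ?_⟩
  intro K _ _ _ F h H hG hE hN hh ϖ hϖ cr hcr hD n _ k hk hkn hnk p z hC
  have hk6 : k ^ 6 ≤ n := (Nat.pow_le_pow_right (by omega) (by norm_num)).trans hkn
  choose m hm using fun a => Finite.exists_min fun i => del (p i) (cr a)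
  have hJ : ∀ a, m a ∈ Finset.univ.image m := fun a =>
    Finset.mem_image_of_mem m (Finset.mem_univ a)
  have hcard : (Finset.univ.image m).card ≤ 2 * d - 2 := Finset.card_image_le.trans (by simp)
  have key := fun a => en4_one hG hE hN hd hh hϖ hk hk6 hnk hC (hcr a) (hm a) (hJ a)
  refine ⟨Finset.univ.image m, ⟨_, hJ ⟨0, by omega⟩⟩, hcard, fun i hi => ?_, ?_⟩
  · rw [hD]
    exact Finset.prod_ne_zero_iff.2 fun a _ => (key a).1 i hi
  generalize Finset.univ.image m = J at key hcard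
  have h1 : ∑ i ∈ Jᶜ, Real.log ‖Dj d F (p i)‖ =
      ∑ a, ∑ i ∈ Jᶜ, Real.log ‖wedge (p i) (cr a)‖ := by
    rw [Finset.sum_comm]
    refine Finset.sum_congr rfl fun i hi => ?_
    rw [hD, norm_prod, Real.log_prod fun a _ =>
      norm_ne_zero_iff.2 ((key a).1 i (Finset.mem_compl.1 hi))]
  have h2 := Finset.sum_le_sum fun a (_ : a ∈ Finset.univ) => (key a).2
  rw [← h1, Finset.sum_sub_distrib, ← Finset.mul_sum, Finset.sum_const, Finset.card_univ,
    Fintype.card_fin, nsmul_eq_mul, ← he] at h2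
  have h3 : ∑ a, H (cr a) ≤ (2 + e) * h := by
    have k1 := prod_norm_le hN cr (M := Real.exp (2 * h)) fun x hx => by
      simpa [hD, hx] using hG.Dj_le hN (by omega) x
    have k2 := (Real.log_le_iff_le_exp (Finset.prod_pos fun a _ => norm_pos_iff.2 (hcr a))).2 k1
    rw [Real.log_prod fun a _ => norm_ne_zero_iff.2 (hcr a)] at k2
    have k3 := Finset.sum_le_sum fun a (_ : a ∈ Finset.univ) => (abs_le.1 (hE.bd _ (hcr a))).2
    rw [Finset.sum_sub_distrib, Finset.sum_const, Finset.card_univ, Fintype.card_fin,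
      nsmul_eq_mul, ← he] at k3
    linarith
  have h4 : (Jᶜ.card : ℝ) = n - J.card := by
    have := Finset.card_add_card_compl J
    rw [ZMod.card] at this
    exact eq_sub_of_add_eq' (by exact_mod_cast this)
  have h5 : (J.card : ℝ) ≤ e := by
    rw [he]
    exact_mod_cast hcard
  have hk0 : (0 : ℝ) < k := by exact_mod_cast (by omega : 0 < k)
  have h6 : h ≤ n * h / k := by
    rw [le_div_iff₀' hk0]
    exact mul_le_mul_of_nonneg_right (by
      exact_mod_cast (Nat.le_self_pow (by norm_num) k).trans hk6) hh.le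
  have h7 : 0 ≤ sbig d F h k p z / k ^ 2 := by
    have hn2 : 2 ≤ n := hk.trans ((Nat.le_self_pow (by norm_num) k).trans hk6)
    obtain ⟨b1, b2, -⟩ := sbig_bounds hG hE hN hd hh hϖ hn2 hnk hC
    exact div_nonneg ((exc_nonneg _ _ _).trans (b1.trans b2)) (by positivity)
  rw [h4] at h2
  have hJ0 : (0 : ℝ) ≤ J.card := Nat.cast_nonneg _
  generalize (n : ℝ) * h / k = A at *
  generalize sbig d F h k p z / k ^ 2 = B at *
  generalize ∑ a, H (cr a) = L at *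
  generalize (J.card : ℝ) = j at *
  have a1 : j * L ≤ e * ((2 + e) * A) :=
    (mul_le_mul_of_nonneg_left h3 hJ0).trans (by gcongr)
  have a2 : e * (h * j) ≤ e * (A * e) := by gcongr; linarith
  have a3 : 0 ≤ (e * (2 + e) + 8 * e + 2 * e ^ 2) * B := by positivity
  linarith

end Pool.Agent.Lib.MP_0dd0d9_ag
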