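import Pool.Agent.Lib.MP_0dd0d9_ag.Alg2

/-!
TASK g0d HB.  Norm estimates for plane vectors and for maps over an ultrametric field.
-/

namespace Pool.Agent.Lib.MP_0dd0d9_ag

open Polynomial

variable {K : Type*} [NormedField K] [IsUltrametricDist K]

omit [IsUltrametricDist K] in
theorem ResC.res0 (Rc : ResC K (fun x => ‖x‖)) : Res0 K := by
  intro n hn
  have := Rc.norm_cst (n : ℂ) (Nat.cast_ne_zero.mpr hn)
  rwa [map_natCast] at this

omit [IsUltrametricDist K] in
theorem Res0.charZero (hN : Res0 K) : CharZero K := by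
  refine charZero_of_inj_zero fun n hn => ?_
  by_contra h
  have := hN n h
  rw [hn, norm_zero] at this
  exact zero_ne_one this

theorem hb_sub_le (a b : K) : ‖a - b‖ ≤ max ‖a‖ ‖b‖ := by
  rw [sub_eq_add_neg, ← norm_neg b]
  exact IsUltrametricDist.norm_add_le_max a (-b)

omit [IsUltrametricDist K] in
theorem norm_V (x : V K) : ‖x‖ = max ‖x 0‖ ‖x 1‖ := by
  refine le_antisymm ?_ (max_le (norm_le_pi_norm x 0) (norm_le_pi_norm x 1))
  refine (pi_norm_le_iff_of_nonneg (le_max_of_le_left (norm_nonneg _))).mpr ?_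
  intro i
  fin_cases i
  · exact le_max_left _ _
  · exact le_max_right _ _

theorem norm_wedge_le (x y : V K) : ‖wedge x y‖ ≤ ‖x‖ * ‖y‖ := by
  refine (hb_sub_le _ _).trans (max_le ?_ ?_) <;> rw [norm_mul]
  · exact mul_le_mul (norm_le_pi_norm x 0) (norm_le_pi_norm y 1) (norm_nonneg _) (norm_nonneg _)
  · exact mul_le_mul (norm_le_pi_norm x 1) (norm_le_pi_norm y 0) (norm_nonneg _) (norm_nonneg _)

omit [IsUltrametricDist K] in
theorem del_nonneg (x y : V K) : 0 ≤ del x y := by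
  unfold del
  positivity

theorem del_le_one (x y : V K) : del x y ≤ 1 :=
  div_le_one_of_le₀ (norm_wedge_le x y) (by positivity)

omit [IsUltrametricDist K] in
theorem del_comm (x y : V K) : del x y = del y x := by
  rw [del, del, wedge_comm, norm_neg, mul_comm]

omit [IsUltrametricDist K] in
theorem del_self (x : V K) : del x x = 0 := by
  rw [del, wedge_self, norm_zero, zero_div]

omit [IsUltrametricDist K] in
theorem del_pos {x y : V K} (h : wedge x y ≠ 0) : 0 < del x y :=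
  div_pos (norm_pos_iff.mpr h) (mul_pos (norm_pos_iff.mpr (ne_zero_of_wedge_left h))
    (norm_pos_iff.mpr (ne_zero_of_wedge_right h)))

omit [IsUltrametricDist K] in
theorem del_smul_left {s : K} (hs : s ≠ 0) (x y : V K) : del (s • x) y = del x y := by
  rw [del, del, wedge_smul_left, norm_mul, norm_smul, mul_assoc,
    mul_div_mul_left _ _ (norm_ne_zero_iff.mpr hs)]

omit [IsUltrametricDist K] in
theorem del_smul_right {s : K} (hs : s ≠ 0) (x y : V K) : del x (s • y) = del x y := by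
  rw [del_comm, del_smul_left hs, del_comm]

omit [IsUltrametricDist K] in
theorem log_del {x y : V K} (h : wedge x y ≠ 0) :
    Real.log (del x y) = Real.log ‖wedge x y‖ - Real.log ‖x‖ - Real.log ‖y‖ := by
  have hx := norm_ne_zero_iff.mpr (ne_zero_of_wedge_left h)
  have hy := norm_ne_zero_iff.mpr (ne_zero_of_wedge_right h)
  rw [del, Real.log_div (norm_ne_zero_iff.mpr h) (mul_ne_zero hx hy), Real.log_mul hx hy, sub_sub]

omit [IsUltrametricDist K] in
theorem hb_exists_coord (x : V K) : ∃ k, ‖x k‖ = ‖x‖ := by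
  rcases max_choice ‖x 0‖ ‖x 1‖ with h | h
  · exact ⟨0, by rw [norm_V, h]⟩
  · exact ⟨1, by rw [norm_V, h]⟩

omit [IsUltrametricDist K] in
theorem hb_del_zero_left (y : V K) : del 0 y = 0 := by simp [del]

omit [IsUltrametricDist K] in
theorem hb_del_zero_right (x : V K) : del x 0 = 0 := by simp [del]

omit [IsUltrametricDist K] in
theorem hb_norm_wedge_eq {x y : V K} (hx : x ≠ 0) (hy : y ≠ 0) :
    ‖wedge x y‖ = del x y * (‖x‖ * ‖y‖) := by
  rw [del, div_mul_cancel₀ _ (mul_ne_zero (norm_ne_zero_iff.mpr hx) (norm_ne_zero_iff.mpr hy))]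

/-- From `y k * wedge x z = x k * wedge y z + z k * wedge x y` with `‖y k‖ = ‖y‖`. -/
theorem del_ultra (x : V K) {y : V K} (hy : y ≠ 0) (z : V K) :
    del x z ≤ max (del x y) (del y z) := by
  by_cases hx : x = 0
  · rw [hx, hb_del_zero_left]
    exact le_max_of_le_right (del_nonneg _ _)
  by_cases hz : z = 0
  · rw [hz, hb_del_zero_right]
    exact le_max_of_le_left (del_nonneg _ _)
  obtain ⟨k, hk⟩ := hb_exists_coord y
  have e : y k * wedge x z = x k * wedge y z + z k * wedge x y := by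
    fin_cases k <;> simp only [wedge, Fin.zero_eta, Fin.mk_one] <;> ring
  have nx := norm_pos_iff.mpr hx
  have ny := norm_pos_iff.mpr hy
  have nz := norm_pos_iff.mpr hz
  have m0 : 0 ≤ max (del x y) (del y z) := le_max_of_le_left (del_nonneg _ _)
  have h1 : ‖y‖ * ‖wedge x z‖ ≤ ‖y‖ * (max (del x y) (del y z) * (‖x‖ * ‖z‖)) := by
    rw [← hk, ← norm_mul, e, hk]
    refine (IsUltrametricDist.norm_add_le_max _ _).trans (max_le ?_ ?_) <;> rw [norm_mul]
    · rw [hb_norm_wedge_eq hy hz]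
      calc ‖x k‖ * (del y z * (‖y‖ * ‖z‖))
          ≤ ‖x‖ * (max (del x y) (del y z) * (‖y‖ * ‖z‖)) :=
            mul_le_mul (norm_le_pi_norm x k)
              (mul_le_mul_of_nonneg_right (le_max_right _ _) (by positivity))
              (mul_nonneg (del_nonneg _ _) (by positivity)) nx.le
        _ = _ := by ring
    · rw [hb_norm_wedge_eq hx hy]
      calc ‖z k‖ * (del x y * (‖x‖ * ‖y‖))
          ≤ ‖z‖ * (max (del x y) (del y z) * (‖x‖ * ‖y‖)) :=
            mul_le_mul (norm_le_pi_norm z k)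
              (mul_le_mul_of_nonneg_right (le_max_left _ _) (by positivity))
              (mul_nonneg (del_nonneg _ _) (by positivity)) nz.le
        _ = _ := by ring
  rw [del, div_le_iff₀ (mul_pos nx nz)]
  exact le_of_mul_le_mul_left h1 ny

omit [IsUltrametricDist K] in
theorem hb_norm_affine {a : K} (ha : ‖a‖ ≤ 1) : ‖(![a, 1] : V K)‖ = 1 := by
  rw [norm_V]
  simpa using ha

omit [IsUltrametricDist K] in
theorem del_affine {a b : K} (ha : ‖a‖ ≤ 1) (hb : ‖b‖ ≤ 1) : del ![a, 1] ![b, 1] = ‖a - b‖ := by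
  rw [del, hb_norm_affine ha, hb_norm_affine hb]
  simp [wedge]

omit [IsUltrametricDist K] in
/-- Every nonzero vector is a multiple of a vector of norm one. -/
theorem exists_unit_smul {x : V K} (hx : x ≠ 0) :
    ∃ (s : K) (u : V K), s ≠ 0 ∧ ‖u‖ = 1 ∧ x = s • u := by
  obtain ⟨k, hk⟩ := hb_exists_coord x
  have hn : ‖x‖ ≠ 0 := norm_ne_zero_iff.mpr hx
  have hs : x k ≠ 0 := norm_ne_zero_iff.mp (by rw [hk]; exact hn)
  refine ⟨x k, (x k)⁻¹ • x, hs, ?_, ?_⟩
  · rw [norm_smul, norm_inv, hk, inv_mul_cancel₀ hn]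
  · rw [smul_smul, mul_inv_cancel₀ hs, one_smul]

omit [IsUltrametricDist K] in
theorem norm_nat_sub (hN : Res0 K) {s t : ℕ} (h : s ≠ t) : ‖(s : K) - t‖ = 1 := by
  rcases lt_or_gt_of_ne h with h | h
  · rw [norm_sub_rev, ← Nat.cast_sub h.le]
    exact hN _ (by omega)
  · rw [← Nat.cast_sub h.le]
    exact hN _ (by omega)

omit [IsUltrametricDist K] in
theorem norm_nat_le (hN : Res0 K) (s : ℕ) : ‖(s : K)‖ ≤ 1 := by
  by_cases h : s = 0
  · simp [h]
  · exact (hN s h).le

/-- Each pair has at most one bad natural number: if `s ≠ t` were both bad, subtracting gives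
`‖u.2‖ < max`, and then also `‖u.1‖ < max`. -/
theorem exists_nat_generic (hN : Res0 K) (S : Finset (K × K)) (N0 : ℕ) :
    ∃ s : ℕ, N0 ≤ s ∧ ∀ u ∈ S, ‖u.1 + s * u.2‖ = max ‖u.1‖ ‖u.2‖ := by
  have hmul : ∀ (s : ℕ) (b : K), ‖(s : K) * b‖ ≤ ‖b‖ := fun s b => by
    rw [norm_mul]
    exact mul_le_of_le_one_left (norm_nonneg _) (norm_nat_le hN s)
  have hle : ∀ (u : K × K) (s : ℕ), ‖u.1 + s * u.2‖ ≤ max ‖u.1‖ ‖u.2‖ := fun u s =>
    (IsUltrametricDist.norm_add_le_max _ _).trans (max_le_max le_rfl (hmul s _))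
  have hsub : ∀ u : K × K, {s : ℕ | ‖u.1 + s * u.2‖ ≠ max ‖u.1‖ ‖u.2‖}.Subsingleton := by
    intro u s hs t ht
    by_contra hst
    have h1 := lt_of_le_of_ne (hle u s) hs
    have h2 := lt_of_le_of_ne (hle u t) ht
    have h3 : ‖u.2‖ < max ‖u.1‖ ‖u.2‖ := by
      have e : ‖u.2‖ = ‖(u.1 + s * u.2) - (u.1 + t * u.2)‖ := by
        rw [add_sub_add_left_eq_sub, ← sub_mul, norm_mul, norm_nat_sub hN hst, one_mul]
      exact lt_of_eq_of_lt e ((hb_sub_le _ _).trans_lt (max_lt h1 h2))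
    have h4 : ‖u.1‖ < max ‖u.1‖ ‖u.2‖ := by
      have e : ‖u.1‖ = ‖(u.1 + s * u.2) - s * u.2‖ := by rw [add_sub_cancel_right]
      exact lt_of_eq_of_lt e ((hb_sub_le _ _).trans_lt (max_lt h1 ((hmul s _).trans_lt h3)))
    exact lt_irrefl _ (max_lt h4 h3)
  have hfin : (⋃ u ∈ (S : Set (K × K)),
      {s : ℕ | ‖u.1 + s * u.2‖ ≠ max ‖u.1‖ ‖u.2‖}).Finite :=
    S.finite_toSet.biUnion fun u _ => (hsub u).finite
  obtain ⟨s, hs, hs'⟩ := (Set.Ici_infinite N0).exists_notMem_finite hfin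
  refine ⟨s, hs, fun u hu => ?_⟩
  by_contra hne
  exact hs' (Set.mem_biUnion (Finset.mem_coe.mpr hu) hne)

/-- A unit vector in general position with respect to finitely many vectors. -/
theorem exists_unit_generic (hN : Res0 K) {ι : Type*} [Finite ι] (y : ι → V K) (N0 : ℕ) :
    ∃ s : ℕ, N0 ≤ s ∧ ∀ i, ‖wedge ![(s : K), 1] (y i)‖ = ‖y i‖ := by
  classical
  have := Fintype.ofFinite ι
  obtain ⟨s, hs, h⟩ := exists_nat_generic hN
    (Finset.univ.image fun i => (-(y i 0), y i 1)) N0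
  refine ⟨s, hs, fun i => ?_⟩
  have h1 := h _ (Finset.mem_image_of_mem _ (Finset.mem_univ i))
  have e : wedge ![(s : K), 1] (y i) = -(y i 0) + s * y i 1 := by
    simp only [wedge, Matrix.cons_val_zero, Matrix.cons_val_one]
    ring
  rw [e, h1, norm_neg, norm_V]

theorem prod_norm_le (hN : Res0 K) {e : ℕ} (y : Fin e → V K) {M : ℝ}
    (h : ∀ x : V K, ‖x‖ = 1 → ‖∏ i, wedge x (y i)‖ ≤ M) : ∏ i, ‖y i‖ ≤ M := by
  obtain ⟨s, -, hs⟩ := exists_unit_generic hN y 0
  have h1 := h _ (hb_norm_affine (norm_nat_le hN s))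
  rw [norm_prod] at h1
  simpa only [hs] using h1

theorem norm_mulVec_le {g : Matrix (Fin 2) (Fin 2) K} (hg : ∀ i j, ‖g i j‖ ≤ 1) (x : V K) :
    ‖g.mulVec x‖ ≤ ‖x‖ := by
  refine (pi_norm_le_iff_of_nonneg (norm_nonneg _)).mpr fun i => ?_
  change ‖∑ j, g i j * x j‖ ≤ ‖x‖
  refine IsUltrametricDist.norm_sum_le_of_forall_le_of_nonneg (norm_nonneg x) fun j _ => ?_
  rw [norm_mul]
  exact (mul_le_of_le_one_left (norm_nonneg _) (hg i j)).trans (norm_le_pi_norm x j)

/-- Ultrametric Lipschitz bound for products. -/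
theorem hb_prod_sub {ι : Type*} (s : Finset ι) (a b : ι → K) (ρ : ι → ℝ) {δ : ℝ} (hδ : 0 ≤ δ)
    (ha : ∀ i, ‖a i‖ ≤ ρ i) (hb : ∀ i, ‖b i‖ ≤ ρ i) (hab : ∀ i, ‖a i - b i‖ ≤ δ * ρ i) :
    ‖∏ i ∈ s, a i - ∏ i ∈ s, b i‖ ≤ δ * ∏ i ∈ s, ρ i := by
  classical
  have hρ : ∀ i, 0 ≤ ρ i := fun i => (norm_nonneg (a i)).trans (ha i)
  induction s using Finset.induction_on with
  | empty => simpa using hδ
  | insert j s hj ih =>
    rw [Finset.prod_insert hj, Finset.prod_insert hj, Finset.prod_insert hj]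
    have e : a j * ∏ i ∈ s, a i - b j * ∏ i ∈ s, b i
        = a j * (∏ i ∈ s, a i - ∏ i ∈ s, b i) + (a j - b j) * ∏ i ∈ s, b i := by ring
    rw [e]
    refine (IsUltrametricDist.norm_add_le_max _ _).trans (max_le ?_ ?_) <;> rw [norm_mul]
    · exact (mul_le_mul (ha j) ih (norm_nonneg _) (hρ j)).trans (le_of_eq (by ring))
    · have h1 : ‖∏ i ∈ s, b i‖ ≤ ∏ i ∈ s, ρ i := by
        rw [norm_prod]
        exact Finset.prod_le_prod (fun i _ => norm_nonneg _) fun i _ => hb i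
      exact (mul_le_mul (hab j) h1 (norm_nonneg _) (mul_nonneg hδ (hρ j))).trans
        (le_of_eq (by ring))

omit [IsUltrametricDist K] in
/-- The best approximation of `x` by a multiple of `y`. -/
theorem hb_approx (x : V K) {y : V K} (hy : y ≠ 0) :
    ∃ t : K, ‖x - t • y‖ * ‖y‖ = ‖wedge x y‖ := by
  obtain ⟨k, hk⟩ := hb_exists_coord y
  have hs : y k ≠ 0 := norm_ne_zero_iff.mp (by rw [hk]; exact norm_ne_zero_iff.mpr hy)
  refine ⟨x k / y k, ?_⟩
  rw [← hk, mul_comm, ← norm_smul, norm_V]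
  fin_cases k
  · simp only [Fin.zero_eta] at hs ⊢
    have e0 : (y 0 • (x - (x 0 / y 0) • y)) 0 = 0 := by
      simp only [Pi.smul_apply, Pi.sub_apply, smul_eq_mul]
      field_simp
      ring
    have e1 : (y 0 • (x - (x 0 / y 0) • y)) 1 = -wedge x y := by
      simp only [Pi.smul_apply, Pi.sub_apply, smul_eq_mul, wedge]
      field_simp
      ring
    rw [e0, e1, norm_zero, norm_neg, max_eq_right (norm_nonneg _)]
  · simp only [Fin.mk_one] at hs ⊢
    have e0 : (y 1 • (x - (x 1 / y 1) • y)) 0 = wedge x y := by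
      simp only [Pi.smul_apply, Pi.sub_apply, smul_eq_mul, wedge]
      field_simp
    have e1 : (y 1 • (x - (x 1 / y 1) • y)) 1 = 0 := by
      simp only [Pi.smul_apply, Pi.sub_apply, smul_eq_mul]
      field_simp
      ring
    rw [e0, e1, norm_zero, max_eq_left (norm_nonneg _)]

theorem hb_norm_eq_of_sub_lt {x y : V K} (h : ‖x - y‖ < ‖x‖) : ‖y‖ = ‖x‖ := by
  have key : ∀ a b : V K, ‖a - b‖ ≤ max ‖a‖ ‖b‖ := fun a b =>
    (pi_norm_le_iff_of_nonneg (le_max_of_le_left (norm_nonneg _))).mpr fun i =>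
      (hb_sub_le _ _).trans (max_le_max (norm_le_pi_norm a i) (norm_le_pi_norm b i))
  refine le_antisymm ?_ ?_
  · have := key x (x - y)
    rw [sub_sub_cancel] at this
    exact this.trans (max_le le_rfl h.le)
  · have := key (x - y) (-y)
    rw [sub_neg_eq_add, sub_add_cancel, norm_neg] at this
    exact (le_max_iff.mp this).resolve_left (not_le.mpr h)

variable {d : ℕ} {F : Mp K} {h : ℝ}

omit [IsUltrametricDist K] in
theorem Good.ne_zero (hG : Good d F h) (x : V K) (hx : x ≠ 0) : app F x ≠ 0 := by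
  have := norm_pos_iff.mpr hx
  exact norm_pos_iff.mp (lt_of_lt_of_le (by positivity) (hG.low x))

omit [IsUltrametricDist K] in
theorem Good.h_nonneg (hG : Good d F h) : 0 ≤ h := by
  have h1 := (hG.low ![0, 1]).trans (hG.up ![0, 1])
  rw [hb_norm_affine (by simp), one_pow, mul_one, mul_one, Real.exp_le_exp] at h1
  linarith

theorem hb_fib_upper (hN : Res0 K) {M : ℝ} (hup : ∀ x, ‖app F x‖ ≤ M * ‖x‖ ^ d) {z : V K}
    {y : Fin d → V K} {k : Fin d → K} (hf : IsFib F z y k) : ∏ i, ‖y i‖ ≤ M * ‖z‖ := by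
  refine prod_norm_le hN y fun x hx => ?_
  rw [← hf.1 x]
  refine (norm_wedge_le _ _).trans (mul_le_mul_of_nonneg_right ?_ (norm_nonneg _))
  simpa [hx] using hup x

omit [IsUltrametricDist K] in
theorem hb_app_zero (hF : IsHom d F) (hd : 1 ≤ d) : app F 0 = 0 := by
  have := app_smul hF 0 (0 : V K)
  rwa [zero_smul, zero_pow (by omega), zero_smul] at this

omit [IsUltrametricDist K] in
theorem hb_pow_le (hG : Good d F h) (x : V K) : ‖x‖ ^ d ≤ Real.exp h * ‖app F x‖ := by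
  have := mul_le_mul_of_nonneg_left (hG.low x) (Real.exp_pos h).le
  rwa [← mul_assoc, ← Real.exp_add, add_neg_cancel, Real.exp_zero, one_mul] at this

omit [IsUltrametricDist K] in
/-- One vector of the fibre over `app F x` is parallel to `x`. -/
theorem hb_fib_parallel {x : V K} (hx : x ≠ 0) {y : Fin d → V K} {k : Fin d → K}
    (hf : IsFib F (app F x) y k) : ∃ (i : Fin d) (s : K), y i = s • x := by
  have h1 := hf.1 x
  rw [wedge_self] at h1
  obtain ⟨i, -, hi⟩ := Finset.prod_eq_zero_iff.mp h1.symm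
  rw [wedge_comm, neg_eq_zero] at hi
  obtain ⟨s, hs⟩ := exists_smul_of_wedge_eq_zero hx hi
  exact ⟨i, s, hs⟩

theorem Good.fib_upper (hG : Good d F h) (hN : Res0 K) {z : V K} {y : Fin d → V K}
    {k : Fin d → K} (hf : IsFib F z y k) : ∏ i, ‖y i‖ ≤ Real.exp h * ‖z‖ :=
  hb_fib_upper hN hG.up hf

/-- Take a preimage `x` of a unit vector `z'` with `‖wedge z' z‖ = ‖z‖` and evaluate the
factorisation at `x`. -/
theorem Good.fib_lower [IsAlgClosed K] (hG : Good d F h) (hN : Res0 K) (hd : 1 ≤ d) {z : V K}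
    {y : Fin d → V K} {k : Fin d → K} (hf : IsFib F z y k) :
    Real.exp (-h) * ‖z‖ ≤ ∏ i, ‖y i‖ := by
  obtain ⟨s, -, hs⟩ := exists_unit_generic hN (fun _ : Unit => z) 0
  have hu : ‖(![(s : K), 1] : V K)‖ = 1 := hb_norm_affine (norm_nat_le hN s)
  obtain ⟨x, -, hx⟩ := exists_preimage hG.hom hd hG.ne_zero
    (z := ![(s : K), 1]) (norm_ne_zero_iff.mp (by rw [hu]; exact one_ne_zero))
  have h1 : ‖z‖ ≤ ‖x‖ ^ d * ∏ i, ‖y i‖ := by
    rw [← hs (), ← hx, hf.1 x, norm_prod]
    refine (Finset.prod_le_prod (fun i _ => norm_nonneg _)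
      fun i _ => norm_wedge_le x (y i)).trans (le_of_eq ?_)
    rw [Finset.prod_mul_distrib, Finset.prod_const, Finset.card_univ, Fintype.card_fin]
  have h2 := hb_pow_le hG x
  rw [hx, hu, mul_one] at h2
  have h3 : 0 ≤ ∏ i, ‖y i‖ := Finset.prod_nonneg fun i _ => norm_nonneg _
  have h4 := mul_le_mul_of_nonneg_left (h1.trans (mul_le_mul_of_nonneg_right h2 h3))
    (Real.exp_pos (-h)).le
  rwa [← mul_assoc, ← Real.exp_add, neg_add_cancel, Real.exp_zero, one_mul] at h4

/-- Factor `wedge (app F x) (app F y)` by a fibre over `app F y`; one of its vectors is parallel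
to `y`. -/
theorem Good.lip [IsAlgClosed K] (hG : Good d F h) (hN : Res0 K) (hd : 1 ≤ d) (x y : V K) :
    del (app F x) (app F y) ≤ Real.exp (2 * h) * del x y := by
  have h0 : 0 ≤ Real.exp (2 * h) * del x y := mul_nonneg (Real.exp_pos _).le (del_nonneg _ _)
  by_cases hx : x = 0
  · rw [hx, hb_app_zero hG.hom hd, hb_del_zero_left, ← hx]
    exact h0
  by_cases hy : y = 0
  · rw [hy, hb_app_zero hG.hom hd, hb_del_zero_right, ← hy]
    exact h0
  have hFx := hG.ne_zero x hx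
  have hFy := hG.ne_zero y hy
  obtain ⟨Y, k, hY, -, hf⟩ := exists_fib hG.hom hd hG.ne_zero hFy
  obtain ⟨i0, s, hs⟩ := hb_fib_parallel hy hf
  have hs0 : s ≠ 0 := by
    rintro rfl
    exact hY i0 (by rw [hs, zero_smul])
  have h1 : ‖wedge (app F x) (app F y)‖ ≤ del x y * (‖x‖ ^ d * ∏ i, ‖Y i‖) := by
    rw [hf.1 x, norm_prod, ← Finset.mul_prod_erase _ _ (Finset.mem_univ i0)]
    have e : ‖x‖ ^ d * ∏ i, ‖Y i‖ = ‖x‖ * ‖Y i0‖ * ∏ i ∈ Finset.univ.erase i0, ‖x‖ * ‖Y i‖ := by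
      rw [Finset.mul_prod_erase _ (fun i => ‖x‖ * ‖Y i‖) (Finset.mem_univ i0),
        Finset.prod_mul_distrib, Finset.prod_const, Finset.card_univ, Fintype.card_fin]
    have e2 : del x (Y i0) = del x y := by rw [hs, del_smul_right hs0]
    rw [e, ← mul_assoc, hb_norm_wedge_eq hx (hY i0), e2]
    exact mul_le_mul_of_nonneg_left (Finset.prod_le_prod (fun i _ => norm_nonneg _)
      fun i _ => norm_wedge_le x (Y i)) (mul_nonneg (del_nonneg _ _) (by positivity))
  have h2 : ‖x‖ ^ d * ∏ i, ‖Y i‖ ≤ Real.exp h * ‖app F x‖ * (Real.exp h * ‖app F y‖) :=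
    mul_le_mul (hb_pow_le hG x) (hG.fib_upper hN hf)
      (Finset.prod_nonneg fun i _ => norm_nonneg _) (by positivity)
  rw [del, div_le_iff₀ (mul_pos (norm_pos_iff.mpr hFx) (norm_pos_iff.mpr hFy))]
  refine (h1.trans (mul_le_mul_of_nonneg_left h2 (del_nonneg _ _))).trans (le_of_eq ?_)
  rw [two_mul, Real.exp_add]
  ring

theorem Good.lip_iter [IsAlgClosed K] (hG : Good d F h) (hN : Res0 K) (hd : 1 ≤ d) (n : ℕ)
    (x y : V K) :
    del ((app F)^[n] x) ((app F)^[n] y) ≤ Real.exp (2 * h * n) * del x y := by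
  induction n with
  | zero => simp
  | succ n ih =>
    rw [Function.iterate_succ_apply', Function.iterate_succ_apply']
    refine (hG.lip hN hd _ _).trans
      ((mul_le_mul_of_nonneg_left ih (Real.exp_pos _).le).trans (le_of_eq ?_))
    rw [← mul_assoc, ← Real.exp_add]
    congr 2
    push_cast
    ring

/-- Lipschitz bound on the unit ball. -/
theorem hb_app_sub [IsAlgClosed K] (hG : Good d F h) (hN : Res0 K) (hd : 1 ≤ d) {u v : V K}
    (hu : ‖u‖ = 1) (hv : ‖v‖ = 1) : ‖app F u - app F v‖ ≤ ‖u - v‖ * Real.exp h := by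
  refine (pi_norm_le_iff_of_nonneg (by positivity)).mpr fun i => ?_
  by_cases h0 : F i = 0
  · simp only [Pi.sub_apply, app, h0, map_zero, sub_zero, norm_zero]
    positivity
  obtain ⟨r, -, hr⟩ := exists_factor (hG.hom i) hd h0
  have h1 : ∏ j, ‖r j‖ ≤ Real.exp h := by
    refine prod_norm_le hN r fun x hx => ?_
    rw [← hr x]
    refine (norm_le_pi_norm (app F x) i).trans ?_
    simpa [hx] using hG.up x
  simp only [Pi.sub_apply, app, hr]
  refine (hb_prod_sub _ _ _ (fun j => ‖r j‖) (norm_nonneg (u - v)) ?_ ?_ ?_).trans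
    (mul_le_mul_of_nonneg_left h1 (norm_nonneg _))
  · intro j
    simpa [hu] using norm_wedge_le u (r j)
  · intro j
    simpa [hv] using norm_wedge_le v (r j)
  · intro j
    have e : wedge u (r j) - wedge v (r j) = wedge (u - v) (r j) := by
      simp only [wedge, Pi.sub_apply]
      ring
    rw [e]
    exact norm_wedge_le _ _

omit [IsUltrametricDist K] in
theorem hb_log_smul (hG : Good d F h) {s : K} (hs : s ≠ 0) {x : V K} (hx : x ≠ 0) :
    Real.log ‖app F (s • x)‖ - d * Real.log ‖s • x‖ = Real.log ‖app F x‖ - d * Real.log ‖x‖ := by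
  have h1 := norm_ne_zero_iff.mpr hs
  rw [app_smul hG.hom, norm_smul, norm_smul, norm_pow,
    Real.log_mul (pow_ne_zero _ h1) (norm_ne_zero_iff.mpr (hG.ne_zero x hx)),
    Real.log_mul h1 (norm_ne_zero_iff.mpr hx), Real.log_pow]
  ring

/-- Reduce to unit vectors with `‖x - y‖ = del x y`.  Each form is zero or a product of linear
forms with `∏ ‖r i‖ ≤ exp h` (`exists_factor`, `prod_norm_le`), so
`‖app F x - app F y‖ ≤ exp h * ‖x - y‖ < exp (-h) ≤ ‖app F x‖`. -/
theorem Good.norm_stable [IsAlgClosed K] (hG : Good d F h) (hN : Res0 K) (hd : 1 ≤ d) {x y : V K}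
    (hx : x ≠ 0) (hy : y ≠ 0) (hxy : del x y < Real.exp (-(2 * h))) :
    Real.log ‖app F x‖ - d * Real.log ‖x‖ = Real.log ‖app F y‖ - d * Real.log ‖y‖ := by
  obtain ⟨s, u, hs, hu, rfl⟩ := exists_unit_smul hx
  have hu0 : u ≠ 0 := norm_ne_zero_iff.mp (by rw [hu]; exact one_ne_zero)
  rw [del_smul_left hs] at hxy
  obtain ⟨t, ht⟩ := hb_approx u hy
  have e : ‖u - t • y‖ = del u y := by
    rw [del, hu, one_mul, ← ht, mul_div_cancel_right₀ _ (norm_ne_zero_iff.mpr hy)]
  have hh := hG.h_nonneg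
  have hv : ‖t • y‖ = 1 := by
    rw [← hu]
    refine hb_norm_eq_of_sub_lt ?_
    rw [e, hu]
    exact hxy.trans_le (Real.exp_le_one_iff.mpr (by linarith))
  have ht0 : t ≠ 0 := by
    rintro rfl
    simp at hv
  have h1 : ‖app F (t • y)‖ = ‖app F u‖ := by
    refine hb_norm_eq_of_sub_lt ((hb_app_sub hG hN hd hu hv).trans_lt ?_)
    have h2 := hG.low u
    rw [hu, one_pow, mul_one] at h2
    refine lt_of_lt_of_le ?_ h2
    rw [e]
    refine (mul_lt_mul_of_pos_right hxy (Real.exp_pos h)).trans_le (le_of_eq ?_)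
    rw [← Real.exp_add]
    congr 1
    ring
  rw [hb_log_smul hG hs hu0, ← hb_log_smul hG ht0 hy, h1, hu, hv]

theorem hb_up_of_coeff (hF : IsHom d F) {M : ℝ} (hM : 0 ≤ M)
    (hc : ∀ i m, ‖MvPolynomial.coeff m (F i)‖ ≤ M) (x : V K) : ‖app F x‖ ≤ M * ‖x‖ ^ d := by
  refine (pi_norm_le_iff_of_nonneg (by positivity)).mpr fun i => ?_
  rw [app, MvPolynomial.eval_eq']
  refine IsUltrametricDist.norm_sum_le_of_forall_le_of_nonneg (by positivity) fun m hm => ?_
  have hm' : m 0 + m 1 = d := by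
    by_contra hne
    refine MvPolynomial.mem_support_iff.mp hm ((hF i).coeff_eq_zero ?_)
    rwa [Finsupp.degree_eq_sum, Fin.sum_univ_two]
  rw [norm_mul, Fin.prod_univ_two, norm_mul, norm_pow, norm_pow, ← hm', pow_add]
  have a := norm_le_pi_norm x 0
  have b := norm_le_pi_norm x 1
  have c := hc i m
  gcongr

/-- Upper bound from the coefficients.  Lower bound for a unit vector `x`: take the fibre over
`z = app F x`, one vector is `s • x` with scalar `s ^ d`, the others have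
`‖k i‖ * ‖z‖ ≤ exp h0 * ‖y i‖ ^ d`, and `∏ ‖y i‖ ≤ exp h0 * ‖z‖`, `∏ ‖k i‖ = 1`;
this gives `exp (-(2 * d - 1) * h0) ≤ ‖z‖`, and comparing both bounds gives `0 ≤ h0`. -/
theorem good_of_coeff [IsAlgClosed K] (hN : Res0 K) (hF : IsHom d F) (hd : 1 ≤ d)
    (hnz : ∀ x, x ≠ 0 → app F x ≠ 0) (hn : Normal d F) {h0 : ℝ}
    (hc : ∀ i m, ‖MvPolynomial.coeff m (F i)‖ ≤ Real.exp h0) :
    0 ≤ h0 ∧ ∀ h, 2 * d * h0 ≤ h → Good d F h := by
  have hM := Real.exp_pos h0
  have hup := hb_up_of_coeff hF hM.le hc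
  have key : ∀ x : V K, ‖x‖ = 1 → Real.exp h0 ≤ ‖app F x‖ * Real.exp (2 * d * h0) := by
    intro x hx
    have hx0 : x ≠ 0 := norm_ne_zero_iff.mp (by rw [hx]; exact one_ne_zero)
    have hz := hnz x hx0
    have nz := norm_pos_iff.mpr hz
    obtain ⟨y, k, -, -, hf⟩ := exists_fib hF hd hnz hz
    obtain ⟨i0, s, hs⟩ := hb_fib_parallel hx0 hf
    have hk1 : ∏ i, ‖k i‖ = 1 := by
      have := congrArg norm (hn _ y k hz hf)
      rw [norm_pow, norm_one, norm_prod] at this
      exact (pow_eq_one_iff_of_nonneg (Finset.prod_nonneg fun i _ => norm_nonneg _)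
        two_ne_zero).mp this
    have hki : ∀ i, ‖k i‖ * ‖app F x‖ ≤ Real.exp h0 * ‖y i‖ ^ d := fun i => by
      rw [← norm_smul, ← hf.2 i]
      exact hup _
    have hk0 : ‖k i0‖ * ‖app F x‖ = ‖y i0‖ ^ d * ‖app F x‖ := by
      rw [← norm_smul, ← hf.2 i0, hs, app_smul hF, norm_smul, norm_smul, norm_pow, hx, mul_one]
    have h1 : Real.exp h0 * ‖app F x‖ ^ d
        ≤ ‖app F x‖ * (Real.exp h0 ^ d * (∏ i, ‖y i‖) ^ d) := by
      have e1 : ‖app F x‖ ^ d = ∏ i, ‖k i‖ * ‖app F x‖ := by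
        rw [Finset.prod_mul_distrib, hk1, one_mul, Finset.prod_const, Finset.card_univ,
          Fintype.card_fin]
      have e2 : Real.exp h0 ^ d * (∏ i, ‖y i‖) ^ d = ∏ i, Real.exp h0 * ‖y i‖ ^ d := by
        rw [Finset.prod_mul_distrib, Finset.prod_const, Finset.card_univ, Fintype.card_fin,
          Finset.prod_pow]
      rw [e1, e2, ← Finset.mul_prod_erase _ _ (Finset.mem_univ i0),
        ← Finset.mul_prod_erase _ (fun i => Real.exp h0 * ‖y i‖ ^ d) (Finset.mem_univ i0), hk0,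
        ← mul_assoc, ← mul_assoc ‖app F x‖]
      refine mul_le_mul (le_of_eq (by ring))
        (Finset.prod_le_prod (fun i _ => by positivity) fun i _ => hki i)
        (Finset.prod_nonneg fun i _ => by positivity) (by positivity)
    have h2 : (∏ i, ‖y i‖) ^ d ≤ (Real.exp h0 * ‖app F x‖) ^ d :=
      pow_le_pow_left₀ (Finset.prod_nonneg fun i _ => norm_nonneg _) (hb_fib_upper hN hup hf) d
    have h3 : Real.exp h0 * ‖app F x‖ ^ d
        ≤ ‖app F x‖ * Real.exp (2 * d * h0) * ‖app F x‖ ^ d := by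
      refine (h1.trans (mul_le_mul_of_nonneg_left
        (mul_le_mul_of_nonneg_left h2 (by positivity)) nz.le)).trans (le_of_eq ?_)
      rw [show 2 * (d : ℝ) * h0 = d * h0 + d * h0 by ring, Real.exp_add, Real.exp_nat_mul, mul_pow]
      ring
    exact le_of_mul_le_mul_right h3 (by positivity)
  have hd' : (1 : ℝ) ≤ d := by exact_mod_cast hd
  have h00 : 0 ≤ h0 := by
    have hu : ‖(![0, 1] : V K)‖ = 1 := hb_norm_affine (by simp)
    have h1 := hup ![0, 1]
    rw [hu, one_pow, mul_one] at h1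
    have h2 := (key _ hu).trans (mul_le_mul_of_nonneg_right h1 (Real.exp_pos _).le)
    rw [← Real.exp_add, Real.exp_le_exp] at h2
    by_contra hneg
    nlinarith
  refine ⟨h00, fun h hh => ⟨hF, fun x => ?_, fun x => ?_, hn⟩⟩
  · refine (hup x).trans (mul_le_mul_of_nonneg_right (Real.exp_le_exp.mpr ?_) (by positivity))
    nlinarith
  · by_cases hx : x = 0
    · rw [hx, norm_zero, zero_pow (by omega), mul_zero]
      exact norm_nonneg _
    obtain ⟨s, u, -, hu, rfl⟩ := exists_unit_smul hx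
    rw [app_smul hF, norm_smul, norm_smul, norm_pow, hu, mul_one, mul_comm]
    refine mul_le_mul_of_nonneg_left ?_ (by positivity)
    have h1 := mul_le_mul_of_nonneg_right (key u hu) (Real.exp_pos (-(2 * d * h0))).le
    rw [mul_assoc ‖app F u‖, ← Real.exp_add, ← Real.exp_add, add_neg_cancel, Real.exp_zero, mul_one] at h1
    exact (Real.exp_le_exp.mpr (by linarith)).trans h1

end Pool.Agent.Lib.MP_0dd0d9_ag
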