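import Pool.Agent.Lib.MP_0dd0d9_ag.Defs

/-!
TASK g0d LA.  Ultrametric linear algebra.
-/

namespace Pool.Agent.Lib.MP_0dd0d9_ag

open Polynomial

variable {K : Type*} [NormedField K] [IsUltrametricDist K]

/-- The determinant is bounded by the product of the column bounds (`Matrix.det_apply`). -/
theorem norm_det_le {ι : Type*} [Fintype ι] [DecidableEq ι] (A : Matrix ι ι K) (b : ι → ℝ)
    (h : ∀ i j, ‖A i j‖ ≤ b j) : ‖A.det‖ ≤ ∏ j, b j := by
  have hb : ∀ j, 0 ≤ b j := fun j => (norm_nonneg _).trans (h j j)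
  rw [Matrix.det_apply']
  refine IsUltrametricDist.norm_sum_le_of_forall_le_of_nonneg
    (Finset.prod_nonneg fun j _ => hb j) fun σ _ => ?_
  have hs : ‖((Equiv.Perm.sign σ : ℤ) : K)‖ = 1 := by
    rcases Int.units_eq_one_or (Equiv.Perm.sign σ) with h1 | h1 <;> simp [h1]
  rw [norm_mul, hs, one_mul, norm_prod]
  exact Finset.prod_le_prod (fun j _ => norm_nonneg _) fun j _ => h _ _

omit [IsUltrametricDist K] in
/-- A maximal minor. -/
theorem la_max {ι C : Type*} [Fintype ι] [DecidableEq ι] [Fintype C] (Mx : Matrix ι C K)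
    (κ0 : ι → C) (h0 : (Mx.submatrix id κ0).det ≠ 0) :
    ∃ κ : ι → C, (Mx.submatrix id κ).det ≠ 0 ∧
      ∀ r c, ‖((Mx.submatrix id κ)⁻¹ * Mx) r c‖ ≤ 1 := by
  obtain ⟨κ, -, hκ⟩ := Finset.exists_max_image Finset.univ
    (fun κ : ι → C => ‖(Mx.submatrix id κ).det‖) ⟨κ0, Finset.mem_univ _⟩
  have hpos : 0 < ‖(Mx.submatrix id κ).det‖ :=
    (norm_pos_iff.2 h0).trans_le (hκ κ0 (Finset.mem_univ _))
  have hne : (Mx.submatrix id κ).det ≠ 0 := norm_pos_iff.1 hpos
  refine ⟨κ, hne, fun r c => ?_⟩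
  have h1 := congrFun (Matrix.det_smul_inv_mulVec_eq_cramer (Mx.submatrix id κ)
    (fun i => Mx i c) hne.isUnit) r
  rw [Matrix.cramer_apply] at h1
  have h2 : (Mx.submatrix id κ).updateCol r (fun i => Mx i c) =
      Mx.submatrix id (Function.update κ r c) := by
    ext i j
    rw [Matrix.updateCol_apply, Matrix.submatrix_apply, Matrix.submatrix_apply,
      Function.update_apply]
    split_ifs <;> rfl
  rw [h2] at h1
  have h3 : (Mx.submatrix id κ).det * ((Mx.submatrix id κ)⁻¹ * Mx) r c =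
      (Mx.submatrix id (Function.update κ r c)).det := by
    rw [← h1]
    rfl
  have h4 := hκ (Function.update κ r c) (Finset.mem_univ _)
  rw [← h3, norm_mul] at h4
  exact (mul_le_iff_le_one_right hpos).1 h4

omit [IsUltrametricDist K] in
/-- The determinant of the broken cycle matrix. -/
theorem la_cyc {n : ℕ} [NeZero n] (Dv : ZMod n → K) (J : Finset (ZMod n)) (hJ : J.Nonempty) :
    ‖(Matrix.of fun r i => if i ∈ J then (if r = i + 1 then (1 : K) else 0) else bmat Dv r i).det‖ =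
      ∏ i ∈ Jᶜ, ‖Dv i‖ := by
  obtain ⟨j, hj⟩ := hJ
  rw [Matrix.det_apply', Finset.sum_eq_single (Equiv.addRight (1 : ZMod n))]
  · have hs : ‖((Equiv.Perm.sign (Equiv.addRight (1 : ZMod n)) : ℤ) : K)‖ = 1 := by
      rcases Int.units_eq_one_or (Equiv.Perm.sign (Equiv.addRight (1 : ZMod n))) with h1 | h1 <;>
        simp [h1]
    rw [norm_mul, hs, one_mul, norm_prod, ← Finset.prod_mul_prod_compl J,
      Finset.prod_eq_one (s := J), one_mul]
    · refine Finset.prod_congr rfl fun i hi => ?_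
      have hi' : i ∉ J := Finset.mem_compl.1 hi
      have hne : i + 1 ≠ i := by
        intro h
        have h1 : (1 : ZMod n) = 0 := by simpa using h
        have : i = j := by rw [← one_mul i, ← one_mul j, h1, zero_mul, zero_mul]
        exact hi' (this ▸ hj)
      simp [hi', bmat, hne]
    · intro i hi
      simp [hi]
  · intro σ _ hσ
    by_contra hne
    have hp : ∀ i, (if i ∈ J then (if σ i = i + 1 then (1 : K) else 0) else bmat Dv (σ i) i) ≠ 0 := by
      intro i h
      exact hne (mul_eq_zero_of_right _ (Finset.prod_eq_zero (Finset.mem_univ i) h))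
    have h1 : ∀ i, σ i = i ∨ σ i = i + 1 := by
      intro i
      by_contra h
      rw [not_or] at h
      apply hp i
      simp [bmat, h.1, h.2]
    have h2 : σ j = j + 1 := by
      by_contra h
      apply hp j
      simp [hj, h]
    have h3 : ∀ k : ℕ, σ (j + k) = j + k + 1 := by
      intro k
      induction k with
      | zero => simpa using h2
      | succ k ih =>
        push_cast
        rw [← add_assoc]
        rcases h1 (j + k + 1) with h | h
        · have : j + k + 1 = j + k := σ.injective (h.trans ih.symm)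
          rw [h]
          exact (congrArg (· + 1) this).symm
        · exact h
    apply hσ
    ext i
    have := h3 (i - j).val
    rw [ZMod.natCast_zmod_val, add_sub_cancel] at this
    simpa using this
  · intro h
    exact absurd (Finset.mem_univ _) h

/-- Let `Mx` be the matrix with rows `ZMod n` and columns `ZMod n ⊕ Fin m`, `Mx r (inl i) = bmat r i`,
`Mx r (inr μ) = - ev (r - 1) μ`; `hqc` says that `ε * ‖a i‖` is bounded by any bound for the entries
of `a ᵥ* Mx`, and the vectors `(ξ j, η j)` lie in the kernel of `Mx`.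
If `det bmat = 0` take `a ≠ 0` with `a ᵥ* bmat = 0`; then `∑ μ, η j μ * (∑ i, a (i+1) * ev i μ) = 0`
for all `j`, so all these sums vanish, against `hqc`.
Among all maps `κ` from `ZMod n` to the columns choose one maximising `‖det G‖`, `G = Mx ∘ κ`; by
Cramer all entries of `G⁻¹ * Mx` have norm at most `1`, so `hqc` gives `‖G⁻¹ r i‖ ≤ 1 / ε`.
Let `Nn` have column `i` equal to column `i` of `bmat` for `i ∉ J` and to the unit vector at `i + 1`
for `i ∈ J`; `‖det Nn‖ = ∏_(i ∉ J) ‖Dv i‖` (in the expansion only the permutation `i ↦ i + 1`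
survives, because `J` is nonempty), and `norm_det_le` for `G⁻¹ * Nn` gives
`‖det Nn‖ * ε ^ card J ≤ ‖det G‖`.  Finally multiply `fromBlocks bmat (-ev) 0 1` by the square matrix
whose first columns are the unit vectors `κ i` and whose last columns are `(ξ j, η j)`: the product
is block triangular with determinant `det G * det η`. -/
theorem la {n : ℕ} [NeZero n] {m : ℕ} (Dv : ZMod n → K) (ev : ZMod n → Fin m → K)
    (ξ : Fin m → ZMod n → K) (η : Matrix (Fin m) (Fin m) K)
    (hrel : ∀ j i, ξ j (i + 1) = Dv i * ξ j i + ∑ μ, η j μ * ev i μ) {ε : ℝ} (hε : 0 < ε)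
    (hqc : ∀ (a : ZMod n → K) (e : ℝ), (∀ i, ‖a i - Dv i * a (i + 1)‖ ≤ e) →
      (∀ μ, ‖∑ i, a (i + 1) * ev i μ‖ ≤ e) → ∀ i, ε * ‖a i‖ ≤ e)
    {τ : ℝ} (hτ : 1 ≤ τ) (hξ : ∀ j i, ‖ξ j i‖ ≤ τ) (hη : ∀ j μ, ‖η j μ‖ ≤ τ)
    (J : Finset (ZMod n)) (hJ : J.Nonempty) (hΘ : η.det ≠ 0) :
    (bmat Dv).det ≠ 0 ∧
      ‖η.det‖ * (∏ i ∈ Jᶜ, ‖Dv i‖) * ε ^ J.card ≤ ‖(bmat Dv).det‖ * τ ^ m := by
  set E : Matrix (ZMod n) (Fin m) K := Matrix.of fun r μ => - ev (r - 1) μ with hE
  set Mx : Matrix (ZMod n) (ZMod n ⊕ Fin m) K := Matrix.fromCols (bmat Dv) E with hMx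
  have hv1 : ∀ (a : ZMod n → K) (i : ZMod n),
      ∑ r, a r * bmat Dv r i = a i - Dv i * a (i + 1) := by
    intro a i
    simp only [bmat, mul_sub, mul_ite, mul_one, mul_zero, Finset.sum_sub_distrib,
      Finset.sum_ite_eq', Finset.mem_univ, if_true]
    ring
  have hv2 : ∀ (a : ZMod n → K) (μ : Fin m),
      ∑ r, a r * E r μ = - ∑ i, a (i + 1) * ev i μ := by
    intro a μ
    rw [← Finset.sum_neg_distrib, ← Equiv.sum_comp (Equiv.addRight (1 : ZMod n))]
    refine Finset.sum_congr rfl fun i _ => ?_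
    simp [hE]
  have hker : ∀ j r, ∑ i, bmat Dv r i * ξ j i + ∑ μ, E r μ * η j μ = 0 := by
    intro j r
    have h1 : ∑ i, bmat Dv r i * ξ j i = ξ j r - Dv (r - 1) * ξ j (r - 1) := by
      have h2 : ∀ i : ZMod n, (r = i + 1) ↔ (r - 1 = i) := fun i => sub_eq_iff_eq_add.symm
      simp only [bmat, sub_mul, ite_mul, one_mul, zero_mul, Finset.sum_sub_distrib, h2,
        Finset.sum_ite_eq, Finset.mem_univ, if_true]
    have h3 := hrel j (r - 1)
    rw [sub_add_cancel] at h3
    have h4 : ∑ μ, E r μ * η j μ = - ∑ μ, η j μ * ev (r - 1) μ := by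
      rw [← Finset.sum_neg_distrib]
      refine Finset.sum_congr rfl fun μ _ => ?_
      simp [hE, mul_comm]
    rw [h1, h4, h3]
    ring
  have hdet : (bmat Dv).det ≠ 0 := by
    intro h0
    obtain ⟨a, ha0, ha⟩ := Matrix.exists_vecMul_eq_zero_iff.2 h0
    have ha1 : ∀ i, ∑ r, a r * bmat Dv r i = 0 := fun i => congrFun ha i
    have hw : η.mulVec (fun μ => ∑ r, a r * E r μ) = 0 := by
      funext j
      have h1 : ∑ r, a r * (∑ i, bmat Dv r i * ξ j i + ∑ μ, E r μ * η j μ) = 0 := by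
        simp [hker]
      simp only [mul_add, Finset.sum_add_distrib, Finset.mul_sum] at h1
      rw [Finset.sum_comm, Finset.sum_comm (f := fun r μ => a r * (E r μ * η j μ))] at h1
      have h2 : ∑ i, ∑ r, a r * (bmat Dv r i * ξ j i) = 0 := by
        refine Finset.sum_eq_zero fun i _ => ?_
        simp only [← mul_assoc]
        rw [← Finset.sum_mul, ha1, zero_mul]
      rw [h2, zero_add] at h1
      rw [Pi.zero_apply, ← h1]
      simp only [Matrix.mulVec, dotProduct, Finset.mul_sum]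
      refine Finset.sum_congr rfl fun μ _ => Finset.sum_congr rfl fun r _ => ?_
      ring
    have hw0 := Matrix.eq_zero_of_mulVec_eq_zero hΘ hw
    apply ha0
    funext i
    have h5 := hqc a 0 (fun i => by rw [← hv1, ha1, norm_zero])
      (fun μ => by
        have := congrFun hw0 μ
        simp only [hv2, Pi.zero_apply, neg_eq_zero] at this
        rw [this, norm_zero]) i
    have h6 : ‖a i‖ ≤ 0 := by
      by_contra h
      exact absurd h5 (not_le.2 (mul_pos hε (not_le.1 h)))
    exact norm_le_zero_iff.1 h6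
  refine ⟨hdet, ?_⟩
  obtain ⟨κ, hG, hκ⟩ := la_max Mx Sum.inl (by
    have : Mx.submatrix id Sum.inl = bmat Dv := by ext r i; simp [hMx]
    rw [this]; exact hdet)
  set G := Mx.submatrix id κ with hGdef
  have hinv : ∀ r i, ε * ‖G⁻¹ r i‖ ≤ 1 := by
    intro r
    refine hqc (G⁻¹ r) 1 (fun i => ?_) (fun μ => ?_)
    · rw [← hv1]
      simpa [Matrix.mul_apply, hMx] using hκ r (Sum.inl i)
    · rw [← norm_neg, ← hv2]
      simpa [Matrix.mul_apply, hMx] using hκ r (Sum.inr μ)
  have hN := la_cyc Dv J hJ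
  set Nn : Matrix (ZMod n) (ZMod n) K :=
    Matrix.of fun r i => if i ∈ J then (if r = i + 1 then (1 : K) else 0) else bmat Dv r i with hNn
  have hGN : ‖(G⁻¹ * Nn).det‖ ≤ ∏ i, (if i ∈ J then ε⁻¹ else 1) := by
    refine norm_det_le _ _ fun r i => ?_
    by_cases hi : i ∈ J
    · have : (G⁻¹ * Nn) r i = G⁻¹ r (i + 1) := by simp [Matrix.mul_apply, hNn, hi]
      rw [this, if_pos hi, ← one_div ε, le_div_iff₀ hε, mul_comm]
      exact hinv r (i + 1)
    · rw [if_neg hi]
      simpa [Matrix.mul_apply, hMx, hNn, hi] using hκ r (Sum.inl i)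
  rw [Finset.prod_ite_mem, Finset.univ_inter, Finset.prod_const, Matrix.det_mul,
    Matrix.det_nonsing_inv, Ring.inverse_eq_inv', norm_mul, norm_inv, hN] at hGN
  have hGpos : 0 < ‖G.det‖ := norm_pos_iff.2 hG
  have hA : (∏ i ∈ Jᶜ, ‖Dv i‖) * ε ^ J.card ≤ ‖G.det‖ := by
    rw [inv_pow, inv_mul_le_iff₀ hGpos, ← div_eq_mul_inv, le_div_iff₀ (pow_pos hε _)] at hGN
    exact hGN
  set U : Matrix (ZMod n ⊕ Fin m) (ZMod n ⊕ Fin m) K := Matrix.of fun c c' =>
    Sum.elim (fun i => if c = κ i then (1 : K) else 0)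
      (fun j => Sum.elim (fun i => ξ j i) (fun μ => η j μ) c) c' with hU
  have hTU : Matrix.fromBlocks (bmat Dv) E 0 1 * U =
      Matrix.fromBlocks G 0 (Matrix.of fun μ i => if Sum.inr μ = κ i then (1 : K) else 0)
        η.transpose := by
    ext c c'
    rcases c with r | μ <;> rcases c' with i | j
    · have : ∀ c, Matrix.fromBlocks (bmat Dv) E 0 (1 : Matrix (Fin m) (Fin m) K) (Sum.inl r) c =
          Mx r c := by
        intro c; rcases c with c | c <;> simp [hMx]
      simp [Matrix.mul_apply, hU, this, hGdef]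
    · simpa [Matrix.mul_apply, hU, Fintype.sum_sum_type] using hker j r
    · have : ∀ c, Matrix.fromBlocks (bmat Dv) E 0 (1 : Matrix (Fin m) (Fin m) K) (Sum.inr μ) c =
          if Sum.inr μ = c then 1 else 0 := by
        intro c; rcases c with c | c <;> simp [Matrix.one_apply]
      simp [Matrix.mul_apply, hU, this]
    · simp [Matrix.mul_apply, hU, Fintype.sum_sum_type, Matrix.one_apply]
  have hdetU : ‖U.det‖ ≤ τ ^ m := by
    refine (norm_det_le U (Sum.elim (fun _ => 1) (fun _ => τ)) fun c c' => ?_).trans (le_of_eq ?_)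
    · rcases c' with i | j
      · simp only [hU, Matrix.of_apply, Sum.elim_inl]
        split_ifs <;> simp
      · rcases c with i | μ
        · simpa [hU] using hξ j i
        · simpa [hU] using hη j μ
    · simp [Fintype.prod_sum_type]
  have h7 := congrArg (fun M => ‖Matrix.det M‖) hTU
  simp only [Matrix.det_mul, Matrix.det_fromBlocks_zero₂₁, Matrix.det_fromBlocks_zero₁₂,
    Matrix.det_one, mul_one, Matrix.det_transpose, norm_mul] at h7
  calc ‖η.det‖ * (∏ i ∈ Jᶜ, ‖Dv i‖) * ε ^ J.card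
      = ‖η.det‖ * ((∏ i ∈ Jᶜ, ‖Dv i‖) * ε ^ J.card) := mul_assoc _ _ _
    _ ≤ ‖η.det‖ * ‖G.det‖ := mul_le_mul_of_nonneg_left hA (norm_nonneg _)
    _ = ‖(bmat Dv).det‖ * ‖U.det‖ := by rw [h7, mul_comm]
    _ ≤ ‖(bmat Dv).det‖ * τ ^ m := mul_le_mul_of_nonneg_left hdetU (norm_nonneg _)

end Pool.Agent.Lib.MP_0dd0d9_ag
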