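import Pool.Agent.Lib.MP_0dd0d9_ag.QCW
import Pool.Agent.Lib.MP_0dd0d9_ag.En4
import Pool.Agent.Lib.MP_0dd0d9_ag.LA

/-!
TASK g0d Loc.  The local inequality.
-/

namespace Pool.Agent.Lib.MP_0dd0d9_ag

open Polynomial

/-- Combine `la`, `qc` and `lam_lower`; `sbig / k ^ 2 ≤ stot / k ^ 2 + 51 n h / k`, and
`0 ≤ sbig` by `sbig_bounds` and `exc_nonneg`. -/
theorem loc (d : ℕ) (hd : 2 ≤ d) : ∃ (C0 C1 : ℝ) (k0 : ℕ), 0 < C0 ∧ 0 < C1 ∧
    ∀ {K : Type} [NormedField K] [IsUltrametricDist K] [IsAlgClosed K]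
      (_Tr : Transfer K (fun x => ‖x‖)) {F : Mp K} {h : ℝ} {H : V K → ℝ},
      Good d F h → IsEsc d F h H → 0 < h → ∀ {ϖ : K}, ‖ϖ‖ = Real.exp (-h) →
      ∀ (cr : Fin (2 * d - 2) → V K), (∀ a, cr a ≠ 0) →
      (∀ x, Dj d F x = ∏ a, wedge x (cr a)) →
      ∀ {n : ℕ} [NeZero n] {k : ℕ}, k0 ≤ k → k ^ 20 ≤ n → n ≤ 2 ^ k →
      ∀ {p z : ZMod n → V K}, Cyc d F p z →
      ∀ (ξ : Fin (2 * d + 1) → ZMod n → K) (η : Matrix (Fin (2 * d + 1)) (Fin (2 * d + 1)) K),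
      (∀ j i, ξ j (i + 1) = Dj d F (p i) * ξ j i +
        ∑ μ, η j μ * (p i 0 ^ μ.val * p i 1 ^ (2 * d - μ.val))) →
      ∀ {τ : ℝ}, 1 ≤ τ → (∀ j i, ‖ξ j i‖ ≤ τ) → (∀ j μ, ‖η j μ‖ ≤ τ) → η.det ≠ 0 →
      (bmat fun i => Dj d F (p i)).det ≠ 0 ∧
        Real.log ‖η.det‖ ≤ Real.log ‖(bmat fun i => Dj d F (p i)).det‖ - n * (∑ a, H (cr a)) +
          C1 * (n * h / k) + C0 * (stot d F k p z / k ^ 2) + (2 * d + 1) * Real.log τ := by
  obtain ⟨Cq, k0, hCq, hqc⟩ := qc d hd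
  obtain ⟨Cl, hCl, hlam⟩ := lam_lower d hd
  have hd0 : (2 : ℝ) ≤ d := by exact_mod_cast hd
  refine ⟨Cl + 2 * d * Cq, 52 * (Cl + 2 * d * Cq), max k0 2, by positivity, by positivity, ?_⟩
  intro K _ _ _ Tr F h H hG hE hh ϖ hϖ cr hcr0 hcr n _ k hk hk20 hnk p z hC ξ η hrel τ hτ hξ hη hΘ
  have hk2 : 2 ≤ k := (le_max_right _ _).trans hk
  have hN : Res0 K := Tr.toResC.res0
  have hn2 : 2 ≤ n := by
    have : 2 ^ 20 ≤ k ^ 20 := Nat.pow_le_pow_left hk2 20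
    omega
  obtain ⟨J, hJ, hJc, hJD, hJl⟩ := hlam hG hE hN hh hϖ cr hcr0 hcr hk2 hk20 hnk hC
  set E : ℝ := n * h / k + sbig d F h k p z / k ^ 2 with hEdef
  have hsb : 0 ≤ sbig d F h k p z := by
    obtain ⟨a1, a2, -⟩ := sbig_bounds hG hE hN hd hh hϖ hn2 hnk hC
    exact ((exc_nonneg _ _ _).trans a1).trans a2
  have hkp : (0 : ℝ) < k := by exact_mod_cast (by omega : 0 < k)
  have hE0 : 0 ≤ E := by positivity
  obtain ⟨hdet, hle⟩ := la (fun i => Dj d F (p i))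
    (fun i (μ : Fin (2 * d + 1)) => p i 0 ^ μ.val * p i 1 ^ (2 * d - μ.val)) ξ η hrel
    (ε := Real.exp (-(Cq * E))) (Real.exp_pos _)
    (fun a e h1 h2 i => hqc Tr hG hE hh hϖ cr hcr0 hcr ((le_max_left _ _).trans hk) hk20 hnk hC a e
      h1 (fun μ hμ => h2 ⟨μ, Nat.lt_succ_of_le hμ⟩) i) hτ hξ hη J hJ hΘ
  refine ⟨hdet, ?_⟩
  have hP : 0 < ∏ i ∈ Jᶜ, ‖Dj d F (p i)‖ :=
    Finset.prod_pos fun i hi => norm_pos_iff.2 (hJD i (Finset.mem_compl.1 hi))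
  have hΘp : 0 < ‖η.det‖ := norm_pos_iff.2 hΘ
  have hdp : 0 < ‖(bmat fun i => Dj d F (p i)).det‖ := norm_pos_iff.2 hdet
  have hτp : 0 < τ := by linarith
  have hlog := Real.log_le_log (by positivity) hle
  rw [Real.log_mul (by positivity) (by positivity), Real.log_mul hΘp.ne' hP.ne',
    Real.log_mul hdp.ne' (by positivity), Real.log_pow, Real.log_pow, Real.log_exp,
    Real.log_prod (fun i hi => (norm_pos_iff.2 (hJD i (Finset.mem_compl.1 hi))).ne')] at hlog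
  have hJc' : (J.card : ℝ) ≤ 2 * d := by
    have : J.card ≤ 2 * d := by omega
    exact_mod_cast this
  have h1 : (J.card : ℝ) * (Cq * E) ≤ 2 * d * (Cq * E) :=
    mul_le_mul_of_nonneg_right hJc' (by positivity)
  have h2 : E ≤ 52 * (n * h / k) + stot d F k p z / k ^ 2 := by
    rw [hEdef, sbig, add_div]
    have hk1 : (1 : ℝ) ≤ k := by exact_mod_cast (by omega : 1 ≤ k)
    have : 3 * n * ((2 * k + 15) * h) / (k : ℝ) ^ 2 ≤ 51 * (n * h / k) := by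
      rw [div_le_iff₀ (by positivity)]
      have e : 51 * (n * h / k) * (k : ℝ) ^ 2 = 3 * n * ((17 * k) * h) := by field_simp; ring
      rw [e]
      gcongr
      linarith
    linarith
  have h3 : (Cl + 2 * d * Cq) * E ≤
      (Cl + 2 * d * Cq) * (52 * (n * h / k) + stot d F k p z / k ^ 2) :=
    mul_le_mul_of_nonneg_left h2 (by positivity)
  push_cast at hlog
  linarith

end Pool.Agent.Lib.MP_0dd0d9_ag
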