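import Mathlib

/-!
TASK g0d Pig.  A pigeonhole lemma for nested equivalence relations.
-/

namespace Pool.Agent.Lib.MP_0dd0d9_ag

open Classical in
/-- Counting the points of a class through the heavy subclasses. -/
theorem pig_fiber {ι Y : Type*} [Fintype ι] (a b : ι → Y) (par : Y → Y) (H : Finset Y) (Q : Y)
    (hab : ∀ i, par (b i) = a i) (h : ∀ i, a i = Q → b i ∈ H) :
    (Finset.univ.filter fun i => a i = Q).card ≤
      ∑ Q' ∈ H.filter (fun Q' => par Q' = Q), (Finset.univ.filter fun i => b i = Q').card := by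
  rw [Finset.card_eq_sum_card_fiberwise (f := b) (t := H.filter (fun Q' => par Q' = Q))]
  · refine Finset.sum_le_sum fun Q' _ => Finset.card_le_card fun i hi => ?_
    simp only [Finset.mem_filter] at hi ⊢
    exact ⟨hi.1.1, hi.2⟩
  · intro i hi
    simp only [Finset.coe_filter, Finset.mem_univ, true_and, Set.mem_ofPred_eq] at hi ⊢
    exact ⟨h i hi, (hab i).trans hi⟩

open Classical in
/-- Suppose the conclusion fails.  For a class `Q` at level `l` let `I Q`, `Z Q` be the numbers of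
`p i`, `z i` in it, and `Y l` the sum of `min (I Q) (Z Q)` over heavy classes (only classes meeting
the finite set of all `p i`, `z i` matter).  `Y 0 = N`, `Y M = 0`, and `Y l ≤ Y (l + 1) + q * ε`:
in a class at level `l < M` either all `p i` or all `z i` are heavy at level `l + 1`. -/
theorem pig {X : Type*} (r : ℕ → X → X → Prop) (hr : ∀ l, Equivalence (r l))
    (hnest : ∀ l x y, r (l + 1) x y → r l x y) (hr0 : ∀ x y, r 0 x y) (Hv : ℕ → X → Prop)
    (hinv : ∀ l x y, r l x y → Hv l x → Hv l y) (M q : ℕ)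
    (hq : ∀ l, 1 ≤ l → l ≤ M → ∀ s : Finset X, (∀ x ∈ s, Hv l x) →
      (∀ x ∈ s, ∀ y ∈ s, x ≠ y → ¬ r l x y) → s.card ≤ q)
    {N : ℕ} (p z : Fin N → X) {ε : ℝ}
    (hε : ∀ l, 1 ≤ l → l ≤ M → ∀ u, (u ∈ Set.range p ∨ u ∈ Set.range z) →
      |((Finset.univ.filter fun i => r l (p i) u).card : ℝ) -
        ((Finset.univ.filter fun i => r l (z i) u).card : ℝ)| ≤ ε)
    (hN : (M : ℝ) * q * ε < N) (hε0 : 0 ≤ ε) :
    ∃ m j l, l ≤ M ∧ r l (p m) (z j) ∧
      (l = M ∨ (¬ Hv (l + 1) (p m) ∧ ¬ Hv (l + 1) (z j))) := by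
  by_contra hcon
  have hpos : 0 < N := by
    have : (0 : ℝ) ≤ M * q * ε := by positivity
    exact_mod_cast this.trans_lt hN
  have : Nonempty X := ⟨p ⟨0, hpos⟩⟩
  have hc : ∀ m j l, l ≤ M → r l (p m) (z j) →
      l ≠ M ∧ (Hv (l + 1) (p m) ∨ Hv (l + 1) (z j)) := by
    intro m j l hl h
    refine ⟨fun e => hcon ⟨m, j, l, hl, h, Or.inl e⟩, ?_⟩
    by_contra h2
    rw [not_or] at h2
    exact hcon ⟨m, j, l, hl, h, Or.inr h2⟩
  let c : ℕ → X → Set X := fun l x => {y | r l x y}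
  have hcr : ∀ l x y, c l x = c l y ↔ r l x y := by
    intro l x y
    constructor
    · intro e
      have : y ∈ c l y := (hr l).refl y
      rw [← e] at this
      exact this
    · intro h
      ext w
      exact ⟨fun a => (hr l).trans ((hr l).symm h) a, fun a => (hr l).trans h a⟩
  let T : ℕ → Finset (Set X) := fun l =>
    Finset.univ.image (fun i => c l (p i)) ∪ Finset.univ.image (fun i => c l (z i))
  have hTp : ∀ l i, c l (p i) ∈ T l := fun l i =>
    Finset.mem_union_left _ (Finset.mem_image_of_mem _ (Finset.mem_univ i))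
  have hTz : ∀ l i, c l (z i) ∈ T l := fun l i =>
    Finset.mem_union_right _ (Finset.mem_image_of_mem _ (Finset.mem_univ i))
  have hT : ∀ l, ∀ Q ∈ T l, ∃ u, (u ∈ Set.range p ∨ u ∈ Set.range z) ∧ c l u = Q := by
    intro l Q hQ
    rcases Finset.mem_union.1 hQ with h | h
    · obtain ⟨i, -, e⟩ := Finset.mem_image.1 h
      exact ⟨p i, Or.inl ⟨i, rfl⟩, e⟩
    · obtain ⟨i, -, e⟩ := Finset.mem_image.1 h
      exact ⟨z i, Or.inr ⟨i, rfl⟩, e⟩
  let I : ℕ → Set X → ℕ := fun l Q => (Finset.univ.filter fun i => c l (p i) = Q).card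
  let Z : ℕ → Set X → ℕ := fun l Q => (Finset.univ.filter fun i => c l (z i) = Q).card
  let Y : ℕ → ℝ := fun l => ∑ Q ∈ T l, min (I l Q : ℝ) (Z l Q)
  have hstep : ∀ l, l < M → Y l ≤ Y (l + 1) + q * ε := by
    intro l hl
    let H : Finset (Set X) := (T (l + 1)).filter fun Q => ∃ x ∈ Q, Hv (l + 1) x
    let par : Set X → Set X := fun Q => {y | ∃ x ∈ Q, r l x y}
    have hpar : ∀ u, par (c (l + 1) u) = c l u := by
      intro u
      ext w
      exact ⟨fun ⟨x, h1, h2⟩ => (hr l).trans (hnest l u x h1) h2,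
        fun a => ⟨u, (hr (l + 1)).refl u, a⟩⟩
    have hH : ∀ u, c (l + 1) u ∈ T (l + 1) → Hv (l + 1) u → c (l + 1) u ∈ H := fun u h1 h2 =>
      Finset.mem_filter.2 ⟨h1, u, (hr (l + 1)).refl u, h2⟩
    have h1 : ∀ Q ∈ T l, min (I l Q : ℝ) (Z l Q) ≤
        ∑ Q' ∈ H.filter (fun Q' => par Q' = Q), max (I (l + 1) Q' : ℝ) (Z (l + 1) Q') := by
      intro Q _
      by_cases hp : ∀ i, c l (p i) = Q → Hv (l + 1) (p i)
      · have := pig_fiber (fun i => c l (p i)) (fun i => c (l + 1) (p i)) par H Q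
          (fun i => hpar _) (fun i hi => hH _ (hTp _ i) (hp i hi))
        refine (min_le_left _ _).trans (le_trans ?_ (Finset.sum_le_sum fun Q' _ => le_max_left _ _))
        exact_mod_cast this
      · obtain ⟨m, hm⟩ := not_forall.1 hp
        obtain ⟨hm1, hm2⟩ := Classical.not_imp.1 hm
        have := pig_fiber (fun i => c l (z i)) (fun i => c (l + 1) (z i)) par H Q
          (fun i => hpar _) (fun i hi => hH _ (hTz _ i)
            ((hc m i l hl.le ((hcr l _ _).1 (hm1.trans hi.symm))).2.resolve_left hm2))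
        refine (min_le_right _ _).trans
          (le_trans ?_ (Finset.sum_le_sum fun Q' _ => le_max_right _ _))
        exact_mod_cast this
    have h2 : ∀ Q ∈ H, par Q ∈ T l := by
      intro Q hQ
      obtain ⟨u, hu, rfl⟩ := hT _ Q (Finset.mem_filter.1 hQ).1
      rw [hpar]
      rcases hu with ⟨i, rfl⟩ | ⟨i, rfl⟩
      · exact hTp l i
      · exact hTz l i
    have h3 : ∀ Q ∈ H, max (I (l + 1) Q : ℝ) (Z (l + 1) Q) ≤
        min (I (l + 1) Q : ℝ) (Z (l + 1) Q) + ε := by
      intro Q hQ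
      obtain ⟨u, hu, rfl⟩ := hT _ Q (Finset.mem_filter.1 hQ).1
      have := hε (l + 1) (by omega) hl u hu
      simp only [← hcr] at this
      rw [← max_sub_min_eq_abs'] at this
      simp only [I, Z]
      linarith
    have h4 : H.card ≤ q := by
      have hx : ∀ Q : Set X, Q ∈ H → ∃ x, Hv (l + 1) x ∧ c (l + 1) x = Q := by
        intro Q hQ
        obtain ⟨a, x, hx1, hx2⟩ := Finset.mem_filter.1 hQ
        obtain ⟨u, -, rfl⟩ := hT _ Q a
        exact ⟨x, hx2, ((hcr _ _ _).2 hx1).symm⟩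
      choose! g hg using hx
      have hinj : Set.InjOn g H := fun Q hQ Q' hQ' e => by
        rw [← (hg Q hQ).2, ← (hg Q' hQ').2, e]
      rw [← Finset.card_image_of_injOn hinj]
      refine hq (l + 1) (by omega) hl _ (fun x hx => ?_) (fun x hx y hy xy h => xy ?_)
      · obtain ⟨Q, hQ, rfl⟩ := Finset.mem_image.1 hx
        exact (hg Q hQ).1
      · obtain ⟨Q, hQ, rfl⟩ := Finset.mem_image.1 hx
        obtain ⟨Q', hQ', rfl⟩ := Finset.mem_image.1 hy
        have e : Q = Q' := ((hg Q hQ).2.symm.trans ((hcr _ _ _).2 h)).trans (hg Q' hQ').2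
        rw [e]
    calc Y l ≤ ∑ Q ∈ T l, ∑ Q' ∈ H.filter (fun Q' => par Q' = Q),
          max (I (l + 1) Q' : ℝ) (Z (l + 1) Q') := Finset.sum_le_sum h1
      _ = ∑ Q' ∈ H, max (I (l + 1) Q' : ℝ) (Z (l + 1) Q') := Finset.sum_fiberwise_of_maps_to h2 _
      _ ≤ ∑ Q' ∈ H, (min (I (l + 1) Q' : ℝ) (Z (l + 1) Q') + ε) := Finset.sum_le_sum h3
      _ = ∑ Q' ∈ H, min (I (l + 1) Q' : ℝ) (Z (l + 1) Q') + H.card * ε := by
        rw [Finset.sum_add_distrib, Finset.sum_const, nsmul_eq_mul]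
      _ ≤ Y (l + 1) + q * ε := by
        refine add_le_add (Finset.sum_le_sum_of_subset_of_nonneg (Finset.filter_subset _ _)
          fun Q _ _ => le_min (Nat.cast_nonneg _) (Nat.cast_nonneg _)) ?_
        exact mul_le_mul_of_nonneg_right (by exact_mod_cast h4) hε0
  have hall : ∀ l, l ≤ M → Y 0 ≤ Y l + l * (q * ε) := by
    intro l
    induction l with
    | zero => intro _; simp
    | succ l ih =>
      intro hl
      have := ih (by omega)
      have := hstep l hl
      push_cast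
      linarith
  have hM : Y M = 0 := by
    refine Finset.sum_eq_zero fun Q _ => ?_
    by_cases a : I M Q = 0
    · rw [a]; simp
    by_cases b : Z M Q = 0
    · rw [b]; simp
    exfalso
    obtain ⟨m, hm⟩ := Finset.card_ne_zero.1 a
    obtain ⟨j, hj⟩ := Finset.card_ne_zero.1 b
    exact (hc m j M le_rfl ((hcr M _ _).1
      ((Finset.mem_filter.1 hm).2.trans (Finset.mem_filter.1 hj).2.symm))).1 rfl
  have h0 : (N : ℝ) ≤ Y 0 := by
    refine le_trans ?_ (Finset.single_le_sum (f := fun Q => min (I 0 Q : ℝ) (Z 0 Q))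
      (fun Q _ => le_min (Nat.cast_nonneg _) (Nat.cast_nonneg _)) (hTp 0 ⟨0, hpos⟩))
    simp [I, Z, hcr, hr0]
  have := hall M le_rfl
  linarith

end Pool.Agent.Lib.MP_0dd0d9_ag
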