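import Pool.Agent.Lib.MP_0dd0d9_ag.WD

/-!
TASK g0d Prop.  Propagation of the relation `U / W = 1` along a ray.
-/

namespace Pool.Agent.Lib.MP_0dd0d9_ag

open Polynomial

theorem prop_all {p q : ℂ[X]} (S : Finset ℂ)
    (h : ∀ u, u ∉ S → ‖p.eval u‖ ≤ ‖q.eval u‖) (u : ℂ) : ‖p.eval u‖ ≤ ‖q.eval u‖ := by
  have hd : Dense ((S : Set ℂ)ᶜ) := S.finite_toSet.countable.dense_compl ℂ
  have hc : IsClosed {u : ℂ | ‖p.eval u‖ ≤ ‖q.eval u‖} :=
    isClosed_le p.continuous.norm q.continuous.norm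
  have h1 : closure ((S : Set ℂ)ᶜ) ⊆ {u : ℂ | ‖p.eval u‖ ≤ ‖q.eval u‖} :=
    hc.closure_subset_iff.2 fun u hu => h u hu
  exact h1 (hd u)

/-- A complex rational function bounded by `1` outside a finite set is constant.  Induction on the
degree of `q`: by continuity the bound holds everywhere, so a root of `q` is a root of `p`. -/
theorem eq_C_mul_of_norm_le {p q : ℂ[X]} (hq : q ≠ 0) (S : Finset ℂ)
    (h : ∀ u, u ∉ S → ‖p.eval u‖ ≤ ‖q.eval u‖) : ∃ c : ℂ, p = C c * q := by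
  classical
  induction hn : q.natDegree generalizing p q S with
  | zero =>
    have hall := prop_all S h
    have hq0 : q = C (q.coeff 0) := eq_C_of_natDegree_eq_zero hn
    have hc0 : q.coeff 0 ≠ 0 := by
      intro h0
      apply hq
      rw [hq0, h0, C_0]
    have hb : Bornology.IsBounded (Set.range fun u : ℂ => p.eval u) := by
      rw [isBounded_iff_forall_norm_le]
      refine ⟨‖q.coeff 0‖, ?_⟩
      rintro _ ⟨u, rfl⟩
      have h1 := hall u
      rw [hq0, eval_C] at h1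
      exact h1
    have hp : p = C (p.eval 0) := by
      apply Polynomial.funext
      intro u
      rw [eval_C]
      exact (p.differentiable).apply_eq_apply_of_bounded hb u 0
    refine ⟨p.eval 0 / q.coeff 0, ?_⟩
    rw [hq0, ← C_mul, coeff_C_zero, div_mul_cancel₀ _ hc0]
    exact hp
  | succ n ih =>
    have hall := prop_all S h
    have hdeg : q.degree ≠ 0 := by
      rw [degree_eq_natDegree hq, hn]
      exact_mod_cast Nat.succ_ne_zero n
    obtain ⟨z, hz⟩ := IsAlgClosed.exists_root q hdeg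
    have hpz : p.IsRoot z := by
      have h1 := hall z
      rw [hz.eq_zero, norm_zero] at h1
      exact norm_le_zero_iff.1 h1
    obtain ⟨q1, hq1⟩ := dvd_iff_isRoot.2 hz
    obtain ⟨p1, hp1⟩ := dvd_iff_isRoot.2 hpz
    have hq10 : q1 ≠ 0 := by
      rintro rfl
      exact hq (by rw [hq1, mul_zero])
    have hn1 : q1.natDegree = n := by
      rw [hq1, natDegree_mul (X_sub_C_ne_zero z) hq10, natDegree_X_sub_C] at hn
      omega
    obtain ⟨c, hc⟩ := ih (p := p1) hq10 {z} (by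
      intro u hu
      have h1 := hall u
      rw [hp1, hq1] at h1
      simp only [eval_mul, eval_sub, eval_X, eval_C, norm_mul] at h1
      have h2 : 0 < ‖u - z‖ := norm_pos_iff.2 (sub_ne_zero.2 (by simpa using hu))
      exact le_of_mul_le_mul_left h1 h2) hn1
    exact ⟨c, by rw [hp1, hq1, hc]; ring⟩

section aux

variable {K : Type*} [NormedField K] [IsUltrametricDist K]

/-- Equality to first order. -/
def prop_Ap (x y : K) : Prop := ‖x - y‖ < ‖y‖

theorem prop_sub_le (x y : K) : ‖x - y‖ ≤ max ‖x‖ ‖y‖ := by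
  have := IsUltrametricDist.norm_add_le_max x (-y)
  rwa [norm_neg, ← sub_eq_add_neg] at this

theorem prop_Ap.norm_eq {x y : K} (h : prop_Ap x y) : ‖x‖ = ‖y‖ := by
  unfold prop_Ap at h
  apply le_antisymm
  · have h1 := IsUltrametricDist.norm_add_le_max (x - y) y
    rw [sub_add_cancel] at h1
    exact h1.trans (max_le h.le le_rfl)
  · have h1 := prop_sub_le x (x - y)
    rw [sub_sub_cancel] at h1
    rcases le_max_iff.1 h1 with h2 | h2
    · exact h2
    · exact absurd h (not_lt.2 h2)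

omit [IsUltrametricDist K] in
theorem prop_Ap.ne {x y : K} (h : prop_Ap x y) : y ≠ 0 :=
  norm_pos_iff.1 ((norm_nonneg _).trans_lt h)

theorem prop_Ap.symm {x y : K} (h : prop_Ap x y) : prop_Ap y x := by
  have h1 := h.norm_eq
  unfold prop_Ap at h ⊢
  rwa [norm_sub_rev, h1]

omit [IsUltrametricDist K] in
theorem prop_Ap.refl {y : K} (h : y ≠ 0) : prop_Ap y y := by
  unfold prop_Ap
  rw [sub_self, norm_zero]
  exact norm_pos_iff.2 h

theorem prop_Ap.trans {x y z : K} (h : prop_Ap x y) (h' : prop_Ap y z) : prop_Ap x z := by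
  have h1 := h'.norm_eq
  unfold prop_Ap at h h' ⊢
  have h2 := IsUltrametricDist.norm_add_le_max (x - y) (y - z)
  rw [sub_add_sub_cancel] at h2
  exact h2.trans_lt (max_lt (h1 ▸ h) h')

omit [IsUltrametricDist K] in
theorem prop_Ap.mul_right {x y z : K} (h : prop_Ap x y) (hz : z ≠ 0) :
    prop_Ap (x * z) (y * z) := by
  unfold prop_Ap at h ⊢
  rw [← sub_mul, norm_mul, norm_mul]
  exact mul_lt_mul_of_pos_right h (norm_pos_iff.2 hz)

omit [IsUltrametricDist K] in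
theorem prop_Ap.cancel {x y z : K} (h : prop_Ap (x * z) (y * z)) : prop_Ap x y := by
  unfold prop_Ap at h ⊢
  rw [← sub_mul, norm_mul, norm_mul] at h
  exact lt_of_mul_lt_mul_right h (norm_nonneg _)

theorem prop_Ap.mul {x y x' y' : K} (h : prop_Ap x y) (h' : prop_Ap x' y') :
    prop_Ap (x * x') (y * y') := by
  have h1 := h.mul_right h'.symm.ne
  have h2 := h'.mul_right h.ne
  rw [mul_comm x', mul_comm y'] at h2
  exact h1.trans h2

omit [IsUltrametricDist K] in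
theorem prop_cst_le (Rc : ResC K (fun x => ‖x‖)) (z : ℂ) : ‖Rc.cst z‖ ≤ 1 := by
  by_cases hz : z = 0
  · rw [hz, map_zero, norm_zero]; exact zero_le_one
  · exact (Rc.norm_cst z hz).le

omit [IsUltrametricDist K] in
theorem prop_cst_inj (Rc : ResC K (fun x => ‖x‖)) {s t : ℂ}
    (h : prop_Ap (Rc.cst s) (Rc.cst t)) : s = t := by
  by_contra hne
  unfold prop_Ap at h
  rw [← map_sub] at h
  have h1 : ‖Rc.cst (s - t)‖ = 1 := Rc.norm_cst _ (sub_ne_zero.2 hne)
  have h2 := prop_cst_le Rc t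
  linarith

/-- An element of norm one is its residue to first order. -/
theorem prop_ap_of_lt (Rc : ResC K (fun x => ‖x‖)) {w : K} {t : ℂ} (hw : ‖w‖ = 1)
    (h : ‖w - Rc.cst t‖ < 1) : prop_Ap w (Rc.cst t) := by
  have h1 : prop_Ap (Rc.cst t) w := by
    unfold prop_Ap
    rwa [norm_sub_rev, hw]
  exact h1.symm

open Classical in
/-- A residue function. -/
noncomputable def prop_res (Rc : ResC K (fun x => ‖x‖)) (x : K) : ℂ :=
  if h : ‖x‖ ≤ 1 then Classical.choose (Rc.res x h) else 0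

omit [IsUltrametricDist K] in
theorem prop_res_spec (Rc : ResC K (fun x => ‖x‖)) {x : K} (h : ‖x‖ ≤ 1) :
    ‖x - Rc.cst (prop_res Rc x)‖ < 1 := by
  unfold prop_res
  rw [dif_pos h]
  exact Classical.choose_spec (Rc.res x h)

open Classical in
/-- The contribution of the outer roots. -/
noncomputable def prop_L (P : K → Prop) (a : K) (p : K[X]) : K :=
  p.leadingCoeff * (p.roots.map fun y => if P y then 1 else a - y).prod

open Classical in
/-- The number of inner roots. -/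
noncomputable def prop_m (P : K → Prop) (p : K[X]) : ℕ := (p.roots.filter P).card

/-- The state carried along the ray. -/
def prop_St (P : K → Prop) (a : K) (U W : K[X]) : Prop :=
  prop_m P U = prop_m P W ∧ prop_Ap (prop_L P a U) (prop_L P a W)

omit [IsUltrametricDist K] in
theorem prop_St_congr {P Q : K → Prop} {a : K} {U W : K[X]}
    (hU : ∀ y ∈ U.roots, P y ↔ Q y) (hW : ∀ y ∈ W.roots, P y ↔ Q y) :
    prop_St P a U W ↔ prop_St Q a U W := by
  classical
  have h1 : ∀ p : K[X], (∀ y ∈ p.roots, P y ↔ Q y) →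
      prop_m P p = prop_m Q p ∧ prop_L P a p = prop_L Q a p := by
    intro p hp
    constructor
    · unfold prop_m
      congr 1
      convert Multiset.filter_congr hp
    · unfold prop_L
      congr 2
      refine Multiset.map_congr rfl fun y hy => ?_
      exact if_congr (hp y hy) rfl rfl
  unfold prop_St
  rw [(h1 U hU).1, (h1 U hU).2, (h1 W hW).1, (h1 W hW).2]

/-- A first order model for the linear factors on the disc of radius `‖ρ‖`. -/
structure prop_Mod (Rc : ResC K (fun x => ‖x‖)) (a ρ : K) (P : K → Prop) (f : K → ℂ[X])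
    (dg : ℂ[X] → ℕ) (lc : ℂ[X] → ℂ) : Prop where
  dg_mul : ∀ p q, p ≠ 0 → q ≠ 0 → dg (p * q) = dg p + dg q
  lc_mul : ∀ p q, lc (p * q) = lc p * lc q
  dg_C : ∀ c, dg (C c) = 0
  lc_C : ∀ c, lc (C c) = c
  lc_f : ∀ y, lc (f y) = 1
  dg_in : ∀ y, P y → dg (f y) = 1
  dg_out : ∀ y, ¬ P y → dg (f y) = 0
  ap_in : ∀ x y u, P y → ‖x - a‖ ≤ ‖ρ‖ → ‖ρ‖ ≤ ‖x - y‖ → ‖(x - a) / ρ - Rc.cst u‖ < 1 →
    prop_Ap (x - y) (ρ * Rc.cst ((f y).eval u))
  ap_out : ∀ x y u, ¬ P y → ‖x - a‖ ≤ ‖ρ‖ → ‖ρ‖ ≤ ‖x - y‖ → ‖(x - a) / ρ - Rc.cst u‖ < 1 →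
    prop_Ap (x - y) ((a - y) * Rc.cst ((f y).eval u))
  gen : ∀ y u, (f y).eval u ≠ 0 → ‖ρ‖ ≤ ‖a + ρ * Rc.cst u - y‖

variable {Rc : ResC K (fun x => ‖x‖)} {a ρ : K} {P : K → Prop} {f : K → ℂ[X]}
  {dg : ℂ[X] → ℕ} {lc : ℂ[X] → ℂ}

omit [IsUltrametricDist K] in
open Classical in
theorem prop_Mod.prod (M : prop_Mod Rc a ρ P f dg lc) (s : Multiset K) :
    lc (s.map f).prod = 1 ∧ dg (s.map f).prod = (s.filter P).card := by
  have h0 : ∀ p, lc p = 1 → p ≠ 0 := by
    rintro p hp rfl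
    have := M.lc_C 0
    rw [C_0, hp] at this
    exact one_ne_zero this
  induction s using Multiset.induction_on with
  | empty =>
    have h1 := M.lc_C 1
    have h2 := M.dg_C 1
    rw [C_1] at h1 h2
    simp [h1, h2]
  | cons y s ih =>
    rw [Multiset.map_cons, Multiset.prod_cons, M.lc_mul, M.lc_f, ih.1,
      M.dg_mul _ _ (h0 _ (M.lc_f y)) (h0 _ ih.1), ih.2]
    refine ⟨one_mul _, ?_⟩
    by_cases hy : P y
    · rw [Multiset.filter_cons_of_pos _ hy, Multiset.card_cons, M.dg_in y hy, add_comm]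
    · rw [Multiset.filter_cons_of_neg _ hy, M.dg_out y hy, zero_add]

open Classical in
theorem prop_Mod.ap_prod (M : prop_Mod Rc a ρ P f dg lc) {x : K} {u : ℂ} (hx : ‖x - a‖ ≤ ‖ρ‖)
    (hu : ‖(x - a) / ρ - Rc.cst u‖ < 1) (s : Multiset K) (hs : ∀ y ∈ s, ‖ρ‖ ≤ ‖x - y‖) :
    prop_Ap (s.map fun y => x - y).prod
      ((s.map fun y => if P y then 1 else a - y).prod * ρ ^ (s.filter P).card *
        Rc.cst ((s.map f).prod.eval u)) := by
  induction s using Multiset.induction_on with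
  | empty => simpa using prop_Ap.refl (one_ne_zero (α := K))
  | cons y s ih =>
    have h1 := ih fun z hz => hs z (Multiset.mem_cons_of_mem hz)
    have h2 := hs y (Multiset.mem_cons_self y s)
    simp only [Multiset.map_cons, Multiset.prod_cons, eval_mul, map_mul]
    by_cases hy : P y
    · have h3 := (M.ap_in x y u hy hx h2 hu).mul h1
      rw [Multiset.filter_cons_of_pos _ hy, Multiset.card_cons, if_pos hy]
      convert h3 using 1
      ring
    · have h3 := (M.ap_out x y u hy hx h2 hu).mul h1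
      rw [Multiset.filter_cons_of_neg _ hy, if_neg hy]
      convert h3 using 1
      ring

theorem prop_Mod.ap_eval [IsAlgClosed K] (M : prop_Mod Rc a ρ P f dg lc) {p : K[X]} (hp : p ≠ 0)
    {x : K} {u : ℂ} (hx : ‖x - a‖ ≤ ‖ρ‖) (hu : ‖(x - a) / ρ - Rc.cst u‖ < 1)
    (hg : Gen p x ‖ρ‖) :
    prop_Ap (p.eval x)
      (prop_L P a p * ρ ^ prop_m P p * Rc.cst ((p.roots.map f).prod.eval u)) := by
  have h1 := M.ap_prod hx hu p.roots fun y hy => hg y (isRoot_of_mem_roots hy)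
  have h2 := (prop_Ap.refl (leadingCoeff_ne_zero.2 hp)).mul h1
  rw [(IsAlgClosed.splits p).eval_eq_prod_roots]
  unfold prop_L prop_m
  convert h2 using 1
  ring

omit [IsUltrametricDist K] in
theorem prop_Mod.gen_of (M : prop_Mod Rc a ρ P f dg lc) {p : K[X]} (hp : p ≠ 0) {u : ℂ}
    (hu : (p.roots.map f).prod.eval u ≠ 0) : Gen p (a + ρ * Rc.cst u) ‖ρ‖ := by
  intro y hy
  apply M.gen
  intro h0
  apply hu
  obtain ⟨g, hg⟩ := Multiset.dvd_prod
    (Multiset.mem_map_of_mem f ((mem_roots hp).2 hy))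
  rw [hg, eval_mul, h0, zero_mul]

omit [IsUltrametricDist K] in
theorem prop_gen_mul {p q : K[X]} {x : K} {r : ℝ} :
    Gen (p * q) x r ↔ Gen p x r ∧ Gen q x r := by
  unfold Gen
  simp only [IsRoot, eval_mul, mul_eq_zero]
  exact ⟨fun h => ⟨fun y hy => h y (Or.inl hy), fun y hy => h y (Or.inr hy)⟩,
    fun h y hy => hy.elim (h.1 y) (h.2 y)⟩

theorem prop_Mod.pts [IsAlgClosed K] (M : prop_Mod Rc a ρ P f dg lc) (hρ : ρ ≠ 0) {U W : K[X]}
    (hU : U ≠ 0) (hW : W ≠ 0) : ∃ S : Finset ℂ, ∀ u, u ∉ S → ∃ x, ‖x - a‖ ≤ ‖ρ‖ ∧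
      Gen (U * W) x ‖ρ‖ ∧ (U.roots.map f).prod.eval u ≠ 0 ∧ (W.roots.map f).prod.eval u ≠ 0 ∧
      prop_Ap (U.eval x)
        (prop_L P a U * ρ ^ prop_m P U * Rc.cst ((U.roots.map f).prod.eval u)) ∧
      prop_Ap (W.eval x)
        (prop_L P a W * ρ ^ prop_m P W * Rc.cst ((W.roots.map f).prod.eval u)) := by
  classical
  have h0 : ∀ s : Multiset K, (s.map f).prod ≠ 0 := by
    intro s hs
    have h1 := (M.prod s).1
    have h2 := M.lc_C 0
    rw [C_0, ← hs, h1] at h2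
    exact one_ne_zero h2
  refine ⟨((U.roots.map f).prod * (W.roots.map f).prod).roots.toFinset, fun u hu => ?_⟩
  rw [Multiset.mem_toFinset, mem_roots (mul_ne_zero (h0 _) (h0 _)), IsRoot, eval_mul,
    mul_eq_zero, not_or] at hu
  have hx : ‖a + ρ * Rc.cst u - a‖ ≤ ‖ρ‖ := by
    rw [add_sub_cancel_left, norm_mul]
    exact mul_le_of_le_one_right (norm_nonneg _) (prop_cst_le Rc u)
  have hu' : ‖(a + ρ * Rc.cst u - a) / ρ - Rc.cst u‖ < 1 := by
    rw [add_sub_cancel_left, mul_div_cancel_left₀ _ hρ, sub_self, norm_zero]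
    exact one_pos
  have g1 := M.gen_of hU hu.1
  have g2 := M.gen_of hW hu.2
  exact ⟨_, hx, prop_gen_mul.2 ⟨g1, g2⟩, hu.1, hu.2, M.ap_eval hU hx hu' g1,
    M.ap_eval hW hx hu' g2⟩

theorem prop_Mod.st_of_good [IsAlgClosed K] (M : prop_Mod Rc a ρ P f dg lc) (hρ : ρ ≠ 0)
    {U W : K[X]} (hU : U ≠ 0) (hW : W ≠ 0) (hg : GoodAt U W a ‖ρ‖) : prop_St P a U W := by
  classical
  obtain ⟨S, hS⟩ := M.pts hρ hU hW
  set cU := prop_L P a U * ρ ^ prop_m P U with hcU
  set cW := prop_L P a W * ρ ^ prop_m P W with hcW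
  set fU := (U.roots.map f).prod with hfU
  set fW := (W.roots.map f).prod with hfW
  have key : ∀ u, u ∉ S → fU.eval u ≠ 0 ∧ fW.eval u ≠ 0 ∧
      prop_Ap (cU * Rc.cst (fU.eval u)) (cW * Rc.cst (fW.eval u)) := by
    intro u hu
    obtain ⟨x, hx, hgen, h1, h2, h3, h4⟩ := hS u hu
    have h5 : prop_Ap (U.eval x) (W.eval x) := hg x hx hgen
    exact ⟨h1, h2, h3.symm.trans (h5.trans h4)⟩
  obtain ⟨u0, hu0⟩ := Infinite.exists_notMem_finset S
  obtain ⟨a1, a2, a3⟩ := key u0 hu0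
  have hcW0 : cW ≠ 0 := left_ne_zero_of_mul a3.ne
  set γ := fW.eval u0 / fU.eval u0 with hγ
  have hγ0 : γ ≠ 0 := div_ne_zero a2 a1
  have b1 : prop_Ap cU (Rc.cst γ * cW) := by
    apply prop_Ap.cancel (z := Rc.cst (fU.eval u0))
    have : Rc.cst γ * cW * Rc.cst (fU.eval u0) = cW * Rc.cst (fW.eval u0) := by
      rw [mul_right_comm, ← map_mul, hγ, div_mul_cancel₀ _ a1, mul_comm]
    rw [this]
    exact a3
  have b2 : C γ * fU = fW := by
    apply eq_of_infinite_eval_eq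
    refine Set.Infinite.mono (s := (S : Set ℂ)ᶜ) ?_ S.finite_toSet.infinite_compl
    intro u hu
    obtain ⟨c1, c2, c3⟩ := key u hu
    have c4 : Rc.cst (fU.eval u) ≠ 0 := (map_ne_zero Rc.cst).2 c1
    have c5 := (b1.mul_right c4).symm.trans c3
    have c6 : Rc.cst γ * cW * Rc.cst (fU.eval u) = Rc.cst (γ * fU.eval u) * cW := by
      rw [map_mul]; ring
    rw [c6, mul_comm cW] at c5
    have c7 := prop_cst_inj Rc c5.cancel
    simpa using c7
  have d1 := M.prod U.roots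
  have d2 := M.prod W.roots
  have hfU0 : fU ≠ 0 := by
    intro h
    rw [h] at a1
    simp at a1
  have e1 : γ = 1 := by
    have := congrArg lc b2
    rw [M.lc_mul, M.lc_C, d1.1, d2.1, mul_one] at this
    exact this
  have e2 : prop_m P U = prop_m P W := by
    have := congrArg dg b2
    rw [M.dg_mul _ _ (C_ne_zero.2 hγ0) hfU0, M.dg_C, zero_add, d1.2, d2.2] at this
    exact this
  refine ⟨e2, ?_⟩
  rw [e1, map_one, one_mul, hcU, hcW, e2] at b1
  exact b1.cancel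

theorem prop_Mod.good_of_st [IsAlgClosed K] (M : prop_Mod Rc a ρ P f dg lc) (hρ : ρ ≠ 0)
    {U W : K[X]} (hU : U ≠ 0) (hW : W ≠ 0) (hs : prop_St P a U W) (hb : BddAt Rc U W a ‖ρ‖) :
    GoodAt U W a ‖ρ‖ := by
  classical
  obtain ⟨S, hS⟩ := M.pts hρ hU hW
  have hc : prop_Ap (prop_L P a U * ρ ^ prop_m P U) (prop_L P a W * ρ ^ prop_m P W) := by
    rw [hs.1]
    exact hs.2.mul_right (pow_ne_zero _ hρ)
  have hev : ∀ x u, ‖x - a‖ ≤ ‖ρ‖ → ‖(x - a) / ρ - Rc.cst u‖ < 1 → Gen (U * W) x ‖ρ‖ → _ :=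
    fun x u hx hu hg => And.intro (M.ap_eval hU hx hu (prop_gen_mul.1 hg).1)
      (M.ap_eval hW hx hu (prop_gen_mul.1 hg).2)
  set cU := prop_L P a U * ρ ^ prop_m P U with hcU
  set cW := prop_L P a W * ρ ^ prop_m P W with hcW
  set fU := (U.roots.map f).prod with hfU
  set fW := (W.roots.map f).prod with hfW
  have d1 := M.prod U.roots
  have d2 := M.prod W.roots
  have hfW0 : fW ≠ 0 := by
    intro h
    have h2 := M.lc_C 0
    rw [C_0, ← h, d2.1] at h2
    exact one_ne_zero h2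
  obtain ⟨c, hc1⟩ := eq_C_mul_of_norm_le (p := fU) hfW0 S (by
    intro u hu
    obtain ⟨x, hx, hgen, h1, h2, h3, h4⟩ := hS u hu
    have n1 : ‖Rc.cst (fU.eval u)‖ = 1 := Rc.norm_cst _ h1
    have n2 : ‖Rc.cst (fW.eval u)‖ = 1 := Rc.norm_cst _ h2
    have n3 : ‖U.eval x‖ = ‖W.eval x‖ := by
      rw [h3.norm_eq, h4.norm_eq, norm_mul cU, norm_mul cW, n1, n2, hc.norm_eq]
    have hθ : fU.eval u / fW.eval u ≠ 0 := div_ne_zero h1 h2
    have n4 : prop_Ap (U.eval x) (W.eval x * Rc.cst (fU.eval u / fW.eval u)) := by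
      refine h3.trans ((hc.mul_right ((map_ne_zero Rc.cst).2 h1)).trans ?_)
      have n5 := (h4.mul_right ((map_ne_zero Rc.cst).2 hθ)).symm
      rwa [mul_assoc, ← map_mul, mul_div_cancel₀ _ h2] at n5
    have n6 := hb x hx hgen n3 (fU.eval u / fW.eval u) (by
      unfold prop_Ap at n4
      have n7 : ‖Rc.cst (fU.eval u / fW.eval u)‖ = 1 := Rc.norm_cst _ hθ
      rwa [norm_mul, n7, mul_one, mul_comm] at n4)
    rwa [norm_div, div_le_one (norm_pos_iff.2 h2)] at n6)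
  have e1 : c = 1 := by
    have := congrArg lc hc1
    rw [M.lc_mul, M.lc_C, d1.1, d2.1, mul_one] at this
    exact this.symm
  rw [e1, C_1, one_mul] at hc1
  intro x hx hg
  have hx1 : ‖(x - a) / ρ‖ ≤ 1 := by
    rw [norm_div]
    exact div_le_one_of_le₀ hx (norm_nonneg _)
  obtain ⟨h1, h2⟩ := hev x _ hx (prop_res_spec Rc hx1) hg
  rw [hc1] at h1
  exact h1.trans ((hc.mul_right (right_ne_zero_of_mul h2.ne)).trans h2.symm)

theorem prop_ap_in (Rc : ResC K (fun x => ‖x‖)) {a ρ x y : K} {u v : ℂ} (hρ : ρ ≠ 0)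
    (hy : ‖y - a‖ ≤ ‖ρ‖) (hx : ‖x - a‖ ≤ ‖ρ‖) (hxy : ‖ρ‖ ≤ ‖x - y‖)
    (hu : ‖(x - a) / ρ - Rc.cst u‖ < 1) (hv : ‖(y - a) / ρ - Rc.cst v‖ < 1) :
    prop_Ap (x - y) (ρ * Rc.cst (u - v)) := by
  have h0 : 0 < ‖ρ‖ := norm_pos_iff.2 hρ
  have h1 : ‖x - y‖ ≤ ‖ρ‖ := by
    have := prop_sub_le (x - a) (y - a)
    rw [sub_sub_sub_cancel_right] at this
    exact this.trans (max_le hx hy)
  have h2 : ‖(x - y) / ρ‖ = 1 := by
    rw [norm_div, le_antisymm h1 hxy, div_self h0.ne']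
  have h3 : ‖(x - y) / ρ - Rc.cst (u - v)‖ < 1 := by
    have h4 : (x - y) / ρ - Rc.cst (u - v) =
        ((x - a) / ρ - Rc.cst u) - ((y - a) / ρ - Rc.cst v) := by
      rw [map_sub]; ring
    rw [h4]
    exact (prop_sub_le _ _).trans_lt (max_lt hu hv)
  have h5 := (prop_ap_of_lt Rc h2 h3).mul_right hρ
  rwa [div_mul_cancel₀ _ hρ, mul_comm] at h5

theorem prop_gen_in (Rc : ResC K (fun x => ‖x‖)) {a ρ y : K} {u v : ℂ} (hρ : ρ ≠ 0)
    (hv : ‖(y - a) / ρ - Rc.cst v‖ < 1) (huv : u - v ≠ 0) : ‖ρ‖ ≤ ‖a + ρ * Rc.cst u - y‖ := by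
  have h1 : ‖Rc.cst (u - v)‖ = 1 := Rc.norm_cst _ huv
  have h2 : prop_Ap (Rc.cst u - (y - a) / ρ) (Rc.cst (u - v)) := by
    unfold prop_Ap
    have : Rc.cst u - (y - a) / ρ - Rc.cst (u - v) = -((y - a) / ρ - Rc.cst v) := by
      rw [map_sub]; ring
    rwa [this, norm_neg, h1]
  have h3 : a + ρ * Rc.cst u - y = ρ * (Rc.cst u - (y - a) / ρ) := by
    field_simp
    ring
  rw [h3, norm_mul, h2.norm_eq, h1, mul_one]

open Classical in
theorem prop_mod_closed (Rc : ResC K (fun x => ‖x‖)) (a : K) {ρ : K} (hρ : ρ ≠ 0) :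
    prop_Mod Rc a ρ (fun y => ‖y - a‖ ≤ ‖ρ‖)
      (fun y => if ‖y - a‖ ≤ ‖ρ‖ then X - C (prop_res Rc ((y - a) / ρ)) else 1)
      natDegree leadingCoeff := by
  have hres : ∀ y : K, ‖y - a‖ ≤ ‖ρ‖ →
      ‖(y - a) / ρ - Rc.cst (prop_res Rc ((y - a) / ρ))‖ < 1 := by
    intro y hy
    apply prop_res_spec
    rw [norm_div]
    exact div_le_one_of_le₀ hy (norm_nonneg _)
  have hout : ∀ x y : K, ¬ ‖y - a‖ ≤ ‖ρ‖ → ‖x - a‖ ≤ ‖ρ‖ → prop_Ap (x - y) (a - y) := by
    intro x y hy hx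
    unfold prop_Ap
    rw [sub_sub_sub_cancel_right, norm_sub_rev a y]
    exact hx.trans_lt (not_le.1 hy)
  refine ⟨fun p q hp hq => natDegree_mul hp hq, leadingCoeff_mul, natDegree_C, leadingCoeff_C,
    ?_, ?_, ?_, ?_, ?_, ?_⟩
  · intro y
    split_ifs
    · exact leadingCoeff_X_sub_C _
    · exact leadingCoeff_one
  · intro y hy
    rw [if_pos hy, natDegree_X_sub_C]
  · intro y hy
    rw [if_neg hy, natDegree_one]
  · intro x y u hy hx hxy hu
    rw [if_pos hy, eval_sub, eval_X, eval_C]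
    exact prop_ap_in Rc hρ hy hx hxy hu (hres y hy)
  · intro x y u hy hx _ _
    rw [if_neg hy, eval_one, map_one, mul_one]
    exact hout x y hy hx
  · intro y u hu
    by_cases hy : ‖y - a‖ ≤ ‖ρ‖
    · rw [if_pos hy, eval_sub, eval_X, eval_C] at hu
      exact prop_gen_in Rc hρ (hres y hy) hu
    · have hx : ‖a + ρ * Rc.cst u - a‖ ≤ ‖ρ‖ := by
        rw [add_sub_cancel_left, norm_mul]
        exact mul_le_of_le_one_right (norm_nonneg _) (prop_cst_le Rc u)
      rw [(hout _ y hy hx).norm_eq, norm_sub_rev]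
      exact (not_le.1 hy).le

theorem prop_out_lt (Rc : ResC K (fun x => ‖x‖)) {a ρ x y : K} {u : ℂ} (hρ : ρ ≠ 0)
    (hy : ‖ρ‖ ≤ ‖y - a‖) (hu : ‖(x - a) / ρ - Rc.cst u‖ < 1) :
    ‖(x - y) / (a - y) - Rc.cst (1 - prop_res Rc (ρ / (y - a)) * u)‖ < 1 := by
  have h0 : 0 < ‖ρ‖ := norm_pos_iff.2 hρ
  have hya : y - a ≠ 0 := norm_pos_iff.1 (h0.trans_le hy)
  have hay : a - y ≠ 0 := fun h => hya (by rw [← neg_sub, h, neg_zero])
  have h1 : ‖ρ / (y - a)‖ ≤ 1 := by
    rw [norm_div]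
    exact div_le_one_of_le₀ hy (norm_nonneg _)
  have h2 := prop_res_spec Rc h1
  set w := prop_res Rc (ρ / (y - a))
  have h3 : (x - y) / (a - y) - Rc.cst (1 - w * u) =
      -((ρ / (y - a)) * ((x - a) / ρ - Rc.cst u)) - (ρ / (y - a) - Rc.cst w) * Rc.cst u := by
    rw [map_sub, map_one, map_mul]
    field_simp
    ring
  rw [h3]
  refine (prop_sub_le _ _).trans_lt (max_lt ?_ ?_)
  · rw [norm_neg, norm_mul]
    exact mul_lt_one_of_nonneg_of_lt_one_right h1 (norm_nonneg _) hu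
  · rw [norm_mul]
    exact mul_lt_one_of_nonneg_of_lt_one_left (norm_nonneg _) h2 (prop_cst_le Rc u)

open Classical in
theorem prop_mod_open (Rc : ResC K (fun x => ‖x‖)) (a : K) {ρ : K} (hρ : ρ ≠ 0) :
    prop_Mod Rc a ρ (fun y => ‖y - a‖ < ‖ρ‖)
      (fun y => if ‖y - a‖ < ‖ρ‖ then X else 1 - C (prop_res Rc (ρ / (y - a))) * X)
      natTrailingDegree trailingCoeff := by
  have h0 : 0 < ‖ρ‖ := norm_pos_iff.2 hρ
  have hres : ∀ y : K, ‖y - a‖ < ‖ρ‖ → ‖(y - a) / ρ - Rc.cst 0‖ < 1 := by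
    intro y hy
    rw [map_zero, sub_zero, norm_div]
    exact (div_lt_one h0).2 hy
  have hnt : ∀ w : ℂ, natTrailingDegree (1 - C w * X : ℂ[X]) = 0 := by
    intro w
    rw [natTrailingDegree_eq_zero]
    right
    simp
  refine ⟨fun p q hp hq => natTrailingDegree_mul hp hq, trailingCoeff_mul, natTrailingDegree_C,
    ?_, ?_, ?_, ?_, ?_, ?_, ?_⟩
  · intro c
    rw [trailingCoeff, natTrailingDegree_C, coeff_C_zero]
  · intro y
    split_ifs
    · rw [trailingCoeff, natTrailingDegree_X, coeff_X_one]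
    · rw [trailingCoeff, hnt]
      simp
  · intro y hy
    rw [if_pos hy, natTrailingDegree_X]
  · intro y hy
    rw [if_neg hy, hnt]
  · intro x y u hy hx hxy hu
    rw [if_pos hy, eval_X]
    have := prop_ap_in Rc hρ hy.le hx hxy hu (hres y hy)
    rwa [sub_zero] at this
  · intro x y u hy hx hxy hu
    rw [if_neg hy, eval_sub, eval_one, eval_mul, eval_C, eval_X]
    have hy' := not_lt.1 hy
    have hay : a - y ≠ 0 := by
      rw [← norm_pos_iff, norm_sub_rev]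
      exact h0.trans_le hy'
    have h1 : ‖x - y‖ = ‖a - y‖ := by
      rw [norm_sub_rev a y]
      rcases hy'.eq_or_lt with h2 | h2
      · apply le_antisymm _ (h2 ▸ hxy)
        have := prop_sub_le (x - a) (y - a)
        rw [sub_sub_sub_cancel_right] at this
        exact this.trans (max_le (h2 ▸ hx) le_rfl)
      · have h3 : prop_Ap (x - y) (a - y) := by
          unfold prop_Ap
          rw [sub_sub_sub_cancel_right, norm_sub_rev a y]
          exact hx.trans_lt h2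
        rw [h3.norm_eq, norm_sub_rev]
    have h4 : ‖(x - y) / (a - y)‖ = 1 := by
      rw [norm_div, h1, div_self (norm_ne_zero_iff.2 hay)]
    have h5 := (prop_ap_of_lt Rc h4 (prop_out_lt Rc hρ hy' hu)).mul_right hay
    rwa [div_mul_cancel₀ _ hay, mul_comm] at h5
  · intro y u hu
    by_cases hy : ‖y - a‖ < ‖ρ‖
    · rw [if_pos hy, eval_X] at hu
      exact prop_gen_in Rc hρ (hres y hy) (by rwa [sub_zero])
    · rw [if_neg hy, eval_sub, eval_one, eval_mul, eval_C, eval_X] at hu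
      have hy' := not_lt.1 hy
      have hay : a - y ≠ 0 := by
        rw [← norm_pos_iff, norm_sub_rev]
        exact h0.trans_le hy'
      have hu' : ‖(a + ρ * Rc.cst u - a) / ρ - Rc.cst u‖ < 1 := by
        rw [add_sub_cancel_left, mul_div_cancel_left₀ _ hρ, sub_self, norm_zero]
        exact one_pos
      have h1 := prop_out_lt Rc hρ hy' hu'
      have h2 : ‖Rc.cst (1 - prop_res Rc (ρ / (y - a)) * u)‖ = 1 := Rc.norm_cst _ hu
      have h3 : prop_Ap ((a + ρ * Rc.cst u - y) / (a - y))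
          (Rc.cst (1 - prop_res Rc (ρ / (y - a)) * u)) := by
        unfold prop_Ap
        rwa [h2]
      have h4 := h3.norm_eq
      rw [h2, norm_div, div_eq_one_iff_eq (norm_ne_zero_iff.2 hay)] at h4
      rw [h4, norm_sub_rev]
      exact hy'

open Classical in
theorem prop_iff [IsAlgClosed K] (Rc : ResC K (fun x => ‖x‖)) {U W : K[X]} (hU : U ≠ 0)
    (hW : W ≠ 0) (a : K) (n : ℕ) : ∀ r1 r2 : K, r1 ≠ 0 → ‖r1‖ ≤ ‖r2‖ →
    ((U * W).roots.filter fun y => ‖r1‖ < ‖y - a‖ ∧ ‖y - a‖ < ‖r2‖).card ≤ n →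
    (∀ ρ : K, ‖r1‖ ≤ ‖ρ‖ → ‖ρ‖ ≤ ‖r2‖ → BddAt Rc U W a ‖ρ‖) →
    (GoodAt U W a ‖r1‖ ↔ GoodAt U W a ‖r2‖) := by
  induction n using Nat.strong_induction_on with
  | _ n ih =>
    intro r1 r2 h1 h12 hn hb
    have h1' : 0 < ‖r1‖ := norm_pos_iff.2 h1
    have h2 : r2 ≠ 0 := norm_pos_iff.1 (h1'.trans_le h12)
    by_cases hex : ∃ y ∈ (U * W).roots, ‖r1‖ < ‖y - a‖ ∧ ‖y - a‖ < ‖r2‖
    · obtain ⟨y0, hy0, hy1, hy2⟩ := hex
      have hlt : ∀ (Q : K → Prop) [DecidablePred Q], (∀ y, Q y → ‖r1‖ < ‖y - a‖ ∧ ‖y - a‖ < ‖r2‖) → ¬ Q y0 →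
          ((U * W).roots.filter Q).card < n := by
        intro Q _ hQ hQ0
        refine lt_of_lt_of_le (Multiset.card_lt_card ?_) hn
        refine lt_of_le_of_ne (Multiset.monotone_filter_right _ fun y hy => hQ y hy) ?_
        intro he
        have h3 : y0 ∈ (U * W).roots.filter Q := by
          rw [he]
          exact Multiset.mem_filter.2 ⟨hy0, hy1, hy2⟩
        exact hQ0 (Multiset.mem_filter.1 h3).2
      have a1 := ih _ (hlt (fun y => ‖r1‖ < ‖y - a‖ ∧ ‖y - a‖ < ‖y0 - a‖)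
        (fun y hy => ⟨hy.1, hy.2.trans hy2⟩) (fun h => lt_irrefl _ h.2)) r1 (y0 - a) h1 hy1.le
        le_rfl (fun ρ b1 b2 => hb ρ b1 (b2.trans hy2.le))
      have a2 := ih _ (hlt (fun y => ‖y0 - a‖ < ‖y - a‖ ∧ ‖y - a‖ < ‖r2‖)
        (fun y hy => ⟨hy1.trans hy.1, hy.2⟩) (fun h => lt_irrefl _ h.1)) (y0 - a) r2
        (norm_pos_iff.1 (h1'.trans hy1)) hy2.le
        le_rfl (fun ρ b1 b2 => hb ρ (hy1.le.trans b1) b2)
      exact a1.trans a2
    · rcases h12.eq_or_lt with he | hlt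
      · rw [he]
      · have hc : ∀ y ∈ (U * W).roots, ‖y - a‖ ≤ ‖r1‖ ↔ ‖y - a‖ < ‖r2‖ := by
          intro y hy
          refine ⟨fun h => h.trans_lt hlt, fun h => ?_⟩
          by_contra h3
          exact hex ⟨y, hy, not_le.1 h3, h⟩
        rw [roots_mul (mul_ne_zero hU hW)] at hc
        have hst := prop_St_congr (a := a) (P := fun y => ‖y - a‖ ≤ ‖r1‖)
          (Q := fun y => ‖y - a‖ < ‖r2‖) (U := U) (W := W)
          (fun y hy => hc y (Multiset.mem_add.2 (Or.inl hy)))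
          (fun y hy => hc y (Multiset.mem_add.2 (Or.inr hy)))
        have M1 := prop_mod_closed Rc a h1
        have M2 := prop_mod_open Rc a h2
        exact ⟨fun h => M2.good_of_st h2 hU hW (hst.1 (M1.st_of_good h1 hU hW h))
            (hb r2 h12 le_rfl),
          fun h => M1.good_of_st h1 hU hW (hst.2 (M2.st_of_good h2 hU hW h))
            (hb r1 le_rfl h12)⟩

end aux

variable {K : Type*} [NormedField K] [IsUltrametricDist K] [IsAlgClosed K]

/-- Write `x ≈ y` for `‖x - y‖ < ‖y‖` (multiplicative and transitive).  For a radius `r = ‖ρ‖` let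
`Γ r` be the quotient of `lead U * ∏ (a - y)` over the roots `y` of `U` with `r < ‖y - a‖` by the
same expression for `W`, and `Γ' r` the version with `r ≤ ‖y - a‖`.  State `A r`:
`cnt U a r = cnt W a r` and `Γ r ≈ 1`; state `A' r`: the same with `cnto` and `Γ'`.
Let `U~`, `W~` be the monic complex polynomials whose roots are the residues of `(y - a) / ρ` for
the roots in the closed disc.  For `x = a + ρ * cst u` with `u` not a root of `U~ * W~` (such `x` is
generic), `U x / W x ≈ Γ r * ρ ^ (cnt U - cnt W) * cst (U~ u / W~ u)`, and the same holds for any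
generic `x` with `u` the residue of `(x - a) / ρ`.  Hence `GoodAt` holds iff `U~ = W~` and
`Γ r ≈ 1`; it implies `A r` and `A' r`; and each of `A r`, `A' r` together with `BddAt` implies
`GoodAt` by `eq_C_mul_of_norm_le` (compare leading coefficients, or values at `0` after cancelling
the common power of `X`).  If no root satisfies `r < ‖y - a‖ < r'` then `A r` and `A' r'` are the
same statement.  Induct on the number of values `‖y - a‖` strictly between the two radii. -/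
theorem propagate (Rc : ResC K (fun x => ‖x‖)) {U W : K[X]} (hU : U ≠ 0) (hW : W ≠ 0) (a : K)
    {r1 r2 : K} (h1 : r1 ≠ 0) (h2 : r2 ≠ 0) (hgood : GoodAt U W a ‖r1‖)
    (hbdd : ∀ ρ : K, min ‖r1‖ ‖r2‖ ≤ ‖ρ‖ → ‖ρ‖ ≤ max ‖r1‖ ‖r2‖ → BddAt Rc U W a ‖ρ‖) :
    GoodAt U W a ‖r2‖ := by
  rcases le_total ‖r1‖ ‖r2‖ with h | h
  · rw [min_eq_left h, max_eq_right h] at hbdd
    exact (prop_iff Rc hU hW a _ r1 r2 h1 h le_rfl hbdd).1 hgood
  · rw [min_eq_right h, max_eq_left h] at hbdd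
    exact (prop_iff Rc hU hW a _ r2 r1 h2 h le_rfl hbdd).2 hgood

end Pool.Agent.Lib.MP_0dd0d9_ag
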