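import Pool.Agent.Lib.MP_0dd0d9_ag.QCCA

/-!
Quantitative transversality in a chart, along a given path.
-/

namespace Pool.Agent.Lib.MP_0dd0d9_ag

open Polynomial

section core

variable {K : Type*} [NormedField K] [IsUltrametricDist K] [IsAlgClosed K] {ι : Type*} [Fintype ι]
  [DecidableEq ι] {d : ℕ} {h : ℝ} {A B : K[X]} {lw : K} {c : Fin (2 * d - 2) → K} {nxt : ι ≃ ι}
  {P α : ι → K} {κ tb : ℝ}

theorem qcc_max_le {R Rl Rt δ : ℝ} (hR : 0 < R) (hRt : R ≤ Rt) (hRl : 0 < Rl) (hlt : Rl ≤ Rt)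
    (hδ : 0 < δ) : max 0 (Real.log (R / δ)) ≤ max 0 (Real.log (Rl / δ)) + Real.log (Rt / Rl) := by
  have h1 : 0 ≤ Real.log (Rt / Rl) := Real.log_nonneg ((one_le_div hRl).2 hlt)
  refine max_le (add_nonneg (le_max_left _ _) h1) ?_
  have h2 : Real.log (R / δ) ≤ Real.log (Rl / δ) + Real.log (Rt / Rl) := by
    rw [← Real.log_mul (by positivity) (div_pos (hR.trans_le hRt) hRl).ne']
    refine Real.log_le_log (by positivity) ?_
    have e : Rl / δ * (Rt / Rl) = Rt / δ := by field_simp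
    rw [e]
    gcongr
  linarith [le_max_right 0 (Real.log (Rl / δ))]

theorem QccS.vis (S : QccS d h A B lw c nxt P α κ tb) {m : ι} (hm : κ ≤ ‖α m‖) {X r R Rl Rt : ℝ}
    (hX : ∑ l ∈ Finset.univ.erase m, max 0 (Real.log (Rl / ‖P l - P m‖)) ≤ X) (hRl : 0 < Rl)
    (hlt : Rl ≤ Rt) (hr : 0 < r) (hrR : r ≤ R) (hRt : R ≤ Rt) {x : K} (hx : ‖x - P m‖ ≤ R)
    (hg : Gen (nq P α * pp P) x r) :
    κ / R * (Real.exp (-X) * (Rl / Rt) ^ Fintype.card ι) * (r / R) ^ Fintype.card ι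
      ≤ ‖qf P α x‖ := by
  have hR : 0 < R := hr.trans_le hrR
  have hRt0 : 0 < Rt := hR.trans_le hRt
  have hκ := S.κpos
  refine le_trans ?_ (qcc_qf_low (fun l hl => S.inj hl) hr hrR hx hg)
  have h1 : 0 ≤ Real.log (Rt / Rl) := Real.log_nonneg ((one_le_div hRl).2 hlt)
  have h2 : ∑ l ∈ Finset.univ.erase m, max 0 (Real.log (R / ‖P l - P m‖))
      ≤ X + Fintype.card ι * Real.log (Rt / Rl) := by
    refine (Finset.sum_le_sum fun l hl => qcc_max_le hR hRt hRl hlt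
      (norm_pos_iff.2 (sub_ne_zero.2 (S.inj (Finset.ne_of_mem_erase hl))))).trans ?_
    rw [Finset.sum_add_distrib, Finset.sum_const, nsmul_eq_mul]
    refine add_le_add hX (mul_le_mul_of_nonneg_right ?_ h1)
    exact_mod_cast Finset.card_le_univ _
  have h3 : Real.exp (-X) * (Rl / Rt) ^ Fintype.card ι
      = Real.exp (-(X + Fintype.card ι * Real.log (Rt / Rl))) := by
    rw [neg_add, Real.exp_add, ← mul_neg, Real.exp_nat_mul, ← Real.log_inv, inv_div,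
      Real.exp_log (by positivity)]
  rw [h3]
  gcongr

theorem QccS.img (S : QccS d h A B lw c nxt P α κ tb) (hN : Res0 K) {ϖ : K} (h0 : 0 < ‖ϖ‖)
    (h1 : ‖ϖ‖ < 1) {j : ι} (hj : κ ≤ ‖α j‖) {z : K} (hz1 : ‖z‖ ≤ 1)
    (hz : A.eval z = P j * B.eval z) {Rl X : ℝ} (hRl : Rl ≤ 1)
    (hpole : ∀ y, B.IsRoot y → Rl < ‖y - z‖) {s : Finset ι} (hs : s ⊆ Finset.univ.erase j)
    (hs' : ∀ l, l ≠ j → (∃ y, A.eval y = P l * B.eval y ∧ ‖y - z‖ ≤ Rl) → l ∈ s)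
    (hX : ∑ l ∈ s, max 0 (Real.log (Real.exp (2 * h) * Rl / ‖P l - P j‖)) ≤ X)
    {ρ x : K} (hρ : ρ ≠ 0) (hρl : ‖ρ‖ ≤ Rl) (hx : ‖x - z‖ ≤ ‖ρ‖)
    (hg : Gen (qccU A B P α * qccV A B P α) x ‖ρ‖) :
    ‖ρ * (wr A B).eval x / B.eval x ^ 2‖ = ‖A.eval x / B.eval x - P j‖ ∧
      Real.exp (-(2 * h)) * ‖ρ‖ ^ d ≤ ‖ρ * (wr A B).eval x / B.eval x ^ 2‖ ∧
      ‖ρ * (wr A B).eval x / B.eval x ^ 2‖ ≤ Real.exp (2 * h) * ‖ρ‖ ∧
      κ * Real.exp (-X) * ‖ρ * (wr A B).eval x / B.eval x ^ 2‖ ≤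
        ‖qf P α (A.eval x / B.eval x)‖ * ‖ρ * (wr A B).eval x / B.eval x ^ 2‖ ^ 2 := by
  have hr : 0 < ‖ρ‖ := norm_pos_iff.2 hρ
  obtain ⟨-, hB, -, -, hW, -⟩ := qcc_factors (hg.ne_zero hr)
  have hBn : 0 < ‖B.eval x‖ := norm_pos_iff.2 hB
  have hx1 : ‖x‖ ≤ 1 := qcc_mem_one hz1 hx (hρl.trans hRl)
  have hpole' : ∀ y, B.IsRoot y → ‖ρ‖ < ‖y - z‖ := fun y hy => hρl.trans_lt (hpole y hy)
  have hgz : (A - C (P j) * B).IsRoot z := by simp [hz]
  have hgw : Gen (wr (A - C (P j) * B) B) x ‖ρ‖ := by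
    rw [wr_sub_C_mul]
    exact qcc_gen_of hg fun y hy => Or.inr (Or.inr (Or.inr (Or.inr (Or.inl hy))))
  have k1 := wd1 hN h0 h1 hr hgz hpole' hx (qcc_gen_g hg j) hgw
  rw [wr_sub_C_mul] at k1
  have ef : ∀ l, A.eval x / B.eval x - P l = (A - C (P l) * B).eval x / B.eval x := fun l => by
    simp only [eval_sub, eval_mul, eval_C]
    field_simp
  have k2 : ‖ρ * (wr A B).eval x / B.eval x ^ 2‖ = ‖(A - C (P j) * B).eval x‖ / ‖B.eval x‖ := by
    rw [norm_div, norm_mul, k1, norm_pow]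
    field_simp
  have k3 : ‖ρ * (wr A B).eval x / B.eval x ^ 2‖ = ‖A.eval x / B.eval x - P j‖ := by
    rw [k2, ef, norm_div]
  have hBxz : ‖B.eval x‖ = ‖B.eval z‖ := norm_eval_eq_of_no_root hpole' hx
  have k4 : Real.exp (-(2 * h)) * ‖ρ‖ ^ d ≤ ‖ρ * (wr A B).eval x / B.eval x ^ 2‖ := by
    have hc : (A - C (P j) * B).coeff d = A.coeff d - P j * B.coeff d := by
      rw [coeff_sub, coeff_C_mul]
    have hl := S.ch.glead j
    have hdeg : (A - C (P j) * B).natDegree = d := by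
      refine natDegree_eq_of_le_of_coeff_ne_zero ?_ ?_
      · exact (natDegree_sub_le _ _).trans
          (max_le S.ch.degA ((natDegree_C_mul_le _ _).trans S.ch.degB))
      · rw [hc]
        exact norm_pos_iff.1 ((Real.exp_pos _).trans_le hl)
    have k5 := lead_le_gn (A - C (P j) * B) z hr.le
    rw [← gn_eq_of_gen hx (qcc_gen_g hg j), leadingCoeff, hdeg, hc] at k5
    have k6 := eval_le_of_coeff S.ch.coB hx1
    rw [k2, le_div_iff₀ hBn]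
    calc Real.exp (-(2 * h)) * ‖ρ‖ ^ d * ‖B.eval x‖
        ≤ Real.exp (-(2 * h)) * ‖ρ‖ ^ d * Real.exp h := by gcongr
      _ = Real.exp (-h) * ‖ρ‖ ^ d := by
          rw [mul_right_comm, ← Real.exp_add]
          congr 2
          ring
      _ ≤ ‖A.coeff d - P j * B.coeff d‖ * ‖ρ‖ ^ d := by gcongr
      _ ≤ _ := k5
  have k5 : ‖ρ * (wr A B).eval x / B.eval x ^ 2‖ ≤ Real.exp (2 * h) * ‖ρ‖ := by
    have k6 := eval_sub_le (qcc_g_coeff S.ch (S.ch.Ple j)) hx1 hz1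
    rw [hgz.eq_zero, sub_zero] at k6
    have k7 := qcc_B_low' S.ch hz1 (S.ch.Ple j) hz
    rw [k2, div_le_iff₀ hBn, hBxz]
    calc ‖(A - C (P j) * B).eval x‖ ≤ Real.exp h * ‖ρ‖ := k6.trans (by gcongr)
      _ = Real.exp (2 * h) * ‖ρ‖ * Real.exp (-h) := by
          rw [mul_right_comm, ← Real.exp_add]
          congr 2
          ring
      _ ≤ _ := by gcongr
  refine ⟨k3, k4, k5, ?_⟩
  have hg' := qcc_gen_img hρ hg
  have hr' : 0 < ‖ρ * (wr A B).eval x / B.eval x ^ 2‖ :=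
    norm_pos_iff.2 (div_ne_zero (mul_ne_zero hρ hW) (pow_ne_zero 2 hB))
  generalize ‖ρ * (wr A B).eval x / B.eval x ^ 2‖ = r at *
  have k6 := qcc_qf_low (i := j) (fun l hl => S.inj hl) hr' le_rfl k3.ge hg'
  have k7 : ∑ l ∈ Finset.univ.erase j, max 0 (Real.log (r / ‖P l - P j‖)) ≤ X := by
    rw [← Finset.sum_subset hs]
    · refine le_trans (Finset.sum_le_sum fun l hl => max_le_max le_rfl ?_) hX
      have hδ : 0 < ‖P l - P j‖ :=
        norm_pos_iff.2 (sub_ne_zero.2 (S.inj (Finset.ne_of_mem_erase (hs hl))))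
      refine Real.log_le_log (by positivity) ?_
      gcongr
      exact k5.trans (by gcongr)
    · intro l hl hls
      have hlj := Finset.ne_of_mem_erase hl
      have hδ : 0 < ‖P l - P j‖ := norm_pos_iff.2 (sub_ne_zero.2 (S.inj hlj))
      refine max_eq_left (Real.log_nonpos (by positivity) ((div_le_one hδ).2 ?_))
      by_contra hlt
      push Not at hlt
      refine hls (hs' l hlj ?_)
      by_contra hno
      push Not at hno
      have k8 : ‖(A - C (P l) * B).eval x‖ = ‖(A - C (P l) * B).eval z‖ :=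
        norm_eval_eq_of_no_root (fun y hy => hρl.trans_lt (hno y (by
          simpa [sub_eq_zero] using hy))) hx
      have k9 : (A - C (P l) * B).eval z = (P j - P l) * B.eval z := by
        simp only [eval_sub, eval_mul, eval_C, hz]
        ring
      have k10 : ‖P l - A.eval x / B.eval x‖ = r := by
        rw [qcc_tri_eq (y := P j) (by rwa [norm_sub_rev (P j), ← k3]), norm_sub_rev, ← k3]
      rw [norm_sub_rev, ef, norm_div, k8, k9, norm_mul, ← hBxz, mul_div_assoc, div_self hBn.ne',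
        mul_one, norm_sub_rev] at k10
      exact hlt.ne k10
  have hκ := S.κpos
  rw [div_self hr'.ne', one_pow, mul_one] at k6
  calc κ * Real.exp (-X) * r = κ / r * Real.exp (-X) * r ^ 2 := by field_simp
    _ ≤ ‖α j‖ / r * Real.exp (-∑ l ∈ Finset.univ.erase j, max 0 (Real.log (r / ‖P l - P j‖)))
        * r ^ 2 := by gcongr
    _ ≤ _ := by gcongr

omit [Fintype ι] [DecidableEq ι] in
theorem QccS.second (S : QccS d h A B lw c nxt P α κ tb) {j : ι} (hj : κ ≤ ‖α j‖)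
    (hj' : κ ≤ ‖α (nxt j)‖) {w : K} (hw0 : w ≠ P (nxt j))
    (hw : ‖w - P (nxt j)‖ < κ * Real.exp (-(2 * h))) :
    ∃ y, A.eval y = w * B.eval y ∧ y ≠ P j ∧ κ * ‖y - P j‖ ≤ ‖w - P (nxt j)‖ := by
  obtain ⟨-, hD1, -⟩ := S.Dv hj hj'
  have hκ := S.κpos
  have hBP := qcc_B_P S.ch j
  have hBn : 0 < ‖B.eval (P j)‖ := (Real.exp_pos _).trans_le hBP
  have e1 : (derivative (A - C w * B)).eval (P j) = (derivative (A - C (P (nxt j)) * B)).eval (P j)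
      + (P (nxt j) - w) * (derivative B).eval (P j) := by
    simp only [derivative_sub, derivative_C_mul, eval_sub, eval_mul, eval_C]
    ring
  have e2 : (A - C w * B).eval (P j) = (P (nxt j) - w) * B.eval (P j) := by
    simp only [eval_sub, eval_mul, eval_C, S.ch.orb j]
    ring
  have k1 : κ * ‖B.eval (P j)‖ ≤ ‖(derivative (A - C (P (nxt j)) * B)).eval (P j)‖ := by
    rw [S.deriv_g, norm_mul]
    gcongr
  have k2 : ‖(P (nxt j) - w) * (derivative B).eval (P j)‖ < κ * ‖B.eval (P j)‖ := by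
    have k3 := eval_le_of_coeff (coeff_derivative_le S.ch.coB) (S.ch.Ple j)
    rw [norm_mul, norm_sub_rev]
    calc ‖w - P (nxt j)‖ * ‖(derivative B).eval (P j)‖ ≤ ‖w - P (nxt j)‖ * Real.exp h := by gcongr
      _ < κ * Real.exp (-(2 * h)) * Real.exp h := by gcongr
      _ = κ * Real.exp (-h) := by
          rw [mul_assoc, ← Real.exp_add]
          congr 2
          ring
      _ ≤ _ := by gcongr
  have k3 : κ * ‖B.eval (P j)‖ ≤ ‖(derivative (A - C w * B)).eval (P j)‖ := by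
    rw [e1, qcc_add_eq (k2.trans_le k1)]
    exact k1
  obtain ⟨y, hy, hy'⟩ := root_in_disc (norm_pos_iff.1 ((mul_pos hκ hBn).trans_le k3))
  refine ⟨y, by simpa [sub_eq_zero] using hy, ?_, ?_⟩
  · rintro rfl
    rw [IsRoot.def, e2] at hy
    exact mul_ne_zero (sub_ne_zero.2 hw0.symm) (norm_pos_iff.1 hBn) hy
  · rw [e2, norm_mul, norm_sub_rev (P (nxt j))] at hy'
    refine le_of_mul_le_mul_right (le_trans ?_ hy') hBn
    calc κ * ‖y - P j‖ * ‖B.eval (P j)‖ = ‖y - P j‖ * (κ * ‖B.eval (P j)‖) := by ring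
      _ ≤ _ := by gcongr

theorem qcc_core (Rc : ResC K (fun x => ‖x‖)) {ϖ : K} (h0 : 0 < ‖ϖ‖) (h1 : ‖ϖ‖ < 1) (hd : 1 ≤ d)
    (S : QccS d h A B lw c nxt P α κ tb) {ϱ r0 r1 : K} (hal : QccAL Rc A B P α ϱ) {X : ℝ}
    {m j : ι} {z Rt Rl : K} (hm : κ ≤ ‖α m‖) (hm' : κ ≤ ‖α (nxt m)‖) (hj : κ ≤ ‖α j‖)
    (hj' : κ ≤ ‖α (nxt j)‖) (hz1 : ‖z‖ ≤ 1) (hz : A.eval z = P (nxt j) * B.eval z) (hzj : z ≠ P j)
    (hRl : Rl ≠ 0) (hlt : ‖Rl‖ ≤ ‖Rt‖) (hRt : ‖Rt‖ ≤ 1) (hmz : ‖P m - z‖ ≤ ‖Rt‖)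
    (hpole : ∀ y, B.IsRoot y → ‖Rl‖ < ‖y - z‖)
    (hX1 : ∑ l ∈ Finset.univ.erase m, max 0 (Real.log (‖Rl‖ / ‖P l - P m‖)) ≤ X)
    {s : Finset ι} (hs : s ⊆ Finset.univ.erase (nxt j))
    (hs' : ∀ l, l ≠ nxt j → (∃ y, A.eval y = P l * B.eval y ∧ ‖y - z‖ ≤ ‖Rl‖) → l ∈ s)
    (hX2 : ∑ l ∈ s, max 0 (Real.log (Real.exp (2 * h) * ‖Rl‖ / ‖P l - P (nxt j)‖)) ≤ X)
    (hr00 : r0 ≠ 0) (hr0 : ‖r0‖ < κ ^ 2 * Real.exp (-tb - 4 * h) * ‖Rl‖) (hr10 : r1 ≠ 0)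
    (hr1 : ‖r1‖ < κ * Real.exp (-(2 * h)) * ‖r0‖)
    (hϱ : ‖ϱ‖ < κ * Real.exp (-X) * (Real.exp (-(2 * h)) * ‖r1‖ ^ d) *
      (‖Rl‖ / ‖Rt‖) ^ (2 * (Fintype.card ι + 2))) : False := by
  have hN : Res0 K := Rc.res0
  have hκ := S.κpos
  have hκ1 := S.κle
  have hh := S.hpos
  have p0 : 0 < ‖r0‖ := norm_pos_iff.2 hr00
  have p1 : 0 < ‖r1‖ := norm_pos_iff.2 hr10
  have pl : 0 < ‖Rl‖ := norm_pos_iff.2 hRl
  have pt : 0 < ‖Rt‖ := pl.trans_le hlt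
  have hRt0 : Rt ≠ 0 := norm_pos_iff.1 pt
  have hRl1 : ‖Rl‖ ≤ 1 := hlt.trans hRt
  have x2 : Real.exp (-(2 * h)) ≤ 1 := Real.exp_le_one_iff.2 (by linarith)
  have x4 : Real.exp (-tb - 4 * h) ≤ Real.exp (-(2 * h)) :=
    Real.exp_le_exp.2 (by linarith [S.tb0])
  have x5 : κ ^ 2 * Real.exp (-tb - 4 * h) ≤ κ * Real.exp (-(2 * h)) := by
    rw [sq, mul_assoc]
    exact mul_le_mul_of_nonneg_left
      ((mul_le_of_le_one_left (Real.exp_pos _).le hκ1).trans x4) hκ.le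
  have x6 : κ * Real.exp (-(2 * h)) ≤ 1 := mul_le_one₀ hκ1 (Real.exp_pos _).le x2
  have c0 : ‖r0‖ < κ ^ 2 * Real.exp (-tb - 4 * h) :=
    hr0.trans_le (mul_le_of_le_one_right (by positivity) hRl1)
  have c0l : ‖r0‖ < ‖Rl‖ := hr0.trans_le (mul_le_of_le_one_left pl.le (x5.trans x6))
  have c10 : ‖r1‖ < ‖r0‖ := hr1.trans_le (mul_le_of_le_one_left p0.le x6)
  have c1 : Real.exp (-(2 * h)) * ‖r1‖ ^ d ≤ ‖r0‖ := by
    refine (mul_le_of_le_one_left (by positivity) x2).trans (le_trans ?_ c10.le)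
    exact pow_le_of_le_one p1.le (by linarith) (by omega)
  have q0 : 0 < ‖Rl‖ / ‖Rt‖ := div_pos pl pt
  have q1 : ‖Rl‖ / ‖Rt‖ ≤ 1 := (div_le_one pt).2 hlt
  have hq : ∀ k, k ≤ 2 * (Fintype.card ι + 2) →
      (‖Rl‖ / ‖Rt‖) ^ (2 * (Fintype.card ι + 2)) ≤ (‖Rl‖ / ‖Rt‖) ^ k :=
    fun k hk => pow_le_pow_of_le_one q0.le q1 hk
  obtain ⟨hU, hV⟩ := S.UV_ne hm
  have hgood : ∀ x, Gen (qccU A B P α * qccV A B P α) x ‖r0‖ ∨
      Gen (qccU A B P α * qccV A B P α) x ‖r1‖ →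
      (QccAp (qf P α x * B.eval x ^ 4 / ((wr A B).eval x ^ 2 * qf P α (A.eval x / B.eval x))) 1 ↔
      ‖(qccU A B P α).eval x - (qccV A B P α).eval x‖ < ‖(qccV A B P α).eval x‖) := by
    intro x hg
    have hne : (qccU A B P α * qccV A B P α).eval x ≠ 0 :=
      hg.elim (fun g => g.ne_zero p0) fun g => g.ne_zero p1
    have hVx : (qccV A B P α).eval x ≠ 0 := by
      rw [eval_mul] at hne
      exact right_ne_zero_of_mul hne
    have e : (qccU A B P α).eval x / (qccV A B P α).eval x - 1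
        = ((qccU A B P α).eval x - (qccV A B P α).eval x) / (qccV A B P α).eval x := by
      field_simp
    rw [qcc_theta hne, QccAp, e, norm_div, norm_one, div_lt_one (norm_pos_iff.2 hVx)]
  have G0 : GoodAt (qccU A B P α) (qccV A B P α) (P m) ‖r0‖ := by
    intro x hx hg
    have hx0 : x ≠ P m := by
      rintro rfl
      refine (qcc_factors (hg.ne_zero p0)).2.2.2.1 ?_
      rw [qcc_eval_pp]
      exact Finset.prod_eq_zero (Finset.mem_univ m) (sub_self _)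
    exact (hgood x (Or.inl hg)).1 (S.tiny hm hm' hx0 (hx.trans_lt c0)).2.2.2.2.2.2
  have G1 : GoodAt (qccU A B P α) (qccV A B P α) (P m) ‖Rt‖ := by
    refine propagate Rc hU hV (P m) hr00 hRt0 G0 fun ρ hρ1 hρ2 => ?_
    rw [min_eq_left (c0l.le.trans hlt)] at hρ1
    rw [max_eq_right (c0l.le.trans hlt)] at hρ2
    have pρ : 0 < ‖ρ‖ := p0.trans_le hρ1
    refine qcc_bdd hal (norm_pos_iff.1 pρ) fun x hx hg => Or.inl (hϱ.trans_le ?_)
    have k := S.vis hm hX1 pl hlt pρ le_rfl hρ2 hx (qcc_gen_q hg)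
    rw [div_self pρ.ne', one_pow, mul_one] at k
    calc _ ≤ κ * Real.exp (-X) * ‖ρ‖ * (‖Rl‖ / ‖Rt‖) ^ Fintype.card ι :=
          mul_le_mul (mul_le_mul_of_nonneg_left (c1.trans hρ1) (by positivity)) (hq _ (by omega))
            (by positivity) (by positivity)
      _ = κ / ‖ρ‖ * (Real.exp (-X) * (‖Rl‖ / ‖Rt‖) ^ Fintype.card ι) * ‖ρ‖ ^ 2 := by field_simp
      _ ≤ _ := by gcongr
  have G2 : GoodAt (qccU A B P α) (qccV A B P α) z ‖Rt‖ := by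
    intro x hx hg
    exact G1 x (qcc_tri_le hx (by rwa [norm_sub_rev])) hg
  have G3 : GoodAt (qccU A B P α) (qccV A B P α) z ‖Rl‖ := by
    refine propagate Rc hU hV z hRt0 hRl G2 fun ρ hρ1 hρ2 => ?_
    rw [min_eq_right hlt] at hρ1
    rw [max_eq_left hlt] at hρ2
    have pρ : 0 < ‖ρ‖ := pl.trans_le hρ1
    refine qcc_bdd hal (norm_pos_iff.1 pρ) fun x hx hg => Or.inl (hϱ.trans_le ?_)
    have k := S.vis hm hX1 pl hlt pρ hρ2 le_rfl
      (qcc_tri_le (hx.trans hρ2) (by rwa [norm_sub_rev])) (qcc_gen_q hg)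
    calc _ ≤ κ * Real.exp (-X) * ‖Rl‖ * (‖Rl‖ / ‖Rt‖) ^ (Fintype.card ι + Fintype.card ι + 1) :=
          mul_le_mul (mul_le_mul_of_nonneg_left (c1.trans c0l.le) (by positivity))
            (hq _ (by omega)) (by positivity) (by positivity)
      _ = κ / ‖Rt‖ * (Real.exp (-X) * (‖Rl‖ / ‖Rt‖) ^ Fintype.card ι)
          * (‖Rl‖ / ‖Rt‖) ^ Fintype.card ι * ‖Rl‖ ^ 2 := by
          rw [pow_succ, pow_add]
          field_simp
      _ ≤ κ / ‖Rt‖ * (Real.exp (-X) * (‖Rl‖ / ‖Rt‖) ^ Fintype.card ι)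
          * (‖ρ‖ / ‖Rt‖) ^ Fintype.card ι * ‖ρ‖ ^ 2 := by gcongr
      _ ≤ _ := by gcongr
  have hvis : ∀ ρ x : K, ‖r1‖ ≤ ‖ρ‖ → ‖ρ‖ ≤ ‖Rl‖ → ‖x - z‖ ≤ ‖ρ‖ →
      Gen (qccU A B P α * qccV A B P α) x ‖ρ‖ →
      ‖ϱ‖ < ‖qf P α (A.eval x / B.eval x)‖ * ‖ρ * (wr A B).eval x / B.eval x ^ 2‖ ^ 2 := by
    intro ρ x hρ1 hρ2 hx hg
    obtain ⟨-, k2, -, k4⟩ := S.img hN h0 h1 hj' hz1 hz hRl1 hpole hs hs' hX2
      (norm_pos_iff.1 (p1.trans_le hρ1)) hρ2 hx hg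
    refine hϱ.trans_le (le_trans ?_ k4)
    refine (mul_le_of_le_one_right (by positivity) (pow_le_one₀ q0.le q1)).trans ?_
    refine mul_le_mul_of_nonneg_left (le_trans ?_ k2) (by positivity)
    gcongr
  have c1l : ‖r1‖ ≤ ‖Rl‖ := (c10.trans c0l).le
  have G4 : GoodAt (qccU A B P α) (qccV A B P α) z ‖r1‖ := by
    refine propagate Rc hU hV z hRl hr10 G3 fun ρ hρ1 hρ2 => ?_
    rw [min_eq_right c1l] at hρ1
    rw [max_eq_left c1l] at hρ2
    exact qcc_bdd hal (norm_pos_iff.1 (p1.trans_le hρ1)) fun x hx hg =>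
      Or.inr (hvis ρ x hρ1 hρ2 hx hg)
  obtain ⟨x, hx, hg⟩ := exists_gen hN (mul_ne_zero hU hV) z hr10
  obtain ⟨k1, -, k3, -⟩ := S.img hN h0 h1 hj' hz1 hz hRl1 hpole hs hs' hX2 hr10 c1l hx.le hg
  obtain ⟨-, hB, -, -, hW, -⟩ := qcc_factors (hg.ne_zero p1)
  have hρ' : r1 * (wr A B).eval x / B.eval x ^ 2 ≠ 0 :=
    div_ne_zero (mul_ne_zero hr10 hW) (pow_ne_zero 2 hB)
  have k5 : ‖A.eval x / B.eval x - P (nxt j)‖ < κ * ‖r0‖ := by
    rw [← k1]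
    refine k3.trans_lt ?_
    calc Real.exp (2 * h) * ‖r1‖ < Real.exp (2 * h) * (κ * Real.exp (-(2 * h)) * ‖r0‖) := by gcongr
      _ = Real.exp (2 * h) * Real.exp (-(2 * h)) * (κ * ‖r0‖) := by ring
      _ = _ := by rw [← Real.exp_add, add_neg_cancel, Real.exp_zero, one_mul]
  obtain ⟨y, hy, hy0, hy1⟩ := S.second hj hj' (w := A.eval x / B.eval x)
    (sub_ne_zero.1 (norm_pos_iff.1 (by rw [← k1]; exact norm_pos_iff.2 hρ')))
    (k5.trans_le ((mul_le_of_le_one_left p0.le hκ1).trans (c0.le.trans x5)))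
  have hy2 : ‖y - P j‖ < ‖r0‖ := lt_of_mul_lt_mul_left (hy1.trans_lt k5) hκ.le
  obtain ⟨t1, -, -, -, -, t6, t7⟩ := S.tiny hj hj' hy0 (hy2.trans c0)
  have hfy : A.eval y / B.eval y = A.eval x / B.eval x := by
    rw [hy, mul_div_cancel_right₀ _ t1]
  rw [hfy] at t6 t7
  have hzP : ‖r0‖ < ‖z - P j‖ := by
    by_contra hle
    push Not at hle
    obtain ⟨u1, -, -, -, u5, -⟩ := S.tiny hj hj' hzj (hle.trans_lt c0)
    exact u5 (by rw [hz, mul_div_cancel_right₀ _ u1])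
  have hxy : ‖r0‖ < ‖x - y‖ := by
    have a1 : ‖y - z‖ = ‖P j - z‖ :=
      qcc_tri_eq (y := P j) (by rw [norm_sub_rev (P j)]; exact hy2.trans hzP)
    have a2 : ‖r0‖ < ‖z - y‖ := by
      rw [norm_sub_rev, a1, norm_sub_rev]
      exact hzP
    rw [qcc_tri_eq (y := z) (by rw [hx]; exact c10.trans a2)]
    exact a2
  have hgy : Gen (nq P α * pp P * wr A B * B) y ‖y - P j‖ := by
    intro v hv
    by_contra hlt'
    push Not at hlt'
    have a1 : ‖v - P j‖ = ‖y - P j‖ := qcc_tri_eq (y := y) (by rwa [norm_sub_rev])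
    obtain ⟨u1, u2, u3, u4, -⟩ := S.tiny hj hj' (x := v)
      (sub_ne_zero.1 (norm_pos_iff.1 (by rw [a1]; exact norm_pos_iff.2 (sub_ne_zero.2 hy0))))
      (by rw [a1]; exact hy2.trans c0)
    rw [IsRoot.def, eval_mul, eval_mul, eval_mul] at hv
    exact mul_ne_zero (mul_ne_zero (mul_ne_zero u4 u3) u2) u1 hv
  have hth := (hgood x (Or.inr hg)).2 (G4 x hx.le hg)
  have key := hal (κ := Bool) (A.eval x / B.eval x) (r1 * (wr A B).eval x / B.eval x ^ 2)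
    (fun b => cond b x y) (fun b => cond b r1 (y - P j)) (fun _ => 1) hρ'
    (by
      rintro (_ | _)
      · exact sub_ne_zero.2 hy0
      · exact hr10)
    (by
      rintro (_ | _)
      · exact hy
      · exact (div_mul_cancel₀ _ hB).symm)
    (by
      rintro (_ | _)
      · rw [k1]
        exact t6
      · exact qcc_rho hB)
    (by
      rintro (_ | _)
      · exact hgy
      · exact qcc_gen_src hg)
    (qcc_gen_img hr10 hg)
    (by
      rintro (_ | _) (_ | _) hne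
      · exact absurd rfl hne
      · exact (hy2.trans hxy).le.trans_eq (norm_sub_rev _ _)
      · exact (c10.trans hxy).le
      · exact absurd rfl hne)
    (hvis r1 x le_rfl c1l hx.le hg)
    (by
      rw [map_one, ← norm_one (α := K)]
      rintro (_ | _)
      · exact t7
      · exact hth)
  norm_num at key

omit [IsAlgClosed K] [DecidableEq ι] in
theorem qcc_mom (ch : Chart d h A B lw c nxt P) (hd : 1 ≤ d) (hh : 0 ≤ h) {ε : ℝ} (hε : 0 ≤ ε)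
    (hb : ∀ i, ‖bet A B nxt P α i‖ ≤ ε) (hf : ∀ μ, μ ≤ 2 * d → ‖fm B nxt P α μ‖ ≤ ε) {e : ℕ}
    (he : e ≤ 1) : ‖∑ i, α i * P i ^ e‖ ≤ ε * Real.exp (2 * h) := by
  have hW : (wr A B).natDegree < 2 * d :=
    (natDegree_wr_le ch.degA ch.degB).trans_lt (by omega)
  have e1 : ∑ i, α i * P i ^ e = ∑ i, bet A B nxt P α i * P i ^ e +
      ∑ μ ∈ Finset.range (2 * d), (wr A B).coeff μ * fm B nxt P α (μ + e) := by
    simp only [fm, Finset.mul_sum]
    rw [Finset.sum_comm, ← Finset.sum_add_distrib]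
    refine Finset.sum_congr rfl fun i _ => ?_
    have e2 : ∑ μ ∈ Finset.range (2 * d),
        (wr A B).coeff μ * (α (nxt i) * P i ^ (μ + e) / B.eval (P i) ^ 2)
        = α (nxt i) * (wr A B).eval (P i) / B.eval (P i) ^ 2 * P i ^ e := by
      rw [eval_eq_sum_range' hW, Finset.mul_sum, Finset.sum_div, Finset.sum_mul]
      refine Finset.sum_congr rfl fun μ _ => ?_
      rw [pow_add]
      ring
    rw [e2, bet]
    ring
  have h1 : 1 ≤ Real.exp (2 * h) := Real.one_le_exp (by linarith)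
  rw [e1]
  refine qcc_add_le (IsUltrametricDist.norm_sum_le_of_forall_le_of_nonneg (by positivity)
    fun i _ => ?_) (IsUltrametricDist.norm_sum_le_of_forall_le_of_nonneg (by positivity)
    fun μ hμ => ?_)
  · rw [norm_mul, norm_pow]
    exact mul_le_mul (hb i) ((pow_le_one₀ (norm_nonneg _) (ch.Ple i)).trans h1) (by positivity) hε
  · rw [norm_mul, mul_comm]
    exact mul_le_mul (hf _ (by have := Finset.mem_range.1 hμ; omega)) (qcc_W_coeff ch μ)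
      (norm_nonneg _) hε

omit [IsAlgClosed K] in
theorem qcc_pert (ch : Chart d h A B lw c nxt P) (hd : 1 ≤ d) (hh : 0 ≤ h) {ε : ℝ} (hε : 0 ≤ ε)
    (hcard : 2 ≤ Fintype.card ι) (htb : 0 ≤ tb)
    (hsep : ∀ i l, i ≠ l → Real.exp (-tb) ≤ ‖P i - P l‖)
    (hb : ∀ i, ‖bet A B nxt P α i‖ ≤ ε) (hf : ∀ μ, μ ≤ 2 * d → ‖fm B nxt P α μ‖ ≤ ε) :
    ∃ β : ι → K, (∀ i, ‖β i - α i‖ ≤ ε * Real.exp (6 * h + tb)) ∧ ∑ i, β i = 0 ∧
      ∑ i, β i * P i = 0 ∧ (∀ i, ‖bet A B nxt P β i‖ ≤ ε * Real.exp (6 * h + tb)) ∧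
      ∀ μ, μ ≤ 2 * d → ‖fm B nxt P β μ‖ ≤ ε * Real.exp (6 * h + tb) := by
  have m0 := qcc_mom ch hd hh hε hb hf (e := 0) (by norm_num)
  have m1 := qcc_mom ch hd hh hε hb hf (e := 1) le_rfl
  simp only [pow_zero, mul_one] at m0
  simp only [pow_one] at m1
  obtain ⟨i0, i1, h01⟩ := Fintype.exists_pair_of_one_lt_card (α := ι) (by omega)
  have hs := hsep i1 i0 h01.symm
  have hs0 : P i1 - P i0 ≠ 0 := norm_pos_iff.1 ((Real.exp_pos _).trans_le hs)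
  have le : ∀ u v : ℝ, u ≤ v → ε * Real.exp u ≤ ε * Real.exp v := fun u v huv =>
    mul_le_mul_of_nonneg_left (Real.exp_le_exp.2 huv) hε
  obtain ⟨δ, hδ, hδ0, hδ1⟩ : ∃ δ : ι → K, (∀ i, ‖δ i‖ ≤ ε * Real.exp (2 * h + tb)) ∧
      ∑ i, δ i = -∑ i, α i ∧ ∑ i, δ i * P i = -∑ i, α i * P i := by
    generalize ∑ i, α i = M0 at *
    generalize ∑ i, α i * P i = M1 at *
    have k1 : ‖(M0 * P i0 - M1) / (P i1 - P i0)‖ ≤ ε * Real.exp (2 * h + tb) := by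
      rw [norm_div, div_le_iff₀ (norm_pos_iff.2 hs0)]
      refine le_trans (qcc_sub_le ?_ m1) ?_
      · rw [norm_mul]
        exact (mul_le_of_le_one_right (norm_nonneg _) (ch.Ple i0)).trans m0
      · calc ε * Real.exp (2 * h) = ε * Real.exp (2 * h + tb) * Real.exp (-tb) := by
              rw [mul_assoc, ← Real.exp_add, add_neg_cancel_right]
          _ ≤ _ := by gcongr
    refine ⟨fun i => (if i = i0 then -M0 - (M0 * P i0 - M1) / (P i1 - P i0) else 0) +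
      (if i = i1 then (M0 * P i0 - M1) / (P i1 - P i0) else 0), fun i => qcc_add_le ?_ ?_, ?_, ?_⟩
    · split_ifs
      · refine qcc_sub_le ?_ k1
        rw [norm_neg]
        exact m0.trans (le _ _ (by linarith))
      · rw [norm_zero]
        positivity
    · split_ifs
      · exact k1
      · rw [norm_zero]
        positivity
    · simp [Finset.sum_add_distrib]
    · simp only [add_mul, Finset.sum_add_distrib, ite_mul, zero_mul, Finset.sum_ite_eq',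
        Finset.mem_univ, if_true]
      field_simp
      ring
  have hε' : ε ≤ ε * Real.exp (6 * h + tb) :=
    le_mul_of_one_le_right hε (Real.one_le_exp (by linarith))
  have hB : ∀ i (w : K) (u : ℝ), ‖w‖ ≤ Real.exp u →
      ‖δ (nxt i) * w / B.eval (P i) ^ 2‖ ≤ ε * Real.exp (4 * h + tb + u) := by
    intro i w u hw
    have k1 := qcc_B_P ch i
    have k2 := Real.exp_pos (-h)
    have k3 := hδ (nxt i)
    rw [norm_div, norm_mul, norm_pow, div_le_iff₀ (pow_pos (k2.trans_le k1) 2)]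
    calc ‖δ (nxt i)‖ * ‖w‖ ≤ ε * Real.exp (2 * h + tb) * Real.exp u := by gcongr
      _ = ε * Real.exp (4 * h + tb + u) * Real.exp (-h) ^ 2 := by
          rw [mul_assoc, mul_assoc, ← Real.exp_nat_mul, ← Real.exp_add, ← Real.exp_add]
          congr 2
          push_cast
          ring
      _ ≤ _ := by gcongr
  refine ⟨fun i => α i + δ i, fun i => ?_, ?_, ?_, fun i => ?_, fun μ hμ => ?_⟩
  · rw [add_sub_cancel_left]
    exact (hδ i).trans (le _ _ (by linarith))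
  · rw [Finset.sum_add_distrib, hδ0, add_neg_cancel]
  · simp only [add_mul]
    rw [Finset.sum_add_distrib, hδ1, add_neg_cancel]
  · have e : bet A B nxt P (fun i => α i + δ i) i = bet A B nxt P α i +
        (δ i - δ (nxt i) * (wr A B).eval (P i) / B.eval (P i) ^ 2) := by
      simp only [bet]
      ring
    rw [e]
    refine qcc_add_le ((hb i).trans hε') (qcc_sub_le ((hδ i).trans (le _ _ (by linarith))) ?_)
    exact (hB i _ (2 * h) (eval_le_of_coeff (qcc_W_coeff ch) (ch.Ple i))).trans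
      (le _ _ (by linarith))
  · have e : fm B nxt P (fun i => α i + δ i) μ = fm B nxt P α μ +
        ∑ i, δ (nxt i) * P i ^ μ / B.eval (P i) ^ 2 := by
      simp only [fm]
      rw [← Finset.sum_add_distrib]
      refine Finset.sum_congr rfl fun i _ => ?_
      ring
    rw [e]
    refine qcc_add_le ((hf μ hμ).trans hε')
      (IsUltrametricDist.norm_sum_le_of_forall_le_of_nonneg (by positivity) fun i _ => ?_)
    refine (hB i _ 0 ?_).trans (le _ _ (by linarith))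
    rw [Real.exp_zero, norm_pow]
    exact pow_le_one₀ (norm_nonneg _) (ch.Ple i)

end core

open Classical in
/-- Write `W = wr A B`, `g j = A - C (P j) * B`, `f x = A x / B x`, `n = card ι`, `E` for the bracket
in the conclusion (each of its terms is nonnegative and `h ≤ E`), and suppose `ε < exp (-(C0 * E))`.
On the unit disc `exp (-h) ≤ ‖B x‖` whenever `‖A x‖ ≤ ‖B x‖` (so at `P i`, `c i`, `z`).
All auxiliary radii are norms of powers of `ϖ`.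

Step 0 (moments).  `∑ α i * P i ^ e = ∑ μ, (W * X ^ e).coeff μ * fm μ + ∑ bet i * P i ^ e` for
`e = 0, 1`, so both moments are at most `ε * exp (2 h)`.  Change `α` at two indices `i0 ≠ i1` by at
most `ε * exp (2 h + tb)` to make both vanish; norms that are at least `κ` do not change, and the new
`bet`, `fm` are at most `ε' = ε * exp (6 h + tb)`.
Choose `r0 = ϖ ^ a0` with `‖r0‖ < κ ^ 2 * exp (-tb - 4 h) * ‖Rl‖`, `r1 = ϖ ^ a1` with
`‖r1‖ < κ * exp (-2 h) * ‖r0‖`, and `ϱ = ϖ ^ a2` below `exp (-2 h)` and below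
`κ * exp (-2 h) * ‖r1‖ ^ d * exp (-X) * (‖Rl‖ / ‖Rt‖) ^ (2 * (n + 2))`, each within a factor
`exp (-2 h)` of its bound; then `ε' ≤ ‖ϱ‖ ^ D` for `C0` large, and `al` applies.

Tiny lemma.  If `κ ≤ ‖α i‖`, `κ ≤ ‖α (nxt i)‖` and `0 < ‖x - P i‖ ≤ ‖r0‖`, then with
`Dv = W (P i) / B (P i) ^ 2` (of norm `‖α i‖ / ‖α (nxt i)‖ ∈ [κ, 1 / κ]`) and `≈` meaning relative
error less than one: `B x ≈ B (P i)`, `W x ≈ W (P i)`, `f x - P (nxt i) ≈ Dv * (x - P i)`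
(`eval_sub_le`, `eval_taylor_le`), `qf x ≈ α i / (x - P i)`, `qf (f x) ≈ α (nxt i) / (f x - P (nxt i))`;
so `ϑ x = qf x * B x ^ 4 / (W x ^ 2 * qf (f x)) ≈ 1`.

Let `hs p = C (lead p) * ∏ (A - C y * B)` over the roots `y` of `p`, so
`hs p (x) = B x ^ natDegree p * p (f x)`.  `ϑ = U / V` with
`U = nq * B ^ 4 * hs pp * B ^ natDegree nq`, `V = pp * W ^ 2 * hs nq * B ^ n`, both nonzero.  If
`Gen (U * V) x ‖ρ‖` then with `ρ' = ρ * W x / B x ^ 2` the point `f x` satisfies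
`Gen (nq * pp) (f x) ‖ρ'‖` (`wd0_quot`), so `al` with one point gives `BddAt` as soon as
`‖ϱ‖ < ‖qf (f x)‖ * ‖ρ'‖ ^ 2`, and when `‖U x‖ = ‖V x‖` this number equals `‖qf x‖ * ‖ρ‖ ^ 2`.
For `y` generic at `(P i, r)`: `‖α i‖ * r * exp (-∑ l ≠ i, max 0 (log (r / ‖P l - P i‖))) ≤ ‖qf y‖ r ^ 2`
because `‖nq (P i)‖ ≤ gn nq (P i) r = ‖nq y‖`.

Step 1: `GoodAt U V (P m) ‖r0‖` by the tiny lemma; `propagate` up to `‖Rt‖` (for `r ≥ ‖Rl‖` the sum
is at most `X + n * log (‖Rt‖ / ‖Rl‖)`).  Step 2: this is `GoodAt U V z ‖Rt‖`; `propagate` down to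
`‖Rl‖` with `gn_congr`, `gn_lower`, `gn_mono`.  Step 3: `propagate` down to `‖r1‖`: by `wd1` for
`g (nxt j)`, `‖ρ'‖ = ‖f x - P (nxt j)‖ ∈ [exp (-2 h) * ‖r1‖ ^ d, exp (2 h) * ‖ρ‖]` (`lead_le_gn`,
`glead`); if `‖P l - P (nxt j)‖ < ‖ρ'‖` then `g l` has a root within `‖ρ‖` of `z` (otherwise
`norm_eval_eq_of_no_root` gives `‖g l x‖ = ‖g l z‖`, false), so the image is visible.
Step 4: take `x` generic at `(z, ‖r1‖)`, `w = f x`, and by `root_in_disc` for `A - C w * B` at `P j` a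
second preimage `x'` with `0 < ‖x' - P j‖ ≤ ‖r0‖`; the tiny lemma gives `ϑ x' ≈ 1`, genericity of
`x'` at radius `‖x' - P j‖`, and `‖r0‖ < ‖z - P j‖ = ‖x - x'‖`.  `al` with two points gives
`2 ≤ 1`. -/
theorem qcc (d : ℕ) (hd : 2 ≤ d) : ∃ C0 : ℝ, 0 < C0 ∧
    ∀ {K : Type} [NormedField K] [IsUltrametricDist K] [IsAlgClosed K]
      (_Tr : Transfer K (fun x => ‖x‖)) {h : ℝ} {ϖ : K}, 0 < h → ‖ϖ‖ = Real.exp (-h) →
      ∀ {ι : Type} [Fintype ι] [DecidableEq ι] {A B : K[X]} {lw : K} {c : Fin (2 * d - 2) → K}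
      {nxt : ι ≃ ι} {P : ι → K}, Chart d h A B lw c nxt P → 2 ≤ Fintype.card ι →
      ∀ (α : ι → K) (κ tb X ε : ℝ) (m j : ι) (z Rt Rl : K),
      (∀ i, ‖α i‖ ≤ 1) → 0 < κ → κ ≤ ‖α m‖ → κ ≤ ‖α (nxt m)‖ → κ ≤ ‖α j‖ → κ ≤ ‖α (nxt j)‖ →
      0 ≤ tb → (∀ i l, i ≠ l → Real.exp (-tb) ≤ ‖P i - P l‖) →
      ‖z‖ ≤ 1 → A.eval z = P (nxt j) * B.eval z → z ≠ P j →
      Rl ≠ 0 → ‖Rl‖ ≤ ‖Rt‖ → ‖Rt‖ ≤ 1 → ‖P m - z‖ ≤ ‖Rt‖ →
      (∀ y, B.IsRoot y → ‖Rl‖ < ‖y - z‖) → 0 ≤ X →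
      ∑ l ∈ Finset.univ.erase m, max 0 (Real.log (‖Rl‖ / ‖P l - P m‖)) ≤ X →
      ∑ l ∈ (Finset.univ.erase (nxt j)).filter
          (fun l => ∃ y, A.eval y = P l * B.eval y ∧ ‖y - z‖ ≤ ‖Rl‖),
        max 0 (Real.log (Real.exp (2 * h) * ‖Rl‖ / ‖P l - P (nxt j)‖)) ≤ X →
      (∀ i, ‖bet A B nxt P α i‖ ≤ ε) → (∀ μ, μ ≤ 2 * d → ‖fm B nxt P α μ‖ ≤ ε) →
      Real.exp (-(C0 * (h - Real.log κ + tb + X +
        (Fintype.card ι + 2) * Real.log (‖Rt‖ / ‖Rl‖) - Real.log ‖Rl‖))) ≤ ε := by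
  obtain ⟨D, hD⟩ := al d hd
  refine ⟨D * (8 * d + 3) + 7, by positivity, ?_⟩
  intro K _ _ _ Tr h ϖ hh hϖ ι _ _ A B lw c nxt P ch hcard α κ tb X ε m j z Rt Rl hα hκ hm hm' hj
    hj' htb hsep hz1 hz hzj hRl hlt hRt hmz hpole hX hX1 hX2 hb hf
  by_contra hcon
  push Not at hcon
  have h0 : 0 < ‖ϖ‖ := by
    rw [hϖ]
    exact Real.exp_pos _
  have h1 : ‖ϖ‖ < 1 := by
    rw [hϖ]
    exact Real.exp_lt_one_iff.2 (by linarith)
  have hκ1 : κ ≤ 1 := hm.trans (hα m)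
  have pl : 0 < ‖Rl‖ := norm_pos_iff.2 hRl
  have pt : 0 < ‖Rt‖ := pl.trans_le hlt
  have hε : 0 ≤ ε := (norm_nonneg _).trans (hb m)
  obtain ⟨b, hb0, eb⟩ : ∃ b : ℝ, 0 ≤ b ∧ κ = Real.exp (-b) :=
    ⟨-Real.log κ, neg_nonneg.2 (Real.log_nonpos hκ.le hκ1), by rw [neg_neg, Real.exp_log hκ]⟩
  obtain ⟨l, hl0, el⟩ : ∃ l : ℝ, 0 ≤ l ∧ ‖Rl‖ = Real.exp (-l) :=
    ⟨-Real.log ‖Rl‖, neg_nonneg.2 (Real.log_nonpos pl.le (hlt.trans hRt)),
      by rw [neg_neg, Real.exp_log pl]⟩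
  obtain ⟨L, hL0, eL, eL'⟩ : ∃ L : ℝ, 0 ≤ L ∧
      (Fintype.card ι + 2) * Real.log (‖Rt‖ / ‖Rl‖) = L ∧
      (‖Rl‖ / ‖Rt‖) ^ (2 * (Fintype.card ι + 2)) = Real.exp (-(2 * L)) := by
    refine ⟨_, mul_nonneg (by positivity) (Real.log_nonneg ((one_le_div pl).2 hlt)), rfl, ?_⟩
    rw [← Real.exp_log (div_pos pl pt), ← Real.exp_nat_mul, ← inv_div ‖Rt‖, Real.log_inv]
    congr 1
    push_cast
    ring
  have e1 : Real.log κ = -b := by rw [eb, Real.log_exp]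
  have e2 : Real.log ‖Rl‖ = -l := by rw [el, Real.log_exp]
  rw [eL, e1, e2] at hcon
  obtain ⟨E, hE⟩ : ∃ E : ℝ, E = h - -b + tb + X + L - -l := ⟨_, rfl⟩
  rw [← hE] at hcon
  have hE0 : 0 < E := by linarith
  have hDE : 0 ≤ (D : ℝ) * ((8 * d + 3) * E) := by positivity
  obtain ⟨β, hβ, s0, s1, hb', hf'⟩ := qcc_pert ch (by omega) hh.le hε hcard htb hsep hb hf
  have k0 : ε * Real.exp (6 * h + tb) < Real.exp (-(D * ((8 * d + 3) * E)) - E) := by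
    calc ε * Real.exp (6 * h + tb)
        < Real.exp (-((D * (8 * d + 3) + 7) * E)) * Real.exp (6 * h + tb) := by gcongr
      _ ≤ _ := by
          rw [← Real.exp_add]
          exact Real.exp_le_exp.2 (by linarith)
  have k1 : ε * Real.exp (6 * h + tb) < κ := by
    refine k0.trans_le ?_
    rw [eb]
    exact Real.exp_le_exp.2 (by linarith)
  have hβ1 : ∀ i, ‖β i‖ ≤ 1 := fun i => qcc_mem_one (hα i) (hβ i) (k1.le.trans hκ1)
  have hβ2 : ∀ i, κ ≤ ‖α i‖ → κ ≤ ‖β i‖ := fun i hi =>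
    hi.trans_eq (QccAp.norm_eq (((hβ i).trans_lt k1).trans_le hi)).symm
  have S : QccS d h A B lw c nxt P β κ tb :=
    ⟨ch, hh, hβ1, hκ, hκ1, htb, hsep, fun i => (hb' i).trans_lt k1⟩
  obtain ⟨r0, a0, b0⟩ := exists_norm_between h0 h1 (Real.exp_pos (-(5 * E)))
    (u' := κ ^ 2 * Real.exp (-tb - 4 * h) * ‖Rl‖) (by
      rw [eb, el, ← Real.exp_nat_mul, ← Real.exp_add, ← Real.exp_add]
      refine Real.exp_lt_exp.2 ?_
      push_cast
      linarith)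
  obtain ⟨r1, a1, b1⟩ := exists_norm_between h0 h1 (Real.exp_pos (-(8 * E)))
    (u' := κ * Real.exp (-(2 * h)) * ‖r0‖) (by
      refine lt_of_le_of_lt ?_ (mul_lt_mul_of_pos_left a0 (by positivity))
      rw [eb, ← Real.exp_add, ← Real.exp_add]
      exact Real.exp_le_exp.2 (by linarith))
  obtain ⟨ϱ, a2, b2⟩ := exists_norm_between h0 h1 (Real.exp_pos (-((8 * d + 3) * E)))
    (u' := κ * Real.exp (-X) * (Real.exp (-(2 * h)) * ‖r1‖ ^ d) *
      (‖Rl‖ / ‖Rt‖) ^ (2 * (Fintype.card ι + 2))) (by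
      rw [eL']
      calc Real.exp (-((8 * d + 3) * E)) < κ * Real.exp (-X) *
            (Real.exp (-(2 * h)) * Real.exp (-(8 * E)) ^ d) * Real.exp (-(2 * L)) := by
            rw [eb, ← Real.exp_nat_mul, ← Real.exp_add, ← Real.exp_add, ← Real.exp_add,
              ← Real.exp_add]
            exact Real.exp_lt_exp.2 (by linarith)
        _ ≤ _ := by gcongr)
  have p0 : 0 < ‖r0‖ := (Real.exp_pos _).trans a0
  have p1 : 0 < ‖r1‖ := (Real.exp_pos _).trans a1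
  have p2 : 0 < ‖ϱ‖ := (Real.exp_pos _).trans a2
  have x2 : Real.exp (-(2 * h)) ≤ 1 := Real.exp_le_one_iff.2 (by linarith)
  have c0 : ‖r0‖ ≤ 1 := b0.le.trans (mul_le_one₀ (mul_le_one₀ (pow_le_one₀ hκ.le hκ1)
    (Real.exp_pos _).le (Real.exp_le_one_iff.2 (by linarith))) pl.le (hlt.trans hRt))
  have c1 : ‖r1‖ ≤ 1 :=
    b1.le.trans (mul_le_one₀ (mul_le_one₀ hκ1 (Real.exp_pos _).le x2) p0.le c0)
  have c2 : ‖ϱ‖ < Real.exp (-(2 * h)) := by
    refine b2.trans_le ?_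
    rw [eL']
    refine (mul_le_of_le_one_right (by positivity) (Real.exp_le_one_iff.2 (by linarith))).trans ?_
    refine (mul_le_of_le_one_left (by positivity) (mul_le_one₀ hκ1 (Real.exp_pos _).le
      (Real.exp_le_one_iff.2 (by linarith)))).trans ?_
    exact mul_le_of_le_one_right (Real.exp_pos _).le (pow_le_one₀ p1.le c1)
  have c3 : ‖ϱ‖ < Real.exp (-h) := c2.trans_le (Real.exp_le_exp.2 (by linarith))
  have c4 : ∀ t : ℝ, t ≤ Real.exp h → t * ‖ϱ‖ < 1 := by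
    intro t ht
    calc t * ‖ϱ‖ ≤ Real.exp h * ‖ϱ‖ := by gcongr
      _ < Real.exp h * Real.exp (-h) := by gcongr
      _ = 1 := by rw [← Real.exp_add, add_neg_cancel, Real.exp_zero]
  have c5 : ε * Real.exp (6 * h + tb) ≤ ‖ϱ‖ ^ D := by
    refine k0.le.trans (le_trans ?_ (pow_le_pow_left₀ (Real.exp_pos _).le a2.le D))
    rw [← Real.exp_nat_mul]
    exact Real.exp_le_exp.2 (by linarith)
  have hal : QccAL Tr.toResC A B P β ϱ :=
    hD Tr A B nxt P β ϱ lw c p2 (c2.trans_le x2) ch.degA ch.degB (fun i => c4 _ (ch.coA i))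
      (fun i => c4 _ (ch.coB i)) (c3.trans_le ch.lowInf) ch.wfac (c2.trans_le ch.lwlow) ch.cle
      (fun i => c3.trans_le (qcc_B_low ch (ch.cle i) (ch.cval i))) ch.Ple
      (fun i => c3.trans_le (qcc_B_P ch i)) ch.orb hβ1 s0 s1 (fun i => (hb' i).trans c5)
      (fun μ hμ => (hf' μ hμ).trans c5)
  exact qcc_core Tr.toResC h0 h1 (by omega) S hal (hβ2 _ hm) (hβ2 _ hm') (hβ2 _ hj) (hβ2 _ hj')
    hz1 hz hzj hRl hlt hRt hmz hpole hX1 (Finset.filter_subset _ _)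
    (fun l hl hy => Finset.mem_filter.2 ⟨Finset.mem_erase.2 ⟨hl, Finset.mem_univ l⟩, hy⟩) hX2
    (norm_pos_iff.1 p0) b0 (norm_pos_iff.1 p1) b1 b2

end Pool.Agent.Lib.MP_0dd0d9_ag
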