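import Pool.Agent.Lib.MP_0dd0d9_ag.AL
import Pool.Agent.Lib.MP_0dd0d9_ag.Prop

/-!
Auxiliary facts for `QCC`: relative approximation, the quotient `U / V`, the local analysis near a
point of the cycle.
-/

namespace Pool.Agent.Lib.MP_0dd0d9_ag

open Polynomial

section ultra

variable {K : Type*} [NormedField K] [IsUltrametricDist K]

theorem qcc_add_le {x y : K} {M : ℝ} (hx : ‖x‖ ≤ M) (hy : ‖y‖ ≤ M) : ‖x + y‖ ≤ M :=
  (IsUltrametricDist.norm_add_le_max x y).trans (max_le hx hy)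

theorem qcc_add_lt {x y : K} {M : ℝ} (hx : ‖x‖ < M) (hy : ‖y‖ < M) : ‖x + y‖ < M :=
  (IsUltrametricDist.norm_add_le_max x y).trans_lt (max_lt hx hy)

theorem qcc_sub_le {x y : K} {M : ℝ} (hx : ‖x‖ ≤ M) (hy : ‖y‖ ≤ M) : ‖x - y‖ ≤ M := by
  rw [sub_eq_add_neg]
  exact qcc_add_le hx (by rwa [norm_neg])

theorem qcc_sub_lt {x y : K} {M : ℝ} (hx : ‖x‖ < M) (hy : ‖y‖ < M) : ‖x - y‖ < M := by
  rw [sub_eq_add_neg]
  exact qcc_add_lt hx (by rwa [norm_neg])

theorem qcc_tri_le {x y z : K} {M : ℝ} (h1 : ‖x - y‖ ≤ M) (h2 : ‖y - z‖ ≤ M) : ‖x - z‖ ≤ M := by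
  have h := qcc_add_le h1 h2
  rwa [sub_add_sub_cancel] at h

theorem qcc_add_eq {x y : K} (h : ‖y‖ < ‖x‖) : ‖x + y‖ = ‖x‖ := by
  rw [IsUltrametricDist.norm_add_eq_max_of_norm_ne_norm h.ne', max_eq_left h.le]

theorem qcc_tri_eq {x y z : K} (h : ‖x - y‖ < ‖y - z‖) : ‖x - z‖ = ‖y - z‖ := by
  rw [← qcc_add_eq h]
  congr 1
  ring

theorem qcc_mem_one {x a : K} {r : ℝ} (ha : ‖a‖ ≤ 1) (hx : ‖x - a‖ ≤ r) (hr : r ≤ 1) : ‖x‖ ≤ 1 := by
  have h := qcc_add_le (hx.trans hr) ha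
  rwa [sub_add_cancel] at h

/-- Relative error less than one. -/
def QccAp (x y : K) : Prop := ‖x - y‖ < ‖y‖

omit [IsUltrametricDist K] in
theorem QccAp.ne_right {x y : K} (h : QccAp x y) : y ≠ 0 :=
  norm_pos_iff.1 ((norm_nonneg _).trans_lt h)

theorem QccAp.norm_eq {x y : K} (h : QccAp x y) : ‖x‖ = ‖y‖ := by
  rw [← qcc_add_eq h]
  congr 1
  ring

theorem QccAp.ne_left {x y : K} (h : QccAp x y) : x ≠ 0 := by
  rw [← norm_ne_zero_iff, h.norm_eq, norm_ne_zero_iff]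
  exact h.ne_right

theorem QccAp.symm {x y : K} (h : QccAp x y) : QccAp y x := by
  unfold QccAp
  rw [norm_sub_rev, h.norm_eq]
  exact h

theorem QccAp.trans {x y z : K} (h : QccAp x y) (h' : QccAp y z) : QccAp x z := by
  have h1 : ‖x - y‖ < ‖z‖ := by
    rw [← h'.norm_eq]
    exact h
  have h2 := qcc_add_lt h1 h'
  rwa [sub_add_sub_cancel] at h2

omit [IsUltrametricDist K] in
theorem QccAp.refl {x : K} (h : x ≠ 0) : QccAp x x := by
  unfold QccAp
  rw [sub_self, norm_zero]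
  exact norm_pos_iff.2 h

theorem QccAp.mul {x y x' y' : K} (h : QccAp x y) (h' : QccAp x' y') : QccAp (x * x') (y * y') := by
  have e : x * x' - y * y' = (x - y) * x' + y * (x' - y') := by ring
  unfold QccAp
  rw [e, norm_mul y]
  refine qcc_add_lt ?_ ?_
  · rw [norm_mul, h'.norm_eq]
    exact mul_lt_mul_of_pos_right h (norm_pos_iff.2 h'.ne_right)
  · rw [norm_mul]
    exact mul_lt_mul_of_pos_left h' (norm_pos_iff.2 h.ne_right)

theorem QccAp.inv {x y : K} (h : QccAp x y) : QccAp x⁻¹ y⁻¹ := by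
  have hx := h.ne_left
  have hy := h.ne_right
  have e : x⁻¹ - y⁻¹ = (y - x) * x⁻¹ * y⁻¹ := by field_simp
  unfold QccAp
  rw [e, norm_mul, norm_mul]
  refine mul_lt_of_lt_one_left (norm_pos_iff.2 (inv_ne_zero hy)) ?_
  rw [norm_inv, ← div_eq_mul_inv, div_lt_one (norm_pos_iff.2 hx)]
  exact h.symm

theorem QccAp.div {x y x' y' : K} (h : QccAp x y) (h' : QccAp x' y') : QccAp (x / x') (y / y') := by
  rw [div_eq_mul_inv, div_eq_mul_inv]
  exact h.mul h'.inv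

theorem QccAp.pow {x y : K} (h : QccAp x y) (n : ℕ) : QccAp (x ^ n) (y ^ n) := by
  induction n with
  | zero => simpa using QccAp.refl (one_ne_zero (α := K))
  | succ n ih =>
    rw [pow_succ, pow_succ]
    exact ih.mul h

end ultra

section alg

variable {K : Type*} [Field K] {ι : Type*} [Fintype ι] [DecidableEq ι]

theorem qcc_sum_div (α u : ι → K) (hu : ∀ i, u i ≠ 0) :
    ∑ i, α i / u i = (∑ i, α i * ∏ l ∈ Finset.univ.erase i, u l) / ∏ l, u l := by
  rw [Finset.sum_div]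
  refine Finset.sum_congr rfl fun i _ => ?_
  have h1 : ∏ l ∈ Finset.univ.erase i, u l ≠ 0 := Finset.prod_ne_zero_iff.2 fun l _ => hu l
  have h2 := hu i
  rw [← Finset.mul_prod_erase Finset.univ u (Finset.mem_univ i)]
  field_simp

theorem qcc_eval_nq (P α : ι → K) (x : K) :
    (nq P α).eval x = ∑ i, α i * ∏ l ∈ Finset.univ.erase i, (x - P l) := by
  simp [nq, eval_finsetSum, eval_prod]

omit [DecidableEq ι] in
theorem qcc_eval_pp (P : ι → K) (x : K) : (pp P).eval x = ∏ l, (x - P l) := by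
  simp [pp, eval_prod]

theorem qcc_qf_eq (P α : ι → K) {x : K} (hx : (pp P).eval x ≠ 0) :
    qf P α x = (nq P α).eval x / (pp P).eval x := by
  rw [qcc_eval_pp] at hx
  rw [qcc_eval_nq, qcc_eval_pp, qf]
  exact qcc_sum_div α _ fun i => Finset.prod_ne_zero_iff.1 hx i (Finset.mem_univ i)

theorem qcc_nq_at (P α : ι → K) (i : ι) :
    (nq P α).eval (P i) = α i * ∏ l ∈ Finset.univ.erase i, (P i - P l) := by
  rw [qcc_eval_nq]
  refine Finset.sum_eq_single i (fun j _ hj => ?_) (fun h => absurd (Finset.mem_univ i) h)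
  rw [Finset.prod_eq_zero (i := i) (Finset.mem_erase.2 ⟨hj.symm, Finset.mem_univ i⟩) (sub_self _),
    mul_zero]

theorem qcc_nq_deg (P α : ι → K) : (nq P α).natDegree ≤ Fintype.card ι := by
  refine natDegree_sum_le_of_forall_le _ _ fun i _ => (natDegree_C_mul_le _ _).trans ?_
  refine (natDegree_prod_le _ _).trans ?_
  simp only [natDegree_X_sub_C, Finset.sum_const, smul_eq_mul, mul_one]
  exact Finset.card_le_univ _

/-- Pull back of the numerator. -/
noncomputable def qccN (A B : K[X]) (P α : ι → K) : K[X] :=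
  ∑ i, C (α i) * ∏ l ∈ Finset.univ.erase i, (A - C (P l) * B)

/-- Pull back of the denominator. -/
noncomputable def qccP (A B : K[X]) (P : ι → K) : K[X] := ∏ l, (A - C (P l) * B)

/-- Numerator of the quotient. -/
noncomputable def qccU (A B : K[X]) (P α : ι → K) : K[X] := nq P α * B ^ 3 * qccP A B P

/-- Denominator of the quotient. -/
noncomputable def qccV (A B : K[X]) (P α : ι → K) : K[X] := pp P * wr A B ^ 2 * qccN A B P α

variable {A B : K[X]} {P α : ι → K}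

theorem qcc_eval_N (x : K) : (qccN A B P α).eval x =
    ∑ i, α i * ∏ l ∈ Finset.univ.erase i, (A.eval x - P l * B.eval x) := by
  simp [qccN, eval_finsetSum, eval_prod]

omit [DecidableEq ι] in
theorem qcc_eval_P (x : K) : (qccP A B P).eval x = ∏ l, (A.eval x - P l * B.eval x) := by
  simp [qccP, eval_prod]

theorem qcc_eval_N_of {x y : K} (h : A.eval x = y * B.eval x) :
    (qccN A B P α).eval x = B.eval x ^ (Fintype.card ι - 1) * (nq P α).eval y := by
  rw [qcc_eval_N, qcc_eval_nq, Finset.mul_sum]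
  refine Finset.sum_congr rfl fun i _ => ?_
  have e : ∀ l, A.eval x - P l * B.eval x = B.eval x * (y - P l) := fun l => by rw [h]; ring
  simp only [e]
  rw [Finset.prod_mul_distrib, Finset.prod_const, Finset.card_erase_of_mem (Finset.mem_univ i),
    Finset.card_univ]
  ring

theorem qcc_factors {x : K} (h : (qccU A B P α * qccV A B P α).eval x ≠ 0) :
    (nq P α).eval x ≠ 0 ∧ B.eval x ≠ 0 ∧ (qccP A B P).eval x ≠ 0 ∧ (pp P).eval x ≠ 0 ∧
      (wr A B).eval x ≠ 0 ∧ (qccN A B P α).eval x ≠ 0 := by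
  simp only [qccU, qccV, eval_mul, eval_pow, ne_eq, mul_eq_zero, pow_eq_zero_iff', not_or] at h
  refine ⟨h.1.1.1, fun h0 => h.1.1.2 ⟨h0, by norm_num⟩, h.1.2, h.2.1.1,
    fun h0 => h.2.1.2 ⟨h0, by norm_num⟩, h.2.2⟩

theorem qcc_theta {x : K} (h : (qccU A B P α * qccV A B P α).eval x ≠ 0) :
    qf P α x * B.eval x ^ 4 / ((wr A B).eval x ^ 2 * qf P α (A.eval x / B.eval x))
      = (qccU A B P α).eval x / (qccV A B P α).eval x := by
  obtain ⟨-, h2, h3, h4, h5, h6⟩ := qcc_factors h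
  have e : qf P α (A.eval x / B.eval x)
      = B.eval x * ((qccN A B P α).eval x / (qccP A B P).eval x) := by
    have h3' := h3
    rw [qcc_eval_P] at h3'
    rw [qcc_eval_N, qcc_eval_P, ← qcc_sum_div α _
      fun i => Finset.prod_ne_zero_iff.1 h3' i (Finset.mem_univ i), qf, Finset.mul_sum]
    refine Finset.sum_congr rfl fun i _ => ?_
    have h7 := Finset.prod_ne_zero_iff.1 h3' i (Finset.mem_univ i)
    have h8 : A.eval x / B.eval x - P i = (A.eval x - P i * B.eval x) / B.eval x := by field_simp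
    rw [h8]
    field_simp
  rw [e, qcc_qf_eq P α h4]
  simp only [qccU, qccV, eval_mul, eval_pow]
  field_simp

end alg

section gen

variable {K : Type*} [NormedField K] [IsUltrametricDist K] {ι : Type*} [Fintype ι] [DecidableEq ι]
  {A B : K[X]} {P α : ι → K}

omit [IsUltrametricDist K] in
theorem qcc_gen_of {p : K[X]} {x : K} {r : ℝ} (hg : Gen (qccU A B P α * qccV A B P α) x r)
    (hp : ∀ y, p.eval y = 0 → (nq P α).eval y = 0 ∨ B.eval y = 0 ∨ (qccP A B P).eval y = 0 ∨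
      (pp P).eval y = 0 ∨ (wr A B).eval y = 0 ∨ (qccN A B P α).eval y = 0) : Gen p x r := by
  intro y hy
  refine hg y ?_
  by_contra h
  have h1 := qcc_factors h
  have h2 := hp y hy
  tauto

omit [IsUltrametricDist K] in
theorem qcc_gen_src {x : K} {r : ℝ} (hg : Gen (qccU A B P α * qccV A B P α) x r) :
    Gen (nq P α * pp P * wr A B * B) x r := by
  refine qcc_gen_of hg fun y hy => ?_
  simp only [eval_mul, mul_eq_zero] at hy
  tauto

omit [IsUltrametricDist K] in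
theorem qcc_gen_q {x : K} {r : ℝ} (hg : Gen (qccU A B P α * qccV A B P α) x r) :
    Gen (nq P α * pp P) x r := by
  refine qcc_gen_of hg fun y hy => ?_
  simp only [eval_mul, mul_eq_zero] at hy
  tauto

omit [IsUltrametricDist K] in
theorem qcc_gen_g {x : K} {r : ℝ} (hg : Gen (qccU A B P α * qccV A B P α) x r) (l : ι) :
    Gen (A - C (P l) * B) x r := by
  refine qcc_gen_of hg fun y hy => Or.inr (Or.inr (Or.inl ?_))
  rw [qcc_eval_P]
  refine Finset.prod_eq_zero (Finset.mem_univ l) ?_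
  simpa using hy

theorem qcc_gen_img [IsAlgClosed K] {x ρ : K} (hρ : ρ ≠ 0)
    (hg : Gen (qccU A B P α * qccV A B P α) x ‖ρ‖) :
    Gen (nq P α * pp P) (A.eval x / B.eval x) ‖ρ * (wr A B).eval x / B.eval x ^ 2‖ := by
  have hr : 0 < ‖ρ‖ := norm_pos_iff.2 hρ
  have hB := (qcc_factors (hg.ne_zero hr)).2.1
  intro y hy
  have h1 : Gen (A - C y * B) x ‖ρ‖ := by
    rw [IsRoot.def, eval_mul, mul_eq_zero] at hy
    rcases hy with hy | hy
    · refine qcc_gen_of hg fun x' hx' => Or.inr (Or.inr (Or.inr (Or.inr (Or.inr ?_))))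
      have e : A.eval x' = y * B.eval x' := by simpa [sub_eq_zero] using hx'
      rw [qcc_eval_N_of e, hy, mul_zero]
    · rw [qcc_eval_pp, Finset.prod_eq_zero_iff] at hy
      obtain ⟨l, -, hl⟩ := hy
      rw [sub_eq_zero.1 hl]
      exact qcc_gen_g hg l
  have h2 : Gen B x ‖ρ‖ := qcc_gen_of hg fun y hy => Or.inr (Or.inl hy)
  have h3 := wd0_quot hr h1 h2
  have hBn : 0 < ‖B.eval x‖ := norm_pos_iff.2 hB
  have e : A.eval x / B.eval x - y = (A.eval x - y * B.eval x) / B.eval x := by field_simp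
  rw [e, norm_div, norm_div, norm_mul, norm_pow, div_le_div_iff₀ (by positivity) hBn]
  nlinarith

theorem qcc_exp_max {R δ : ℝ} (hR : 0 < R) (hδ : 0 < δ) :
    Real.exp (-max 0 (Real.log (R / δ))) * max R δ = δ := by
  rcases le_total R δ with h | h
  · rw [max_eq_right h, max_eq_left (Real.log_nonpos (by positivity) ((div_le_one hδ).2 h))]
    simp
  · rw [max_eq_left h, max_eq_right (Real.log_nonneg ((one_le_div hδ).2 h)), Real.exp_neg,
      Real.exp_log (by positivity)]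
    field_simp

theorem qcc_qf_low [IsAlgClosed K] {i : ι} (hinj : ∀ l, l ≠ i → P l ≠ P i) {x : K} {r R : ℝ}
    (hr : 0 < r) (hrR : r ≤ R) (hx : ‖x - P i‖ ≤ R) (hg : Gen (nq P α * pp P) x r) :
    ‖α i‖ / R * Real.exp (-∑ l ∈ Finset.univ.erase i, max 0 (Real.log (R / ‖P l - P i‖)))
      * (r / R) ^ Fintype.card ι ≤ ‖qf P α x‖ := by
  have hR : 0 < R := hr.trans_le hrR
  obtain ⟨g1, g2⟩ := gen_mul.1 hg
  have hpp := g2.ne_zero hr
  have hq : 0 ≤ r / R := by positivity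
  have h1 : ‖(nq P α).eval (P i)‖ * (r / R) ^ Fintype.card ι ≤ ‖(nq P α).eval x‖ := by
    rw [gn_eq_of_gen (a := x) (by simpa using hr.le) g1]
    refine le_trans ?_ (gn_lower _ x hr hrR)
    rw [gn_congr _ hx]
    exact mul_le_mul (eval_le_gn _ (by simpa using hR.le))
      (pow_le_pow_of_le_one hq ((div_le_one hR).2 hrR) (qcc_nq_deg P α)) (by positivity)
      (gn_nonneg _ _ hR.le)
  have h2 : ‖(pp P).eval x‖ ≤ R * ∏ l ∈ Finset.univ.erase i, max R ‖P l - P i‖ := by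
    rw [qcc_eval_pp, ← Finset.mul_prod_erase Finset.univ _ (Finset.mem_univ i), norm_mul, norm_prod]
    refine mul_le_mul hx (Finset.prod_le_prod (fun _ _ => norm_nonneg _) fun l _ => ?_)
      (Finset.prod_nonneg fun _ _ => norm_nonneg _) hR.le
    refine qcc_tri_le (hx.trans (le_max_left _ _)) ?_
    rw [norm_sub_rev]
    exact le_max_right _ _
  have h3 : Real.exp (-∑ l ∈ Finset.univ.erase i, max 0 (Real.log (R / ‖P l - P i‖)))
      * ∏ l ∈ Finset.univ.erase i, max R ‖P l - P i‖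
      = ∏ l ∈ Finset.univ.erase i, ‖P i - P l‖ := by
    rw [← Finset.sum_neg_distrib, Real.exp_sum, ← Finset.prod_mul_distrib]
    refine Finset.prod_congr rfl fun l hl => ?_
    rw [qcc_exp_max hR (norm_pos_iff.2 (sub_ne_zero.2 (hinj l (Finset.ne_of_mem_erase hl)))),
      norm_sub_rev]
  rw [qcc_qf_eq P α hpp, norm_div, le_div_iff₀ (norm_pos_iff.2 hpp)]
  refine le_trans ?_ h1
  rw [qcc_nq_at, norm_mul, norm_prod, ← h3]
  have he := Real.exp_pos (-∑ l ∈ Finset.univ.erase i, max 0 (Real.log (R / ‖P l - P i‖)))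
  generalize Real.exp (-∑ l ∈ Finset.univ.erase i, max 0 (Real.log (R / ‖P l - P i‖))) = e at *
  calc ‖α i‖ / R * e * (r / R) ^ Fintype.card ι * ‖(pp P).eval x‖
      ≤ ‖α i‖ / R * e * (r / R) ^ Fintype.card ι
        * (R * ∏ l ∈ Finset.univ.erase i, max R ‖P l - P i‖) :=
        mul_le_mul_of_nonneg_left h2 (by positivity)
    _ = _ := by field_simp

/-- The conclusion of `al`. -/
def QccAL (Rc : ResC K (fun x => ‖x‖)) (A B : K[X]) (P α : ι → K) (ϱ : K) : Prop :=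
  ∀ {κ : Type} [Fintype κ] (w ρ' : K) (x ρ : κ → K) (θ : κ → ℂ),
    ρ' ≠ 0 → (∀ j, ρ j ≠ 0) → (∀ j, A.eval (x j) = w * B.eval (x j)) →
    (∀ j, ‖ρ j‖ * ‖(wr A B).eval (x j)‖ = ‖ρ'‖ * ‖B.eval (x j)‖ ^ 2) →
    (∀ j, Gen (nq P α * pp P * wr A B * B) (x j) ‖ρ j‖) → Gen (nq P α * pp P) w ‖ρ'‖ →
    (∀ j l, j ≠ l → ‖ρ j‖ ≤ ‖x j - x l‖) → ‖ϱ‖ < ‖qf P α w‖ * ‖ρ'‖ ^ 2 →
    (∀ j, ‖qf P α (x j) * B.eval (x j) ^ 4 / ((wr A B).eval (x j) ^ 2 * qf P α w) -
      Rc.cst (θ j)‖ < 1) →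
    ∑ j, ‖θ j‖ ≤ 1

omit [IsUltrametricDist K] in
theorem qcc_rho {ρ W B : K} (hB : B ≠ 0) : ‖ρ‖ * ‖W‖ = ‖ρ * W / B ^ 2‖ * ‖B‖ ^ 2 := by
  have h : ‖B‖ ≠ 0 := norm_ne_zero_iff.2 hB
  rw [norm_div, norm_mul, norm_pow]
  field_simp

theorem qcc_bdd [IsAlgClosed K] {Rc : ResC K (fun x => ‖x‖)} {ϱ : K} (hal : QccAL Rc A B P α ϱ)
    {a ρ : K} (hρ : ρ ≠ 0)
    (hvis : ∀ x, ‖x - a‖ ≤ ‖ρ‖ → Gen (qccU A B P α * qccV A B P α) x ‖ρ‖ →
      ‖ϱ‖ < ‖qf P α x‖ * ‖ρ‖ ^ 2 ∨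
      ‖ϱ‖ < ‖qf P α (A.eval x / B.eval x)‖ * ‖ρ * (wr A B).eval x / B.eval x ^ 2‖ ^ 2) :
    BddAt Rc (qccU A B P α) (qccV A B P α) a ‖ρ‖ := by
  intro x hx hg hn θ hθ
  have hr : 0 < ‖ρ‖ := norm_pos_iff.2 hρ
  have h0 := hg.ne_zero hr
  obtain ⟨-, hB, -, -, hW, -⟩ := qcc_factors h0
  have hV : (qccV A B P α).eval x ≠ 0 := norm_pos_iff.1 ((norm_nonneg _).trans_lt hθ)
  have hVn : 0 < ‖(qccV A B P α).eval x‖ := norm_pos_iff.2 hV
  have hth := qcc_theta h0
  have hv : ‖ϱ‖ < ‖qf P α (A.eval x / B.eval x)‖ * ‖ρ * (wr A B).eval x / B.eval x ^ 2‖ ^ 2 := by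
    refine (hvis x hx hg).elim (fun h => h.trans_eq ?_) id
    have h1 := congrArg norm hth
    rw [norm_div (eval x (qccU A B P α)), hn, div_self hVn.ne', norm_div, norm_mul, norm_mul,
      norm_pow, norm_pow] at h1
    have h2 := (div_eq_one_iff_eq (fun h3 => by rw [h3, div_zero] at h1; exact zero_ne_one h1)).1 h1
    have hBn : ‖B.eval x‖ ≠ 0 := norm_ne_zero_iff.2 hB
    rw [norm_div, norm_mul, norm_pow, div_pow, mul_pow, ← mul_div_assoc,
      eq_div_iff (pow_ne_zero 2 (pow_ne_zero 2 hBn))]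
    linear_combination ‖ρ‖ ^ 2 * h2
  have key := hal (κ := Unit) (A.eval x / B.eval x) (ρ * (wr A B).eval x / B.eval x ^ 2)
    (fun _ => x) (fun _ => ρ) (fun _ => θ) (div_ne_zero (mul_ne_zero hρ hW) (pow_ne_zero 2 hB))
    (fun _ => hρ) (fun _ => by field_simp) (fun _ => qcc_rho hB) (fun _ => qcc_gen_src hg)
    (qcc_gen_img hρ hg) (fun j l h => absurd (Subsingleton.elim j l) h) hv (fun _ => by
      have e : (qccU A B P α).eval x / (qccV A B P α).eval x - Rc.cst θ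
          = ((qccU A B P α).eval x - Rc.cst θ * (qccV A B P α).eval x)
            / (qccV A B P α).eval x := by field_simp
      rw [hth, e, norm_div, div_lt_one hVn]
      exact hθ)
  simpa using key

end gen

section chart

variable {K : Type*} [NormedField K] [IsUltrametricDist K] {ι : Type*}
  {d : ℕ} {h : ℝ} {A B : K[X]} {lw : K} {c : Fin (2 * d - 2) → K} {nxt : ι ≃ ι} {P α : ι → K}
  {κ tb : ℝ}

omit [IsUltrametricDist K] in
theorem qcc_B_low (ch : Chart d h A B lw c nxt P) {x : K} (hx : ‖x‖ ≤ 1)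
    (hA : ‖A.eval x‖ ≤ ‖B.eval x‖) : Real.exp (-h) ≤ ‖B.eval x‖ := by
  have := ch.low x hx
  rwa [max_eq_right hA] at this

omit [IsUltrametricDist K] in
theorem qcc_B_low' (ch : Chart d h A B lw c nxt P) {x y : K} (hx : ‖x‖ ≤ 1) (hy : ‖y‖ ≤ 1)
    (hA : A.eval x = y * B.eval x) : Real.exp (-h) ≤ ‖B.eval x‖ := by
  refine qcc_B_low ch hx ?_
  rw [hA, norm_mul]
  exact mul_le_of_le_one_left (norm_nonneg _) hy

omit [IsUltrametricDist K] in
theorem qcc_B_P (ch : Chart d h A B lw c nxt P) (i : ι) : Real.exp (-h) ≤ ‖B.eval (P i)‖ :=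
  qcc_B_low' ch (ch.Ple i) (ch.Ple _) (ch.orb i)

theorem qcc_g_coeff (ch : Chart d h A B lw c nxt P) {y : K} (hy : ‖y‖ ≤ 1) (i : ℕ) :
    ‖(A - C y * B).coeff i‖ ≤ Real.exp h := by
  rw [coeff_sub, coeff_C_mul]
  refine qcc_sub_le (ch.coA i) ?_
  rw [norm_mul]
  exact (mul_le_of_le_one_left (norm_nonneg _) hy).trans (ch.coB i)

theorem qcc_W_coeff (ch : Chart d h A B lw c nxt P) (i : ℕ) :
    ‖(wr A B).coeff i‖ ≤ Real.exp (2 * h) := by
  rw [two_mul, Real.exp_add]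
  exact coeff_wr_le ch.coA ch.coB i

omit [IsUltrametricDist K] in
theorem qcc_W_ne (ch : Chart d h A B lw c nxt P) : wr A B ≠ 0 := by
  rw [ch.wfac]
  refine mul_ne_zero (C_ne_zero.2 (norm_pos_iff.1 ((Real.exp_pos _).trans_le ch.lwlow))) ?_
  exact (monic_prod_of_monic _ _ fun i _ => monic_X_sub_C _).ne_zero

omit [IsUltrametricDist K] in
theorem qcc_g_ne (ch : Chart d h A B lw c nxt P) (y : K) : A - C y * B ≠ 0 := by
  intro h0
  apply qcc_W_ne ch
  rw [← wr_sub_C_mul A B y, h0]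
  simp [wr]

variable [Fintype ι] [DecidableEq ι]

/-- The standing hypotheses of the local analysis. -/
structure QccS (d : ℕ) (h : ℝ) (A B : K[X]) (lw : K) (c : Fin (2 * d - 2) → K) (nxt : ι ≃ ι)
    (P α : ι → K) (κ tb : ℝ) : Prop where
  ch : Chart d h A B lw c nxt P
  hpos : 0 < h
  αle : ∀ i, ‖α i‖ ≤ 1
  κpos : 0 < κ
  κle : κ ≤ 1
  tb0 : 0 ≤ tb
  sep : ∀ i l, i ≠ l → Real.exp (-tb) ≤ ‖P i - P l‖
  bet : ∀ i, ‖bet A B nxt P α i‖ < κ

omit [IsUltrametricDist K] [Fintype ι] [DecidableEq ι] in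
theorem QccS.inj (S : QccS d h A B lw c nxt P α κ tb) {i l : ι} (hl : l ≠ i) : P l ≠ P i :=
  sub_ne_zero.1 (norm_pos_iff.1 ((Real.exp_pos _).trans_le (S.sep l i hl)))

omit [IsUltrametricDist K] in
theorem QccS.nq_ne (S : QccS d h A B lw c nxt P α κ tb) {i : ι} (hi : κ ≤ ‖α i‖) :
    (nq P α).eval (P i) ≠ 0 := by
  rw [qcc_nq_at]
  exact mul_ne_zero (norm_pos_iff.1 (S.κpos.trans_le hi)) (Finset.prod_ne_zero_iff.2 fun l hl =>
    sub_ne_zero.2 (S.inj (Finset.ne_of_mem_erase hl)).symm)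

omit [IsUltrametricDist K] in
theorem QccS.UV_ne (S : QccS d h A B lw c nxt P α κ tb) {i : ι} (hi : κ ≤ ‖α i‖) :
    qccU A B P α ≠ 0 ∧ qccV A B P α ≠ 0 := by
  have hB : ∀ l, B.eval (P l) ≠ 0 := fun l =>
    norm_pos_iff.1 ((Real.exp_pos _).trans_le (qcc_B_P S.ch l))
  have h1 : nq P α ≠ 0 := fun h0 => S.nq_ne hi (by rw [h0, eval_zero])
  have h2 : B ≠ 0 := fun h0 => hB i (by rw [h0, eval_zero])
  have h3 : qccP A B P ≠ 0 := Finset.prod_ne_zero_iff.2 fun l _ => qcc_g_ne S.ch _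
  have h4 : pp P ≠ 0 := (monic_prod_of_monic _ _ fun i _ => monic_X_sub_C _).ne_zero
  have h5 : qccN A B P α ≠ 0 := by
    intro h0
    have e := qcc_eval_N_of (P := P) (α := α) (S.ch.orb (nxt.symm i))
    rw [h0, eval_zero, Equiv.apply_symm_apply] at e
    exact mul_ne_zero (pow_ne_zero _ (hB _)) (S.nq_ne hi) e.symm
  exact ⟨mul_ne_zero (mul_ne_zero h1 (pow_ne_zero _ h2)) h3,
    mul_ne_zero (mul_ne_zero h4 (pow_ne_zero _ (qcc_W_ne S.ch))) h5⟩

theorem QccS.qf_near (S : QccS d h A B lw c nxt P α κ tb) {i : ι} (hi : κ ≤ ‖α i‖) {y : K}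
    (hy0 : y ≠ P i) (hy : ‖y - P i‖ < κ * Real.exp (-tb)) :
    (pp P).eval y ≠ 0 ∧ QccAp (qf P α y) (α i / (y - P i)) := by
  have he := Real.exp_pos (-tb)
  have h0 : 0 < ‖y - P i‖ := norm_pos_iff.2 (sub_ne_zero.2 hy0)
  have h1 : ∀ l, l ≠ i → Real.exp (-tb) ≤ ‖y - P l‖ := by
    intro l hl
    have h2 := S.sep i l hl.symm
    rw [qcc_tri_eq (y := P i)
      (hy.trans_le ((mul_le_of_le_one_left he.le S.κle).trans h2))]
    exact h2
  constructor
  · rw [qcc_eval_pp]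
    refine Finset.prod_ne_zero_iff.2 fun l _ => ?_
    by_cases hl : l = i
    · rw [hl]
      exact sub_ne_zero.2 hy0
    · exact norm_pos_iff.1 (he.trans_le (h1 l hl))
  · unfold QccAp
    rw [qf, ← Finset.add_sum_erase Finset.univ _ (Finset.mem_univ i), add_sub_cancel_left]
    have h2 : ‖∑ l ∈ Finset.univ.erase i, α l / (y - P l)‖ ≤ 1 / Real.exp (-tb) := by
      refine IsUltrametricDist.norm_sum_le_of_forall_le_of_nonneg (by positivity) fun l hl => ?_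
      rw [norm_div]
      exact div_le_div₀ zero_le_one (S.αle l) he (h1 l (Finset.ne_of_mem_erase hl))
    refine h2.trans_lt ?_
    rw [norm_div, div_lt_div_iff₀ he h0, one_mul]
    exact hy.trans_le (mul_le_mul_of_nonneg_right hi he.le)

omit [Fintype ι] [DecidableEq ι] in
theorem QccS.Dv (S : QccS d h A B lw c nxt P α κ tb) {i : ι} (hi : κ ≤ ‖α i‖)
    (hi' : κ ≤ ‖α (nxt i)‖) :
    QccAp (α (nxt i) * ((wr A B).eval (P i) / B.eval (P i) ^ 2)) (α i) ∧
      κ ≤ ‖(wr A B).eval (P i) / B.eval (P i) ^ 2‖ ∧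
      κ * ‖(wr A B).eval (P i) / B.eval (P i) ^ 2‖ ≤ 1 := by
  have h1 : QccAp (α (nxt i) * ((wr A B).eval (P i) / B.eval (P i) ^ 2)) (α i) := by
    unfold QccAp
    rw [norm_sub_rev, ← mul_div_assoc]
    exact (S.bet i).trans_le hi
  have h2 := h1.norm_eq
  rw [norm_mul] at h2
  have h3 := norm_nonneg ((wr A B).eval (P i) / B.eval (P i) ^ 2)
  refine ⟨h1, ?_, ?_⟩
  · exact hi.trans (h2.symm.trans_le (mul_le_of_le_one_left h3 (S.αle _)))
  · exact ((mul_le_mul_of_nonneg_right hi' h3).trans_eq h2).trans (S.αle i)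

omit [IsUltrametricDist K] [Fintype ι] [DecidableEq ι] in
theorem QccS.deriv_g (S : QccS d h A B lw c nxt P α κ tb) (i : ι) :
    (derivative (A - C (P (nxt i)) * B)).eval (P i)
      = (wr A B).eval (P i) / B.eval (P i) ^ 2 * B.eval (P i) := by
  have hB : B.eval (P i) ≠ 0 := norm_pos_iff.1 ((Real.exp_pos _).trans_le (qcc_B_P S.ch i))
  simp only [wr, derivative_sub, derivative_C_mul, eval_sub, eval_mul, eval_C, S.ch.orb i]
  field_simp

/-- The local analysis near a point of the cycle. -/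
theorem QccS.tiny (S : QccS d h A B lw c nxt P α κ tb) {i : ι} (hi : κ ≤ ‖α i‖)
    (hi' : κ ≤ ‖α (nxt i)‖) {x : K} (hx0 : x ≠ P i)
    (hx : ‖x - P i‖ < κ ^ 2 * Real.exp (-tb - 4 * h)) :
    B.eval x ≠ 0 ∧ (wr A B).eval x ≠ 0 ∧ (pp P).eval x ≠ 0 ∧ (nq P α).eval x ≠ 0 ∧
      A.eval x / B.eval x ≠ P (nxt i) ∧
      ‖x - P i‖ * ‖(wr A B).eval x‖ = ‖A.eval x / B.eval x - P (nxt i)‖ * ‖B.eval x‖ ^ 2 ∧
      QccAp (qf P α x * B.eval x ^ 4 / ((wr A B).eval x ^ 2 * qf P α (A.eval x / B.eval x))) 1 := by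
  obtain ⟨hD, hD1, hD2⟩ := S.Dv hi hi'
  have hg' := S.deriv_g i
  have hκ := S.κpos
  have hκ1 := S.κle
  have hBP := qcc_B_P S.ch i
  have hs0 : 0 < ‖x - P i‖ := norm_pos_iff.2 (sub_ne_zero.2 hx0)
  have eh : Real.exp h * Real.exp (-h) = 1 := by rw [← Real.exp_add]; simp
  have e4 : Real.exp (-tb - 4 * h) = Real.exp (-tb) * Real.exp (-h) ^ 4 := by
    rw [← Real.exp_nat_mul, ← Real.exp_add]
    congr 1
    push_cast
    ring
  have e2 : Real.exp (2 * h) = Real.exp h ^ 2 := by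
    rw [← Real.exp_nat_mul]
    norm_num
  have ht1 : Real.exp (-tb) ≤ 1 := Real.exp_le_one_iff.2 (by linarith [S.tb0])
  have hu1 : Real.exp (-h) ≤ 1 := Real.exp_le_one_iff.2 (by linarith [S.hpos])
  have ht0 := Real.exp_pos (-tb)
  have hu0 := Real.exp_pos (-h)
  have hH0 := Real.exp_pos h
  rw [e4] at hx
  have hx1 : ‖x - P i‖ < κ * Real.exp (-h) ^ 4 := by
    refine hx.trans_le ?_
    rw [sq, mul_assoc]
    refine mul_le_mul_of_nonneg_left ?_ hκ.le
    calc κ * (Real.exp (-tb) * Real.exp (-h) ^ 4) ≤ 1 * (1 * Real.exp (-h) ^ 4) := by gcongr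
      _ = _ := by ring
  have hx2 : ‖x - P i‖ < κ * (κ * Real.exp (-tb)) := by
    refine hx.trans_le ?_
    calc κ ^ 2 * (Real.exp (-tb) * Real.exp (-h) ^ 4) ≤ κ ^ 2 * (Real.exp (-tb) * 1) := by
          gcongr
          exact pow_le_one₀ hu0.le hu1
      _ = _ := by ring
  have hx3 : ‖x - P i‖ < κ * Real.exp (-h) ^ 2 := by
    refine hx1.trans_le (mul_le_mul_of_nonneg_left ?_ hκ.le)
    exact pow_le_pow_of_le_one hu0.le hu1 (by norm_num)
  have hx4 : ‖x - P i‖ < Real.exp (-h) ^ 2 :=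
    hx3.trans_le (mul_le_of_le_one_left (by positivity) hκ1)
  have hxle : ‖x‖ ≤ 1 := qcc_mem_one (S.ch.Ple i) hx4.le (pow_le_one₀ hu0.le hu1)
  have a1 : QccAp (B.eval x) (B.eval (P i)) := by
    refine (eval_sub_le S.ch.coB hxle (S.ch.Ple i)).trans_lt (lt_of_lt_of_le ?_ hBP)
    calc Real.exp h * ‖x - P i‖ < Real.exp h * Real.exp (-h) ^ 2 := by gcongr
      _ = Real.exp h * Real.exp (-h) * Real.exp (-h) := by ring
      _ = _ := by rw [eh, one_mul]
  have hB0 := a1.ne_right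
  have a2 : QccAp ((wr A B).eval x) ((wr A B).eval (P i)) := by
    refine (eval_sub_le (qcc_W_coeff S.ch) hxle (S.ch.Ple i)).trans_lt ?_
    have e : ‖(wr A B).eval (P i)‖
        = ‖(wr A B).eval (P i) / B.eval (P i) ^ 2‖ * ‖B.eval (P i)‖ ^ 2 := by
      rw [← norm_pow, ← norm_mul, div_mul_cancel₀ _ (pow_ne_zero 2 hB0)]
    rw [e, e2]
    calc Real.exp h ^ 2 * ‖x - P i‖ < Real.exp h ^ 2 * (κ * Real.exp (-h) ^ 4) := by gcongr
      _ = (Real.exp h * Real.exp (-h)) ^ 2 * (κ * Real.exp (-h) ^ 2) := by ring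
      _ = κ * Real.exp (-h) ^ 2 := by rw [eh, one_pow, one_mul]
      _ ≤ _ := by gcongr
  have a3 : QccAp (A.eval x - P (nxt i) * B.eval x)
      ((wr A B).eval (P i) / B.eval (P i) ^ 2 * B.eval (P i) * (x - P i)) := by
    have h1 := eval_taylor_le (qcc_g_coeff S.ch (S.ch.Ple (nxt i))) hxle (S.ch.Ple i)
    rw [hg'] at h1
    simp only [eval_sub, eval_mul, eval_C, S.ch.orb i, sub_self, sub_zero] at h1
    refine h1.trans_lt ?_
    rw [norm_mul, norm_mul]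
    calc Real.exp h * ‖x - P i‖ ^ 2 = Real.exp h * ‖x - P i‖ * ‖x - P i‖ := by ring
      _ < Real.exp h * (κ * Real.exp (-h) ^ 2) * ‖x - P i‖ := by gcongr
      _ = Real.exp h * Real.exp (-h) * (κ * Real.exp (-h) * ‖x - P i‖) := by ring
      _ = κ * Real.exp (-h) * ‖x - P i‖ := by rw [eh, one_mul]
      _ ≤ _ := by gcongr
  have hBx := a1.ne_left
  have a4 : QccAp (A.eval x / B.eval x - P (nxt i))
      ((wr A B).eval (P i) / B.eval (P i) ^ 2 * (x - P i)) := by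
    have h1 := a3.div a1
    have e : A.eval x / B.eval x - P (nxt i) = (A.eval x - P (nxt i) * B.eval x) / B.eval x := by
      field_simp
    have e' : (wr A B).eval (P i) / B.eval (P i) ^ 2 * (x - P i) = (wr A B).eval (P i) /
        B.eval (P i) ^ 2 * B.eval (P i) * (x - P i) / B.eval (P i) := by
      field_simp
    rw [e, e']
    exact h1
  have hf0 : A.eval x / B.eval x ≠ P (nxt i) := sub_ne_zero.1 a4.ne_left
  obtain ⟨hpp, a5⟩ := S.qf_near hi hx0
    (hx2.trans_le (mul_le_of_le_one_left (by positivity) hκ1))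
  obtain ⟨-, a6⟩ := S.qf_near hi' hf0 (by
    rw [a4.norm_eq, norm_mul]
    refine lt_of_mul_lt_mul_left ?_ hκ.le
    calc κ * (‖(wr A B).eval (P i) / B.eval (P i) ^ 2‖ * ‖x - P i‖)
        = κ * ‖(wr A B).eval (P i) / B.eval (P i) ^ 2‖ * ‖x - P i‖ := by ring
      _ ≤ 1 * ‖x - P i‖ := by gcongr
      _ < _ := by rwa [one_mul])
  have hα' : α (nxt i) ≠ 0 := norm_pos_iff.1 (hκ.trans_le hi')
  have hα : α i ≠ 0 := norm_pos_iff.1 (hκ.trans_le hi)
  refine ⟨hBx, a2.ne_left, hpp, fun h0 => ?_, hf0, ?_, ?_⟩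
  · have h1 := a5.ne_left
    rw [qcc_qf_eq P α hpp, h0, zero_div] at h1
    exact h1 rfl
  · have hBn : ‖B.eval (P i)‖ ≠ 0 := norm_ne_zero_iff.2 hB0
    rw [a4.norm_eq, a2.norm_eq, a1.norm_eq, norm_mul, norm_div, norm_pow]
    field_simp
  · have h1 := (a5.mul (a1.pow 4)).div ((a2.pow 2).mul (a6.trans ((QccAp.refl hα').div a4)))
    refine h1.trans ?_
    have h2 := (QccAp.refl hα).div hD
    have hW0 := a2.ne_right
    have hs : x - P i ≠ 0 := sub_ne_zero.2 hx0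
    have e : α i / (x - P i) * B.eval (P i) ^ 4 / ((wr A B).eval (P i) ^ 2 * (α (nxt i) /
        ((wr A B).eval (P i) / B.eval (P i) ^ 2 * (x - P i))))
        = α i / (α (nxt i) * ((wr A B).eval (P i) / B.eval (P i) ^ 2)) := by
      field_simp
    rw [div_self hα] at h2
    rw [e]
    exact h2

end chart

end Pool.Agent.Lib.MP_0dd0d9_ag
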