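import Pool.Agent.Lib.MP_0dd0d9_ag.QCWA

/-!
TASK g0d QCW.  Quantitative transversality.
-/

namespace Pool.Agent.Lib.MP_0dd0d9_ag

open Polynomial

section path

variable {K : Type*} [NormedField K] [IsUltrametricDist K] [IsAlgClosed K]
variable {d : ℕ} {F : Mp K} {h : ℝ} {H : V K → ℝ}

theorem qcw_norm_pow {ϖ : K} {h : ℝ} (hϖ : ‖ϖ‖ = Real.exp (-h)) (e : ℕ) :
    ‖ϖ ^ e‖ = Real.exp (-(e * h)) := by
  rw [norm_pow, hϖ, ← Real.exp_nat_mul]; congr 1; ring

/-- The depth sums. -/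
theorem qcw_depth (hG : Good d F h) (hE : IsEsc d F h H) (hN : Res0 K) (hd : 2 ≤ d)
    (hh : 0 < h) {ϖ : K} (hϖ : ‖ϖ‖ = Real.exp (-h)) {n : ℕ} [NeZero n] {k : ℕ} (hk : 2 ≤ k)
    (hkn : k ^ 20 ≤ n) (hnk : n ≤ 2 ^ k) {p z : ZMod n → V K} (hC : Cyc d F p z) :
    0 ≤ sbig d F h k p z ∧ ∀ m, ∑ l ∈ Finset.univ.erase m,
      max 0 (-Real.log (del (p l) (p m)) - (2 * k ^ 2 + 2 * k + 1) * h) ≤
        sbig d F h k p z / k ^ 2 := by
  have hk2 : k ^ 2 ≤ n := (Nat.pow_le_pow_right (by omega) (by norm_num)).trans hkn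
  have hn : 2 ≤ n := by nlinarith
  obtain ⟨h1, h2, -⟩ := sbig_bounds hG hE hN hd hh hϖ hn hnk hC
  have h3 := h1.trans h2
  refine ⟨(exc_nonneg _ _ _).trans h3, fun m => ?_⟩
  have h4 := (shift_bound hG hN hd hC ((2 * k + 1) * h) hk2 m).trans h3
  have hk0 : (0 : ℝ) < (k : ℝ) ^ 2 := by positivity
  rw [le_div_iff₀' hk0]
  push_cast at h4
  convert h4 using 5
  ring

open Classical in
/-- The choice of the path. -/
theorem qcw_path (hG : Good d F h) (hE : IsEsc d F h H) (hN : Res0 K) (hd : 2 ≤ d)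
    (hh : 0 < h) {ϖ : K} (hϖ : ‖ϖ‖ = Real.exp (-h)) {n : ℕ} [NeZero n] {k : ℕ}
    (hk : 40000 * d ^ 2 ≤ k) (hkn : k ^ 20 ≤ n) (hnk : n ≤ 2 ^ k) {p z : ZMod n → V K}
    (hC : Cyc d F p z) {A B : K[X]} {lw : K} {c : Fin (2 * d - 2) → K} {P Z : ZMod n → K}
    (hch : Chart d h A B lw c (Equiv.addRight 1) P) {b : ℕ} (hb : b < k)
    (hD : ∀ u, Dj d F (p (idx n k b u - 1)) ≠ 0)
    (hpp : ∀ i l, del (p i) (p l) = ‖P i - P l‖)
    (hpz : ∀ i u, del (p i) (z (idx n k b u)) = ‖P i - Z (idx n k b u)‖)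
    (hzz : ∀ u v, del (z (idx n k b u)) (z (idx n k b v)) = ‖Z (idx n k b u) - Z (idx n k b v)‖)
    (hZ1 : ∀ i, ‖Z i‖ ≤ 1)
    (hZ : ∀ u, A.eval (Z (idx n k b u)) = P (idx n k b u) * B.eval (Z (idx n k b u))) :
    ∃ (m j : Fin (n / k)) (Rt Rl : K), Rl ≠ 0 ∧ ‖Rl‖ ≤ ‖Rt‖ ∧ ‖Rt‖ ≤ 1 ∧
      ‖P (idx n k b m) - Z (idx n k b j)‖ ≤ ‖Rt‖ ∧
      (∀ y, B.IsRoot y → ‖Rl‖ < ‖y - Z (idx n k b j)‖) ∧
      ∑ l ∈ Finset.univ.erase (idx n k b m),
        max 0 (Real.log (‖Rl‖ / ‖P l - P (idx n k b m)‖)) ≤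
        (n : ℝ) / k ^ 3 * ((2 * k ^ 2 + 2 * k + 1) * h + 2 * h) + sbig d F h k p z / k ^ 2 ∧
      ∑ l ∈ (Finset.univ.erase (idx n k b j)).filter
          (fun l => ∃ y, A.eval y = P l * B.eval y ∧ ‖y - Z (idx n k b j)‖ ≤ ‖Rl‖),
        max 0 (Real.log (Real.exp (2 * h) * ‖Rl‖ / ‖P l - P (idx n k b j)‖)) ≤
        (n : ℝ) / k ^ 3 * ((2 * k ^ 2 + 2 * k + 1) * h + 2 * h) + sbig d F h k p z / k ^ 2 ∧
      ((n : ℝ) + 2) * Real.log (‖Rt‖ / ‖Rl‖) - Real.log ‖Rl‖ ≤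
        112000 * d ^ 2 * (n * h / k + sbig d F h k p z / k ^ 2) := by
  have hk2 : 2 ≤ k := by nlinarith
  have hkn1 : k ≤ n := (Nat.le_self_pow (by norm_num) k).trans hkn
  have hn : 2 ≤ n := hk2.trans hkn1
  obtain ⟨hS0, hdep⟩ := qcw_depth hG hE hN hd hh hϖ hk2 hkn hnk hC
  set S := sbig d F h k p z with hS
  set T : ℝ := (2 * k ^ 2 + 2 * k + 1) * h with hT
  simp only [hpp] at hdep
  have hkR : (2 : ℝ) ≤ k := by exact_mod_cast hk2
  have hk0 : (0 : ℝ) < k := by linarith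
  have hdR : (2 : ℝ) ≤ d := by exact_mod_cast hd
  have hnR : (2 : ℝ) ≤ n := by exact_mod_cast hn
  have hknR : (k : ℝ) ^ 20 ≤ n := by exact_mod_cast hkn
  have hT0 : 0 < T := by positivity
  have hT7 : T + 2 * h ≤ 7 * k ^ 2 * h := by
    rw [hT]
    have : (2 * (k : ℝ) ^ 2 + 2 * k + 1) + 2 ≤ 7 * k ^ 2 := by nlinarith only [hkR]
    nlinarith only [this, hh]
  have hPinj : Function.Injective P := by
    intro i l e
    by_contra hne
    have := del_pos (hC.dist i l hne)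
    rw [hpp, e, sub_self, norm_zero] at this
    exact lt_irrefl _ this
  have hL0 : 0 ≤ (n : ℝ) / k ^ 3 * (T + 2 * h) := by positivity
  have hE1 : 0 ≤ n * h / k := by positivity
  have hG0 : 0 ≤ S / k ^ 2 := by positivity
  have hN19 : k ^ 19 ≤ n / k := by
    rw [Nat.le_div_iff_mul_le (by omega), ← pow_succ]; exact hkn
  have hNpos : 0 < n / k := lt_of_lt_of_le (by positivity) hN19
  have hk3 : (k : ℝ) ^ 3 ≤ n :=
    (pow_le_pow_right₀ (by linarith) (by norm_num)).trans hknR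
  have hkE : (k : ℝ) ^ 2 * h ≤ n * h / k := by
    rw [le_div_iff₀ hk0]
    nlinarith only [hk3, hh]
  have hd2 : (1 : ℝ) ≤ d ^ 2 := one_le_pow₀ (by linarith)
  by_cases hcr : (n : ℝ) ^ 2 * h < 4000 * d ^ 2 * k ^ 15 * S
  · have hR := qcw_norm_pow hϖ (7 * k ^ 2)
    push_cast at hR
    have hR0 : ϖ ^ (7 * k ^ 2) ≠ 0 := by
      rw [← norm_pos_iff, hR]; exact Real.exp_pos _
    obtain ⟨a1, a2, a3⟩ := qcwa_deep hch hh.le hT0 hPinj hdep hR0
      (by rw [hR]; exact Real.exp_le_exp.mpr (by linarith)) (idx n k b ⟨0, hNpos⟩)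
      (idx n k b ⟨0, hNpos⟩) (hZ1 _) (hZ ⟨0, hNpos⟩)
    refine ⟨⟨0, hNpos⟩, ⟨0, hNpos⟩, 1, ϖ ^ (7 * k ^ 2), hR0, ?_, by simp,
      by rw [norm_one]; exact qcwa_sub_le (hch.Ple _) (hZ1 _), a1, by linarith,
      (a3 _ (Finset.filter_subset _ _)).trans (by linarith), ?_⟩
    · rw [hR, norm_one]
      exact Real.exp_le_one_iff.mpr (neg_nonpos.mpr (by positivity))
    · rw [norm_one, one_div, Real.log_inv, hR, Real.log_exp]
      have b1 : (n : ℝ) * k ^ 2 * h ≤ 4000 * d ^ 2 * (S / k ^ 2) := by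
        rw [← mul_div_assoc, le_div_iff₀ (by positivity)]
        have b2 : (k : ℝ) ^ 15 * (n * k ^ 2 * h * k ^ 2) ≤ k ^ 15 * (4000 * d ^ 2 * S) := by
          have b3 : (k : ℝ) ^ 19 ≤ n :=
            (pow_le_pow_right₀ (by linarith) (by norm_num)).trans hknR
          calc (k : ℝ) ^ 15 * (n * k ^ 2 * h * k ^ 2) = k ^ 19 * (n * h) := by ring
            _ ≤ n * (n * h) := mul_le_mul_of_nonneg_right b3 (by positivity)
            _ = n ^ 2 * h := by ring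
            _ ≤ 4000 * d ^ 2 * k ^ 15 * S := hcr.le
            _ = _ := by ring
        exact le_of_mul_le_mul_left b2 (by positivity)
      have b4 : 0 ≤ (k : ℝ) ^ 2 * h := by positivity
      have b5 : 0 ≤ (d : ℝ) ^ 2 * (n * h / k) := by positivity
      have b6 := mul_le_mul_of_nonneg_right hnR b4
      linarith only [b1, b4, b5, b6]
  · push Not at hcr
    have hinj := idx_injective (n := n) hb
    have hp0 := Cyc.ne_zero hn hC
    have hz0 : ∀ u, z (idx n k b u) ≠ 0 := fun u =>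
      ne_zero_of_wedge_left (hC.zpre _ (hD u)).2
    have hHp := Cyc.esc_zero hE hG hd hn hC
    have hHz : ∀ u, H (z (idx n k b u)) = 0 := fun u =>
      IsEsc.of_image hE hd (hz0 u) (by rw [(hC.zpre _ (hD u)).1]; exact hHp _)
    have hR := qcw_norm_pow hϖ (7 * k ^ 2)
    push_cast at hR
    have hed := ediff_le hG hE hN hd k hR
      (by nlinarith only [hkR, hh, mul_pos hk0 hh]) (fun u => p (idx n k b u))
      (fun u => z (idx n k b u)) (fun u => hp0 _) hz0 (fun u => hHp _) hHz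
      (fun i j hij => hC.dist _ _ (hinj.ne hij))
      (fun i j hij => Cyc.z_dist hG.hom hC (hinj.ne hij) (hD i) (hD j))
    have hsb := (sbig_bounds hG hE hN hd hh hϖ hn hnk hC).2.2 b hb
    rw [Finset.filter_true_of_mem (fun u _ => hD u), ← hS] at hsb
    have hΔ : 0 < h / k := by positivity
    obtain ⟨σ, hσ⟩ := exists_levels (fun u => p (idx n k b u)) (fun u => z (idx n k b u))
      (fun u => hp0 _) hz0 hΔ (7 * k ^ 3) one_pos
    have hMΔ : ((7 * k ^ 3 : ℕ) : ℝ) * (h / k) = 7 * k ^ 2 * h := by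
      push_cast; field_simp
    rw [hMΔ] at hσ
    have hNn : ((n / k : ℕ) : ℝ) ≤ n := by exact_mod_cast Nat.div_le_self n k
    have hN0 : (0 : ℝ) < ((n / k : ℕ) : ℝ) := by exact_mod_cast hNpos
    have hNd : ((n / k : ℕ) : ℝ) ≤ (d : ℝ) ^ k := by
      have : n / k ≤ d ^ k :=
        (Nat.div_le_self n k).trans (hnk.trans (Nat.pow_le_pow_left hd k))
      exact_mod_cast this
    have hed2 : ediff (7 * k ^ 2 * h) (fun u => p (idx n k b u)) (fun u => z (idx n k b u)) ≤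
        2 * S + 84 * k ^ 2 * ((n / k : ℕ) : ℝ) * h := by
      have b1 : 48 * h / (d : ℝ) ^ k * ((n / k : ℕ) : ℝ) ^ 2 ≤ 48 * h * ((n / k : ℕ) : ℝ) := by
        rw [div_mul_eq_mul_div, div_le_iff₀ (by positivity), sq, ← mul_assoc]
        exact mul_le_mul_of_nonneg_left hNd (by positivity)
      have b2 : (1 : ℝ) ≤ k ^ 2 := one_le_pow₀ (by linarith)
      have b3 : 0 < ((n / k : ℕ) : ℝ) * h := by positivity
      have b4 := mul_le_mul_of_nonneg_right b2 b3.le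
      linarith only [b1, b3, b4, hed, hsb]
    have hn2 : (n : ℝ) ≤ 2 * k * ((n / k : ℕ) : ℝ) := by
      have b1 := Nat.div_add_mod n k
      have b2 := Nat.mod_lt n (show 0 < k by omega)
      have b3 : k ≤ k * (n / k) := Nat.le_mul_of_pos_right k hNpos
      have : n ≤ 2 * k * (n / k) := by linarith only [b1, b2, b3]
      exact_mod_cast this
    have hnum := qcwa_num (d := d) (k := k) (N := ((n / k : ℕ) : ℝ)) (n := n) (S := S) (h := h)
      (by linarith) (by exact_mod_cast hk) (by exact_mod_cast hN19) hn2 (by linarith) hh hcr hed2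
    obtain ⟨m, j, l, hl, hrel, hcase⟩ := qcwa_pig hch (fun u => P (idx n k b u))
      (fun u => Z (idx n k b u)) (7 * k ^ 3) (k ^ 3) (Nat.one_le_pow _ _ (by omega)) σ
      (Δ := h / k) (fun l h1 h2 => ⟨(hσ l h1 h2).1, (hσ l h1 h2).2.1⟩)
      (Real.sqrt_nonneg (ediff (7 * k ^ 2 * h) (fun u => p (idx n k b u))
        (fun u => z (idx n k b u)) / (h / k) + 1))
      (by
        intro l h1 h2 u hu
        refine Real.abs_le_sqrt ?_
        rcases hu with ⟨v, rfl⟩ | ⟨v, rfl⟩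
        · have := (hσ l h1 h2).2.2 (p (idx n k b v)) (hp0 _)
          simp only [hpp, del_comm (z _) (p _), hpz] at this
          simp only [norm_sub_rev (Z _) (P _)]
          convert this
        · have := (hσ l h1 h2).2.2 (z (idx n k b v)) (hz0 _)
          simp only [hpz, hzz] at this
          convert this)
      (by push_cast; exact hnum)
    obtain ⟨ϖ', hϖ'⟩ := exists_norm_root hϖ (k := k) (by omega)
    have hRt := qcw_norm_pow hϖ' (l - 1)
    have hRl := qcw_norm_pow hϖ' (l + 1)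
    push_cast at hRl
    have hRl0 : ϖ' ^ (l + 1) ≠ 0 := by
      rw [← norm_pos_iff, hRl]; exact Real.exp_pos _
    have hl1 : ((l - 1 : ℕ) : ℝ) ≤ l + 1 := by
      have : l - 1 ≤ l + 1 := by omega
      exact_mod_cast this
    have hl2 : (l : ℝ) + 1 ≤ ((l - 1 : ℕ) : ℝ) + 2 := by
      have : l + 1 ≤ l - 1 + 2 := by omega
      exact_mod_cast this
    have hlM : (l : ℝ) ≤ 7 * k ^ 3 := by exact_mod_cast hl
    have hRl1 : ‖ϖ' ^ (l + 1)‖ ≤ 1 := by
      rw [hRl]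
      exact Real.exp_le_one_iff.mpr (neg_nonpos.mpr (by positivity))
    have key : (∀ y, B.IsRoot y → ‖ϖ' ^ (l + 1)‖ < ‖y - Z (idx n k b j)‖) ∧
        ∑ l' ∈ Finset.univ.erase (idx n k b m),
          max 0 (Real.log (‖ϖ' ^ (l + 1)‖ / ‖P l' - P (idx n k b m)‖)) ≤
          (n : ℝ) / k ^ 3 * (T + 2 * h) + S / k ^ 2 ∧
        ∑ l' ∈ (Finset.univ.erase (idx n k b j)).filter
            (fun l' => ∃ y, A.eval y = P l' * B.eval y ∧
              ‖y - Z (idx n k b j)‖ ≤ ‖ϖ' ^ (l + 1)‖),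
          max 0 (Real.log (Real.exp (2 * h) * ‖ϖ' ^ (l + 1)‖ / ‖P l' - P (idx n k b j)‖)) ≤
          (n : ℝ) / k ^ 3 * (T + 2 * h) + S / k ^ 2 := by
      rcases hcase with h0 | h0
      · obtain ⟨a1, a2, a3⟩ := qcwa_deep hch hh.le hT0 hPinj hdep hRl0
          (by
            rw [hRl]
            refine Real.exp_le_exp.mpr (neg_le_neg (hT7.trans ?_))
            rw [← hMΔ, ← h0]
            linarith only [hΔ]) (idx n k b m) (idx n k b j) (hZ1 _) (hZ j)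
        exact ⟨a1, by linarith, (a3 _ (Finset.filter_subset _ _)).trans (by linarith)⟩
      · rw [← hRl, ZMod.card] at h0
        push_cast at h0
        obtain ⟨a1, a2⟩ := qcwa_light hch hh.le hT0 hPinj hdep hRl0 hRl1 (idx n k b m)
          (idx n k b j) (h0 _ (Or.inl rfl)).1 (h0 _ (Or.inr rfl)).1 (h0 _ (Or.inr rfl)).2
        exact ⟨(h0 _ (Or.inr rfl)).2, a1, by convert a2⟩
    refine ⟨m, j, ϖ' ^ (l - 1), ϖ' ^ (l + 1), hRl0, ?_, ?_, ?_, key.1, key.2.1, key.2.2, ?_⟩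
    · rw [hRt, hRl]
      exact Real.exp_le_exp.mpr (neg_le_neg (mul_le_mul_of_nonneg_right hl1 hΔ.le))
    · rw [hRt]
      exact Real.exp_le_one_iff.mpr (neg_nonpos.mpr (by positivity))
    · rcases Nat.eq_zero_or_pos l with h0 | h0
      · subst h0
        simp only [Nat.zero_sub, pow_zero, norm_one]
        exact qcwa_sub_le (hch.Ple _) (hZ1 _)
      · rcases hrel with h1 | h1
        · omega
        · rw [hRt, Nat.cast_sub h0]
          exact_mod_cast h1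
    · rw [hRt, hRl, ← Real.exp_sub, Real.log_exp, Real.log_exp]
      have b1 : ((l : ℝ) + 1) * (h / k) ≤ 8 * (k ^ 2 * h) := by
        have b2 : (1 : ℝ) ≤ k ^ 3 := one_le_pow₀ (by linarith)
        calc ((l : ℝ) + 1) * (h / k) ≤ 8 * k ^ 3 * (h / k) :=
              mul_le_mul_of_nonneg_right (by linarith) hΔ.le
          _ = 8 * (k ^ 2 * h) := by field_simp
      have b3 : -(((l - 1 : ℕ) : ℝ) * (h / k)) - -(((l : ℝ) + 1) * (h / k)) ≤ 2 * (h / k) := by
        have := mul_le_mul_of_nonneg_right hl2 hΔ.le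
        linarith only [this]
      have b4 : ((n : ℝ) + 2) * (2 * (h / k)) ≤ 4 * (n * h / k) := by
        rw [mul_div_assoc]
        have := mul_le_mul_of_nonneg_right hnR hΔ.le
        linarith only [this]
      have b5 := mul_le_mul_of_nonneg_left b3 (show (0 : ℝ) ≤ n + 2 by linarith)
      have b6 := mul_le_mul_of_nonneg_right hd2 (add_nonneg hE1 hG0)
      linarith only [b1, b4, b5, b6, hkE, hE1, hG0]

end path

/-- Write `S = sbig`, `N = n / k`, `T' = (2 k ^ 2 + 2 k + 1) h`, and suppose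
`ε < exp (-(C0 * ..)) * ‖a i‖`.  `exp (-h) ≤ ‖p i‖ ≤ exp h` (`Cyc.esc_zero`, field `bd`).  Take
`exists_chart` with `nxt = Equiv.addRight 1`; `del (p i) (p l) = ‖P i - P l‖` and
`del (p i) (z l) = ‖P i - Z l‖` (the wedge is `sc * tc * (P - Z)`).  Put `α i = a i * sc i ^ 2 / ν` with
`ν = a i0 * sc i0 ^ 2` of maximal norm.  Then `bet i = sc i ^ 2 * (a i - Dj * a (i + 1)) / ν` and
`fm μ = ∑ a (i + 1) * p i 0 ^ μ * (s * p i 0 + p i 1) ^ (2 d - μ) / ν` (binomial theorem) are at most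
`ε' = exp (2 h) * ε / ‖ν‖`.  As long as `ε' < ‖α i‖`, `exp (-4 h) * ‖α i‖ ≤ ‖α (i + 1)‖` and
`W (P i) ≠ 0`; so `κ = exp (-4 h (3 N + 1)) ≤ ‖α (i0 + t)‖` for `t ≤ 3 N + 1`.  Take the block `l` of
`exists_block`; all its indices `u` have `Dj (p (u - 1)) ≠ 0`.  By `shift_bound` with `β = k ^ 2` and
`sbig_bounds`, `∑ i ≠ m, max 0 (-log ‖P i - P m‖ - T') ≤ S / k ^ 2` for all `m`; put
`tb = T' + S / k ^ 2`, `X = (n / k ^ 3) * (T' + 2 h) + S / k ^ 2`.
Crude case `n ^ 2 * h < C d ^ 2 k ^ 15 * S`: apply `qcc` to any two indices of the block with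
`Rt = 1`, `Rl = ϖ ^ (7 k ^ 2)` (no pole is that close to `Z`, `eval_sub_le`); the cost
`(n + 2) * 7 k ^ 2 h` is at most `S / k ^ 2` because `k ^ 20 ≤ n` and `k` is large.
Otherwise let `Δ = h / k`, `M = 7 k ^ 3`, `σ` from `exists_levels` for the two families of the block
(`ediff_le` at level `7 k ^ 2 h`), `𝒫` the finite set of roots of all `A - C (P l) * B` (at most
`n d` points, containing all `P l`), and apply `pig` on `K` with
`r l x y := l = 0 ∨ ‖x - y‖ ≤ exp (-σ (min l M))`, `Hv l x` meaning that more than `n / k ^ 3`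
points of `𝒫` or a root of `B` are `r l`-related to `x`, `q = d k ^ 3 + d`.  For the resulting
`m, j, l` use `qcc` with `Rt = ϖ' ^ (l - 1)`, `Rl = ϖ' ^ (l + 1)`, `‖ϖ'‖ = exp (-Δ)`
(`exists_norm_root`): if `l < M` both discs of radius `‖Rl‖` are light, if `l = M` the sums are
bounded by `S / k ^ 2` directly. -/
theorem qc (d : ℕ) (hd : 2 ≤ d) : ∃ (C0 : ℝ) (k0 : ℕ), 0 < C0 ∧
    ∀ {K : Type} [NormedField K] [IsUltrametricDist K] [IsAlgClosed K]
      (_Tr : Transfer K (fun x => ‖x‖)) {F : Mp K} {h : ℝ} {H : V K → ℝ},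
      Good d F h → IsEsc d F h H → 0 < h → ∀ {ϖ : K}, ‖ϖ‖ = Real.exp (-h) →
      ∀ (cr : Fin (2 * d - 2) → V K), (∀ a, cr a ≠ 0) →
      (∀ x, Dj d F x = ∏ a, wedge x (cr a)) →
      ∀ {n : ℕ} [NeZero n] {k : ℕ}, k0 ≤ k → k ^ 20 ≤ n → n ≤ 2 ^ k →
      ∀ {p z : ZMod n → V K}, Cyc d F p z →
      ∀ (a : ZMod n → K) (ε : ℝ), (∀ i, ‖a i - Dj d F (p i) * a (i + 1)‖ ≤ ε) →
      (∀ μ, μ ≤ 2 * d → ‖∑ i, a (i + 1) * (p i 0 ^ μ * p i 1 ^ (2 * d - μ))‖ ≤ ε) →
      ∀ i, Real.exp (-(C0 * (n * h / k + sbig d F h k p z / k ^ 2))) * ‖a i‖ ≤ ε := by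
  obtain ⟨C1, hC1, hq⟩ := qcc d hd
  refine ⟨C1 * (30 + 112000 * d ^ 2) + 24, 40000 * d ^ 2, by positivity, ?_⟩
  intro K _ _ _ Tr F h H hG hE hh ϖ hϖ cr hcr0 hcr n _ k hk hkn hnk p z hC a ε hbet hfm i
  by_contra hlt
  push Not at hlt
  have hN : Res0 K := Tr.toResC.res0
  have hk2 : 2 ≤ k := by nlinarith only [hk, hd]
  have hkn1 : k ≤ n := (Nat.le_self_pow (by norm_num) k).trans hkn
  have hn : 2 ≤ n := hk2.trans hkn1
  have hp0 := Cyc.ne_zero hn hC
  have hHp := Cyc.esc_zero hE hG hd hn hC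
  obtain ⟨hS0, hdep⟩ := qcw_depth hG hE hN hd hh hϖ hk2 hkn hnk hC
  obtain ⟨s, A, B, lw, c, P, Z, sc, tc, hch, hsc, htc, hev⟩ := exists_chart hG hN hd (ϖ := ϖ)
    (by rw [hϖ]; exact Real.exp_pos _) (by rw [hϖ]; exact Real.exp_lt_one_iff.mpr (by linarith))
    cr hcr0 hcr (Equiv.addRight (1 : ZMod n)) p z hp0 (fun i => hC.nxt i)
  have hpp : ∀ i l, del (p i) (p l) = ‖P i - P l‖ := fun i l =>
    qcwa_del (hsc i).1 (hsc i).2.1 (hsc i).2.2 (hp0 i) (hsc l).1 (hsc l).2.1 (hsc l).2.2 (hp0 l)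
  have hsc0 : ∀ i, sc i ≠ 0 := fun i => by
    rw [← norm_ne_zero_iff, (hsc i).2.2, norm_ne_zero_iff]; exact hp0 i
  have hscb : ∀ i, Real.exp (-(2 * h)) ≤ ‖sc i‖ ^ 2 ∧ ‖sc i‖ ^ 2 ≤ Real.exp (2 * h) := by
    intro i
    have h1 := hE.bd (p i) (hp0 i)
    rw [hHp i, zero_sub, abs_neg, ← (hsc i).2.2, abs_le] at h1
    have h2 : ‖sc i‖ ^ 2 = Real.exp (2 * Real.log ‖sc i‖) := by
      rw [two_mul, Real.exp_add, Real.exp_log (norm_pos_iff.mpr (hsc0 i)), sq]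
    rw [h2]
    exact ⟨Real.exp_le_exp.mpr (by linarith [h1.1]), Real.exp_le_exp.mpr (by linarith [h1.2])⟩
  have hBv : ∀ i, sc (i + 1) = sc i ^ d * B.eval (P i) := by
    intro i
    have h1 := (hev (p i) (P i) (sc i) (hsc i).1 (hsc i).2.1).2.1
    rw [hC.nxt i, (hsc (i + 1)).2.1] at h1
    exact h1
  have hB0 : ∀ i, B.eval (P i) ≠ 0 := fun i h0 => hsc0 (i + 1) (by rw [hBv i, h0, mul_zero])
  have hDv : ∀ i, Dj d F (p i) = sc i ^ (2 * d - 2) * (wr A B).eval (P i) := fun i =>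
    (hev (p i) (P i) (sc i) (hsc i).1 (hsc i).2.1).2.2
  have hε0 : 0 ≤ ε := (norm_nonneg _).trans (hbet i)
  set S := sbig d F h k p z with hS
  set E : ℝ := n * h / k + S / k ^ 2 with hEdef
  set C0 : ℝ := C1 * (30 + 112000 * d ^ 2) + 24 with hC0
  have hai : 0 < ‖a i‖ := by
    by_contra h0
    have : ‖a i‖ = 0 := le_antisymm (not_lt.mp h0) (norm_nonneg _)
    rw [this, mul_zero] at hlt
    linarith
  obtain ⟨i0, hi0⟩ := Finite.exists_max fun l => ‖a l * sc l ^ 2‖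
  set ν := a i0 * sc i0 ^ 2 with hν
  have hνi : ‖a i‖ * Real.exp (-(2 * h)) ≤ ‖ν‖ := by
    refine le_trans ?_ (hi0 i)
    rw [norm_mul, norm_pow]
    exact mul_le_mul_of_nonneg_left (hscb i).1 hai.le
  have hν0 : 0 < ‖ν‖ := lt_of_lt_of_le (by positivity) hνi
  have hνne : ν ≠ 0 := norm_pos_iff.mp hν0
  set α : ZMod n → K := fun l => a l * sc l ^ 2 / ν with hα
  set ε' : ℝ := Real.exp (2 * h) * ε / ‖ν‖ with hε'
  have hα1 : ∀ l, ‖α l‖ ≤ 1 := fun l => by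
    simp only [hα]
    rw [norm_div, div_le_one hν0]
    exact hi0 l
  have hα0 : ‖α i0‖ = 1 := by
    simp only [hα]
    rw [← hν, div_self hνne, norm_one]
  have hd2 : 2 * d = (2 * d - 2) + 2 := by omega
  have hbet' : ∀ l, ‖bet A B (Equiv.addRight 1) P α l‖ ≤ ε' := by
    intro l
    have e : bet A B (Equiv.addRight 1) P α l =
        sc l ^ 2 * (a l - Dj d F (p l) * a (l + 1)) / ν := by
      have e2 : (sc l ^ d) ^ 2 = sc l ^ (2 * d - 2) * sc l ^ 2 := by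
        rw [← pow_mul, ← pow_add, ← hd2, mul_comm]
      simp only [bet, hα, Equiv.coe_addRight]
      rw [hDv l, hBv l, mul_pow, e2]
      have := hB0 l
      field_simp
    rw [e, norm_div, norm_mul, norm_pow]
    exact div_le_div_of_nonneg_right
      (mul_le_mul (hscb l).2 (hbet l) (norm_nonneg _) (Real.exp_pos _).le) hν0.le
  have hfm' : ∀ μ, μ ≤ 2 * d → ‖fm B (Equiv.addRight 1) P α μ‖ ≤ ε' := by
    intro μ hμ
    have e : fm B (Equiv.addRight 1) P α μ =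
        (∑ l, a (l + 1) * (p l 0 ^ μ * ((s : K) * p l 0 + p l 1) ^ (2 * d - μ))) / ν := by
      simp only [fm, hα, Equiv.coe_addRight]
      rw [Finset.sum_div]
      refine Finset.sum_congr rfl fun l _ => ?_
      have e2 : (sc l ^ d) ^ 2 = sc l ^ μ * sc l ^ (2 * d - μ) := by
        rw [← pow_mul, ← pow_add]; congr 1; omega
      rw [(hsc l).2.1, (hsc l).1, hBv l, mul_pow, e2, mul_pow]
      have := hB0 l
      field_simp
    rw [e, norm_div]
    refine div_le_div_of_nonneg_right ?_ hν0.le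
    refine (qcwa_binom hN (fun l => a (l + 1)) (fun l => p l 0) (fun l => p l 1) s (2 * d) hfm
      hμ).trans ?_
    exact le_mul_of_one_le_left hε0 (Real.one_le_exp (by linarith))
  have hεlt : ε' < Real.exp (4 * h - C0 * E) := by
    rw [hε', div_lt_iff₀ hν0]
    have e1 : Real.exp (4 * h - C0 * E) * Real.exp (-(2 * h)) =
        Real.exp (2 * h) * Real.exp (-(C0 * E)) := by
      rw [← Real.exp_add, ← Real.exp_add]; congr 1; ring
    calc Real.exp (2 * h) * ε < Real.exp (2 * h) * (Real.exp (-(C0 * E)) * ‖a i‖) :=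
          mul_lt_mul_of_pos_left hlt (Real.exp_pos _)
      _ = Real.exp (4 * h - C0 * E) * (‖a i‖ * Real.exp (-(2 * h))) := by
          rw [← mul_assoc, ← e1]; ring
      _ ≤ Real.exp (4 * h - C0 * E) * ‖ν‖ := mul_le_mul_of_nonneg_left hνi (Real.exp_pos _).le
  have hkR : (2 : ℝ) ≤ k := by exact_mod_cast hk2
  have hk0 : (0 : ℝ) < k := by linarith
  have hknR : (k : ℝ) ^ 20 ≤ n := by exact_mod_cast hkn
  have hk3 : (k : ℝ) ^ 3 ≤ n :=
    (pow_le_pow_right₀ (by linarith) (by norm_num)).trans hknR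
  have hkE : (k : ℝ) ^ 2 * h ≤ n * h / k := by
    rw [le_div_iff₀ hk0]
    nlinarith only [hk3, hh]
  have hG0 : 0 ≤ S / k ^ 2 := by positivity
  have hk21 : (1 : ℝ) ≤ k ^ 2 := one_le_pow₀ (by linarith)
  have hhE : h ≤ n * h / k := le_trans (le_mul_of_one_le_left hh.le hk21) hkE
  have hNE : ((n / k : ℕ) : ℝ) * h ≤ n * h / k := by
    rw [mul_div_right_comm]
    exact mul_le_mul_of_nonneg_right Nat.cast_div_le hh.le
  have hE0 : 0 < E := by linarith
  have hC1E : 0 ≤ C1 * (30 + 112000 * d ^ 2) * E := by positivity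
  set κ : ℝ := Real.exp (-(4 * h * (3 * ((n / k : ℕ) : ℝ) + 1))) with hκ
  have hεκ : ε' < κ := by
    refine hεlt.trans_le (Real.exp_le_exp.mpr ?_)
    rw [hC0]
    linarith only [hC1E, hNE, hhE, hG0, hEdef, hh]
  have hκt : ∀ t : ℕ, t ≤ 3 * (n / k) + 1 → κ ≤ Real.exp (-(4 * h * t)) := by
    intro t ht
    refine Real.exp_le_exp.mpr (neg_le_neg (mul_le_mul_of_nonneg_left ?_ (by linarith)))
    exact_mod_cast ht
  have hprop : ∀ t : ℕ, t ≤ 3 * (n / k) + 1 → Real.exp (-(4 * h * t)) ≤ ‖α (i0 + t)‖ := by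
    intro t
    induction t with
    | zero => intro _; simp [hα0]
    | succ t ih =>
      intro ht
      have h1 := ih (by omega)
      have h2 := (qcwa_step hch α (hbet' (i0 + t))
        (hεκ.trans_le ((hκt t (by omega)).trans h1))).1
      simp only [Equiv.coe_addRight] at h2
      push_cast
      rw [← add_assoc]
      refine le_trans ?_ h2
      calc Real.exp (-(4 * h * (t + 1))) = Real.exp (-(4 * h)) * Real.exp (-(4 * h * t)) := by
            rw [← Real.exp_add]; congr 1; ring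
        _ ≤ _ := mul_le_mul_of_nonneg_left h1 (Real.exp_pos _).le
  have hκα : ∀ t : ℕ, t ≤ 3 * (n / k) + 1 → κ ≤ ‖α (i0 + t)‖ := fun t ht =>
    (hκt t ht).trans (hprop t ht)
  obtain ⟨b, hb, hblk⟩ := exists_block (n := n) (k := k) (by omega)
    ((Nat.pow_le_pow_right (by omega) (by norm_num)).trans hkn) i0
  have hκ0 : ∀ u, κ ≤ ‖α (idx n k b u)‖ := fun u => by
    obtain ⟨t, -, h2, h3⟩ := hblk u
    rw [h3]; exact hκα t (by omega)
  have hκ1 : ∀ u, κ ≤ ‖α (idx n k b u + 1)‖ := fun u => by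
    obtain ⟨t, -, h2, h3⟩ := hblk u
    have := hκα (t + 1) (by omega)
    push_cast at this
    rw [h3, add_assoc]; exact this
  have hκ2 : ∀ u, κ ≤ ‖α (idx n k b u - 1)‖ := fun u => by
    obtain ⟨t, h1, h2, h3⟩ := hblk u
    have := hκα (t - 1) (by omega)
    rw [Nat.cast_sub h1] at this
    push_cast at this
    rw [h3, add_sub_assoc]; exact this
  have hD : ∀ u, Dj d F (p (idx n k b u - 1)) ≠ 0 := fun u => by
    rw [hDv]
    exact mul_ne_zero (pow_ne_zero _ (hsc0 _))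
      (qcwa_step hch α (hbet' _) (hεκ.trans_le (hκ2 u))).2
  have hz0 : ∀ u, z (idx n k b u) ≠ 0 := fun u =>
    ne_zero_of_wedge_left (hC.zpre _ (hD u)).2
  have htc0 : ∀ u, tc (idx n k b u) ≠ 0 := fun u => by
    rw [← norm_ne_zero_iff, (htc _).2.2.1, norm_ne_zero_iff]; exact hz0 u
  have hZ : ∀ u, A.eval (Z (idx n k b u)) = P (idx n k b u) * B.eval (Z (idx n k b u)) := by
    intro u
    obtain ⟨h1, h2, -⟩ := hev (z (idx n k b u)) _ _ (htc _).1 (htc _).2.1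
    rw [(hC.zpre _ (hD u)).1] at h1 h2
    rw [(hsc _).2.1] at h2
    rw [(hsc _).1, h2] at h1
    apply mul_left_cancel₀ (pow_ne_zero d (htc0 u))
    rw [← h1]; ring
  have hZne : ∀ u, Z (idx n k b u) ≠ P (idx n k b u - 1) := by
    intro u h0
    apply (hC.zpre _ (hD u)).2
    rw [qcwa_wedge (htc _).1 (htc _).2.1 (hsc _).1 (hsc _).2.1, h0, sub_self, mul_zero]
  obtain ⟨m, j, Rt, Rl, c1, c2, c3, c4, c5, c6, c7, c8⟩ := qcw_path hG hE hN hd hh hϖ hk hkn hnk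
    hC hch hb hD hpp (Z := Z)
    (fun i u => qcwa_del (hsc i).1 (hsc i).2.1 (hsc i).2.2 (hp0 i) (htc _).1 (htc _).2.1
      (htc _).2.2.1 (hz0 u))
    (fun u v => qcwa_del (htc _).1 (htc _).2.1 (htc _).2.2.1 (hz0 u) (htc _).1 (htc _).2.1
      (htc _).2.2.1 (hz0 v))
    (fun i => (htc i).2.2.2) hZ
  rw [← hS] at c6 c7 c8
  set T : ℝ := (2 * k ^ 2 + 2 * k + 1) * h with hT
  have hT0 : 0 < T := by positivity
  have hT5 : T ≤ 5 * (k ^ 2 * h) := by
    have : (2 * (k : ℝ) ^ 2 + 2 * k + 1) ≤ 5 * k ^ 2 := by nlinarith only [hkR]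
    rw [hT]
    nlinarith only [this, hh]
  have hX : (n : ℝ) / k ^ 3 * (T + 2 * h) ≤ 7 * (n * h / k) := by
    have h1 : T + 2 * h ≤ 7 * (k ^ 2 * h) := by
      have := mul_le_mul_of_nonneg_right hk21 hh.le
      linarith only [this, hT5]
    calc (n : ℝ) / k ^ 3 * (T + 2 * h) ≤ (n : ℝ) / k ^ 3 * (7 * (k ^ 2 * h)) :=
          mul_le_mul_of_nonneg_left h1 (by positivity)
      _ = 7 * (n * h / k) := by field_simp
  have htb : ∀ i l, i ≠ l → Real.exp (-(T + S / k ^ 2)) ≤ ‖P i - P l‖ := by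
    intro i l hil
    have h1 := Finset.single_le_sum
      (f := fun l' => max 0 (-Real.log (del (p l') (p l)) - T)) (s := Finset.univ.erase l)
      (fun _ _ => le_max_left _ _) (Finset.mem_erase.mpr ⟨hil, Finset.mem_univ i⟩)
    have h2 := ((le_max_right _ _).trans h1).trans (hdep l)
    have h3 := del_pos (hC.dist i l hil)
    rw [← hpp, ← Real.le_log_iff_exp_le h3]
    linarith only [h2]
  have hj : (Equiv.addRight (1 : ZMod n)) (idx n k b j - 1) = idx n k b j := by simp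
  have hfin := hq Tr hh hϖ hch (by rw [ZMod.card]; exact hn) α κ (T + S / k ^ 2)
    ((n : ℝ) / k ^ 3 * (T + 2 * h) + S / k ^ 2) ε' (idx n k b m) (idx n k b j - 1)
    (Z (idx n k b j)) Rt Rl hα1 (Real.exp_pos _) (hκ0 m) (hκ1 m) (hκ2 j) (by rw [hj]; exact hκ0 j)
    (by linarith only [hT0, hG0]) htb (htc _).2.2.2 (by rw [hj]; exact hZ j) (hZne j) c1 c2 c3 c4
    c5 (by positivity) c6 (by rw [hj]; convert c7) hbet' hfm'
  have h1 := Real.exp_lt_exp.mp (hfin.trans_lt hεlt)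
  rw [ZMod.card, hκ, Real.log_exp] at h1
  have h2 : h - -(4 * h * (3 * ((n / k : ℕ) : ℝ) + 1)) + (T + S / k ^ 2) +
      ((n : ℝ) / k ^ 3 * (T + 2 * h) + S / k ^ 2) +
      ((n : ℝ) + 2) * Real.log (‖Rt‖ / ‖Rl‖) - Real.log ‖Rl‖ ≤ (30 + 112000 * d ^ 2) * E := by
    linarith only [c8, hX, hT5, hkE, hhE, hNE, hG0, hEdef, hh]
  have h3 := mul_le_mul_of_nonneg_left h2 hC1.le
  rw [hC0] at h1
  linarith only [h1, h3, hhE, hG0, hEdef, hh]

end Pool.Agent.Lib.MP_0dd0d9_ag
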