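import Pool.Agent.Lib.MP_0dd0d9_ag.QCC
import Pool.Agent.Lib.MP_0dd0d9_ag.En3
import Pool.Agent.Lib.MP_0dd0d9_ag.Chart
import Pool.Agent.Lib.MP_0dd0d9_ag.Pig

/-!
Auxiliary lemmas for the quantitative transversality theorem.
-/

namespace Pool.Agent.Lib.MP_0dd0d9_ag

open Polynomial

theorem qcwa_wedge {R : Type*} [CommRing R] {x x' : V R} {s y y' t t' : R} (h0 : x 0 = t * y)
    (h1 : s * x 0 + x 1 = t) (h0' : x' 0 = t' * y') (h1' : s * x' 0 + x' 1 = t') :
    wedge x x' = t * t' * (y - y') := by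
  have e1 : x 1 = t - s * (t * y) := by rw [← h0, ← h1]; ring
  have e2 : x' 1 = t' - s * (t' * y') := by rw [← h0', ← h1']; ring
  unfold wedge
  rw [e1, e2, h0, h0']
  ring

variable {K : Type*} [NormedField K]

theorem qcwa_del {x x' : V K} {s y y' t t' : K} (h0 : x 0 = t * y)
    (h1 : s * x 0 + x 1 = t) (h2 : ‖t‖ = ‖x‖) (hx : x ≠ 0) (h0' : x' 0 = t' * y')
    (h1' : s * x' 0 + x' 1 = t') (h2' : ‖t'‖ = ‖x'‖) (hx' : x' ≠ 0) :
    del x x' = ‖y - y'‖ := by
  unfold del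
  rw [qcwa_wedge h0 h1 h0' h1', norm_mul, norm_mul, h2, h2']
  have a1 : ‖x‖ ≠ 0 := norm_ne_zero_iff.mpr hx
  have a2 : ‖x'‖ ≠ 0 := norm_ne_zero_iff.mpr hx'
  field_simp

variable [IsUltrametricDist K]

theorem qcwa_sub_le {x y : K} {r : ℝ} (hx : ‖x‖ ≤ r) (hy : ‖y‖ ≤ r) : ‖x - y‖ ≤ r := by
  have := IsUltrametricDist.norm_add_le_max x (-y)
  rw [norm_neg, ← sub_eq_add_neg] at this
  exact this.trans (max_le hx hy)

theorem qcwa_add_le {x y : K} {r : ℝ} (hx : ‖x‖ ≤ r) (hy : ‖y‖ ≤ r) : ‖x + y‖ ≤ r :=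
  (IsUltrametricDist.norm_add_le_max x y).trans (max_le hx hy)

theorem qcwa_sum_le {ι : Type*} (s : Finset ι) (f : ι → K) {r : ℝ} (hr : 0 ≤ r)
    (h : ∀ i ∈ s, ‖f i‖ ≤ r) : ‖∑ i ∈ s, f i‖ ≤ r := by
  classical
  induction s using Finset.induction_on with
  | empty => simpa using hr
  | insert a s ha ih =>
    rw [Finset.sum_insert ha]
    exact qcwa_add_le (h a (Finset.mem_insert_self _ _))
      (ih fun i hi => h i (Finset.mem_insert_of_mem hi))

/-- The binomial estimate. -/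
theorem qcwa_binom (hN : Res0 K) {ι : Type*} [Fintype ι] (b x y : ι → K) (s e : ℕ) {ε : ℝ}
    (h : ∀ μ, μ ≤ e → ‖∑ i, b i * (x i ^ μ * y i ^ (e - μ))‖ ≤ ε) {μ : ℕ} (hμ : μ ≤ e) :
    ‖∑ i, b i * (x i ^ μ * ((s : K) * x i + y i) ^ (e - μ))‖ ≤ ε := by
  have hε : 0 ≤ ε := (norm_nonneg _).trans (h 0 (Nat.zero_le _))
  have key : ∑ i, b i * (x i ^ μ * ((s : K) * x i + y i) ^ (e - μ)) =
      ∑ j ∈ Finset.range (e - μ + 1), (((s ^ j * (e - μ).choose j : ℕ) : K)) *
        ∑ i, b i * (x i ^ (μ + j) * y i ^ (e - (μ + j))) := by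
    simp_rw [Finset.mul_sum]
    rw [Finset.sum_comm]
    refine Finset.sum_congr rfl fun i _ => ?_
    rw [add_pow, Finset.mul_sum, Finset.mul_sum]
    refine Finset.sum_congr rfl fun j _ => ?_
    rw [show e - (μ + j) = e - μ - j by omega]
    push_cast
    ring
  rw [key]
  refine qcwa_sum_le _ _ hε fun j hj => ?_
  rw [norm_mul]
  have hj' : μ + j ≤ e := by
    have := Finset.mem_range.mp hj
    omega
  calc _ ≤ 1 * ε := mul_le_mul (norm_nat_le hN _) (h _ hj') (norm_nonneg _) zero_le_one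
    _ = ε := one_mul ε

section chart

variable {d : ℕ} {h : ℝ} {A B : K[X]} {lw : K} {c : Fin (2 * d - 2) → K} {ι : Type*}
  {nxt : ι ≃ ι} {P : ι → K}

omit [IsUltrametricDist K] in
theorem qcwa_B_low (hC : Chart d h A B lw c nxt P) {x w : K} (hx : ‖x‖ ≤ 1) (hw : ‖w‖ ≤ 1)
    (e : A.eval x = w * B.eval x) : Real.exp (-h) ≤ ‖B.eval x‖ := by
  have h1 := hC.low x hx
  have h2 : ‖A.eval x‖ ≤ ‖B.eval x‖ := by
    rw [e, norm_mul]
    exact mul_le_of_le_one_left (norm_nonneg _) hw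
  rwa [max_eq_right h2] at h1

theorem qcwa_pole_far (hC : Chart d h A B lw c nxt P) (hh : 0 ≤ h) {x y : K} (hx : ‖x‖ ≤ 1)
    (hB : Real.exp (-h) ≤ ‖B.eval x‖) (hy : B.IsRoot y) : Real.exp (-(2 * h)) ≤ ‖y - x‖ := by
  by_cases h1 : ‖y - x‖ ≤ 1
  · have hy1 : ‖y‖ ≤ 1 := by
      have := qcwa_add_le h1 hx
      rwa [sub_add_cancel] at this
    have h2 := eval_sub_le hC.coB hy1 hx
    rw [hy.eq_zero, zero_sub, norm_neg] at h2
    have h3 : Real.exp (-h) ≤ Real.exp h * ‖y - x‖ := hB.trans h2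
    have h4 : Real.exp (-(2 * h)) = Real.exp (-h) * Real.exp (-h) := by
      rw [← Real.exp_add]; congr 1; ring
    have h5 : Real.exp (-h) * Real.exp h = 1 := by rw [← Real.exp_add]; simp
    rw [h4]
    calc Real.exp (-h) * Real.exp (-h) ≤ Real.exp (-h) * (Real.exp h * ‖y - x‖) :=
          mul_le_mul_of_nonneg_left h3 (Real.exp_pos _).le
      _ = ‖y - x‖ := by rw [← mul_assoc, h5, one_mul]
  · have : Real.exp (-(2 * h)) ≤ 1 := Real.exp_le_one_iff.mpr (by linarith)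
    linarith [not_le.mp h1]

/-- One step of the propagation of the size of the covector. -/
theorem qcwa_step (hC : Chart d h A B lw c nxt P) (α : ι → K) {ε : ℝ} {i : ι}
    (hb : ‖bet A B nxt P α i‖ ≤ ε) (hi : ε < ‖α i‖) :
    Real.exp (-(4 * h)) * ‖α i‖ ≤ ‖α (nxt i)‖ ∧ (wr A B).eval (P i) ≠ 0 := by
  have hε : 0 ≤ ε := (norm_nonneg _).trans hb
  have hB := qcwa_B_low hC (hC.Ple i) (hC.Ple (nxt i)) (hC.orb i)
  have hW : ‖(wr A B).eval (P i)‖ ≤ Real.exp h * Real.exp h :=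
    eval_le_of_coeff (coeff_wr_le hC.coA hC.coB) (hC.Ple i)
  have e : α i = bet A B nxt P α i +
      α (nxt i) * (wr A B).eval (P i) / (B.eval (P i)) ^ 2 := by
    unfold bet; ring
  have h1 := IsUltrametricDist.norm_add_le_max (bet A B nxt P α i)
    (α (nxt i) * (wr A B).eval (P i) / (B.eval (P i)) ^ 2)
  rw [← e] at h1
  have h2 : ‖α i‖ ≤ ‖α (nxt i) * (wr A B).eval (P i) / (B.eval (P i)) ^ 2‖ := by
    rcases le_max_iff.mp h1 with h3 | h3
    · linarith
    · exact h3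
  refine ⟨?_, ?_⟩
  · rw [norm_div, norm_mul, norm_pow] at h2
    have hBp : 0 < ‖B.eval (P i)‖ := (Real.exp_pos _).trans_le hB
    rw [le_div_iff₀ (pow_pos hBp 2)] at h2
    have h3 : Real.exp (-h) ^ 2 ≤ ‖B.eval (P i)‖ ^ 2 :=
      pow_le_pow_left₀ (Real.exp_pos _).le hB 2
    have h4 : ‖α i‖ * Real.exp (-h) ^ 2 ≤ ‖α (nxt i)‖ * (Real.exp h * Real.exp h) :=
      (mul_le_mul_of_nonneg_left h3 (norm_nonneg _)).trans
        (h2.trans (mul_le_mul_of_nonneg_left hW (norm_nonneg _)))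
    have h5 : Real.exp (-(4 * h)) = Real.exp (-h) ^ 2 * Real.exp (-h) ^ 2 := by
      rw [← pow_add, ← Real.exp_nat_mul]; congr 1; push_cast; ring
    have h6 : Real.exp h * Real.exp h * Real.exp (-h) ^ 2 = 1 := by
      rw [sq, ← Real.exp_add, ← Real.exp_add, ← Real.exp_add]; simp
    calc Real.exp (-(4 * h)) * ‖α i‖ = ‖α i‖ * Real.exp (-h) ^ 2 * Real.exp (-h) ^ 2 := by
          rw [h5]; ring
      _ ≤ ‖α (nxt i)‖ * (Real.exp h * Real.exp h) * Real.exp (-h) ^ 2 :=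
          mul_le_mul_of_nonneg_right h4 (by positivity)
      _ = ‖α (nxt i)‖ := by rw [mul_assoc, h6, mul_one]
  · intro h0
    rw [h0] at h2
    simp only [mul_zero, zero_div, norm_zero] at h2
    linarith

end chart

omit [IsUltrametricDist K] in
/-- A sum over few indices. -/
theorem qcwa_light_sum {ι : Type*} [DecidableEq ι] (t s : Finset ι) (hs : s ⊆ t) (D : ι → ℝ)
    (hD : ∀ l ∈ t, 0 < D l) {T G L e ρ : ℝ} (hT : 0 ≤ T + e)
    (hG : ∑ l ∈ t, max 0 (-Real.log (D l) - T) ≤ G) (hL : (s.card : ℝ) ≤ L) (hρ : 0 < ρ)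
    (hρe : ρ ≤ Real.exp e) :
    ∑ l ∈ s, max 0 (Real.log (ρ / D l)) ≤ L * (T + e) + G := by
  have h1 : Real.log ρ ≤ e := by
    rw [Real.log_le_iff_le_exp hρ]; exact hρe
  calc ∑ l ∈ s, max 0 (Real.log (ρ / D l))
      ≤ ∑ l ∈ s, ((T + e) + max 0 (-Real.log (D l) - T)) := by
        refine Finset.sum_le_sum fun l hl => ?_
        rw [Real.log_div hρ.ne' (hD l (hs hl)).ne']
        have := le_max_left 0 (-Real.log (D l) - T)
        have := le_max_right 0 (-Real.log (D l) - T)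
        exact max_le (by linarith) (by linarith)
    _ = s.card * (T + e) + ∑ l ∈ s, max 0 (-Real.log (D l) - T) := by
        rw [Finset.sum_add_distrib, Finset.sum_const, nsmul_eq_mul]
    _ ≤ L * (T + e) + G := by
        refine add_le_add (mul_le_mul_of_nonneg_right hL hT) (le_trans ?_ hG)
        exact Finset.sum_le_sum_of_subset_of_nonneg hs fun _ _ _ => le_max_left _ _

/-- A sum at a very small radius. -/
theorem qcwa_deep_sum {ι : Type*} (t s : Finset ι) (hs : s ⊆ t) (D : ι → ℝ)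
    (hD : ∀ l ∈ t, 0 < D l) {T G ρ : ℝ}
    (hG : ∑ l ∈ t, max 0 (-Real.log (D l) - T) ≤ G) (hρ : 0 < ρ)
    (hρe : ρ ≤ Real.exp (-T)) :
    ∑ l ∈ s, max 0 (Real.log (ρ / D l)) ≤ G := by
  have h1 : Real.log ρ ≤ -T := by
    rw [Real.log_le_iff_le_exp hρ]; exact hρe
  calc ∑ l ∈ s, max 0 (Real.log (ρ / D l))
      ≤ ∑ l ∈ s, max 0 (-Real.log (D l) - T) := by
        refine Finset.sum_le_sum fun l hl => ?_
        rw [Real.log_div hρ.ne' (hD l (hs hl)).ne']
        exact max_le_max le_rfl (by linarith)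
    _ ≤ G := le_trans
        (Finset.sum_le_sum_of_subset_of_nonneg hs fun _ _ _ => le_max_left _ _) hG

open Classical in
/-- The pigeonhole lemma in a chart. -/
theorem qcwa_pig [IsAlgClosed K] {d : ℕ} {h : ℝ} {A B : K[X]} {lw : K} {c : Fin (2 * d - 2) → K}
    {ι : Type*} [Fintype ι] [Nonempty ι] {nxt : ι ≃ ι} {P : ι → K}
    (hC : Chart d h A B lw c nxt P) {N : ℕ} (pp zz : Fin N → K) (M Q : ℕ)
    (hQ : 1 ≤ Q) {Δ : ℝ} (σ : ℕ → ℝ)
    (hσ : ∀ l, 1 ≤ l → l ≤ M → ((l : ℝ) - 1) * Δ < σ l ∧ σ l ≤ l * Δ) {εp : ℝ} (hεp : 0 ≤ εp)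
    (hε : ∀ l, 1 ≤ l → l ≤ M → ∀ u, (u ∈ Set.range pp ∨ u ∈ Set.range zz) →
      |((Finset.univ.filter fun i => ‖pp i - u‖ ≤ Real.exp (-σ l)).card : ℝ) -
        ((Finset.univ.filter fun i => ‖zz i - u‖ ≤ Real.exp (-σ l)).card : ℝ)| ≤ εp)
    (hN : (M : ℝ) * ((d * Q + d : ℕ) : ℝ) * εp < N) :
    ∃ m j l, l ≤ M ∧ (l = 0 ∨ ‖pp m - zz j‖ ≤ Real.exp (-(((l : ℝ) - 1) * Δ))) ∧
      (l = M ∨ ∀ x, (x = pp m ∨ x = zz j) →
        (∀ s : Finset K, (∀ y ∈ s, (∃ w, A.eval y = P w * B.eval y) ∧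
          ‖y - x‖ ≤ Real.exp (-(((l : ℝ) + 1) * Δ))) →
            (s.card : ℝ) ≤ (Fintype.card ι : ℝ) / Q) ∧
        ∀ y, B.IsRoot y → Real.exp (-(((l : ℝ) + 1) * Δ)) < ‖y - x‖) := by
  set PP : Finset K := Finset.univ.biUnion fun w => (A - C (P w) * B).roots.toFinset with hPP
  have hg0 : ∀ w, A - C (P w) * B ≠ 0 := by
    intro w h0
    have h1 := hC.glead w
    have h2 : (A - C (P w) * B).coeff d = A.coeff d - P w * B.coeff d := by
      rw [coeff_sub, coeff_C_mul]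
    rw [← h2, h0] at h1
    simp only [coeff_zero, norm_zero] at h1
    exact absurd h1 (not_le.mpr (Real.exp_pos _))
  have hmem : ∀ y, (∃ w, A.eval y = P w * B.eval y) → y ∈ PP := by
    rintro y ⟨w, hw⟩
    refine Finset.mem_biUnion.mpr ⟨w, Finset.mem_univ _, ?_⟩
    rw [Multiset.mem_toFinset, mem_roots (hg0 w), IsRoot.def, eval_sub, eval_mul, eval_C, hw,
      sub_self]
  have hcard : PP.card ≤ Fintype.card ι * d := by
    refine (Finset.card_biUnion_le_card_mul _ _ d fun w _ => ?_).trans (by simp)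
    refine (Multiset.toFinset_card_le _).trans ((card_roots' _).trans ?_)
    refine (natDegree_sub_le _ _).trans (max_le hC.degA ?_)
    exact (natDegree_C_mul_le _ _).trans hC.degB
  have hB0 : B ≠ 0 := by
    intro h0
    obtain ⟨i⟩ := ‹Nonempty ι›
    have := qcwa_B_low hC (hC.Ple i) (hC.Ple (nxt i)) (hC.orb i)
    rw [h0] at this
    simp only [eval_zero, norm_zero] at this
    exact absurd this (not_le.mpr (Real.exp_pos _))
  set r : ℕ → K → K → Prop := fun l x y => l = 0 ∨ ‖x - y‖ ≤ Real.exp (-σ (min l M)) with hr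
  have hequiv : ∀ l, Equivalence (r l) := by
    intro l
    refine ⟨fun x => Or.inr (by simpa using (Real.exp_pos _).le), ?_, ?_⟩
    · rintro x y (h0 | h0)
      · exact Or.inl h0
      · exact Or.inr (by rwa [norm_sub_rev])
    · rintro x y w (h0 | h0) (h1 | h1)
      · exact Or.inl h0
      · exact Or.inl h0
      · exact Or.inl h1
      · refine Or.inr ?_
        have := qcwa_add_le h0 h1
        rwa [sub_add_sub_cancel] at this
  have hnest : ∀ l x y, r (l + 1) x y → r l x y := by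
    rintro l x y (h0 | h0)
    · omega
    · rcases Nat.eq_zero_or_pos l with h1 | h1
      · exact Or.inl h1
      · refine Or.inr (h0.trans (Real.exp_le_exp.mpr (neg_le_neg ?_)))
        by_cases h2 : l < M
        · rw [min_eq_left h2.le, min_eq_left (by omega : l + 1 ≤ M)]
          have a1 := (hσ l h1 h2.le).2
          have a2 := (hσ (l + 1) (by omega) (by omega)).1
          push_cast at a2
          rw [add_sub_cancel_right] at a2
          linarith
        · rw [min_eq_right (by omega : M ≤ l), min_eq_right (by omega : M ≤ l + 1)]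
  set Hv : ℕ → K → Prop := fun l x =>
    (Fintype.card ι : ℝ) / Q < ((PP.filter fun y => r l y x).card : ℝ) ∨
      ∃ y, B.IsRoot y ∧ r l y x with hHv
  have hinv : ∀ l x y, r l x y → Hv l x → Hv l y := by
    rintro l x y hxy (h0 | ⟨w, hw, h0⟩)
    · refine Or.inl (h0.trans_le ?_)
      exact_mod_cast Finset.card_le_card fun w hw => by
        rw [Finset.mem_filter] at hw ⊢
        exact ⟨hw.1, (hequiv l).trans hw.2 hxy⟩
    · exact Or.inr ⟨w, hw, (hequiv l).trans h0 hxy⟩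
  have hq : ∀ l, 1 ≤ l → l ≤ M → ∀ s : Finset K, (∀ x ∈ s, Hv l x) →
      (∀ x ∈ s, ∀ y ∈ s, x ≠ y → ¬ r l x y) → s.card ≤ d * Q + d := by
    intro l _ _ s hs hsep
    set s1 := s.filter fun x =>
      (Fintype.card ι : ℝ) / Q < ((PP.filter fun y => r l y x).card : ℝ) with hs1
    set s2 := s.filter fun x => ∃ y, B.IsRoot y ∧ r l y x with hs2
    have hsub : s ⊆ s1 ∪ s2 := by
      intro x hx
      rcases hs x hx with h0 | h0
      · exact Finset.mem_union_left _ (Finset.mem_filter.mpr ⟨hx, h0⟩)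
      · exact Finset.mem_union_right _ (Finset.mem_filter.mpr ⟨hx, h0⟩)
    have c1 : s1.card ≤ d * Q := by
      have hdisj : ((s1 : Set K)).PairwiseDisjoint fun x => PP.filter fun y => r l y x := by
        intro x hx y hy hxy
        rw [Function.onFun, Finset.disjoint_left]
        intro w hw hw'
        rw [Finset.mem_filter] at hw hw'
        exact hsep x (Finset.mem_filter.mp hx).1 y (Finset.mem_filter.mp hy).1 hxy
          ((hequiv l).trans ((hequiv l).symm hw.2) hw'.2)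
      have e1 := Finset.card_biUnion hdisj
      have e2 : (s1.biUnion fun x => PP.filter fun y => r l y x).card ≤ PP.card :=
        Finset.card_le_card (Finset.biUnion_subset.mpr fun x _ => Finset.filter_subset _ _)
      have e3 : (s1.card : ℝ) * ((Fintype.card ι : ℝ) / Q) ≤
          ∑ x ∈ s1, ((PP.filter fun y => r l y x).card : ℝ) := by
        rw [← nsmul_eq_mul, ← Finset.sum_const]
        exact Finset.sum_le_sum fun x hx => (Finset.mem_filter.mp hx).2.le
      have e4 : (∑ x ∈ s1, ((PP.filter fun y => r l y x).card : ℝ)) ≤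
          (Fintype.card ι : ℝ) * d := by
        have : (∑ x ∈ s1, (PP.filter fun y => r l y x).card) ≤ Fintype.card ι * d := by
          rw [← e1]; exact e2.trans hcard
        exact_mod_cast this
      have hn : (0 : ℝ) < Fintype.card ι := by exact_mod_cast Fintype.card_pos
      have hQ' : (0 : ℝ) < Q := by exact_mod_cast hQ
      have e5 : (s1.card : ℝ) ≤ d * Q := by
        have e6 := e3.trans e4
        rw [← mul_div_assoc, div_le_iff₀ hQ'] at e6
        nlinarith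
      exact_mod_cast e5
    have c2 : s2.card ≤ d := by
      have hex : ∀ x ∈ s2, ∃ y, B.IsRoot y ∧ r l y x := fun x hx => (Finset.mem_filter.mp hx).2
      choose! f hf using hex
      have e1 : s2.card ≤ B.roots.toFinset.card := by
        refine Finset.card_le_card_of_injOn f (fun x hx => ?_) ?_
        · rw [Finset.mem_coe, Multiset.mem_toFinset, mem_roots hB0]
          exact (hf x hx).1
        · intro x hx y hy hxy
          by_contra hne
          refine hsep x (Finset.mem_filter.mp hx).1 y (Finset.mem_filter.mp hy).1 hne ?_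
          have a1 := (hf x hx).2
          have a2 := (hf y hy).2
          rw [hxy] at a1
          exact (hequiv l).trans ((hequiv l).symm a1) a2
      exact e1.trans ((Multiset.toFinset_card_le _).trans ((card_roots' _).trans hC.degB))
    exact (Finset.card_le_card hsub).trans ((Finset.card_union_le _ _).trans (add_le_add c1 c2))
  have hε' : ∀ l, 1 ≤ l → l ≤ M → ∀ u, (u ∈ Set.range pp ∨ u ∈ Set.range zz) →
      |((Finset.univ.filter fun i => r l (pp i) u).card : ℝ) -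
        ((Finset.univ.filter fun i => r l (zz i) u).card : ℝ)| ≤ εp := by
    intro l h1 h2 u hu
    have e : ∀ x, r l x u ↔ ‖x - u‖ ≤ Real.exp (-σ l) := by
      intro x
      simp only [hr, min_eq_left h2]
      constructor
      · rintro (h0 | h0)
        · omega
        · exact h0
      · exact Or.inr
    simp only [e]
    exact hε l h1 h2 u hu
  obtain ⟨m, j, l, hl, hrel, hcase⟩ := pig r hequiv hnest (fun x y => Or.inl rfl) Hv hinv M
    (d * Q + d) hq pp zz (fun l h1 h2 u hu => by convert hε' l h1 h2 u hu) hN hεp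
  refine ⟨m, j, l, hl, ?_, ?_⟩
  · rcases Nat.eq_zero_or_pos l with h1 | h1
    · exact Or.inl h1
    · rcases hrel with h0 | h0
      · exact Or.inl h0
      · refine Or.inr (h0.trans (Real.exp_le_exp.mpr (neg_le_neg ?_)))
        rw [min_eq_left hl]
        exact (hσ l h1 hl).1.le
  · by_cases hlM : l = M
    · exact Or.inl hlM
    refine Or.inr fun x hx => ?_
    have hlight : ¬ Hv (l + 1) x := by
      rcases hcase with h0 | h0
      · exact absurd h0 hlM
      · rcases hx with rfl | rfl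
        · exact h0.1
        · exact h0.2
    have hin : ∀ y, ‖y - x‖ ≤ Real.exp (-(((l : ℝ) + 1) * Δ)) → r (l + 1) y x := by
      intro y hy
      refine Or.inr (hy.trans (Real.exp_le_exp.mpr (neg_le_neg ?_)))
      rw [min_eq_left (by omega : l + 1 ≤ M)]
      have := (hσ (l + 1) (by omega) (by omega)).2
      push_cast at this
      exact this
    simp only [hHv, not_or, not_lt, not_exists, not_and] at hlight
    refine ⟨fun s hs => le_trans ?_ hlight.1, fun y hy => ?_⟩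
    · exact_mod_cast Finset.card_le_card fun y hy =>
        Finset.mem_filter.mpr ⟨hmem y (hs y hy).1, hin y (hs y hy).2⟩
    · by_contra hle
      exact hlight.2 y hy (hin y (not_lt.mp hle))

section chart2

variable {d : ℕ} {h : ℝ} {A B : K[X]} {lw : K} {c : Fin (2 * d - 2) → K} {ι : Type*}
  [Fintype ι] [DecidableEq ι] {nxt : ι ≃ ι} {P : ι → K}

/-- The hypotheses of the chart theorem at a very small radius. -/
theorem qcwa_deep (hC : Chart d h A B lw c nxt P) (hh : 0 ≤ h) {T G : ℝ} (hT : 0 < T)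
    (hP : Function.Injective P)
    (hG : ∀ m, ∑ l ∈ Finset.univ.erase m, max 0 (-Real.log ‖P l - P m‖ - T) ≤ G) {Rl : K}
    (hRl : Rl ≠ 0) (hsmall : ‖Rl‖ ≤ Real.exp (-(T + 2 * h))) (m w : ι) {x : K} (hx : ‖x‖ ≤ 1)
    (hxw : A.eval x = P w * B.eval x) :
    (∀ y, B.IsRoot y → ‖Rl‖ < ‖y - x‖) ∧
      ∑ l ∈ Finset.univ.erase m, max 0 (Real.log (‖Rl‖ / ‖P l - P m‖)) ≤ G ∧
      ∀ s ⊆ Finset.univ.erase w,
        ∑ l ∈ s, max 0 (Real.log (Real.exp (2 * h) * ‖Rl‖ / ‖P l - P w‖)) ≤ G := by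
  have hD : ∀ m, ∀ l ∈ Finset.univ.erase m, 0 < ‖P l - P m‖ := fun m l hl =>
    norm_pos_iff.mpr (sub_ne_zero.mpr (hP.ne (Finset.ne_of_mem_erase hl)))
  have hR : 0 < ‖Rl‖ := norm_pos_iff.mpr hRl
  refine ⟨fun y hy => ?_, ?_, fun s hs => ?_⟩
  · have h1 := qcwa_pole_far hC hh hx (qcwa_B_low hC hx (hC.Ple w) hxw) hy
    exact hsmall.trans_lt ((Real.exp_lt_exp.mpr (by linarith)).trans_le h1)
  · exact qcwa_deep_sum _ _ (Finset.Subset.refl _) (fun l => ‖P l - P m‖) (hD m) (hG m) hR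
      (hsmall.trans (Real.exp_le_exp.mpr (by linarith)))
  · refine qcwa_deep_sum _ _ hs (fun l => ‖P l - P w‖) (hD w) (hG w) (by positivity) ?_
    calc Real.exp (2 * h) * ‖Rl‖ ≤ Real.exp (2 * h) * Real.exp (-(T + 2 * h)) :=
          mul_le_mul_of_nonneg_left hsmall (Real.exp_pos _).le
      _ = Real.exp (-T) := by rw [← Real.exp_add]; congr 1; ring

open Classical in
/-- The hypotheses of the chart theorem when both discs are light. -/
theorem qcwa_light (hC : Chart d h A B lw c nxt P) (hh : 0 ≤ h) {T G L : ℝ} (hT : 0 < T)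
    (hP : Function.Injective P)
    (hG : ∀ m, ∑ l ∈ Finset.univ.erase m, max 0 (-Real.log ‖P l - P m‖ - T) ≤ G) {Rl : K}
    (hRl : Rl ≠ 0) (hR1 : ‖Rl‖ ≤ 1) (m w : ι) {x : K}
    (hlm : ∀ s : Finset K, (∀ y ∈ s, (∃ w, A.eval y = P w * B.eval y) ∧ ‖y - P m‖ ≤ ‖Rl‖) →
      (s.card : ℝ) ≤ L)
    (hlx : ∀ s : Finset K, (∀ y ∈ s, (∃ w, A.eval y = P w * B.eval y) ∧ ‖y - x‖ ≤ ‖Rl‖) →
      (s.card : ℝ) ≤ L)
    (hpole : ∀ y, B.IsRoot y → ‖Rl‖ < ‖y - x‖) :
    ∑ l ∈ Finset.univ.erase m, max 0 (Real.log (‖Rl‖ / ‖P l - P m‖)) ≤ L * (T + 2 * h) + G ∧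
      ∑ l ∈ (Finset.univ.erase w).filter
          (fun l => ∃ y, A.eval y = P l * B.eval y ∧ ‖y - x‖ ≤ ‖Rl‖),
        max 0 (Real.log (Real.exp (2 * h) * ‖Rl‖ / ‖P l - P w‖)) ≤ L * (T + 2 * h) + G := by
  have hD : ∀ m, ∀ l ∈ Finset.univ.erase m, 0 < ‖P l - P m‖ := fun m l hl =>
    norm_pos_iff.mpr (sub_ne_zero.mpr (hP.ne (Finset.ne_of_mem_erase hl)))
  have hR : 0 < ‖Rl‖ := norm_pos_iff.mpr hRl
  have he : 1 ≤ Real.exp (2 * h) := Real.one_le_exp (by linarith)
  refine ⟨?_, ?_⟩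
  · set s := (Finset.univ.erase m).filter fun l => ‖P l - P m‖ ≤ ‖Rl‖ with hs
    have e1 : ∑ l ∈ Finset.univ.erase m, max 0 (Real.log (‖Rl‖ / ‖P l - P m‖)) =
        ∑ l ∈ s, max 0 (Real.log (‖Rl‖ / ‖P l - P m‖)) := by
      symm
      refine Finset.sum_subset (Finset.filter_subset _ _) fun l hl hl' => ?_
      have h1 : ‖Rl‖ < ‖P l - P m‖ := by
        by_contra h2
        exact hl' (Finset.mem_filter.mpr ⟨hl, not_lt.mp h2⟩)
      refine max_eq_left (Real.log_nonpos (by positivity) ?_)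
      rw [div_le_one (hD m l hl)]
      exact h1.le
    rw [e1]
    refine qcwa_light_sum _ s (Finset.filter_subset _ _) (fun l => ‖P l - P m‖) (hD m)
      (by linarith) (hG m) ?_ hR (hR1.trans he)
    have h1 := hlm (s.image P) (by
      intro y hy
      obtain ⟨l, hl, rfl⟩ := Finset.mem_image.mp hy
      exact ⟨⟨nxt l, hC.orb l⟩, (Finset.mem_filter.mp hl).2⟩)
    rwa [Finset.card_image_of_injective _ hP] at h1
  · set s := (Finset.univ.erase w).filter
      (fun l => ∃ y, A.eval y = P l * B.eval y ∧ ‖y - x‖ ≤ ‖Rl‖) with hs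
    refine qcwa_light_sum _ s (Finset.filter_subset _ _) (fun l => ‖P l - P w‖) (hD w)
      (by linarith) (hG w) ?_ (by positivity) (mul_le_of_le_one_right (by positivity) hR1)
    have hex : ∀ l ∈ s, ∃ y, A.eval y = P l * B.eval y ∧ ‖y - x‖ ≤ ‖Rl‖ := fun l hl =>
      (Finset.mem_filter.mp hl).2
    choose! f hf using hex
    have h1 := hlx (s.image f) (by
      intro y hy
      obtain ⟨l, hl, rfl⟩ := Finset.mem_image.mp hy
      exact ⟨⟨l, (hf l hl).1⟩, (hf l hl).2⟩)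
    rwa [Finset.card_image_of_injOn] at h1
    intro l hl l' hl' e
    have a1 := (hf l hl).1
    have a2 := (hf l' hl').1
    rw [← e, a1] at a2
    have hB : B.eval (f l) ≠ 0 := fun h0 => absurd (hpole _ h0) (not_lt.mpr (hf l hl).2)
    exact hP (mul_right_cancel₀ hB a2)

end chart2

/-- The numerical condition of the pigeonhole lemma. -/
theorem qcwa_num {d k N n S h e : ℝ} (hd : 1 ≤ d) (hk : 40000 * d ^ 2 ≤ k) (hN : k ^ 19 ≤ N)
    (hn : n ≤ 2 * k * N) (hn0 : 0 ≤ n) (hh : 0 < h)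
    (hS : 4000 * d ^ 2 * k ^ 15 * S ≤ n ^ 2 * h)
    (he : e ≤ 2 * S + 84 * k ^ 2 * N * h) :
    7 * k ^ 3 * (d * k ^ 3 + d) * Real.sqrt (e / (h / k) + 1) < N := by
  have hd2 : 1 ≤ d ^ 2 := one_le_pow₀ hd
  have hk1 : 1 ≤ k := by linarith
  have hk0 : 0 < k := by linarith
  have hk19 : 1 ≤ k ^ 19 := one_le_pow₀ hk1
  have hN1 : 1 ≤ N := hk19.trans hN
  have hk3 : 1 ≤ k ^ 3 := one_le_pow₀ hk1
  have h1 : 7 * k ^ 3 * (d * k ^ 3 + d) ≤ 14 * d * k ^ 6 := by
    have : d ≤ d * k ^ 3 := le_mul_of_one_le_right (by linarith) hk3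
    calc 7 * k ^ 3 * (d * k ^ 3 + d) ≤ 7 * k ^ 3 * (2 * (d * k ^ 3)) :=
          mul_le_mul_of_nonneg_left (by linarith) (by positivity)
      _ = 14 * d * k ^ 6 := by ring
  have hc : 0 < 14 * d * k ^ 6 := by positivity
  refine (mul_le_mul_of_nonneg_right h1 (Real.sqrt_nonneg _)).trans_lt ?_
  rw [← lt_div_iff₀' hc, Real.sqrt_lt' (by positivity), div_pow, lt_div_iff₀ (by positivity)]
  have h2 : e / (h / k) ≤ 2 * k * (S / h) + 84 * k ^ 3 * N := by
    rw [div_le_iff₀ (by positivity)]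
    refine he.trans (le_of_eq ?_)
    field_simp
  have h3 : 4000 * d ^ 2 * k ^ 15 * (S / h) ≤ 4 * k ^ 2 * N ^ 2 := by
    rw [← mul_div_assoc, div_le_iff₀ hh]
    refine hS.trans (mul_le_mul_of_nonneg_right ?_ hh.le)
    calc n ^ 2 ≤ (2 * k * N) ^ 2 := pow_le_pow_left₀ hn0 hn 2
      _ = 4 * k ^ 2 * N ^ 2 := by ring
  have h4 : 1000 * d ^ 2 * k ^ 13 * (S / h) ≤ N ^ 2 := by
    have : k ^ 2 * (4 * (1000 * d ^ 2 * k ^ 13 * (S / h))) ≤ k ^ 2 * (4 * N ^ 2) := by
      calc _ = 4000 * d ^ 2 * k ^ 15 * (S / h) := by ring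
        _ ≤ _ := h3
        _ = _ := by ring
    have := le_of_mul_le_mul_left this (by positivity)
    linarith
  have h5 : 40000 * d ^ 2 * k ^ 15 * N ≤ N ^ 2 := by
    have a1 : 40000 * d ^ 2 * k ^ 15 ≤ N := by
      calc 40000 * d ^ 2 * k ^ 15 ≤ k * k ^ 15 := mul_le_mul_of_nonneg_right hk (by positivity)
        _ = k ^ 16 := by ring
        _ ≤ k ^ 19 := pow_le_pow_right₀ hk1 (by norm_num)
        _ ≤ N := hN
    calc _ ≤ N * N := mul_le_mul_of_nonneg_right a1 (by linarith)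
      _ = N ^ 2 := by ring
  have h6 : 1 ≤ k ^ 3 * N := one_le_mul_of_one_le_of_one_le hk3 hN1
  have h7 : 0 < d ^ 2 * k ^ 15 * N := by positivity
  calc (e / (h / k) + 1) * (14 * d * k ^ 6) ^ 2
      ≤ (2 * k * (S / h) + 85 * (k ^ 3 * N)) * (14 * d * k ^ 6) ^ 2 :=
        mul_le_mul_of_nonneg_right (by linarith) (by positivity)
    _ = 392 * (d ^ 2 * k ^ 13 * (S / h)) + 16660 * (d ^ 2 * k ^ 15 * N) := by ring
    _ < N ^ 2 := by nlinarith

end Pool.Agent.Lib.MP_0dd0d9_ag
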