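import Pool.Agent.Lib.MP_0dd0d9_ag.Alg2

/-!
TASK g0d Red1.  The generic point of a component.
-/

namespace Pool.Agent.Lib.MP_0dd0d9_ag

open Polynomial

theorem red1_eval_inf {L : Type*} [Field L] {d : ℕ} (a : L[X]) (x : V L) (hx : x 1 = 0) :
    MvPolynomial.eval x (a.homogenize d) = a.coeff d * x 0 ^ d := by
  rw [eval_homogenize_eq_sum, Fin.sum_univ_castSucc, Finset.sum_eq_zero, zero_add]
  · simp
  · intro μ _
    have : d - (μ.castSucc : ℕ) ≠ 0 := by
      have := μ.2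
      simp only [Fin.val_castSucc]
      omega
    rw [hx, zero_pow this, mul_zero, mul_zero]

theorem red1_app_eq_zero {L : Type*} [Field L] {d : ℕ} (a b : L[X]) (x : V L) :
    app (mk d a b) x = 0 ↔ MvPolynomial.eval x (a.homogenize d) = 0 ∧
      MvPolynomial.eval x (b.homogenize d) = 0 := by
  rw [funext_iff, Fin.forall_fin_two]
  rfl

theorem red1_natDegree_lt {L : Type*} [Field L] {d : ℕ} (hd : 1 ≤ d) {a : L[X]}
    (ha : a.natDegree ≤ d) (h : a.coeff d = 0) : a.natDegree < d := by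
  rcases ha.lt_or_eq with h1 | h1
  · exact h1
  · rw [← h1, coeff_natDegree, leadingCoeff_eq_zero] at h
    rw [h, natDegree_zero]
    exact hd

/-- If the resultant with formal degrees `d`, `d` is nonzero there is no common zero
(`exists_mul_add_mul_eq_C_resultant` for `![x, 1]`, `resultant_eq_zero_of_lt_lt` for `![1, 0]`). -/
theorem nz_of_resultant {L : Type*} [Field L] {d : ℕ} (hd : 1 ≤ d) {a b : L[X]}
    (ha : a.natDegree ≤ d) (hb : b.natDegree ≤ d) (h : resultant a b d d ≠ 0) (x : V L)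
    (hx : x ≠ 0) : app (mk d a b) x ≠ 0 := by
  rw [Ne, red1_app_eq_zero]
  rintro ⟨h1, h2⟩
  by_cases x1 : x 1 = 0
  · have x0 : x 0 ≠ 0 := fun c => hx (by
      rw [funext_iff, Fin.forall_fin_two]; exact ⟨c, x1⟩)
    rw [red1_eval_inf _ _ x1, mul_eq_zero] at h1 h2
    exact h (resultant_eq_zero_of_lt_lt _ _ _ _
      (red1_natDegree_lt hd ha (h1.resolve_right (pow_ne_zero _ x0)))
      (red1_natDegree_lt hd hb (h2.resolve_right (pow_ne_zero _ x0))))
  · rw [eval_homogenize ha x x1, mul_eq_zero] at h1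
    rw [eval_homogenize hb x x1, mul_eq_zero] at h2
    obtain ⟨p, q, -, -, e⟩ := exists_mul_add_mul_eq_C_resultant a b ha hb (Or.inl (by omega))
    have := congrArg (eval (x 0 / x 1)) e
    rw [eval_add, eval_mul, eval_mul, h1.resolve_right (pow_ne_zero _ x1),
      h2.resolve_right (pow_ne_zero _ x1), eval_C] at this
    exact h (by rw [← this]; ring)

theorem red1_res {L : Type*} [Field L] {d : ℕ} {a b : L[X]} (ha : a.natDegree ≤ d)
    (hb : b.natDegree ≤ d) (hc : IsCoprime a b) (h : a.coeff d ≠ 0) : resultant a b d d ≠ 0 := by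
  have e : a.natDegree = d := le_antisymm ha (le_natDegree_of_ne_zero h)
  obtain ⟨k, hk⟩ := Nat.exists_eq_add_of_le hb
  have := resultant_add_right_deg a b d b.natDegree k le_rfl
  rw [← hk] at this
  rw [this]
  refine mul_ne_zero (pow_ne_zero _ h) ?_
  have h2 := resultant_ne_zero a b hc
  rwa [e] at h2

/-- Converse over an algebraically closed field (`resultant_ne_zero`, `resultant_add_left_deg`,
`resultant_add_right_deg`). -/
theorem resultant_of_nz {L : Type*} [Field L] [IsAlgClosed L] {d : ℕ} (hd : 1 ≤ d) {a b : L[X]}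
    (ha : a.natDegree ≤ d) (hb : b.natDegree ≤ d)
    (h : ∀ x : V L, x ≠ 0 → app (mk d a b) x ≠ 0) : resultant a b d d ≠ 0 := by
  have hc : IsCoprime a b := by
    rw [Polynomial.isCoprime_iff_aeval_ne_zero_of_isAlgClosed L L]
    intro t
    have := h ![t, 1] (fun c => by simpa using congrFun c 1)
    rw [Ne, red1_app_eq_zero, eval_homogenize ha _ (by simp), eval_homogenize hb _ (by simp)]
      at this
    by_contra c
    push Not at c
    simp only [coe_aeval_eq_eval] at c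
    simp [c.1, c.2] at this
  have := h ![1, 0] (fun c => by simpa using congrFun c 0)
  rw [Ne, red1_app_eq_zero, red1_eval_inf _ _ (by simp), red1_eval_inf _ _ (by simp)] at this
  simp only [Matrix.cons_val_zero, one_pow, mul_one, not_and_or] at this
  rcases this with h1 | h1
  · exact red1_res ha hb hc h1
  · rw [resultant_comm]
    exact mul_ne_zero (pow_ne_zero _ (by simp)) (red1_res hb ha hc.symm h1)

/-- The coordinates of the generic point. -/
noncomputable def genPt {σ : Type} (𝔭 : Ideal (MvPolynomial σ ℂ)) :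
    σ → FractionRing (MvPolynomial σ ℂ ⧸ 𝔭) :=
  fun i => algebraMap (MvPolynomial σ ℂ ⧸ 𝔭) _ (Ideal.Quotient.mk 𝔭 (MvPolynomial.X i))

theorem red1_aeval {σ : Type} (𝔭 : Ideal (MvPolynomial σ ℂ)) (q : MvPolynomial σ ℂ) :
    MvPolynomial.aeval (genPt 𝔭) q =
      algebraMap (MvPolynomial σ ℂ ⧸ 𝔭) (FractionRing (MvPolynomial σ ℂ ⧸ 𝔭))
        (Ideal.Quotient.mk 𝔭 q) := by
  have : MvPolynomial.aeval (genPt 𝔭) =
      (IsScalarTower.toAlgHom ℂ (MvPolynomial σ ℂ ⧸ 𝔭)
        (FractionRing (MvPolynomial σ ℂ ⧸ 𝔭))).comp (Ideal.Quotient.mkₐ ℂ 𝔭) :=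
    MvPolynomial.algHom_ext fun i => by simp [genPt]
  rw [this]
  rfl

theorem red1_aeval_eq_zero {σ : Type} (𝔭 : Ideal (MvPolynomial σ ℂ)) (q : MvPolynomial σ ℂ) :
    MvPolynomial.aeval (genPt 𝔭) q = 0 ↔ q ∈ 𝔭 := by
  rw [red1_aeval, map_eq_zero_iff _ (IsFractionRing.injective _ _), Ideal.Quotient.eq_zero_iff_mem]

/-- In a polynomial ring a prime that is minimal over a principal ideal is zero or generated by a
prime element `π`; if `π` involves the variable `i`, the other variables stay algebraically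
independent modulo `π` (`MvPolynomial.degreeOf`). -/
theorem trdeg_of_minimal {σ : Type} [Fintype σ] (G : MvPolynomial σ ℂ)
    (𝔭 : Ideal (MvPolynomial σ ℂ)) [𝔭.IsPrime] (h : 𝔭 ∈ (Ideal.span {G}).minimalPrimes) :
    ((Fintype.card σ - 1 : ℕ) : Cardinal) ≤
      Algebra.trdeg ℂ (FractionRing (MvPolynomial σ ℂ ⧸ 𝔭)) := by
  classical
  have hp : 𝔭.IsPrime := inferInstance
  by_cases hG : G = 0
  · have h0 : 𝔭 = ⊥ := by
      refine le_bot_iff.1 (h.2 ⟨Ideal.isPrime_bot, ?_⟩ bot_le)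
      rw [hG]; simp
    have hi : AlgebraicIndependent ℂ (genPt 𝔭) := by
      rw [algebraicIndependent_iff]
      intro q hq
      rw [red1_aeval_eq_zero, h0] at hq
      exact hq
    refine le_trans ?_ hi.cardinalMk_le_trdeg
    rw [Cardinal.mk_fintype]
    exact_mod_cast Nat.sub_le _ _
  have hG𝔭 : G ∈ 𝔭 := h.1.2 (Ideal.mem_span_singleton_self G)
  obtain ⟨π, hπ, hπG, hπ𝔭⟩ : ∃ π, Prime π ∧ π ∣ G ∧ π ∈ 𝔭 := by
    obtain ⟨u, hu⟩ := UniqueFactorizationMonoid.factors_prod hG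
    rw [← hu, Ideal.mul_unit_mem_iff_mem _ u.isUnit] at hG𝔭
    obtain ⟨π, h1, h2⟩ := (hp.multiset_prod_mem_iff_exists_mem _).1 hG𝔭
    exact ⟨π, UniqueFactorizationMonoid.prime_of_factor π h1,
      UniqueFactorizationMonoid.dvd_of_mem_factors h1, h2⟩
  have hle : 𝔭 ≤ Ideal.span {π} :=
    h.2 ⟨(Ideal.span_singleton_prime hπ.ne_zero).2 hπ,
      Ideal.span_singleton_le_span_singleton.2 hπG⟩ ((Ideal.span_singleton_le_iff_mem _).2 hπ𝔭)
  obtain ⟨i, hi⟩ : π.vars.Nonempty := by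
    rw [Finset.nonempty_iff_ne_empty, Ne, MvPolynomial.vars_eq_empty_iff_eq_C]
    intro e
    refine hπ.not_isUnit ?_
    rw [e]
    refine (IsUnit.mk0 _ fun c => hπ.ne_zero ?_).map MvPolynomial.C
    rw [e, c, map_zero]
  have hind : AlgebraicIndependent ℂ (fun j : {j // j ≠ i} => genPt 𝔭 j.1) := by
    rw [algebraicIndependent_iff]
    intro q hq
    have e : MvPolynomial.aeval (fun j : {j // j ≠ i} => genPt 𝔭 j.1) q =
        MvPolynomial.aeval (genPt 𝔭) (MvPolynomial.rename Subtype.val q) := by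
      rw [MvPolynomial.aeval_rename]; rfl
    rw [e, red1_aeval_eq_zero] at hq
    obtain ⟨r, hr⟩ := Ideal.mem_span_singleton.1 (hle hq)
    by_contra q0
    have hq0 : MvPolynomial.rename (Subtype.val : {j // j ≠ i} → σ) q ≠ 0 := fun c =>
      q0 (MvPolynomial.rename_injective _ Subtype.val_injective (by rw [c, map_zero]))
    have r0 : r ≠ 0 := fun c => hq0 (by rw [hr, c, mul_zero])
    have : i ∈ (MvPolynomial.rename (Subtype.val : {j // j ≠ i} → σ) q).vars := by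
      rw [MvPolynomial.mem_vars_iff_degreeOf_ne_zero] at hi ⊢
      rw [hr, MvPolynomial.degreeOf_mul_eq hπ.ne_zero r0]
      omega
    obtain ⟨j, -, hj⟩ := MvPolynomial.mem_vars_rename _ _ this
    exact j.2 hj
  refine le_trans ?_ hind.cardinalMk_le_trdeg
  rw [Cardinal.mk_fintype, Fintype.card_subtype_compl, Fintype.card_subtype_eq]

theorem adjoin_genPt {σ : Type} (𝔭 : Ideal (MvPolynomial σ ℂ)) [𝔭.IsPrime] :
    IntermediateField.adjoin ℂ (Set.range (genPt 𝔭)) = ⊤ := by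
  have key : ∀ a : MvPolynomial σ ℂ ⧸ 𝔭, algebraMap _ (FractionRing (MvPolynomial σ ℂ ⧸ 𝔭)) a ∈
      IntermediateField.adjoin ℂ (Set.range (genPt 𝔭)) := by
    intro a
    obtain ⟨q, rfl⟩ := Ideal.Quotient.mk_surjective a
    rw [← red1_aeval]
    refine IntermediateField.algebra_adjoin_le_adjoin ℂ _ ?_
    rw [Algebra.adjoin_range_eq_range_aeval]
    exact ⟨q, rfl⟩
  rw [eq_top_iff]
  intro z _
  obtain ⟨a, b, -, rfl⟩ := IsFractionRing.div_surjective (A := MvPolynomial σ ℂ ⧸ 𝔭) z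
  exact div_mem (key a) (key b)

/-- The universal periodicity polynomials. -/
noncomputable def red1G (d i : ℕ) : MvPolynomial (Fin d ⊕ Fin (d - 1)) ℂ :=
  wedge ((app (sF d MvPolynomial.X))^[i] ![0, 1]) ![0, 1]

/-- The universal resultant. -/
noncomputable def red1R (d : ℕ) : MvPolynomial (Fin d ⊕ Fin (d - 1)) ℂ :=
  resultant (sA d MvPolynomial.X) (sB d MvPolynomial.X) d d

theorem red1_map_G {d : ℕ} {S : Type*} [CommRing S]
    (f : MvPolynomial (Fin d ⊕ Fin (d - 1)) ℂ →+* S) (i : ℕ) :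
    f (red1G d i) = wedge ((app (sF d fun j => f (MvPolynomial.X j)))^[i] ![0, 1]) ![0, 1] := by
  have e : (fun j => f ((![0, 1] : V (MvPolynomial (Fin d ⊕ Fin (d - 1)) ℂ)) j)) = ![0, 1] := by
    rw [funext_iff, Fin.forall_fin_two]; simp
  rw [red1G, ← wedge_map, ← iter_mapF, mapF_sF, e]

theorem red1_map_R {d : ℕ} {S : Type*} [CommRing S]
    (f : MvPolynomial (Fin d ⊕ Fin (d - 1)) ℂ →+* S) :
    f (red1R d) = resultant (sA d fun j => f (MvPolynomial.X j))
      (sB d fun j => f (MvPolynomial.X j)) d d := by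
  rw [red1R, ← resultant_map_map]
  congr 1
  · simp [sA, Polynomial.map_sum]
  · simp [sB, Polynomial.map_sum]

theorem red1_mem_Xn {d : ℕ} (hd : 1 ≤ d) (n : ℕ) (c : Fin d ⊕ Fin (d - 1) → ℂ) :
    c ∈ Xn d n ↔ MvPolynomial.aeval c (red1G d n) = 0 ∧
      MvPolynomial.aeval c (red1R d * ∏ i ∈ Finset.Ico 1 n, red1G d i) ≠ 0 := by
  have hG : ∀ i, MvPolynomial.aeval c (red1G d i) = wedge ((app (sF d c))^[i] ![0, 1]) ![0, 1] :=
    fun i => by simpa using red1_map_G (MvPolynomial.aeval c).toRingHom i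
  have hR : MvPolynomial.aeval c (red1R d) = resultant (sA d c) (sB d c) d d := by
    have e : (fun j => (MvPolynomial.aeval (R := ℂ) c).toRingHom (MvPolynomial.X j)) = c := by
      funext j; simp
    have := red1_map_R (MvPolynomial.aeval (R := ℂ) c).toRingHom
    rw [e] at this
    exact this
  rw [map_mul, map_prod, mul_ne_zero_iff, Finset.prod_ne_zero_iff, hR]
  simp only [hG, Finset.mem_Ico, and_imp]
  constructor
  · rintro ⟨h1, h2, h3⟩
    exact ⟨h2, resultant_of_nz hd (natDegree_sA_le d c) (natDegree_sB_le hd c) h1, h3⟩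
  · rintro ⟨h1, h2, h3⟩
    exact ⟨nz_of_resultant hd (natDegree_sA_le d c) (natDegree_sB_le hd c) h2, h1, h3⟩

/-- Over `R = MvPolynomial _ ℂ` let `G i = wedge ((app (sF d X))^[i] ![0, 1]) ![0, 1]`,
`Rs = resultant (sA d X) (sB d X) d d` and `Q = Rs * ∏ i ∈ [1, n), G i`; by `iter_mapF`, `mapF_sF`,
`resultant_map_map` and the two lemmas above, `Xn d n` is the set where `G n = 0` and `Q ≠ 0`.
`G n ∈ 𝔭`.  `Q ∉ 𝔭`: otherwise `y * Q ^ k` lies in the vanishing ideal for some `y ∉ 𝔭` (minimality),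
and then `y` itself does.  If `G n ∈ 𝔮 ≤ 𝔭` with `𝔮` prime, the Nullstellensatz
(`MvPolynomial.vanishingIdeal_zeroLocus_eq_radical`) applied to `u * Q` shows that the vanishing
ideal lies in `𝔮`; so `𝔭` is minimal over `span {G n}`. -/
theorem red1 {d : ℕ} (hd : 2 ≤ d) (n : ℕ) (𝔭 : Ideal (MvPolynomial (Fin d ⊕ Fin (d - 1)) ℂ))
    [𝔭.IsPrime] (h : 𝔭 ∈ (MvPolynomial.vanishingIdeal ℂ (Xn d n)).minimalPrimes) :
    ((2 * d - 2 : ℕ) : Cardinal) ≤
        Algebra.trdeg ℂ (FractionRing (MvPolynomial (Fin d ⊕ Fin (d - 1)) ℂ ⧸ 𝔭)) ∧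
      ∀ (L : Type) [Field L] [Algebra ℂ L]
        (φ : FractionRing (MvPolynomial (Fin d ⊕ Fin (d - 1)) ℂ ⧸ 𝔭) →ₐ[ℂ] L),
        (∀ x : V L, x ≠ 0 → app (sF d fun i => φ (genPt 𝔭 i)) x ≠ 0) ∧
          ExactPer (sF d fun i => φ (genPt 𝔭 i)) n ![0, 1] := by
  have hd1 : 1 ≤ d := by omega
  have hp : 𝔭.IsPrime := inferInstance
  set Q := red1R d * ∏ i ∈ Finset.Ico 1 n, red1G d i with hQ
  have hG : red1G d n ∈ 𝔭 := h.1.2 fun c hc => ((red1_mem_Xn hd1 n c).1 hc).1
  have hQ𝔭 : Q ∉ 𝔭 := by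
    intro hq
    obtain ⟨y, hy, hqy⟩ := Ideal.exists_mul_mem_of_mem_minimalPrimes h hq
    refine hy fun c hc => ?_
    have := hqy c hc
    rw [map_mul] at this
    exact (mul_eq_zero.1 this).resolve_left ((red1_mem_Xn hd1 n c).1 hc).2
  have hmin : 𝔭 ∈ (Ideal.span {red1G d n}).minimalPrimes := by
    refine ⟨⟨hp, (Ideal.span_singleton_le_iff_mem _).2 hG⟩, fun 𝔮 h𝔮 hle => ?_⟩
    refine h.2 ⟨h𝔮.1, fun u hu => ?_⟩ hle
    have h1 : u * Q ∈ MvPolynomial.vanishingIdeal ℂ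
        (MvPolynomial.zeroLocus ℂ (Ideal.span {red1G d n})) := by
      intro c hc
      rw [map_mul]
      by_cases hq : MvPolynomial.aeval c Q = 0
      · rw [hq, mul_zero]
      · rw [hu c ((red1_mem_Xn hd1 n c).2 ⟨hc _ (Ideal.mem_span_singleton_self _), hq⟩), zero_mul]
    rw [MvPolynomial.vanishingIdeal_zeroLocus_eq_radical] at h1
    exact (h𝔮.1.mem_or_mem (h𝔮.1.radical_le_iff.2 h𝔮.2 h1)).resolve_right fun c => hQ𝔭 (hle c)
  refine ⟨?_, fun L _ _ φ => ?_⟩
  · have := trdeg_of_minimal _ 𝔭 hmin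
    rwa [Fintype.card_sum, Fintype.card_fin, Fintype.card_fin,
      show d + (d - 1) - 1 = 2 * d - 2 by omega] at this
  · let f : MvPolynomial (Fin d ⊕ Fin (d - 1)) ℂ →+* L :=
      (φ.comp (MvPolynomial.aeval (genPt 𝔭))).toRingHom
    have hf : ∀ q, f q = 0 ↔ q ∈ 𝔭 := fun q => by
      rw [← red1_aeval_eq_zero]
      exact map_eq_zero_iff φ φ.injective
    have hX : (fun j => f (MvPolynomial.X j)) = fun i => φ (genPt 𝔭 i) := by
      funext j; simp [f]
    have hq := (hf Q).not.2 hQ𝔭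
    rw [hQ, map_mul, map_prod, mul_eq_zero, not_or, ← Ne, ← Ne, Finset.prod_ne_zero_iff,
      red1_map_R, hX] at hq
    refine ⟨nz_of_resultant hd1 (natDegree_sA_le d _) (natDegree_sB_le hd1 _) hq.1, ?_,
      fun i h1 h2 => ?_⟩
    · rw [← hX, ← red1_map_G]
      exact (hf _).2 hG
    · rw [← hX, ← red1_map_G]
      exact hq.2 i (Finset.mem_Ico.2 ⟨h1, h2⟩)

end Pool.Agent.Lib.MP_0dd0d9_ag
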