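import Pool.Agent.Lib.MP_0dd0d9_ag.Alg2

/-!
TASK g0d Red2.  A generic conjugate of the normal form is the universal map.
-/

namespace Pool.Agent.Lib.MP_0dd0d9_ag

open Polynomial

/-- The matrix sending `0, 1, ∞` to `z 0, z 1, z 2`. -/
def red2G {R : Type*} [CommRing R] (z : Fin 3 → R) : Matrix (Fin 2) (Fin 2) R :=
  !![z 2 * (z 1 - z 0), z 0 * (z 2 - z 1); z 1 - z 0, z 2 - z 1]

/-- The normalising constant. -/
noncomputable def red2U {R : Type*} [CommRing R] (d : ℕ) (cb : Fin d ⊕ Fin (d - 1) → R)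
    (z : Fin 3 → R) : R :=
  (red2G z).mulVec (app (sF d cb) ((red2G z).adjugate.mulVec ![0, 1])) 1

theorem red2_det {R : Type*} [CommRing R] (z : Fin 3 → R) :
    (red2G z).det = (z 1 - z 0) * (z 2 - z 1) * (z 2 - z 0) := by
  simp [red2G, Matrix.det_fin_two]; ring

theorem red2_G01 {R : Type*} [CommRing R] (z : Fin 3 → R) :
    (red2G z).mulVec ![0, 1] = (z 2 - z 1) • ![z 0, 1] := by
  ext i; fin_cases i <;> simp [red2G, Matrix.mulVec, dotProduct, Fin.sum_univ_two]; ring

theorem red2_G11 {R : Type*} [CommRing R] (z : Fin 3 → R) :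
    (red2G z).mulVec ![1, 1] = (z 2 - z 0) • ![z 1, 1] := by
  ext i; fin_cases i <;> simp [red2G, Matrix.mulVec, dotProduct, Fin.sum_univ_two]; ring

theorem red2_G10 {R : Type*} [CommRing R] (z : Fin 3 → R) (s : R) :
    (red2G z).mulVec ![s, 0] = (s * (z 1 - z 0)) • ![z 2, 1] := by
  ext i; fin_cases i <;> simp [red2G, Matrix.mulVec, dotProduct, Fin.sum_univ_two] <;> ring

theorem red2_G_map {R S : Type*} [CommRing R] [CommRing S] (f : R →+* S) (z : Fin 3 → R) :
    (red2G z).map f = red2G (fun i => f (z i)) := by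
  ext i j; fin_cases i <;> fin_cases j <;> simp [red2G]

theorem red2_mulVec_map {R S : Type*} [CommRing R] [CommRing S] (f : R →+* S)
    (g : Matrix (Fin 2) (Fin 2) R) (x : V R) :
    (g.map f).mulVec (fun i => f (x i)) = fun i => f (g.mulVec x i) := by
  ext i; simp [Matrix.mulVec, dotProduct, Fin.sum_univ_two]

theorem red2_U_map {R S : Type*} [CommRing R] [CommRing S] (f : R →+* S) (d : ℕ)
    (cb : Fin d ⊕ Fin (d - 1) → R) (z : Fin 3 → R) :
    f (red2U d cb z) = red2U d (fun i => f (cb i)) (fun i => f (z i)) := by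
  unfold red2U
  rw [← red2_G_map, ← mapF_sF]
  have h1 : ((red2G z).map f).adjugate.mulVec ![0, 1] =
      fun i => f ((red2G z).adjugate.mulVec ![0, 1] i) := by
    rw [← red2_mulVec_map]
    have : ((red2G z).map f).adjugate = (red2G z).adjugate.map f :=
      (RingHom.map_adjugate f (red2G z)).symm
    rw [this]
    congr 1
    ext i; fin_cases i <;> simp
  rw [h1, app_mapF, red2_mulVec_map]

theorem red2_U_val {R : Type*} [CommRing R] {d : ℕ} (hd : 1 ≤ d)
    (cb : Fin d ⊕ Fin (d - 1) → R) : red2U d cb ![0, 1, 2] = 2 ^ (d + 1) := by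
  unfold red2U
  have h1 : (red2G (![0, 1, 2] : Fin 3 → R)).adjugate.mulVec ![0, 1] = (2 : R) • ![0, 1] := by
    ext i; fin_cases i <;>
      simp [red2G, Matrix.adjugate_fin_two, Matrix.mulVec, dotProduct, Fin.sum_univ_two]
  have h2 : IsHom d (sF d cb) := isHom_mk _ _ _
  rw [h1, app_smul h2, app_sF_zero hd, Matrix.mulVec_smul, red2_G11]
  simp [pow_succ]

/-- Conjugating and normalising. -/
theorem red2_conj {L : Type*} [Field L] {d : ℕ} {F : Mp L} (hF : IsHom d F)
    (g : Matrix (Fin 2) (Fin 2) L) (hg : g.det ≠ 0)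
    (h0 : g.mulVec (app F (g.adjugate.mulVec ![0, 1])) 1 ≠ 0) :
    ∃ (c : Fin (2 * d + 1) → L) (u : L), u ≠ 0 ∧
      ∀ x, app (FU d c) (g.mulVec x) = u • g.mulVec (app F x) := by
  set u0 := g.mulVec (app F (g.adjugate.mulVec ![0, 1])) 1 with hu0
  let G : Mp L := cmp (lin g) (cmp F (lin g.adjugate))
  have hG : IsHom d G := by
    have := isHom_cmp (isHom_lin g) (isHom_cmp hF (isHom_lin g.adjugate))
    simpa using this
  have hGapp : ∀ y, app G y = g.mulVec (app F (g.adjugate.mulVec y)) := by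
    intro y; simp only [G, app_cmp, app_lin]
  let c : Fin (2 * d + 1) → L := fun j =>
    if j.val ≤ d then u0⁻¹ * (deh (G 0)).coeff j.val else u0⁻¹ * (deh (G 1)).coeff (j.val - d)
  have ha : aU d c = C u0⁻¹ * deh (G 0) := by
    ext i
    rw [coeff_aU, coeff_C_mul]
    split_ifs with hi
    · simp [c, hi]
    · rw [coeff_eq_zero_of_natDegree_lt ((natDegree_deh_le (hG 0)).trans_lt (by omega)), mul_zero]
  have hb : bU d c = C u0⁻¹ * deh (G 1) := by
    ext i
    rw [coeff_bU, coeff_C_mul]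
    split_ifs with hi0 hi
    · subst hi0
      have : (deh (G 1)).coeff 0 = u0 := by
        rw [coeff_zero_eq_eval_zero, eval_deh, hu0, ← hGapp]; rfl
      rw [this, inv_mul_cancel₀ h0]
    · have : ¬ (d + i ≤ d) := by omega
      simp [c, this]
    · rw [coeff_eq_zero_of_natDegree_lt ((natDegree_deh_le (hG 1)).trans_lt (by omega)), mul_zero]
  have hFU : FU d c = smulF u0⁻¹ G := by
    unfold FU
    rw [ha, hb, ← smulF_mk]
    congr 1
    funext i
    fin_cases i
    · exact homogenize_deh (hG 0)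
    · exact homogenize_deh (hG 1)
  refine ⟨c, u0⁻¹ * g.det ^ d, mul_ne_zero (inv_ne_zero h0) (pow_ne_zero _ hg), fun x => ?_⟩
  rw [hFU, app_smulF, hGapp, Matrix.mulVec_mulVec, Matrix.adjugate_mul, Matrix.smul_mulVec,
    Matrix.one_mulVec, app_smul hF, Matrix.mulVec_smul, smul_smul]

/-- Interpolation in a subfield. -/
theorem red2_interp {L : Type*} [Field L] [CharZero L] (E : Subfield L) (p : L[X])
    (h : ∀ k : ℕ, p.eval ((k : L) + 2) ∈ E) (i : ℕ) : p.coeff i ∈ E := by
  classical
  let s := Finset.range (p.natDegree + 1)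
  let v : ℕ → E := fun k => (k : E) + 2
  let r : ℕ → E := fun k => ⟨p.eval ((k : L) + 2), h k⟩
  have hvL : ∀ k, ((v k : E) : L) = (k : L) + 2 := by
    intro k; simp only [v]; push_cast; rfl
  have hv : Set.InjOn v s := by
    intro a _ b _ hab
    have : ((v a : E) : L) = v b := by rw [hab]
    rw [hvL, hvL] at this
    exact_mod_cast add_right_cancel this
  let q : E[X] := Lagrange.interpolate s v r
  have hq : q.map E.subtype = p := by
    refine Polynomial.eq_of_degrees_lt_of_eval_index_eq (s := s) (v := fun k : ℕ => (k : L) + 2)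
      ?_ ?_ ?_ ?_
    · intro a _ b _ hab
      exact_mod_cast add_right_cancel hab
    · exact (degree_map_le).trans_lt (Lagrange.degree_interpolate_lt r hv)
    · simp only [s, Finset.card_range]
      exact degree_le_natDegree.trans_lt (by exact_mod_cast Nat.lt_succ_self _)
    · intro k hk
      have h1 : ((k : L) + 2) = E.subtype (v k) := (hvL k).symm
      have h2 := Lagrange.eval_interpolate_at_node r hv hk
      have h3 : (q.map E.subtype).eval (E.subtype (v k)) = E.subtype (q.eval (v k)) := by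
        rw [eval_map, eval₂_hom]
      show (q.map E.subtype).eval ((k : L) + 2) = p.eval ((k : L) + 2)
      rw [h1, h3, h2, ← h1]
      rfl
  rw [← hq, coeff_map]
  exact (q.coeff i).2


/-- A subfield containing every root of a nonzero polynomial with coefficients in it. -/
def red2Closed {L : Type*} [Field L] (E : Subfield L) : Prop :=
  ∀ (p : L[X]) (y : L), p ≠ 0 → (∀ i, p.coeff i ∈ E) → p.IsRoot y → y ∈ E

theorem red2_app_FU_mem {L : Type*} [Field L] (E : Subfield L) {d : ℕ} {c : Fin (2 * d + 1) → L}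
    (hc : ∀ j, c j ∈ E) {x : V L} (hx : ∀ i, x i ∈ E) (i : Fin 2) : app (FU d c) x i ∈ E := by
  have h := app_mapF E.subtype (FU d fun j => (⟨c j, hc j⟩ : E)) (fun i => ⟨x i, hx i⟩)
  rw [mapF_FU] at h
  have h2 : app (FU d c) x i =
      E.subtype (app (FU d fun j => (⟨c j, hc j⟩ : E)) (fun i => ⟨x i, hx i⟩) i) :=
    congrFun h i
  rw [h2]
  exact Subtype.property _

theorem red2_fixp_mem {L : Type*} [Field L] (E : Subfield L) {d : ℕ} {c : Fin (2 * d + 1) → L}
    (hc : ∀ j, c j ∈ E) (n i : ℕ) : (fixp (itc (FU d c) n)).coeff i ∈ E := by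
  have h : FU d c = mapF E.subtype (FU d fun j => (⟨c j, hc j⟩ : E)) := by
    rw [mapF_FU]; rfl
  rw [h, ← mapF_itc, fixp_mapF, coeff_map]
  exact Subtype.property _

theorem red2_iter_conj {L : Type*} [Field L] {d : ℕ} {F G : Mp L} (hG : IsHom d G)
    {g : Matrix (Fin 2) (Fin 2) L} {u : L}
    (h : ∀ x, app G (g.mulVec x) = u • g.mulVec (app F x)) (n : ℕ) (x : V L) :
    ∃ s : L, (app G)^[n] (g.mulVec x) = s • g.mulVec ((app F)^[n] x) := by
  induction n with
  | zero => exact ⟨1, by simp⟩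
  | succ n ih =>
    obtain ⟨s, hs⟩ := ih
    refine ⟨s ^ d * u, ?_⟩
    rw [Function.iterate_succ_apply', Function.iterate_succ_apply', hs, app_smul hG, h, smul_smul]

theorem red2_coeff_sA {R : Type*} [CommRing R] (d : ℕ) (cb : Fin d ⊕ Fin (d - 1) → R) (i : Fin d) :
    (sA d cb).coeff (i.val + 1) = cb (Sum.inl i) := by
  unfold sA
  rw [coeff_add, coeff_one, finsetSum_coeff, Finset.sum_eq_single i]
  · simp
  · intro j _ hj
    rw [coeff_monomial, if_neg]
    intro h
    exact hj (Fin.ext (by omega))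
  · simp

theorem red2_coeff_sB {R : Type*} [CommRing R] (d : ℕ) (cb : Fin d ⊕ Fin (d - 1) → R)
    (i : Fin (d - 1)) :
    (1 + ∑ i : Fin (d - 1), monomial (i.val + 1) (cb (Sum.inr i)) : R[X]).coeff (i.val + 1) =
      cb (Sum.inr i) := by
  rw [coeff_add, coeff_one, finsetSum_coeff, Finset.sum_eq_single i]
  · simp
  · intro j _ hj
    rw [coeff_monomial, if_neg]
    intro h
    exact hj (Fin.ext (by omega))
  · simp

theorem red2_eval_sA {R : Type*} [CommRing R] (d : ℕ) (cb : Fin d ⊕ Fin (d - 1) → R) (x : R) :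
    (sA d cb).eval x = app (sF d cb) ![x, 1] 0 := by
  conv_lhs => rw [← deh_homogenize (natDegree_sA_le d cb), eval_deh]
  rfl

theorem red2_eval_sB {R : Type*} [CommRing R] {d : ℕ} (hd : 1 ≤ d)
    (cb : Fin d ⊕ Fin (d - 1) → R) (x : R) :
    (sB d cb).eval x = app (sF d cb) ![x, 1] 1 := by
  conv_lhs => rw [← deh_homogenize (natDegree_sB_le hd cb), eval_deh]
  rfl

/-- The parameters and the three points are algebraic over the coefficients of the conjugate. -/
theorem red2_mem {L : Type*} [Field L] [IsAlgClosed L] [CharZero L] {d : ℕ} (hd : 2 ≤ d) {n : ℕ}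
    (hn : 1 ≤ n) (cb : Fin d ⊕ Fin (d - 1) → L) (z : Fin 3 → L) (hz : (red2G z).det ≠ 0)
    (hnz : ∀ x : V L, x ≠ 0 → app (sF d cb) x ≠ 0)
    (hper : wedge ((app (sF d cb))^[n] ![0, 1]) ![0, 1] = 0)
    (c : Fin (2 * d + 1) → L) (u : L) (hu : u ≠ 0)
    (h : ∀ x, app (FU d c) ((red2G z).mulVec x) = u • (red2G z).mulVec (app (sF d cb) x))
    (E : Subfield L) (hE : red2Closed E) (hc : ∀ j, c j ∈ E) :
    (∀ i, z i ∈ E) ∧ ∀ i, cb i ∈ E := by
  have hd1 : 1 ≤ d := by omega
  have hz' := hz
  rw [red2_det] at hz'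
  have h10 : z 1 - z 0 ≠ 0 := fun h => hz' (by rw [h]; ring)
  have h21 : z 2 - z 1 ≠ 0 := fun h => hz' (by rw [h]; ring)
  have h20 : z 2 - z 0 ≠ 0 := fun h => hz' (by rw [h]; ring)
  have hFU : IsHom d (FU d c) := isHom_mk _ _ _
  have hF : IsHom d (sF d cb) := isHom_mk _ _ _
  have hadj : ∀ y : V L, (red2G z).adjugate.mulVec ((red2G z).mulVec y) = (red2G z).det • y := by
    intro y
    rw [Matrix.mulVec_mulVec, Matrix.adjugate_mul, Matrix.smul_mulVec, Matrix.one_mulVec]
  have hadj' : ∀ y : V L, (red2G z).mulVec ((red2G z).adjugate.mulVec y) = (red2G z).det • y := by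
    intro y
    rw [Matrix.mulVec_mulVec, Matrix.mul_adjugate, Matrix.smul_mulVec, Matrix.one_mulVec]
  have hinj : ∀ y : V L, (red2G z).mulVec y = 0 → y = 0 := by
    intro y hy
    have := hadj y
    rw [hy, Matrix.mulVec_zero] at this
    exact (smul_eq_zero.mp this.symm).resolve_left hz
  have hnzU : ∀ x : V L, x ≠ 0 → app (FU d c) x ≠ 0 := by
    intro x hx h0
    have h1 := h ((red2G z).adjugate.mulVec x)
    rw [hadj', app_smul hFU, h0, smul_zero] at h1
    have h2 := hinj _ ((smul_eq_zero.mp h1.symm).resolve_left hu)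
    refine hnz _ (fun h3 => hx ?_) h2
    have h4 := hadj' x
    rw [h3, Matrix.mulVec_zero] at h4
    exact (smul_eq_zero.mp h4.symm).resolve_left hz
  have hz0 : z 0 ∈ E := by
    refine hE (fixp (itc (FU d c) n)) (z 0) ?_ (red2_fixp_mem E hc n) ?_
    · refine fixp_ne_zero (isHom_itc hFU n) ?_ ?_
      · calc 2 ≤ d := hd
          _ = d ^ 1 := (pow_one d).symm
          _ ≤ d ^ n := Nat.pow_le_pow_right (by omega) hn
      · intro x hx
        rw [app_itc]
        exact iter_ne_zero hnzU n hx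
    · rw [IsRoot.def, eval_fixp, app_itc]
      obtain ⟨s, hs⟩ := red2_iter_conj hFU h n ![0, 1]
      have h1 : wedge ((app (FU d c))^[n] ((red2G z).mulVec ![0, 1]))
          ((red2G z).mulVec ![0, 1]) = 0 := by
        rw [hs, wedge_smul_left, wedge_mulVec, hper]; ring
      rw [red2_G01, iter_smul hFU, wedge_smul_left, wedge_smul_right] at h1
      exact (mul_eq_zero.mp ((mul_eq_zero.mp h1).resolve_left (pow_ne_zero _ h21))).resolve_left h21
  have hpt : ∀ a : L, a ∈ E → ∀ i, (![a, 1] : V L) i ∈ E := by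
    intro a ha i
    fin_cases i
    · exact ha
    · exact E.one_mem
  have hratio : ∀ a b s t : L, a ∈ E → s ≠ 0 → t ≠ 0 →
      s • app (FU d c) ![a, 1] = t • ![b, 1] → b ∈ E := by
    intro a b s t ha hs ht hab
    have e0 := congrFun hab 0
    have e1 := congrFun hab 1
    simp only [Pi.smul_apply, smul_eq_mul, Matrix.cons_val_zero, Matrix.cons_val_one,
      mul_one] at e0 e1
    have m0 := red2_app_FU_mem E hc (hpt a ha) 0
    have m1 := red2_app_FU_mem E hc (hpt a ha) 1
    have hne : app (FU d c) ![a, 1] 1 ≠ 0 := by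
      intro h0
      rw [h0, mul_zero] at e1
      exact ht e1.symm
    have : b = app (FU d c) ![a, 1] 0 / app (FU d c) ![a, 1] 1 := by
      rw [eq_div_iff hne]
      apply mul_left_cancel₀ hs
      rw [e0, ← e1]; ring
    rw [this]
    exact E.div_mem m0 m1
  have hz1 : z 1 ∈ E := by
    have h1 := h ![0, 1]
    rw [red2_G01, app_smul hFU, app_sF_zero hd1, red2_G11, smul_smul] at h1
    exact hratio _ _ _ _ hz0 (pow_ne_zero _ h21) (mul_ne_zero hu h20) h1
  have hz2 : z 2 ∈ E := by
    have h1 := h ![1, 1]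
    have h2 : app (sF d cb) ![1, 1] = ![app (sF d cb) ![1, 1] 0, 0] := by
      ext i
      fin_cases i
      · rfl
      · exact app_sF_one hd1 cb
    have h3 : app (sF d cb) ![1, 1] 0 ≠ 0 := by
      intro h0
      refine hnz ![1, 1] (by simp) ?_
      rw [h2, h0]
      ext i; fin_cases i <;> rfl
    rw [red2_G11, app_smul hFU, h2, red2_G10, smul_smul] at h1
    exact hratio _ _ _ _ hz1 (pow_ne_zero _ h20) (mul_ne_zero hu (mul_ne_zero h3 h10)) h1
  have hzE : ∀ i, z i ∈ E := by
    intro i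
    fin_cases i
    exacts [hz0, hz1, hz2]
  refine ⟨hzE, ?_⟩
  have hGE : ∀ i j, red2G z i j ∈ E := by
    intro i j
    fin_cases i <;> fin_cases j
    · exact E.mul_mem hz2 (E.sub_mem hz1 hz0)
    · exact E.mul_mem hz0 (E.sub_mem hz2 hz1)
    · exact E.sub_mem hz1 hz0
    · exact E.sub_mem hz2 hz1
  have hmv : ∀ (g : Matrix (Fin 2) (Fin 2) L) (x : V L), (∀ i j, g i j ∈ E) → (∀ i, x i ∈ E) →
      ∀ i, g.mulVec x i ∈ E := by
    intro g x hg hx i
    simp only [Matrix.mulVec, dotProduct, Fin.sum_univ_two]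
    exact E.add_mem (E.mul_mem (hg _ _) (hx _)) (E.mul_mem (hg _ _) (hx _))
  have hAE : ∀ i j, (red2G z).adjugate i j ∈ E := by
    intro i j
    rw [Matrix.adjugate_fin_two]
    fin_cases i <;> fin_cases j
    · exact hGE 1 1
    · exact E.neg_mem (hGE 0 1)
    · exact E.neg_mem (hGE 1 0)
    · exact hGE 0 0
  have hdet : (red2G z).det ∈ E := by
    rw [red2_det]
    exact E.mul_mem (E.mul_mem (E.sub_mem hz1 hz0) (E.sub_mem hz2 hz1)) (E.sub_mem hz2 hz0)
  have huE : u ∈ E := by
    have h1 := congrFun (h ![0, 1]) 1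
    rw [app_sF_zero hd1, red2_G11] at h1
    simp only [Pi.smul_apply, smul_eq_mul, Matrix.cons_val_zero, Matrix.cons_val_one,
      mul_one] at h1
    have m := red2_app_FU_mem E hc (hmv _ _ hGE (hpt 0 E.zero_mem)) 1
    have : u = app (FU d c) ((red2G z).mulVec ![0, 1]) 1 / (z 2 - z 0) := by
      rw [h1, mul_div_cancel_right₀ _ h20]
    rw [this]
    exact E.div_mem m (E.sub_mem hz2 hz0)
  have hval : ∀ a : L, a ∈ E → ∀ i, app (sF d cb) ![a, 1] i ∈ E := by
    intro a ha i
    have h1 := congrArg ((red2G z).adjugate.mulVec) (h ![a, 1])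
    rw [Matrix.mulVec_smul, hadj, smul_smul] at h1
    have h2 := congrFun h1 i
    have m := hmv _ _ hAE (red2_app_FU_mem E hc (hmv _ _ hGE (hpt a ha))) i
    rw [h2, Pi.smul_apply, smul_eq_mul] at m
    have : app (sF d cb) ![a, 1] i =
        (u * (red2G z).det * app (sF d cb) ![a, 1] i) / (u * (red2G z).det) := by
      rw [mul_div_cancel_left₀ _ (mul_ne_zero hu hz)]
    rw [this]
    exact E.div_mem m (E.mul_mem huE hdet)
  have hk : ∀ k : ℕ, ((k : L) + 2) ∈ E := fun k =>
    E.add_mem (natCast_mem E k) (ofNat_mem E 2)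
  rintro (i | i)
  · rw [← red2_coeff_sA d cb i]
    refine red2_interp E _ (fun k => ?_) _
    rw [red2_eval_sA]
    exact hval _ (hk k) 0
  · rw [← red2_coeff_sB d cb i]
    refine red2_interp E _ (fun k => ?_) _
    have m := hval _ (hk k) 1
    rw [← red2_eval_sB hd1, sB, eval_mul] at m
    have hne : (1 - X : L[X]).eval ((k : L) + 2) ≠ 0 := by
      have : (1 - X : L[X]).eval ((k : L) + 2) = -((k + 1 : ℕ) : L) := by
        simp; ring
      rw [this, neg_ne_zero]
      exact Nat.cast_ne_zero.mpr (by omega)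
    have hm : (1 - X : L[X]).eval ((k : L) + 2) ∈ E := by
      simpa using E.sub_mem E.one_mem (hk k)
    have := E.div_mem m hm
    rwa [mul_div_cancel_left₀ _ hne] at this

/-- The field obtained by adjoining three variables and closing algebraically. -/
theorem red2_field (K : Type) [Field K] [Algebra ℂ K] :
    ∃ (L : Type) (_ : Field L) (_ : Algebra ℂ L) (_ : IsAlgClosed L) (φ : K →ₐ[ℂ] L)
      (f : MvPolynomial (Fin 3) K →+* L), Function.Injective f ∧
      (∀ k, f (MvPolynomial.C k) = φ k) ∧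
      Algebra.trdeg ℂ L = Algebra.trdeg ℂ K + 3 ∧
      ∀ E : Subfield L, red2Closed E → (∀ k, φ k ∈ E) → (∀ i, f (MvPolynomial.X i) ∈ E) →
        ∀ y, y ∈ E := by
  let R := MvPolynomial (Fin 3) K
  let F := FractionRing R
  let L := AlgebraicClosure F
  have hinj : Function.Injective (algebraMap R L) := by
    rw [IsScalarTower.algebraMap_eq R F L, RingHom.coe_comp]
    exact (algebraMap F L).injective.comp (IsFractionRing.injective R F)
  have : FaithfulSMul R L := (faithfulSMul_iff_algebraMap_injective R L).mpr hinj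
  have : Algebra.IsAlgebraic R F := IsLocalization.isAlgebraic F (nonZeroDivisors R)
  have : Algebra.IsAlgebraic R L := Algebra.IsAlgebraic.trans R F L
  refine ⟨L, inferInstance, inferInstance, inferInstance, IsScalarTower.toAlgHom ℂ K L,
    algebraMap R L, hinj, fun k => ?_, ?_, ?_⟩
  · exact (IsScalarTower.algebraMap_apply K R L k).symm
  · have h1 := trdeg_add_eq ℂ K (A := L)
    have h2 := trdeg_add_eq K R (A := L)
    have h3 : Algebra.trdeg K R = 3 := by
      have := MvPolynomial.trdeg_of_isDomain (ι := Fin 3) (S := K)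
      rw [this]
      simp
    have h4 : Algebra.trdeg R L = 0 := trdeg_eq_zero
    rw [← h1, ← h2, h3, h4, add_zero]
  · intro E hE hk hX y
    have hR : ∀ r : R, algebraMap R L r ∈ E := by
      intro r
      induction r using MvPolynomial.induction_on with
      | C a =>
        have := hk a
        rwa [IsScalarTower.toAlgHom_apply, IsScalarTower.algebraMap_apply K R L a] at this
      | add p q hp hq => rw [map_add]; exact E.add_mem hp hq
      | mul_X p i hp => rw [map_mul]; exact E.mul_mem hp (hX i)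
    have hF : ∀ r : F, algebraMap F L r ∈ E := by
      intro r
      obtain ⟨a, b, -, rfl⟩ := IsFractionRing.div_surjective (A := R) r
      rw [map_div₀, ← IsScalarTower.algebraMap_apply, ← IsScalarTower.algebraMap_apply]
      exact E.div_mem (hR a) (hR b)
    obtain ⟨p, hp0, hp⟩ := Algebra.IsAlgebraic.isAlgebraic (R := F) y
    refine hE (p.map (algebraMap F L)) y (Polynomial.map_ne_zero hp0) (fun i => ?_) ?_
    · rw [coeff_map]; exact hF _
    · rw [IsRoot.def, eval_map, ← aeval_def, hp]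

/-- The elements algebraic over a set form a closed subfield. -/
theorem red2_closure {L : Type} [Field L] [Algebra ℂ L] (s : Set L) :
    ∃ E : IntermediateField ℂ L, red2Closed E.toSubfield ∧ (∀ x ∈ s, x ∈ E) ∧
      ∀ y ∈ E, IsAlgebraic (Algebra.adjoin ℂ s) y := by
  let E0 := IntermediateField.adjoin ℂ s
  let E1 := algebraicClosure E0 L
  refine ⟨E1.restrictScalars ℂ, ?_, ?_, ?_⟩
  · intro p y hp0 hp hy
    have hl : p ∈ Polynomial.lifts (algebraMap E1 L) := by
      rw [Polynomial.lifts_iff_coeff_lifts]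
      intro i
      exact ⟨⟨p.coeff i, hp i⟩, rfl⟩
    obtain ⟨q, hq⟩ := (Polynomial.mem_lifts _).mp hl
    have hq0 : q ≠ 0 := by
      rintro rfl
      exact hp0 (by simpa using hq.symm)
    have halg : IsAlgebraic E1 y := ⟨q, hq0, by rw [aeval_def, ← eval_map, hq]; exact hy⟩
    have : IsAlgebraic E0 y := halg.restrictScalars E0
    exact (mem_algebraicClosure_iff (F := E0) (E := L)).mpr this
  · intro x hx
    have : IsAlgebraic E0 x :=
      isAlgebraic_algebraMap (⟨x, IntermediateField.subset_adjoin ℂ s hx⟩ : E0)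
    exact (mem_algebraicClosure_iff (F := E0) (E := L)).mpr this
  · intro y hy
    have : IsAlgebraic E0 y := (mem_algebraicClosure_iff (F := E0) (E := L)).mp hy
    exact IntermediateField.isAlgebraic_adjoin_iff.mp this

/-- A transcendence basis can be sent to any algebraically independent family. -/
theorem red2_lift {L Om ι : Type} [Field L] [Algebra ℂ L] [Field Om] [Algebra ℂ Om]
    [IsAlgClosed Om] {c' : ι → L} (hc' : IsTranscendenceBasis ℂ c') {c : ι → Om}
    (hc : AlgebraicIndependent ℂ c) : ∃ ψ : L →ₐ[ℂ] Om, ∀ j, ψ (c' j) = c j := by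
  let P := MvPolynomial ι ℂ
  let _ : Algebra P L := (MvPolynomial.aeval c' : P →ₐ[ℂ] L).toRingHom.toAlgebra
  let _ : Algebra P Om := (MvPolynomial.aeval c : P →ₐ[ℂ] Om).toRingHom.toAlgebra
  have e1 : ∀ r : P, algebraMap P L r = MvPolynomial.aeval c' r := fun _ => rfl
  have e2 : ∀ r : P, algebraMap P Om r = MvPolynomial.aeval c r := fun _ => rfl
  have : FaithfulSMul P L := (faithfulSMul_iff_algebraMap_injective P L).mpr hc'.1
  have : FaithfulSMul P Om := (faithfulSMul_iff_algebraMap_injective P Om).mpr hc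
  have : Algebra.IsAlgebraic P L := by
    have := hc'.isAlgebraic
    refine Algebra.IsAlgebraic.of_ringHom_of_comp_eq
      (hc'.1.aevalEquiv : P →+* Algebra.adjoin ℂ (Set.range c')) (RingHom.id L) ?_ ?_ ?_
    · exact hc'.1.aevalEquiv.surjective
    · exact Function.injective_id
    · ext r <;> simp [e1]
  let ψ : L →ₐ[P] Om := IsAlgClosed.lift
  refine ⟨{ ψ.toRingHom with commutes' := fun a => ?_ }, fun j => ?_⟩
  · have := ψ.commutes (MvPolynomial.C a)
    rw [e1, e2, MvPolynomial.algHom_C, MvPolynomial.algHom_C] at this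
    exact this
  · have := ψ.commutes (MvPolynomial.X j)
    rw [e1, e2] at this
    simpa using this

/-- Transport of the conjugacy relation along an embedding of fields. -/
theorem red2_transport {L Om : Type*} [Field L] [CharZero L] [Field Om] (ψ : L →+* Om)
    {F G : Mp L} {g : Matrix (Fin 2) (Fin 2) L} {u : L}
    (h : ∀ x, app G (g.mulVec x) = u • g.mulVec (app F x)) (x : V Om) :
    app (mapF ψ G) ((g.map ψ).mulVec x) = ψ u • (g.map ψ).mulVec (app (mapF ψ F) x) := by
  have hinf : (Set.range ψ).Infinite := Set.infinite_range_of_injective ψ.injective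
  have key : cmp (mapF ψ G) (lin (g.map ψ)) = smulF (ψ u) (cmp (lin (g.map ψ)) (mapF ψ F)) := by
    funext i
    refine MvPolynomial.funext_set (fun _ => Set.range ψ) (fun _ => hinf) fun y hy => ?_
    choose y' hy' using fun j => hy j (Set.mem_univ j)
    have hy2 : y = fun j => ψ (y' j) := funext fun j => (hy' j).symm
    have e1 : app (cmp (mapF ψ G) (lin (g.map ψ))) y =
        app (smulF (ψ u) (cmp (lin (g.map ψ)) (mapF ψ F))) y := by
      rw [app_cmp, app_lin, app_smulF, app_cmp, app_lin, hy2, red2_mulVec_map, app_mapF, app_mapF,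
        red2_mulVec_map, h]
      funext j
      simp
    exact congrFun e1 i
  have := congrArg (fun H => app H x) key
  simpa only [app_cmp, app_lin, app_smulF] using this

/-- Let `L` be an algebraic closure of `K(z0, z1, z2)` (three new variables), so
`trdeg L = trdeg K + 3` (`trdeg_add_eq`).  Let
`γ = !![z2 * (z1 - z0), z0 * (z2 - z1); z1 - z0, z2 - z1]`, which sends `![0,1]`, `![1,1]`, `![1,0]` to
multiples of `![z0,1]`, `![z1,1]`, `![z2,1]`; `G = cmp (lin γ) (cmp (sF d cb) (lin γ.adjugate))` and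
`u0 = app G ![0, 1] 1`, nonzero because it is a polynomial in `z` over `K` with value `2 ^ (d + 1)` at
`z = (0, 1, 2)`.  Let `c'` be the coefficients of `deh (G 0) / u0`, `deh (G 1) / u0`, so
`FU d c' = smulF u0⁻¹ G` (`homogenize_deh`, `coeff_aU`, `coeff_bU`).  Over the field `ℂ(c')`:
`z0` is a root of `fixp (itc (FU d c') n)`, nonzero by `fixp_ne_zero`; `z1`, `z2` are rational in
`c'`, `z0`; and `sF d cb` is a multiple of the conjugate of `FU d c'` by `γ`, normalised by
`app_sF_zero`, so `cb` is rational in `c'`, `z`.  Hence `L` is algebraic over `ℂ(c')`, so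
`trdeg K + 3 ≤ 2 d + 1`, equality holds, and `c'` is a transcendence basis
(`Algebra.IsAlgebraic.isTranscendenceBasis_of_lift_le_trdeg_of_finite`).  Make `L` and `Om` algebras
over `MvPolynomial (Fin (2 d + 1)) ℂ` through `c'` and `c`, and use `IsAlgClosed.lift`. -/
theorem red2 {d : ℕ} (hd : 2 ≤ d) {n : ℕ} (hn : 1 ≤ n) {K : Type} [Field K] [Algebra ℂ K]
    (cb : Fin d ⊕ Fin (d - 1) → K) (hgen : IntermediateField.adjoin ℂ (Set.range cb) = ⊤)
    (htr : ((2 * d - 2 : ℕ) : Cardinal) ≤ Algebra.trdeg ℂ K)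
    (hP : ∀ (L : Type) [Field L] [Algebra ℂ L] (φ : K →ₐ[ℂ] L),
      (∀ x : V L, x ≠ 0 → app (sF d fun i => φ (cb i)) x ≠ 0) ∧
        ExactPer (sF d fun i => φ (cb i)) n ![0, 1])
    {Om : Type} [Field Om] [Algebra ℂ Om] [IsAlgClosed Om] (c : Fin (2 * d + 1) → Om)
    (hc : AlgebraicIndependent ℂ c) :
    Algebra.trdeg ℂ K = ((2 * d - 2 : ℕ) : Cardinal) ∧
      ∃ (φ : K →ₐ[ℂ] Om) (γ : Matrix (Fin 2) (Fin 2) Om) (u : Om), γ.det ≠ 0 ∧ u ≠ 0 ∧
        γ 1 1 ≠ 0 ∧
        ∀ x, app (FU d c) (γ.mulVec x) = u • γ.mulVec (app (sF d fun i => φ (cb i)) x) := by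
  have hd1 : 1 ≤ d := by omega
  obtain ⟨L, _, _, _, φ, f, hf, hfC, htrL, hgenL⟩ := red2_field K
  have : CharZero K := charZero_of_injective_algebraMap (algebraMap ℂ K).injective
  have : CharZero L := charZero_of_injective_algebraMap (algebraMap ℂ L).injective
  let z : Fin 3 → L := fun i => f (MvPolynomial.X i)
  have hX : ∀ i j : Fin 3, i ≠ j → z i - z j ≠ 0 := by
    intro i j hij h
    exact hij (MvPolynomial.X_injective (hf (sub_eq_zero.mp h)))
  have hz : (red2G z).det ≠ 0 := by
    rw [red2_det]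
    exact mul_ne_zero (mul_ne_zero (hX 1 0 (by decide)) (hX 2 1 (by decide))) (hX 2 0 (by decide))
  have hU : red2U d (fun i => φ (cb i)) z ≠ 0 := by
    have h1 := red2_U_map f d (fun i => MvPolynomial.C (cb i)) MvPolynomial.X
    simp only [hfC] at h1
    rw [← h1]
    intro h0
    have h2 : red2U d (fun i => MvPolynomial.C (cb i))
        (MvPolynomial.X : Fin 3 → MvPolynomial (Fin 3) K) = 0 := hf (by rw [h0, map_zero])
    have h3 := red2_U_map (MvPolynomial.eval (![0, 1, 2] : Fin 3 → K)) d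
      (fun i => MvPolynomial.C (cb i)) MvPolynomial.X
    simp only [MvPolynomial.eval_C, MvPolynomial.eval_X] at h3
    rw [h2, map_zero, red2_U_val hd1] at h3
    exact pow_ne_zero _ two_ne_zero h3.symm
  obtain ⟨hnz, hper⟩ := hP L φ
  obtain ⟨c', u, hu, hconj⟩ := red2_conj (d := d) (F := sF d fun i => φ (cb i)) (isHom_mk _ _ _)
    (red2G z) hz hU
  obtain ⟨E, hE, hEs, hEalg⟩ := red2_closure (Set.range c')
  obtain ⟨hzE, hcE⟩ := red2_mem hd hn _ z hz hnz hper.1 c' u hu hconj E.toSubfield hE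
    (fun j => hEs _ ⟨j, rfl⟩)
  have hK : ∀ k, φ k ∈ E.toSubfield := by
    intro k
    have h1 : IntermediateField.adjoin ℂ (Set.range cb) ≤ E.comap φ := by
      rw [IntermediateField.adjoin_le_iff]
      rintro _ ⟨i, rfl⟩
      exact hcE i
    rw [hgen] at h1
    exact h1 (IntermediateField.mem_top (x := k))
  have halg : Algebra.IsAlgebraic (Algebra.adjoin ℂ (Set.range c')) L :=
    ⟨fun y => hEalg y (hgenL E.toSubfield hE hK hzE y)⟩
  have hle : Algebra.trdeg ℂ L ≤ ((2 * d + 1 : ℕ) : Cardinal) := by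
    refine (Algebra.IsAlgebraic.trdeg_le_cardinalMk ℂ (Set.range c')).trans ?_
    refine Cardinal.mk_range_le.trans ?_
    simp
  have hsplit : ((2 * d + 1 : ℕ) : Cardinal.{0}) = ((2 * d - 2 : ℕ) : Cardinal.{0}) + 3 := by
    have : 2 * d + 1 = (2 * d - 2) + 3 := by omega
    rw [this]
    push_cast
    rfl
  have htrK : Algebra.trdeg ℂ K = ((2 * d - 2 : ℕ) : Cardinal) := by
    refine le_antisymm ?_ htr
    rw [htrL, hsplit] at hle
    exact (Cardinal.add_nat_le_add_nat_iff 3).mp hle
  have hbasis : IsTranscendenceBasis ℂ c' := by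
    refine Algebra.IsAlgebraic.isTranscendenceBasis_of_le_trdeg_of_finite ℂ c' ?_
    rw [htrL, htrK, ← hsplit]
    simp
  obtain ⟨ψ, hψ⟩ := red2_lift hbasis hc
  refine ⟨htrK, ψ.comp φ, (red2G z).map ψ.toRingHom, ψ u, ?_, ?_, ?_, fun x => ?_⟩
  · have h1 : ((red2G z).map ψ.toRingHom).det = ψ.toRingHom (red2G z).det :=
      (RingHom.map_det ψ.toRingHom (red2G z)).symm
    rw [h1]
    exact (map_ne_zero ψ.toRingHom).mpr hz
  · exact (map_ne_zero ψ).mpr hu
  · exact (map_ne_zero ψ.toRingHom).mpr (hX 2 1 (by decide))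
  · have h1 := red2_transport ψ.toRingHom hconj x
    rw [mapF_FU, mapF_sF] at h1
    have h2 : (fun i => ψ.toRingHom (c' i)) = c := funext hψ
    rw [h2] at h1
    exact h1

end Pool.Agent.Lib.MP_0dd0d9_ag
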