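import Pool.Agent.Lib.MP_0dd0d9_ag.Red1
import Pool.Agent.Lib.MP_0dd0d9_ag.Red2
import Pool.Agent.Lib.MP_0dd0d9_ag.Core

/-!
TASK g0d Red3.  Reduction of the main theorem to the universal map.
-/

namespace Pool.Agent.Lib.MP_0dd0d9_ag

open Polynomial

theorem red3_wedge_mem {L : Type*} [Field L] (E : Subfield L) {x y : V L} (hx : ∀ i, x i ∈ E)
    (hy : ∀ i, y i ∈ E) : wedge x y ∈ E :=
  E.sub_mem (E.mul_mem (hx 0) (hy 1)) (E.mul_mem (hx 1) (hy 0))

/-- A matrix that maps three pairwise independent vectors over a subfield to multiples of three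
pairwise independent vectors over the subfield is a multiple of a matrix over the subfield
(write `v 2` as a combination of `v 0`, `v 1` and use Cramer twice). -/
theorem matrix_descent {L : Type*} [Field L] (E : Subfield L) (γ : Matrix (Fin 2) (Fin 2) L)
    (v w : Fin 3 → V L) (κ : Fin 3 → L) (hκ : κ 2 ≠ 0) (hv : ∀ s i, v s i ∈ E)
    (hw : ∀ s i, w s i ∈ E) (hv01 : wedge (v 0) (v 1) ≠ 0) (hw01 : wedge (w 0) (w 1) ≠ 0)
    (hv02 : wedge (v 0) (v 2) ≠ 0) (hv12 : wedge (v 1) (v 2) ≠ 0)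
    (h : ∀ s, γ.mulVec (v s) = κ s • w s) : ∀ i j, γ i j / κ 2 ∈ E := by
  have e : ∀ s i, γ i 0 * v s 0 + γ i 1 * v s 1 = κ s * w s i := by
    intro s i
    have := congrFun (h s) i
    simpa [Matrix.mulVec, dotProduct, Fin.sum_univ_two] using this
  have k0 : κ 0 / κ 2 = -(wedge (v 0) (v 1) * wedge (w 2) (w 1)) /
      (wedge (v 1) (v 2) * wedge (w 0) (w 1)) := by
    rw [div_eq_div_iff hκ (mul_ne_zero hv12 hw01)]
    unfold wedge
    linear_combination
      (-(v 1 0 * v 2 1 - v 1 1 * v 2 0) * w 1 1) * e 0 0 +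
      ((v 1 0 * v 2 1 - v 1 1 * v 2 0) * w 1 0) * e 0 1 +
      ((v 0 0 * v 2 1 - v 0 1 * v 2 0) * w 1 1) * e 1 0 -
      ((v 0 0 * v 2 1 - v 0 1 * v 2 0) * w 1 0) * e 1 1 -
      ((v 0 0 * v 1 1 - v 0 1 * v 1 0) * w 1 1) * e 2 0 +
      ((v 0 0 * v 1 1 - v 0 1 * v 1 0) * w 1 0) * e 2 1
  have k1 : κ 1 / κ 2 = (wedge (v 0) (v 1) * wedge (w 0) (w 2)) /
      (wedge (v 0) (v 2) * wedge (w 0) (w 1)) := by
    rw [div_eq_div_iff hκ (mul_ne_zero hv02 hw01)]
    unfold wedge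
    linear_combination
      (-(v 1 0 * v 2 1 - v 1 1 * v 2 0) * w 0 1) * e 0 0 +
      ((v 1 0 * v 2 1 - v 1 1 * v 2 0) * w 0 0) * e 0 1 +
      ((v 0 0 * v 2 1 - v 0 1 * v 2 0) * w 0 1) * e 1 0 -
      ((v 0 0 * v 2 1 - v 0 1 * v 2 0) * w 0 0) * e 1 1 -
      ((v 0 0 * v 1 1 - v 0 1 * v 1 0) * w 0 1) * e 2 0 +
      ((v 0 0 * v 1 1 - v 0 1 * v 1 0) * w 0 0) * e 2 1
  have W : ∀ a b, wedge (v a) (v b) ∈ E := fun a b => red3_wedge_mem E (hv a) (hv b)
  have W' : ∀ a b, wedge (w a) (w b) ∈ E := fun a b => red3_wedge_mem E (hw a) (hw b)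
  have m0 : κ 0 / κ 2 ∈ E := by
    rw [k0]
    exact E.div_mem (E.neg_mem (E.mul_mem (W _ _) (W' _ _))) (E.mul_mem (W _ _) (W' _ _))
  have m1 : κ 1 / κ 2 ∈ E := by
    rw [k1]
    exact E.div_mem (E.mul_mem (W _ _) (W' _ _)) (E.mul_mem (W _ _) (W' _ _))
  intro i j
  have g0 : γ i 0 / κ 2 = (κ 0 / κ 2 * w 0 i * v 1 1 - κ 1 / κ 2 * w 1 i * v 0 1) /
      wedge (v 0) (v 1) := by
    rw [eq_div_iff hv01]
    unfold wedge
    linear_combination (v 1 1 / κ 2) * e 0 i - (v 0 1 / κ 2) * e 1 i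
  have g1 : γ i 1 / κ 2 = (κ 1 / κ 2 * w 1 i * v 0 0 - κ 0 / κ 2 * w 0 i * v 1 0) /
      wedge (v 0) (v 1) := by
    rw [eq_div_iff hv01]
    unfold wedge
    linear_combination (v 0 0 / κ 2) * e 1 i - (v 1 0 / κ 2) * e 0 i
  fin_cases j
  · show γ i 0 / κ 2 ∈ E
    rw [g0]
    exact E.div_mem (E.sub_mem (E.mul_mem (E.mul_mem m0 (hw _ _)) (hv _ _))
      (E.mul_mem (E.mul_mem m1 (hw _ _)) (hv _ _))) (W _ _)
  · show γ i 1 / κ 2 ∈ E
    rw [g1]
    exact E.div_mem (E.sub_mem (E.mul_mem (E.mul_mem m1 (hw _ _)) (hv _ _))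
      (E.mul_mem (E.mul_mem m0 (hw _ _)) (hv _ _))) (W _ _)

/-- A tower of simple extensions. -/
theorem finrank_tower {F L : Type*} [Field F] [Field L] [Algebra F L] (E : IntermediateField F L)
    [FiniteDimensional F E] {y : L} {g : L[X]} (hg : g ≠ 0) (hgE : ∀ i, g.coeff i ∈ E)
    (hy : g.IsRoot y) :
    ∃ E' : IntermediateField F L, E ≤ E' ∧ y ∈ E' ∧ FiniteDimensional F E' ∧
      Module.finrank F E' ≤ Module.finrank F E * g.natDegree := by
  obtain ⟨q, hq⟩ : ∃ q : E[X], q.map (algebraMap E L) = g :=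
    (mem_lifts g).1 ((lifts_iff_coeff_lifts g).2 fun i => ⟨⟨_, hgE i⟩, rfl⟩)
  have hq0 : q ≠ 0 := by
    rintro rfl
    exact hg (by rw [← hq, Polynomial.map_zero])
  have hqy : aeval y q = 0 := by
    rw [aeval_def, ← eval_map, hq]
    exact hy
  have hint : IsIntegral E y := IsAlgebraic.isIntegral ⟨q, hq0, hqy⟩
  have hfin : FiniteDimensional E (IntermediateField.adjoin E {y}) :=
    IntermediateField.adjoin.finiteDimensional hint
  have hfin2 : FiniteDimensional F (IntermediateField.adjoin E {y}) :=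
    Module.Finite.trans E _
  have hdeg : (minpoly E y).natDegree ≤ g.natDegree := by
    rw [← hq, natDegree_map_eq_of_injective (algebraMap E L).injective]
    exact natDegree_le_natDegree (minpoly.degree_le_of_ne_zero E y hq0 hqy)
  refine ⟨(IntermediateField.adjoin E {y}).restrictScalars F, fun x hx => ?_,
    IntermediateField.mem_adjoin_simple_self E y, hfin2, ?_⟩
  · exact (IntermediateField.adjoin E {y}).algebraMap_mem ⟨x, hx⟩
  · have e : Module.finrank F E * Module.finrank E (IntermediateField.adjoin E {y}) =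
        Module.finrank F (IntermediateField.adjoin E {y}) := Module.finrank_mul_finrank F E _
    rw [IntermediateField.adjoin.finrank hint] at e
    exact le_trans (le_of_eq e.symm) (Nat.mul_le_mul_left _ hdeg)

/-- A polynomial with values in a subfield on the subfield has coefficients in the subfield. -/
theorem red3_coeff_mem {L : Type*} [Field L] [CharZero L] (E : Subfield L) (p : L[X])
    (h : ∀ x ∈ E, p.eval x ∈ E) (i : ℕ) : p.coeff i ∈ E := by
  classical
  have inj : Set.InjOn (fun m : ℕ => (m : E)) (Finset.range (p.natDegree + 1)) :=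
    fun a _ b _ e => Nat.cast_injective e
  have inj' : Set.InjOn (fun m : ℕ => (m : L)) (Finset.range (p.natDegree + 1)) :=
    fun a _ b _ e => Nat.cast_injective e
  set q : E[X] := Lagrange.interpolate (Finset.range (p.natDegree + 1)) (fun m : ℕ => (m : E))
    (fun m => ⟨p.eval (m : L), h _ (natCast_mem E m)⟩) with hq
  have e : q.map E.subtype = p := by
    refine Polynomial.eq_of_degrees_lt_of_eval_index_eq (Finset.range (p.natDegree + 1)) inj'
      ?_ ?_ ?_
    · exact lt_of_le_of_lt degree_map_le (Lagrange.degree_interpolate_lt _ inj)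
    · rw [Finset.card_range]
      exact lt_of_le_of_lt degree_le_natDegree (by exact_mod_cast Nat.lt_succ_self _)
    · intro m hm
      have e1 : ((m : ℕ) : L) = E.subtype (m : E) := by simp
      have e2 := Lagrange.eval_interpolate_at_node
        (fun m : ℕ => (⟨p.eval (m : L), h _ (natCast_mem E m)⟩ : E)) inj hm
      conv_lhs => rw [e1, eval_map, eval₂_at_apply, hq, e2]
      rfl
  rw [← e, coeff_map]
  exact (q.coeff i).2

section conj

variable {L : Type*} [Field L] {d : ℕ} {F G : Mp L} {γ : Matrix (Fin 2) (Fin 2) L} {u : L}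

theorem red3_iter (hF : IsHom d F) (hu : u ≠ 0)
    (h : ∀ x, app F (γ.mulVec x) = u • γ.mulVec (app G x)) (m : ℕ) :
    ∃ k : L, k ≠ 0 ∧ ∀ x, (app F)^[m] (γ.mulVec x) = k • γ.mulVec ((app G)^[m] x) := by
  induction m with
  | zero => exact ⟨1, one_ne_zero, fun x => by simp⟩
  | succ m ih =>
    obtain ⟨k, hk, e⟩ := ih
    refine ⟨k ^ d * u, mul_ne_zero (pow_ne_zero _ hk) hu, fun x => ?_⟩
    rw [Function.iterate_succ_apply', Function.iterate_succ_apply', e, app_smul hF, h, smul_smul]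

theorem red3_wedge (hF : IsHom d F) (hu : u ≠ 0) (hγ : γ.det ≠ 0)
    (h : ∀ x, app F (γ.mulVec x) = u • γ.mulVec (app G x)) (m : ℕ) {x p : V L} {s : L}
    (hs : s ≠ 0) (hx : γ.mulVec x = s • p) :
    wedge ((app F)^[m] p) p = 0 ↔ wedge ((app G)^[m] x) x = 0 := by
  obtain ⟨k, hk, e⟩ := red3_iter hF hu h m
  have e1 : wedge ((app F)^[m] (γ.mulVec x)) (γ.mulVec x) =
      k * (γ.det * wedge ((app G)^[m] x) x) := by
    rw [e, wedge_smul_left, wedge_mulVec]
  rw [hx, iter_smul hF, wedge_smul_left, wedge_smul_right] at e1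
  constructor
  · intro c
    rw [c, mul_zero, mul_zero] at e1
    exact (mul_eq_zero.1 ((mul_eq_zero.1 e1.symm).resolve_left hk)).resolve_left hγ
  · intro c
    rw [c, mul_zero, mul_zero] at e1
    exact (mul_eq_zero.1 ((mul_eq_zero.1 e1).resolve_left (pow_ne_zero _ hs))).resolve_left hs

theorem red3_mulVec_mem (E : Subfield L) (hγ : ∀ i j, γ i j ∈ E) {x : V L} (hx : ∀ i, x i ∈ E)
    (i : Fin 2) : γ.mulVec x i ∈ E := by
  have : γ.mulVec x i = γ i 0 * x 0 + γ i 1 * x 1 := by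
    simp [Matrix.mulVec, dotProduct, Fin.sum_univ_two]
  rw [this]
  exact E.add_mem (E.mul_mem (hγ _ _) (hx _)) (E.mul_mem (hγ _ _) (hx _))

theorem red3_vec_mem (E : Subfield L) {a b : L} (ha : a ∈ E) (hb : b ∈ E) (i : Fin 2) :
    (![a, b] : V L) i ∈ E := by
  fin_cases i
  · exact ha
  · exact hb

/-- The coefficients of the universal map descend. -/
theorem red3_coef [CharZero L] (E : Subfield L) (c : Fin (2 * d + 1) → L) (hγ : γ.det ≠ 0)
    {κ : L} (hκ : κ ≠ 0) (hγE : ∀ i j, γ i j / κ ∈ E)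
    (hGE : ∀ x : V L, (∀ i, x i ∈ E) → ∀ i, app G x i ∈ E)
    (h : ∀ x, app (FU d c) (γ.mulVec x) = u • γ.mulVec (app G x)) (j : Fin (2 * d + 1)) :
    c j ∈ E := by
  have hF : IsHom d (FU d c) := isHom_mk _ _ _
  set g : Matrix (Fin 2) (Fin 2) L := κ⁻¹ • γ with hg
  have gE : ∀ i j, g i j ∈ E := fun i j => by
    have := hγE i j
    rwa [div_eq_inv_mul] at this
  have aE : ∀ i j, g.adjugate i j ∈ E := fun i j => by
    rw [Matrix.adjugate_fin_two]
    fin_cases i <;> fin_cases j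
    · exact gE 1 1
    · exact E.neg_mem (gE 0 1)
    · exact E.neg_mem (gE 1 0)
    · exact gE 0 0
  have e0 : γ = κ • g := by rw [hg, smul_smul, mul_inv_cancel₀ hκ, one_smul]
  have gd : g.det ≠ 0 := by
    intro c0
    rw [e0, Matrix.det_smul, c0, mul_zero] at hγ
    exact hγ rfl
  have key : ∃ r : L, ∀ p, app (FU d c) p = r • g.mulVec (app G (g.adjugate.mulVec p)) := by
    refine ⟨((κ * g.det) ^ d)⁻¹ * (u * κ), fun p => ?_⟩
    have e1 := h (g.adjugate.mulVec p)
    have e2 : γ.mulVec (g.adjugate.mulVec p) = (κ * g.det) • p := by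
      rw [e0, Matrix.smul_mulVec, Matrix.mulVec_mulVec, Matrix.mul_adjugate, Matrix.smul_mulVec,
        Matrix.one_mulVec, smul_smul]
    rw [e2, app_smul hF] at e1
    have e3 : γ.mulVec (app G (g.adjugate.mulVec p)) =
        κ • g.mulVec (app G (g.adjugate.mulVec p)) := by
      conv_lhs => rw [e0, Matrix.smul_mulVec]
    rw [e3, smul_smul] at e1
    rw [mul_smul, ← e1, smul_smul, inv_mul_cancel₀ (pow_ne_zero _ (mul_ne_zero hκ gd)), one_smul]
  obtain ⟨r, hr⟩ := key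
  have mem : ∀ p : V L, (∀ i, p i ∈ E) → ∀ i, g.mulVec (app G (g.adjugate.mulVec p)) i ∈ E :=
    fun p hp => red3_mulVec_mem E gE (hGE _ (red3_mulVec_mem E aE hp))
  have ea : ∀ x, app (FU d c) ![x, 1] 0 = (aU d c).eval x := fun x => by
    conv_rhs => rw [← deh_homogenize (natDegree_aU_le d c), eval_deh]
    rfl
  have eb : ∀ x, app (FU d c) ![x, 1] 1 = (bU d c).eval x := fun x => by
    conv_rhs => rw [← deh_homogenize (natDegree_bU_le d c), eval_deh]
    rfl
  have rE : r ∈ E := by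
    have e1 := congrFun (hr ![0, 1]) 1
    rw [eb, ← coeff_zero_eq_eval_zero, coeff_bU, if_pos rfl, Pi.smul_apply, smul_eq_mul] at e1
    rw [eq_inv_of_mul_eq_one_left e1.symm]
    exact E.inv_mem (mem _ (red3_vec_mem E E.zero_mem E.one_mem) 1)
  have val : ∀ x ∈ E, ∀ i, app (FU d c) ![x, 1] i ∈ E := fun x hx i => by
    rw [hr, Pi.smul_apply, smul_eq_mul]
    exact E.mul_mem rE (mem _ (red3_vec_mem E hx E.one_mem) i)
  by_cases hj : j.val ≤ d
  · have := red3_coeff_mem E (aU d c) (fun x hx => ea x ▸ val x hx 0) j.val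
    rwa [coeff_aU, dif_pos hj] at this
  · have := red3_coeff_mem E (bU d c) (fun x hx => eb x ▸ val x hx 1) (j.val - d)
    rw [coeff_bU, if_neg (by omega), dif_pos (by omega)] at this
    have e : (⟨d + (j.val - d), by omega⟩ : Fin (2 * d + 1)) = j := Fin.ext (by simp; omega)
    rwa [e] at this

end conj

/-- A projectively fixed vector becomes rational over an extension of bounded degree. -/
theorem red3_fix {F L : Type*} [Field F] [Field L] [Algebra F L] (E : IntermediateField F L)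
    [FiniteDimensional F E] {H : Mp L} {e : ℕ} (hH : IsHom e H) (h0 : fixp H ≠ 0)
    (hE : ∀ i, (fixp H).coeff i ∈ E) {v : V L} (hv : v ≠ 0) (hw : wedge (app H v) v = 0) :
    ∃ E' : IntermediateField F L, E ≤ E' ∧ FiniteDimensional F E' ∧
      Module.finrank F E' ≤ Module.finrank F E * (e + 1) ∧
      ∃ (k : L) (v' : V L), k ≠ 0 ∧ v = k • v' ∧ ∀ i, v' i ∈ E' := by
  by_cases h1 : v 1 = 0
  · refine ⟨E, le_rfl, inferInstance, Nat.le_mul_of_pos_right _ (Nat.succ_pos e), v 0, ![1, 0],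
      fun c => hv ?_, ?_, red3_vec_mem E.toSubfield E.one_mem E.zero_mem⟩
    · ext i
      fin_cases i
      · exact c
      · exact h1
    · ext i
      fin_cases i
      · simp
      · simpa using h1
  · have ev : v = v 1 • ![v 0 / v 1, 1] := by
      ext i
      fin_cases i
      · simp [mul_div_cancel₀ _ h1]
      · simp
    have hr : (fixp H).IsRoot (v 0 / v 1) := by
      rw [ev, app_smul hH, wedge_smul_left, wedge_smul_right, ← eval_fixp] at hw
      exact (mul_eq_zero.1 ((mul_eq_zero.1 hw).resolve_left (pow_ne_zero _ h1))).resolve_left h1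
    obtain ⟨E', a1, a2, a3, a4⟩ := finrank_tower E h0 hE hr
    exact ⟨E', a1, a3, a4.trans (Nat.mul_le_mul_left _ (natDegree_fixp_le hH)), v 1, _, h1, ev,
      red3_vec_mem E'.toSubfield a2 E'.one_mem⟩

/-- The image of a finite extension lies in an extension of at most the same degree. -/
theorem red3_base {K L ι : Type} [Field K] [Field L] [Algebra ℂ K] [Algebra ℂ L] (t : ι → K)
    (φ : K →ₐ[ℂ] L) (F1 : IntermediateField ℂ L) (hF : ∀ i, φ (t i) ∈ F1)
    [FiniteDimensional (IntermediateField.adjoin ℂ (Set.range t)) K] :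
    ∃ E : IntermediateField F1 L, FiniteDimensional F1 E ∧
      Module.finrank F1 E ≤ Module.finrank (IntermediateField.adjoin ℂ (Set.range t)) K ∧
      ∀ x, φ x ∈ E := by
  set F0 := IntermediateField.adjoin ℂ (Set.range t) with hF0
  have h01 : ∀ x ∈ F0, φ x ∈ F1 := by
    have : F0 ≤ F1.comap φ := IntermediateField.adjoin_le_iff.2 (by
      rintro _ ⟨i, rfl⟩
      exact hF i)
    exact fun x hx => this hx
  have : CharZero F0 := charZero_of_injective_algebraMap (algebraMap ℂ F0).injective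
  obtain ⟨θ, hθ⟩ := Field.exists_primitive_element F0 K
  have hint : IsIntegral F0 θ := Algebra.IsIntegral.isIntegral θ
  set f : F0 →+* L := (φ : K →+* L).comp (algebraMap F0 K) with hf
  have g0 : (minpoly F0 θ).map f ≠ 0 := ((minpoly.monic hint).map f).ne_zero
  have gE : ∀ i, ((minpoly F0 θ).map f).coeff i ∈ (⊥ : IntermediateField F1 L) := fun i => by
    rw [coeff_map]
    exact (⊥ : IntermediateField F1 L).algebraMap_mem
      ⟨_, h01 _ ((minpoly F0 θ).coeff i).2⟩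
  have gr : ((minpoly F0 θ).map f).IsRoot (φ θ) := by
    have := congrArg φ (minpoly.aeval F0 θ)
    rw [map_zero, aeval_def] at this
    rw [IsRoot, eval_map, hf, ← this]
    exact (hom_eval₂ _ _ (φ : K →+* L) θ).symm
  obtain ⟨E, -, a2, a3, a4⟩ := finrank_tower (⊥ : IntermediateField F1 L) g0 gE gr
  refine ⟨E, a3, ?_, fun x => ?_⟩
  · rw [IntermediateField.finrank_bot, one_mul] at a4
    exact a4.trans (natDegree_map_le.trans (minpoly.natDegree_le θ))
  · have hle : F0 ≤ (E.restrictScalars ℂ).comap φ := fun y hy =>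
      E.algebraMap_mem ⟨_, h01 y hy⟩
    have : (⊤ : IntermediateField F0 K) ≤ IntermediateField.extendScalars hle := by
      rw [← hθ]
      exact IntermediateField.adjoin_simple_le_iff.2 a2
    exact this (IntermediateField.mem_top (x := x))

theorem red3_fin {K ι σ : Type} [Field K] [Algebra ℂ K] [Finite σ] (cb : σ → K)
    (hgen : IntermediateField.adjoin ℂ (Set.range cb) = ⊤) {t : ι → K}
    (ht : IsTranscendenceBasis ℂ t) :
    FiniteDimensional (IntermediateField.adjoin ℂ (Set.range t)) K := by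
  set F0 := IntermediateField.adjoin ℂ (Set.range t) with hF0
  have : Algebra.IsAlgebraic F0 K := ht.isAlgebraic_field
  have h1 : FiniteDimensional F0 (IntermediateField.adjoin F0 (Set.range cb)) :=
    IntermediateField.finiteDimensional_adjoin fun x _ =>
      (Algebra.IsAlgebraic.isAlgebraic x).isIntegral
  have h2 : IntermediateField.adjoin F0 (Set.range cb) = ⊤ := by
    have : (⊤ : IntermediateField ℂ K) ≤
        (IntermediateField.adjoin F0 (Set.range cb)).restrictScalars ℂ := by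
      rw [← hgen]
      exact IntermediateField.adjoin_le_iff.2 (IntermediateField.subset_adjoin F0 _)
    exact top_le_iff.1 fun x _ => this (IntermediateField.mem_top (x := x))
  rw [h2] at h1
  exact (IntermediateField.topEquiv (F := F0) (E := K)).toLinearEquiv.finiteDimensional

/-- The field of definition of the conjugacy. -/
theorem red3_field {d : ℕ} (hd : 2 ≤ d) {K Om : Type} [Field K] [Field Om] [Algebra ℂ K]
    [Algebra ℂ Om] [IsAlgClosed Om] (c : Fin (2 * d + 1) → Om) (w : Fin 3 → Om)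
    (winj : Function.Injective w) (hw : ∀ s, wedge ((app (FU d c))^[3] ![w s, 1]) ![w s, 1] = 0)
    (cb : Fin d ⊕ Fin (d - 1) → K) (φ : K →ₐ[ℂ] Om)
    (hnz : ∀ x : V Om, x ≠ 0 → app (sF d fun i => φ (cb i)) x ≠ 0)
    (γ : Matrix (Fin 2) (Fin 2) Om) (u : Om) (hγ : γ.det ≠ 0) (hu : u ≠ 0)
    (h : ∀ x, app (FU d c) (γ.mulVec x) = u • γ.mulVec (app (sF d fun i => φ (cb i)) x))
    (F1 : IntermediateField ℂ Om) (hwF : ∀ s, w s ∈ F1) (E0 : IntermediateField F1 Om)
    [FiniteDimensional F1 E0] (hφ : ∀ x, φ x ∈ E0) :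
    ∃ E : IntermediateField F1 Om, FiniteDimensional F1 E ∧
      Module.finrank F1 E ≤ Module.finrank F1 E0 * (d ^ 3 + 1) ^ 3 ∧
      (∀ j, c j ∈ E) ∧ γ 0 1 / γ 1 1 ∈ E := by
  have : CharZero Om := charZero_of_injective_algebraMap (algebraMap ℂ Om).injective
  have hF : IsHom d (FU d c) := isHom_mk _ _ _
  set G : Mp Om := sF d fun i => φ (cb i) with hG
  have hGm : G = mapF (φ : K →+* Om) (sF d cb) := (mapF_sF (φ : K →+* Om) d cb).symm
  have hGh : IsHom d G := isHom_mk _ _ _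
  have hH : IsHom (d ^ 3) (itc G 3) := isHom_itc hGh 3
  have h0 : fixp (itc G 3) ≠ 0 := by
    refine fixp_ne_zero hH (hd.trans (Nat.le_self_pow (by omega) d)) fun x hx => ?_
    rw [app_itc]
    exact iter_ne_zero hnz 3 hx
  have hE : ∀ i, (fixp (itc G 3)).coeff i ∈ E0 := fun i => by
    rw [hGm, ← mapF_itc, fixp_mapF, coeff_map]
    exact hφ _
  have ev : ∀ s, γ.mulVec (γ.adjugate.mulVec ![w s, 1]) = γ.det • ![w s, 1] := fun s => by
    rw [Matrix.mulVec_mulVec, Matrix.mul_adjugate, Matrix.smul_mulVec, Matrix.one_mulVec]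
  have v0 : ∀ s, γ.adjugate.mulVec ![w s, 1] ≠ 0 := fun s c0 => by
    have := congrFun (ev s) 1
    rw [c0, Matrix.mulVec_zero] at this
    exact hγ (by simpa using this.symm)
  have vw : ∀ s, wedge (app (itc G 3) (γ.adjugate.mulVec ![w s, 1]))
      (γ.adjugate.mulVec ![w s, 1]) = 0 := fun s => by
    rw [app_itc]
    exact (red3_wedge hF hu hγ h 3 hγ (ev s)).1 (hw s)
  obtain ⟨E1, a1, b1, c1, k0, y0, p0, q0, r0⟩ := red3_fix E0 hH h0 hE (v0 0) (vw 0)
  obtain ⟨E2, a2, b2, c2, k1, y1, p1, q1, r1⟩ :=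
    red3_fix E1 hH h0 (fun i => a1 (hE i)) (v0 1) (vw 1)
  obtain ⟨E, a3, b3, c3, k2, y2, p2, q2, r2⟩ :=
    red3_fix E2 hH h0 (fun i => a2 (a1 (hE i))) (v0 2) (vw 2)
  have hφE : ∀ x, φ x ∈ E := fun x => a3 (a2 (a1 (hφ x)))
  have hk : ∀ s, (![k0, k1, k2] : Fin 3 → Om) s ≠ 0 := fun s => by
    fin_cases s
    exacts [p0, p1, p2]
  have hq : ∀ s, γ.adjugate.mulVec ![w s, 1] =
      (![k0, k1, k2] : Fin 3 → Om) s • (![y0, y1, y2] : Fin 3 → V Om) s := fun s => by
    fin_cases s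
    exacts [q0, q1, q2]
  have hy : ∀ s i, (![y0, y1, y2] : Fin 3 → V Om) s i ∈ E.toSubfield := fun s i => by
    fin_cases s
    exacts [a3 (a2 (r0 i)), a3 (r1 i), r2 i]
  generalize (![k0, k1, k2] : Fin 3 → Om) = k at hk hq
  generalize (![y0, y1, y2] : Fin 3 → V Om) = y at hq hy
  have e1 : ∀ s, γ.mulVec (y s) = (γ.det / k s) • ![w s, 1] := fun s => by
    have := ev s
    rw [hq, Matrix.mulVec_smul] at this
    rw [div_eq_inv_mul, mul_smul, ← this, smul_smul, inv_mul_cancel₀ (hk s), one_smul]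
  have ww : ∀ a b, a ≠ b → wedge (![w a, 1] : V Om) ![w b, 1] ≠ 0 := fun a b ab c0 => by
    refine ab (winj ?_)
    simpa [wedge, sub_eq_zero] using c0
  have wy : ∀ a b, a ≠ b → wedge (y a) (y b) ≠ 0 := fun a b ab c0 => by
    have := wedge_mulVec γ (y a) (y b)
    rw [e1, e1, c0, mul_zero, wedge_smul_left, wedge_smul_right] at this
    exact mul_ne_zero (div_ne_zero hγ (hk a)) (mul_ne_zero (div_ne_zero hγ (hk b)) (ww a b ab)) this
  have hκ : γ.det / k 2 ≠ 0 := div_ne_zero hγ (hk 2)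
  have hd' := matrix_descent E.toSubfield γ y (fun s => ![w s, 1]) (fun s => γ.det / k s) hκ hy
    (fun s => red3_vec_mem E.toSubfield (E.algebraMap_mem ⟨_, hwF s⟩) E.one_mem)
    (wy 0 1 (by decide)) (ww 0 1 (by decide)) (wy 0 2 (by decide)) (wy 1 2 (by decide)) e1
  refine ⟨E, b3, ?_, fun j => ?_, ?_⟩
  · calc Module.finrank F1 E ≤ Module.finrank F1 E2 * (d ^ 3 + 1) := c3
      _ ≤ Module.finrank F1 E1 * (d ^ 3 + 1) * (d ^ 3 + 1) := Nat.mul_le_mul_right _ c2
      _ ≤ Module.finrank F1 E0 * (d ^ 3 + 1) * (d ^ 3 + 1) * (d ^ 3 + 1) :=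
        Nat.mul_le_mul_right _ (Nat.mul_le_mul_right _ c1)
      _ = _ := by ring
  · refine red3_coef E.toSubfield c hγ hκ hd' (fun x hx i => ?_) h j
    rw [hGm]
    refine MvPolynomial.eval_mem (fun m _ => ?_) hx
    rw [mapF, MvPolynomial.coeff_map]
    exact hφE _
  · rw [← div_div_div_cancel_right₀ hκ]
    exact E.div_mem (hd' 0 1) (hd' 1 1)

/-- The data required by the core theorem. -/
theorem red3_data {d : ℕ} (hd : 2 ≤ d) {K Om ι : Type} [Field K] [Field Om] [Algebra ℂ K]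
    [Algebra ℂ Om] [IsAlgClosed Om] (c : Fin (2 * d + 1) → Om) (hc : IsTranscendenceBasis ℂ c)
    (w : Fin 3 → Om) (winj : Function.Injective w)
    (hw : ∀ s, wedge ((app (FU d c))^[3] ![w s, 1]) ![w s, 1] = 0) {n : ℕ} (hn : 1 ≤ n)
    (cb : Fin d ⊕ Fin (d - 1) → K) (hgen : IntermediateField.adjoin ℂ (Set.range cb) = ⊤)
    (htr : ((2 * d - 2 : ℕ) : Cardinal) ≤ Algebra.trdeg ℂ K)
    (hP : ∀ (L : Type) [Field L] [Algebra ℂ L] (φ : K →ₐ[ℂ] L),
      (∀ x : V L, x ≠ 0 → app (sF d fun i => φ (cb i)) x ≠ 0) ∧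
        ExactPer (sF d fun i => φ (cb i)) n ![0, 1])
    (t : ι → K) (ht : IsTranscendenceBasis ℂ t) {B : ℕ}
    (hB : Module.finrank (IntermediateField.adjoin ℂ (Set.range t)) K ≤ B) :
    ∃ (x0 : Om) (T : Fin (2 * d + 1) → Om), ExactPer (FU d c) n ![x0, 1] ∧
      IsTranscendenceBasis ℂ T ∧ (∀ s, ∃ i : Fin (2 * d), T i.succ = w s) ∧
      (∀ j, (minpoly (IntermediateField.adjoin ℂ (Set.range T)) (c j)).natDegree ≤
        B * (d ^ 3 + 1) ^ 3) ∧
      (minpoly (IntermediateField.adjoin ℂ (Set.range T)) x0).natDegree ≤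
        B * (d ^ 3 + 1) ^ 3 := by
  obtain ⟨htr', φ, γ, u, hγ, hu, h11, h⟩ := red2 hd hn cb hgen htr hP c hc.1
  obtain ⟨hnz, hper⟩ := hP Om φ
  have hF : IsHom d (FU d c) := isHom_mk _ _ _
  obtain ⟨e⟩ : Nonempty (ι ≃ Fin (2 * d - 2)) :=
    Cardinal.mk_eq_nat_iff.1 (ht.cardinalMk_eq_trdeg.trans htr')
  set T : Fin (2 * d + 1) → Om := fun j =>
    if hj : j.val < 2 * d - 2 then φ (t (e.symm ⟨j.val, hj⟩))
    else w ⟨j.val - (2 * d - 2), by omega⟩ with hT
  have T1 : ∀ i, φ (t i) ∈ Set.range T := fun i => ⟨⟨(e i).val, by omega⟩, by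
    simp only [hT, dif_pos (e i).2, Fin.eta, Equiv.symm_apply_apply]⟩
  have T2 : ∀ s, ∃ i : Fin (2 * d), T i.succ = w s := fun s => ⟨⟨2 * d - 3 + s.val, by omega⟩, by
    have a1 : ¬ (2 * d - 3 + s.val + 1 < 2 * d - 2) := by omega
    simp only [hT, Fin.succ_mk, dif_neg a1]
    congr 1
    exact Fin.ext (by simp only; omega)⟩
  set F1 := IntermediateField.adjoin ℂ (Set.range T) with hF1
  have := red3_fin cb hgen ht
  obtain ⟨E0, a1, a2, a3⟩ := red3_base t φ F1
    (fun i => IntermediateField.subset_adjoin ℂ _ (T1 i))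
  obtain ⟨E, b1, b2, b3, b4⟩ := red3_field hd c w winj hw cb φ hnz γ u hγ hu h F1
    (fun s => IntermediateField.subset_adjoin ℂ _ (by
      obtain ⟨i, hi⟩ := T2 s
      exact ⟨_, hi⟩)) E0 a3
  have deg : ∀ x ∈ E, (minpoly F1 x).natDegree ≤ B * (d ^ 3 + 1) ^ 3 := fun x hx => by
    have := minpoly.natDegree_le (A := F1) (⟨x, hx⟩ : E)
    rw [IntermediateField.minpoly_eq] at this
    exact this.trans (b2.trans (Nat.mul_le_mul_right _ (a2.trans hB)))
  have ex : γ.mulVec ![0, 1] = γ 1 1 • ![γ 0 1 / γ 1 1, 1] := by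
    ext i
    fin_cases i
    · simp [Matrix.mulVec, dotProduct, Fin.sum_univ_two, mul_div_cancel₀ _ h11]
    · simp [Matrix.mulVec, dotProduct, Fin.sum_univ_two]
  refine ⟨γ 0 1 / γ 1 1, T, ⟨(red3_wedge hF hu hγ h n h11 ex).2 hper.1, fun i h1 h2 c0 =>
    hper.2 i h1 h2 ((red3_wedge hF hu hγ h i h11 ex).1 c0)⟩, ?_, T2, fun j => deg _ (b3 j),
    deg _ b4⟩
  have : Algebra.IsAlgebraic (Algebra.adjoin ℂ (Set.range T)) Om := by
    refine hc.isAlgebraic_iff.2 fun j => IntermediateField.isAlgebraic_adjoin_iff.1 ?_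
    have : IsAlgebraic F1 (⟨c j, b3 j⟩ : E) := Algebra.IsAlgebraic.isAlgebraic _
    exact IntermediateField.isAlgebraic_iff.1 this
  exact Algebra.IsAlgebraic.isTranscendenceBasis_of_le_trdeg_of_finite ℂ T
    hc.cardinalMk_eq_trdeg.le

/-- Let `Om` be the algebraic closure of the fraction field of `MvPolynomial (Fin (2 d + 1)) ℂ`, `c`
the variables, `w` from `core`, and use `core` with `B * (d ^ 3 + 1) ^ 3`. -/
theorem main (d : ℕ) (hd : 2 ≤ d) (B : ℕ) : ∃ n0 : ℕ, ∀ n, n0 ≤ n →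
    ∀ (𝔭 : Ideal (MvPolynomial (Fin d ⊕ Fin (d - 1)) ℂ)) [𝔭.IsPrime],
      𝔭 ∈ (MvPolynomial.vanishingIdeal ℂ (Xn d n)).minimalPrimes →
      ∀ {ι : Type} (t : ι → FractionRing (MvPolynomial (Fin d ⊕ Fin (d - 1)) ℂ ⧸ 𝔭)),
        IsTranscendenceBasis ℂ t →
        B < Module.finrank (IntermediateField.adjoin ℂ (Set.range t))
          (FractionRing (MvPolynomial (Fin d ⊕ Fin (d - 1)) ℂ ⧸ 𝔭)) := by
  have : Algebra.IsAlgebraic (MvPolynomial (Fin (2 * d + 1)) ℂ)
      (FractionRing (MvPolynomial (Fin (2 * d + 1)) ℂ)) :=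
    IsLocalization.isAlgebraic _ (nonZeroDivisors _)
  have hc := ((IsTranscendenceBasis.mvPolynomial (Fin (2 * d + 1)) ℂ).algebraMap_comp
    (A := FractionRing (MvPolynomial (Fin (2 * d + 1)) ℂ))).algebraMap_comp
    (A := AlgebraicClosure (FractionRing (MvPolynomial (Fin (2 * d + 1)) ℂ)))
  obtain ⟨w, winj, hw, hcore⟩ := core d hd _ hc
  obtain ⟨n0, hn0⟩ := hcore (B * (d ^ 3 + 1) ^ 3)
  refine ⟨max n0 1, fun n hn 𝔭 _ hp ι t ht => ?_⟩
  by_contra hB
  obtain ⟨htr, hP⟩ := red1 hd n 𝔭 hp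
  obtain ⟨x0, T, a1, a2, a3, a4, a5⟩ := red3_data hd _ hc w winj hw
    (le_trans (le_max_right _ _) hn) (genPt 𝔭) (adjoin_genPt 𝔭) htr hP t ht (not_lt.1 hB)
  exact hn0 n (le_trans (le_max_left _ _) hn) x0 a1 T a2 a3 a4 a5

end Pool.Agent.Lib.MP_0dd0d9_ag
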