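import Mathlib

/-!
Definitions used in the statement of the main theorem.
-/

namespace Pool.Agent.Lib.MP_0dd0d9_ag

open Polynomial

noncomputable section

variable {R : Type*} [CommRing R]

/-- The determinant of two vectors in the plane; it vanishes exactly when two nonzero vectors
represent the same point of the projective line. -/
def wedge (x y : Fin 2 → R) : R := x 0 * y 1 - x 1 * y 0

/-- The value of a pair of binary forms at a vector. -/
def app (F : Fin 2 → MvPolynomial (Fin 2) R) (x : Fin 2 → R) : Fin 2 → R :=
  fun i => MvPolynomial.eval x (F i)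

/-- The pair of binary forms of degree `d` obtained by homogenising two polynomials:
the homogeneous lift of the rational map `a / b`. -/
def mk (d : ℕ) (a b : R[X]) : Fin 2 → MvPolynomial (Fin 2) R :=
  ![a.homogenize d, b.homogenize d]

/-- The point of the projective line with homogeneous coordinates `p` has exact period `n`. -/
def ExactPer (F : Fin 2 → MvPolynomial (Fin 2) R) (n : ℕ) (p : Fin 2 → R) : Prop :=
  wedge ((app F)^[n] p) p = 0 ∧ ∀ i, 1 ≤ i → i < n → wedge ((app F)^[i] p) p ≠ 0

/-- Numerator of the normal form: a general polynomial of degree at most `d` with value `1`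
at `0`. -/
def sA (d : ℕ) (c : Fin d ⊕ Fin (d - 1) → R) : R[X] :=
  1 + ∑ i : Fin d, monomial (i.val + 1) (c (Sum.inl i))

/-- Denominator of the normal form: a general polynomial of degree at most `d` with value `1`
at `0` and value `0` at `1`. -/
def sB (d : ℕ) (c : Fin d ⊕ Fin (d - 1) → R) : R[X] :=
  (1 - X) * (1 + ∑ i : Fin (d - 1), monomial (i.val + 1) (c (Sum.inr i)))

/-- The normal form: the degree `d` maps sending `0` to `1` and `1` to infinity. -/
def sF (d : ℕ) (c : Fin d ⊕ Fin (d - 1) → R) : Fin 2 → MvPolynomial (Fin 2) R :=
  mk d (sA d c) (sB d c)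

/-- The parameters `c` for which the normal form is a morphism of degree `d` (its two forms have
no common zero) and the point `0` has exact period `n`. -/
def Xn (d n : ℕ) : Set (Fin d ⊕ Fin (d - 1) → ℂ) :=
  {c | (∀ x : Fin 2 → ℂ, x ≠ 0 → app (sF d c) x ≠ 0) ∧ ExactPer (sF d c) n ![0, 1]}

end

end Pool.Agent.Lib.MP_0dd0d9_ag
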