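import Pool.Agent.Lib.MP_0dd0d9_ag.Alg2

/-!
TASK g0d UL1.  The universal map near the power map `z ^ d`.
-/

namespace Pool.Agent.Lib.MP_0dd0d9_ag

open Polynomial

/-- The parameters of the power map. -/
noncomputable def cz (d : ℕ) : Fin (2 * d + 1) → ℂ := fun j => if j.val = d then 1 else 0

variable {K : Type*} [Field K] [Algebra ℂ K]

/-- A valuation ring over the power map. -/
structure NearPow (d : ℕ) (c : Fin (2 * d + 1) → K) (O : ValuationSubring K) : Prop where
  cst : ∀ a : ℂ, algebraMap ℂ K a ∈ O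
  near : ∀ j, O.valuation (c j - algebraMap ℂ K (cz d j)) < 1

/-- `Ideal.image_subset_nonunits_valuationSubring` for the subring `ℂ[c]`, isomorphic to a
polynomial ring, and the kernel of evaluation at `cz d`. -/
theorem exists_nearPow {d : ℕ} (c : Fin (2 * d + 1) → K) (hc : AlgebraicIndependent ℂ c) :
    ∃ O, NearPow d c O := by
  set φ : MvPolynomial (Fin (2 * d + 1)) ℂ →+* K := (MvPolynomial.aeval c).toRingHom with hφ
  have hinj : Function.Injective φ := hc
  obtain ⟨O, h1, h2⟩ := Ideal.image_subset_nonunits_valuationSubring (A := φ.range)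
    ((RingHom.ker (MvPolynomial.eval (cz d))).map φ.rangeRestrict) (by
      rw [Ideal.ne_top_iff_one, Ideal.mem_map_iff_of_surjective _ φ.rangeRestrict_surjective]
      rintro ⟨p, hp, e⟩
      have e1 : φ p = φ 1 := by
        rw [map_one]
        exact congrArg Subtype.val e
      rw [hinj e1, RingHom.mem_ker, map_one] at hp
      exact one_ne_zero hp)
  refine ⟨O, fun a => h1 ⟨MvPolynomial.C a, by simp [hφ]⟩, fun j => ?_⟩
  refine h2 ⟨φ.rangeRestrict (MvPolynomial.X j - MvPolynomial.C (cz d j)),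
    Ideal.mem_map_of_mem _ (by simp [RingHom.mem_ker]), ?_⟩
  simp [hφ]

section red

variable {R : Type*} [CommRing R]

/-- The parameters of the power map over any ring. -/
def ul1c (R : Type*) [CommRing R] (d : ℕ) : Fin (2 * d + 1) → R :=
  fun j => if j.val = d then 1 else 0

theorem ul1_aU (d : ℕ) : aU d (ul1c R d) = X ^ d := by
  ext i
  rw [coeff_aU, coeff_X_pow]
  unfold ul1c
  split_ifs <;> first | rfl | omega

theorem ul1_bU (d : ℕ) : bU d (ul1c R d) = 1 := by
  ext i
  rw [coeff_bU, coeff_one]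
  unfold ul1c
  split_ifs with h1 h2 h3 <;> first | rfl | (simp only at h3; omega)

theorem ul1_app (d : ℕ) (y : V R) (i : Fin 2) : app (FU d (ul1c R d)) y i = y i ^ d := by
  rw [FU, ul1_aU, ul1_bU]
  fin_cases i <;> simp [app, mk, homogenize_X_pow]

theorem ul1_iter (d n : ℕ) (y : V R) (i : Fin 2) :
    (app (FU d (ul1c R d)))^[n] y i = y i ^ d ^ n := by
  induction n with
  | zero => simp
  | succ n ih => rw [Function.iterate_succ_apply', ul1_app, ih, ← pow_mul, pow_succ]

theorem ul1_aU_map {S : Type*} [CommRing S] (f : R →+* S) (d : ℕ) (c : Fin (2 * d + 1) → R) :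
    (aU d c).map f = aU d (fun j => f (c j)) := by
  simp [aU, Polynomial.map_sum]

theorem ul1_bU_map {S : Type*} [CommRing S] (f : R →+* S) (d : ℕ) (c : Fin (2 * d + 1) → R) :
    (bU d c).map f = bU d (fun j => f (c j)) := by
  simp [bU, Polynomial.map_sum]

theorem ul1_wr_map {S : Type*} [CommRing S] (f : R →+* S) (a b : R[X]) :
    (wr a b).map f = wr (a.map f) (b.map f) := by
  simp [wr, derivative_map]

theorem ul1_app_one (d : ℕ) (c : Fin (2 * d + 1) → R) (x : R) :
    app (FU d c) ![x, 1] = ![(aU d c).eval x, (bU d c).eval x] := by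
  funext i
  fin_cases i
  · simp only [app, FU, mk, Fin.zero_eta, Matrix.cons_val_zero]
    rw [← eval_deh, deh_homogenize (natDegree_aU_le d c)]
  · simp only [app, FU, mk, Fin.mk_one, Matrix.cons_val_one, Matrix.cons_val_zero]
    rw [← eval_deh, deh_homogenize (natDegree_bU_le d c)]

end red

variable {d : ℕ} {c : Fin (2 * d + 1) → K} {O : ValuationSubring K}

omit [Algebra ℂ K] in
theorem ul1_lt_iff (x y : O) : O.valuation ((x : K) - y) < 1 ↔
    IsLocalRing.residue O x = IsLocalRing.residue O y := by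
  rw [← sub_eq_zero, ← map_sub, IsLocalRing.residue_eq_zero_iff, O.valuation_lt_one_iff]
  rfl

omit [Algebra ℂ K] in
theorem ul1_le_of_lt {x y : K} (hy : O.valuation y ≤ 1) (h : O.valuation (x - y) < 1) :
    O.valuation x ≤ 1 := by
  have := O.valuation.map_add_le h.le hy
  rwa [sub_add_cancel] at this

omit [Algebra ℂ K] in
theorem ul1_eq_of_lt {x y : K} (hy : O.valuation y = 1) (h : O.valuation (x - y) < 1) :
    O.valuation x = 1 := by
  have := O.valuation.map_add_eq_of_lt_right (h.trans_eq hy.symm)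
  rwa [sub_add_cancel, hy] at this

omit [Algebra ℂ K] in
theorem ul1_lt_of_lt {x y : K} (hy : O.valuation y < 1) (h : O.valuation (x - y) < 1) :
    O.valuation x < 1 := by
  have := O.valuation.map_add_lt h hy
  rwa [sub_add_cancel] at this

omit [Algebra ℂ K] in
theorem ul1_pow {x y : K} (hy : O.valuation y ≤ 1) (h : O.valuation (x - y) < 1) (n : ℕ) :
    O.valuation (x ^ n - y ^ n) < 1 := by
  lift x to O using (O.valuation_le_one_iff x).mp (ul1_le_of_lt hy h)
  lift y to O using (O.valuation_le_one_iff y).mp hy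
  rw [ul1_lt_iff] at h
  have := (ul1_lt_iff (x ^ n) (y ^ n)).mpr (by rw [map_pow, map_pow, h])
  simpa using this

theorem ul1_cst_le (h : NearPow d c O) (a : ℂ) : O.valuation (algebraMap ℂ K a) ≤ 1 :=
  (O.valuation_le_one_iff _).mpr (h.cst a)

theorem ul1_lift (h : NearPow d c O) : ∃ c' : Fin (2 * d + 1) → O, (fun j => O.subtype (c' j)) = c ∧
    (fun j => IsLocalRing.residue O (c' j)) = ul1c _ d := by
  refine ⟨fun j => ⟨c j, (O.valuation_le_one_iff _).mp
    (ul1_le_of_lt (ul1_cst_le h _) (h.near j))⟩, rfl, funext fun j => ?_⟩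
  have h1 := (ul1_lt_iff ⟨c j, (O.valuation_le_one_iff _).mp
    (ul1_le_of_lt (ul1_cst_le h _) (h.near j))⟩ (if j.val = d then 1 else 0)).mp (by
      have := h.near j
      unfold cz at this
      split_ifs at this ⊢ <;> simpa using this)
  rw [h1, ul1c]
  split_ifs <;> simp

theorem NearPow.val_cst (h : NearPow d c O) {a : ℂ} (ha : a ≠ 0) :
    O.valuation (algebraMap ℂ K a) = 1 := by
  refine le_antisymm (ul1_cst_le h a) ?_
  have h1 := ul1_cst_le h a⁻¹
  have h0 : O.valuation (algebraMap ℂ K a) ≠ 0 := by simpa using ha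
  rwa [map_inv₀, map_inv₀, inv_le_one₀ (zero_lt_iff.mpr h0)] at h1

theorem ul1_iter_sub (h : NearPow d c O) {x : V K} (hx : ∀ i, O.valuation (x i) ≤ 1) (n : ℕ)
    (i : Fin 2) : O.valuation ((app (FU d c))^[n] x i - x i ^ d ^ n) < 1 := by
  obtain ⟨c', rfl, h2⟩ := ul1_lift h
  set x' : V O := fun i => ⟨x i, (O.valuation_le_one_iff _).mp (hx i)⟩ with hx'
  have e : x = fun i => O.subtype (x' i) := rfl
  have h3 := (ul1_lt_iff ((app (FU d c'))^[n] x' i) (x' i ^ d ^ n)).mpr (by
    have := congrFun (iter_mapF (IsLocalRing.residue O) (FU d c') n x') i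
    rw [← this, mapF_FU, h2, ul1_iter, map_pow])
  have h4 := congrFun (iter_mapF O.subtype (FU d c') n x') i
  rw [mapF_FU, ← e] at h4
  rw [h4]
  simpa [hx'] using h3

/-- On integral vectors the map is congruent to `(x ^ d, y ^ d)`. -/
theorem NearPow.app_sub (h : NearPow d c O) {x : V K} (hx : ∀ i, O.valuation (x i) ≤ 1) (i : Fin 2) :
    O.valuation (app (FU d c) x i - x i ^ d) < 1 := by
  simpa using ul1_iter_sub h hx 1 i

omit [Algebra ℂ K] in
theorem ul1_int {x : K} (hx : O.valuation x ≤ 1) (i : Fin 2) :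
    O.valuation ((![x, 1] : V K) i) ≤ 1 := by
  fin_cases i
  · exact hx
  · simp

theorem NearPow.a_sub (h : NearPow d c O) {x : K} (hx : O.valuation x ≤ 1) :
    O.valuation ((aU d c).eval x - x ^ d) < 1 := by
  simpa [ul1_app_one] using h.app_sub (ul1_int hx) 0

theorem NearPow.b_sub (h : NearPow d c O) {x : K} (hx : O.valuation x ≤ 1) :
    O.valuation ((bU d c).eval x - 1) < 1 := by
  simpa [ul1_app_one] using h.app_sub (ul1_int hx) 1

theorem NearPow.wr_sub (h : NearPow d c O) {x : K} (hx : O.valuation x ≤ 1) :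
    O.valuation ((wr (aU d c) (bU d c)).eval x - d * x ^ (d - 1)) < 1 := by
  obtain ⟨c', rfl, h2⟩ := ul1_lift h
  lift x to O using (O.valuation_le_one_iff x).mp hx
  have h3 := (ul1_lt_iff ((wr (aU d c') (bU d c')).eval x) (d * x ^ (d - 1))).mpr (by
    rw [← eval_map_apply, ul1_wr_map, ul1_aU_map, ul1_bU_map, h2, ul1_aU, ul1_bU]
    simp [wr, derivative_X_pow])
  have h4 := eval_map_apply (p := wr (aU d c') (bU d c')) O.subtype x
  rw [ul1_wr_map, ul1_aU_map, ul1_bU_map] at h4
  have h5 : O.subtype x = (x : K) := rfl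
  rw [h5] at h4
  rw [h4]
  simpa using h3

omit [Algebra ℂ K] in
theorem ul1_hom : IsHom d (FU d c) := isHom_mk d _ _

/-- Scaling by a coordinate of maximal valuation. -/
theorem ul1_scale (h : NearPow d c O) {q : V K} {j : Fin 2} (hj : q j ≠ 0)
    (hq : ∀ l, O.valuation (q l) ≤ O.valuation (q j)) :
    O.valuation (app (FU d c) q j) = O.valuation (q j) ^ d ∧
      ∀ i, 1 ≤ d → O.valuation (q i) < O.valuation (q j) →
        O.valuation (app (FU d c) q i) < O.valuation (q j) ^ d := by
  have hv : 0 < O.valuation (q j) := zero_lt_iff.mpr (by simpa using hj)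
  set q' : V K := fun l => q l / q j with hq'
  have e : q = q j • q' := by
    funext l
    simp only [hq', Pi.smul_apply, smul_eq_mul]
    field_simp
  have h1 : ∀ l, O.valuation (q' l) ≤ 1 := fun l => by
    rw [hq', map_div₀, div_le_one₀ hv]
    exact hq l
  have h2 : ∀ l, app (FU d c) q l = q j ^ d * app (FU d c) q' l := fun l => by
    conv_lhs => rw [e, app_smul ul1_hom]
    rfl
  constructor
  · rw [h2, map_mul, map_pow, ul1_eq_of_lt ?_ (h.app_sub h1 j), mul_one]
    simp [hq', hj]
  · intro i hd hi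
    rw [h2, map_mul, map_pow]
    refine mul_lt_of_lt_one_right (pow_pos hv d) (ul1_lt_of_lt ?_ (h.app_sub h1 i))
    rw [map_pow]
    refine pow_lt_one₀ zero_le ?_ (by omega)
    rw [hq', map_div₀, div_lt_one₀ hv]
    exact hi

omit [Algebra ℂ K] in
theorem ul1_max (O : ValuationSubring K) {q : V K} (hq : q ≠ 0) :
    ∃ j, q j ≠ 0 ∧ ∀ l, O.valuation (q l) ≤ O.valuation (q j) := by
  obtain ⟨j, hj⟩ := Finite.exists_max fun l => O.valuation (q l)
  refine ⟨j, fun h0 => hq (funext fun l => ?_), hj⟩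
  have := hj l
  rw [h0, map_zero, le_zero_iff] at this
  simpa using this

theorem NearPow.nz (h : NearPow d c O) (x : V K) (hx : x ≠ 0) : app (FU d c) x ≠ 0 := by
  obtain ⟨j, h0, hj⟩ := ul1_max O hx
  intro e
  have h1 := (ul1_scale h h0 hj).1
  rw [e, Pi.zero_apply, map_zero] at h1
  exact pow_ne_zero d (by simpa using h0) h1.symm

omit [Algebra ℂ K] in
theorem ul1_root [IsAlgClosed K] (O : ValuationSubring K) (Φ : K[X]) {s t : K}
    (hst : O.valuation (t - s) ≤ 1) (h : O.valuation (Φ.eval s) < O.valuation (Φ.eval t)) :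
    ∃ w, Φ.eval w = 0 ∧ O.valuation (w - s) < 1 := by
  by_contra hn
  push Not at hn
  refine absurd h (not_lt.mpr ?_)
  rw [(IsAlgClosed.splits Φ).eval_eq_prod_roots, (IsAlgClosed.splits Φ).eval_eq_prod_roots,
    map_mul, map_mul]
  refine mul_le_mul_right ?_ _
  have key : ∀ m : Multiset K, (∀ y ∈ m, Φ.eval y = 0) →
      O.valuation (m.map (t - ·)).prod ≤ O.valuation (m.map (s - ·)).prod := by
    intro m
    induction m using Multiset.induction_on with
    | empty => simp
    | cons y m ih =>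
      intro hm
      rw [Multiset.map_cons, Multiset.map_cons, Multiset.prod_cons, Multiset.prod_cons, map_mul,
        map_mul]
      refine mul_le_mul' ?_ (ih fun z hz => hm z (Multiset.mem_cons_of_mem hz))
      have h1 := hn y (hm y (Multiset.mem_cons_self y m))
      rw [O.valuation.map_sub_swap] at h1
      have h2 := O.valuation.map_add_le (hst.trans h1) le_rfl
      rwa [sub_add_sub_cancel] at h2
  exact key _ fun y hy => isRoot_of_mem_roots hy

theorem ul1_step (h : NearPow d c O) {w : K} {z : ℂ}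
    (hw : O.valuation (w - algebraMap ℂ K z) < 1) :
    (bU d c).eval w ≠ 0 ∧ ∃ w1 : K, O.valuation (w1 - algebraMap ℂ K (z ^ d)) < 1 ∧
      (aU d c).eval w = w1 * (bU d c).eval w := by
  have h0 := ul1_le_of_lt (ul1_cst_le h z) hw
  have hb := h.b_sub h0
  have hb1 := ul1_eq_of_lt (map_one _) hb
  have hb0 : (bU d c).eval w ≠ 0 := by
    intro e
    rw [e, map_zero] at hb1
    exact zero_ne_one hb1
  refine ⟨hb0, (aU d c).eval w / (bU d c).eval w, ?_, by field_simp⟩
  have e : (aU d c).eval w / (bU d c).eval w - algebraMap ℂ K (z ^ d) =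
      (((aU d c).eval w - w ^ d) + (w ^ d - algebraMap ℂ K z ^ d) -
        algebraMap ℂ K (z ^ d) * ((bU d c).eval w - 1)) / (bU d c).eval w := by
    rw [map_pow]
    field_simp
    ring
  rw [e, map_div₀, hb1, div_one]
  refine O.valuation.map_sub_lt (O.valuation.map_add_lt (h.a_sub h0)
    (ul1_pow (ul1_cst_le h z) hw d)) ?_
  rw [map_mul]
  exact mul_lt_one_of_nonneg_of_lt_one_right (ul1_cst_le h _) zero_le hb

theorem ul1_fix (h : NearPow d c O) (z : ℂ) :
    O.valuation ((fixp (itc (FU d c) 3)).eval (algebraMap ℂ K z) -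
      algebraMap ℂ K (z ^ d ^ 3 - z)) < 1 := by
  have h0 := ul1_iter_sub h (ul1_int (ul1_cst_le h z)) 3 0
  have h1 := ul1_iter_sub h (ul1_int (ul1_cst_le h z)) 3 1
  simp only [Matrix.cons_val_zero, Matrix.cons_val_one, one_pow] at h0 h1
  rw [eval_fixp, app_itc, wedge]
  simp only [Matrix.cons_val_zero, Matrix.cons_val_one, map_sub, map_pow]
  have e : ∀ a b x y : K, a * 1 - b * x - (y - x) = (a - y) - x * (b - 1) := fun a b x y => by ring
  rw [e]
  refine O.valuation.map_sub_lt h0 ?_
  rw [map_mul]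
  exact mul_lt_one_of_nonneg_of_lt_one_right (ul1_cst_le h _) zero_le h1

/-- `Φ = fixp (itc (FU d c) 3)` takes integral values at integral points, with
`Φ x ≡ x ^ (d ^ 3) - x`.  Write `Φ = lead * ∏ (X - y)`.  If no root were congruent to `ζ` then
`v (ζ - y) = max 1 (v y) ≥ v (2 - y)` for all roots, so `v (Φ ζ) ≥ v (Φ 2) = 1`, a contradiction.
For such a root `w` put `w1 = a w / b w`, `w2 = a w1 / b w1`. -/
theorem NearPow.orbit [IsAlgClosed K] (h : NearPow d c O) (hd : 2 ≤ d) {ζ : ℂ}
    (hζ : ζ ^ (d ^ 3 - 1) = 1) :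
    ∃ w w1 w2 : K, O.valuation (w - algebraMap ℂ K ζ) < 1 ∧
      O.valuation (w1 - algebraMap ℂ K (ζ ^ d)) < 1 ∧
      O.valuation (w2 - algebraMap ℂ K (ζ ^ d ^ 2)) < 1 ∧
      (aU d c).eval w = w1 * (bU d c).eval w ∧ (aU d c).eval w1 = w2 * (bU d c).eval w1 ∧
      (aU d c).eval w2 = w * (bU d c).eval w2 := by
  have hd3 : 2 ≤ d ^ 3 := hd.trans (Nat.le_self_pow (by norm_num) d)
  have h1 := ul1_fix h ζ
  have e1 : ζ ^ d ^ 3 - ζ = 0 := by
    rw [← Nat.sub_add_cancel (by omega : 1 ≤ d ^ 3), pow_succ, hζ, one_mul, sub_self]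
  rw [e1, map_zero, sub_zero] at h1
  have h2 := ul1_eq_of_lt (h.val_cst (by
    have h3 : (2 : ℕ) ^ 1 < 2 ^ d ^ 3 := Nat.pow_lt_pow_right (by norm_num) (by omega)
    have h4 : (2 : ℕ) ^ d ^ 3 ≠ 2 := by omega
    rw [sub_ne_zero]
    exact_mod_cast h4)) (ul1_fix h 2)
  obtain ⟨w, hw0, hw⟩ := ul1_root O (fixp (itc (FU d c) 3)) (s := algebraMap ℂ K ζ)
    (t := algebraMap ℂ K 2) (by rw [← map_sub]; exact ul1_cst_le h _) (h1.trans_eq h2.symm)
  obtain ⟨b0, w1, hw1, a0⟩ := ul1_step h hw
  obtain ⟨b1, w2, hw2, a1⟩ := ul1_step h hw1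
  refine ⟨w, w1, w2, hw, hw1, by rwa [← pow_mul, ← sq] at hw2, a0, a1, ?_⟩
  have s0 : app (FU d c) ![w, 1] = (bU d c).eval w • ![w1, 1] := by
    rw [ul1_app_one, a0]
    simp [mul_comm]
  have s1 : app (FU d c) ![w1, 1] = (bU d c).eval w1 • ![w2, 1] := by
    rw [ul1_app_one, a1]
    simp [mul_comm]
  rw [eval_fixp, app_itc] at hw0
  simp only [Function.iterate_succ_apply', Function.iterate_zero_apply] at hw0
  rw [s0, app_smul ul1_hom, s1, smul_smul, app_smul ul1_hom, wedge_smul_left, ul1_app_one,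
    mul_eq_zero] at hw0
  rcases hw0 with h3 | h3
  · exact absurd h3 (pow_ne_zero _ (mul_ne_zero (pow_ne_zero _ b0) b1))
  · simp only [wedge, Matrix.cons_val_zero, Matrix.cons_val_one] at h3
    linear_combination h3

/-- A critical vector has coordinates of different valuation (`Dj_smul`, `Dj_one`, `wr_sub`), and
this property is preserved by the map (`app_sub` after scaling). -/
theorem NearPow.avoid (h : NearPow d c O) (hd : 2 ≤ d) {w : K} (hw : O.valuation w = 1) {p : V K}
    (hp : p ≠ 0) (hD : Dj d (FU d c) p = 0) (e : ℕ) :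
    wedge ((app (FU d c))^[e] p) ![w, 1] ≠ 0 := by
  have hv : O.valuation (d : K) = 1 := by
    have := h.val_cst (a := (d : ℂ)) (by exact_mod_cast (by omega : d ≠ 0))
    rwa [map_natCast] at this
  have hdK : (d : K) ≠ 0 := by
    intro e0
    rw [e0, map_zero] at hv
    exact zero_ne_one hv
  have h0 : O.valuation (p 0) ≠ O.valuation (p 1) := by
    intro e0
    have hp1 : p 1 ≠ 0 := by
      intro e1
      rw [e1, map_zero] at e0
      refine hp (funext fun i => ?_)
      fin_cases i
      · simpa using e0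
      · exact e1
    have hx : O.valuation (p 0 / p 1) = 1 := by
      rw [map_div₀, e0, div_self (by simpa using hp1)]
    have e2 : p = p 1 • ![p 0 / p 1, 1] := by
      funext i
      fin_cases i
      · simp
        field_simp
      · simp
    rw [e2, Dj_smul ul1_hom, Dj_one hdK ul1_hom, mul_eq_zero] at hD
    rcases hD with h3 | h3
    · exact pow_ne_zero _ hp1 h3
    · simp only [FU, MP_0dd0d9_ag.mk, Matrix.cons_val_zero, Matrix.cons_val_one] at h3
      rw [deh_homogenize (natDegree_aU_le d c), deh_homogenize (natDegree_bU_le d c)] at h3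
      have h4 := ul1_eq_of_lt (by rw [map_mul, map_pow, hv, hx, one_pow, one_mul]) (h.wr_sub hx.le)
      rw [h3, map_zero] at h4
      exact zero_ne_one h4
  have h1 : ∀ q : V K, O.valuation (q 0) ≠ O.valuation (q 1) →
      O.valuation (app (FU d c) q 0) ≠ O.valuation (app (FU d c) q 1) := by
    intro q hq
    rcases lt_or_gt_of_ne hq with h2 | h2
    · have h3 : q 1 ≠ 0 := by
        intro e0
        rw [e0, map_zero] at h2
        exact not_lt_zero h2
      obtain ⟨h4, h5⟩ := ul1_scale h h3 (Fin.forall_fin_two.mpr ⟨h2.le, le_rfl⟩)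
      rw [h4]
      exact (h5 0 (by omega) h2).ne
    · have h3 : q 0 ≠ 0 := by
        intro e0
        rw [e0, map_zero] at h2
        exact not_lt_zero h2
      obtain ⟨h4, h5⟩ := ul1_scale h h3 (Fin.forall_fin_two.mpr ⟨le_rfl, h2.le⟩)
      rw [h4]
      exact (h5 1 (by omega) h2).ne'
  have h2 : O.valuation ((app (FU d c))^[e] p 0) ≠ O.valuation ((app (FU d c))^[e] p 1) := by
    induction e with
    | zero => exact h0
    | succ e ih =>
      rw [Function.iterate_succ_apply']
      exact h1 _ ih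
  intro e0
  simp only [wedge, Matrix.cons_val_zero, Matrix.cons_val_one, mul_one, sub_eq_zero] at e0
  rw [e0, map_mul, hw, mul_one] at h2
  exact h2 rfl

end Pool.Agent.Lib.MP_0dd0d9_ag
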