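import Pool.Agent.Lib.MP_0dd0d9_ag.Gn

/-!
TASK g0d WD.  Critical points of a quotient in a disc (residue characteristic zero).

Call a radius `r = ‖x - a‖` regular if no root of `g`, `b`, `wr g b` lies on the circle
`‖y - a‖ = r`.  At such `x`, `(x - a) * (g'/g - b'/b) (x)` is a sum of terms
`(x - a) / (x - y)`, each within distance less than `1` of `1` (root inside) or of `0` (root
outside); so it has norm one when the two counts differ, that is
`r * ‖wr g b (x)‖ = ‖g x‖ * ‖b x‖` (in particular `wr g b ≠ 0`).  For radii `r` in the gap just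
above `ρ` one has `gn p a r = gn p a ρ * (r / ρ) ^ cnt p a ρ`, in the gap just below `ρ` the same
with `cnto`.  Two different regular radii in the gap (`exists_norm_between`) give both the identity
of the exponents and the identity at `ρ`.
-/

namespace Pool.Agent.Lib.MP_0dd0d9_ag

open Polynomial

variable {K : Type*} [NormedField K] [IsUltrametricDist K] [IsAlgClosed K]

theorem cnt_mul {p q : K[X]} (hp : p ≠ 0) (hq : q ≠ 0) (a : K) (r : ℝ) :
    cnt (p * q) a r = cnt p a r + cnt q a r := by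
  unfold cnt
  rw [roots_mul (mul_ne_zero hp hq), Multiset.filter_add, Multiset.card_add]
theorem cnto_mul {p q : K[X]} (hp : p ≠ 0) (hq : q ≠ 0) (a : K) (r : ℝ) :
    cnto (p * q) a r = cnto p a r + cnto q a r := by
  unfold cnto
  rw [roots_mul (mul_ne_zero hp hq), Multiset.filter_add, Multiset.card_add]
theorem cnt_eq_zero_iff {p : K[X]} (hp : p ≠ 0) (a : K) (r : ℝ) :
    cnt p a r = 0 ↔ ∀ y, p.IsRoot y → r < ‖y - a‖ := by
  unfold cnt
  rw [Multiset.card_eq_zero, Multiset.filter_eq_nil]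
  constructor
  · intro h y hy
    exact not_le.mp (h y ((mem_roots hp).mpr hy))
  · intro h y hy
    exact not_le.mpr (h y ((mem_roots hp).mp hy))
theorem cnto_eq_zero_iff {p : K[X]} (hp : p ≠ 0) (a : K) (r : ℝ) :
    cnto p a r = 0 ↔ ∀ y, p.IsRoot y → r ≤ ‖y - a‖ := by
  unfold cnto
  rw [Multiset.card_eq_zero, Multiset.filter_eq_nil]
  constructor
  · intro h y hy
    exact not_lt.mp (h y ((mem_roots hp).mpr hy))
  · intro h y hy
    exact not_lt.mpr (h y ((mem_roots hp).mp hy))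

/-- A product whose factors are rescaled exactly on the elements with a given property. -/
theorem wd_prod_scale {α : Type*} (s : Multiset α) (P : α → Prop) [DecidablePred P]
    (f f' : α → ℝ) (t : ℝ) (h1 : ∀ y ∈ s, P y → f' y = f y * t)
    (h2 : ∀ y ∈ s, ¬ P y → f' y = f y) :
    (s.map f').prod = (s.map f).prod * t ^ (s.filter P).card := by
  induction s using Multiset.induction_on with
  | empty => simp
  | cons y s ih =>
    have ih' := ih (fun z hz => h1 z (Multiset.mem_cons_of_mem hz))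
      (fun z hz => h2 z (Multiset.mem_cons_of_mem hz))
    rw [Multiset.map_cons, Multiset.map_cons, Multiset.prod_cons, Multiset.prod_cons, ih']
    by_cases hP : P y
    · rw [Multiset.filter_cons_of_pos _ hP, Multiset.card_cons,
        h1 y (Multiset.mem_cons_self _ _) hP]
      ring
    · rw [Multiset.filter_cons_of_neg _ hP, h2 y (Multiset.mem_cons_self _ _) hP]
      ring

/-- No roots with `ρ < ‖y - a‖ < r`. -/
theorem gn_gap_up (p : K[X]) (a : K) {ρ r : ℝ} (hρ : 0 < ρ) (hr : ρ ≤ r)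
    (hgap : ∀ y, p.IsRoot y → ‖y - a‖ ≤ ρ ∨ r ≤ ‖y - a‖) :
    gn p a r = gn p a ρ * (r / ρ) ^ cnt p a ρ := by
  classical
  unfold gn cnt
  rw [mul_assoc]
  refine congrArg _ (wd_prod_scale _ _ _ _ _ ?_ ?_)
  · intro y _ hy
    rw [max_eq_left hy, max_eq_left (hy.trans hr)]
    field_simp
  · intro y hy hP
    rcases hgap y (isRoot_of_mem_roots hy) with h | h
    · exact absurd h hP
    · rw [max_eq_right h, max_eq_right (hr.trans h)]
theorem gn_gap_down (p : K[X]) (a : K) {ρ r : ℝ} (hr : 0 < r) (hrρ : r < ρ)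
    (hgap : ∀ y, p.IsRoot y → ‖y - a‖ ≤ r ∨ ρ ≤ ‖y - a‖) :
    gn p a r = gn p a ρ * (r / ρ) ^ cnto p a ρ := by
  classical
  have hρ : 0 < ρ := hr.trans hrρ
  unfold gn cnto
  rw [mul_assoc]
  refine congrArg _ (wd_prod_scale _ _ _ _ _ ?_ ?_)
  · intro y hy hP
    rcases hgap y (isRoot_of_mem_roots hy) with h | h
    · rw [max_eq_left h, max_eq_left hP.le]
      field_simp
    · exact absurd hP (not_lt.mpr h)
  · intro y _ hP
    have h : ρ ≤ ‖y - a‖ := not_lt.mp hP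
    rw [max_eq_right h, max_eq_right (hrρ.le.trans h)]

omit [IsAlgClosed K] in
theorem wd_norm_sub {x y a : K} (h : ‖y - a‖ ≠ ‖x - a‖) :
    ‖x - y‖ = max ‖x - a‖ ‖y - a‖ := by
  have h1 : x - y = (x - a) + -(y - a) := by ring
  have h2 : ‖x - a‖ ≠ ‖-(y - a)‖ := by
    rw [norm_neg]
    exact fun h' => h h'.symm
  rw [h1, IsUltrametricDist.norm_add_eq_max_of_norm_ne_norm h2, norm_neg]

omit [IsAlgClosed K] in
open Classical in
theorem wd_sum_inv (s : Multiset K) {x a : K} (hx : 0 < ‖x - a‖)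
    (hs : ∀ y ∈ s, ‖y - a‖ ≠ ‖x - a‖) :
    ‖(x - a) * (s.map fun y => 1 / (x - y)).sum -
      ((s.filter fun y => ‖y - a‖ < ‖x - a‖).card : K)‖ < 1 := by
  induction s using Multiset.induction_on with
  | empty => simp
  | cons y s ih =>
    have ih' := ih (fun z hz => hs z (Multiset.mem_cons_of_mem hz))
    have hy := hs y (Multiset.mem_cons_self _ _)
    have hn := wd_norm_sub hy
    have hxy0 : 0 < ‖x - y‖ := by
      rw [hn]
      exact lt_of_lt_of_le hx (le_max_left _ _)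
    have hxy : x - y ≠ 0 := norm_pos_iff.mp hxy0
    rw [Multiset.map_cons, Multiset.sum_cons]
    by_cases hP : ‖y - a‖ < ‖x - a‖
    · rw [Multiset.filter_cons_of_pos (p := fun y => ‖y - a‖ < ‖x - a‖) _ hP,
        Multiset.card_cons]
      have e : (x - a) * (1 / (x - y) + (s.map fun y => 1 / (x - y)).sum) -
          (((s.filter fun y => ‖y - a‖ < ‖x - a‖).card + 1 : ℕ) : K) =
          (y - a) / (x - y) + ((x - a) * (s.map fun y => 1 / (x - y)).sum -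
          ((s.filter fun y => ‖y - a‖ < ‖x - a‖).card : K)) := by
        push_cast
        field_simp
        ring
      rw [e]
      refine lt_of_le_of_lt (IsUltrametricDist.norm_add_le_max _ _) (max_lt ?_ ih')
      rw [norm_div, div_lt_one hxy0, hn]
      exact lt_of_lt_of_le hP (le_max_left _ _)
    · rw [Multiset.filter_cons_of_neg (p := fun y => ‖y - a‖ < ‖x - a‖) _ hP]
      have hP' : ‖x - a‖ < ‖y - a‖ := lt_of_le_of_ne (not_lt.mp hP) (fun h => hy h.symm)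
      have e : (x - a) * (1 / (x - y) + (s.map fun y => 1 / (x - y)).sum) -
          (((s.filter fun y => ‖y - a‖ < ‖x - a‖).card : ℕ) : K) =
          (x - a) / (x - y) + ((x - a) * (s.map fun y => 1 / (x - y)).sum -
          ((s.filter fun y => ‖y - a‖ < ‖x - a‖).card : K)) := by
        ring
      rw [e]
      refine lt_of_le_of_lt (IsUltrametricDist.norm_add_le_max _ _) (max_lt ?_ ih')
      rw [norm_div, div_lt_one hxy0, hn]
      exact lt_of_lt_of_le hP' (le_max_right _ _)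

omit [IsAlgClosed K] in
theorem wd_gen {p : K[X]} {x a : K} (hs : ∀ y, p.IsRoot y → ‖y - a‖ ≠ ‖x - a‖) :
    Gen p x ‖x - a‖ := by
  intro y hy
  rw [wd_norm_sub (hs y hy)]
  exact le_max_left _ _

theorem wd_logder {p : K[X]} {x a : K} (hx : 0 < ‖x - a‖)
    (hs : ∀ y, p.IsRoot y → ‖y - a‖ ≠ ‖x - a‖) :
    ‖(x - a) * ((derivative p).eval x / p.eval x) - (cnto p a ‖x - a‖ : K)‖ < 1 := by
  have hp : p.eval x ≠ 0 := (wd_gen hs).ne_zero hx
  rw [(IsAlgClosed.splits p).eval_derivative_div_eval_of_ne_zero hp]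
  exact wd_sum_inv p.roots hx (fun y hy => hs y (isRoot_of_mem_roots hy))

/-- The identity at a regular radius. -/
theorem wd_reg (hN : Res0 K) {g b : K[X]} {x a : K} (hx : 0 < ‖x - a‖)
    (hg : ∀ y, g.IsRoot y → ‖y - a‖ ≠ ‖x - a‖) (hb : ∀ y, b.IsRoot y → ‖y - a‖ ≠ ‖x - a‖)
    (hc : cnto g a ‖x - a‖ ≠ cnto b a ‖x - a‖) :
    ‖x - a‖ * ‖(wr g b).eval x‖ = ‖g.eval x‖ * ‖b.eval x‖ := by
  have hg0 : g.eval x ≠ 0 := (wd_gen hg).ne_zero hx
  have hb0 : b.eval x ≠ 0 := (wd_gen hb).ne_zero hx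
  have h1 := wd_logder hx hg
  have h2 := wd_logder hx hb
  have h3 := norm_nat_sub hN hc
  set u := (x - a) * ((derivative g).eval x / g.eval x) - (cnto g a ‖x - a‖ : K) with hu
  set v := (x - a) * ((derivative b).eval x / b.eval x) - (cnto b a ‖x - a‖ : K) with hv
  have h4 : ‖u + -v‖ < 1 := by
    refine lt_of_le_of_lt (IsUltrametricDist.norm_add_le_max _ _) (max_lt h1 ?_)
    rwa [norm_neg]
  have h5 : ‖((cnto g a ‖x - a‖ : K) - (cnto b a ‖x - a‖ : K)) + (u + -v)‖ = 1 := by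
    rw [IsUltrametricDist.norm_add_eq_max_of_norm_ne_norm (by rw [h3]; exact h4.ne'), h3]
    exact max_eq_left h4.le
  have e : (x - a) * (wr g b).eval x =
      (((cnto g a ‖x - a‖ : K) - (cnto b a ‖x - a‖ : K)) + (u + -v)) *
        (g.eval x * b.eval x) := by
    rw [hu, hv]
    simp only [wr, eval_sub, eval_mul]
    field_simp
    ring
  rw [← norm_mul, e, norm_mul, h5, one_mul, norm_mul]

theorem wd_gap_up_fin {α : Type*} (s : Multiset α) (f : α → ℝ) (ρ : ℝ) :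
    ∃ R, ρ < R ∧ ∀ y ∈ s, f y ≤ ρ ∨ R ≤ f y := by
  induction s using Multiset.induction_on with
  | empty => exact ⟨ρ + 1, by linarith, by simp⟩
  | cons y s ih =>
    obtain ⟨R, hR, h⟩ := ih
    by_cases hy : f y ≤ ρ
    · refine ⟨R, hR, fun z hz => ?_⟩
      rcases Multiset.mem_cons.mp hz with rfl | hz
      · exact Or.inl hy
      · exact h z hz
    · refine ⟨min R (f y), lt_min hR (not_le.mp hy), fun z hz => ?_⟩
      rcases Multiset.mem_cons.mp hz with rfl | hz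
      · exact Or.inr (min_le_right _ _)
      · rcases h z hz with h' | h'
        · exact Or.inl h'
        · exact Or.inr ((min_le_left _ _).trans h')

theorem wd_gap_down_fin {α : Type*} (s : Multiset α) (f : α → ℝ) {ρ : ℝ} (hρ : 0 < ρ) :
    ∃ R, 0 < R ∧ R < ρ ∧ ∀ y ∈ s, f y ≤ R ∨ ρ ≤ f y := by
  induction s using Multiset.induction_on with
  | empty => exact ⟨ρ / 2, by linarith, by linarith, by simp⟩
  | cons y s ih =>
    obtain ⟨R, hR0, hR, h⟩ := ih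
    by_cases hy : ρ ≤ f y
    · refine ⟨R, hR0, hR, fun z hz => ?_⟩
      rcases Multiset.mem_cons.mp hz with rfl | hz
      · exact Or.inr hy
      · exact h z hz
    · refine ⟨max R (f y), lt_of_lt_of_le hR0 (le_max_left _ _), max_lt hR (not_le.mp hy),
        fun z hz => ?_⟩
      rcases Multiset.mem_cons.mp hz with rfl | hz
      · exact Or.inl (le_max_right _ _)
      · rcases h z hz with h' | h'
        · exact Or.inl (h'.trans (le_max_left _ _))
        · exact Or.inr h'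

theorem wd_two {A B t1 t2 : ℝ} {m n : ℕ} (hA : 0 < A) (h1 : 0 < t1) (h12 : t1 < t2)
    (e1 : A * t1 ^ m = B * t1 ^ n) (e2 : A * t2 ^ m = B * t2 ^ n) : m = n ∧ A = B := by
  have h2 : 0 < t2 := h1.trans h12
  have hq : 1 < t2 / t1 := (one_lt_div h1).mpr h12
  have hB : B ≠ 0 := by
    rintro rfl
    have : 0 < A * t1 ^ m := by positivity
    rw [e1, zero_mul] at this
    exact lt_irrefl _ this
  have e : (t2 / t1) ^ m = (t2 / t1) ^ n := by
    rw [div_pow, div_pow, div_eq_div_iff (by positivity) (by positivity)]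
    have e3 : A * B * (t2 ^ m * t1 ^ n) = A * B * (t2 ^ n * t1 ^ m) := by
      calc A * B * (t2 ^ m * t1 ^ n) = (A * t2 ^ m) * (B * t1 ^ n) := by ring
        _ = (B * t2 ^ n) * (A * t1 ^ m) := by rw [e2, e1]
        _ = A * B * (t2 ^ n * t1 ^ m) := by ring
    exact mul_left_cancel₀ (mul_ne_zero hA.ne' hB) e3
  have hmn : m = n := (pow_right_strictMono₀ hq).injective e
  subst hmn
  exact ⟨rfl, mul_right_cancel₀ (by positivity) e1⟩

omit [IsUltrametricDist K] [IsAlgClosed K] in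
theorem wd_cnto_up {p : K[X]} {a : K} {ρ r R : ℝ} (h1 : ρ < r) (h2 : r < R)
    (hgap : ∀ y, p.IsRoot y → ‖y - a‖ ≤ ρ ∨ R ≤ ‖y - a‖) : cnto p a r = cnt p a ρ := by
  unfold cnto cnt
  refine congrArg _ (Multiset.filter_congr fun y hy => ?_)
  constructor
  · intro h
    rcases hgap y (isRoot_of_mem_roots hy) with h' | h'
    · exact h'
    · linarith
  · intro h
    linarith

omit [IsUltrametricDist K] [IsAlgClosed K] in
theorem wd_cnto_down {p : K[X]} {a : K} {ρ r R : ℝ} (h1 : R < r) (h2 : r < ρ)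
    (hgap : ∀ y, p.IsRoot y → ‖y - a‖ ≤ R ∨ ρ ≤ ‖y - a‖) : cnto p a r = cnto p a ρ := by
  unfold cnto
  refine congrArg _ (Multiset.filter_congr fun y hy => ?_)
  constructor
  · intro h
    linarith
  · intro h
    rcases hgap y (isRoot_of_mem_roots hy) with h' | h'
    · linarith
    · linarith

omit [IsUltrametricDist K] [IsAlgClosed K] in
theorem wd_ne {p : K[X]} {a : K} {u r v : ℝ} (h1 : u < r) (h2 : r < v)
    (hgap : ∀ y, p.IsRoot y → ‖y - a‖ ≤ u ∨ v ≤ ‖y - a‖) :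
    ∀ y, p.IsRoot y → ‖y - a‖ ≠ r := by
  intro y hy h
  rcases hgap y hy with h' | h'
  · linarith
  · linarith

theorem wd_exists_pt {ϖ : K} (h0 : 0 < ‖ϖ‖) (h1 : ‖ϖ‖ < 1) (a : K) {u u' : ℝ}
    (hu : 0 < u) (huu : u < u') : ∃ x : K, u < ‖x - a‖ ∧ ‖x - a‖ < u' := by
  obtain ⟨x, hx1, hx2⟩ := exists_norm_between h0 h1 hu huu
  refine ⟨x + a, ?_, ?_⟩
  · rwa [add_sub_cancel_right]
  · rwa [add_sub_cancel_right]

omit [IsUltrametricDist K] [IsAlgClosed K] in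
theorem wd_root_left {p q : K[X]} (hpq : p * q ≠ 0) {y : K} (hy : p.IsRoot y) :
    y ∈ (p * q).roots := by
  rw [mem_roots hpq, IsRoot.def, eval_mul, hy.eq_zero, zero_mul]

omit [IsUltrametricDist K] [IsAlgClosed K] in
theorem wd_root_right {p q : K[X]} (hpq : p * q ≠ 0) {y : K} (hy : q.IsRoot y) :
    y ∈ (p * q).roots := by
  rw [mem_roots hpq, IsRoot.def, eval_mul, hy.eq_zero, mul_zero]

theorem wd_eval_up {p : K[X]} {a x : K} {ρ R : ℝ} (hρ : 0 < ρ) (h1 : ρ < ‖x - a‖)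
    (h2 : ‖x - a‖ < R) (hgap : ∀ y, p.IsRoot y → ‖y - a‖ ≤ ρ ∨ R ≤ ‖y - a‖) :
    ‖p.eval x‖ = gn p a ρ * (‖x - a‖ / ρ) ^ cnt p a ρ := by
  rw [gn_eq_of_gen le_rfl (wd_gen (wd_ne h1 h2 hgap))]
  refine gn_gap_up p a hρ h1.le fun y hy => ?_
  rcases hgap y hy with h | h
  · exact Or.inl h
  · exact Or.inr (h2.le.trans h)

theorem wd_eval_down {p : K[X]} {a x : K} {ρ R : ℝ} (hR : 0 < R) (h1 : R < ‖x - a‖)
    (h2 : ‖x - a‖ < ρ) (hgap : ∀ y, p.IsRoot y → ‖y - a‖ ≤ R ∨ ρ ≤ ‖y - a‖) :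
    ‖p.eval x‖ = gn p a ρ * (‖x - a‖ / ρ) ^ cnto p a ρ := by
  rw [gn_eq_of_gen le_rfl (wd_gen (wd_ne h1 h2 hgap))]
  refine gn_gap_down p a (hR.trans h1) h2 fun y hy => ?_
  rcases hgap y hy with h | h
  · exact Or.inl (h.trans h1.le)
  · exact Or.inr h

theorem wd_closed (hN : Res0 K) {ϖ : K} (h0 : 0 < ‖ϖ‖) (h1 : ‖ϖ‖ < 1) {g b : K[X]} (hg : g ≠ 0)
    (hb : b ≠ 0) (a : K) {ρ : ℝ} (hρ : 0 < ρ) (hc : cnt g a ρ ≠ cnt b a ρ) :
    wr g b ≠ 0 ∧ cnt (wr g b) a ρ + 1 = cnt g a ρ + cnt b a ρ ∧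
      ρ * gn (wr g b) a ρ = gn g a ρ * gn b a ρ := by
  have hgb : g * b ≠ 0 := mul_ne_zero hg hb
  obtain ⟨R, hR, hgap⟩ := wd_gap_up_fin (g * b).roots (fun y => ‖y - a‖) ρ
  have gapg : ∀ y, g.IsRoot y → ‖y - a‖ ≤ ρ ∨ R ≤ ‖y - a‖ :=
    fun y hy => hgap y (wd_root_left hgb hy)
  have gapb : ∀ y, b.IsRoot y → ‖y - a‖ ≤ ρ ∨ R ≤ ‖y - a‖ :=
    fun y hy => hgap y (wd_root_right hgb hy)
  have key : ∀ x : K, ρ < ‖x - a‖ → ‖x - a‖ < R →
      ‖x - a‖ * ‖(wr g b).eval x‖ =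
        gn g a ρ * gn b a ρ * (‖x - a‖ / ρ) ^ (cnt g a ρ + cnt b a ρ) := by
    intro x hx1 hx2
    rw [wd_reg hN (hρ.trans hx1) (wd_ne hx1 hx2 gapg) (wd_ne hx1 hx2 gapb)
      (by rwa [wd_cnto_up hx1 hx2 gapg, wd_cnto_up hx1 hx2 gapb]),
      wd_eval_up hρ hx1 hx2 gapg, wd_eval_up hρ hx1 hx2 gapb]
    ring
  have hG := gn_pos hg a hρ
  have hB := gn_pos hb a hρ
  have hw : wr g b ≠ 0 := by
    intro hw
    obtain ⟨x, hx1, hx2⟩ := wd_exists_pt h0 h1 a hρ hR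
    have h := key x hx1 hx2
    have hx0 : 0 < ‖x - a‖ := hρ.trans hx1
    rw [hw, eval_zero, norm_zero, mul_zero] at h
    have : 0 < gn g a ρ * gn b a ρ * (‖x - a‖ / ρ) ^ (cnt g a ρ + cnt b a ρ) := by positivity
    exact this.ne h
  obtain ⟨R', hR', hgap'⟩ := wd_gap_up_fin (wr g b).roots (fun y => ‖y - a‖) ρ
  have gapw : ∀ y, (wr g b).IsRoot y → ‖y - a‖ ≤ ρ ∨ R' ≤ ‖y - a‖ :=
    fun y hy => hgap' y ((mem_roots hw).mpr hy)
  have key2 : ∀ x : K, ρ < ‖x - a‖ → ‖x - a‖ < min R R' →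
      ρ * gn (wr g b) a ρ * (‖x - a‖ / ρ) ^ (cnt (wr g b) a ρ + 1) =
        gn g a ρ * gn b a ρ * (‖x - a‖ / ρ) ^ (cnt g a ρ + cnt b a ρ) := by
    intro x hx1 hx2
    rw [← key x hx1 (lt_of_lt_of_le hx2 (min_le_left _ _)),
      wd_eval_up hρ hx1 (lt_of_lt_of_le hx2 (min_le_right _ _)) gapw, pow_succ]
    field_simp
  obtain ⟨x2, hx21, hx22⟩ := wd_exists_pt h0 h1 a hρ (lt_min hR hR')
  obtain ⟨x1, hx11, hx12⟩ := wd_exists_pt h0 h1 a hρ hx21
  have hW := gn_pos hw a hρ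
  have h := wd_two (mul_pos hρ hW) (div_pos (hρ.trans hx11) hρ)
    (div_lt_div_of_pos_right hx12 hρ) (key2 x1 hx11 (hx12.trans hx22)) (key2 x2 hx21 hx22)
  exact ⟨hw, h.1, h.2⟩

theorem wd_open (hN : Res0 K) {ϖ : K} (h0 : 0 < ‖ϖ‖) (h1 : ‖ϖ‖ < 1) {g b : K[X]} (hg : g ≠ 0)
    (hb : b ≠ 0) (a : K) {ρ : ℝ} (hρ : 0 < ρ) (hc : cnto g a ρ ≠ cnto b a ρ) :
    wr g b ≠ 0 ∧ cnto (wr g b) a ρ + 1 = cnto g a ρ + cnto b a ρ ∧
      ρ * gn (wr g b) a ρ = gn g a ρ * gn b a ρ := by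
  have hgb : g * b ≠ 0 := mul_ne_zero hg hb
  obtain ⟨R, hR0, hR, hgap⟩ := wd_gap_down_fin (g * b).roots (fun y => ‖y - a‖) hρ
  have gapg : ∀ y, g.IsRoot y → ‖y - a‖ ≤ R ∨ ρ ≤ ‖y - a‖ :=
    fun y hy => hgap y (wd_root_left hgb hy)
  have gapb : ∀ y, b.IsRoot y → ‖y - a‖ ≤ R ∨ ρ ≤ ‖y - a‖ :=
    fun y hy => hgap y (wd_root_right hgb hy)
  have key : ∀ x : K, R < ‖x - a‖ → ‖x - a‖ < ρ →
      ‖x - a‖ * ‖(wr g b).eval x‖ =
        gn g a ρ * gn b a ρ * (‖x - a‖ / ρ) ^ (cnto g a ρ + cnto b a ρ) := by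
    intro x hx1 hx2
    rw [wd_reg hN (hR0.trans hx1) (wd_ne hx1 hx2 gapg) (wd_ne hx1 hx2 gapb)
      (by rwa [wd_cnto_down hx1 hx2 gapg, wd_cnto_down hx1 hx2 gapb]),
      wd_eval_down hR0 hx1 hx2 gapg, wd_eval_down hR0 hx1 hx2 gapb]
    ring
  have hG := gn_pos hg a hρ
  have hB := gn_pos hb a hρ
  have hw : wr g b ≠ 0 := by
    intro hw
    obtain ⟨x, hx1, hx2⟩ := wd_exists_pt h0 h1 a hR0 hR
    have h := key x hx1 hx2
    have hx0 : 0 < ‖x - a‖ := hR0.trans hx1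
    rw [hw, eval_zero, norm_zero, mul_zero] at h
    have : 0 < gn g a ρ * gn b a ρ * (‖x - a‖ / ρ) ^ (cnto g a ρ + cnto b a ρ) := by positivity
    exact this.ne h
  obtain ⟨R', hR0', hR', hgap'⟩ := wd_gap_down_fin (wr g b).roots (fun y => ‖y - a‖) hρ
  have gapw : ∀ y, (wr g b).IsRoot y → ‖y - a‖ ≤ R' ∨ ρ ≤ ‖y - a‖ :=
    fun y hy => hgap' y ((mem_roots hw).mpr hy)
  have key2 : ∀ x : K, max R R' < ‖x - a‖ → ‖x - a‖ < ρ →
      ρ * gn (wr g b) a ρ * (‖x - a‖ / ρ) ^ (cnto (wr g b) a ρ + 1) =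
        gn g a ρ * gn b a ρ * (‖x - a‖ / ρ) ^ (cnto g a ρ + cnto b a ρ) := by
    intro x hx1 hx2
    rw [← key x (lt_of_le_of_lt (le_max_left _ _) hx1) hx2,
      wd_eval_down hR0' (lt_of_le_of_lt (le_max_right _ _) hx1) hx2 gapw, pow_succ]
    field_simp
  have hM0 : 0 < max R R' := lt_of_lt_of_le hR0 (le_max_left _ _)
  obtain ⟨x2, hx21, hx22⟩ := wd_exists_pt h0 h1 a hM0 (max_lt hR hR')
  obtain ⟨x1, hx11, hx12⟩ := wd_exists_pt h0 h1 a hM0 hx21
  have hW := gn_pos hw a hρ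
  have h := wd_two (mul_pos hρ hW) (div_pos (hM0.trans hx11) hρ)
    (div_lt_div_of_pos_right hx12 hρ) (key2 x1 hx11 (hx12.trans hx22)) (key2 x2 hx21 hx22)
  exact ⟨hw, h.1, h.2⟩

/-- Pointwise form used along a ray without poles. -/
theorem wd1 (hN : Res0 K) {ϖ : K} (h0 : 0 < ‖ϖ‖) (h1 : ‖ϖ‖ < 1) {g b : K[X]} {a x : K} {ρ : ℝ}
    (hρ : 0 < ρ) (ha : g.IsRoot a) (hb : ∀ y, b.IsRoot y → ρ < ‖y - a‖) (hx : ‖x - a‖ ≤ ρ)
    (hgg : Gen g x ρ) (hgw : Gen (wr g b) x ρ) :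
    ρ * ‖(wr g b).eval x‖ = ‖g.eval x‖ * ‖b.eval x‖ := by
  have hg0 : g ≠ 0 := hgg.poly_ne_zero hρ
  have hb0 : b ≠ 0 := by
    rintro rfl
    have h := hb a (by simp)
    rw [sub_self, norm_zero] at h
    exact lt_irrefl _ (hρ.trans h)
  have hgb : Gen b x ρ := by
    intro y hy
    have h := hb y hy
    rw [wd_norm_sub (lt_of_le_of_lt hx h).ne']
    exact h.le.trans (le_max_right _ _)
  have hcb : cnt b a ρ = 0 := (cnt_eq_zero_iff hb0 a ρ).mpr hb
  have hcg : cnt g a ρ ≠ 0 := by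
    intro h
    have h' := (cnt_eq_zero_iff hg0 a ρ).mp h a ha
    rw [sub_self, norm_zero] at h'
    exact lt_irrefl _ (hρ.trans h')
  have h := wd_closed hN h0 h1 hg0 hb0 a hρ (by rwa [hcb])
  rw [gn_eq_of_gen hx hgg, gn_eq_of_gen hx hgw, gn_eq_of_gen hx hgb]
  exact h.2.2

/-- The image of a generic point is generic: for every `y`,
`ρ * ‖wr a b (x)‖ ≤ ‖a x - y * b x‖ * ‖b x‖` (apply `wd0` to `a - C y * b` and to `b`). -/
theorem wd0_quot {a b : K[X]} {x y : K} {ρ : ℝ} (hρ : 0 < ρ) (hg : Gen (a - C y * b) x ρ)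
    (hb : Gen b x ρ) :
    ρ * ‖(wr a b).eval x‖ ≤ ‖a.eval x - y * b.eval x‖ * ‖b.eval x‖ := by
  have h1 := wd0 hρ hg
  have h2 := wd0 hρ hb
  have e0 : (a - C y * b).eval x = a.eval x - y * b.eval x := by
    rw [eval_sub, eval_mul, eval_C]
  rw [← wr_sub_C_mul a b y, ← e0]
  generalize a - C y * b = g at h1 ⊢
  have e : (wr g b).eval x =
      (derivative g).eval x * b.eval x + -(g.eval x * (derivative b).eval x) := by
    simp only [wr, eval_sub, eval_mul]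
    ring
  rw [e]
  have h3 := IsUltrametricDist.norm_add_le_max ((derivative g).eval x * b.eval x)
    (-(g.eval x * (derivative b).eval x))
  refine (mul_le_mul_of_nonneg_left h3 hρ.le).trans ?_
  rw [mul_max_of_nonneg _ _ hρ.le, norm_neg, norm_mul, norm_mul]
  refine max_le ?_ ?_
  · rw [← mul_assoc]
    exact mul_le_mul_of_nonneg_right h1 (norm_nonneg _)
  · rw [mul_left_comm]
    exact mul_le_mul_of_nonneg_left h2 (norm_nonneg _)

end Pool.Agent.Lib.MP_0dd0d9_ag
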